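import Pool.Agent.Lib.MP_33b3f9_ag.Inf

/-!
The Apery basis.
-/

open Polynomial

namespace Pool.Agent.Lib.MP_33b3f9_ag

noncomputable section

namespace InfData

variable {k R : Type*} [Field k] [CommRing R] [IsDomain R] [Algebra k R] (I : InfData k R)

/-- an element of minimal pole order in a residue class, with leading coefficient one -/
lemma apery_min (n : ℕ) (j : Fin (n + 1)) : ∃ e : R, e ≠ 0 ∧ I.lc e = 1 ∧
    I.deg e % (n + 1) = j ∧ ∀ r : R, r ≠ 0 → I.deg r % (n + 1) = j → I.deg e ≤ I.deg r := by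
  classical
  have h : ∃ d : ℕ, ∃ r : R, r ≠ 0 ∧ I.deg r % (n + 1) = j ∧ I.deg r = d := by
    obtain ⟨r, hr, h⟩ := I.cof (n + 1) j (Nat.succ_pos n)
    exact ⟨_, r, hr, Eq.trans h (Nat.mod_eq_of_lt j.2), rfl⟩
  obtain ⟨r, hr, h1, h2⟩ := Nat.find_spec h
  have hc : (I.lc r)⁻¹ ≠ 0 := inv_ne_zero (I.lc_ne r hr)
  have hc' : algebraMap k R (I.lc r)⁻¹ ≠ 0 := (_root_.map_ne_zero _).2 hc
  have hd : I.deg (algebraMap k R (I.lc r)⁻¹ * r) = I.deg r := by
    rw [I.deg_mul _ _ hc' hr, I.deg_alg _ hc, zero_add]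
  refine ⟨algebraMap k R (I.lc r)⁻¹ * r, mul_ne_zero hc' hr, ?_, ?_, fun r' hr' h' => ?_⟩
  · rw [I.lc_mul _ _ hc' hr, I.lc_alg _ hc, inv_mul_cancel₀ (I.lc_ne r hr)]
  · rw [hd, h1]
  · rw [hd, h2]
    exact Nat.find_min' h ⟨r', hr', h', rfl⟩

/-- Apery basis: for `a` with a pole of order `n + 1` there are `e j` of pole order congruent
to `j` and leading coefficient one such that every function is uniquely `∑ p_j(a) e_j`. -/
theorem exists_apery {a : R} (ha : a ≠ 0) {n : ℕ} (hd : I.deg a = n + 1) :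
    ∃ e : Fin (n + 1) → R, (∀ j, e j ≠ 0 ∧ I.lc (e j) = 1 ∧ I.deg (e j) % (n + 1) = j) ∧
      (∀ r : R, ∃ p : Fin (n + 1) → k[X], r = ∑ j, aeval a (p j) * e j) ∧
      ∀ p : Fin (n + 1) → k[X], ∑ j, aeval a (p j) * e j = 0 → p = 0 := by
  classical
  choose e he0 he1 he2 he3 using I.apery_min n
  have hd0 : 0 < I.deg a := by omega
  have hterm : ∀ (p : k[X]) (j : Fin (n + 1)), p ≠ 0 → aeval a p * e j ≠ 0 ∧
      I.deg (aeval a p * e j) = (n + 1) * p.natDegree + I.deg (e j) ∧
      I.lc (aeval a p * e j) = p.leadingCoeff * I.lc a ^ p.natDegree := by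
    intro p j hp
    obtain ⟨h1, h2, h3⟩ := I.aeval_spec ha hd0 hp
    refine ⟨mul_ne_zero h1 (he0 j), ?_, ?_⟩
    · rw [I.deg_mul _ _ h1 (he0 j), h2, hd]
    · rw [I.lc_mul _ _ h1 (he0 j), h3, he1, mul_one]
  refine ⟨e, fun j => ⟨he0 j, he1 j, he2 j⟩, ?_, ?_⟩
  · have key : ∀ (d : ℕ) (r : R), r ≠ 0 → I.deg r = d →
        ∃ p : Fin (n + 1) → k[X], r = ∑ j, aeval a (p j) * e j := by
      intro d
      induction d using Nat.strong_induction_on with
      | _ d ih =>
        intro r hr hdr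
        obtain ⟨j, hj⟩ : ∃ j : Fin (n + 1), I.deg r % (n + 1) = j :=
          ⟨⟨_, Nat.mod_lt _ (Nat.succ_pos n)⟩, rfl⟩
        obtain ⟨m, hm⟩ : ∃ m, I.deg r = (n + 1) * m + I.deg (e j) := by
          have h1 : (n + 1) ∣ I.deg r - I.deg (e j) :=
            (Nat.modEq_iff_dvd' (he3 j r hr hj)).1 ((he2 j).trans hj.symm)
          obtain ⟨m, hm⟩ := h1
          exact ⟨m, by have := he3 j r hr hj; omega⟩
        have hla : I.lc a ^ m ≠ 0 := pow_ne_zero m (I.lc_ne a ha)
        have hc : I.lc r / I.lc a ^ m ≠ 0 := div_ne_zero (I.lc_ne r hr) hla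
        obtain ⟨q, hq⟩ : ∃ q : k[X], q = monomial m (I.lc r / I.lc a ^ m) := ⟨_, rfl⟩
        have hq0 : q ≠ 0 := by
          rw [hq]
          exact fun h => hc (monomial_eq_zero_iff _ _ |>.1 h)
        have hq1 : q.natDegree = m := by rw [hq, natDegree_monomial_eq m hc]
        have hq2 : q.leadingCoeff = I.lc r / I.lc a ^ m := by rw [hq, leadingCoeff_monomial]
        obtain ⟨t0, t1, t2⟩ := hterm q j hq0
        rw [hq1, ← hm] at t1
        rw [hq1, hq2, div_mul_cancel₀ _ hla] at t2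
        have hs : aeval a q * e j =
            ∑ i, aeval a ((Pi.single j q : Fin (n + 1) → k[X]) i) * e i := by
          rw [Finset.sum_eq_single j]
          · rw [Pi.single_eq_same]
          · intro i _ hi
            rw [Pi.single_eq_of_ne hi, map_zero, zero_mul]
          · simp
        by_cases hrt : r = aeval a q * e j
        · exact ⟨Pi.single j q, hrt.trans hs⟩
        · have hlt := I.sub_lt r _ hr t0 hrt t1.symm t2.symm
          obtain ⟨p, hp⟩ := ih _ (hdr ▸ hlt) _ (sub_ne_zero.2 hrt) rfl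
          refine ⟨p + Pi.single j q, ?_⟩
          simp only [Pi.add_apply, map_add, add_mul, Finset.sum_add_distrib]
          rw [← hp, ← hs, sub_add_cancel]
    intro r
    by_cases hr : r = 0
    · exact ⟨0, by simp [hr]⟩
    · exact key _ r hr rfl
  · intro p hp
    by_contra hne
    have hs : (Finset.univ.filter fun j => p j ≠ 0).Nonempty := by
      obtain ⟨j, hj⟩ := Function.ne_iff.1 hne
      exact ⟨j, Finset.mem_filter.2 ⟨Finset.mem_univ j, hj⟩⟩
    obtain ⟨i₀, hi₀, hmax⟩ := Finset.exists_max_image _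
      (fun j => I.deg (aeval a (p j) * e j)) hs
    have hmod : ∀ j, p j ≠ 0 → I.deg (aeval a (p j) * e j) % (n + 1) = j := by
      intro j hj
      rw [(hterm _ j hj).2.1, Nat.mul_add_mod, he2]
    refine (I.sum_distinct _ (fun j => aeval a (p j) * e j)
      (fun j hj => (hterm _ j (Finset.mem_filter.1 hj).2).1) (fun i hi j hj hij => ?_)
      i₀ hi₀ hmax).1 ?_
    · have h1 := hmod i (Finset.mem_filter.1 hi).2
      have h2 := hmod j (Finset.mem_filter.1 hj).2
      simp only at hij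
      rw [hij, h2] at h1
      exact Fin.ext h1.symm
    · rw [← hp]
      refine Finset.sum_filter_of_ne fun j _ hj h0 => hj ?_
      rw [h0, map_zero, zero_mul]

end InfData

end

end Pool.Agent.Lib.MP_33b3f9_ag
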