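import Pool.Agent.Lib.MP_33b3f9_ag.Inf

/-!
Degree and leading coefficient of the determinant in the Apery basis.
-/

open Polynomial

namespace Pool.Agent.Lib.MP_33b3f9_ag

noncomputable section

lemma aperyDet_rot_val (n d : ℕ) (j : Fin (n + 1)) :
    (((finRotate (n + 1)) ^ d) j : ℕ) = ((j : ℕ) + d) % (n + 1) := by
  induction d with
  | zero => simp [Nat.mod_eq_of_lt j.2]
  | succ d ih =>
    rw [pow_succ', Equiv.Perm.mul_apply, finRotate_apply, Fin.val_add, ih]
    simp only [Fin.val_one', Nat.add_mod_mod, Nat.mod_add_mod]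
    rw [add_assoc]

/-- a determinant in which one permutation dominates -/
lemma aperyDet_dominant {k : Type*} [Field k] {n : ℕ} (B : Matrix (Fin (n + 1)) (Fin (n + 1)) k[X])
    (s : Fin (n + 1) → ℕ) (d : ℕ) (π : Equiv.Perm (Fin (n + 1)))
    (h0 : ∀ j, B (π j) j ≠ 0)
    (h1 : ∀ j, (n + 1) * (B (π j) j).natDegree + s (π j) = d + s j)
    (h2 : ∀ i j, i ≠ π j → B i j ≠ 0 → (n + 1) * (B i j).natDegree + s i < d + s j) :
    (∑ j, (B (π j) j).natDegree = d) ∧ B.det.natDegree = d ∧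
      B.det.leadingCoeff = ((Equiv.Perm.sign π : ℤ) : k) * ∏ j, (B (π j) j).leadingCoeff := by
  classical
  have hsum : ∑ j, (B (π j) j).natDegree = d := by
    have h3 : ∑ j, ((n + 1) * (B (π j) j).natDegree + s (π j)) = ∑ j, (d + s j) :=
      Finset.sum_congr rfl fun j _ => h1 j
    rw [Finset.sum_add_distrib, Finset.sum_add_distrib, ← Finset.mul_sum,
      Equiv.sum_comp π s] at h3
    simp only [Finset.sum_const, Finset.card_univ, Fintype.card_fin, smul_eq_mul] at h3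
    have h4 : (n + 1) * ∑ j, (B (π j) j).natDegree = (n + 1) * d := by omega
    exact Nat.eq_of_mul_eq_mul_left (Nat.succ_pos n) h4
  have hsgn : ∀ σ : Equiv.Perm (Fin (n + 1)), ((Equiv.Perm.sign σ : ℤ) : k) ≠ 0 := by
    intro σ
    rcases Int.units_eq_one_or (Equiv.Perm.sign σ) with h | h <;> simp [h]
  have hcast : ∀ σ : Equiv.Perm (Fin (n + 1)),
      (((Equiv.Perm.sign σ : ℤ) : k[X])) = C ((Equiv.Perm.sign σ : ℤ) : k) := by
    intro σ
    simp
  have hP0 : ∏ j, B (π j) j ≠ 0 := Finset.prod_ne_zero_iff.2 fun j _ => h0 j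
  have hPdeg : (∏ j, B (π j) j).natDegree = d := by
    rw [natDegree_prod _ _ fun j _ => h0 j, hsum]
  have htop : (((Equiv.Perm.sign π : ℤ) : k[X]) * ∏ j, B (π j) j).degree = (d : WithBot ℕ) := by
    rw [hcast, degree_C_mul (hsgn π), degree_eq_natDegree hP0, hPdeg]
  have hrest : (∑ σ ∈ Finset.univ.erase π,
      ((Equiv.Perm.sign σ : ℤ) : k[X]) * ∏ j, B (σ j) j).degree < (d : WithBot ℕ) := by
    refine lt_of_le_of_lt (degree_sum_le _ _) ?_
    refine (Finset.sup_lt_iff (WithBot.bot_lt_coe d)).2 ?_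
    intro σ hσ
    have hne : σ ≠ π := (Finset.mem_erase.1 hσ).1
    rw [hcast, degree_C_mul (hsgn σ)]
    by_cases hz : ∀ j, B (σ j) j ≠ 0
    · have hQ0 : ∏ j, B (σ j) j ≠ 0 := Finset.prod_ne_zero_iff.2 fun j _ => hz j
      rw [degree_eq_natDegree hQ0, natDegree_prod _ _ fun j _ => hz j]
      have h3 : ∑ j, ((n + 1) * (B (σ j) j).natDegree + s (σ j)) < ∑ j, (d + s j) := by
        apply Finset.sum_lt_sum
        · intro j _
          by_cases hj : σ j = π j
          · rw [hj]; exact (h1 j).le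
          · exact (h2 _ _ hj (hz j)).le
        · obtain ⟨j, hj⟩ : ∃ j, σ j ≠ π j := by
            by_contra hcon
            push Not at hcon
            exact hne (Equiv.ext hcon)
          exact ⟨j, Finset.mem_univ _, h2 _ _ hj (hz j)⟩
      rw [Finset.sum_add_distrib, Finset.sum_add_distrib, ← Finset.mul_sum,
        Equiv.sum_comp σ s] at h3
      simp only [Finset.sum_const, Finset.card_univ, Fintype.card_fin, smul_eq_mul] at h3
      have h4 : (n + 1) * ∑ j, (B (σ j) j).natDegree < (n + 1) * d := by omega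
      exact Nat.cast_lt.2 (Nat.lt_of_mul_lt_mul_left h4)
    · push Not at hz
      obtain ⟨j, hj⟩ := hz
      have hzero : ∏ j, B (σ j) j = 0 := Finset.prod_eq_zero (Finset.mem_univ j) hj
      rw [hzero, degree_zero]
      exact WithBot.bot_lt_coe d
  have hdet : B.det = ((Equiv.Perm.sign π : ℤ) : k[X]) * ∏ j, B (π j) j +
      ∑ σ ∈ Finset.univ.erase π, ((Equiv.Perm.sign σ : ℤ) : k[X]) * ∏ j, B (σ j) j := by
    rw [Matrix.det_apply', ← Finset.add_sum_erase _ _ (Finset.mem_univ π)]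
  rw [← htop] at hrest
  refine ⟨hsum, ?_, ?_⟩
  · apply natDegree_eq_of_degree_eq_some
    rw [hdet, degree_add_eq_left_of_degree_lt hrest, htop]
  · rw [hdet, leadingCoeff_add_of_degree_lt' hrest, hcast, leadingCoeff_mul, leadingCoeff_C,
      leadingCoeff_prod]

namespace InfData

variable {k R : Type*} [Field k] [CommRing R] [IsDomain R] [Algebra k R] (I : InfData k R)

/-- the top term of one column -/
lemma aperyDet_col {a b : R} (ha : a ≠ 0) (hb : b ≠ 0) {n : ℕ} (hd : I.deg a = n + 1)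
    (e : Fin (n + 1) → R) (he : ∀ j, e j ≠ 0 ∧ I.lc (e j) = 1 ∧ I.deg (e j) % (n + 1) = j)
    (c : Fin (n + 1) → k[X]) (j : Fin (n + 1))
    (hB : b * e j = ∑ i, aeval a (c i) * e i) :
    ∃ i₀, c i₀ ≠ 0 ∧ (n + 1) * (c i₀).natDegree + I.deg (e i₀) = I.deg b + I.deg (e j) ∧
      (c i₀).leadingCoeff * I.lc a ^ (c i₀).natDegree = I.lc b ∧
      ∀ i, i ≠ i₀ → c i ≠ 0 →
        (n + 1) * (c i).natDegree + I.deg (e i) < I.deg b + I.deg (e j) := by
  classical
  have hpos : 0 < I.deg a := by omega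
  have hterm : ∀ i, c i ≠ 0 → aeval a (c i) * e i ≠ 0 ∧
      I.deg (aeval a (c i) * e i) = (n + 1) * (c i).natDegree + I.deg (e i) ∧
      I.lc (aeval a (c i) * e i) = (c i).leadingCoeff * I.lc a ^ (c i).natDegree := by
    intro i hi
    obtain ⟨h1, h2, h3⟩ := I.aeval_spec ha hpos hi
    refine ⟨mul_ne_zero h1 (he i).1, ?_, ?_⟩
    · rw [I.deg_mul _ _ h1 (he i).1, h2, hd]
    · rw [I.lc_mul _ _ h1 (he i).1, h3, (he i).2.1, mul_one]
  set S : Finset (Fin (n + 1)) := Finset.univ.filter fun i => c i ≠ 0 with hS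
  have hmemS : ∀ i, i ∈ S ↔ c i ≠ 0 := by
    intro i; simp [hS]
  have hsumS : b * e j = ∑ i ∈ S, aeval a (c i) * e i := by
    rw [hB, hS, Finset.sum_filter_of_ne]
    intro i _ hi hc
    apply hi
    rw [hc, map_zero, zero_mul]
  have hbe : b * e j ≠ 0 := mul_ne_zero hb (he j).1
  have hne : S.Nonempty := by
    by_contra hcon
    rw [Finset.not_nonempty_iff_eq_empty] at hcon
    rw [hcon, Finset.sum_empty] at hsumS
    exact hbe hsumS
  obtain ⟨i₀, hi₀, hmax⟩ := S.exists_max_image (fun i => I.deg (aeval a (c i) * e i)) hne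
  have hmod : ∀ i, c i ≠ 0 → I.deg (aeval a (c i) * e i) % (n + 1) = i := by
    intro i hi
    rw [(hterm i hi).2.1, Nat.mul_add_mod, (he i).2.2]
  have hinj : Set.InjOn (fun i => I.deg (aeval a (c i) * e i)) S := by
    intro x hx y hy hxy
    have hx' := hmod x ((hmemS x).1 hx)
    have hy' := hmod y ((hmemS y).1 hy)
    have hxy' : I.deg (aeval a (c x) * e x) = I.deg (aeval a (c y) * e y) := hxy
    apply Fin.ext
    rw [← hx', ← hy', hxy']
  obtain ⟨-, h2, h3⟩ := I.sum_distinct S (fun i => aeval a (c i) * e i)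
    (fun i hi => (hterm i ((hmemS i).1 hi)).1) hinj i₀ hi₀ hmax
  have hc₀ : c i₀ ≠ 0 := (hmemS i₀).1 hi₀
  rw [← hsumS] at h2 h3
  rw [I.deg_mul _ _ hb (he j).1] at h2
  rw [I.lc_mul _ _ hb (he j).1, (he j).2.1, mul_one] at h3
  refine ⟨i₀, hc₀, ?_, ?_, ?_⟩
  · rw [h2, (hterm i₀ hc₀).2.1]
  · rw [h3, (hterm i₀ hc₀).2.2]
  · intro i hi hci
    have hle := hmax i ((hmemS i).2 hci)
    have hneq : I.deg (aeval a (c i) * e i) ≠ I.deg (aeval a (c i₀) * e i₀) := fun h =>
      hi (hinj ((hmemS i).2 hci) hi₀ h)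
    rw [h2, ← (hterm i hci).2.1]
    exact lt_of_le_of_ne hle hneq

/-- the determinant of the matrix of `b` in the Apery basis: degree and leading coefficient -/
theorem det_apery {a b : R} (ha : a ≠ 0) (hb : b ≠ 0) {n : ℕ} (hd : I.deg a = n + 1)
    (e : Fin (n + 1) → R) (he : ∀ j, e j ≠ 0 ∧ I.lc (e j) = 1 ∧ I.deg (e j) % (n + 1) = j)
    (B : Matrix (Fin (n + 1)) (Fin (n + 1)) k[X])
    (hB : ∀ j, b * e j = ∑ i, aeval a (B i j) * e i) :
    B.det.natDegree = I.deg b ∧
      B.det.leadingCoeff * I.lc a ^ I.deg b = (-1) ^ (I.deg b * n) * I.lc b ^ (n + 1) := by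
  classical
  choose τ h0 h1 h2 h3 using fun j => I.aperyDet_col ha hb hd e he (fun i => B i j) j (hB j)
  set π : Equiv.Perm (Fin (n + 1)) := (finRotate (n + 1)) ^ I.deg b with hπ
  have hτ : ∀ j, τ j = π j := by
    intro j
    apply Fin.ext
    rw [hπ, aperyDet_rot_val]
    have h4 := congrArg (fun m => m % (n + 1)) (h1 j)
    simp only [Nat.mul_add_mod] at h4
    rw [(he (τ j)).2.2] at h4
    rw [h4, Nat.add_mod, (he j).2.2, Nat.add_comm (j : ℕ), Nat.mod_add_mod]
  obtain ⟨hs, hdeg, hlc⟩ := aperyDet_dominant B (fun i => I.deg (e i)) (I.deg b) π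
    (fun j => by rw [← hτ]; exact h0 j) (fun j => by rw [← hτ]; exact h1 j)
    (fun i j hi hne => h3 j i (by rw [hτ]; exact hi) hne)
  refine ⟨hdeg, ?_⟩
  have hsign : ((Equiv.Perm.sign π : ℤ) : k) = (-1) ^ (I.deg b * n) := by
    rw [hπ, map_pow, sign_finRotate, ← pow_mul, Nat.mul_comm]
    simp
  rw [hlc, hsign, mul_assoc]
  congr 1
  have h5 : ∏ j, ((B (π j) j).leadingCoeff * I.lc a ^ (B (π j) j).natDegree) =
      ∏ _j : Fin (n + 1), I.lc b :=
    Finset.prod_congr rfl fun j _ => by rw [← hτ]; exact h2 j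
  rw [Finset.prod_mul_distrib, Finset.prod_pow_eq_pow_sum, hs] at h5
  simpa using h5

end InfData

end

end Pool.Agent.Lib.MP_33b3f9_ag
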