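import Pool.Agent.Lib.MP_33b3f9_ag.Defs

/-!
Kummer characters are realised by Galois elements; the cyclotomic character.
-/

namespace Pool.Agent.Lib.MP_33b3f9_ag

variable {k₁ : Type*} [Field k₁] [CharZero k₁] {k : Type*} [Field k] [Algebra k₁ k]
  [IsAlgClosure k₁ k]

theorem char_sgn_add {R : Type*} [Ring R] (a b : ZMod 2) :
    (-1 : R) ^ (a + b).val = (-1) ^ a.val * (-1) ^ b.val := by
  have h : ∀ x : ZMod 2, x = 0 ∨ x = 1 := by decide
  have h1 : (1 : ZMod 2).val = 1 := rfl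
  have h2 : (1 + 1 : ZMod 2) = 0 := rfl
  rcases h a with rfl | rfl <;> rcases h b with rfl | rfl <;> simp [h1, h2]

theorem char_sgn_mul {R : Type*} [Ring R] (a b : ZMod 2) :
    (-1 : R) ^ (a * b).val = ((-1) ^ a.val) ^ b.val := by
  have h : ∀ x : ZMod 2, x = 0 ∨ x = 1 := by decide
  have h1 : (1 : ZMod 2).val = 1 := rfl
  rcases h a with rfl | rfl <;> rcases h b with rfl | rfl <;> simp [h1]

theorem char_sgn_sum {R : Type*} [CommRing R] {I : Type*} (s : Finset I) (a : I → ZMod 2) :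
    (-1 : R) ^ (∑ i ∈ s, a i).val = ∏ i ∈ s, (-1) ^ (a i).val := by
  classical
  induction s using Finset.induction_on with
  | empty => simp
  | insert i s hi ih => rw [Finset.sum_insert hi, Finset.prod_insert hi, char_sgn_add, ih]

omit [CharZero k₁] in
theorem char_one {χ : k₁ → ZMod 2} (hχ : IsChar χ) : χ 1 = 0 := by
  have h := hχ 1 1 one_ne_zero one_ne_zero
  rw [mul_one] at h
  exact left_eq_add.1 h

omit [CharZero k₁] in
theorem char_prod {χ : k₁ → ZMod 2} (hχ : IsChar χ) {I : Type*} (s : Finset I) (c : I → k₁)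
    (hc : ∀ i, c i ≠ 0) (n : I → ZMod 2) :
    χ (∏ i ∈ s, c i ^ (n i).val) = ∑ i ∈ s, χ (c i) * n i := by
  classical
  induction s using Finset.induction_on with
  | empty => simpa using char_one hχ
  | insert i s hi ih =>
    rw [Finset.sum_insert hi, Finset.prod_insert hi, hχ _ _ (pow_ne_zero _ (hc i))
      (Finset.prod_ne_zero_iff.2 fun j _ => pow_ne_zero _ (hc j)), ih]
    congr 1
    have h : ∀ x : ZMod 2, x = 0 ∨ x = 1 := by decide
    have h1 : (1 : ZMod 2).val = 1 := rfl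
    rcases h (n i) with e | e
    · rw [e]
      simpa using char_one hχ
    · rw [e, h1, pow_one, mul_one]

/-- every character mod 2 of `k₁^*` is, on a finite set, the Kummer character of some `σ` -/
theorem exists_sigma (χ : k₁ → ZMod 2) (hχ : IsChar χ) (B : Finset k₁) (hB : ∀ c ∈ B, c ≠ 0) :
    ∃ σ : k ≃ₐ[k₁] k, ∀ c ∈ B, ∀ z : k, z ^ 2 = algebraMap k₁ k c →
      σ z = (-1) ^ (χ c).val * z := by
  classical
  have : IsAlgClosed k := IsAlgClosure.isAlgClosed k₁
  have : IsGalois k₁ k := {}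
  have h01 : ∀ x : ZMod 2, x = 0 ∨ x = 1 := by decide
  have hv1 : (1 : ZMod 2).val = 1 := rfl
  choose z hz using fun c : B => IsAlgClosed.exists_pow_nat_eq (algebraMap k₁ k c.1) two_pos
  have hsg : ∀ (σ : k ≃ₐ[k₁] k) (a : ZMod 2) (x : k),
      σ ((-1) ^ a.val * x) = (-1) ^ a.val * σ x := by
    intro σ a x
    rw [map_mul, map_pow, map_neg, map_one]
  let A : Submodule (ZMod 2) (B → ZMod 2) :=
    { carrier := {v | ∃ σ : k ≃ₐ[k₁] k, ∀ c : B, σ (z c) = (-1) ^ (v c).val * z c}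
      add_mem' := by
        rintro v v' ⟨σ, hσ⟩ ⟨τ, hτ⟩
        refine ⟨τ * σ, fun c => ?_⟩
        rw [AlgEquiv.mul_apply, hσ, hsg, hτ, Pi.add_apply, char_sgn_add, mul_assoc]
      zero_mem' := ⟨1, fun c => by simp⟩
      smul_mem' := by
        rintro a v hv
        rcases h01 a with rfl | rfl
        · exact ⟨1, fun c => by simp⟩
        · rw [one_smul]
          exact hv }
  have hA : (fun c : B => χ c.1) ∈ A := by
    by_contra hn
    obtain ⟨f, hf1, hf2⟩ := Submodule.exists_dual_map_eq_bot_of_notMem hn inferInstance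
    have hf : ∀ v : B → ZMod 2, f v = ∑ c, v c * f (Pi.single c 1) := by
      intro v
      conv_lhs => rw [pi_eq_sum_univ' v]
      rw [map_sum]
      refine Finset.sum_congr rfl fun c _ => ?_
      rw [map_smul, smul_eq_mul]
    have hfix : ∀ σ : k ≃ₐ[k₁] k, σ (∏ c, z c ^ (f (Pi.single c 1)).val) =
        ∏ c, z c ^ (f (Pi.single c 1)).val := by
      intro σ
      have hex : ∀ c : B, ∃ a : ZMod 2, σ (z c) = (-1) ^ a.val * z c := by
        intro c
        have h2 : σ (z c) ^ 2 = z c ^ 2 := by rw [← map_pow, hz, AlgEquiv.commutes]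
        rcases sq_eq_sq_iff_eq_or_eq_neg.1 h2 with e | e
        · exact ⟨0, by simpa using e⟩
        · exact ⟨1, by rw [hv1, pow_one, e, neg_one_mul]⟩
      choose v hv using hex
      have hvA : v ∈ A := ⟨σ, hv⟩
      have h0 : f v = 0 := by
        have h3 : f v ∈ A.map f := Submodule.mem_map_of_mem hvA
        rw [hf2] at h3
        exact (Submodule.mem_bot _).1 h3
      rw [map_prod]
      simp only [map_pow, hv, mul_pow, ← char_sgn_mul]
      rw [Finset.prod_mul_distrib, ← char_sgn_sum, ← hf, h0]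
      simp
    obtain ⟨a, ha⟩ := (InfiniteGalois.mem_range_algebraMap_iff_fixed _).2 hfix
    have ha2 : a * a = ∏ c : B, c.1 ^ (f (Pi.single c 1)).val := by
      apply (algebraMap k₁ k).injective
      rw [map_mul, ha, map_prod, ← Finset.prod_mul_distrib]
      refine Finset.prod_congr rfl fun c _ => ?_
      rw [map_pow, ← hz, ← mul_pow, sq]
    have ha0 : a ≠ 0 := by
      rintro rfl
      rw [mul_zero] at ha2
      exact (Finset.prod_ne_zero_iff.2 fun c _ => pow_ne_zero _ (hB c.1 c.2)) ha2.symm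
    have h4 := char_prod hχ Finset.univ (fun c : B => c.1) (fun c => hB c.1 c.2)
      fun c => f (Pi.single c 1)
    rw [← ha2, hχ a a ha0 ha0, CharTwo.add_self_eq_zero, ← hf] at h4
    exact hf1 h4.symm
  obtain ⟨σ, hσ⟩ := hA
  refine ⟨σ, fun c hc y hy => ?_⟩
  have h2 : y ^ 2 = z ⟨c, hc⟩ ^ 2 := by rw [hy, hz]
  rcases sq_eq_sq_iff_eq_or_eq_neg.1 h2 with e | e
  · rw [e]
    exact hσ ⟨c, hc⟩
  · rw [e, map_neg, hσ ⟨c, hc⟩, mul_neg]

theorem exists_cyclo : ∃ χ : (k ≃ₐ[k₁] k) →* ℤ_[2]ˣ,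
    ∀ (σ : k ≃ₐ[k₁] k) (n : ℕ) (z : k), z ^ 2 ^ n = 1 →
      σ z = z ^ (PadicInt.toZModPow n (χ σ : ℤ_[2])).val := by
  have : IsAlgClosed k := IsAlgClosure.isAlgClosed k₁
  have : CharZero k := charZero_of_injective_algebraMap (algebraMap k₁ k).injective
  refine ⟨(cyclotomicCharacter k 2).comp (MulSemiringAction.toRingAut (k ≃ₐ[k₁] k) k),
    fun σ n z hz => ?_⟩
  exact cyclotomicCharacter.spec 2 (MulSemiringAction.toRingAut (k ≃ₐ[k₁] k) k σ) z hz

end Pool.Agent.Lib.MP_33b3f9_ag
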