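import Mathlib

/-!
The cyclotomic character has infinite image on finite index subgroups.
-/

namespace Pool.Agent.Lib.MP_33b3f9_ag

open Polynomial IntermediateField

/-- an irreducible rational polynomial stays irreducible over the fraction field of a normal
domain with a rational point -/
lemma cyclo_deg {R L K : Type*} [CommRing R] [IsDomain R] [IsIntegrallyClosed R] [Algebra ℚ R]
    [Field L] [Algebra R L] [IsFractionRing R L] [Field K] [Algebra R K] [Algebra L K]
    [IsScalarTower R L K] [Algebra ℚ K] [IsScalarTower ℚ R K] (ev : R →ₐ[ℚ] ℚ) {p : ℚ[X]}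
    (hp : Irreducible p) (hm : p.Monic) {z : K} (hz : aeval z p = 0) :
    (minpoly L z).natDegree = p.natDegree := by
  have hi : IsIntegral R z := IsIntegral.tower_top (R := ℚ) ⟨p, hm, hz⟩
  have : FaithfulSMul R K := by
    rw [faithfulSMul_iff_algebraMap_injective, IsScalarTower.algebraMap_eq R L K]
    exact (algebraMap L K).injective.comp (IsFractionRing.injective R L)
  have h1 : minpoly R z ∣ p.map (algebraMap ℚ R) :=
    minpoly.isIntegrallyClosed_dvd hi (by rwa [aeval_map_algebraMap])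
  have h2 : (minpoly R z).map (ev : R →+* ℚ) ∣ p := by
    have := Polynomial.map_dvd (ev : R →+* ℚ) h1
    rwa [Polynomial.map_map, ev.comp_algebraMap, Algebra.algebraMap_self, Polynomial.map_id] at this
  have h3 := (minpoly.monic hi).natDegree_map (ev : R →+* ℚ)
  rw [minpoly.isIntegrallyClosed_eq_field_fractions' L hi, (minpoly.monic hi).natDegree_map, ← h3]
  refine natDegree_eq_of_degree_eq (degree_eq_degree_of_associated
    ((hp.dvd_iff.1 h2).resolve_left fun hu => ?_).symm)
  have h4 := natDegree_eq_zero_of_isUnit hu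
  have h5 := minpoly.natDegree_pos hi
  omega

lemma cyclo_tower {L k₁ k : Type*} [Field L] [Field k₁] [Field k] [Algebra L k₁] [Algebra k₁ k]
    [Algebra L k] [IsScalarTower L k₁ k] [Module.Finite L k₁] {z : k} (hz : IsIntegral k₁ z) :
    (minpoly L z).natDegree ≤ Module.finrank L k₁ * (minpoly k₁ z).natDegree := by
  have := adjoin.finiteDimensional hz
  have : Module.Finite L k₁⟮z⟯ := Module.Finite.trans k₁ _
  rw [← adjoin.finrank hz, Module.finrank_mul_finrank]
  have : IsScalarTower L k₁⟮z⟯ k := IsScalarTower.of_algebraMap_eq fun _ => rfl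
  have h1 : minpoly L z = minpoly L (AdjoinSimple.gen k₁ z) :=
    minpoly.algebraMap_eq (algebraMap k₁⟮z⟯ k).injective (AdjoinSimple.gen k₁ z)
  rw [h1]
  exact minpoly.natDegree_le _

variable {k₁ : Type*} [Field k₁] [CharZero k₁] {k : Type*} [Field k] [Algebra k₁ k]
  [IsAlgClosure k₁ k]

open scoped IntermediateField.algebraAdjoinAdjoin in
/-- over a finitely generated field the degrees of the 2-power roots of unity are unbounded -/
theorem exists_root_large (hfg : (⊤ : IntermediateField ℚ k₁).FG) (N : ℕ) :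
    ∃ (n : ℕ) (z : k), z ^ 2 ^ n = 1 ∧ N < (minpoly k₁ z).natDegree := by
  have : Algebra.EssFiniteType ℚ k₁ := fg_top_iff.1 hfg
  have : CharZero k := charZero_of_injective_algebraMap (algebraMap k₁ k).injective
  have : IsAlgClosed k := IsAlgClosure.isAlgClosed k₁
  obtain ⟨s, hs⟩ := exists_isTranscendenceBasis ℚ k₁
  let L := IntermediateField.adjoin ℚ (Set.range ((↑) : s → k₁))
  let R := Algebra.adjoin ℚ (Set.range ((↑) : s → k₁))
  have : Algebra.IsAlgebraic L k₁ := hs.isAlgebraic_field
  have : Algebra.EssFiniteType L k₁ := Algebra.EssFiniteType.of_comp ℚ L k₁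
  have : Module.Finite L k₁ := Algebra.finite_of_essFiniteType_of_isAlgebraic
  have : IsIntegrallyClosed R := IsIntegrallyClosed.of_equiv hs.1.aevalEquiv.toRingEquiv
  let ev : R →ₐ[ℚ] ℚ := (MvPolynomial.aeval fun _ => (0 : ℚ)).comp hs.1.aevalEquiv.symm.toAlgHom
  obtain ⟨z, hz⟩ := HasEnoughRootsOfUnity.exists_primitiveRoot k
    (2 ^ (Module.finrank L k₁ * N + 1))
  refine ⟨_, z, hz.pow_eq_one, ?_⟩
  have h1 : (minpoly L z).natDegree =
      (cyclotomic (2 ^ (Module.finrank L k₁ * N + 1)) ℚ).natDegree :=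
    cyclo_deg ev (cyclotomic.irreducible_rat (by positivity)) (cyclotomic.monic _ _) (by
      rw [aeval_def, eval₂_eq_eval_map, map_cyclotomic]
      exact hz.isRoot_cyclotomic (by positivity))
  have h2 := cyclo_tower (L := L) (Algebra.IsIntegral.isIntegral (R := k₁) z)
  rw [h1, natDegree_cyclotomic, Nat.totient_prime_pow_succ Nat.prime_two] at h2
  have h3 : Module.finrank L k₁ * N < 2 ^ (Module.finrank L k₁ * N) := Nat.lt_two_pow_self
  exact Nat.lt_of_mul_lt_mul_left (a := Module.finrank L k₁) (by omega)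

/-- a character that describes the action on 2-power roots of unity takes infinitely many
values on every subgroup of finite index -/
theorem cyclo_infinite (hfg : (⊤ : IntermediateField ℚ k₁).FG) (χ : (k ≃ₐ[k₁] k) →* ℤ_[2]ˣ)
    (hχ : ∀ (σ : k ≃ₐ[k₁] k) (n : ℕ) (z : k), z ^ 2 ^ n = 1 →
      σ z = z ^ (PadicInt.toZModPow n (χ σ : ℤ_[2])).val)
    (U : Subgroup (k ≃ₐ[k₁] k)) [U.FiniteIndex] : (χ '' U).Infinite := by
  intro hfin
  have := hfin.to_subtype
  have : IsAlgClosed k := IsAlgClosure.isAlgClosed k₁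
  obtain ⟨n, z, hz, hN⟩ :=
    exists_root_large (k := k) hfg (Nat.card (((k ≃ₐ[k₁] k) ⧸ U) × (χ '' U)))
  have hi : IsIntegral k₁ z := Algebra.IsIntegral.isIntegral z
  let F : ((k ≃ₐ[k₁] k) ⧸ U) × (χ '' U) → k := fun q =>
    q.1.out (z ^ (PadicInt.toZModPow n (q.2.1 : ℤ_[2])).val)
  have h1 : (minpoly k₁ z).rootSet k ⊆ Set.range F := by
    intro y hy
    obtain ⟨σ, rfl⟩ :=
      minpoly.exists_algEquiv_of_root' hi.isAlgebraic (aeval_eq_zero_of_mem_rootSet hy)
    obtain ⟨u, hu⟩ := QuotientGroup.mk_out_eq_mul U σ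
    refine ⟨(σ, ⟨χ (u⁻¹ : U), _, (u⁻¹).2, rfl⟩), ?_⟩
    simp only [F]
    rw [← hχ _ n z hz, hu, ← AlgEquiv.mul_apply, mul_assoc, ← Subgroup.coe_mul, mul_inv_cancel,
      Subgroup.coe_one, mul_one]
  have h2 := card_rootSet_eq_natDegree (K := k) (minpoly.irreducible hi).separable
    (IsAlgClosed.splits _)
  have h3 := Nat.card_mono (Set.finite_range F) h1
  have h4 := Finite.card_range_le F
  rw [Nat.card_eq_fintype_card, h2] at h3
  omega

end Pool.Agent.Lib.MP_33b3f9_ag
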