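import Pool.Agent.Lib.MP_33b3f9_ag.Stmt

/-!
Reducible versions of the definitions, used in the proofs.
-/

open Polynomial

namespace Pool.Agent.Lib.MP_33b3f9_ag

noncomputable section

section curve

variable {k₁ : Type*} [Field k₁] (k : Type*) [Field k] [Algebra k₁ k] {ι : Type} [Fintype ι]

/-- The affine coordinate ring `k[x,y]/(y^2 - prod (x - a_i))`. -/
abbrev Coord (a : ι → k₁) : Type _ := AdjoinRoot (X ^ 2 - C (hyp k a) : k[X][X])

/-- The group `J(k)`: the Picard group of the affine coordinate ring, written additively. -/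
abbrev Jac (a : ι → k₁) : Type _ := Additive (CommRing.Pic (Coord k a))

variable {k}

/-- The action of `σ` on the coordinate ring through the coefficients (fixing `x` and `y`). -/
def act (a : ι → k₁) (σ : k ≃ₐ[k₁] k) : Coord k a →+* Coord k a :=
  AdjoinRoot.map (Polynomial.mapRingHom (σ : k →+* k)) _ _ (by simp [hyp_map])

/-- The action of `σ` on `J(k)`. -/
def actJ (a : ι → k₁) (σ : k ≃ₐ[k₁] k) (P : Jac k a) : Jac k a :=
  Additive.ofMul (CommRing.Pic.mapRingHom (act a σ) P.toMul)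

/-- `π` identifies `ℚ_2^ν / ℤ_2^ν` with the 2-power torsion of `J(k)` and `ρ σ` is the matrix of
`σ` on the rational Tate module `ℚ_2^ν`. -/
def IsTate {ν : Type} [Fintype ν] [DecidableEq ν] (a : ι → k₁) (π : (ν → ℚ_[2]) →+ Jac k a)
    (ρ : (k ≃ₐ[k₁] k) → GL ν ℚ_[2]) : Prop :=
  (∀ x, π x = 0 ↔ ∀ i, ‖x i‖ ≤ 1) ∧ (∀ P, P ∈ π.range ↔ ∃ n : ℕ, 2 ^ n • P = 0) ∧
    ∀ σ x, π ((ρ σ : Matrix ν ν ℚ_[2]).mulVec x) = actJ a σ (π x)

end curve

section crit

variable {k₁ : Type*} [Field k₁] {ι : Type} [Fintype ι] [DecidableEq ι]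

/-- Every additive group of matrices that contains `X + X^2` and is stable under `Y ↦ XY - YX`
for all Laplacians `X` contains the adjacency matrices of all 4-cycles. -/
def Crit (a : ι → k₁) : Prop :=
  ∀ L : AddSubgroup (Matrix ι ι (ZMod 2)),
    (∀ χ, IsChar χ → lap a χ + lap a χ * lap a χ ∈ L) →
    (∀ χ, IsChar χ → ∀ Y ∈ L, lap a χ * Y - Y * lap a χ ∈ L) →
    ∀ p q r s : ι, [p, q, r, s].Nodup → cyc p q r s ∈ L

lemma crit_iff (a : ι → k₁) : Crit a ↔ Kummer a := by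
  constructor
  · intro h p q r s hn L h1 h2
    exact h L (fun χ hχ => h1 _ ⟨χ, hχ, rfl⟩) (fun χ hχ => h2 _ ⟨χ, hχ, rfl⟩) p q r s hn
  · intro h L h1 h2 p q r s hn
    refine h p q r s hn L ?_ ?_
    · rintro _ ⟨χ, hχ, rfl⟩; exact h1 χ hχ
    · rintro _ ⟨χ, hχ, rfl⟩; exact h2 χ hχ

end crit

end

end Pool.Agent.Lib.MP_33b3f9_ag
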