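import Pool.Agent.Lib.MP_33b3f9_ag.Lev

/-!
Successive approximation.
-/

open Matrix

namespace Pool.Agent.Lib.MP_33b3f9_ag

noncomputable section

variable {ν : Type} [Fintype ν] [DecidableEq ν] {Γ : Type*} [Group Γ]
  {r : Γ →* Matrix ν ν ℤ_[2]}

lemma dense_sp_of_lev (E h X : Matrix ν ν ℤ_[2]) (m : ℕ) (hm : 1 ≤ m)
    (hh : hᵀ * E * h = E) (hX : h = 1 + (2 : ℤ_[2]) ^ m • X) :
    (X.map red)ᵀ * E.map red + E.map red * X.map red = 0 := by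
  have h2 : ((2 : ℤ_[2]) ^ m) ≠ 0 := pow_ne_zero _ two_ne_zero
  have h1 : (2 : ℤ_[2]) ^ m • (Xᵀ * E + E * X + (2 : ℤ_[2]) ^ m • (Xᵀ * E * X)) = 0 := by
    have : hᵀ * E * h = E + (2 : ℤ_[2]) ^ m •
        (Xᵀ * E + E * X + (2 : ℤ_[2]) ^ m • (Xᵀ * E * X)) := by
      rw [hX]
      simp only [transpose_add, transpose_one, transpose_smul, Matrix.add_mul, Matrix.mul_add,
        Matrix.one_mul, Matrix.mul_one, Matrix.smul_mul, Matrix.mul_smul, smul_add]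
      abel
    rw [hh] at this
    exact left_eq_add.mp this
  have h3 : Xᵀ * E + E * X + (2 : ℤ_[2]) ^ m • (Xᵀ * E * X) = 0 :=
    (smul_eq_zero.mp h1).resolve_left h2
  obtain ⟨m', rfl⟩ : ∃ m', m = m' + 1 := ⟨m - 1, by omega⟩
  have h4 : (Xᵀ * E + E * X).map red = (0 : Matrix ν ν ℤ_[2]).map red := by
    rw [map_red_eq_iff]
    refine ⟨-((2 : ℤ_[2]) ^ m' • (Xᵀ * E * X)), ?_⟩
    rw [zero_add, smul_neg, smul_smul, ← pow_succ']
    exact eq_neg_of_add_eq_zero_left h3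
  rw [Matrix.map_add _ (map_add red), Matrix.map_mul, Matrix.map_mul,
    Matrix.map_zero _ (map_zero red)] at h4
  rw [← Matrix.transpose_map]
  exact h4

/-- successive approximation: if all of `sp(F_2)` consists of leading terms of `H` and `H`
preserves `E`, then `H ∩ U` is dense in a congruence subgroup of `Sp(E)` -/
theorem dense_of_Linf (E : Matrix ν ν ℤ_[2]) (H : Subgroup Γ)
    (hH : ∀ σ ∈ H, (r σ)ᵀ * E * r σ = E)
    (hL : ∀ Y : Matrix ν ν (ZMod 2), Yᵀ * E.map red + E.map red * Y = 0 → Y ∈ Linf r H)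
    (U : Subgroup Γ) [U.FiniteIndex] :
    ∃ n : ℕ, ∀ g X : Matrix ν ν ℤ_[2], gᵀ * E * g = E → g = 1 + (2 : ℤ_[2]) ^ n • X →
      ∀ j : ℕ, ∃ σ ∈ U, ∃ Z : Matrix ν ν ℤ_[2], g = r σ + (2 : ℤ_[2]) ^ j • Z := by
  classical
  obtain ⟨c, hc⟩ := exists_shift (r := r) U
  have hL' : ∀ Y : Matrix ν ν (ZMod 2), ∃ n, 2 ≤ n ∧
      (Yᵀ * E.map red + E.map red * Y = 0 → Lev r H n Y) := by
    intro Y
    by_cases hY : Yᵀ * E.map red + E.map red * Y = 0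
    · obtain ⟨n, hn, h⟩ := mem_Linf.mp (hL Y hY)
      exact ⟨n, hn, fun _ => h⟩
    · exact ⟨2, le_rfl, fun h => absurd h hY⟩
  choose f hf2 hf using hL'
  set N : ℕ := Finset.univ.sup f with hN
  have hfN : ∀ Y, f Y ≤ N := fun Y => Finset.le_sup (f := f) (Finset.mem_univ Y)
  have hN2 : 2 ≤ N := (hf2 0).trans (hfN 0)
  have hall : ∀ m, N + c ≤ m → ∀ Y : Matrix ν ν (ZMod 2),
      Yᵀ * E.map red + E.map red * Y = 0 → Lev r (H ⊓ U) m Y := by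
    intro m hm Y hY
    exact (hc H N hN2 Y ((hf Y hY).mono (hf2 Y) (hfN Y))).mono (by omega) hm
  refine ⟨N + c, fun g X hg hX j => ?_⟩
  have hinv : ∀ σ : Γ, r σ * r σ⁻¹ = 1 := fun σ => by rw [← map_mul, mul_inv_cancel, map_one]
  have hinv' : ∀ σ : Γ, r σ⁻¹ * r σ = 1 := fun σ => by rw [← map_mul, inv_mul_cancel, map_one]
  have key : ∀ k : ℕ, ∃ σ ∈ H ⊓ U, ∃ X' : Matrix ν ν ℤ_[2],
      g * r σ⁻¹ = 1 + (2 : ℤ_[2]) ^ (N + c + k) • X' := by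
    intro k
    induction k with
    | zero => exact ⟨1, one_mem _, X, by simpa using hX⟩
    | succ k ih =>
      obtain ⟨σ, hσ, X', hX'⟩ := ih
      have hσ' := hH σ⁻¹ (H.inv_mem hσ.1)
      have hE : (g * r σ⁻¹)ᵀ * E * (g * r σ⁻¹) = E := by
        calc (g * r σ⁻¹)ᵀ * E * (g * r σ⁻¹) = (r σ⁻¹)ᵀ * (gᵀ * E * g) * r σ⁻¹ := by
              simp only [transpose_mul, Matrix.mul_assoc]
          _ = E := by rw [hg, hσ']
      have hsp := dense_sp_of_lev E _ X' (N + c + k) (by omega) hE hX'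
      obtain ⟨τ, hτ, X'', hτX, hred⟩ := hall (N + c + k) (by omega) _ hsp
      obtain ⟨Z, hZ⟩ := (map_red_eq_iff X' X'').mp hred.symm
      refine ⟨τ * σ, mul_mem hτ hσ, Z * r τ⁻¹, ?_⟩
      have h1 : g * r σ⁻¹ = r τ + (2 : ℤ_[2]) ^ (N + c + (k + 1)) • Z := by
        rw [hX', hτX, hZ, smul_add, smul_smul, ← pow_succ, ← add_assoc, ← add_assoc (N + c)]
      rw [_root_.mul_inv_rev, map_mul, ← Matrix.mul_assoc, h1, Matrix.add_mul, hinv,
        Matrix.smul_mul]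
  obtain ⟨σ, hσ, X', hX'⟩ := key j
  refine ⟨σ, hσ.2, (2 : ℤ_[2]) ^ (N + c) • (X' * r σ), ?_⟩
  calc g = g * r σ⁻¹ * r σ := by rw [Matrix.mul_assoc, hinv', Matrix.mul_one]
    _ = _ := by
      rw [hX', Matrix.add_mul, Matrix.one_mul, Matrix.smul_mul, smul_smul, ← pow_add,
        add_comm j]

end

end Pool.Agent.Lib.MP_33b3f9_ag
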