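import Mathlib

/-!
Divisors on a Dedekind domain `R`, principal divisors, transport.
-/

open IsDedekindDomain nonZeroDivisors

namespace Pool.Agent.Lib.MP_33b3f9_ag

noncomputable section

variable {R : Type*} [CommRing R] [IsDedekindDomain R]

/-- points -/
abbrev Pt (R : Type*) [CommRing R] := HeightOneSpectrum R

/-- divisors -/
abbrev Dv (R : Type*) [CommRing R] := Pt R →₀ ℤ

/-- fraction field -/
abbrev Fr (R : Type*) [CommRing R] := FractionRing R

/-- order of vanishing (junk value 0 at `u = 0`) -/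
def ord (P : Pt R) (u : Fr R) : ℤ :=
  FractionalIdeal.count (Fr R) P (FractionalIdeal.spanSingleton R⁰ u)

/-- the divisor of a rational function (junk value 0 at `u = 0`) -/
def dv (u : Fr R) : Dv R :=
  Finsupp.ofSupportFinite (fun P => ord P u)
    (Filter.eventually_cofinite.mp (FractionalIdeal.finite_factors _))

lemma dv_apply (u : Fr R) (P : Pt R) : dv u P = ord P u := rfl

/-- the divisor of a regular function -/
abbrev dvR (a : R) : Dv R := dv (algebraMap R (Fr R) a)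

lemma div_span_ne {u : Fr R} (hu : u ≠ 0) : FractionalIdeal.spanSingleton R⁰ u ≠ 0 :=
  FractionalIdeal.spanSingleton_ne_zero_iff.mpr hu

lemma div_map_ne {a : R} (ha : a ≠ 0) : algebraMap R (Fr R) a ≠ 0 :=
  (map_ne_zero_iff _ (IsFractionRing.injective R (Fr R))).mpr ha

lemma div_dv_zero : dv (0 : Fr R) = 0 := by
  ext P
  simp [dv_apply, ord, FractionalIdeal.count_zero]

lemma dv_mul {u v : Fr R} (hu : u ≠ 0) (hv : v ≠ 0) : dv (u * v) = dv u + dv v := by
  ext P
  simp only [dv_apply, ord, Finsupp.add_apply]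
  rw [← FractionalIdeal.spanSingleton_mul_spanSingleton,
    FractionalIdeal.count_mul _ _ (div_span_ne hu) (div_span_ne hv)]

lemma dv_one : dv (1 : Fr R) = 0 := by
  ext P
  simp [dv_apply, ord, FractionalIdeal.count_one]

lemma dv_inv (u : Fr R) : dv u⁻¹ = - dv u := by
  ext P
  simp only [dv_apply, ord, Finsupp.neg_apply]
  rw [← FractionalIdeal.spanSingleton_inv, FractionalIdeal.count_inv]

lemma dv_pow (u : Fr R) (n : ℕ) : dv (u ^ n) = n • dv u := by
  ext P
  simp only [dv_apply, ord, Finsupp.smul_apply, nsmul_eq_mul]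
  rw [← FractionalIdeal.spanSingleton_pow, FractionalIdeal.count_pow]

lemma dv_prod {ι : Type*} (s : Finset ι) (u : ι → Fr R) (hu : ∀ i ∈ s, u i ≠ 0) :
    dv (∏ i ∈ s, u i) = ∑ i ∈ s, dv (u i) := by
  classical
  induction s using Finset.induction with
  | empty => simp [dv_one]
  | insert i s hi ih =>
    rw [Finset.prod_insert hi, Finset.sum_insert hi,
      dv_mul (hu i (Finset.mem_insert_self i s))
        (Finset.prod_ne_zero_iff.mpr fun j hj => hu j (Finset.mem_insert_of_mem hj)),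
      ih fun j hj => hu j (Finset.mem_insert_of_mem hj)]

lemma dvR_nonneg (a : R) : 0 ≤ dvR a := by
  intro P
  simp only [dv_apply, ord, Finsupp.coe_zero, Pi.zero_apply]
  rw [← FractionalIdeal.coeIdeal_span_singleton]
  exact FractionalIdeal.count_coe_nonneg _ _ _

lemma exists_of_dv_nonneg {u : Fr R} (h : 0 ≤ dv u) : ∃ a : R, algebraMap R (Fr R) a = u := by
  by_cases hu : u = 0
  · exact ⟨0, by simp [hu]⟩
  have h1 : FractionalIdeal.spanSingleton R⁰ u ≤ 1 := by
    rw [← FractionalIdeal.finprod_heightOneSpectrum_factorization' (Fr R) (div_span_ne hu)]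
    apply finprod_induction (fun I : FractionalIdeal R⁰ (Fr R) => I ≤ 1) le_rfl
    · intro I J hI hJ
      exact mul_le_one' hI hJ
    · intro P
      have hP : 0 ≤ FractionalIdeal.count (Fr R) P (FractionalIdeal.spanSingleton R⁰ u) := h P
      obtain ⟨n, hn⟩ := Int.eq_ofNat_of_zero_le hP
      rw [hn, zpow_natCast, ← FractionalIdeal.coeIdeal_pow]
      exact FractionalIdeal.coeIdeal_le_one
  have h2 := h1 (FractionalIdeal.mem_spanSingleton_self R⁰ u)
  exact (FractionalIdeal.mem_one_iff R⁰).mp h2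

lemma dvR_eq_zero_iff {a : R} (ha : a ≠ 0) : dvR a = 0 ↔ IsUnit a := by
  constructor
  · intro h
    have h1 : 0 ≤ dv (algebraMap R (Fr R) a)⁻¹ := by
      rw [dv_inv]
      change 0 ≤ - dvR a
      rw [h, neg_zero]
    obtain ⟨b, hb⟩ := exists_of_dv_nonneg h1
    have h2 : algebraMap R (Fr R) (a * b) = algebraMap R (Fr R) 1 := by
      rw [map_mul, hb, map_one, mul_inv_cancel₀ (div_map_ne ha)]
    exact IsUnit.of_mul_eq_one b (IsFractionRing.injective R (Fr R) h2)
  · intro h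
    obtain ⟨b, hb⟩ := h.exists_right_inv
    have hb0 : b ≠ 0 := by
      rintro rfl
      simp at hb
    have h1 : dvR a + dvR b = 0 := by
      rw [← dv_mul (div_map_ne ha) (div_map_ne hb0), ← map_mul, hb, map_one, dv_one]
    have h2 := dvR_nonneg a
    have h3 := dvR_nonneg b
    ext P
    have h4 : dvR a P + dvR b P = 0 := by
      rw [← Finsupp.add_apply, h1]
      rfl
    have h5 : (0 : ℤ) ≤ dvR a P := h2 P
    have h6 : (0 : ℤ) ≤ dvR b P := h3 P
    simp only [Finsupp.coe_zero, Pi.zero_apply]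
    omega

lemma div_count {a : R} (ha : a ≠ 0) (P : Pt R) :
    dvR a P = (Associates.mk P.asIdeal).count (Associates.mk (Ideal.span {a})).factors := by
  simp only [dv_apply, ord]
  rw [← FractionalIdeal.coeIdeal_span_singleton, FractionalIdeal.count_coe]
  simpa using ha

/-- `a ∈ P^n` iff `n ≤ ord_P a`. -/
lemma mem_pow_iff {a : R} (ha : a ≠ 0) (P : Pt R) (n : ℕ) :
    a ∈ P.asIdeal ^ n ↔ (n : ℤ) ≤ dvR a P := by
  classical
  have h0 : Associates.mk (Ideal.span {a}) ≠ 0 := by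
    rw [Associates.mk_ne_zero]
    simpa using ha
  rw [div_count ha, Nat.cast_le, ← Associates.prime_pow_dvd_iff_le h0 P.associates_irreducible,
    ← Associates.mk_pow, Associates.mk_le_mk_iff_dvd, Ideal.dvd_span_singleton]

lemma dvR_apply_eq_count {a : R} (ha : a ≠ 0) (P : Pt R) :
    dvR a P = (Associates.mk P.asIdeal).count (Associates.mk (Ideal.span {a})).factors := by
  exact div_count ha P

/-- prescribed orders at finitely many points -/
lemma exists_dvR_eq (S : Finset (Pt R)) (n : Pt R → ℕ) :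
    ∃ a : R, a ≠ 0 ∧ ∀ P ∈ S, dvR a P = n P := by
  rcases S.eq_empty_or_nonempty with rfl | ⟨P₀, hP₀⟩
  · exact ⟨1, one_ne_zero, by simp⟩
  have hx : ∀ P : Pt R, ∃ x ∈ P.asIdeal ^ n P, x ∉ P.asIdeal ^ (n P + 1) := fun P =>
    Ideal.exists_mem_pow_notMem_pow_succ P.asIdeal P.ne_bot P.isPrime.ne_top (n P)
  choose x hx1 hx2 using hx
  obtain ⟨y, hy⟩ := IsDedekindDomain.exists_forall_sub_mem_ideal (s := S)
    (fun P : Pt R => P.asIdeal) (fun P => n P + 1) (fun P _ => P.prime)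
    (fun P _ Q _ hPQ h => hPQ (HeightOneSpectrum.ext h)) (fun P => x P)
  have h1 : ∀ P ∈ S, y ∈ P.asIdeal ^ n P := by
    intro P hP
    have h2 : y - x P ∈ P.asIdeal ^ n P := Ideal.pow_le_pow_right (Nat.le_succ _) (hy P hP)
    simpa using Ideal.add_mem _ h2 (hx1 P)
  have h2 : ∀ P ∈ S, y ∉ P.asIdeal ^ (n P + 1) := by
    intro P hP h
    apply hx2 P
    simpa using Ideal.sub_mem _ h (hy P hP)
  have hy0 : y ≠ 0 := by
    rintro rfl
    exact h2 P₀ hP₀ (Ideal.zero_mem _)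
  refine ⟨y, hy0, fun P hP => ?_⟩
  have h3 := (mem_pow_iff hy0 P (n P)).mp (h1 P hP)
  have h4 := mt (mem_pow_iff hy0 P (n P + 1)).mpr (h2 P hP)
  push_cast at h4
  omega

/-! ### transport along automorphisms -/

/-- image of a point -/
def ptMap (φ : R ≃+* R) : Pt R ≃ Pt R := HeightOneSpectrum.equivOfRingEquiv φ

lemma mem_ptMap (φ : R ≃+* R) (P : Pt R) (a : R) : φ a ∈ (ptMap φ P).asIdeal ↔ a ∈ P.asIdeal := by
  simp [ptMap]

/-- image of a divisor -/
def dvMap (φ : R ≃+* R) : Dv R ≃+ Dv R := Finsupp.domCongr (ptMap φ)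

lemma dvMap_apply (φ : R ≃+* R) (D : Dv R) (P : Pt R) : dvMap φ D (ptMap φ P) = D P := by
  simp [dvMap]

lemma dvMap_single (φ : R ≃+* R) (P : Pt R) (n : ℤ) :
    dvMap φ (Finsupp.single P n) = Finsupp.single (ptMap φ P) n := by
  simp [dvMap]

/-- extension to the fraction field -/
def frMap (φ : R ≃+* R) : Fr R ≃+* Fr R := IsFractionRing.ringEquivOfRingEquiv φ

lemma frMap_algebraMap (φ : R ≃+* R) (a : R) :
    frMap φ (algebraMap R (Fr R) a) = algebraMap R (Fr R) (φ a) := by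
  simp [frMap]

lemma div_ptMap_asIdeal (φ : R ≃+* R) (P : Pt R) :
    (ptMap φ P).asIdeal = P.asIdeal.map (φ : R →+* R) := by
  ext b
  obtain ⟨a, rfl⟩ := φ.surjective b
  rw [mem_ptMap]
  exact (Ideal.apply_mem_of_equiv_iff (f := φ)).symm

lemma div_mem_pow_ptMap (φ : R ≃+* R) (P : Pt R) (a : R) (n : ℕ) :
    φ a ∈ (ptMap φ P).asIdeal ^ n ↔ a ∈ P.asIdeal ^ n := by
  rw [div_ptMap_asIdeal, ← Ideal.map_pow]
  exact Ideal.apply_mem_of_equiv_iff (f := φ)

lemma div_dvR_map (φ : R ≃+* R) {a : R} (ha : a ≠ 0) : dvR (φ a) = dvMap φ (dvR a) := by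
  ext Q
  obtain ⟨P, rfl⟩ := (ptMap φ).surjective Q
  rw [dvMap_apply]
  have hφ : φ a ≠ 0 := (map_ne_zero_iff _ φ.injective).mpr ha
  have key : ∀ n : ℕ, (n : ℤ) ≤ dvR (φ a) (ptMap φ P) ↔ (n : ℤ) ≤ dvR a P := fun n => by
    rw [← mem_pow_iff hφ, ← mem_pow_iff ha, div_mem_pow_ptMap]
  have h1 : (0 : ℤ) ≤ dvR (φ a) (ptMap φ P) := dvR_nonneg _ _
  have h2 : (0 : ℤ) ≤ dvR a P := dvR_nonneg _ _
  obtain ⟨m, hm⟩ := Int.eq_ofNat_of_zero_le h1
  obtain ⟨m', hm'⟩ := Int.eq_ofNat_of_zero_le h2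
  have h3 := (key m).mp hm.ge
  have h4 := (key m').mpr hm'.ge
  omega

lemma dv_frMap (φ : R ≃+* R) (u : Fr R) : dv (frMap φ u) = dvMap φ (dv u) := by
  by_cases hu : u = 0
  · subst hu
    simp [div_dv_zero]
  obtain ⟨s, t, ht, rfl⟩ := IsFractionRing.div_surjective R u
  have ht0 : t ≠ 0 := nonZeroDivisors.ne_zero ht
  have hs0 : s ≠ 0 := by
    rintro rfl
    simp at hu
  have hφs : φ s ≠ 0 := (map_ne_zero_iff _ φ.injective).mpr hs0
  have hφt : φ t ≠ 0 := (map_ne_zero_iff _ φ.injective).mpr ht0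
  rw [map_div₀, frMap_algebraMap, frMap_algebraMap, div_eq_mul_inv, div_eq_mul_inv,
    dv_mul (div_map_ne hφs) (inv_ne_zero (div_map_ne hφt)),
    dv_mul (div_map_ne hs0) (inv_ne_zero (div_map_ne ht0)), dv_inv, dv_inv, map_add, map_neg,
    ← div_dvR_map φ hs0, ← div_dvR_map φ ht0]

end

end Pool.Agent.Lib.MP_33b3f9_ag
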