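import Pool.Agent.Lib.MP_33b3f9_ag.Div

/-!
The class map from divisors to `Pic R`.
-/

open IsDedekindDomain nonZeroDivisors

namespace Pool.Agent.Lib.MP_33b3f9_ag

noncomputable section

variable {R : Type*} [CommRing R] [IsDedekindDomain R]

/-- the fractional ideal of a point, as a unit -/
def ptUnit (P : Pt R) : (FractionalIdeal R⁰ (Fr R))ˣ :=
  Units.mk0 (P.asIdeal : FractionalIdeal R⁰ (Fr R))
    (FractionalIdeal.coeIdeal_ne_zero.mpr P.ne_bot)

/-- the class of a point -/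
def clPt (P : Pt R) : Additive (CommRing.Pic R) :=
  Additive.ofMul (ClassGroup.equivPic R (ClassGroup.mk (Fr R) (ptUnit P)))

/-- the class of a divisor -/
def cl : Dv R →+ Additive (CommRing.Pic R) :=
  Finsupp.liftAddHom fun P => zmultiplesHom _ (clPt P)

lemma cl_single (P : Pt R) (n : ℤ) : cl (Finsupp.single P n) = n • clPt P := by
  simp [cl]

/-- the fractional ideal of a divisor -/
def divCl_unit (D : Dv R) : (FractionalIdeal R⁰ (Fr R))ˣ := D.prod fun P n => ptUnit P ^ n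

lemma divCl_cl (D : Dv R) :
    cl D = Additive.ofMul (ClassGroup.equivPic R (ClassGroup.mk (Fr R) (divCl_unit D))) := by
  rw [divCl_unit, Finsupp.prod, map_prod, map_prod, ofMul_prod, cl, Finsupp.liftAddHom_apply,
    Finsupp.sum]
  refine Finset.sum_congr rfl fun P _ => ?_
  rw [map_zpow, map_zpow, ofMul_zpow]
  rfl

lemma divCl_count (D : Dv R) (P : Pt R) :
    FractionalIdeal.count (Fr R) P (divCl_unit D : FractionalIdeal R⁰ (Fr R)) = D P := by
  rw [← FractionalIdeal.count_finsuppProd (Fr R) P D, divCl_unit, Finsupp.prod, Finsupp.prod,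
    Units.coe_prod]
  simp [ptUnit]

lemma divCl_ext {I J : FractionalIdeal R⁰ (Fr R)} (hI : I ≠ 0) (hJ : J ≠ 0)
    (h : ∀ P, FractionalIdeal.count (Fr R) P I = FractionalIdeal.count (Fr R) P J) : I = J := by
  rw [← FractionalIdeal.finprod_heightOneSpectrum_factorization' (Fr R) hI,
    ← FractionalIdeal.finprod_heightOneSpectrum_factorization' (Fr R) hJ]
  simp only [h]

omit [IsDedekindDomain R] in
lemma divCl_ne {a : R} (ha : a ≠ 0) : algebraMap R (Fr R) a ≠ 0 :=
  fun h => ha (IsFractionRing.injective R (Fr R) (by rw [h, map_zero]))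

lemma cl_surjective : Function.Surjective (cl (R := R)) := by
  intro c
  obtain ⟨x, hx⟩ := (ClassGroup.equivPic R).surjective c.toMul
  revert hx
  refine ClassGroup.induction (Fr R) (P := fun x => ClassGroup.equivPic R x = c.toMul →
    ∃ D, cl D = c) (fun I hx => ?_) x
  refine ⟨Finsupp.ofSupportFinite
    (fun P => FractionalIdeal.count (Fr R) P (I : FractionalIdeal R⁰ (Fr R)))
    (Filter.eventually_cofinite.mp (FractionalIdeal.finite_factors _)), ?_⟩
  rw [divCl_cl, ← ofMul_toMul c, ← hx]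
  congr 3
  refine Units.ext (divCl_ext (Units.ne_zero _) (Units.ne_zero _) fun P => ?_)
  rw [divCl_count]
  rfl

lemma cl_eq_zero_iff (D : Dv R) : cl D = 0 ↔ ∃ u : Fr R, u ≠ 0 ∧ dv u = D := by
  rw [divCl_cl, ofMul_eq_zero, map_eq_one_iff _ (ClassGroup.equivPic R).injective,
    ← map_one (ClassGroup.mk (R := R) (Fr R)), eq_comm, ClassGroup.mk_eq_mk]
  constructor
  · rintro ⟨x, hx⟩
    refine ⟨x, x.ne_zero, Finsupp.ext fun P => ?_⟩
    rw [← divCl_count D P, ← hx, one_mul, coe_toPrincipalIdeal]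
    rfl
  · rintro ⟨u, hu, rfl⟩
    refine ⟨Units.mk0 u hu, ?_⟩
    refine Units.ext (divCl_ext (Units.ne_zero _) (Units.ne_zero _) fun P => ?_)
    rw [divCl_count, one_mul, coe_toPrincipalIdeal]
    rfl

/-- moving lemma -/
lemma exists_eff_disjoint (c : Additive (CommRing.Pic R)) (S : Finset (Pt R)) :
    ∃ D : Dv R, 0 ≤ D ∧ cl D = c ∧ ∀ P ∈ S, D P = 0 := by
  classical
  obtain ⟨D₁, h₁⟩ := cl_surjective (-c)
  obtain ⟨b, hb, hb'⟩ := exists_dvR_eq D₁.support fun P => (-D₁ P).toNat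
  have h₂ : 0 ≤ D₁ + dvR b := by
    intro P
    have h := dvR_nonneg b P
    simp only [Finsupp.coe_zero, Pi.zero_apply, Finsupp.coe_add, Pi.add_apply] at h ⊢
    by_cases hP : P ∈ D₁.support
    · rw [hb' P hP]
      omega
    · rw [Finsupp.notMem_support_iff.1 hP]
      omega
  obtain ⟨a, ha, ha'⟩ := exists_dvR_eq (S ∪ (D₁ + dvR b).support) fun P => ((D₁ + dvR b) P).toNat
  have h₃ : ∀ P ∈ S ∪ (D₁ + dvR b).support, (dvR a - (D₁ + dvR b)) P = 0 := by
    intro P hP
    rw [Finsupp.sub_apply, ha' P hP, Int.toNat_of_nonneg (h₂ P), sub_self]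
  refine ⟨dvR a - (D₁ + dvR b), fun P => ?_, ?_, fun P hP => h₃ P (Finset.mem_union_left _ hP)⟩
  · by_cases hP : P ∈ (D₁ + dvR b).support
    · exact (h₃ P (Finset.mem_union_right _ hP)).ge
    · rw [Finsupp.sub_apply, Finsupp.notMem_support_iff.1 hP, sub_zero]
      exact dvR_nonneg a P
  · rw [map_sub, map_add, h₁, (cl_eq_zero_iff _).2 ⟨_, divCl_ne ha, rfl⟩,
      (cl_eq_zero_iff _).2 ⟨_, divCl_ne hb, rfl⟩]
    abel

/-- two linearly equivalent effective divisors that vanish on `S` differ by a quotient of two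
regular functions without zeros on `S` -/
lemma exists_common {D D' : Dv R} (hD : 0 ≤ D) (hD' : 0 ≤ D') (h : cl D = cl D')
    (S : Finset (Pt R)) (hS : ∀ P ∈ S, D P = 0) (hS' : ∀ P ∈ S, D' P = 0) :
    ∃ c c' : R, c ≠ 0 ∧ c' ≠ 0 ∧ D + dvR c = D' + dvR c' ∧
      (∀ P ∈ S, dvR c P = 0) ∧ ∀ P ∈ S, dvR c' P = 0 := by
  classical
  obtain ⟨u, hu, hu'⟩ := (cl_eq_zero_iff (D - D')).1 (by rw [map_sub, h, sub_self])
  obtain ⟨c, hc, hc'⟩ := exists_dvR_eq (S ∪ D'.support) fun P => (D' P).toNat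
  have h₁ : ∀ P ∈ S ∪ D'.support, dvR c P = D' P := by
    intro P hP
    rw [hc' P hP, Int.toNat_of_nonneg (hD' P)]
  have h₂ : dv (algebraMap R (Fr R) c * u) = dvR c + (D - D') := by
    rw [dv_mul (divCl_ne hc) hu, hu']
  have h₃ : 0 ≤ dv (algebraMap R (Fr R) c * u) := by
    rw [h₂]
    intro P
    have h4 := dvR_nonneg c P
    have h5 := hD P
    simp only [Finsupp.coe_zero, Pi.zero_apply, Finsupp.coe_add, Pi.add_apply, Finsupp.coe_sub,
      Pi.sub_apply] at h4 h5 ⊢
    by_cases hP : P ∈ D'.support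
    · rw [h₁ P (Finset.mem_union_right _ hP)]
      omega
    · rw [Finsupp.notMem_support_iff.1 hP]
      omega
  obtain ⟨c', hc''⟩ := exists_of_dv_nonneg h₃
  have h₄ : dvR c' = dvR c + (D - D') := by rw [← h₂, ← hc'']
  refine ⟨c, c', hc, ?_, ?_, fun P hP => ?_, fun P hP => ?_⟩
  · rintro rfl
    rw [map_zero] at hc''
    exact mul_ne_zero (divCl_ne hc) hu hc''.symm
  · rw [h₄]
    abel
  · rw [h₁ P (Finset.mem_union_left _ hP), hS' P hP]
  · rw [h₄, Finsupp.add_apply, Finsupp.sub_apply, h₁ P (Finset.mem_union_left _ hP), hS' P hP,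
      hS P hP]
    simp

end

end Pool.Agent.Lib.MP_33b3f9_ag
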