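import Pool.Agent.Lib.MP_33b3f9_ag.DivCl

/-!
Equivariance of the class map.
-/

open IsDedekindDomain nonZeroDivisors

namespace Pool.Agent.Lib.MP_33b3f9_ag

noncomputable section

open TensorProduct in
lemma DivMap_mapAlgebra {R S : Type*} [CommRing R] [CommRing S] [Algebra R S]
    (hb : Function.Bijective (algebraMap R S)) (M : CommRing.Pic R) (N : CommRing.Pic S)
    (I : Ideal R) (J : Ideal S) (hIJ : ∀ a, algebraMap R S a ∈ J ↔ a ∈ I)
    (e : M ≃ₗ[R] I) (e' : N ≃ₗ[S] J) : CommRing.Pic.mapAlgebra R S M = N := by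
  rw [CommRing.Pic.mapAlgebra_apply, CommRing.Pic.mk_eq_iff]
  let f : I →ₗ[R] J :=
    { toFun := fun a => ⟨algebraMap R S a, (hIJ a).2 a.2⟩
      map_add' := fun a b => Subtype.ext (by simp)
      map_smul' := fun r a => Subtype.ext (by simp [Algebra.smul_def]) }
  have hfi : Function.Injective f := by
    intro a b h
    exact Subtype.ext (hb.1 (congrArg Subtype.val h))
  have hfs : Function.Surjective f := by
    intro b
    obtain ⟨a, ha⟩ := hb.2 b
    exact ⟨⟨a, (hIJ a).1 (ha ▸ b.2)⟩, Subtype.ext ha⟩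
  let g : S ⊗[R] I →ₗ[S] J := LinearMap.liftBaseChange S f
  have hg : ∀ a : I, g (1 ⊗ₜ a) = f a := by
    intro a
    simp [g]
  have hs : Function.Surjective (TensorProduct.mk R S I 1) :=
    TensorProduct.mk_surjective R I S hb.2
  have hgb : Function.Bijective g := by
    constructor
    · intro x y h
      obtain ⟨a, rfl⟩ := hs x
      obtain ⟨b, rfl⟩ := hs y
      have h' : f a = f b := by
        rw [← hg, ← hg]
        exact h
      rw [hfi h']
    · intro b
      obtain ⟨a, rfl⟩ := hfs b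
      exact ⟨_, hg a⟩
  exact ⟨(AlgebraTensorModule.congr (LinearEquiv.refl S S) e) ≪≫ₗ LinearEquiv.ofBijective g hgb
    ≪≫ₗ e'.symm⟩

variable {R : Type*} [CommRing R] [IsDedekindDomain R]

lemma DivMap_clPt_equiv (P : Pt R) : Nonempty ((clPt P).toMul ≃ₗ[R] P.asIdeal) := by
  let U : (Submodule R (Fr R))ˣ := FractionalIdeal.unitsMulEquivSubmodule
    (Units.map (FractionalIdeal.canonicalEquiv R⁰ (Fr R) (FractionRing R) :
      FractionalIdeal R⁰ (Fr R) →* FractionalIdeal R⁰ (FractionRing R)) (ptUnit P))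
  have h1 : (clPt P).toMul = Submodule.unitsToPic R (Fr R) U := rfl
  have h2 : (U : Submodule R (Fr R)) = Submodule.map (Algebra.linearMap R (Fr R)) P.asIdeal := by
    have : (U : Submodule R (Fr R)) =
        ((FractionalIdeal.canonicalEquiv R⁰ (Fr R) (FractionRing R)
          (P.asIdeal : FractionalIdeal R⁰ (Fr R)) : FractionalIdeal R⁰ (Fr R)) :
            Submodule R (Fr R)) := rfl
    rw [this, FractionalIdeal.canonicalEquiv_self]
    rfl
  rw [h1]
  exact ⟨Submodule.unitsToPicEquiv U ≪≫ₗ LinearEquiv.ofEq _ _ h2 ≪≫ₗ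
    (Submodule.equivMapOfInjective (Algebra.linearMap R (Fr R))
      (IsFractionRing.injective R (Fr R)) P.asIdeal).symm⟩

lemma DivMap_clPt (φ : R ≃+* R) (P : Pt R) :
    CommRing.Pic.mapRingHom (φ : R →+* R) (clPt P).toMul = (clPt (ptMap φ P)).toMul := by
  obtain ⟨e⟩ := DivMap_clPt_equiv P
  obtain ⟨e'⟩ := DivMap_clPt_equiv (ptMap φ P)
  exact @DivMap_mapAlgebra R R _ _ (φ : R →+* R).toAlgebra φ.bijective _ _ P.asIdeal
    (ptMap φ P).asIdeal (fun a => mem_ptMap φ P a) e e'

lemma cl_dvMap (φ : R ≃+* R) (D : Dv R) :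
    cl (dvMap φ D) =
      Additive.ofMul (CommRing.Pic.mapRingHom (φ : R →+* R) (cl D).toMul) := by
  induction D using Finsupp.induction_linear with
  | zero => simp
  | add D E hD hE => rw [map_add, map_add, map_add, hD, hE, toMul_add, map_mul, ofMul_mul]
  | single P n =>
    rw [dvMap_single, cl_single, cl_single, toMul_zsmul, map_zpow, DivMap_clPt, ofMul_zpow,
      ofMul_toMul]

end

end Pool.Agent.Lib.MP_33b3f9_ag
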