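import Pool.Agent.Lib.MP_33b3f9_ag.M8.Un.Main

/-!
The Mumford-Tate conjecture for abelian eightfolds of type II over `ℚ`.
-/

open Matrix Pool.Agent.M8 Pool.Agent.Lib.MP_33b3f9_ag

theorem Pool.Agent.Lib.MP_33b3f9_ag.EightfoldTypeIIOld.result
    (K : IntermediateField ℚ ℂ) [FiniteDimensional ℚ K] {ι : Type} [Fintype ι]
    (J : Set (MvPolynomial ι K)) (p : (ν → ℝ) ≃ₗ[ℝ] (Fin 8 → ℂ)) (u : (Fin 8 → ℂ) → ι → ℂ)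
    (hA : Unif J p u) (I : Matrix ν ν ℝ) (hI : ∀ x, p (I *ᵥ x) = Complex.I • p x) (hE : EndII I)
    (ℓ : ℕ) [Fact ℓ.Prime] (U : Subgroup (ℂ ≃ₐ[K] ℂ)) (hU : U.FiniteIndex)
    (h : galU p u ℓ U ⊆ zeroSet ℚ_[ℓ] (mtEqns I)) :
    zcl (AlgebraicClosure ℚ_[ℓ]) (galU p u ℓ U) = zeroSet (AlgebraicClosure ℚ_[ℓ]) (mtEqns I) :=
  M8.Un.main hA hI hE ℓ U hU h
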