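import Pool.Agent.Lib.MP_33b3f9_ag.DivMap

/-!
Evaluation of regular functions at points and at divisors.
-/

open IsDedekindDomain nonZeroDivisors

namespace Pool.Agent.Lib.MP_33b3f9_ag

noncomputable section

variable (k : Type*) [Field k] [IsAlgClosed k] {R : Type*} [CommRing R] [IsDedekindDomain R]
  [Algebra k R] [Algebra.FiniteType k R]

lemma exists_ev (P : Pt R) : ∃ e : R →ₐ[k] k, ∀ a, e a = 0 ↔ a ∈ P.asIdeal := by
  have := P.isMaximal
  let := Ideal.Quotient.field P.asIdeal
  have : Module.Finite k (R ⧸ P.asIdeal) := finite_of_finite_type_of_isJacobsonRing k _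
  have hb : Function.Bijective (Algebra.ofId k (R ⧸ P.asIdeal)) :=
    IsAlgClosed.algebraMap_bijective_of_isIntegral
  refine ⟨(AlgEquiv.ofBijective _ hb).symm.toAlgHom.comp (Ideal.Quotient.mkₐ k P.asIdeal),
    fun a => ?_⟩
  rw [← Ideal.Quotient.eq_zero_iff_mem]
  exact map_eq_zero_iff _ (AlgEquiv.ofBijective _ hb).symm.injective

/-- evaluation at a point -/
def ev (P : Pt R) : R →ₐ[k] k := (exists_ev k P).choose

variable {k}

lemma ev_eq_zero_iff (P : Pt R) (a : R) : ev k P a = 0 ↔ a ∈ P.asIdeal :=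
  (exists_ev k P).choose_spec a

lemma ev_eq_iff (P : Pt R) (a : R) (c : k) :
    ev k P a = c ↔ a - algebraMap k R c ∈ P.asIdeal := by
  rw [← ev_eq_zero_iff (k := k), map_sub, AlgHom.commutes, sub_eq_zero]
  rfl

lemma ev_ne_zero_iff (P : Pt R) {a : R} (ha : a ≠ 0) : ev k P a ≠ 0 ↔ dvR a P = 0 := by
  have h1 := mem_pow_iff ha P 1
  have h2 : (0 : ℤ) ≤ dvR a P := dvR_nonneg a P
  rw [pow_one, Nat.cast_one] at h1
  rw [Ne, ev_eq_zero_iff, h1]
  omega

lemma ev_ptMap (φ : R ≃+* R) (σ : k →+* k)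
    (h : ∀ c, φ (algebraMap k R c) = algebraMap k R (σ c)) (P : Pt R) (a : R) :
    ev k (ptMap φ P) (φ a) = σ (ev k P a) := by
  rw [ev_eq_iff, ← h, ← map_sub, mem_ptMap, ← ev_eq_iff]

/-- points are determined by their evaluation maps -/
lemma pt_ext {P Q : Pt R} (h : ∀ a, ev k P a = ev k Q a) : P = Q := by
  ext a
  rw [← ev_eq_zero_iff (k := k), ← ev_eq_zero_iff (k := k), h]

/-- every `k`-algebra map to `k` that is not injective is an evaluation -/
lemma exists_pt (e : R →ₐ[k] k) (b : R) (hb : b ≠ 0) (he : e b = 0) :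
    ∃ P : Pt R, ev k P = e := by
  refine ⟨⟨RingHom.ker e, RingHom.ker_isPrime e, fun h => hb ?_⟩, AlgHom.ext fun a => ?_⟩
  · rw [← Ideal.mem_bot, ← h]
    exact he
  · rw [ev_eq_iff]
    change e _ = 0
    rw [map_sub, AlgHom.commutes, sub_eq_zero]
    rfl

/-- degree of a divisor -/
def dg (D : Dv R) : ℤ := D.sum fun _ n => n

omit [IsDedekindDomain R] in
lemma dg_add (D D' : Dv R) : dg (D + D') = dg D + dg D' :=
  Finsupp.sum_add_index' (fun _ => rfl) fun _ _ _ => rfl

omit [IsDedekindDomain R] in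
lemma dg_nsmul (n : ℕ) (D : Dv R) : dg (n • D) = n * dg D := by
  induction n with
  | zero => simp [dg]
  | succ n ih =>
    rw [succ_nsmul, dg_add, ih]
    push_cast
    ring

omit [IsDedekindDomain R] in
lemma dg_single (P : Pt R) (n : ℤ) : dg (Finsupp.single P n) = n :=
  Finsupp.sum_single_index rfl

omit [IsDedekindDomain R] in
lemma dg_nonneg {D : Dv R} (hD : 0 ≤ D) : 0 ≤ dg D :=
  Finset.sum_nonneg fun P _ => hD P

omit [IsDedekindDomain R] in
lemma dg_dvMap (φ : R ≃+* R) (D : Dv R) : dg (dvMap φ D) = dg D :=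
  Finsupp.sum_equivMapDomain (ptMap φ) D _

variable (k) in
/-- value of a regular function on a divisor -/
def evD (a : R) (D : Dv R) : k := D.prod fun P n => ev k P a ^ n

lemma evD_add (a : R) {D D' : Dv R} (hD : 0 ≤ D) (hD' : 0 ≤ D') :
    evD k a (D + D') = evD k a D * evD k a D' := by
  classical
  unfold evD
  rw [Finsupp.prod_of_support_subset _ Finsupp.support_add _ fun _ _ => zpow_zero _,
    Finsupp.prod_of_support_subset D Finset.subset_union_left _ fun _ _ => zpow_zero _,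
    Finsupp.prod_of_support_subset D' Finset.subset_union_right _ fun _ _ => zpow_zero _,
    ← Finset.prod_mul_distrib]
  refine Finset.prod_congr rfl fun P _ => ?_
  have h1 : (0 : ℤ) ≤ D P := hD P
  have h2 : (0 : ℤ) ≤ D' P := hD' P
  rw [Finsupp.add_apply]
  exact zpow_add' (Or.inr (by omega))

lemma evD_nsmul (a : R) {D : Dv R} (hD : 0 ≤ D) (n : ℕ) : evD k a (n • D) = evD k a D ^ n := by
  induction n with
  | zero => simp [evD]
  | succ n ih => rw [succ_nsmul, evD_add a (nsmul_nonneg hD n) hD, ih, pow_succ]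

lemma evD_mul (a b : R) (D : Dv R) : evD k (a * b) D = evD k a D * evD k b D := by
  simp only [evD, map_mul, mul_zpow, Finsupp.prod_mul]

lemma evD_pow (a : R) (n : ℕ) (D : Dv R) : evD k (a ^ n) D = evD k a D ^ n := by
  induction n with
  | zero => simp [evD, Finsupp.prod]
  | succ n ih => rw [pow_succ, evD_mul, ih, pow_succ]

lemma evD_algebraMap (c : k) {D : Dv R} (hD : 0 ≤ D) :
    evD k (algebraMap k R c) D = c ^ dg D := by
  classical
  have key : ∀ s : Finset (Pt R), ∏ P ∈ s, c ^ D P = c ^ ∑ P ∈ s, D P := by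
    intro s
    induction s using Finset.induction_on with
    | empty => simp
    | insert P s hP ih =>
      have h1 : (0 : ℤ) ≤ D P := hD P
      have h2 : (0 : ℤ) ≤ ∑ P ∈ s, D P := Finset.sum_nonneg fun P _ => hD P
      rw [Finset.prod_insert hP, Finset.sum_insert hP, ih, zpow_add' (Or.inr (by omega))]
  simp only [evD, AlgHom.commutes]
  exact key D.support

lemma evD_single (a : R) (P : Pt R) (n : ℤ) : evD k a (Finsupp.single P n) = ev k P a ^ n :=
  Finsupp.prod_single_index (zpow_zero _)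

lemma evD_ne_zero {a : R} (ha : a ≠ 0) {D : Dv R} (h : ∀ P, D P ≠ 0 → dvR a P = 0) :
    evD k a D ≠ 0 :=
  Finset.prod_ne_zero_iff.2 fun P hP =>
    zpow_ne_zero _ ((ev_ne_zero_iff P ha).2 (h P (Finsupp.mem_support_iff.1 hP)))

lemma evD_dvMap (φ : R ≃+* R) (σ : k →+* k)
    (h : ∀ c, φ (algebraMap k R c) = algebraMap k R (σ c)) (a : R) (D : Dv R) :
    evD k (φ a) (dvMap φ D) = σ (evD k a D) := by
  refine (Finsupp.prod_equivMapDomain (ptMap φ) D _).trans ?_
  simp only [evD, Finsupp.prod, map_prod, map_zpow₀, ev_ptMap φ σ h]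

end

end Pool.Agent.Lib.MP_33b3f9_ag
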