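import Pool.Agent.Lib.MP_33b3f9_ag.Ev

/-!
The norm of a function on `R / (b)` is its value on the divisor of `b`.
-/

open IsDedekindDomain nonZeroDivisors

namespace Pool.Agent.Lib.MP_33b3f9_ag

noncomputable section

/-- a one dimensional extension: dimension and determinant -/
lemma evNorm_ext {k V V' : Type*} [Field k] [AddCommGroup V] [Module k V] [AddCommGroup V']
    [Module k V'] [Module.Finite k V'] (f : V →ₗ[k] V') (hf : Function.Surjective f) {x : V}
    (hx : x ≠ 0) (hk : LinearMap.ker f = Submodule.span k {x}) :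
    Module.Finite k V ∧ Module.finrank k V = Module.finrank k V' + 1 ∧
      ∀ (e : V →ₗ[k] V) (e' : V' →ₗ[k] V') (c : k), (∀ v, f (e v) = e' (f v)) → e x = c • x →
        LinearMap.det e = c * LinearMap.det e' := by
  let q := f.quotKerEquivOfSurjective hf
  have h1 : Module.finrank k (LinearMap.ker f) = 1 := by
    rw [hk]
    exact finrank_span_singleton hx
  have : Module.Finite k (LinearMap.ker f) := Module.finite_of_finrank_eq_succ h1
  have : Module.Finite k (V ⧸ LinearMap.ker f) := Module.Finite.equiv q.symm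
  have hV : Module.Finite k V := Module.Finite.of_submodule_quotient (LinearMap.ker f)
  refine ⟨hV, ?_, fun e e' c he hc => ?_⟩
  · rw [← Submodule.finrank_quotient_add_finrank (LinearMap.ker f), h1, q.finrank_eq]
  · have h2 : LinearMap.ker f ≤ (LinearMap.ker f).comap e := by
      intro v hv
      rw [Submodule.mem_comap, LinearMap.mem_ker, he, LinearMap.mem_ker.1 hv, map_zero]
    have h3 : e.restrict (p := LinearMap.ker f) (q := LinearMap.ker f) h2 = c • LinearMap.id := by
      ext ⟨v, hv⟩
      obtain ⟨t, rfl⟩ := Submodule.mem_span_singleton.1 (hk ▸ hv)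
      simp only [LinearMap.coe_restrict_apply, map_smul, hc, LinearMap.smul_apply,
        LinearMap.id_coe, id_eq, SetLike.val_smul]
      exact smul_comm _ _ _
    have h4 : e' = (q : (V ⧸ LinearMap.ker f) →ₗ[k] V') ∘ₗ
        (LinearMap.ker f).mapQ (LinearMap.ker f) e h2 ∘ₗ (q.symm : V' →ₗ[k] _) := by
      ext v'
      obtain ⟨v, rfl⟩ := hf v'
      have h5 : q.symm (f v) = Submodule.Quotient.mk v := by
        rw [LinearEquiv.symm_apply_eq]
        rfl
      simp only [LinearMap.comp_apply, LinearEquiv.coe_coe, h5, Submodule.mapQ_apply]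
      exact (he v).symm
    rw [LinearMap.det_eq_det_mul_det _ e h2, h3, LinearMap.det_smul, h1, LinearMap.det_id, h4,
      LinearMap.det_conj, pow_one, mul_one]

variable {k : Type*} [Field k] [IsAlgClosed k] {R : Type*} [CommRing R] [IsDedekindDomain R]
  [Algebra k R] [Algebra.FiniteType k R]

omit [IsAlgClosed k] [Algebra.FiniteType k R] in
lemma evNorm_gen (P : Pt R) {I : Ideal R} (hI : I ≠ ⊥) :
    ∃ x ∈ I, x ∉ P.asIdeal * I ∧ ∀ y ∈ I, ∃ r, y - r * x ∈ P.asIdeal * I := by
  have h1 : ¬ I ≤ P.asIdeal * I := by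
    intro h
    have e : P.asIdeal * I = 1 * I := by
      rw [one_mul]
      exact le_antisymm Ideal.mul_le_right h
    exact P.isPrime.ne_top ((mul_right_cancel₀ hI e).trans Ideal.one_eq_top)
  obtain ⟨x, hx, hx'⟩ := SetLike.not_le_iff_exists.1 h1
  refine ⟨x, hx, hx', fun y hy => ?_⟩
  have h2 : P.asIdeal * I ⊔ Ideal.span {x} ≤ I :=
    sup_le Ideal.mul_le_right ((Ideal.span_singleton_le_iff_mem _).2 hx)
  obtain ⟨K, hK⟩ := Ideal.dvd_iff_le.2 h2
  have h3 : K ∣ P.asIdeal := by
    rw [← mul_dvd_mul_iff_left hI, ← hK, mul_comm]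
    exact Ideal.dvd_iff_le.2 le_sup_left
  have h4 : K = ⊤ := by
    by_contra h
    have e := P.isMaximal.eq_of_le h (Ideal.dvd_iff_le.1 h3)
    apply hx'
    rw [e, mul_comm, ← hK]
    exact Ideal.mem_sup_right (Ideal.mem_span_singleton_self x)
  rw [h4, Ideal.mul_top] at hK
  obtain ⟨p, hp, z, hz, e⟩ := Submodule.mem_sup.1 (hK.ge hy)
  obtain ⟨r, rfl⟩ := Ideal.mem_span_singleton'.1 hz
  exact ⟨r, by rwa [← e, add_sub_cancel_right]⟩

lemma evNorm_step (P : Pt R) {I : Ideal R} (hI : I ≠ ⊥) [Module.Finite k (R ⧸ I)] :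
    Module.Finite k (R ⧸ (P.asIdeal * I)) ∧
      Module.finrank k (R ⧸ (P.asIdeal * I)) = Module.finrank k (R ⧸ I) + 1 ∧
      ∀ a : R, Algebra.norm k (Ideal.Quotient.mk (P.asIdeal * I) a) =
        ev k P a * Algebra.norm k (Ideal.Quotient.mk I a) := by
  obtain ⟨x, hx, hx', H⟩ := evNorm_gen P hI
  have key : ∀ r : R, Ideal.Quotient.mk (P.asIdeal * I) r * Ideal.Quotient.mk _ x =
      ev k P r • Ideal.Quotient.mk (P.asIdeal * I) x := by
    intro r
    rw [Algebra.smul_def, ← Ideal.Quotient.mk_algebraMap, ← map_mul, ← map_mul,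
      Ideal.Quotient.eq, ← sub_mul]
    exact Ideal.mul_mem_mul ((ev_eq_iff P r _).1 rfl) hx
  let f := Ideal.Quotient.factorₐ k (Ideal.mul_le_right : P.asIdeal * I ≤ I)
  have hf : ∀ r, f (Ideal.Quotient.mk _ r) = Ideal.Quotient.mk I r := fun _ => rfl
  obtain ⟨h1, h2, h3⟩ := evNorm_ext f.toLinearMap
    (fun y => by
      obtain ⟨r, rfl⟩ := Ideal.Quotient.mk_surjective y
      exact ⟨Ideal.Quotient.mk _ r, rfl⟩)
    (x := Ideal.Quotient.mk _ x) (fun e => hx' (Ideal.Quotient.eq_zero_iff_mem.1 e)) (by
      ext y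
      obtain ⟨y, rfl⟩ := Ideal.Quotient.mk_surjective y
      rw [LinearMap.mem_ker, AlgHom.toLinearMap_apply, hf, Ideal.Quotient.eq_zero_iff_mem,
        Submodule.mem_span_singleton]
      constructor
      · intro hy
        obtain ⟨r, hr⟩ := H y hy
        exact ⟨ev k P r, by rw [← key, ← map_mul, eq_comm, Ideal.Quotient.eq]; exact hr⟩
      · rintro ⟨c, hc⟩
        rw [← Ideal.Quotient.eq_zero_iff_mem, ← hf, ← hc, map_smul, hf,
          Ideal.Quotient.eq_zero_iff_mem.2 hx, smul_zero])
  refine ⟨h1, h2, fun a => ?_⟩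
  rw [Algebra.norm_apply, Algebra.norm_apply]
  refine h3 _ _ _ (fun v => ?_) (key a)
  change f (_ * v) = _ * f v
  rw [map_mul, hf]

lemma evNorm_main (I : Ideal R) (hI : I ≠ ⊥) : ∀ D : Dv R,
    (∀ P, D P = (Associates.mk P.asIdeal).count (Associates.mk I).factors) →
    Module.Finite k (R ⧸ I) ∧ (Module.finrank k (R ⧸ I) : ℤ) = dg D ∧
      ∀ a : R, Algebra.norm k (Ideal.Quotient.mk I a) = evD k a D := by
  induction I using UniqueFactorizationMonoid.induction_on_prime with
  | h₁ => exact absurd rfl hI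
  | h₂ I hu =>
    intro D hD
    obtain rfl : D = 0 := by
      ext P
      rw [hD, Associates.mk_eq_one.2 hu, Associates.factors_one,
        Associates.count_zero P.associates_irreducible]
      rfl
    have : Subsingleton (R ⧸ I) := Ideal.Quotient.subsingleton_iff.2 (Ideal.isUnit_iff.1 hu)
    refine ⟨inferInstance, ?_, fun a => ?_⟩
    · rw [Module.finrank_zero_of_subsingleton]
      simp [dg]
    · rw [Subsingleton.elim (Ideal.Quotient.mk I a) 1, map_one]
      simp [evD]
  | h₃ I p hI0 hp ih =>
    intro D hD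
    let P : Pt R := ⟨p, Ideal.isPrime_of_prime hp, hp.ne_zero⟩
    have hD' : ∀ Q, (D - Finsupp.single P 1 : Dv R) Q =
        (Associates.mk Q.asIdeal).count (Associates.mk I).factors := by
      intro Q
      rw [Finsupp.sub_apply, hD, ← Associates.mk_mul_mk,
        Associates.count_mul (Associates.mk_ne_zero.2 hp.ne_zero) (Associates.mk_ne_zero.2 hI0)
          Q.associates_irreducible]
      by_cases e : P = Q
      · subst e
        rw [Finsupp.single_eq_same]
        have := Associates.count_self P.associates_irreducible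
        change (Associates.mk p).count (Associates.mk p).factors = 1 at this
        change ((((Associates.mk p).count (Associates.mk p).factors + _ : ℕ) : ℤ)) - 1 = _
        rw [this]
        push_cast
        ring
      · rw [Finsupp.single_eq_of_ne (Ne.symm e)]
        have : (Associates.mk Q.asIdeal).count (Associates.mk p).factors = 0 :=
          Associates.count_eq_zero_of_ne Q.associates_irreducible P.associates_irreducible
            fun h => e (HeightOneSpectrum.ext
              (associated_iff_eq.1 (Associates.mk_eq_mk_iff_associated.1 h)).symm)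
        rw [this]
        simp
    obtain ⟨h1, h2, h3⟩ := ih hI0 _ hD'
    obtain ⟨h4, h5, h6⟩ := evNorm_step (k := k) P hI0
    have h7 : 0 ≤ (D - Finsupp.single P 1 : Dv R) := fun Q => by
      rw [hD']
      exact Nat.cast_nonneg _
    have h8 : D = (D - Finsupp.single P 1) + Finsupp.single P 1 := (sub_add_cancel _ _).symm
    refine ⟨h4, ?_, fun a => ?_⟩
    · rw [h8, dg_add, dg_single, ← h2]
      exact_mod_cast h5
    · rw [h8, evD_add a h7 (Finsupp.single_nonneg.2 zero_le_one), evD_single, ← h3, zpow_one]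
      exact (h6 a).trans (mul_comm _ _)

/-- the dimension of `R / (b)` is the degree of the divisor of `b` -/
theorem finrank_quot {b : R} (hb : b ≠ 0) :
    (Module.finrank k (R ⧸ Ideal.span {b}) : ℤ) = dg (dvR b) :=
  (evNorm_main (k := k) _ (by simpa using hb) _ (dvR_apply_eq_count hb)).2.1

/-- the determinant of multiplication by `a` on `R / (b)` is the value of `a` on `div b` -/
theorem norm_quot (a : R) {b : R} (hb : b ≠ 0) :
    Algebra.norm k (Ideal.Quotient.mk (Ideal.span {b}) a) = evD k a (dvR b) :=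
  (evNorm_main (k := k) _ (by simpa using hb) _ (dvR_apply_eq_count hb)).2.2 a

end

end Pool.Agent.Lib.MP_33b3f9_ag
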