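import Pool.Agent.Lib.MP_33b3f9_ag.Tree

/-!
The criterion holds for the genus 4 curve with branch points 0, 4, 6, 11, 32, 38, 42, 46, 47.
-/

namespace Pool.Agent.Lib.MP_33b3f9_ag

/-- the branch points -/
def exPts : Fin 9 → ℤ := ![0, 4, 6, 11, 32, 38, 42, 46, 47]

/-- edges of a spanning tree with their primes -/
def exEdges : List (Fin 9 × Fin 9 × ℕ) :=
  [(2, 8, 41), (0, 3, 11), (1, 8, 43), (2, 4, 13), (0, 8, 47), (1, 5, 17), (0, 7, 23), (3, 6, 31)]

/-- the spanning tree -/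
def exGraph : SimpleGraph (Fin 9) :=
  SimpleGraph.fromRel fun i j => ∃ e ∈ exEdges, e.1 = i ∧ e.2.1 = j

instance : DecidableRel exGraph.Adj := by
  unfold exGraph
  infer_instance

lemma ex_val (p : ℕ) [Fact p.Prime] (n : ℤ) (h2 : ¬ (p : ℤ) ^ 2 ∣ n) :
    ((padicValRat p (n : ℚ) : ℤ) : ZMod 2) = if (p : ℤ) ∣ n then 1 else 0 := by
  have hn : n ≠ 0 := by rintro rfl; simp at h2
  rw [padicValRat.of_int]
  split_ifs with h1
  · have h3 := (padicValInt_dvd_iff (p := p) 1 n).mp (by simpa using h1)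
    have h4 := (padicValInt_dvd_iff (p := p) 2 n).not.mp h2
    have : padicValInt p n = 1 := by omega
    simp [this]
  · simp [padicValInt.eq_zero_of_not_dvd h1]

lemma ex_check : ∀ e ∈ exEdges, e.2.2.Prime ∧ ∀ p q : Fin 9, p ≠ q →
    ¬ ((e.2.2 : ℤ) ^ 2 ∣ exPts p - exPts q) ∧
      (((e.2.2 : ℤ) ∣ exPts p - exPts q) ↔ s(p, q) = s(e.1, e.2.1)) := by
  decide +kernel

theorem kummer_example : Kummer fun i => (exPts i : ℚ) := by
  rw [← crit_iff]
  refine crit_of_connected _ exGraph (by decide +kernel) fun i j hij => ?_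
  have key : ∀ e ∈ exEdges, ∃ χ : ℚ → ZMod 2, IsChar χ ∧ ∀ p q : Fin 9, p ≠ q →
      χ ((exPts p : ℚ) - exPts q) = if s(p, q) = s(e.1, e.2.1) then 1 else 0 := by
    intro e he
    obtain ⟨hp, h⟩ := ex_check e he
    have : Fact e.2.2.Prime := ⟨hp⟩
    refine ⟨_, isChar_padic e.2.2, fun p q hpq => ?_⟩
    rw [← Int.cast_sub, ex_val _ _ (h p q hpq).1]
    simp only [(h p q hpq).2]
  obtain ⟨-, ⟨e, he, rfl, rfl⟩ | ⟨e, he, rfl, rfl⟩⟩ := (SimpleGraph.fromRel_adj _ _ _).mp hij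
  · exact key e he
  · simpa only [Sym2.eq_swap (a := e.1)] using key e he

end Pool.Agent.Lib.MP_33b3f9_ag
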