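import Pool.Agent.Lib.MP_33b3f9_ag.M4.P.Main
import Pool.Agent.Lib.MP_33b3f9_ag.M4.F.Main
import Pool.Agent.Lib.MP_33b3f9_ag.M5.Main

/-!
The Mumford-Tate conjecture for abelian fourfolds with endomorphism ring `ℤ`.
-/

open Matrix Pool.Agent.M4 Pool.Agent.Lib.MP_33b3f9_ag

theorem Pool.Agent.Lib.MP_33b3f9_ag.fourfoldEndZOld
    (τ : Matrix (Fin 4) (Fin 4) ℂ) (K : IntermediateField ℚ ℂ) [FiniteDimensional ℚ K]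
    (I : Matrix ν ν ℝ) (hτ : Siegel τ) (hK : DefinedOver τ K)
    (hI : ∀ x, per τ (I *ᵥ x) = Complex.I • per τ x) (hE : EndZ I)
    (ℓ : ℕ) [Fact ℓ.Prime] (U : Subgroup (ℂ ≃ₐ[K] ℂ)) (hU : U.FiniteIndex)
    (h : galImage τ ℓ U ⊆ zeroSet ℚ_[ℓ] (mtEqns I)) :
    zcl (AlgebraicClosure ℚ_[ℓ]) (galImage τ ℓ U) = zeroSet (AlgebraicClosure ℚ_[ℓ]) (mtEqns I) :=
  M4.Bridge.main hτ hK hI hE (fun _ hA he => M5.dich hA (M4.fal hA he)) ℓ U hU h
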