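import Pool.Agent.Lib.MP_33b3f9_ag.Defs

/-!
The coordinate ring of `y^2 = prod (x - a_i)`: basis, involution, Galois action.
-/

open Polynomial

namespace Pool.Agent.Lib.MP_33b3f9_ag

noncomputable section

variable {k₁ : Type*} [Field k₁] {k : Type*} [Field k] [Algebra k₁ k] {ι : Type} [Fintype ι]
  (a : ι → k₁)

/-- polynomials in `x` as functions on the curve -/
def pol : k[X] →+* Coord k a := AdjoinRoot.of _

/-- the function `y` -/
def yy : Coord k a := AdjoinRoot.root _

lemma pol_C (c : k) : pol a (C c) = algebraMap k (Coord k a) c := rfl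

lemma hyp_monic : (hyp k a).Monic := by
  unfold hyp
  exact monic_prod_of_monic _ _ fun i _ => monic_X_sub_C _

lemma hyp_natDegree : (hyp k a).natDegree = Fintype.card ι := by
  unfold hyp
  rw [natDegree_prod_of_monic _ _ fun i _ => monic_X_sub_C _]
  simp

lemma yy_sq : (yy a : Coord k a) ^ 2 = pol a (hyp k a) := by
  have h := AdjoinRoot.mk_self (f := (X ^ 2 - C (hyp k a) : k[X][X]))
  rw [map_sub, map_pow, AdjoinRoot.mk_X, AdjoinRoot.mk_C, sub_eq_zero] at h
  exact h

lemma hyp_mk_lin (A B : k[X]) :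
    AdjoinRoot.mk (X ^ 2 - C (hyp k a) : k[X][X]) (C B * X + C A) = pol a A + pol a B * yy a := by
  rw [map_add, map_mul, AdjoinRoot.mk_X, AdjoinRoot.mk_C, AdjoinRoot.mk_C, add_comm]
  rfl

lemma exists_rep (r : Coord k a) : ∃ A B : k[X], r = pol a A + pol a B * yy a := by
  induction r using AdjoinRoot.induction_on with
  | ih p =>
    have hm : (X ^ 2 - C (hyp k a) : k[X][X]).Monic := monic_X_pow_sub_C _ two_ne_zero
    have hd : (p %ₘ (X ^ 2 - C (hyp k a))).degree < 2 := by
      have := degree_modByMonic_lt p hm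
      rwa [degree_X_pow_sub_C (by norm_num)] at this
    have hd' : (p %ₘ (X ^ 2 - C (hyp k a))).degree ≤ 1 := Order.le_of_lt_succ hd
    refine ⟨(p %ₘ (X ^ 2 - C (hyp k a))).coeff 0, (p %ₘ (X ^ 2 - C (hyp k a))).coeff 1, ?_⟩
    rw [← hyp_mk_lin, ← eq_X_add_C_of_degree_le_one hd', AdjoinRoot.mk_eq_mk]
    exact ⟨p /ₘ (X ^ 2 - C (hyp k a)), by
      rw [sub_eq_iff_eq_add']
      exact (modByMonic_add_div p _).symm⟩

lemma rep_unique {A B : k[X]} (h : pol a A + pol a B * yy a = 0) : A = 0 ∧ B = 0 := by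
  rw [← hyp_mk_lin] at h
  have hm : (X ^ 2 - C (hyp k a) : k[X][X]).Monic := monic_X_pow_sub_C _ two_ne_zero
  have h0 : (C B * X + C A : k[X][X]) = 0 := by
    by_contra hne
    refine AdjoinRoot.mk_ne_zero_of_degree_lt hm hne ?_ h
    rw [degree_X_pow_sub_C (by norm_num)]
    exact degree_linear_le.trans_lt (by norm_num)
  have h1 := congrArg (coeff · 0) h0
  have h2 := congrArg (coeff · 1) h0
  simp at h1 h2
  exact ⟨h1, h2⟩

instance : Algebra.FiniteType k (Coord k a) := by
  exact AdjoinRoot.finiteType (R := k[X]) (S := k) _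

/-- the hyperelliptic involution as a ring map -/
def tauHom : Coord k a →+* Coord k a :=
  AdjoinRoot.lift (pol a) (-yy a) (by
    have := yy_sq (k := k) a
    simp [this])

lemma tauHom_pol (p : k[X]) : tauHom a (pol a p) = pol a p := by
  simp [tauHom, pol]

lemma tauHom_yy : tauHom a (yy a : Coord k a) = -yy a := by
  simp [tauHom, yy]

lemma tauHom_tauHom (r : Coord k a) : tauHom a (tauHom a r) = r := by
  obtain ⟨A, B, rfl⟩ := exists_rep a r
  simp [tauHom_pol, tauHom_yy]

/-- the hyperelliptic involution -/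
def tau : Coord k a ≃+* Coord k a :=
  RingEquiv.ofRingHom (tauHom a) (tauHom a) (RingHom.ext (tauHom_tauHom a))
    (RingHom.ext (tauHom_tauHom a))

lemma tau_pol (p : k[X]) : tau a (pol a p) = pol a p := tauHom_pol a p

lemma tau_yy : tau a (yy a : Coord k a) = -yy a := tauHom_yy a

lemma tau_tau (r : Coord k a) : tau a (tau a r) = r := tauHom_tauHom a r

lemma act_pol (σ : k ≃ₐ[k₁] k) (p : k[X]) : act a σ (pol a p) = pol a (p.map (σ : k →+* k)) := by
  simp [act, pol]

lemma act_yy (σ : k ≃ₐ[k₁] k) : act a σ (yy a : Coord k a) = yy a := by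
  simp [act, yy]

lemma act_act (σ σ' : k ≃ₐ[k₁] k) (r : Coord k a) :
    act a σ (act a σ' r) = act a (σ * σ') r := by
  obtain ⟨A, B, rfl⟩ := exists_rep a r
  have e : ((σ * σ' : k ≃ₐ[k₁] k) : k →+* k) = (σ : k →+* k).comp (σ' : k →+* k) :=
    RingHom.ext fun _ => rfl
  simp only [map_add, map_mul, act_pol, act_yy, Polynomial.map_map, e]

lemma act_one (r : Coord k a) : act a (1 : k ≃ₐ[k₁] k) r = r := by
  obtain ⟨A, B, rfl⟩ := exists_rep a r
  have e : ((1 : k ≃ₐ[k₁] k) : k →+* k) = RingHom.id k := RingHom.ext fun _ => rfl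
  simp only [map_add, map_mul, act_pol, act_yy, e, Polynomial.map_id]

/-- the Galois action as a ring automorphism -/
def actE (σ : k ≃ₐ[k₁] k) : Coord k a ≃+* Coord k a :=
  RingEquiv.ofRingHom (act a σ) (act a σ⁻¹)
    (RingHom.ext fun r => by simp [act_act, act_one])
    (RingHom.ext fun r => by simp [act_act, act_one])

lemma actE_apply (σ : k ≃ₐ[k₁] k) (r : Coord k a) : actE a σ r = act a σ r := rfl

lemma coe_actE (σ : k ≃ₐ[k₁] k) : (actE a σ : Coord k a →+* Coord k a) = act a σ := rfl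

lemma act_algebraMap (σ : k ≃ₐ[k₁] k) (c : k) :
    act a σ (algebraMap k (Coord k a) c) = algebraMap k (Coord k a) (σ c) := by
  rw [← pol_C, ← pol_C, act_pol, map_C]
  rfl

lemma act_tau (σ : k ≃ₐ[k₁] k) (r : Coord k a) : act a σ (tau a r) = tau a (act a σ r) := by
  obtain ⟨A, B, rfl⟩ := exists_rep a r
  simp only [map_add, map_mul, map_neg, act_pol, act_yy, tau_pol, tau_yy]

lemma actJ_mul (σ σ' : k ≃ₐ[k₁] k) (P : Jac k a) :
    actJ a (σ * σ') P = actJ a σ (actJ a σ' P) := by
  have e : act a (σ * σ') = (act a σ).comp (act a σ') :=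
    RingHom.ext fun r => (act_act a σ σ' r).symm
  simp only [actJ, toMul_ofMul, CommRing.Pic.mapRingHom_mapRingHom, e]

lemma actJ_one (P : Jac k a) : actJ a (1 : k ≃ₐ[k₁] k) P = P := by
  have e : act a (1 : k ≃ₐ[k₁] k) = RingHom.id _ := RingHom.ext fun r => act_one a r
  simp only [actJ, e, CommRing.Pic.mapRingHom_id_apply, ofMul_toMul]

lemma actJ_add (σ : k ≃ₐ[k₁] k) (P Q : Jac k a) :
    actJ a σ (P + Q) = actJ a σ P + actJ a σ Q := by
  simp only [actJ, toMul_add, map_mul, ofMul_mul]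

end

end Pool.Agent.Lib.MP_33b3f9_ag
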