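import Pool.Agent.Lib.MP_33b3f9_ag.Hyp

/-!
The coordinate ring is a Dedekind domain.
-/

open Polynomial

namespace Pool.Agent.Lib.MP_33b3f9_ag

noncomputable section

variable {k₁ : Type*} [Field k₁] {k : Type*} [Field k] [Algebra k₁ k] {ι : Type} [Fintype ι]
  (a : ι → k₁)

lemma hypDed_pol_inj : Function.Injective (pol (k := k) a) := by
  rw [injective_iff_map_eq_zero]
  intro p hp
  have h : pol a p + pol a (0 : k[X]) * yy a = 0 := by simp [hp]
  exact (rep_unique a h).1

lemma hypDed_norm (A B : k[X]) :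
    (pol a A + pol a B * yy a) * tau a (pol a A + pol a B * yy a) =
      pol a (A ^ 2 - B ^ 2 * hyp k a) := by
  have h := yy_sq (k := k) a
  simp only [map_add, map_mul, map_sub, map_pow, tau_pol, tau_yy]
  rw [← h]
  ring

lemma hypDed_norm_ne (hodd : Odd (Fintype.card ι)) {A B : k[X]} (h : ¬ (A = 0 ∧ B = 0)) :
    A ^ 2 - B ^ 2 * hyp k a ≠ 0 := by
  intro h0
  have h1 : A ^ 2 = B ^ 2 * hyp k a := sub_eq_zero.mp h0
  have hf : hyp k a ≠ 0 := (hyp_monic a).ne_zero
  by_cases hB : B = 0
  · subst hB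
    apply h
    refine ⟨?_, rfl⟩
    simpa using h1
  · have h2 := congrArg natDegree h1
    rw [natDegree_pow, natDegree_mul (pow_ne_zero 2 hB) hf, natDegree_pow, hyp_natDegree] at h2
    obtain ⟨m, hm⟩ := hodd
    omega

lemma hypDed_exists_norm (hodd : Odd (Fintype.card ι)) {r : Coord k a} (hr : r ≠ 0) :
    ∃ p : k[X], p ≠ 0 ∧ r * tau a r = pol a p := by
  obtain ⟨A, B, rfl⟩ := exists_rep a r
  refine ⟨_, hypDed_norm_ne a hodd ?_, hypDed_norm a A B⟩
  rintro ⟨rfl, rfl⟩
  simp at hr

theorem coord_isDomain (hodd : Odd (Fintype.card ι)) : IsDomain (Coord k a) := by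
  haveI : Nontrivial (Coord k a) := (hypDed_pol_inj (k := k) a).nontrivial
  haveI : NoZeroDivisors (Coord k a) := ⟨by
    intro r s hrs
    by_contra hcon
    push Not at hcon
    obtain ⟨p, hp, hpr⟩ := hypDed_exists_norm a hodd hcon.1
    obtain ⟨q, hq, hqs⟩ := hypDed_exists_norm a hodd hcon.2
    have h : pol a (p * q) = 0 := by
      rw [map_mul, ← hpr, ← hqs]
      calc r * tau a r * (s * tau a s) = (r * s) * (tau a r * tau a s) := by ring
        _ = 0 := by rw [hrs, zero_mul]
    have h' : p * q = 0 := hypDed_pol_inj a (by rw [h, map_zero])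
    exact mul_ne_zero hp hq h'⟩
  exact NoZeroDivisors.to_isDomain _

lemma hypDed_dvd_of_sq {f h B : k[X]} (hf : Squarefree f) (hh : h ≠ 0)
    (hd : h * h ∣ B ^ 2 * f) : h ∣ B := by
  obtain ⟨h', B', c, hrel, rfl, rfl⟩ := UniqueFactorizationMonoid.exists_reduced_factors h hh B
  have hc : c ≠ 0 := left_ne_zero_of_mul hh
  have h1 : c * c * (h' * h') ∣ c * c * (B' ^ 2 * f) := by
    convert hd using 1 <;> ring
  have h2 : h' * h' ∣ B' ^ 2 * f := (mul_dvd_mul_iff_left (mul_ne_zero hc hc)).mp h1
  have hrel2 : IsRelPrime (h' * h') (B' ^ 2) :=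
    (IsRelPrime.mul_left hrel hrel).pow_right
  have h3 : h' * h' ∣ f := hrel2.dvd_of_dvd_mul_left h2
  have hu : IsUnit h' := hf h' h3
  exact mul_dvd_mul_left c hu.dvd

/-- the involution as a map of `k[x]`-algebras -/
def hypDed_tauA : Coord k a ≃ₐ[k[X]] Coord k a :=
  AlgEquiv.ofRingEquiv (f := tau a) (fun p => tau_pol a p)

lemma hypDed_dvd_of_integral {K : Type*} [Field K] [Algebra k[X] K]
    (hinj : Function.Injective (algebraMap k[X] K)) {A h : k[X]} (hh : h ≠ 0)
    (hi : IsIntegral k[X] (algebraMap k[X] K A / algebraMap k[X] K h)) : h ∣ A := by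
  let g : k[X] →ₐ[k[X]] K := Algebra.ofId _ _
  have hg : Function.Injective g := hinj
  let φ : FractionRing k[X] →ₐ[k[X]] K := IsFractionRing.liftAlgHom hg
  have hφ : Function.Injective φ := φ.toRingHom.injective
  have h1 : φ (algebraMap k[X] _ A / algebraMap k[X] _ h) =
      algebraMap k[X] K A / algebraMap k[X] K h := by
    rw [map_div₀, φ.commutes, φ.commutes]
  rw [← h1, isIntegral_algHom_iff φ hφ] at hi
  obtain ⟨y, hy⟩ := (isIntegrallyClosed_iff (FractionRing k[X])).mp inferInstance hi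
  have hh' : algebraMap k[X] (FractionRing k[X]) h ≠ 0 :=
    (map_ne_zero_iff _ (IsFractionRing.injective _ _)).mpr hh
  rw [eq_div_iff hh', ← map_mul] at hy
  exact ⟨y, by rw [← IsFractionRing.injective k[X] (FractionRing k[X]) hy, mul_comm]⟩

theorem coord_isDedekind [CharZero k] (hodd : Odd (Fintype.card ι))
    (hinj : Function.Injective a) : IsDedekindDomain (Coord k a) := by
  haveI hdom : IsDomain (Coord k a) := coord_isDomain a hodd
  have hmon : (X ^ 2 - C (hyp k a) : k[X][X]).Monic := monic_X_pow_sub_C _ (by norm_num)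
  haveI hfin : Module.Finite k[X] (Coord k a) := hmon.finite_adjoinRoot
  haveI hint : Algebra.IsIntegral k[X] (Coord k a) := Algebra.IsIntegral.of_finite _ _
  have hsq : Squarefree (hyp k a) := by
    apply Separable.squarefree
    unfold hyp
    exact separable_prod_X_sub_C_iff.mpr ((algebraMap k₁ k).injective.comp hinj)
  rw [isDedekindDomain_iff _ (FractionRing (Coord k a))]
  refine ⟨hdom, inferInstance, Ring.DimensionLEOne.of_isIntegral k[X] _, ?_⟩
  set K := FractionRing (Coord k a) with hK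
  intro u hu
  have hpol : ∀ p : k[X], algebraMap (Coord k a) K (pol a p) = algebraMap k[X] K p := fun p => rfl
  have hinjK : Function.Injective (algebraMap k[X] K) := by
    intro p q hpq
    rw [← hpol, ← hpol] at hpq
    exact hypDed_pol_inj a (IsFractionRing.injective (Coord k a) K hpq)
  have hu' : IsIntegral k[X] u := isIntegral_trans u hu
  obtain ⟨r, s, hs, rfl⟩ := IsFractionRing.div_surjective (Coord k a) u
  have hs0 : s ≠ 0 := nonZeroDivisors.ne_zero hs
  obtain ⟨h, hh, hsh⟩ := hypDed_exists_norm a hodd hs0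
  obtain ⟨A, B, hAB⟩ := exists_rep a (r * tau a s)
  have hts : tau a s ≠ 0 := (map_ne_zero_iff _ (tau a).injective).mpr hs0
  have hhK : algebraMap k[X] K h ≠ 0 := (map_ne_zero_iff _ hinjK).mpr hh
  have hu2 : algebraMap (Coord k a) K r / algebraMap (Coord k a) K s =
      algebraMap (Coord k a) K (pol a A + pol a B * yy a) / algebraMap k[X] K h := by
    rw [← hAB, ← hpol, ← hsh, map_mul, map_mul, mul_div_mul_right]
    exact (map_ne_zero_iff _ (IsFractionRing.injective (Coord k a) K)).mpr hts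
  rw [hu2] at hu' ⊢
  let τ : K ≃ₐ[k[X]] K := IsFractionRing.algEquivOfAlgEquiv (hypDed_tauA a)
  have hτ : ∀ z, τ (algebraMap (Coord k a) K z) = algebraMap (Coord k a) K (tau a z) :=
    fun z => IsFractionRing.algEquivOfAlgEquiv_algebraMap (hypDed_tauA a) z
  have hv : IsIntegral k[X]
      (algebraMap (Coord k a) K (tau a (pol a A + pol a B * yy a)) / algebraMap k[X] K h) := by
    have h0 := hu'.map τ.toAlgHom
    have h1 : τ.toAlgHom
        (algebraMap (Coord k a) K (pol a A + pol a B * yy a) / algebraMap k[X] K h) =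
        algebraMap (Coord k a) K (tau a (pol a A + pol a B * yy a)) / algebraMap k[X] K h := by
      rw [map_div₀, AlgHom.commutes, ← hτ]
      rfl
    rwa [h1] at h0
  have h1 : h ∣ 2 * A := by
    apply hypDed_dvd_of_integral hinjK hh
    have := hu'.add hv
    have h0 : pol a A + pol a B * yy a + tau a (pol a A + pol a B * yy a) = pol a (2 * A) := by
      simp only [map_add, map_mul, tau_pol, tau_yy, map_ofNat]
      ring
    rw [← add_div, ← map_add, h0, hpol] at this
    exact this
  have h2 : h * h ∣ A ^ 2 - B ^ 2 * hyp k a := by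
    apply hypDed_dvd_of_integral hinjK (mul_ne_zero hh hh)
    have := hu'.mul hv
    rw [div_mul_div_comm, ← map_mul, ← map_mul, hypDed_norm, hpol] at this
    exact this
  have h3 : h ∣ A := by
    have h2u : IsUnit (2 : k[X]) := by
      have : (2 : k[X]) = C 2 := rfl
      rw [this]
      exact isUnit_C.mpr (by simp)
    exact h2u.dvd_mul_left.mp h1
  have h4 : h ∣ B := by
    apply hypDed_dvd_of_sq hsq hh
    have h5 : h * h ∣ A ^ 2 := by rw [sq]; exact mul_dvd_mul h3 h3
    have := dvd_sub h5 h2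
    simpa using this
  obtain ⟨A', rfl⟩ := h3
  obtain ⟨B', rfl⟩ := h4
  refine ⟨pol a A' + pol a B' * yy a, ?_⟩
  rw [eq_div_iff hhK, ← hpol, ← map_mul]
  congr 1
  simp only [map_mul]
  ring

end

end Pool.Agent.Lib.MP_33b3f9_ag
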