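import Mathlib

/-!
Rings of functions with one place at infinity: pole order and leading coefficient.
-/

open Polynomial

namespace Pool.Agent.Lib.MP_33b3f9_ag

noncomputable section

/-- pole order and leading coefficient at the unique place at infinity -/
structure InfData (k R : Type*) [Field k] [CommRing R] [Algebra k R] where
  deg : R → ℕ
  lc : R → k
  lc_ne : ∀ a, a ≠ 0 → lc a ≠ 0
  deg_mul : ∀ a b, a ≠ 0 → b ≠ 0 → deg (a * b) = deg a + deg b
  lc_mul : ∀ a b, a ≠ 0 → b ≠ 0 → lc (a * b) = lc a * lc b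
  deg_alg : ∀ c : k, c ≠ 0 → deg (algebraMap k R c) = 0
  lc_alg : ∀ c : k, c ≠ 0 → lc (algebraMap k R c) = c
  add_lt : ∀ a b, a ≠ 0 → b ≠ 0 → deg b < deg a → a + b ≠ 0 ∧ deg (a + b) = deg a ∧
    lc (a + b) = lc a
  sub_lt : ∀ a b, a ≠ 0 → b ≠ 0 → a ≠ b → deg a = deg b → lc a = lc b → deg (a - b) < deg a
  cof : ∀ m r : ℕ, 0 < m → ∃ a, a ≠ 0 ∧ deg a ≡ r [MOD m]

namespace InfData

variable {k R : Type*} [Field k] [CommRing R] [IsDomain R] [Algebra k R] (I : InfData k R)

/-- functions without pole are constant -/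
lemma eq_const {a : R} (ha : a ≠ 0) (h : I.deg a = 0) : a = algebraMap k R (I.lc a) := by
  by_contra hne
  have hc := I.lc_ne a ha
  have h1 := I.sub_lt a _ ha ((_root_.map_ne_zero_iff _ (algebraMap k R).injective).2 hc) hne
    (by rw [h, I.deg_alg _ hc]) (I.lc_alg _ hc).symm
  omega

lemma unit_eq_const {a : R} (ha : IsUnit a) : a = algebraMap k R (I.lc a) := by
  obtain ⟨b, hb⟩ := ha.exists_right_inv
  have hb0 : b ≠ 0 := right_ne_zero_of_mul_eq_one hb
  have h1 := I.deg_mul a b ha.ne_zero hb0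
  have h2 := I.deg_alg 1 one_ne_zero
  rw [map_one] at h2
  rw [hb, h2] at h1
  exact I.eq_const ha.ne_zero (by omega)

lemma deg_pow {a : R} (ha : a ≠ 0) (n : ℕ) : I.deg (a ^ n) = n * I.deg a := by
  induction n with
  | zero => simpa using I.deg_alg 1 one_ne_zero
  | succ n ih => rw [pow_succ, I.deg_mul _ _ (pow_ne_zero n ha) ha, ih, Nat.succ_mul]

lemma lc_pow {a : R} (ha : a ≠ 0) (n : ℕ) : I.lc (a ^ n) = I.lc a ^ n := by
  induction n with
  | zero => simpa using I.lc_alg 1 one_ne_zero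
  | succ n ih => rw [pow_succ, I.lc_mul _ _ (pow_ne_zero n ha) ha, ih, pow_succ]

/-- a sum of nonzero terms with pairwise distinct pole orders behaves like its top term -/
lemma sum_distinct {ι : Type*} (s : Finset ι) (t : ι → R) (ht : ∀ i ∈ s, t i ≠ 0)
    (hinj : Set.InjOn (fun i => I.deg (t i)) s) (i₀ : ι) (hi₀ : i₀ ∈ s)
    (hmax : ∀ i ∈ s, I.deg (t i) ≤ I.deg (t i₀)) :
    ∑ i ∈ s, t i ≠ 0 ∧ I.deg (∑ i ∈ s, t i) = I.deg (t i₀) ∧
      I.lc (∑ i ∈ s, t i) = I.lc (t i₀) := by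
  classical
  induction hn : s.card using Nat.strong_induction_on generalizing s i₀ with
  | _ n ih =>
    rw [← Finset.add_sum_erase s t hi₀]
    rcases (s.erase i₀).eq_empty_or_nonempty with he | he
    · rw [he, Finset.sum_empty, add_zero]
      exact ⟨ht i₀ hi₀, rfl, rfl⟩
    · obtain ⟨i₁, hi₁, hm⟩ := Finset.exists_max_image _ (fun i => I.deg (t i)) he
      have hsub := Finset.erase_subset i₀ s
      obtain ⟨h1, h2, -⟩ := ih _ (hn ▸ Finset.card_erase_lt_of_mem hi₀) (s.erase i₀)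
        (fun i hi => ht i (hsub hi)) (hinj.mono (Finset.coe_subset.2 hsub)) i₁ hi₁ hm rfl
      refine I.add_lt _ _ (ht i₀ hi₀) h1 ?_
      rw [h2]
      exact lt_of_le_of_ne (hmax i₁ (hsub hi₁)) fun h =>
        Finset.ne_of_mem_erase hi₁ (hinj (hsub hi₁) hi₀ h)

lemma aeval_spec {a : R} (ha : a ≠ 0) (hd : 0 < I.deg a) {p : k[X]} (hp : p ≠ 0) :
    aeval a p ≠ 0 ∧ I.deg (aeval a p) = I.deg a * p.natDegree ∧
      I.lc (aeval a p) = p.leadingCoeff * I.lc a ^ p.natDegree := by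
  have hc : ∀ i ∈ p.support, algebraMap k R (p.coeff i) ≠ 0 := fun i hi =>
    (_root_.map_ne_zero_iff _ (algebraMap k R).injective).2 (mem_support_iff.1 hi)
  have hdeg : ∀ i ∈ p.support, I.deg (algebraMap k R (p.coeff i) * a ^ i) = I.deg a * i := by
    intro i hi
    rw [I.deg_mul _ _ (hc i hi) (pow_ne_zero i ha), I.deg_alg _ (mem_support_iff.1 hi),
      I.deg_pow ha, zero_add, mul_comm]
  have hmem := natDegree_mem_support_of_nonzero hp
  have h := I.sum_distinct p.support (fun i => algebraMap k R (p.coeff i) * a ^ i)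
    (fun i hi => mul_ne_zero (hc i hi) (pow_ne_zero i ha))
    (fun i hi j hj hij => by
      simp only [hdeg i hi, hdeg j hj] at hij
      exact Nat.eq_of_mul_eq_mul_left hd hij) p.natDegree hmem fun i hi => by
      rw [hdeg i hi, hdeg _ hmem]
      exact Nat.mul_le_mul_left _ (le_natDegree_of_mem_supp i hi)
  rw [hdeg _ hmem, I.lc_mul _ _ (hc _ hmem) (pow_ne_zero _ ha), I.lc_alg _ (mem_support_iff.1 hmem),
    I.lc_pow ha] at h
  rwa [aeval_def, eval₂_eq_sum, Polynomial.sum]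

end InfData

end

end Pool.Agent.Lib.MP_33b3f9_ag
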