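import Pool.Agent.Lib.MP_33b3f9_ag.Hyp
import Pool.Agent.Lib.MP_33b3f9_ag.Inf

/-!
The place at infinity.
-/

open Polynomial

namespace Pool.Agent.Lib.MP_33b3f9_ag

noncomputable section

variable {k₁ : Type*} [Field k₁] {k : Type*} [Field k] [Algebra k₁ k] {ι : Type} [Fintype ι]
  (a : ι → k₁)

/-- `A + B y` is sent to `A(t^2) + B(t^2) t^d` -/
def hypInf_phi (r : Coord k a) : k[X] :=
  expand k 2 (exists_rep a r).choose +
    expand k 2 (exists_rep a r).choose_spec.choose * X ^ Fintype.card ι

lemma hypInf_phi_rep (A B : k[X]) :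
    hypInf_phi a (pol a A + pol a B * yy a) =
      expand k 2 A + expand k 2 B * X ^ Fintype.card ι := by
  have h := (exists_rep a (pol a A + pol a B * yy a)).choose_spec.choose_spec
  unfold hypInf_phi
  generalize (exists_rep a (pol a A + pol a B * yy a)).choose_spec.choose = B' at h ⊢
  generalize (exists_rep a (pol a A + pol a B * yy a)).choose = A' at h ⊢
  have h2 : pol a (A - A') + pol a (B - B') * yy a = 0 := by
    rw [map_sub, map_sub]
    linear_combination h
  obtain ⟨h3, h4⟩ := rep_unique a h2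
  rw [sub_eq_zero] at h3 h4
  rw [h3, h4]

lemma hypInf_phi_add (r s : Coord k a) :
    hypInf_phi a (r + s) = hypInf_phi a r + hypInf_phi a s := by
  obtain ⟨A, B, rfl⟩ := exists_rep a r
  obtain ⟨A', B', rfl⟩ := exists_rep a s
  have : pol a A + pol a B * yy a + (pol a A' + pol a B' * yy a) =
      pol a (A + A') + pol a (B + B') * yy a := by
    rw [map_add, map_add]; ring
  rw [this, hypInf_phi_rep, hypInf_phi_rep, hypInf_phi_rep, map_add, map_add]
  ring

lemma hypInf_phi_sub (r s : Coord k a) :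
    hypInf_phi a (r - s) = hypInf_phi a r - hypInf_phi a s := by
  have := hypInf_phi_add a (r - s) s
  rw [sub_add_cancel] at this
  rw [this]; ring

lemma hypInf_phi_pol (p : k[X]) : hypInf_phi a (pol a p) = expand k 2 p := by
  have := hypInf_phi_rep a p 0
  simpa using this

lemma hypInf_le {d : ℕ} (hd : Odd d) (A : k[X]) {B : k[X]} (hB : B ≠ 0) :
    ((2 * B.natDegree + d : ℕ) : WithBot ℕ) ≤ (expand k 2 A + expand k 2 B * X ^ d).degree := by
  apply le_degree_of_ne_zero
  have h1 : ¬ 2 ∣ 2 * B.natDegree + d := by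
    obtain ⟨e, rfl⟩ := hd
    omega
  rw [coeff_add, coeff_expand (by norm_num), if_neg h1, coeff_mul_X_pow, zero_add,
    coeff_expand_mul' (by norm_num)]
  exact leadingCoeff_ne_zero.2 hB

lemma hypInf_phi_ne (hodd : Odd (Fintype.card ι)) {r : Coord k a} (hr : r ≠ 0) :
    hypInf_phi a r ≠ 0 := by
  obtain ⟨A, B, rfl⟩ := exists_rep a r
  rw [hypInf_phi_rep]
  intro h
  by_cases hB : B = 0
  · subst hB
    simp only [map_zero, zero_mul, add_zero] at h hr
    rw [expand_eq_zero (by norm_num)] at h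
    exact hr (by rw [h, map_zero])
  · have := hypInf_le hodd A hB
    rw [h, degree_zero] at this
    exact WithBot.natCast_ne_bot _ (le_bot_iff.1 this)

lemma hypInf_phi_zero : hypInf_phi a (0 : Coord k a) = 0 := by
  have := hypInf_phi_pol a (0 : k[X])
  simpa using this

lemma hypInf_mul (hodd : Odd (Fintype.card ι)) {r s : Coord k a} (hr : r ≠ 0) (hs : s ≠ 0) :
    ∃ e : k[X], hypInf_phi a (r * s) = hypInf_phi a r * hypInf_phi a s + e ∧
      e.degree < (hypInf_phi a r * hypInf_phi a s).degree := by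
  have h1 := hypInf_phi_ne a hodd hr
  have h2 := hypInf_phi_ne a hodd hs
  obtain ⟨A, B, rfl⟩ := exists_rep a r
  obtain ⟨A', B', rfl⟩ := exists_rep a s
  have e1 : (pol a A + pol a B * yy a) * (pol a A' + pol a B' * yy a) =
      pol a (A * A' + B * B' * hyp k a) + pol a (A * B' + A' * B) * yy a := by
    simp only [map_add, map_mul, ← yy_sq]
    ring
  refine ⟨expand k 2 (B * B') * (expand k 2 (hyp k a) - X ^ (2 * Fintype.card ι)), ?_, ?_⟩
  · rw [e1, hypInf_phi_rep, hypInf_phi_rep, hypInf_phi_rep]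
    simp only [map_add, map_mul]
    ring
  · by_cases hBB : B * B' = 0
    · rw [hBB, map_zero, zero_mul, degree_zero]
      exact bot_lt_iff_ne_bot.2 (fun h => mul_ne_zero h1 h2 (degree_eq_bot.1 h))
    · have hB : B ≠ 0 := left_ne_zero_of_mul hBB
      have hB' : B' ≠ 0 := right_ne_zero_of_mul hBB
      have hm : (expand k 2 (hyp k a)).Monic := (hyp_monic a).expand (by norm_num)
      have hdeg : (expand k 2 (hyp k a)).degree = (X ^ (2 * Fintype.card ι) : k[X]).degree := by
        rw [degree_eq_natDegree hm.ne_zero, natDegree_expand, hyp_natDegree, degree_X_pow,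
          mul_comm]
      have h3 : (expand k 2 (hyp k a) - X ^ (2 * Fintype.card ι)).degree <
          ((2 * Fintype.card ι : ℕ) : WithBot ℕ) := by
        rw [← degree_X_pow (R := k), ← hdeg]
        refine degree_sub_lt_left hdeg hm.ne_zero ?_
        rw [hm.leadingCoeff, leadingCoeff_X_pow]
      have h4 : (expand k 2 (B * B')).degree =
          ((2 * B.natDegree + 2 * B'.natDegree : ℕ) : WithBot ℕ) := by
        rw [degree_eq_natDegree (by rwa [Ne, expand_eq_zero (by norm_num)]), natDegree_expand,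
          natDegree_mul hB hB']
        congr 1
        ring
      rw [degree_mul, degree_mul, h4, hypInf_phi_rep, hypInf_phi_rep]
      refine lt_of_lt_of_le (WithBot.add_lt_add_left (WithBot.natCast_ne_bot _) h3) ?_
      refine le_trans (le_of_eq ?_) (add_le_add (hypInf_le hodd A hB) (hypInf_le hodd A' hB'))
      rw [← Nat.cast_add, ← Nat.cast_add]
      congr 1
      ring

lemma hypInf_exists (hodd : Odd (Fintype.card ι)) {N : ℕ} (hN : Fintype.card ι ≤ N) :
    ∃ r : Coord k a, hypInf_phi a r = X ^ N := by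
  obtain ⟨e, he⟩ := hodd
  rcases Nat.even_or_odd' N with ⟨m, rfl | rfl⟩
  · exact ⟨pol a (X ^ m), by rw [hypInf_phi_pol, map_pow, expand_X, pow_mul]⟩
  · refine ⟨pol a 0 + pol a (X ^ (m - e)) * yy a, ?_⟩
    rw [hypInf_phi_rep, map_zero, zero_add, map_pow, expand_X, ← pow_mul, ← pow_add]
    congr 1
    omega

/-- the place at infinity: `x` has a pole of order 2 and `y` a pole of order `card ι` -/
theorem exists_inf (hodd : Odd (Fintype.card ι)) :
    ∃ I : InfData k (Coord k a),
      (∀ p : k[X], p ≠ 0 → I.lc (pol a p) = p.leadingCoeff) ∧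
      ∀ (σ : k ≃ₐ[k₁] k) (r : Coord k a), r ≠ 0 → I.lc (act a σ r) = σ (I.lc r) := by
  refine ⟨⟨fun r => (hypInf_phi a r).natDegree, fun r => (hypInf_phi a r).leadingCoeff,
    fun r hr => leadingCoeff_ne_zero.2 (hypInf_phi_ne a hodd hr), ?_, ?_, ?_, ?_, ?_, ?_, ?_⟩,
    ?_, ?_⟩
  · intro r s hr hs
    obtain ⟨e, h1, h2⟩ := hypInf_mul a hodd hr hs
    rw [h1, natDegree_add_eq_left_of_degree_lt h2,
      natDegree_mul (hypInf_phi_ne a hodd hr) (hypInf_phi_ne a hodd hs)]
  · intro r s hr hs
    obtain ⟨e, h1, h2⟩ := hypInf_mul a hodd hr hs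
    rw [h1, leadingCoeff_add_of_degree_lt' h2, leadingCoeff_mul]
  · intro c _
    rw [← pol_C, hypInf_phi_pol, expand_C, natDegree_C]
  · intro c _
    rw [← pol_C, hypInf_phi_pol, expand_C, leadingCoeff_C]
  · intro r s hr _ h
    have h1 := degree_lt_degree h
    refine ⟨fun h0 => ?_, ?_, ?_⟩
    · have h2 := hypInf_phi_add a r s
      rw [h0, hypInf_phi_zero] at h2
      have h3 := degree_add_eq_left_of_degree_lt h1
      rw [← h2, degree_zero] at h3
      exact hypInf_phi_ne a hodd hr (degree_eq_bot.1 h3.symm)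
    · rw [hypInf_phi_add, natDegree_add_eq_left_of_degree_lt h1]
    · rw [hypInf_phi_add, leadingCoeff_add_of_degree_lt' h1]
  · intro r s hr hs hrs h1 h2
    have h3 := hypInf_phi_ne a hodd hr
    have h4 := hypInf_phi_ne a hodd hs
    have h5 := hypInf_phi_ne a hodd (sub_ne_zero.2 hrs)
    refine natDegree_lt_natDegree h5 ?_
    rw [hypInf_phi_sub]
    refine degree_sub_lt_left ?_ h3 h2
    rw [degree_eq_natDegree h3, degree_eq_natDegree h4, h1]
  · intro m r hm
    obtain ⟨s, hs⟩ := hypInf_exists (k := k) a hodd (N := r + m * Fintype.card ι)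
      ((Nat.le_mul_of_pos_left _ hm).trans (Nat.le_add_left _ _))
    refine ⟨s, fun h => ?_, ?_⟩
    · rw [h, hypInf_phi_zero] at hs
      exact pow_ne_zero _ X_ne_zero hs.symm
    · rw [hs, natDegree_X_pow]
      simp [Nat.ModEq]
  · intro p _
    show (hypInf_phi a (pol a p)).leadingCoeff = _
    rw [hypInf_phi_pol, leadingCoeff_expand (by norm_num)]
  · intro σ r _
    show (hypInf_phi a (act a σ r)).leadingCoeff = σ (hypInf_phi a r).leadingCoeff
    obtain ⟨A, B, rfl⟩ := exists_rep a r
    have : hypInf_phi a (act a σ (pol a A + pol a B * yy a)) =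
        (hypInf_phi a (pol a A + pol a B * yy a)).map (σ : k →+* k) := by
      rw [map_add, map_mul, act_pol, act_pol, act_yy, hypInf_phi_rep, hypInf_phi_rep]
      simp [map_expand]
    rw [this, leadingCoeff_map]
    rfl

end

end Pool.Agent.Lib.MP_33b3f9_ag
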