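import Pool.Agent.Lib.MP_33b3f9_ag.ZarA

/-!
The Zariski closure of a 2-adically dense subgroup.
-/

open Matrix

namespace Pool.Agent.Lib.MP_33b3f9_ag

noncomputable section

variable {ν : Type} [Fintype ν] [DecidableEq ν]

variable {Ω : Type*} [Field Ω] [Algebra ℚ_[2] Ω]

variable {Γ : Type*} [Group Γ]

omit [DecidableEq ν] in
lemma zar_eval {F A : Type*} [Field F] [Field A] [Algebra F A] (ψ : Matrix ν ν F)
    (g : Matrix ν ν A) (i j : ν) :
    evalM g (((Matrix.of fun s t => MvPolynomial.X (s, t))ᵀ * ψ.map MvPolynomial.C *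
      (Matrix.of fun s t => MvPolynomial.X (s, t)) : Matrix ν ν (MvPolynomial (ν × ν) F)) i j) =
      (gᵀ * ψ.map (algebraMap F A) * g) i j := by
  simp [evalM, Matrix.mul_apply, map_sum]

lemma zar_inj : Function.Injective (toΩ Ω) :=
  (algebraMap ℚ_[2] Ω).injective.comp Subtype.val_injective

omit [DecidableEq ν] in
lemma zar_map {E g : Matrix ν ν ℤ_[2]} {c : ℤ_[2]} {A : Type*} [CommRing A] (f : ℤ_[2] →+* A)
    (h : gᵀ * E * g = c • E) : (g.map f)ᵀ * E.map f * g.map f = f c • E.map f := by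
  rw [← transpose_map, ← Matrix.map_mul, ← Matrix.map_mul, h]
  ext i j
  simp

lemma zar_subset [Nonempty ν] (T : Set (GL ν ℚ_[2])) {E : Matrix ν ν ℚ_[2]} (hdet : E.det ≠ 0)
    (hT : ∀ h ∈ T, ∃ c : ℚ_[2], (h : Matrix ν ν ℚ_[2])ᵀ * E * h = c • E) :
    zcl Ω T ⊆ gsp Ω E := by
  intro g hg
  obtain ⟨l, m, hlm⟩ : ∃ l m, E l m ≠ 0 := by
    by_contra h
    push Not at h
    exact hdet (by rw [show E = 0 from Matrix.ext h, det_zero])
  have hlm' : algebraMap ℚ_[2] Ω (E l m) ≠ 0 := by simpa using hlm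
  refine ⟨((g : Matrix ν ν Ω)ᵀ * E.map (algebraMap ℚ_[2] Ω) * g) l m /
    algebraMap ℚ_[2] Ω (E l m), Matrix.ext fun i j => ?_⟩
  have := hg (((Matrix.of fun s t => MvPolynomial.X (s, t))ᵀ * E.map MvPolynomial.C *
      (Matrix.of fun s t => MvPolynomial.X (s, t)) :
        Matrix ν ν (MvPolynomial (ν × ν) ℚ_[2])) i j * MvPolynomial.C (E l m) -
    ((Matrix.of fun s t => MvPolynomial.X (s, t))ᵀ * E.map MvPolynomial.C *
      (Matrix.of fun s t => MvPolynomial.X (s, t)) :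
        Matrix ν ν (MvPolynomial (ν × ν) ℚ_[2])) l m * MvPolynomial.C (E i j)) (by
      intro h hh
      obtain ⟨c, hc⟩ := hT h hh
      have e1 := zar_eval E (h : Matrix ν ν ℚ_[2]) i j
      have e2 := zar_eval E (h : Matrix ν ν ℚ_[2]) l m
      have e3 : E.map (algebraMap ℚ_[2] ℚ_[2]) = E := rfl
      rw [e3, hc] at e1 e2
      unfold evalM at e1 e2 ⊢
      rw [map_sub, map_mul, map_mul, e1, e2, MvPolynomial.aeval_C, MvPolynomial.aeval_C]
      simp only [Matrix.smul_apply, smul_eq_mul, Algebra.algebraMap_self, RingHom.id_apply]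
      ring)
  have e1 := zar_eval E (g : Matrix ν ν Ω) i j
  have e2 := zar_eval E (g : Matrix ν ν Ω) l m
  unfold evalM at e1 e2 this
  rw [map_sub, map_mul, map_mul, e1, e2, MvPolynomial.aeval_C, MvPolynomial.aeval_C] at this
  rw [Matrix.smul_apply, smul_eq_mul, map_apply]
  field_simp
  linear_combination this

/-- the Zariski closure is the group of symplectic similitudes -/
theorem zcl_eq_gsp [IsAlgClosed Ω] [Nonempty ν] (r : Γ →* Matrix ν ν ℤ_[2])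
    (ρ : Γ → GL ν ℚ_[2])
    (hρ : ∀ σ, (ρ σ : Matrix ν ν ℚ_[2]) = (r σ).map ((↑) : ℤ_[2] → ℚ_[2]))
    {E : Matrix ν ν ℤ_[2]} (hE : Eᵀ = -E) (hdet : E.det ≠ 0) (χ : Γ →* ℤ_[2]ˣ)
    (hχ : ∀ σ, (r σ)ᵀ * E * r σ = (χ σ : ℤ_[2]) • E) (U : Subgroup Γ)
    (hinf : (χ '' U).Infinite) (n : ℕ)
    (hdense : ∀ g X : Matrix ν ν ℤ_[2], gᵀ * E * g = E → g = 1 + (2 : ℤ_[2]) ^ n • X →
      ∀ j : ℕ, ∃ σ ∈ U, ∃ Z : Matrix ν ν ℤ_[2], g = r σ + (2 : ℤ_[2]) ^ j • Z) :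
    zcl Ω (ρ '' U) = gsp Ω (E.map ((↑) : ℤ_[2] → ℚ_[2])) := by
  have : CharZero Ω := charZero_of_injective_algebraMap (algebraMap ℚ_[2] Ω).injective
  refine Set.Subset.antisymm (zar_subset _ ?_ ?_) fun g hg => ?_
  · have := PadicInt.Coe.ringHom.map_det E
    rw [RingHom.mapMatrix_apply] at this
    intro h
    exact hdet (Subtype.val_injective (this.trans h))
  · rintro _ ⟨σ, -, rfl⟩
    exact ⟨_, by rw [hρ]; exact zar_map PadicInt.Coe.ringHom (hχ σ)⟩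
  obtain ⟨T, hT⟩ : ∃ T, T = (fun t : Matrix ν ν ℤ_[2] => t.map (toΩ Ω)) '' (r '' U) := ⟨_, rfl⟩
  have mem : ∀ σ ∈ U, (r σ).map (toΩ Ω) ∈ mcl T := fun σ hσ =>
    subset_mcl T (hT ▸ ⟨r σ, ⟨σ, hσ, rfl⟩, rfl⟩)
  have hmul : ∀ h ∈ T, ∀ h' ∈ T, h * h' ∈ T := by
    rw [hT]
    rintro _ ⟨_, ⟨σ, hσ, rfl⟩, rfl⟩ _ ⟨_, ⟨τ, hτ, rfl⟩, rfl⟩
    exact ⟨r (σ * τ), ⟨σ * τ, U.mul_mem hσ hτ, rfl⟩, by rw [map_mul]; exact Matrix.map_mul⟩
  let M : Submonoid (Matrix ν ν Ω) :=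
    { carrier := mcl T
      mul_mem' := fun ha hb => mcl_mul hmul ha hb
      one_mem' := by
        have := mem 1 U.one_mem
        rwa [map_one, Matrix.map_one _ (map_zero _) (map_one _)] at this }
  have hE' : (E.map (toΩ Ω))ᵀ = -E.map (toΩ Ω) := by
    rw [← transpose_map, hE]
    ext i j
    simp
  have hdet' : (E.map (toΩ Ω)).det ≠ 0 := by
    have := (toΩ Ω).map_det E
    rw [RingHom.mapMatrix_apply] at this
    rw [← this]
    exact (map_ne_zero_iff _ zar_inj).mpr hdet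
  have hsp : ∀ s : Matrix ν ν Ω, sᵀ * E.map (toΩ Ω) * s = E.map (toΩ Ω) → s ∈ mcl T := by
    intro s hs
    refine sp_gen hE' hdet' M (trans_mem_mcl T E n fun u c => ?_) hs
    rw [hT]
    refine mcl_limit _ _ fun j => ?_
    have hu : u ⬝ᵥ E *ᵥ u = 0 := by
      have h1 : u ⬝ᵥ E *ᵥ u = -(u ⬝ᵥ E *ᵥ u) := by
        conv_lhs => rw [dotProduct_mulVec, ← mulVec_transpose, hE, neg_mulVec, neg_dotProduct,
          dotProduct_comm]
      have h2 : (2 : ℤ_[2]) * (u ⬝ᵥ E *ᵥ u) = 0 := by linear_combination h1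
      exact (mul_eq_zero.mp h2).resolve_left two_ne_zero
    obtain ⟨σ, hσ, Z, hZ⟩ := hdense _ (c • sqm E u) (trans_sp hE u hu _) (by rw [smul_smul]) j
    exact ⟨r σ, ⟨σ, hσ, rfl⟩, Z, hZ⟩
  obtain ⟨m, hm⟩ := hg
  have e0 : (E.map ((↑) : ℤ_[2] → ℚ_[2])).map (algebraMap ℚ_[2] Ω) = E.map (toΩ Ω) := rfl
  rw [e0] at hm
  have hm0 : m ≠ 0 := by
    rintro rfl
    have := congrArg det hm
    rw [zero_smul, det_zero, det_mul, det_mul, det_transpose] at this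
    exact mul_ne_zero (mul_ne_zero g.det_ne_zero hdet') g.det_ne_zero this
  obtain ⟨t₀, ht₀⟩ := IsAlgClosed.exists_eq_mul_self m
  have ht0 : t₀ ≠ 0 := by
    rintro rfl
    exact hm0 (by rw [ht₀, mul_zero])
  obtain ⟨s, hs⟩ : ∃ s, s = t₀⁻¹ • (g : Matrix ν ν Ω) := ⟨_, rfl⟩
  have hs1 : sᵀ * E.map (toΩ Ω) * s = E.map (toΩ Ω) := by
    rw [hs, transpose_smul, smul_mul_assoc, smul_mul_assoc, mul_smul_comm, hm, smul_smul,
      smul_smul, ht₀]
    convert one_smul Ω _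
    field_simp
  have hγ : ∀ t : Ω, (Matrix.of fun i j => Polynomial.X * Polynomial.C (s i j)).map
      (Polynomial.eval t) = t • s := fun t => by
    ext i j
    rw [map_apply, of_apply, Polynomial.eval_mul, Polynomial.eval_X, Polynomial.eval_C,
      Matrix.smul_apply, smul_eq_mul]
  have hg' : (g : Matrix ν ν Ω) ∈ mcl T := by
    have := mcl_curve T (Matrix.of fun i j => Polynomial.X * Polynomial.C (s i j))
      {t | ∃ σ ∈ U, toΩ Ω (χ σ : ℤ_[2]) = t * t} ?_ ?_ t₀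
    · rwa [hγ, hs, smul_smul, mul_inv_cancel₀ ht0, one_smul] at this
    · refine Set.Infinite.of_image (fun t => t * t) (Set.Infinite.mono ?_
        (hinf.image (f := fun u : ℤ_[2]ˣ => toΩ Ω (u : ℤ_[2]))
          (zar_inj.comp Units.val_injective).injOn))
      rintro _ ⟨_, ⟨σ, hσ, rfl⟩, rfl⟩
      obtain ⟨t, ht⟩ := IsAlgClosed.exists_eq_mul_self (toΩ Ω (χ σ : ℤ_[2]))
      exact ⟨t, ⟨σ, hσ, ht⟩, ht.symm⟩
    · rintro t ⟨σ, hσ, ht⟩
      rw [hγ]
      have h1 : (r σ).map (toΩ Ω) * ((r σ⁻¹).map (toΩ Ω) * (t • s)) = t • s := by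
        rw [← mul_assoc, ← Matrix.map_mul, ← map_mul, mul_inv_cancel, map_one,
          Matrix.map_one _ (map_zero _) (map_one _), one_mul]
      rw [← h1]
      refine mcl_mul hmul (mem σ hσ) (hsp _ ?_)
      have h2 := zar_map (toΩ Ω) (hχ σ⁻¹)
      have h3 : t * t * toΩ Ω (χ σ⁻¹ : ℤ_[2]) = 1 := by
        rw [← ht, ← map_mul, ← Units.val_mul, ← map_mul, mul_inv_cancel, map_one, Units.val_one,
          map_one]
      calc _ = (t • s)ᵀ * (((r σ⁻¹).map (toΩ Ω))ᵀ * E.map (toΩ Ω) * (r σ⁻¹).map (toΩ Ω)) *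
            (t • s) := by
            rw [transpose_mul]
            simp only [mul_assoc]
        _ = _ := by
            rw [h2, transpose_smul, smul_mul_assoc, smul_mul_assoc, mul_smul_comm, mul_smul_comm,
              smul_mul_assoc, hs1, smul_smul, smul_smul, h3, one_smul]
  intro P hP
  have := hg' (MvPolynomial.map (algebraMap ℚ_[2] Ω) P) (by
    rw [hT]
    rintro _ ⟨_, ⟨σ, hσ, rfl⟩, rfl⟩
    have h1 := hP (ρ σ) ⟨σ, hσ, rfl⟩
    unfold evalM at h1 ⊢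
    rw [MvPolynomial.aeval_map_algebraMap]
    have h2 := MvPolynomial.aeval_algebraMap_apply Ω
      (fun p : ν × ν => (ρ σ : Matrix ν ν ℚ_[2]) p.1 p.2) P
    rw [h1, map_zero, hρ] at h2
    exact h2)
  unfold evalM at this ⊢
  rwa [MvPolynomial.aeval_map_algebraMap] at this

end

end Pool.Agent.Lib.MP_33b3f9_ag
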