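import Pool.Agent.Lib.MP_33b3f9_ag.IgOne
import Pool.Agent.Lib.MP_33b3f9_ag.Zar

/-!
An element with multiplier 3 mod 4 defines a quadratic form mod 2.
-/

open Matrix

namespace Pool.Agent.Lib.MP_33b3f9_ag

noncomputable section

variable {ν : Type} [Fintype ν] [DecidableEq ν] {Γ : Type*} [Group Γ]
  {r : Γ →* Matrix ν ν ℤ_[2]} {E : Matrix ν ν ℤ_[2]}

lemma igNon_two (M : Matrix ν ν (ZMod 2)) : M + M = 0 := by
  ext i j
  exact CharTwo.add_self_eq_zero _

theorem ig_of_nonOrth (hE : Eᵀ = -E)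
    (hinv : ∀ σ, ((r σ).map red)ᵀ * E.map red * (r σ).map red = E.map red) {σ : Γ}
    (h1 : (r σ).map red = 1) {c : ℤ_[2]} (hm : (r σ)ᵀ * E * r σ = (3 + 4 * c) • E)
    {N : Submodule (ZMod 2) (ν → ZMod 2)}
    (h2 : ∀ M : Matrix ν ν (ZMod 2), M + Mᵀ = E.map red → ∃ τ, ∃ x ∈ N,
      ((r τ).map red *ᵥ x) ⬝ᵥ M *ᵥ ((r τ).map red *ᵥ x) ≠ x ⬝ᵥ M *ᵥ x) :
    ∃ x ∈ N, ∃ (n : ℕ) (Y : Matrix ν ν (ZMod 2)), 1 ≤ n ∧ Lev r ⊤ n Y ∧
      Yᵀ * E.map red + E.map red * Y = 0 ∧ x ⬝ᵥ (E.map red * Y) *ᵥ x ≠ 0 := by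
  obtain ⟨X, hX⟩ := (map_red_eq_iff (r σ) 1).1
    (by rw [h1, Matrix.map_one _ (map_zero _) (map_one _)])
  have hs : (E.map red)ᵀ = E.map red := by
    ext i j
    have := congrFun (congrFun hE i) j
    simp only [transpose_apply, Matrix.neg_apply] at this
    simp [this, ZMod.neg_eq_self_mod_two]
  have h3 : (X.map red)ᵀ * E.map red + E.map red * X.map red = E.map red := by
    have h5 : (2 : ℤ_[2]) • (Xᵀ * E + E * X + (2 : ℤ_[2]) ^ 1 • (Xᵀ * E * X)) =
        (2 : ℤ_[2]) • (E + (2 : ℤ_[2]) ^ 1 • (c • E)) := by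
      rw [hX, transpose_add, transpose_one, transpose_smul] at hm
      simp only [add_mul, mul_add, one_mul, mul_one, smul_mul_assoc, mul_smul_comm] at hm
      linear_combination (norm := module) hm
    have h6 := smul_right_injective _ (two_ne_zero (α := ℤ_[2])) h5
    have h7 := congrArg (fun M : Matrix ν ν ℤ_[2] => M.map red) h6
    rwa [lev_map_pow le_rfl, lev_map_pow le_rfl, lev_map_add, Matrix.map_mul, Matrix.map_mul,
      transpose_map] at h7
  obtain ⟨τ, x, hxN, hx⟩ := h2 (E.map red * X.map red) (by rw [transpose_mul, hs, add_comm, h3])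
  have e1 : (r τ).map red * (r τ⁻¹).map red = 1 := by
    rw [← Matrix.map_mul, ← map_mul, mul_inv_cancel, map_one,
      Matrix.map_one _ (map_zero _) (map_one _)]
  have e2 : E.map red * (r τ⁻¹).map red = ((r τ).map red)ᵀ * E.map red := by
    conv_lhs => rw [← hinv τ, mul_assoc, e1, mul_one]
  have e3 : E.map red * (r τ⁻¹ * X * r τ).map red =
      ((r τ).map red)ᵀ * (E.map red * X.map red) * (r τ).map red := by
    rw [Matrix.map_mul, Matrix.map_mul, ← mul_assoc, ← mul_assoc, e2, mul_assoc _ (E.map red)]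
  have e4 : ((r τ⁻¹ * X * r τ).map red)ᵀ * E.map red + E.map red * (r τ⁻¹ * X * r τ).map red =
      E.map red := by
    have e5 : ((r τ⁻¹ * X * r τ).map red)ᵀ * E.map red =
        (E.map red * (r τ⁻¹ * X * r τ).map red)ᵀ := by rw [transpose_mul, hs]
    rw [e5, e3, transpose_mul, transpose_mul, transpose_transpose, transpose_mul, hs, ← mul_assoc,
      ← add_mul, ← mul_add, h3, hinv]
  have l1 : Lev r ⊤ 1 (X.map red) := ⟨σ, trivial, X, by rw [pow_one]; exact hX, rfl⟩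
  have l2 : Lev r ⊤ 1 ((r τ⁻¹ * X * r τ).map red) := ⟨τ⁻¹ * σ * τ, trivial, _, by
    rw [map_mul, map_mul, hX, pow_one, mul_add, add_mul, mul_one, ← map_mul, inv_mul_cancel,
      map_one, mul_smul_comm, smul_mul_assoc], rfl⟩
  refine ⟨x, hxN, 1, _, le_rfl, l1.add le_rfl l2, ?_, fun h0 => hx ?_⟩
  · rw [transpose_add, add_mul, mul_add, add_add_add_comm, h3, e4, igNon_two]
  · rw [mul_add, add_mulVec, dotProduct_add, e3, ← trans_conj] at h0
    rw [eq_neg_of_add_eq_zero_right h0, ZMod.neg_eq_self_mod_two]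

end

end Pool.Agent.Lib.MP_33b3f9_ag
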