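import Mathlib

/-!
Levels and integral matrices.
-/

open Matrix

namespace Pool.Agent.Lib.MP_33b3f9_ag

noncomputable section

variable {ν : Type} [Fintype ν] [DecidableEq ν] {J : Type*} [AddCommGroup J]

/-- the point `π (x / 2^n)` -/
def lvl (π : (ν → ℚ_[2]) →+ J) (n : ℕ) : (ν → ℤ_[2]) →+ J where
  toFun x := π fun i => (x i : ℚ_[2]) / 2 ^ n
  map_zero' := by
    have : (fun i : ν => (((0 : ν → ℤ_[2]) i : ℤ_[2]) : ℚ_[2]) / 2 ^ n) = 0 := by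
      ext i; simp
    rw [this, map_zero]
  map_add' x y := by
    rw [← map_add]; congr 1; ext i; simp [add_div]

omit [Fintype ν] [DecidableEq ν] in
lemma lvl_succ (π : (ν → ℚ_[2]) →+ J) (n : ℕ) (x : ν → ℤ_[2]) :
    2 • lvl π (n + 1) x = lvl π n x := by
  change 2 • π _ = π _
  rw [← map_nsmul]
  congr 1
  ext i
  simp only [Pi.smul_apply, nsmul_eq_mul, Nat.cast_ofNat]
  field_simp
  ring

omit [Fintype ν] [DecidableEq ν] in
lemma lvl_eq_zero_iff {π : (ν → ℚ_[2]) →+ J} (hker : ∀ x, π x = 0 ↔ ∀ i, ‖x i‖ ≤ 1) (n : ℕ)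
    (x : ν → ℤ_[2]) : lvl π n x = 0 ↔ ∃ y : ν → ℤ_[2], x = (2 : ℤ_[2]) ^ n • y := by
  change π _ = 0 ↔ _
  rw [hker]
  constructor
  · intro h
    refine ⟨fun i => ⟨_, h i⟩, funext fun i => Subtype.ext ?_⟩
    change (x i : ℚ_[2]) = PadicInt.Coe.ringHom (2 ^ n * ⟨_, h i⟩)
    rw [map_mul, map_pow, map_ofNat]
    change (x i : ℚ_[2]) = 2 ^ n * ((x i : ℚ_[2]) / 2 ^ n)
    field_simp
  · rintro ⟨y, rfl⟩ i
    have h2 : (((2 : ℤ_[2]) : ℤ_[2]) : ℚ_[2]) = 2 := rfl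
    simp only [Pi.smul_apply, smul_eq_mul, PadicInt.coe_mul, PadicInt.coe_pow, h2]
    rw [mul_div_cancel_left₀ _ (pow_ne_zero n two_ne_zero)]
    exact (y i).2

omit [Fintype ν] [DecidableEq ν] in
lemma exists_lvl {π : (ν → ℚ_[2]) →+ J} (hker : ∀ x, π x = 0 ↔ ∀ i, ‖x i‖ ≤ 1)
    (hran : ∀ P, P ∈ π.range ↔ ∃ n : ℕ, 2 ^ n • P = 0) (n : ℕ) {P : J} (hP : 2 ^ n • P = 0) :
    ∃ x, lvl π n x = P := by
  obtain ⟨z, rfl⟩ := (hran P).2 ⟨n, hP⟩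
  rw [← map_nsmul, hker] at hP
  refine ⟨fun i => ⟨_, hP i⟩, ?_⟩
  change π _ = π _
  congr 1
  ext i
  simp

omit [DecidableEq ν] in
theorem matrix_unique {π : (ν → ℚ_[2]) →+ J} (hker : ∀ x, π x = 0 ↔ ∀ i, ‖x i‖ ≤ 1)
    {M N : Matrix ν ν ℚ_[2]} (h : ∀ x, π (M *ᵥ x) = π (N *ᵥ x)) : M = N := by
  classical
  ext i j
  by_contra hne
  have h0 : M i j - N i j ≠ 0 := sub_ne_zero.2 hne
  have h1 := sub_eq_zero.2 (h (Pi.single j ((M i j - N i j)⁻¹ * ((2 : ℕ) : ℚ_[2])⁻¹)))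
  rw [← map_sub, ← sub_mulVec, hker] at h1
  have h2 := h1 i
  rw [mulVec_single] at h2
  simp only [Pi.smul_apply, col_apply, Matrix.sub_apply, MulOpposite.smul_eq_mul_unop,
    MulOpposite.unop_op] at h2
  rw [mul_inv_cancel_left₀ h0, norm_inv, Padic.norm_p] at h2
  norm_num at h2

/-- integral matrices -/
theorem exists_int {Γ : Type*} [Group Γ] {π : (ν → ℚ_[2]) →+ J}
    (hker : ∀ x, π x = 0 ↔ ∀ i, ‖x i‖ ≤ 1) (f : Γ → J → J) (hf1 : ∀ P, f 1 P = P)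
    (hf0 : ∀ σ, f σ 0 = 0) (hfm : ∀ σ τ P, f (σ * τ) P = f σ (f τ P)) (ρ : Γ → GL ν ℚ_[2])
    (hρ : ∀ σ x, π ((ρ σ : Matrix ν ν ℚ_[2]) *ᵥ x) = f σ (π x)) :
    ∃ r : Γ →* Matrix ν ν ℤ_[2], (∀ σ, (ρ σ : Matrix ν ν ℚ_[2]) = (r σ).map (↑)) ∧
      ∀ σ n x, lvl π n (r σ *ᵥ x) = f σ (lvl π n x) := by
  have hint : ∀ σ i j, ‖(ρ σ : Matrix ν ν ℚ_[2]) i j‖ ≤ 1 := by
    intro σ i j
    have h1 : π (Pi.single j 1) = 0 := (hker _).2 fun l => by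
      by_cases hl : l = j <;> simp [hl]
    have h2 := hρ σ (Pi.single j 1)
    rw [h1, hf0, hker] at h2
    simpa using h2 i
  let r₀ : Γ → Matrix ν ν ℤ_[2] := fun σ => Matrix.of fun i j => ⟨_, hint σ i j⟩
  have hr₀ : ∀ σ, (ρ σ : Matrix ν ν ℚ_[2]) = (r₀ σ).map PadicInt.Coe.ringHom := fun σ => rfl
  have hinj : Function.Injective fun M : Matrix ν ν ℤ_[2] => M.map PadicInt.Coe.ringHom :=
    Matrix.map_injective Subtype.val_injective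
  refine ⟨⟨⟨r₀, hinj ?_⟩, fun σ τ => hinj ?_⟩, hr₀, fun σ n x => ?_⟩
  · simp only [← hr₀]
    rw [Matrix.map_one _ (map_zero _) (map_one _)]
    exact matrix_unique hker fun x => by rw [hρ, hf1, one_mulVec]
  · simp only [Matrix.map_mul, ← hr₀]
    exact matrix_unique hker fun x => by rw [hρ, hfm, ← mulVec_mulVec, hρ, hρ]
  · change π _ = f σ (π _)
    rw [← hρ]
    congr 1
    ext i
    simp only [mulVec, dotProduct, MonoidHom.coe_mk, OneHom.coe_mk]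
    rw [show ((∑ j, r₀ σ i j * x j : ℤ_[2]) : ℚ_[2]) =
      PadicInt.Coe.ringHom (∑ j, r₀ σ i j * x j) from rfl, map_sum, Finset.sum_div]
    refine Finset.sum_congr rfl fun j _ => ?_
    rw [map_mul, mul_div_assoc]
    rfl

end

end Pool.Agent.Lib.MP_33b3f9_ag
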