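import Pool.Agent.Lib.MP_33b3f9_ag.IgMain
import Pool.Agent.Lib.MP_33b3f9_ag.IgNon
import Pool.Agent.Lib.MP_33b3f9_ag.TateA
import Pool.Agent.Lib.MP_33b3f9_ag.Char
import Pool.Agent.Lib.MP_33b3f9_ag.Cyclo

/-!
Abelian varieties.
-/

open Matrix CategoryTheory AlgebraicGeometry

namespace Pool.Agent.Lib.MP_33b3f9_ag

noncomputable section

universe u

variable {k₁ k : Type u} [Field k₁] [Field k] [Algebra k₁ k] (A : Over (Spec (CommRingCat.of k₁)))

lemma galPt_one (P : Pts k A) : galPt A 1 P = P := by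
  have : (Over.homMk (Spec.map (CommRingCat.ofHom ((1 : k ≃ₐ[k₁] k) : k →+* k))) (spec_comm 1) :
      specOver k₁ k ⟶ specOver k₁ k) = 𝟙 _ := by
    ext1
    exact Spec.map_id _
  unfold galPt
  rw [this, Category.id_comp]
  rfl

lemma galPt_mul (σ τ : k ≃ₐ[k₁] k) (P : Pts k A) :
    galPt A (σ * τ) P = galPt A σ (galPt A τ P) := by
  have : (Over.homMk (Spec.map (CommRingCat.ofHom ((σ * τ : k ≃ₐ[k₁] k) : k →+* k)))
      (spec_comm (σ * τ)) : specOver k₁ k ⟶ specOver k₁ k) =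
      (Over.homMk (Spec.map (CommRingCat.ofHom (σ : k →+* k))) (spec_comm σ) :
        specOver k₁ k ⟶ specOver k₁ k) ≫
      (Over.homMk (Spec.map (CommRingCat.ofHom (τ : k →+* k))) (spec_comm τ) :
        specOver k₁ k ⟶ specOver k₁ k) := by
    ext1
    exact Spec.map_comp (CommRingCat.ofHom (τ : k →+* k)) (CommRingCat.ofHom (σ : k →+* k))
  unfold galPt
  rw [this, Category.assoc]
  rfl

lemma galPt_zero [GrpObj A] [IsCommMonObj A] (σ : k ≃ₐ[k₁] k) : galPt A σ (0 : Pts k A) = 0 :=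
  MonObj.comp_one (M := A) (Over.homMk (Spec.map (CommRingCat.ofHom (σ : k →+* k))) (spec_comm σ) :
    specOver k₁ k ⟶ specOver k₁ k)

theorem igusa_main [CharZero k₁] (hfg : (⊤ : IntermediateField ℚ k₁).FG) [IsAlgClosure k₁ k]
    {J : Type*} [AddCommGroup J] (f : (k ≃ₐ[k₁] k) → J → J) (hf1 : ∀ P, f 1 P = P)
    (hf0 : ∀ σ, f σ 0 = 0) (hfm : ∀ σ τ P, f (σ * τ) P = f σ (f τ P))
    {ν : Type} [Fintype ν] [DecidableEq ν] [Nonempty ν] (π : (ν → ℚ_[2]) →+ J)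
    (r : (k ≃ₐ[k₁] k) → GL ν ℤ_[2]) (hT : Tate f π fun σ => toQ (r σ))
    (E : Matrix ν ν ℤ_[2]) (hE : E.transpose = -E)
    (hW : ∀ σ, (r σ : Matrix ν ν ℤ_[2]).transpose * E * r σ = (cyclo σ : ℤ_[2]) • E)
    (hI : Igusa r cyclo E) :
    LefMT (E.map ((↑) : ℤ_[2] → ℚ_[2])) (fun σ => toQ (r σ)) (Rigid r ∨ Big r) := by
  have : IsAlgClosed k := IsAlgClosure.isAlgClosed k₁
  have : CharZero k := charZero_of_injective_algebraMap (algebraMap k₁ k).injective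
  obtain ⟨hker, -, hρ⟩ := hT
  obtain ⟨r', hr', -⟩ := exists_int hker f hf1 hf0 hfm _ hρ
  have hrr : ∀ σ, r' σ = r σ := fun σ =>
    Matrix.map_injective (Subtype.val_injective (p := fun x : ℚ_[2] => ‖x‖ ≤ 1)) (hr' σ).symm
  let χ : (k ≃ₐ[k₁] k) →* ℤ_[2]ˣ :=
    (cyclotomicCharacter k 2).comp (MulSemiringAction.toRingAut (k ≃ₐ[k₁] k) k)
  have hχ : ∀ σ, χ σ = cyclo σ := fun σ => rfl
  have hRM : Rigid r → RigidM r' := fun hR R h1 h2 => hR R h1 fun σ => by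
    have := h2 σ
    rwa [hrr] at this
  have hunit : ∀ y : ℤ_[2], IsUnit y ↔ red y ≠ 0 := fun y => by
    rw [Ne, red_eq_zero_iff, PadicInt.isUnit_iff]
    have h1 := PadicInt.norm_lt_one_iff_dvd y
    have h2 := PadicInt.norm_le_one y
    constructor
    · rintro h ⟨z, hz⟩
      exact absurd (h1.2 ⟨z, hz⟩) (by rw [h]; exact lt_irrefl _)
    · intro h
      exact le_antisymm h2 (not_lt.1 fun h3 => h (h1.1 h3))
  have key : ∀ y, IgusaAt r cyclo E y → ∃ (n : ℕ) (Y : Matrix ν ν (ZMod 2)), 1 ≤ n ∧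
      Lev r' ⊤ n Y ∧ Yᵀ * E.map red + E.map red * Y = 0 ∧
        (red ∘ y) ⬝ᵥ (E.map red * Y) *ᵥ (red ∘ y) ≠ 0 := by
    rintro y ⟨σ, n, X, hn, h1, ⟨c, hc⟩, h3⟩
    refine ⟨n, X.map red, hn, ⟨σ, Subgroup.mem_top σ, X, by rw [hrr, h1], rfl⟩, ?_, ?_⟩
    · have h4 := hW σ
      rw [h1, eq_add_of_sub_eq hc] at h4
      have h5 : (2 : ℤ_[2]) ^ n • (Xᵀ * E + E * X + (2 : ℤ_[2]) ^ n • (Xᵀ * E * X)) =
          (2 : ℤ_[2]) ^ n • ((2 * c) • E) := by
        rw [transpose_add, transpose_one, transpose_smul] at h4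
        simp only [add_mul, mul_add, one_mul, mul_one, smul_mul_assoc, mul_smul_comm, add_smul,
          one_smul, smul_add] at h4 ⊢
        rw [smul_smul _ (2 * c), ← mul_assoc, ← pow_succ]
        linear_combination (norm := abel) h4
      have h6 := smul_right_injective _ (pow_ne_zero n (two_ne_zero (α := ℤ_[2]))) h5
      have h7 := congrArg (fun M : Matrix ν ν ℤ_[2] => M.map red) h6
      rw [lev_map_pow hn, lev_map_add, Matrix.map_mul, Matrix.map_mul, transpose_map] at h7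
      rw [h7]
      ext a b
      exact (red_eq_zero_iff _).2 ⟨c * E a b, by simp [mul_assoc]⟩
    · have h4 := (hunit _).1 h3
      rw [mulVec_mulVec, RingHom.map_dotProduct] at h4
      have e2 : red ∘ ((E * X) *ᵥ y) = (E.map red * X.map red) *ᵥ (red ∘ y) := by
        ext a
        rw [Function.comp_apply, RingHom.map_mulVec, Matrix.map_mul]
      rwa [e2] at h4
  have hmult : ∀ σ, (r' σ)ᵀ * E * r' σ = (χ σ : ℤ_[2]) • E := fun σ => by rw [hrr, hχ, hW]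
  have hd : IgData r' E χ ⊤ := by
    refine ⟨inferInstance, hE, fun σ _ => hmult σ, fun U hU => cyclo_infinite hfg χ
      (fun σ n z hz => cyclotomicCharacter.spec 2
        (MulSemiringAction.toRingAut (k ≃ₐ[k₁] k) k σ) z hz) U, fun x hx => ?_⟩
    have hinv : ∀ σ, ((r' σ).map red)ᵀ * E.map red * (r' σ).map red = E.map red := fun σ => by
      have h1 : red (χ σ : ℤ_[2]) = 1 :=
        (by decide : ∀ e : ZMod 2, e ≠ 0 → e = 1) _ ((hunit _).1 (χ σ).isUnit)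
      rw [zar_map red (hmult σ), h1, one_smul]
    refine ig_of_sub ⊤ hE hinv (fun N hN h0 => ?_) x hx
    rcases hI N (fun σ => by have := hN σ; rwa [hrr] at this) h0 with
      ⟨y, hyN, hy⟩ | ⟨⟨σ, h1, c, hc⟩, h2⟩
    · exact ⟨_, hyN, key y hy⟩
    · refine ig_of_nonOrth hE hinv (σ := σ) (c := c) (by rw [hrr]; exact h1)
        (by rw [hmult, hχ, eq_add_of_sub_eq' hc]) fun M hM => ?_
      simp only [hrr]
      exact h2 M hM
  refine hd.lefMT hr' ?_
  rintro (hR | ⟨G, h1, h2, h3⟩) U hU C hC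
  · exact hd.scalar_int (hRM hR) U hC
  · refine hd.scalar_of_big ((Units.coeHom _).comp G.subtype) (fun g => ?_)
      (fun K _ => h2 K) (fun x hx => h3 x fun g hg => hx ⟨g, hg⟩) U hC
    obtain ⟨σ, hσ⟩ := h1 g g.2
    exact ⟨σ, by rw [hrr]; exact hσ⟩

end

end Pool.Agent.Lib.MP_33b3f9_ag
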