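import Pool.Agent.Lib.MP_33b3f9_ag.Stmt

/-!
Definitions used in the statement of the Igusa criterion: points of an abelian variety with the
Galois action, commutants, Lefschetz groups, Hodge endomorphisms, and the two conditions on the
2-adic representation.
-/

open CategoryTheory AlgebraicGeometry

namespace Pool.Agent.Lib.MP_33b3f9_ag

noncomputable section

universe u

section points

variable {k₁ : Type u} [Field k₁] (k : Type u) [Field k] [Algebra k₁ k]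

variable (k₁) in
/-- `Spec k` as a scheme over `Spec k₁`. -/
def specOver : Over (Spec (CommRingCat.of k₁)) :=
  Over.mk (Spec.map (CommRingCat.ofHom (algebraMap k₁ k)))

/-- The group `A(k)` of `k`-points of a commutative group scheme `A` over `k₁`. -/
def Pts (A : Over (Spec (CommRingCat.of k₁))) : Type u := Additive (specOver k₁ k ⟶ A)

instance (A : Over (Spec (CommRingCat.of k₁))) [GrpObj A] [IsCommMonObj A] :
    AddCommGroup (Pts k A) :=
  @Additive.addCommGroup (specOver k₁ k ⟶ A) Hom.commGroup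

variable {k}

lemma spec_comm (σ : k ≃ₐ[k₁] k) :
    Spec.map (CommRingCat.ofHom (σ : k →+* k)) ≫ (specOver k₁ k).hom = (specOver k₁ k).hom := by
  change _ ≫ Spec.map _ = Spec.map _
  rw [← Spec.map_comp, ← CommRingCat.ofHom_comp]
  congr 2
  ext x
  simp

/-- The action of `σ` on `A(k)`. -/
def galPt (A : Over (Spec (CommRingCat.of k₁))) (σ : k ≃ₐ[k₁] k) (P : Pts k A) : Pts k A :=
  Additive.ofMul ((Over.homMk (Spec.map (CommRingCat.ofHom (σ : k →+* k))) (spec_comm σ) :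
    specOver k₁ k ⟶ specOver k₁ k) ≫ Additive.toMul P)

/-- The 2-adic cyclotomic character. -/
def cyclo (σ : k ≃ₐ[k₁] k) : ℤ_[2]ˣ := cyclotomicCharacter k 2 σ.toRingEquiv

end points

section alg

variable {ν : Type} [Fintype ν] [DecidableEq ν] {Γ : Type*}

/-- An invertible matrix over `ℤ_2` as a matrix over `ℚ_2`. -/
def toQ (g : GL ν ℤ_[2]) : GL ν ℚ_[2] := Matrix.GeneralLinearGroup.map PadicInt.Coe.ringHom g

/-- The reduction mod 2 of an invertible matrix over `ℤ_2`. -/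
def modTwo (g : GL ν ℤ_[2]) : Matrix ν ν (ZMod 2) :=
  (g : Matrix ν ν ℤ_[2]).map PadicInt.toZMod

/-- The matrices that commute with every element of `T`. -/
def commt (T : Set (GL ν ℚ_[2])) : Set (Matrix ν ν ℚ_[2]) :=
  {C | ∀ t ∈ T, C * (t : Matrix ν ν ℚ_[2]) = t * C}

/-- The similitudes of `E` over an algebraic closure of `ℚ_2` that commute with the commutant
of `T`. -/
def lef (E : Matrix ν ν ℚ_[2]) (T : Set (GL ν ℚ_[2])) : Set (GL ν (AlgebraicClosure ℚ_[2])) :=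
  {g | g ∈ gsp (AlgebraicClosure ℚ_[2]) E ∧ ∀ C ∈ commt T,
    C.map (algebraMap ℚ_[2] (AlgebraicClosure ℚ_[2])) * (g : Matrix ν ν (AlgebraicClosure ℚ_[2])) =
      g * C.map (algebraMap ℚ_[2] (AlgebraicClosure ℚ_[2]))}

/-- The `ℚ_2`-span of the rational matrices that commute with the complex structure `I`. -/
def hodgeEnd (I : Matrix ν ν ℝ) : Submodule ℚ_[2] (Matrix ν ν ℚ_[2]) :=
  Submodule.span ℚ_[2] {C | ∃ D : Matrix ν ν ℚ,
    D.map (Rat.cast : ℚ → ℝ) * I = I * D.map (Rat.cast : ℚ → ℝ) ∧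
      C = D.map (Rat.cast : ℚ → ℚ_[2])}

/-- There are `σ` and `n ≥ 1` with `r σ = 1 + 2^n X`, `χ σ = 1 mod 2^(n+1)` and `E(x, X x)` odd. -/
def IgusaAt (r : Γ → GL ν ℤ_[2]) (χ : Γ → ℤ_[2]ˣ) (E : Matrix ν ν ℤ_[2]) (x : ν → ℤ_[2]) : Prop :=
  ∃ (σ : Γ) (n : ℕ) (X : Matrix ν ν ℤ_[2]), 1 ≤ n ∧
    (r σ : Matrix ν ν ℤ_[2]) = 1 + (2 : ℤ_[2]) ^ n • X ∧ 2 ^ (n + 1) ∣ (χ σ : ℤ_[2]) - 1 ∧
      IsUnit (dotProduct x (E.mulVec (X.mulVec x)))

/-- The only commutative ring of matrices mod 2 normalized by the image is `𝔽_2`. -/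
def Rigid (r : Γ → GL ν ℤ_[2]) : Prop :=
  ∀ R : Subring (Matrix ν ν (ZMod 2)), (∀ x ∈ R, ∀ y ∈ R, x * y = y * x) →
    (∀ σ, ∀ x ∈ R, ∃ y ∈ R, y * modTwo (r σ) = modTwo (r σ) * x) → ∀ x ∈ R, x = 0 ∨ x = 1

/-- The image mod 2 contains a group with commutant `𝔽_2` and without proper subgroups of index
at most the rank. -/
def Big (r : Γ → GL ν ℤ_[2]) : Prop :=
  ∃ G : Subgroup (GL ν (ZMod 2)), (∀ g ∈ G, ∃ σ, modTwo (r σ) = g) ∧
    (∀ K : Subgroup G, K.index ≤ Fintype.card ν → K = ⊤) ∧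
    ∀ x : Matrix ν ν (ZMod 2), (∀ g ∈ G, x * (g : Matrix ν ν (ZMod 2)) = g * x) → x = 0 ∨ x = 1

/-- Some `σ` acts trivially mod 2 and has `χ σ = 3 mod 4`, and no quadratic form `x ↦ x M x` with
polar form `E` is invariant on `N`. -/
def NonOrth (r : Γ → GL ν ℤ_[2]) (χ : Γ → ℤ_[2]ˣ) (E : Matrix ν ν ℤ_[2])
    (N : Submodule (ZMod 2) (ν → ZMod 2)) : Prop :=
  (∃ σ, modTwo (r σ) = 1 ∧ 4 ∣ (χ σ : ℤ_[2]) - 3) ∧
    ∀ M : Matrix ν ν (ZMod 2), M + M.transpose = E.map PadicInt.toZMod → ∃ σ, ∃ x ∈ N,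
      dotProduct ((modTwo (r σ)).mulVec x) (M.mulVec ((modTwo (r σ)).mulVec x)) ≠
        dotProduct x (M.mulVec x)

/-- Each nonzero stable subspace `N` mod 2 contains the reduction of a vector with `IgusaAt`, or
satisfies `NonOrth`. -/
def Igusa (r : Γ → GL ν ℤ_[2]) (χ : Γ → ℤ_[2]ˣ) (E : Matrix ν ν ℤ_[2]) : Prop :=
  ∀ N : Submodule (ZMod 2) (ν → ZMod 2), (∀ σ, ∀ x ∈ N, (modTwo (r σ)).mulVec x ∈ N) → N ≠ ⊥ →
    (∃ x, (fun i => PadicInt.toZMod (x i)) ∈ N ∧ IgusaAt r χ E x) ∨ NonOrth r χ E N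

variable [Group Γ]

/-- What commutes with the image of a subgroup of finite index comes from Hodge endomorphisms. -/
def EndTate (ρ : Γ → GL ν ℚ_[2]) (I : Matrix ν ν ℝ) : Prop :=
  ∀ U : Subgroup Γ, U.FiniteIndex → commt (ρ '' U) ⊆ hodgeEnd I

/-- The Zariski closure of the image of every small subgroup of finite index is the Lefschetz
group, and `GSp(E)` if `R` holds; and the image of `U` is Zariski dense in the Mumford-Tate group of `I` if it lies in it,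
`I` is polarizable, and `R` or `EndTate` holds. -/
def LefMT (E : Matrix ν ν ℚ_[2]) (ρ : Γ → GL ν ℚ_[2]) (R : Prop) : Prop :=
  (∃ U₀ : Subgroup Γ, U₀.FiniteIndex ∧ ∀ U ≤ U₀, U.FiniteIndex →
    zcl (AlgebraicClosure ℚ_[2]) (ρ '' U) = lef E (ρ '' U) ∧
      (R → zcl (AlgebraicClosure ℚ_[2]) (ρ '' U) = gsp (AlgebraicClosure ℚ_[2]) E)) ∧
  ∀ I : Matrix ν ν ℝ, Polarizable I → R ∨ EndTate ρ I → ∀ U : Subgroup Γ, U.FiniteIndex →
    ρ '' U ⊆ zeroSet ℚ_[2] (mtEqns I) →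
      zcl (AlgebraicClosure ℚ_[2]) (ρ '' U) = zeroSet (AlgebraicClosure ℚ_[2]) (mtEqns I)

end alg

end

end Pool.Agent.Lib.MP_33b3f9_ag
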