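import Pool.Agent.Lib.MP_33b3f9_ag.IgInf
import Pool.Agent.Lib.MP_33b3f9_ag.IgStmt
import Pool.Agent.Lib.MP_33b3f9_ag.Zar

/-!
Base change of commutants and closures.
-/

open Matrix

namespace Pool.Agent.Lib.MP_33b3f9_ag

noncomputable section

variable {ν : Type} [Fintype ν] [DecidableEq ν] {Γ : Type*} [Group Γ]
  {r : Γ →* Matrix ν ν ℤ_[2]} {ρ : Γ → GL ν ℚ_[2]}

/-- Sketch: with a basis `b` of `Qb` over `ℚ_2`, `C = ∑ i ∈ s, b i • (C.map (b.coord i)).map _` for a
finite set `s`, and each `C.map (b.coord i)` commutes with `T`. -/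
lemma commt_base (T : Set (GL ν ℚ_[2])) {s : Matrix ν ν Qb}
    (hs : ∀ C ∈ commt T, C.map (algebraMap ℚ_[2] Qb) * s = s * C.map (algebraMap ℚ_[2] Qb))
    {C : Matrix ν ν Qb} (hC : ∀ t ∈ T, C * (t : Matrix ν ν ℚ_[2]).map (algebraMap ℚ_[2] Qb) =
      (t : Matrix ν ν ℚ_[2]).map (algebraMap ℚ_[2] Qb) * C) : C * s = s * C := by
  classical
  let b := Module.Basis.ofVectorSpace ℚ_[2] Qb
  let S := (Finset.univ : Finset (ν × ν)).biUnion fun p => (b.repr (C p.1 p.2)).support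
  have hdec : C = ∑ k ∈ S, b k • (C.map (b.coord k)).map (algebraMap ℚ_[2] Qb) := by
    ext i j
    rw [Matrix.sum_apply]
    have h1 : (b.repr (C i j)).support ⊆ S := fun k hk =>
      Finset.mem_biUnion.2 ⟨(i, j), Finset.mem_univ _, hk⟩
    have h2 := b.linearCombination_repr (C i j)
    rw [Finsupp.linearCombination_apply, Finsupp.sum_of_support_subset _ h1 _ (by simp)] at h2
    rw [← h2]
    refine Finset.sum_congr rfl fun k _ => ?_
    rw [Matrix.smul_apply, Matrix.map_apply, Matrix.map_apply, smul_eq_mul, Algebra.smul_def,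
      mul_comm]
    rfl
  have hk : ∀ k, C.map (b.coord k) ∈ commt T := by
    intro k t ht
    ext i j
    have h1 := congrArg (fun M : Matrix ν ν Qb => b.coord k (M i j)) (hC t ht)
    simp only [Matrix.mul_apply, map_sum, Matrix.map_apply] at h1 ⊢
    have h2 : ∀ (x : Qb) (a : ℚ_[2]), b.coord k (x * algebraMap ℚ_[2] Qb a) = b.coord k x * a := by
      intro x a
      rw [mul_comm, ← Algebra.smul_def, map_smul, smul_eq_mul, mul_comm]
    have h3 : ∀ (x : Qb) (a : ℚ_[2]), b.coord k (algebraMap ℚ_[2] Qb a * x) = a * b.coord k x := by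
      intro x a
      rw [← Algebra.smul_def, map_smul, smul_eq_mul]
    simpa only [h2, h3] using h1
  rw [hdec, Finset.sum_mul, Finset.mul_sum]
  refine Finset.sum_congr rfl fun k _ => ?_
  rw [smul_mul_assoc, mul_smul_comm, hs _ (hk k)]

/-- `zar_subset`, and the entries of `C x - x C` are polynomials over `ℚ_2` -/
lemma zcl_subset_lef [Nonempty ν] (T : Set (GL ν ℚ_[2])) {E : Matrix ν ν ℚ_[2]}
    (hdet : E.det ≠ 0) (hT : ∀ h ∈ T, ∃ c : ℚ_[2], (h : Matrix ν ν ℚ_[2])ᵀ * E * h = c • E) :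
    zcl Qb T ⊆ lef E T := by
  intro g hg
  refine ⟨zar_subset T hdet hT hg, fun C hC => Matrix.ext fun i j => ?_⟩
  have key : ∀ {A : Type} [Field A] [Algebra ℚ_[2] A] (x : Matrix ν ν A),
      evalM x ((C.map MvPolynomial.C * (Matrix.of fun s t => MvPolynomial.X (s, t)) -
        (Matrix.of fun s t => MvPolynomial.X (s, t)) * C.map MvPolynomial.C :
          Matrix ν ν (MvPolynomial (ν × ν) ℚ_[2])) i j) =
        (C.map (algebraMap ℚ_[2] A) * x) i j - (x * C.map (algebraMap ℚ_[2] A)) i j := by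
    intro A _ _ x
    simp [evalM, Matrix.mul_apply, map_sum]
  have h1 := hg ((C.map MvPolynomial.C * (Matrix.of fun s t => MvPolynomial.X (s, t)) -
        (Matrix.of fun s t => MvPolynomial.X (s, t)) * C.map MvPolynomial.C :
          Matrix ν ν (MvPolynomial (ν × ν) ℚ_[2])) i j) (by
    intro h hh
    rw [key]
    have e3 : C.map (algebraMap ℚ_[2] ℚ_[2]) = C := rfl
    rw [e3, hC h hh, sub_self])
  rw [key] at h1
  exact sub_eq_zero.1 h1

/-- the last part of the proof of `zcl_eq_gsp` -/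
lemma mem_zcl_of_mcl (hρ : ∀ σ, (ρ σ : Matrix ν ν ℚ_[2]) = (r σ).map ((↑) : ℤ_[2] → ℚ_[2]))
    (U : Subgroup Γ) {g : GL ν Qb}
    (hg : (g : Matrix ν ν Qb) ∈ mcl (imO r U : Set (Matrix ν ν Qb))) : g ∈ zcl Qb (ρ '' U) := by
  intro P hP
  have := hg (MvPolynomial.map (algebraMap ℚ_[2] Qb) P) (by
    rintro _ ⟨σ, hσ, rfl⟩
    have h1 := hP (ρ σ) ⟨σ, hσ, rfl⟩
    unfold evalM at h1 ⊢
    rw [MvPolynomial.aeval_map_algebraMap]
    have h2 := MvPolynomial.aeval_algebraMap_apply Qb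
      (fun p : ν × ν => (ρ σ : Matrix ν ν ℚ_[2]) p.1 p.2) P
    rw [h1, map_zero, hρ] at h2
    exact h2)
  unfold evalM at this ⊢
  rwa [MvPolynomial.aeval_map_algebraMap] at this

end

end Pool.Agent.Lib.MP_33b3f9_ag
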