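import Pool.Agent.Lib.MP_33b3f9_ag.IgRigid

/-!
A large image mod 2 with trivial commutant forces the commutants to be scalar.
-/

open Matrix

namespace Pool.Agent.Lib.MP_33b3f9_ag

noncomputable section

/-- Sketch: induction on `F`. Let `A` be the pointwise stabilizer of the old set, `f : A →* G` the
restriction of `p` (surjective by induction) and `B = stabilizer A x`; then
`(B.map f).index ∣ B.index = (orbit A x).ncard` (`Subgroup.index_map_dvd`,
`MulAction.index_stabilizer`), which is nonzero and at most `N`. -/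
lemma exists_fix {Γ G X : Type*} [Group Γ] [Group G] [MulAction Γ X] (p : Γ →* G)
    (hp : Function.Surjective p) {N : ℕ}
    (hi : ∀ K : Subgroup G, K.FiniteIndex → K.index ≤ N → K = ⊤) (F : Set X) (hF : F.Finite)
    (ho : ∀ x ∈ F, (MulAction.orbit Γ x).Finite ∧ (MulAction.orbit Γ x).ncard ≤ N) (g : G) :
    ∃ σ : Γ, p σ = g ∧ ∀ x ∈ F, σ • x = x := by
  induction F, hF using Set.Finite.induction_on generalizing g with
  | empty =>
    obtain ⟨σ, hσ⟩ := hp g
    exact ⟨σ, hσ, fun _ hx => hx.elim⟩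
  | @insert x F _ _ ih =>
    have hf : Function.Surjective (p.comp (fixingSubgroup Γ F).subtype) := fun g => by
      obtain ⟨σ, h1, h2⟩ := ih (fun y hy => ho y (Set.mem_insert_of_mem _ hy)) g
      exact ⟨⟨σ, (mem_fixingSubgroup_iff Γ).2 h2⟩, h1⟩
    obtain ⟨h1, h2⟩ := ho x (Set.mem_insert _ _)
    have h3 : MulAction.orbit (fixingSubgroup Γ F) x ⊆ MulAction.orbit Γ x := by
      rintro _ ⟨σ, rfl⟩
      exact ⟨σ.1, rfl⟩
    have h4 := Subgroup.index_map_dvd (MulAction.stabilizer (fixingSubgroup Γ F) x) hf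
    rw [MulAction.index_stabilizer] at h4
    have h5 : (MulAction.orbit (fixingSubgroup Γ F) x).ncard ≠ 0 :=
      Set.ncard_ne_zero_of_mem (MulAction.mem_orbit_self x) (h1.subset h3)
    have h6 := hi _ ⟨ne_zero_of_dvd_ne_zero h5 h4⟩ ((Nat.le_of_dvd (Nat.pos_of_ne_zero h5) h4).trans
      ((Set.ncard_le_ncard h3 h1).trans h2))
    obtain ⟨σ, h7, h8⟩ := h6.ge (Subgroup.mem_top g)
    refine ⟨σ.1, h8, ?_⟩
    rintro y (rfl | hy)
    · exact h7
    · exact (mem_fixingSubgroup_iff Γ).1 σ.2 y hy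

variable {ν : Type} [Fintype ν] [DecidableEq ν] {Γ : Type*} [Group Γ]
  {r : Γ →* Matrix ν ν ℤ_[2]} {E : Matrix ν ν ℤ_[2]} {χ : Γ →* ℤ_[2]ˣ} {H : Subgroup Γ}

variable (r) in
/-- the common eigenspaces -/
def igBig_W (l : igRigid_ring r → Qb) : Submodule Qb (ν → Qb) :=
  ⨅ a : igRigid_ring r, Module.End.eigenspace (Matrix.toLin' (a.1.map (toΩ Qb))) (l a)

lemma igBig_mem {l : igRigid_ring r → Qb} {v : ν → Qb} :
    v ∈ igBig_W r l ↔ ∀ a : igRigid_ring r, a.1.map (toΩ Qb) *ᵥ v = l a • v := by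
  simp only [igBig_W, Submodule.mem_iInf, Module.End.mem_eigenspace_iff, toLin'_apply]

/-- the action on the systems of eigenvalues -/
def igBig_act (σ : Γ) (l : igRigid_ring r → Qb) : igRigid_ring r → Qb :=
  fun a => l ⟨r σ⁻¹ * a.1 * r σ⁻¹⁻¹, igRigid_conj a.2 σ⁻¹⟩

lemma igBig_act_one (l : igRigid_ring r → Qb) : igBig_act 1 l = l := by
  funext a
  simp [igBig_act]

lemma igBig_act_mul (σ τ : Γ) (l : igRigid_ring r → Qb) :
    igBig_act (σ * τ) l = igBig_act σ (igBig_act τ l) := by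
  funext a
  simp [igBig_act, Matrix.mul_assoc]

lemma igBig_map (σ : Γ) {l : igRigid_ring r → Qb} {v : ν → Qb} (hv : v ∈ igBig_W r l) :
    repO r σ *ᵥ v ∈ igBig_W r (igBig_act σ l) := by
  rw [igBig_mem] at hv ⊢
  intro a
  have h1 : a.1 * r σ = r σ * (r σ⁻¹ * a.1 * r σ⁻¹⁻¹) := by
    rw [inv_inv, ← Matrix.mul_assoc, ← Matrix.mul_assoc, ← map_mul, mul_inv_cancel, map_one,
      Matrix.one_mul]
  rw [repO_apply, mulVec_mulVec, ← Matrix.map_mul, h1, Matrix.map_mul, ← mulVec_mulVec,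
    hv ⟨_, igRigid_conj a.2 σ⁻¹⟩, mulVec_smul]
  rfl

lemma igBig_stab (σ : Γ) {l : igRigid_ring r → Qb} (hl : igBig_W r l ≠ ⊥) :
    igBig_W r (igBig_act σ l) ≠ ⊥ := by
  obtain ⟨v, hv, hv0⟩ := Submodule.exists_mem_ne_zero_of_ne_bot hl
  refine (Submodule.ne_bot_iff _).2 ⟨_, igBig_map σ hv, fun h0 => hv0 ?_⟩
  have h1 := congrArg (fun w => repO r σ⁻¹ *ᵥ w) h0
  simpa only [mulVec_mulVec, ← map_mul, inv_mul_cancel, map_one, one_mulVec, mulVec_zero] using h1

lemma igBig_fin (h : IgData r E χ H) :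
    {l | igBig_W r l ≠ ⊥}.Finite ∧ {l | igBig_W r l ≠ ⊥}.ncard ≤ Fintype.card ν := by
  classical
  have hcm : ∀ a b : igRigid_ring r, Commute (Matrix.toLin' (a.1.map (toΩ Qb)))
      (Matrix.toLin' (b.1.map (toΩ Qb))) := fun a b => by
    change _ ∘ₗ _ = _ ∘ₗ _
    rw [← toLin'_mul, ← toLin'_mul, ← Matrix.map_mul, ← Matrix.map_mul, igRigid_comm h a.2 b.2]
  have hind : iSupIndep (igBig_W r) :=
    (Module.End.independent_iInf_maxGenEigenspace_of_forall_mapsTo
      (fun a : igRigid_ring r => (Matrix.toLin' (a.1.map (toΩ Qb)) : Module.End Qb (ν → Qb)))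
      fun i j μ => Module.End.mapsTo_maxGenEigenspace_of_comm (hcm j i) μ).mono
      fun l => iInf_mono fun a => (Module.End.genEigenspace _ _).monotone le_top
  have hfin : {l | igBig_W r l ≠ ⊥}.Finite := WellFoundedGT.finite_ne_bot_of_iSupIndep hind
  refine ⟨hfin, ?_⟩
  have : Fintype {l // igBig_W r l ≠ ⊥} := hfin.fintype
  have h3 := hind.subtype_ne_bot_le_finrank
  rw [Module.finrank_fintype_fun_eq_card] at h3
  have h4 : {l | igBig_W r l ≠ ⊥}.ncard = Fintype.card {l // igBig_W r l ≠ ⊥} := by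
    rw [← Nat.card_coe_set_eq, ← Nat.card_eq_fintype_card]
    rfl
  omega

lemma igBig_comm (h : IgData r E χ H) {σ : Γ} (hσ : ∀ l, igBig_W r l ≠ ⊥ → igBig_act σ l = l)
    (a : igRigid_ring r) : a.1 * r σ = r σ * a.1 := by
  refine Matrix.map_injective igRigid_inj ?_
  change (a.1 * r σ).map (toΩ Qb) = (r σ * a.1).map (toΩ Qb)
  rw [Matrix.map_mul, Matrix.map_mul, ← repO_apply]
  refine Matrix.toLin'.injective (LinearMap.ext_on h.blkData.span fun v hv => ?_)
  by_cases hv0 : v = 0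
  · rw [hv0, map_zero, map_zero]
  have h1 : ∀ b : igRigid_ring r, ∃ c : Qb, b.1.map (toΩ Qb) *ᵥ v = c • v := fun b => by
    obtain ⟨U, hU, hb⟩ := b.2
    refine igFin_eig h.detO ?_
    have h2 := mcl_comm (C := b.1.map (toΩ Qb)) (by
      rintro _ ⟨τ, hτ, rfl⟩
      rw [repO_apply, ← Matrix.map_mul, ← Matrix.map_mul, (hb τ hτ).eq]) (h.trans_mem U hv 1)
    rwa [one_smul, mul_add, add_mul, mul_one, one_mul, add_right_inj] at h2
  choose l hl using h1
  have h2 := igBig_map σ (igBig_mem.2 hl)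
  rw [hσ l ((Submodule.ne_bot_iff _).2 ⟨v, igBig_mem.2 hl, hv0⟩), igBig_mem] at h2
  rw [toLin'_apply, toLin'_apply, ← mulVec_mulVec, ← mulVec_mulVec, h2, hl, mulVec_smul]

/-- Sketch: let `O = igRigid_ring r` with the conjugation action of `Γ` (`igRigid_conj`), and let
`X` be the set of `l : O → Qb` whose common generalized eigenspace in `ν → Qb` is nonzero; it is
finite, stable, with at most `card ν` elements (copy the proof of `rigid_of_simple` in
the file `IgRkA`, `igRigid_comm`). Apply `exists_fix` to the subgroup of all `(σ, g)` in `Γ × G` with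
`(r σ).map red = φ g`, acting through `σ`. If `σ` fixes `X` then it commutes with each `C ∈ O`:
the vectors `v` with `sqm E v ∈ kinf r` span (`blkData`) and are common eigenvectors of `O`
(`igFin_eig`, as in `IgData.comm_comm`). Hence `C.map red` commutes with all `φ g`; conclude as in
`IgData.scalar_int` with `scalar_of_sat`. -/
theorem IgData.scalar_of_big [Nonempty ν] (h : IgData r E χ H) {G : Type*} [Group G]
    (φ : G →* Matrix ν ν (ZMod 2)) (h1 : ∀ g, ∃ σ, (r σ).map red = φ g)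
    (hi : ∀ K : Subgroup G, K.FiniteIndex → K.index ≤ Fintype.card ν → K = ⊤)
    (hc : ∀ x : Matrix ν ν (ZMod 2), (∀ g, x * φ g = φ g * x) → x = 0 ∨ x = 1)
    (U : Subgroup Γ) [U.FiniteIndex] {C : Matrix ν ν ℤ_[2]} (hC : ∀ σ ∈ U, C * r σ = r σ * C) :
    ∃ c : ℤ_[2], C = c • 1 := by
  classical
  refine scalar_of_sat (igRigid_ring r : Set (Matrix ν ν ℤ_[2]))
    (fun C hC => sub_mem hC (one_mem _)) ?_ (fun C hC => hc _ fun g => ?_) ⟨U, ‹_›, hC⟩
  · rintro C ⟨V, hV, h1⟩
    refine ⟨V, hV, fun σ hσ => smul_right_injective _ (two_ne_zero : (2 : ℤ_[2]) ≠ 0) ?_⟩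
    have h2 := (h1 σ hσ).eq
    rwa [Matrix.smul_mul, Matrix.mul_smul] at h2
  let P : Subgroup (Γ × G) :=
    { carrier := {s | (r s.1).map red = φ s.2}
      one_mem' := by
        change (r 1).map red = φ 1
        rw [map_one, map_one, Matrix.map_one _ (map_zero red) (map_one red)]
      mul_mem' := fun {s t} hs ht => by
        change (r (s.1 * t.1)).map red = φ (s.2 * t.2)
        rw [map_mul, map_mul, Matrix.map_mul, hs, ht]
      inv_mem' := fun {s} hs => by
        change (r s.1⁻¹).map red = φ s.2⁻¹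
        have h2 : (r s.1⁻¹).map red * φ s.2 = 1 := by
          rw [← hs, ← Matrix.map_mul, ← map_mul, inv_mul_cancel, map_one,
            Matrix.map_one _ (map_zero red) (map_one red)]
        rw [← Matrix.mul_one ((r s.1⁻¹).map red), ← map_one φ, ← mul_inv_cancel s.2, map_mul,
          ← Matrix.mul_assoc, h2, Matrix.one_mul] }
  let act : MulAction P (igRigid_ring r → Qb) :=
    { smul := fun s => igBig_act s.1.1
      one_smul := igBig_act_one
      mul_smul := fun s t => igBig_act_mul s.1.1 t.1.1 }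
  obtain ⟨hfin, hcard⟩ := igBig_fin h
  obtain ⟨s, hs, hs'⟩ := exists_fix ((MonoidHom.snd Γ G).comp P.subtype)
    (fun g => by
      obtain ⟨σ, hσ⟩ := h1 g
      exact ⟨⟨(σ, g), hσ⟩, rfl⟩) hi _ hfin (fun l hl => by
      have h2 : MulAction.orbit P l ⊆ {l | igBig_W r l ≠ ⊥} := by
        rintro _ ⟨s, rfl⟩
        exact igBig_stab s.1.1 hl
      exact ⟨hfin.subset h2, (Set.ncard_le_ncard h2 hfin).trans hcard⟩) g
  have h2 : (r s.1.1).map red = φ g := hs ▸ s.2
  rw [← h2, ← Matrix.map_mul, ← Matrix.map_mul, igBig_comm h hs' ⟨C, hC⟩]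

end

end Pool.Agent.Lib.MP_33b3f9_ag
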