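import Pool.Agent.Lib.MP_33b3f9_ag.Trans

/-!
Blocks: maximal subspaces all of whose transvection directions lie in a Lie algebra.
-/

open Matrix

namespace Pool.Agent.Lib.MP_33b3f9_ag

variable {ν : Type} [Fintype ν] [DecidableEq ν] {Ω : Type*} [Field Ω] [CharZero Ω]

/-- a maximal subspace `W` with `sqm E v ∈ A` for all `v ∈ W` -/
def Blk (A : Submodule Ω (Matrix ν ν Ω)) (E : Matrix ν ν Ω) (W : Submodule Ω (ν → Ω)) : Prop :=
  Maximal (fun W : Submodule Ω (ν → Ω) => ∀ v ∈ W, sqm E v ∈ A) W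

/-- a Lie algebra of matrices whose transvection directions span -/
structure BlkData (A : Submodule Ω (Matrix ν ν Ω)) (E : Matrix ν ν Ω) : Prop where
  skew : Eᵀ = -E
  det : E.det ≠ 0
  lie : ∀ Y ∈ A, ∀ Z ∈ A, Y * Z - Z * Y ∈ A
  span : Submodule.span Ω {v : ν → Ω | sqm E v ∈ A} = ⊤

variable {A : Submodule Ω (Matrix ν ν Ω)} {E : Matrix ν ν Ω}

omit [DecidableEq ν] [CharZero Ω] in
lemma sqm_smul (E : Matrix ν ν Ω) (c : Ω) (v : ν → Ω) : sqm E (c • v) = (c * c) • sqm E v := by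
  simp only [sqm, mulVec_smul, smul_vecMulVec, vecMulVec_smul, smul_smul]

omit [DecidableEq ν] [CharZero Ω] in
lemma Blk.sqm_mem {W : Submodule Ω (ν → Ω)} (hW : Blk A E W) {v : ν → Ω} (hv : v ∈ W) :
    sqm E v ∈ A := hW.prop v hv

omit [DecidableEq ν] [CharZero Ω] in
/-- start from the line through `v`; submodules of `ν → Ω` satisfy the ascending chain condition
(`exists_maximal_ge_of_wellFoundedGT`) -/
lemma blk_exists {v : ν → Ω} (hv : sqm E v ∈ A) : ∃ W, Blk A E W ∧ v ∈ W := by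
  have h0 : ∀ x ∈ Submodule.span Ω {v}, sqm E x ∈ A := by
    intro x hx
    obtain ⟨c, rfl⟩ := Submodule.mem_span_singleton.1 hx
    rw [sqm_smul]
    exact A.smul_mem _ hv
  obtain ⟨W, h1, h2⟩ := exists_maximal_ge_of_wellFoundedGT
    (fun W : Submodule Ω (ν → Ω) => ∀ v ∈ W, sqm E v ∈ A) _ h0
  exact ⟨W, h2, h1 (Submodule.mem_span_singleton_self v)⟩

/-- Sketch: if `x₀ ⬝ E w ≠ 0` with `x₀ ∈ W`, then `dotm E x w ∈ A` for all `x ∈ W`: for
`x ⬝ E w ≠ 0` by `lie_sqm` (with `X = sqm E x`, `sqm_sp`, `sqm_mulVec`, `dotm_smul_left`), otherwise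
use `x + x₀` and `dotm_add_left`. So `W ⊔ span {w}` has the property (`sqm_add`), and maximality
gives `w ∈ W`. -/
lemma BlkData.mem_or_orth (h : BlkData A E) {W : Submodule Ω (ν → Ω)} (hW : Blk A E W)
    {w : ν → Ω} (hw : sqm E w ∈ A) : w ∈ W ∨ ∀ x ∈ W, x ⬝ᵥ E *ᵥ w = 0 := by
  by_cases h0 : ∀ x ∈ W, x ⬝ᵥ E *ᵥ w = 0
  · exact Or.inr h0
  left
  push Not at h0
  obtain ⟨x₀, hx₀, h0⟩ := h0
  have k1 : ∀ x ∈ W, x ⬝ᵥ E *ᵥ w ≠ 0 → dotm E x w ∈ A := by
    intro x hx hxw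
    have h1 := h.lie _ (hW.sqm_mem hx) _ hw
    rw [lie_sqm (sqm_sp h.skew x), sqm_mulVec, dotm_smul_left] at h1
    refine (A.smul_mem_iff ?_).1 h1
    rw [trans_skew h.skew]
    exact neg_ne_zero.2 hxw
  have k2 : ∀ x ∈ W, dotm E x w ∈ A := by
    intro x hx
    by_cases hxw : x ⬝ᵥ E *ᵥ w = 0
    · have h1 := k1 (x + x₀) (W.add_mem hx hx₀) (by rwa [add_dotProduct, hxw, zero_add])
      rw [dotm_add_left] at h1
      exact (A.add_mem_iff_left (k1 x₀ hx₀ h0)).1 h1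
    · exact k1 x hx hxw
  have k3 : ∀ v ∈ W ⊔ Submodule.span Ω {w}, sqm E v ∈ A := by
    intro v hv
    obtain ⟨x, hx, y, hy, rfl⟩ := Submodule.mem_sup.1 hv
    obtain ⟨c, rfl⟩ := Submodule.mem_span_singleton.1 hy
    rw [sqm_add, sqm_smul, dotm_comm, dotm_smul_left, dotm_comm]
    exact A.add_mem (A.add_mem (hW.sqm_mem hx) (A.smul_mem _ hw)) (A.smul_mem _ (k2 x hx))
  exact hW.le_of_ge k3 le_sup_left
    (Submodule.mem_sup_right (Submodule.mem_span_singleton_self w))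

lemma BlkData.eq_or_orth (h : BlkData A E) {W W' : Submodule Ω (ν → Ω)} (hW : Blk A E W)
    (hW' : Blk A E W') : W = W' ∨ ∀ x ∈ W, ∀ y ∈ W', x ⬝ᵥ E *ᵥ y = 0 := by
  by_cases h0 : ∀ x ∈ W, ∀ y ∈ W', x ⬝ᵥ E *ᵥ y = 0
  · exact Or.inr h0
  left
  push Not at h0
  obtain ⟨x, hx, y, hy, h0⟩ := h0
  have h1 : y ⬝ᵥ E *ᵥ x ≠ 0 := by
    rw [trans_skew h.skew]
    exact neg_ne_zero.2 h0
  have h2 : x ∈ W' := (h.mem_or_orth hW' (hW.sqm_mem hx)).resolve_right fun e => h1 (e y hy)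
  have h3 : W ≤ W' := by
    intro z hz
    rcases h.mem_or_orth hW' (hW.sqm_mem hz) with h4 | h4
    · exact h4
    · have h5 : x + z ∈ W' :=
        (h.mem_or_orth hW' (hW.sqm_mem (W.add_mem hx hz))).resolve_right fun e => h1 (by
          have := e y hy
          rwa [mulVec_add, dotProduct_add, h4 y hy, add_zero] at this)
      exact (W'.add_mem_iff_right h2).1 h5
  exact le_antisymm h3 (hW.le_of_ge hW'.prop h3)

/-- every vector is the sum of a vector in `W` and a vector orthogonal to `W`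
(`Submodule.span_induction`) -/
lemma BlkData.decomp (h : BlkData A E) {W : Submodule Ω (ν → Ω)} (hW : Blk A E W) (z : ν → Ω) :
    ∃ w ∈ W, ∀ x ∈ W, x ⬝ᵥ E *ᵥ (z - w) = 0 := by
  have hz : z ∈ Submodule.span Ω {v : ν → Ω | sqm E v ∈ A} := h.span ▸ Submodule.mem_top
  induction hz using Submodule.span_induction with
  | mem v hv =>
    rcases h.mem_or_orth hW hv with h1 | h1
    · exact ⟨v, h1, fun x _ => by rw [sub_self, mulVec_zero, dotProduct_zero]⟩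
    · exact ⟨0, W.zero_mem, fun x hx => by rw [sub_zero, h1 x hx]⟩
  | zero => exact ⟨0, W.zero_mem, fun x _ => by rw [sub_self, mulVec_zero, dotProduct_zero]⟩
  | add u v _ _ hu hv =>
    obtain ⟨a, ha, h1⟩ := hu
    obtain ⟨b, hb, h2⟩ := hv
    refine ⟨a + b, W.add_mem ha hb, fun x hx => ?_⟩
    rw [add_sub_add_comm, mulVec_add, dotProduct_add, h1 x hx, h2 x hx, add_zero]
  | smul c u _ hu =>
    obtain ⟨a, ha, h1⟩ := hu
    refine ⟨c • a, W.smul_mem c ha, fun x hx => ?_⟩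
    rw [← smul_sub, mulVec_smul, dotProduct_smul, h1 x hx, smul_zero]

/-- `trans_nondeg`, `decomp`, `trans_skew` -/
lemma BlkData.nondeg (h : BlkData A E) {W : Submodule Ω (ν → Ω)} (hW : Blk A E W) {v : ν → Ω}
    (hv : v ∈ W) (hv0 : v ≠ 0) : ∃ x ∈ W, x ⬝ᵥ E *ᵥ v ≠ 0 := by
  obtain ⟨z, hz⟩ := trans_nondeg h.det hv0
  obtain ⟨w, hw, h1⟩ := h.decomp hW z
  refine ⟨w, hw, fun e => hz ?_⟩
  have h2 := h1 v hv
  rw [mulVec_sub, dotProduct_sub, trans_skew h.skew v w, e, neg_zero, sub_zero] at h2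
  rw [trans_skew h.skew, h2, neg_zero]

end Pool.Agent.Lib.MP_33b3f9_ag
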