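import Pool.Agent.Lib.MP_33b3f9_ag.IgTng

/-!
The tangent space is closed under the bracket.
-/

open Matrix

namespace Pool.Agent.Lib.MP_33b3f9_ag

noncomputable section

variable {ν : Type} [Fintype ν] [DecidableEq ν] {Ω : Type*} [Field Ω]

lemma igBr_comm {R : Type*} [CommRing R] (a b : R) (ha : a * a = 0) (hb : b * b = 0)
    (Y Z : Matrix ν ν R) :
    (1 + a • Y) * (1 + b • Z) * (1 + (-a) • Y) * (1 + (-b) • Z) =
      1 + (a * b) • (Y * Z - Z * Y) := by
  rw [← sq] at ha hb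
  simp only [mul_add, add_mul, one_mul, mul_one, smul_mul_assoc, mul_smul_comm, mul_assoc]
  match_scalars <;> ring_nf <;> simp [ha, hb]

lemma igBr_gen {R : Type*} [CommRing R] [Algebra Ω R] (a b : R) (ha : a * a = 0) (hb : b * b = 0)
    (hi : ∀ x y : Ω, algebraMap Ω R x + algebraMap Ω R y * (a * b) = 0 → x = 0 ∧ y = 0)
    {T : Submonoid (Matrix ν ν Ω)} {Y Z : Matrix ν ν Ω} (hY : Y ∈ tng T) (hZ : Z ∈ tng T) :
    Y * Z - Z * Y ∈ tng T := by
  have hm := fun (h : Matrix ν ν Ω) (e : h ∈ T) (h' : Matrix ν ν Ω) (e' : h' ∈ T) => T.mul_mem e e'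
  have h1 := ptsR_mul hm (ptsR_mul hm (ptsR_mul hm (tng_pts hY a ha) (tng_pts hZ b hb))
    (tng_pts hY (-a) (by rwa [neg_mul_neg]))) (tng_pts hZ (-b) (by rwa [neg_mul_neg]))
  obtain ⟨φ, hφ⟩ := exists_dual_hom (Ω := Ω) (a * b) (by rw [mul_mul_mul_comm, ha, zero_mul])
  refine ptsR_of_map φ ((injective_iff_map_eq_zero φ).2 fun x hx => ?_) ?_
  · have h2 : x = algebraMap Ω _ x.fst + x.snd • DualNumber.eps := by
      ext <;> simp [TrivSqZeroExt.algebraMap_eq_inl]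
    rw [h2, map_add, map_smul, hφ, φ.commutes, Algebra.smul_def] at hx
    exact TrivSqZeroExt.ext (hi _ _ hx).1 (hi _ _ hx).2
  · rw [igBr_comm _ _ ha hb, ← Matrix.map_mul, ← Matrix.map_mul, ← Matrix.map_sub _ (map_sub _)] at h1
    rwa [dualM_map, hφ]

/-- Sketch: `R = DualNumber (DualNumber Ω)` (an `Ω`-algebra), `a = algebraMap _ R ε`, `b = ε`;
`tng_pts`, `ptsR_mul`, `igBr_comm`; then `ptsR_of_map` for the map `φ` with `φ ε = a * b`
(`exists_dual_hom`, `dualM_map`), which is injective: `φ (x + y ε) = x + y a b`. -/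
theorem tng_lie {T : Submonoid (Matrix ν ν Ω)} {Y Z : Matrix ν ν Ω} (hY : Y ∈ tng T)
    (hZ : Z ∈ tng T) : Y * Z - Z * Y ∈ tng T := by
  refine igBr_gen (R := DualNumber (DualNumber Ω)) (TrivSqZeroExt.inl DualNumber.eps) DualNumber.eps
    (by ext <;> simp) DualNumber.eps_mul_eps (fun x y h => ?_) hY hZ
  exact ⟨by simpa [TrivSqZeroExt.algebraMap_eq_inl'] using congrArg (fun w => w.fst.fst) h,
    by simpa [TrivSqZeroExt.algebraMap_eq_inl'] using congrArg (fun w => w.snd.snd) h⟩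

end

end Pool.Agent.Lib.MP_33b3f9_ag
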