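import Pool.Agent.Lib.MP_33b3f9_ag.IgBlk

/-!
Similitudes that normalize the Lie algebra permute the blocks.
-/

open Matrix

namespace Pool.Agent.Lib.MP_33b3f9_ag

variable {ν : Type} [Fintype ν] [DecidableEq ν] {Ω : Type*} [Field Ω]
  {A : Submodule Ω (Matrix ν ν Ω)} {E : Matrix ν ν Ω}

omit [DecidableEq ν] in
lemma igConj_sqm {a b : Matrix ν ν Ω} {c : Ω} (h : E * a = c • (bᵀ * E)) (v : ν → Ω) :
    sqm E (a *ᵥ v) = c • (a * sqm E v * b) := by
  rw [sqm, sqm, lieA_mul_left, lieA_mul_right, mulVec_mulVec, h, smul_mulVec, mulVec_mulVec]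
  ext i j
  simp only [vecMulVec_apply, Pi.smul_apply, Matrix.smul_apply, smul_eq_mul]
  ring

/-- `sqm E (a v) = c • (a * sqm E v * b)` and `sqm E (b v) = c⁻¹ • (b * sqm E v * a)` -/
lemma blk_conj {a b : Matrix ν ν Ω} (hab : a * b = 1) {c : Ω} (hc : c ≠ 0)
    (ha : aᵀ * E * a = c • E) (h1 : ∀ Y ∈ A, a * Y * b ∈ A) (h2 : ∀ Y ∈ A, b * Y * a ∈ A)
    {W : Submodule Ω (ν → Ω)} (hW : Blk A E W) : Blk A E (W.map (Matrix.toLin' a)) := by
  have hba : b * a = 1 := mul_eq_one_comm.mp hab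
  have e1 : E * a = c • (bᵀ * E) := by
    rw [← Matrix.mul_smul, ← ha, ← mul_assoc, ← mul_assoc, ← transpose_mul, hab, transpose_one,
      one_mul]
  have e2 : E * b = c⁻¹ • (aᵀ * E) := by
    have : aᵀ * E = c • (E * b) := by
      rw [← Matrix.smul_mul, ← ha, mul_assoc (aᵀ * E), hab, mul_one]
    rw [this, smul_smul, inv_mul_cancel₀ hc, one_smul]
  refine ⟨?_, fun W' hW' hle x hx => ?_⟩
  · rintro _ ⟨v, hv, rfl⟩
    rw [toLin'_apply, igConj_sqm e1]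
    exact A.smul_mem _ (h1 _ (hW.prop v hv))
  · have p : ∀ v ∈ W'.map (Matrix.toLin' b), sqm E v ∈ A := by
      rintro _ ⟨v, hv, rfl⟩
      rw [toLin'_apply, igConj_sqm e2]
      exact A.smul_mem _ (h2 _ (hW' v hv))
    have q : W ≤ W'.map (Matrix.toLin' b) := fun w hw =>
      ⟨a *ᵥ w, hle ⟨w, hw, toLin'_apply a w⟩, by
        rw [toLin'_apply, mulVec_mulVec, hba, one_mulVec]⟩
    refine ⟨b *ᵥ x, hW.2 p q ⟨x, hx, toLin'_apply b x⟩, ?_⟩
    rw [toLin'_apply, mulVec_mulVec, hab, one_mulVec]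

end Pool.Agent.Lib.MP_33b3f9_ag
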