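import Pool.Agent.Lib.MP_33b3f9_ag.IgTng

/-!
One-parameter subgroups of square zero tangent vectors.
-/

open Matrix Polynomial

namespace Pool.Agent.Lib.MP_33b3f9_ag

noncomputable section

variable {ν : Type} [Fintype ν] [DecidableEq ν] {Ω : Type*} [Field Ω] [CharZero Ω]

lemma igExp_dvd {n : ℕ} {q : Polynomial Ω} (h1 : X ^ (n + 1) ∣ q) (h2 : X ^ (n + 1) ∣ derivative q) :
    X ^ (n + 2) ∣ q := by
  rw [X_pow_dvd_iff] at h1 h2 ⊢
  intro d hd
  rcases Nat.lt_succ_iff_lt_or_eq.1 hd with h | rfl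
  · exact h1 d h
  · have h3 := h2 n (Nat.lt_succ_self n)
    rw [coeff_derivative] at h3
    exact (mul_eq_zero.1 h3).resolve_right (Nat.cast_add_one_ne_zero n)

omit [Fintype ν] [CharZero Ω] in
lemma igExp_ev (N : Matrix ν ν Ω) {R : Type*} [CommRing R] [Algebra Ω R] (t : R)
    (P : MvPolynomial (ν × ν) Ω) :
    MvPolynomial.aeval (fun p : ν × ν => (1 + t • N.map (algebraMap Ω R) : Matrix ν ν R) p.1 p.2) P =
      aeval t (MvPolynomial.aeval (fun p : ν × ν =>
        (1 + (X : Polynomial Ω) • N.map (algebraMap Ω _) : Matrix ν ν (Polynomial Ω)) p.1 p.2) P) := by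
  rw [← AlgHom.comp_apply, MvPolynomial.comp_aeval]
  congr 2
  funext p
  simp [Matrix.one_apply, apply_ite (aeval t), mul_comm t]

lemma igExp_step {T : Submonoid (Matrix ν ν Ω)} {N : Matrix ν ν Ω} (hN : N ∈ tng T)
    (h2 : N * N = 0) (n : ℕ) (P : MvPolynomial (ν × ν) Ω) (hP : ∀ h ∈ T, evalM h P = 0) :
    X ^ (n + 1) ∣ MvPolynomial.aeval (fun p : ν × ν =>
      (1 + (X : Polynomial Ω) • N.map (algebraMap Ω _) : Matrix ν ν (Polynomial Ω)) p.1 p.2) P := by
  induction n generalizing P with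
  | zero =>
    have h1 := igExp_ev N (0 : Ω) P
    rw [zero_smul, add_zero] at h1
    rw [zero_add, pow_one, X_dvd_iff, coeff_zero_eq_aeval_zero, ← h1]
    exact hP 1 T.one_mem
  | succ n ih =>
    refine igExp_dvd (ih P hP) ?_
    let R := AdjoinRoot (X ^ (n + 1) : Polynomial Ω)
    let t : DualNumber R := algebraMap R _ (AdjoinRoot.root _)
    have h0 : ∀ q : Polynomial Ω, X ^ (n + 1) ∣ q → aeval t q = 0 := fun q hq => by
      rw [aeval_algebraMap_apply, AdjoinRoot.aeval_eq, AdjoinRoot.mk_eq_zero.2 hq, map_zero]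
    have h1 : 1 + t • N.map (algebraMap Ω (DualNumber R)) ∈
        ptsR (T : Set (Matrix ν ν Ω)) (DualNumber R) := fun Q hQ => by
      rw [igExp_ev]
      exact h0 _ (ih Q hQ)
    have h3 := ptsR_mul (fun _ h _ h' => T.mul_mem h h') h1
      (tng_pts hN (DualNumber.eps : DualNumber R) DualNumber.eps_mul_eps)
    have h4 : N.map (algebraMap Ω (DualNumber R)) * N.map (algebraMap Ω (DualNumber R)) = 0 := by
      rw [← Matrix.map_mul, h2, Matrix.map_zero _ (map_zero _)]
    rw [add_mul, mul_add, mul_add, one_mul, one_mul, mul_one, smul_mul_smul_comm, h4, smul_zero,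
      add_zero, add_assoc, ← add_smul, add_comm _ t] at h3
    have h5 := h3 P hP
    rw [igExp_ev, aeval_add_of_sq_eq_zero _ _ _ (by rw [sq, DualNumber.eps_mul_eps]),
      h0 _ (ih P hP), zero_add, aeval_algebraMap_apply, AdjoinRoot.aeval_eq] at h5
    refine AdjoinRoot.mk_eq_zero.1 ?_
    have h6 : ∀ a : R, algebraMap R (DualNumber R) a * DualNumber.eps = 0 → a = 0 := fun a ha => by
      simpa [TrivSqZeroExt.algebraMap_eq_inl] using congrArg TrivSqZeroExt.snd ha
    exact h6 _ h5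

/-- Sketch: for `P` vanishing on `T` let `q P = aeval (1 + X • N.map C) P`, a polynomial in one
variable, so that `aeval (1 + t • N) P = aeval t (q P)` for `t` in any `Ω`-algebra. Show by
induction on `n` that `X ^ (n + 1) ∣ q P` for all such `P` (equivalently `1 + t • N` is a point over
`R = AdjoinRoot (X ^ (n + 1))`, `t = root`). Step: over `DualNumber R` the product
`(1 + t N) (1 + ε N) = 1 + (t + ε) N` is a point (`ptsR_map`, `tng_pts`, `ptsR_mul`), and
`aeval (t + ε) q = aeval t q + aeval t q.derivative * ε` (`Polynomial.aeval_add_of_sq_eq_zero`);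
use `igExp_dvd`. A polynomial divisible by all powers of `X` is zero. -/
theorem tng_exp {T : Submonoid (Matrix ν ν Ω)} {N : Matrix ν ν Ω} (hN : N ∈ tng T)
    (h2 : N * N = 0) (s : Ω) : 1 + s • N ∈ mcl (T : Set (Matrix ν ν Ω)) := by
  intro P hP
  have h1 := igExp_ev N s P
  have h3 : MvPolynomial.aeval (fun p : ν × ν =>
      (1 + (X : Polynomial Ω) • N.map (algebraMap Ω _) : Matrix ν ν (Polynomial Ω)) p.1 p.2) P = 0 :=
    Polynomial.ext fun d => X_pow_dvd_iff.1 (igExp_step hN h2 d P hP) d (Nat.lt_succ_self d)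
  rw [h3, map_zero] at h1
  exact h1

end

end Pool.Agent.Lib.MP_33b3f9_ag
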