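import Pool.Agent.Lib.MP_33b3f9_ag.IgBlk

/-!
The commutant is commutative; stabilizers of finite sets.
-/

open Matrix

namespace Pool.Agent.Lib.MP_33b3f9_ag

variable {ν : Type} [Fintype ν] [DecidableEq ν] {Ω : Type*} [Field Ω] [CharZero Ω]
  {A : Submodule Ω (Matrix ν ν Ω)} {E : Matrix ν ν Ω}

omit [CharZero Ω] in
lemma igFin_eig (hdet : E.det ≠ 0) {C : Matrix ν ν Ω} {v : ν → Ω}
    (hC : C * sqm E v = sqm E v * C) : ∃ c : Ω, C *ᵥ v = c • v := by
  by_cases hv : v = 0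
  · exact ⟨0, by rw [hv, mulVec_zero, smul_zero]⟩
  obtain ⟨x, hx⟩ := trans_nondeg hdet hv
  have h := congrArg (fun M => M *ᵥ x) hC
  simp only [← mulVec_mulVec, sqm_mulVec, mulVec_smul] at h
  refine ⟨(x ⬝ᵥ E *ᵥ v)⁻¹ * ((C *ᵥ x) ⬝ᵥ E *ᵥ v), ?_⟩
  rw [mul_smul, ← h, smul_smul, inv_mul_cancel₀ hx, one_smul]

/-- Sketch: a matrix that commutes with `sqm E v` has `v` as an eigenvector (`sqm_mulVec`,
`trans_nondeg`), and these vectors span. -/
lemma BlkData.comm_comm (h : BlkData A E) {C C' : Matrix ν ν Ω}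
    (hC : ∀ v, sqm E v ∈ A → C * sqm E v = sqm E v * C)
    (hC' : ∀ v, sqm E v ∈ A → C' * sqm E v = sqm E v * C') : C * C' = C' * C := by
  refine Matrix.toLin'.injective (LinearMap.ext_on h.span fun v hv => ?_)
  obtain ⟨c, hc⟩ := igFin_eig h.det (hC v hv)
  obtain ⟨c', hc'⟩ := igFin_eig h.det (hC' v hv)
  rw [toLin'_apply, toLin'_apply, ← mulVec_mulVec, ← mulVec_mulVec, hc, hc', mulVec_smul,
    mulVec_smul, hc, hc', smul_comm]

/-- the pointwise stabilizer of a finite stable set has finite index: the kernel of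
`H →* Equiv.Perm F` (`Subgroup.finiteIndex_ker`), mapped to `Γ` -/
lemma fin_stab {Γ X : Type*} [Group Γ] (H : Subgroup Γ) [H.FiniteIndex] (act : Γ → X → X)
    (h1 : ∀ x, act 1 x = x) (hm : ∀ σ τ x, act (σ * τ) x = act σ (act τ x)) (F : Set X)
    (hF : F.Finite) (hst : ∀ σ ∈ H, ∀ x ∈ F, act σ x ∈ F) :
    ∃ U : Subgroup Γ, U ≤ H ∧ U.FiniteIndex ∧ ∀ σ ∈ U, ∀ x ∈ F, act σ x = x := by
  have := hF.to_subtype
  let _ : MulAction H F :=
    { smul := fun σ x => ⟨act σ x, hst σ σ.2 x x.2⟩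
      one_smul := fun x => Subtype.ext (h1 x)
      mul_smul := fun σ τ x => Subtype.ext (hm σ τ x) }
  have hk : (MulAction.toPermHom H F).ker.FiniteIndex := inferInstance
  refine ⟨(MulAction.toPermHom H F).ker.map H.subtype, Subgroup.map_subtype_le _, ⟨?_⟩, ?_⟩
  · rw [Subgroup.index_map_subtype]
    exact mul_ne_zero hk.index_ne_zero Subgroup.FiniteIndex.index_ne_zero
  · rintro _ ⟨σ, hσ, rfl⟩ x hx
    exact congrArg Subtype.val (Equiv.congr_fun (MonoidHom.mem_ker.1 hσ) ⟨x, hx⟩)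

end Pool.Agent.Lib.MP_33b3f9_ag
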