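import Pool.Agent.Lib.MP_33b3f9_ag.IgBlk

/-!
Symplectic matrices that preserve all blocks are products of transvections along blocks.
-/

open Matrix

namespace Pool.Agent.Lib.MP_33b3f9_ag

variable {ν : Type} [Fintype ν] [DecidableEq ν] {Ω : Type*} [Field Ω] [CharZero Ω]
  {A : Submodule Ω (Matrix ν ν Ω)} {E : Matrix ν ν Ω}

/-- a transvection along a block preserves all blocks (`trans_mulVec`, `eq_or_orth`) -/
lemma BlkData.trans_blk (h : BlkData A E) {W W' : Submodule Ω (ν → Ω)} (hW : Blk A E W)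
    (hW' : Blk A E W') {u : ν → Ω} (hu : u ∈ W) (c : Ω) {x : ν → Ω} (hx : x ∈ W') :
    (1 + c • sqm E u) *ᵥ x ∈ W' := by
  rw [trans_mulVec]
  rcases h.eq_or_orth hW' hW with e | e
  · subst e
    exact W'.add_mem hx (W'.smul_mem _ hu)
  · rw [e x hx u hu, mul_zero, zero_smul, add_zero]
    exact hx

lemma igGen_step (h : BlkData A E) (M : Submonoid (Matrix ν ν Ω))
    (hM : ∀ v, sqm E v ∈ A → ∀ c : Ω, 1 + c • sqm E v ∈ M) {g : Matrix ν ν Ω}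
    (hg : gᵀ * E * g = E) (hW : ∀ W, Blk A E W → ∀ x ∈ W, g *ᵥ x ∈ W)
    {W : Submodule Ω (ν → Ω)} (hB : Blk A E W) {z : ν → Ω} (hz : z ∈ W) (c : Ω) :
    ((1 + c • sqm E (g *ᵥ z - z)) * g)ᵀ * E * ((1 + c • sqm E (g *ᵥ z - z)) * g) = E ∧
      (∀ W', Blk A E W' → ∀ x ∈ W', ((1 + c • sqm E (g *ᵥ z - z)) * g) *ᵥ x ∈ W') ∧
      transFix g ≤ transFix ((1 + c • sqm E (g *ᵥ z - z)) * g) ∧
      ((1 + c • sqm E (g *ᵥ z - z)) * g ∈ M → g ∈ M) := by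
  have hE := h.skew
  have hu : g *ᵥ z - z ∈ W := W.sub_mem (hW W hB z hz) hz
  obtain ⟨a1, a2, -⟩ := trans_step hE ⊤ (fun _ _ => Submonoid.mem_top _) hg z c
  refine ⟨a1, fun W' hW' x hx => ?_, a2, fun h' => ?_⟩
  · rw [← mulVec_mulVec]
    exact h.trans_blk hB hW' hu c (hW W' hW' x hx)
  · have := M.mul_mem (hM (g *ᵥ z - z) (hB.sqm_mem hu) (-c)) h'
    rwa [← mul_assoc, trans_inv _ (trans_alt hE _), one_mul] at this

lemma igGen_stepA (h : BlkData A E) (M : Submonoid (Matrix ν ν Ω))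
    (hM : ∀ v, sqm E v ∈ A → ∀ c : Ω, 1 + c • sqm E v ∈ M) {g : Matrix ν ν Ω}
    (hg : gᵀ * E * g = E) (hW : ∀ W, Blk A E W → ∀ x ∈ W, g *ᵥ x ∈ W)
    {W : Submodule Ω (ν → Ω)} (hB : Blk A E W) {x : ν → Ω} (hxW : x ∈ W)
    (hx : x ⬝ᵥ E *ᵥ (g *ᵥ x) ≠ 0) :
    ∃ g' : Matrix ν ν Ω, g'ᵀ * E * g' = E ∧ (∀ W, Blk A E W → ∀ x ∈ W, g' *ᵥ x ∈ W) ∧
      transFix g < transFix g' ∧ (g' ∈ M → g ∈ M) := by
  have hE := h.skew
  obtain ⟨h1, h0, h2, h3⟩ := igGen_step h M hM hg hW hB hxW (-(x ⬝ᵥ E *ᵥ (g *ᵥ x))⁻¹)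
  refine ⟨_, h1, h0, lt_of_le_of_ne h2 fun e => ?_, h3⟩
  have h4 : x ∈ transFix g := by
    rw [e, mem_transFix, ← mulVec_mulVec, trans_mulVec, mulVec_sub, dotProduct_sub,
      trans_alt hE, trans_skew hE (g *ᵥ x) x, zero_sub, neg_neg, neg_mul, inv_mul_cancel₀ hx]
    simp
  rw [mem_transFix] at h4
  exact hx (by rw [h4, trans_alt hE])

omit [CharZero Ω] in
lemma igGen_surj {g : Matrix ν ν Ω} (hgd : g.det ≠ 0) {W : Submodule Ω (ν → Ω)}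
    (hW : ∀ x ∈ W, g *ᵥ x ∈ W) {y : ν → Ω} (hy : y ∈ W) : ∃ x ∈ W, g *ᵥ x = y := by
  let f : W →ₗ[Ω] W := (Matrix.toLin' g).restrict (p := W) (q := W) (fun x hx => by
    rw [toLin'_apply]
    exact hW x hx)
  have hf : Function.Injective f := by
    rw [← LinearMap.ker_eq_bot, LinearMap.ker_eq_bot']
    intro x hx
    have h1 : g *ᵥ (x : ν → Ω) = 0 := by
      have := congrArg Subtype.val hx
      simpa [f, LinearMap.restrict_apply] using this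
    exact Subtype.ext (eq_zero_of_mulVec_eq_zero hgd h1)
  obtain ⟨x, hx⟩ := LinearMap.injective_iff_surjective.mp hf ⟨y, hy⟩
  refine ⟨x, x.2, ?_⟩
  have := congrArg Subtype.val hx
  simpa [f, LinearMap.restrict_apply] using this

/-- Sketch: repeat `trans_step`, `trans_stepA`, `trans_stepB` of `Trans.lean` inside a block `W` on
which `g` is not the identity (`span`, `blk_exists`): all vectors `x`, `z` are taken in `W`, use
`nondeg` in place of `trans_nondeg` and surjectivity of `g` on `W` in place of `g⁻¹`. -/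
lemma BlkData.step (h : BlkData A E) (M : Submonoid (Matrix ν ν Ω))
    (hM : ∀ v, sqm E v ∈ A → ∀ c : Ω, 1 + c • sqm E v ∈ M) {g : Matrix ν ν Ω}
    (hg : gᵀ * E * g = E) (hW : ∀ W, Blk A E W → ∀ x ∈ W, g *ᵥ x ∈ W) (h1 : g ≠ 1) :
    ∃ g' : Matrix ν ν Ω, g'ᵀ * E * g' = E ∧ (∀ W, Blk A E W → ∀ x ∈ W, g' *ᵥ x ∈ W) ∧
      transFix g < transFix g' ∧ (g' ∈ M → g ∈ M) := by
  have hE := h.skew
  obtain ⟨z, hzA, hz⟩ : ∃ z, sqm E z ∈ A ∧ g *ᵥ z - z ≠ 0 := by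
    by_contra h'
    push Not at h'
    have h2 : Submodule.span Ω {v : ν → Ω | sqm E v ∈ A} ≤ transFix g :=
      Submodule.span_le.mpr fun v hv => mem_transFix.mpr (sub_eq_zero.mp (h' v hv))
    rw [h.span] at h2
    refine h1 (Matrix.toLin'.injective (LinearMap.ext fun z => ?_))
    rw [toLin'_apply, toLin'_apply, one_mulVec]
    exact mem_transFix.mp (h2 Submodule.mem_top)
  obtain ⟨W, hB, hzW⟩ := blk_exists hzA
  by_cases hA : ∃ x ∈ W, x ⬝ᵥ E *ᵥ (g *ᵥ x) ≠ 0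
  · obtain ⟨x, hxW, hx⟩ := hA
    exact igGen_stepA h M hM hg hW hB hxW hx
  push Not at hA
  have hgd : g.det ≠ 0 := by
    have := congrArg Matrix.det hg
    rw [det_mul, det_mul, det_transpose] at this
    refine fun h' => BlkData.det h ?_
    rw [← this, h', mul_zero]
  have hu : g *ᵥ z - z ∈ W := W.sub_mem (hW W hB z hzW) hzW
  obtain ⟨x₁, hx₁W, hx₁⟩ := h.nondeg hB hu hz
  obtain ⟨x, hxW, a1, a2⟩ : ∃ x ∈ W, x ⬝ᵥ E *ᵥ (g *ᵥ z - z) ≠ 0 ∧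
      (g *ᵥ x) ⬝ᵥ E *ᵥ (g *ᵥ z - z) ≠ 0 := by
    obtain ⟨y, hyW, e⟩ := igGen_surj hgd (hW W hB) hx₁W
    by_cases b1 : (g *ᵥ x₁) ⬝ᵥ E *ᵥ (g *ᵥ z - z) = 0
    · by_cases b2 : y ⬝ᵥ E *ᵥ (g *ᵥ z - z) = 0
      · refine ⟨x₁ + y, W.add_mem hx₁W hyW, ?_, ?_⟩
        · rwa [add_dotProduct, b2, add_zero]
        · rwa [mulVec_add, add_dotProduct, b1, zero_add, e]
      · exact ⟨_, hyW, b2, by rwa [e]⟩
    · exact ⟨x₁, hx₁W, hx₁, b1⟩
  obtain ⟨c1, c0, c2, c3⟩ := igGen_step h M hM hg hW hB hzW 1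
  obtain ⟨g', d1, d0, d2, d3⟩ := igGen_stepA h M hM c1 c0 hB hxW (by
    rw [← mulVec_mulVec x, trans_mulVec, mulVec_add, dotProduct_add, hA x hxW, zero_add,
      mulVec_smul, dotProduct_smul, one_mul, smul_eq_mul]
    exact mul_ne_zero a2 a1)
  exact ⟨g', d1, d0, c2.trans_lt d2, fun h => c3 (d3 h)⟩

/-- as `sp_gen` -/
theorem BlkData.gen (h : BlkData A E) (M : Submonoid (Matrix ν ν Ω))
    (hM : ∀ v, sqm E v ∈ A → ∀ c : Ω, 1 + c • sqm E v ∈ M) {g : Matrix ν ν Ω}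
    (hg : gᵀ * E * g = E) (hW : ∀ W, Blk A E W → ∀ x ∈ W, g *ᵥ x ∈ W) : g ∈ M := by
  have key : ∀ V : Submodule Ω (ν → Ω), ∀ g : Matrix ν ν Ω, gᵀ * E * g = E →
      (∀ W, Blk A E W → ∀ x ∈ W, g *ᵥ x ∈ W) → transFix g = V → g ∈ M := by
    intro V
    induction V using WellFoundedGT.induction with
    | ind V ih =>
      intro g hg hW hV
      by_cases h1 : g = 1
      · rw [h1]
        exact M.one_mem
      · obtain ⟨g', a1, a0, a2, a3⟩ := h.step M hM hg hW h1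
        exact a3 (ih _ (hV ▸ a2) g' a1 a0 rfl)
  exact key _ g hg hW rfl

end Pool.Agent.Lib.MP_33b3f9_ag
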