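import Pool.Agent.Lib.MP_33b3f9_ag.LieA

/-!
The symplectic group over a field is generated by transvections.
-/

open Matrix

namespace Pool.Agent.Lib.MP_33b3f9_ag

variable {ν : Type} [Fintype ν] [DecidableEq ν]

lemma trans_sp {A : Type*} [CommRing A] {E : Matrix ν ν A} (hE : Eᵀ = -E) (u : ν → A)
    (hu : u ⬝ᵥ E *ᵥ u = 0) (c : A) : (1 + c • sqm E u)ᵀ * E * (1 + c • sqm E u) = E := by
  have h1 : (sqm E u)ᵀ * E = -(E * sqm E u) := eq_neg_of_add_eq_zero_left (sqm_sp hE u)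
  have h2 : sqm E u * sqm E u = 0 := by
    rw [sqm, vecMulVec_mul_vecMulVec, dotProduct_comm, hu, zero_smul, vecMulVec_zero]
  rw [transpose_add, transpose_one, transpose_smul, add_mul, one_mul, smul_mul_assoc, h1, mul_add,
    mul_one, add_mul, mul_smul_comm, smul_mul_assoc, mul_smul_comm, neg_mul, mul_assoc, h2]
  simp

omit [DecidableEq ν] in
lemma trans_skew {A : Type*} [CommRing A] {E : Matrix ν ν A} (hE : Eᵀ = -E) (x y : ν → A) :
    x ⬝ᵥ E *ᵥ y = -(y ⬝ᵥ E *ᵥ x) := by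
  rw [dotProduct_mulVec, ← mulVec_transpose, hE, neg_mulVec, neg_dotProduct, dotProduct_comm]

omit [DecidableEq ν] in
lemma trans_alt {Ω : Type*} [Field Ω] [CharZero Ω] {E : Matrix ν ν Ω} (hE : Eᵀ = -E)
    (x : ν → Ω) : x ⬝ᵥ E *ᵥ x = 0 := by
  have := trans_skew hE x x
  linear_combination (1 / 2 : Ω) * this

omit [DecidableEq ν] in
lemma trans_conj {A : Type*} [CommRing A] (E g : Matrix ν ν A) (x y : ν → A) :
    (g *ᵥ x) ⬝ᵥ E *ᵥ (g *ᵥ y) = x ⬝ᵥ (gᵀ * E * g) *ᵥ y := by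
  rw [← mulVec_mulVec, ← mulVec_mulVec, dotProduct_mulVec x, vecMul_transpose]

lemma trans_mulVec {A : Type*} [CommRing A] (E : Matrix ν ν A) (u x : ν → A) (c : A) :
    (1 + c • sqm E u) *ᵥ x = x + (c * (x ⬝ᵥ E *ᵥ u)) • u := by
  rw [add_mulVec, one_mulVec, smul_mulVec, sqm_mulVec, smul_smul]

lemma trans_inv {A : Type*} [CommRing A] {E : Matrix ν ν A} (u : ν → A)
    (hu : u ⬝ᵥ E *ᵥ u = 0) (c : A) : (1 + (-c) • sqm E u) * (1 + c • sqm E u) = 1 := by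
  have h2 : sqm E u * sqm E u = 0 := by
    rw [sqm, vecMulVec_mul_vecMulVec, dotProduct_comm, hu, zero_smul, vecMulVec_zero]
  rw [add_mul, one_mul, mul_add, mul_one, smul_mul_assoc, mul_smul_comm, h2]
  simp

lemma trans_nondeg {Ω : Type*} [Field Ω] {E : Matrix ν ν Ω} (hdet : E.det ≠ 0) {v : ν → Ω}
    (hv : v ≠ 0) : ∃ x, x ⬝ᵥ E *ᵥ v ≠ 0 := by
  by_contra h
  push Not at h
  refine hv (eq_zero_of_mulVec_eq_zero hdet (funext fun i => ?_))
  simpa using h (Pi.single i 1)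

/-- the fixed space -/
def transFix {Ω : Type*} [Field Ω] (g : Matrix ν ν Ω) : Submodule Ω (ν → Ω) where
  carrier := {x | g *ᵥ x = x}
  zero_mem' := mulVec_zero g
  add_mem' := fun {x y} hx hy => by
    simp only [Set.mem_ofPred_eq] at hx hy ⊢
    rw [mulVec_add, hx, hy]
  smul_mem' := fun c x hx => by
    simp only [Set.mem_ofPred_eq] at hx ⊢
    rw [mulVec_smul, hx]

omit [DecidableEq ν] in
lemma mem_transFix {Ω : Type*} [Field Ω] {g : Matrix ν ν Ω} {x : ν → Ω} :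
    x ∈ transFix g ↔ g *ᵥ x = x := Iff.rfl

/-- multiplication by a transvection along `g z - z` -/
lemma trans_step {Ω : Type*} [Field Ω] [CharZero Ω] {E : Matrix ν ν Ω} (hE : Eᵀ = -E)
    (M : Submonoid (Matrix ν ν Ω)) (hM : ∀ (u : ν → Ω) (c : Ω), 1 + c • sqm E u ∈ M)
    {g : Matrix ν ν Ω} (hg : gᵀ * E * g = E) (z : ν → Ω) (c : Ω) :
    ((1 + c • sqm E (g *ᵥ z - z)) * g)ᵀ * E * ((1 + c • sqm E (g *ᵥ z - z)) * g) = E ∧
      transFix g ≤ transFix ((1 + c • sqm E (g *ᵥ z - z)) * g) ∧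
      ((1 + c • sqm E (g *ᵥ z - z)) * g ∈ M → g ∈ M) := by
  refine ⟨?_, fun y hy => ?_, fun h => ?_⟩
  · have := trans_sp hE (g *ᵥ z - z) (trans_alt hE _) c
    calc _ = gᵀ * ((1 + c • sqm E (g *ᵥ z - z))ᵀ * E * (1 + c • sqm E (g *ᵥ z - z))) * g := by
          rw [transpose_mul]
          simp only [mul_assoc]
      _ = E := by rw [this, hg]
  · rw [mem_transFix] at hy ⊢
    have h1 := trans_conj E g y z
    rw [hg, hy] at h1
    rw [← mulVec_mulVec, hy, trans_mulVec, mulVec_sub, dotProduct_sub, h1]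
    simp
  · have := M.mul_mem (hM (g *ᵥ z - z) (-c)) h
    rwa [← mul_assoc, trans_inv _ (trans_alt hE _), one_mul] at this

lemma trans_stepA {Ω : Type*} [Field Ω] [CharZero Ω] {E : Matrix ν ν Ω} (hE : Eᵀ = -E)
    (M : Submonoid (Matrix ν ν Ω)) (hM : ∀ (u : ν → Ω) (c : Ω), 1 + c • sqm E u ∈ M)
    {g : Matrix ν ν Ω} (hg : gᵀ * E * g = E) {x : ν → Ω} (hx : x ⬝ᵥ E *ᵥ (g *ᵥ x) ≠ 0) :
    ∃ g' : Matrix ν ν Ω, g'ᵀ * E * g' = E ∧ transFix g < transFix g' ∧ (g' ∈ M → g ∈ M) := by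
  obtain ⟨h1, h2, h3⟩ := trans_step hE M hM hg x (-(x ⬝ᵥ E *ᵥ (g *ᵥ x))⁻¹)
  refine ⟨_, h1, lt_of_le_of_ne h2 fun e => ?_, h3⟩
  have h4 : x ∈ transFix g := by
    rw [e, mem_transFix, ← mulVec_mulVec, trans_mulVec, mulVec_sub, dotProduct_sub,
      trans_alt hE, trans_skew hE (g *ᵥ x) x, zero_sub, neg_neg, neg_mul, inv_mul_cancel₀ hx]
    simp
  rw [mem_transFix] at h4
  exact hx (by rw [h4, trans_alt hE])

lemma trans_stepB {Ω : Type*} [Field Ω] [CharZero Ω] {E : Matrix ν ν Ω} (hE : Eᵀ = -E)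
    (hdet : E.det ≠ 0) (M : Submonoid (Matrix ν ν Ω))
    (hM : ∀ (u : ν → Ω) (c : Ω), 1 + c • sqm E u ∈ M)
    {g : Matrix ν ν Ω} (hg : gᵀ * E * g = E) (h1 : g ≠ 1) :
    ∃ g' : Matrix ν ν Ω, g'ᵀ * E * g' = E ∧ transFix g < transFix g' ∧ (g' ∈ M → g ∈ M) := by
  by_cases hA : ∃ x, x ⬝ᵥ E *ᵥ (g *ᵥ x) ≠ 0
  · obtain ⟨x, hx⟩ := hA
    exact trans_stepA hE M hM hg hx
  push Not at hA
  obtain ⟨z, hz⟩ : ∃ z, g *ᵥ z - z ≠ 0 := by
    by_contra h
    push Not at h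
    refine h1 (Matrix.toLin'.injective (LinearMap.ext fun z => ?_))
    rw [toLin'_apply, toLin'_apply, one_mulVec]
    exact sub_eq_zero.mp (h z)
  have hgd : IsUnit g.det := by
    have := congrArg det hg
    rw [det_mul, det_mul, det_transpose] at this
    refine isUnit_iff_ne_zero.mpr fun h => hdet ?_
    rw [← this, h, mul_zero]
  obtain ⟨x₁, hx₁⟩ := trans_nondeg hdet hz
  obtain ⟨x, a1, a2⟩ : ∃ x, x ⬝ᵥ E *ᵥ (g *ᵥ z - z) ≠ 0 ∧ (g *ᵥ x) ⬝ᵥ E *ᵥ (g *ᵥ z - z) ≠ 0 := by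
    have e : g *ᵥ (g⁻¹ *ᵥ x₁) = x₁ := by rw [mulVec_mulVec, mul_nonsing_inv _ hgd, one_mulVec]
    by_cases b1 : (g *ᵥ x₁) ⬝ᵥ E *ᵥ (g *ᵥ z - z) = 0
    · by_cases b2 : (g⁻¹ *ᵥ x₁) ⬝ᵥ E *ᵥ (g *ᵥ z - z) = 0
      · refine ⟨x₁ + g⁻¹ *ᵥ x₁, ?_, ?_⟩
        · rwa [add_dotProduct, b2, add_zero]
        · rwa [mulVec_add, add_dotProduct, b1, zero_add, e]
      · exact ⟨_, b2, by rwa [e]⟩
    · exact ⟨x₁, hx₁, b1⟩
  obtain ⟨c1, c2, c3⟩ := trans_step hE M hM hg z 1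
  obtain ⟨g', d1, d2, d3⟩ := trans_stepA hE M hM c1 (x := x) (by
    rw [← mulVec_mulVec x, trans_mulVec, mulVec_add, dotProduct_add, hA, zero_add, mulVec_smul,
      dotProduct_smul, one_mul, smul_eq_mul]
    exact mul_ne_zero a2 a1)
  exact ⟨g', d1, c2.trans_lt d2, fun h => c3 (d3 h)⟩

/-- a submonoid of matrices that contains all transvections contains `Sp(E)` -/
theorem sp_gen {Ω : Type*} [Field Ω] [CharZero Ω] {E : Matrix ν ν Ω} (hE : Eᵀ = -E)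
    (hdet : E.det ≠ 0) (M : Submonoid (Matrix ν ν Ω))
    (hM : ∀ (u : ν → Ω) (c : Ω), 1 + c • sqm E u ∈ M) {g : Matrix ν ν Ω}
    (hg : gᵀ * E * g = E) : g ∈ M := by
  have key : ∀ W : Submodule Ω (ν → Ω), ∀ g : Matrix ν ν Ω, gᵀ * E * g = E → transFix g = W →
      g ∈ M := by
    intro W
    induction W using WellFoundedGT.induction with
    | ind W ih =>
      intro g hg hW
      by_cases h1 : g = 1
      · rw [h1]
        exact M.one_mem
      · obtain ⟨g', a1, a2, a3⟩ := trans_stepB hE hdet M hM hg h1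
        exact a3 (ih _ (hW ▸ a2) g' a1 rfl)
  exact key _ g hg rfl

/-- an alternating form whose similitude group contains all transvections of `E` is a multiple
of `E` -/
theorem prop_of_trans {Ω : Type*} [Field Ω] [CharZero Ω] {E ψ : Matrix ν ν Ω} (hE : Eᵀ = -E)
    (hdet : E.det ≠ 0) (hψ : ψᵀ = -ψ)
    (h : ∀ u : ν → Ω, ∃ m : Ω, (1 + sqm E u)ᵀ * ψ * (1 + sqm E u) = m • ψ) :
    ∃ c : Ω, ψ = c • E := by
  have k1 : ∀ u : ν → Ω, ∃ c : Ω, ψ *ᵥ u = c • E *ᵥ u := by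
    intro u
    by_cases h0 : ψ *ᵥ u = 0
    · exact ⟨0, by rw [h0, zero_smul]⟩
    have hu : u ≠ 0 := fun e => h0 (by rw [e, mulVec_zero])
    obtain ⟨m, hm⟩ := h u
    have k : ∀ x y : ν → Ω, x ⬝ᵥ ψ *ᵥ y + (y ⬝ᵥ E *ᵥ u) * (x ⬝ᵥ ψ *ᵥ u) -
        (x ⬝ᵥ E *ᵥ u) * (y ⬝ᵥ ψ *ᵥ u) = m * (x ⬝ᵥ ψ *ᵥ y) := by
      intro x y
      have := trans_conj ψ (1 + sqm E u) x y
      rw [hm, smul_mulVec, dotProduct_smul, smul_eq_mul] at this
      rw [← this]
      simp only [add_mulVec, one_mulVec, sqm_mulVec, mulVec_add, mulVec_smul, dotProduct_add,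
        add_dotProduct, dotProduct_smul, smul_dotProduct, smul_eq_mul]
      rw [trans_alt hψ u, trans_skew hψ u y]
      ring
    obtain ⟨x, hx⟩ : ∃ x, x ⬝ᵥ ψ *ᵥ u ≠ 0 := by
      by_contra h
      push Not at h
      exact h0 (funext fun i => by simpa using h (Pi.single i 1))
    have hm1 : m = 1 := by
      have := k x u
      rw [trans_alt hE u, trans_alt hψ u] at this
      exact mul_right_cancel₀ hx (by linear_combination -this)
    obtain ⟨y, hy⟩ := trans_nondeg hdet hu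
    refine ⟨(y ⬝ᵥ ψ *ᵥ u) / (y ⬝ᵥ E *ᵥ u), funext fun i => ?_⟩
    have := k (Pi.single i 1) y
    rw [hm1, single_one_dotProduct, single_one_dotProduct, single_one_dotProduct] at this
    rw [Pi.smul_apply, smul_eq_mul]
    field_simp
    linear_combination this
  choose c hc using k1
  have k2 : ∀ i j : ν, c (Pi.single i 1) = c (Pi.single j 1) := by
    intro i j
    by_cases hij : i = j
    · rw [hij]
    have h1 := hc (Pi.single i 1 + Pi.single j 1)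
    rw [mulVec_add, hc, hc] at h1
    have h2 : E *ᵥ (c (Pi.single i 1) • Pi.single i 1 + c (Pi.single j 1) • Pi.single j 1 -
        c (Pi.single i 1 + Pi.single j 1) • (Pi.single i 1 + Pi.single j 1)) = 0 := by
      rw [mulVec_sub, mulVec_add, mulVec_smul, mulVec_smul, mulVec_smul, h1, sub_self]
    have h3 := eq_zero_of_mulVec_eq_zero hdet h2
    have h4 := congrFun h3 i
    have h5 := congrFun h3 j
    simp [hij, Ne.symm hij] at h4 h5
    linear_combination h4 - h5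
  rcases isEmpty_or_nonempty ν with hν | ⟨⟨i⟩⟩
  · exact ⟨0, Subsingleton.elim _ _⟩
  refine ⟨c (Pi.single i 1), Matrix.ext fun a b => ?_⟩
  have := congrFun (hc (Pi.single b 1)) a
  rw [k2 b i] at this
  simpa using this

end Pool.Agent.Lib.MP_33b3f9_ag
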