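import Pool.Agent.Lib.MP_33b3f9_ag.IgRank
import Pool.Agent.Lib.MP_33b3f9_ag.Trans

/-!
The matrix form of the structure theorem.
-/

open Matrix

namespace Pool.Agent.Lib.MP_33b3f9_ag

variable {ν : Type} [Fintype ν] [DecidableEq ν] {Ω : Type*} [Field Ω] [CharZero Ω] [IsAlgClosed Ω]

attribute [local instance 100] LieRing.ofAssociativeRing

omit [CharZero Ω] [IsAlgClosed Ω] in
lemma igMat_br {E Y Z : Matrix ν ν Ω} {A : Submodule Ω (Matrix ν ν Ω)}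
    (hA : ∀ Y ∈ A, ∀ Z ∈ A, Y * Z - Z * Y ∈ A) {c d : Ω} (hY : Y + c • (1 : Matrix ν ν Ω) ∈ A)
    (hZ : Z + d • (1 : Matrix ν ν Ω) ∈ A) (h1 : Yᵀ * E + E * Y = 0) (h2 : Zᵀ * E + E * Z = 0) :
    Y * Z - Z * Y ∈ A ∧ (Y * Z - Z * Y)ᵀ * E + E * (Y * Z - Z * Y) = 0 ∧
      ⁅toLin' Y, toLin' Z⁆ = toLin' (Y * Z - Z * Y) := by
  refine ⟨?_, ?_, ?_⟩
  · have := hA _ hY _ hZ
    convert this using 1
    simp only [add_mul, mul_add, smul_mul_assoc, mul_smul_comm, one_mul, mul_one, smul_add,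
      smul_smul, mul_comm c d]
    abel
  · have h3 : Yᵀ * E = -(E * Y) := eq_neg_of_add_eq_zero_left h1
    have h4 : Zᵀ * E = -(E * Z) := eq_neg_of_add_eq_zero_left h2
    rw [transpose_sub, transpose_mul, transpose_mul, sub_mul, mul_assoc, mul_assoc, h3, h4, mul_neg,
      mul_neg, ← mul_assoc, ← mul_assoc, h3, h4, mul_sub]
    simp only [neg_mul, neg_neg, mul_assoc]
    abel
  · rw [map_sub, toLin'_mul, toLin'_mul]
    rfl

/-- the symplectic parts of the elements of `A` -/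
def igMat_L (E : Matrix ν ν Ω) (A : Submodule Ω (Matrix ν ν Ω))
    (hA : ∀ Y ∈ A, ∀ Z ∈ A, Y * Z - Z * Y ∈ A) : LieSubalgebra Ω (Module.End Ω (ν → Ω)) where
  carrier := {f | ∃ (Z : Matrix ν ν Ω) (c : Ω), Zᵀ * E + E * Z = 0 ∧
    Z + c • (1 : Matrix ν ν Ω) ∈ A ∧ toLin' Z = f}
  zero_mem' := ⟨0, 0, by simp, by simp, map_zero _⟩
  add_mem' := by
    rintro _ _ ⟨Y, c, h1, h2, rfl⟩ ⟨Z, d, h3, h4, rfl⟩
    refine ⟨Y + Z, c + d, ?_, ?_, map_add _ _ _⟩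
    · rw [transpose_add, add_mul, mul_add, add_add_add_comm, h1, h3, add_zero]
    · rw [add_smul, add_add_add_comm]
      exact A.add_mem h2 h4
  smul_mem' := by
    rintro a _ ⟨Y, c, h1, h2, rfl⟩
    refine ⟨a • Y, a * c, ?_, ?_, map_smul _ _ _⟩
    · rw [transpose_smul, smul_mul_assoc, mul_smul_comm, ← smul_add, h1, smul_zero]
    · rw [mul_smul, ← smul_add]
      exact A.smul_mem a h2
  lie_mem' := by
    rintro _ _ ⟨Y, c, h1, h2, rfl⟩ ⟨Z, d, h3, h4, rfl⟩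
    obtain ⟨h5, h6, h7⟩ := igMat_br hA h2 h4 h1 h3
    exact ⟨_, 0, h6, by rwa [zero_smul, add_zero], h7.symm⟩

omit [DecidableEq ν] [CharZero Ω] [IsAlgClosed Ω] in
lemma igMat_inv {E Z : Matrix ν ν Ω} (h : Zᵀ * E + E * Z = 0) (v w : ν → Ω) :
    (Z *ᵥ v) ⬝ᵥ E *ᵥ w = -(v ⬝ᵥ (E * Z) *ᵥ w) := by
  rw [← vecMul_transpose, ← dotProduct_mulVec, mulVec_mulVec, eq_neg_of_add_eq_zero_left h,
    neg_mulVec, dotProduct_neg]

/-- Sketch: let `L` be the Lie subalgebra of `Module.End Ω (ν → Ω)` (with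
`attribute [local instance 100] LieRing.ofAssociativeRing`) of all `toLin' Z` with
`Zᵀ * E + E * Z = 0` and `Z + c • 1 ∈ A` for some `c`; `B = toBilin' E`; check `NZData L B`.
A bracket of two elements of `L` comes from `A`; compare with `sqm_mulVec`. -/
theorem span_sqm {E : Matrix ν ν Ω} (hE : Eᵀ = -E) (hdet : E.det ≠ 0)
    (A : Submodule Ω (Matrix ν ν Ω)) (hA : ∀ Y ∈ A, ∀ Z ∈ A, Y * Z - Z * Y ∈ A)
    (hnz : ∀ v : ν → Ω, v ≠ 0 → ∃ (Z : Matrix ν ν Ω) (c : Ω), Zᵀ * E + E * Z = 0 ∧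
      Z + c • (1 : Matrix ν ν Ω) ∈ A ∧ v ⬝ᵥ (E * Z) *ᵥ v ≠ 0) :
    Submodule.span Ω {v : ν → Ω | sqm E v ∈ A} = ⊤ := by
  have hN : NZData (igMat_L E A hA) (toBilin' E) := by
    refine ⟨fun v => ?_, fun v hv => ?_, ?_, fun v hv => ?_, fun y hy => ?_⟩
    · rw [toBilin'_apply', trans_alt hE]
    · by_contra h0
      obtain ⟨x, hx⟩ := trans_nondeg hdet h0
      exact hx (by rw [← toBilin'_apply', hv])
    · rintro ⟨_, Z, c, h1, h2, rfl⟩ v w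
      rw [toBilin'_apply', toBilin'_apply']
      have := igMat_inv h1 v w
      rw [← mulVec_mulVec] at this
      exact this
    · obtain ⟨Z, c, h1, h2, h3⟩ := hnz v hv
      refine ⟨⟨_, Z, c, h1, h2, rfl⟩, ?_⟩
      rw [toBilin'_apply']
      exact (igMat_inv h1 v v).trans_ne (neg_ne_zero.2 h3)
    · exact Subtype.ext (LinearMap.ext hy)
  refine top_le_iff.1 (hN.span_eq_top.ge.trans (Submodule.span_mono ?_))
  rintro u ⟨⟨_, Y, c, h1, h2, rfl⟩, ⟨_, Z, d, h3, h4, rfl⟩, h⟩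
  obtain ⟨h5, -, h7⟩ := igMat_br hA h2 h4 h1 h3
  have h8 : sqm E u = Y * Z - Z * Y := by
    refine toLin'.injective (LinearMap.ext fun x => ?_)
    rw [← h7, toLin'_apply, sqm_mulVec, ← toBilin'_apply']
    exact (h x).symm
  rw [← h8] at h5
  exact h5

end Pool.Agent.Lib.MP_33b3f9_ag
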