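import Mathlib

/-!
The 2-adic filtration of a matrix group: leading terms.
-/

open Matrix

namespace Pool.Agent.Lib.MP_33b3f9_ag

noncomputable section

variable {ν : Type} [Fintype ν] [DecidableEq ν] {Γ : Type*} [Group Γ]

/-- reduction mod 2 -/
abbrev red : ℤ_[2] →+* ZMod 2 := PadicInt.toZMod

lemma red_eq_zero_iff (x : ℤ_[2]) : red x = 0 ↔ ∃ y, x = 2 * y := by
  rw [← RingHom.mem_ker, PadicInt.ker_toZMod, PadicInt.maximalIdeal_eq_span_p,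
    Ideal.mem_span_singleton]
  exact Iff.rfl

omit [Fintype ν] [DecidableEq ν] in
lemma map_red_eq_iff (X Y : Matrix ν ν ℤ_[2]) :
    X.map red = Y.map red ↔ ∃ Z : Matrix ν ν ℤ_[2], X = Y + (2 : ℤ_[2]) • Z := by
  constructor
  · intro h
    have h1 : ∀ i j, ∃ z, X i j - Y i j = 2 * z := by
      intro i j
      rw [← red_eq_zero_iff, map_sub, sub_eq_zero]
      exact congrFun (congrFun h i) j
    choose Z hZ using h1
    refine ⟨Matrix.of Z, ?_⟩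
    ext i j
    simp only [Matrix.add_apply, Matrix.smul_apply, Matrix.of_apply, smul_eq_mul]
    rw [← hZ, add_sub_cancel]
  · rintro ⟨Z, rfl⟩
    ext i j
    have h2 : red (2 * Z i j) = 0 := (red_eq_zero_iff _).2 ⟨_, rfl⟩
    simp only [Matrix.map_apply, Matrix.add_apply, Matrix.smul_apply, smul_eq_mul, map_add, h2,
      add_zero]

omit [Fintype ν] [DecidableEq ν] in
lemma lev_map_add (X Y : Matrix ν ν ℤ_[2]) : (X + Y).map red = X.map red + Y.map red :=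
  Matrix.map_add _ (map_add red) X Y

omit [Fintype ν] [DecidableEq ν] in
lemma lev_map_sub (X Y : Matrix ν ν ℤ_[2]) : (X - Y).map red = X.map red - Y.map red :=
  Matrix.map_sub _ (map_sub red) X Y

omit [Fintype ν] [DecidableEq ν] in
lemma lev_map_pow {n : ℕ} (hn : 1 ≤ n) (X Z : Matrix ν ν ℤ_[2]) :
    (X + (2 : ℤ_[2]) ^ n • Z).map red = X.map red := by
  obtain ⟨k, rfl⟩ := Nat.exists_eq_add_of_le' hn
  exact (map_red_eq_iff _ _).2 ⟨(2 : ℤ_[2]) ^ k • Z, by rw [smul_smul, pow_succ']⟩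

lemma lev_mul_eq (n : ℕ) (X X' : Matrix ν ν ℤ_[2]) :
    (1 + (2 : ℤ_[2]) ^ n • X) * (1 + (2 : ℤ_[2]) ^ n • X') =
      1 + (2 : ℤ_[2]) ^ n • (X + X' + (2 : ℤ_[2]) ^ n • (X * X')) := by
  simp only [add_mul, mul_add, one_mul, mul_one, smul_add, smul_mul_assoc, mul_smul_comm]
  abel

lemma lev_sq_eq (n : ℕ) (X : Matrix ν ν ℤ_[2]) :
    (1 + (2 : ℤ_[2]) ^ (n + 1) • X) * (1 + (2 : ℤ_[2]) ^ (n + 1) • X) =
      1 + (2 : ℤ_[2]) ^ (n + 2) • (X + (2 : ℤ_[2]) ^ n • (X * X)) := by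
  rw [lev_mul_eq, ← two_smul ℤ_[2] X, pow_succ' _ n, mul_smul _ _ (X * X), ← smul_add, smul_smul]
  congr 2
  ring

/-- `Y` is the leading term at level `n` of an element of `H` -/
def Lev (r : Γ →* Matrix ν ν ℤ_[2]) (H : Subgroup Γ) (n : ℕ) (Y : Matrix ν ν (ZMod 2)) : Prop :=
  ∃ σ ∈ H, ∃ X : Matrix ν ν ℤ_[2], r σ = 1 + (2 : ℤ_[2]) ^ n • X ∧ X.map red = Y

variable (r : Γ →* Matrix ν ν ℤ_[2])

lemma lev_zero (H : Subgroup Γ) (n : ℕ) : Lev r H n 0 := by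
  exact ⟨1, H.one_mem, 0, by simp, by simp⟩

variable {r}

lemma Lev.add {H : Subgroup Γ} {n : ℕ} (hn : 1 ≤ n) {Y Y' : Matrix ν ν (ZMod 2)}
    (h : Lev r H n Y) (h' : Lev r H n Y') : Lev r H n (Y + Y') := by
  obtain ⟨σ, hσ, X, h1, rfl⟩ := h
  obtain ⟨σ', hσ', X', h1', rfl⟩ := h'
  exact ⟨σ * σ', H.mul_mem hσ hσ', _, by rw [map_mul, h1, h1', lev_mul_eq],
    by rw [lev_map_pow hn, lev_map_add]⟩

lemma Lev.one_sq {H : Subgroup Γ} {Y : Matrix ν ν (ZMod 2)} (h : Lev r H 1 Y) :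
    Lev r H 2 (Y + Y * Y) := by
  obtain ⟨σ, hσ, X, h1, rfl⟩ := h
  refine ⟨σ * σ, H.mul_mem hσ hσ, X + X * X, ?_, by rw [lev_map_add, Matrix.map_mul]⟩
  have h2 := lev_sq_eq 0 X
  rw [pow_zero, one_smul] at h2
  rw [map_mul, h1]
  exact h2

lemma Lev.succ {H : Subgroup Γ} {n : ℕ} (hn : 2 ≤ n) {Y : Matrix ν ν (ZMod 2)}
    (h : Lev r H n Y) : Lev r H (n + 1) Y := by
  obtain ⟨σ, hσ, X, h1, rfl⟩ := h
  obtain ⟨k, rfl⟩ : ∃ k, n = k + 1 := ⟨n - 1, by omega⟩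
  exact ⟨σ * σ, H.mul_mem hσ hσ, _, by rw [map_mul, h1, lev_sq_eq], lev_map_pow (by omega) _ _⟩

lemma Lev.mono {H : Subgroup Γ} {n m : ℕ} (hn : 2 ≤ n) (hnm : n ≤ m) {Y : Matrix ν ν (ZMod 2)}
    (h : Lev r H n Y) : Lev r H m Y := by
  induction m, hnm using Nat.le_induction with
  | base => exact h
  | succ m hm ih => exact ih.succ (hn.trans hm)

/-- exact form of a commutator -/
lemma comm_eq {σ τ : Γ} {m n : ℕ} (hm : 1 ≤ m) (hn : 1 ≤ n) {X Y : Matrix ν ν ℤ_[2]}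
    (hσ : r σ = 1 + (2 : ℤ_[2]) ^ m • X) (hτ : r τ = 1 + (2 : ℤ_[2]) ^ n • Y) :
    ∃ W : Matrix ν ν ℤ_[2], W.map red = 1 ∧
      r (σ * τ * σ⁻¹ * τ⁻¹) = 1 + (2 : ℤ_[2]) ^ (m + n) • ((X * Y - Y * X) * W) := by
  have h1 : r τ * r σ * r (σ⁻¹ * τ⁻¹) = 1 := by
    rw [← map_mul, ← map_mul, ← map_one r]
    congr 1
    group
  have h2 : r σ * r τ = r τ * r σ + (2 : ℤ_[2]) ^ (m + n) • (X * Y - Y * X) := by
    rw [hσ, hτ]
    simp only [add_mul, mul_add, one_mul, mul_one, smul_mul_assoc, mul_smul_comm, pow_add]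
    module
  refine ⟨r (σ⁻¹ * τ⁻¹), ?_, ?_⟩
  · have h3 := congrArg (fun M : Matrix ν ν ℤ_[2] => M.map red) h1
    simp only [Matrix.map_mul] at h3
    rw [hσ, hτ, lev_map_pow hm, lev_map_pow hn, Matrix.map_one _ (map_zero red) (map_one red),
      one_mul, one_mul] at h3
    exact h3
  · rw [mul_assoc (σ * τ), map_mul, map_mul r σ τ, h2, add_mul, h1, smul_mul_assoc]

lemma Lev.comm {H H' : Subgroup Γ} (hH : ∀ σ ∈ H, ∀ τ ∈ H, σ * τ * σ⁻¹ * τ⁻¹ ∈ H') {m n : ℕ}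
    (hm : 1 ≤ m) (hn : 1 ≤ n) {Y Y' : Matrix ν ν (ZMod 2)} (h : Lev r H m Y)
    (h' : Lev r H n Y') : Lev r H' (m + n) (Y * Y' - Y' * Y) := by
  obtain ⟨σ, hσ, X, h1, rfl⟩ := h
  obtain ⟨τ, hτ, X', h1', rfl⟩ := h'
  obtain ⟨W, hW, h2⟩ := comm_eq hm hn h1 h1'
  refine ⟨_, hH σ hσ τ hτ, _, h2, ?_⟩
  rw [Matrix.map_mul, hW, mul_one, lev_map_sub, Matrix.map_mul, Matrix.map_mul]

lemma lev_pow_odd {σ : Γ} {n : ℕ} (hn : 1 ≤ n) {X : Matrix ν ν ℤ_[2]}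
    (hσ : r σ = 1 + (2 : ℤ_[2]) ^ n • X) (k : ℕ) : ∃ X' : Matrix ν ν ℤ_[2],
      r (σ ^ (2 * k + 1)) = 1 + (2 : ℤ_[2]) ^ n • X' ∧ X'.map red = X.map red := by
  induction k with
  | zero => exact ⟨X, by simpa using hσ, rfl⟩
  | succ k ih =>
    obtain ⟨X', h1, h2⟩ := ih
    refine ⟨_, by rw [show 2 * (k + 1) + 1 = 2 * k + 1 + 1 + 1 by ring, pow_succ, pow_succ,
      map_mul, map_mul, h1, hσ, lev_mul_eq, lev_mul_eq], ?_⟩
    rw [lev_map_pow hn, lev_map_add, lev_map_pow hn, lev_map_add, h2]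
    ext i j
    simp only [Matrix.add_apply, CharTwo.add_self_eq_zero, zero_add]

lemma lev_pow_two {σ : Γ} {n : ℕ} (hn : 2 ≤ n) {X : Matrix ν ν ℤ_[2]}
    (hσ : r σ = 1 + (2 : ℤ_[2]) ^ n • X) (c : ℕ) : ∃ X' : Matrix ν ν ℤ_[2],
      r (σ ^ 2 ^ c) = 1 + (2 : ℤ_[2]) ^ (n + c) • X' ∧ X'.map red = X.map red := by
  induction c with
  | zero => exact ⟨X, by simpa using hσ, rfl⟩
  | succ c ih =>
    obtain ⟨X', h1, h2⟩ := ih
    obtain ⟨k, hk⟩ : ∃ k, n + c = k + 1 := ⟨n + c - 1, by omega⟩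
    refine ⟨X' + (2 : ℤ_[2]) ^ k • (X' * X'), ?_, ?_⟩
    · rw [pow_succ, pow_mul, pow_two, map_mul, h1, ← add_assoc, hk, lev_sq_eq]
    · rw [lev_map_pow (by omega), h2]

/-- passing to a subgroup of finite index shifts the level -/
lemma exists_shift (U : Subgroup Γ) [U.FiniteIndex] : ∃ c : ℕ, ∀ (H : Subgroup Γ) (n : ℕ),
    2 ≤ n → ∀ Y, Lev r H n Y → Lev r (H ⊓ U) (n + c) Y := by
  obtain ⟨c, m, ⟨k, rfl⟩, hm⟩ := Nat.exists_eq_two_pow_mul_odd (Nat.factorial_ne_zero U.index)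
  refine ⟨c, fun H n hn Y h => ?_⟩
  obtain ⟨σ, hσ, X, h1, rfl⟩ := h
  obtain ⟨X₁, h2, h3⟩ := lev_pow_two hn h1 c
  obtain ⟨X₂, h4, h5⟩ := lev_pow_odd (by omega) h2 k
  refine ⟨_, Subgroup.mem_inf.2 ⟨H.pow_mem (H.pow_mem hσ _) _, ?_⟩, X₂, h4, h5.trans h3⟩
  rw [← pow_mul, ← hm]
  exact Subgroup.pow_mem_of_index_ne_zero_of_dvd Subgroup.FiniteIndex.index_ne_zero σ
    fun m h0 h1 => Nat.dvd_factorial h0 h1

variable (r) in
/-- the stable space of leading terms -/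
def Linf (H : Subgroup Γ) : AddSubgroup (Matrix ν ν (ZMod 2)) where
  carrier := {Y | ∃ n, 2 ≤ n ∧ Lev r H n Y}
  zero_mem' := ⟨2, le_rfl, lev_zero r H 2⟩
  add_mem' := by
    rintro Y Y' ⟨n, hn, h⟩ ⟨m, hm, h'⟩
    exact ⟨max n m, le_max_of_le_left hn, (h.mono hn (le_max_left _ _)).add
      (by omega) (h'.mono hm (le_max_right _ _))⟩
  neg_mem' := by
    rintro Y ⟨n, hn, h⟩
    refine ⟨n, hn, ?_⟩
    have : -Y = Y := by ext i j; simp [ZMod.neg_eq_self_mod_two]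
    rwa [this]

lemma mem_Linf {H : Subgroup Γ} {Y : Matrix ν ν (ZMod 2)} :
    Y ∈ Linf r H ↔ ∃ n, 2 ≤ n ∧ Lev r H n Y := Iff.rfl

end

end Pool.Agent.Lib.MP_33b3f9_ag
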