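import Pool.Agent.Lib.MP_33b3f9_ag.IgLim
import Pool.Agent.Lib.MP_33b3f9_ag.Lev

/-!
Quadratic forms whose diagonals span mod 2 have no common zero.
-/

open Matrix

namespace Pool.Agent.Lib.MP_33b3f9_ag

noncomputable section

variable {ν : Type} [Fintype ν] [DecidableEq ν]

omit [DecidableEq ν] in
lemma igNZ_split {R : Type} [CommRing R] (P : AddSubmonoid R) {f : ν → ν → R}
    (hf : ∀ i j, f i j = f j i) (hP : ∀ i j, f i j ∈ P) :
    ∃ y ∈ P, ∑ i, ∑ j, f i j = ∑ i, f i i + 2 * y := by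
  classical
  generalize (Finset.univ : Finset ν) = s
  induction s using Finset.induction_on with
  | empty => exact ⟨0, zero_mem _, by simp⟩
  | insert a s ha ih =>
    obtain ⟨y, hy, e⟩ := ih
    refine ⟨y + ∑ j ∈ s, f a j, add_mem hy (sum_mem fun j _ => hP a j), ?_⟩
    simp only [Finset.sum_insert ha, Finset.sum_add_distrib, e, fun i => hf i a]
    ring

/-- the closed unit ball -/
def igNZ_ball : Subsemiring Qb where
  carrier := {x | ‖x‖ ≤ 1}
  mul_mem' ha hb := (norm_mul_le _ _).trans (mul_le_one₀ ha (norm_nonneg _) hb)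
  one_mem' := norm_one.le
  add_mem' ha hb := (IsUltrametricDist.norm_add_le_max _ _).trans (max_le ha hb)
  zero_mem' := norm_zero.le.trans zero_le_one

lemma igNZ_mem (x : ℤ_[2]) : toΩ Qb x ∈ igNZ_ball := (norm_toΩ x).le.trans x.norm_le_one

lemma igNZ_two {x y : Qb} (hx : ‖x‖ < 1) (hy : y ∈ igNZ_ball) : ‖x - 2 * y‖ < 1 := by
  have h1 : ‖(2 : Qb)‖ < 1 := by
    rw [← map_ofNat (toΩ Qb) 2, norm_toΩ]
    exact (PadicInt.norm_p (p := 2)).trans_lt (by norm_num)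
  rw [sub_eq_add_neg]
  refine (IsUltrametricDist.norm_add_le_max _ _).trans_lt (max_lt hx ?_)
  rw [norm_neg, norm_mul]
  exact mul_lt_one_of_nonneg_of_lt_one_left (norm_nonneg _) h1 hy

omit [DecidableEq ν] in
/-- mod 2 the quadratic form of a symmetric matrix is given by the diagonal -/
lemma igNZ_diag {S : Matrix ν ν (ZMod 2)} (hS : Sᵀ = S) (x : ν → ZMod 2) :
    x ⬝ᵥ S *ᵥ x = ∑ i, S i i * x i := by
  obtain ⟨y, -, e⟩ := igNZ_split ⊤ (f := fun i j => x i * (S i j * x j))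
    (fun i j => by rw [show S j i = S i j from congrFun (congrFun hS i) j]; ring) fun _ _ => trivial
  have h : ∀ a b : ZMod 2, a * (b * a) = b * a := by decide
  simp only [dotProduct, mulVec, Finset.mul_sum, e, h]
  rw [show (2 : ZMod 2) = 0 from rfl, zero_mul, add_zero]

omit [DecidableEq ν] in
/-- the off-diagonal part is divisible by 2; `Qb` is ultrametric and `‖2‖ < 1` -/
lemma igNZ_norm {S : Matrix ν ν ℤ_[2]} (hS : Sᵀ = S) {v : ν → Qb} (hv : ∀ i, ‖v i‖ ≤ 1)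
    (h0 : v ⬝ᵥ S.map (toΩ Qb) *ᵥ v = 0) : ‖∑ i, toΩ Qb (S i i) * v i ^ 2‖ < 1 := by
  obtain ⟨y, hy, e⟩ := igNZ_split igNZ_ball.toAddSubmonoid
    (f := fun i j => v i * (toΩ Qb (S i j) * v j))
    (fun i j => by rw [show S j i = S i j from congrFun (congrFun hS i) j]; ring)
    fun i j => igNZ_ball.mul_mem (hv i) (igNZ_ball.mul_mem (igNZ_mem _) (hv j))
  simp only [dotProduct, mulVec, Finset.mul_sum, map_apply, e] at h0
  have h1 := igNZ_two (x := 0) (by simp) hy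
  rw [← h0, add_sub_cancel_right] at h1
  simpa only [sq, mul_left_comm] using h1

omit [DecidableEq ν] in
/-- Sketch: scale `v` so that all `‖v i‖ ≤ 1` and `‖v i₀‖ = 1`. If all forms vanish at `v`, the set
of all `red ∘ s` with `‖∑ i, toΩ Qb (s i) * v i ^ 2‖ < 1` is a submodule of `ν → ZMod 2` that
contains the diagonals (`igNZ_norm`), hence is everything (no nonzero `x` is orthogonal to it,
`igNZ_diag`, `Submodule.exists_le_ker_of_lt_top`); take `Pi.single i₀ 1`. -/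
theorem no_common_zero (F : Set (Matrix ν ν ℤ_[2])) (hF : ∀ S ∈ F, Sᵀ = S)
    (h : ∀ x : ν → ZMod 2, x ≠ 0 → ∃ S ∈ F, x ⬝ᵥ S.map red *ᵥ x ≠ 0) {v : ν → Qb} (hv : v ≠ 0) :
    ∃ S ∈ F, v ⬝ᵥ S.map (toΩ Qb) *ᵥ v ≠ 0 := by
  classical
  obtain ⟨i, hi⟩ := Function.ne_iff.1 hv
  obtain ⟨i₀, -, h₀⟩ := Finset.exists_max_image Finset.univ (fun i => ‖v i‖) ⟨i, Finset.mem_univ i⟩
  have h1 : 0 < ‖v i₀‖ := (norm_pos_iff.2 hi).trans_le (h₀ i (Finset.mem_univ i))
  have h2 : v i₀ ≠ 0 := norm_pos_iff.1 h1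
  by_contra hc
  push Not at hc
  obtain ⟨w, hw, w0, hc⟩ : ∃ w : ν → Qb, (∀ i, ‖w i‖ ≤ 1) ∧ w i₀ = 1 ∧
      ∀ S ∈ F, w ⬝ᵥ S.map (toΩ Qb) *ᵥ w = 0 :=
    ⟨(v i₀)⁻¹ • v, fun i => by
      rw [Pi.smul_apply, norm_smul, norm_inv, inv_mul_le_one₀ h1]
      exact h₀ i (Finset.mem_univ i), inv_mul_cancel₀ h2, fun S hS => by
      rw [mulVec_smul, dotProduct_smul, smul_dotProduct, hc S hS, smul_zero, smul_zero]⟩
  let W : Submodule (ZMod 2) (ν → ZMod 2) :=
    { carrier := {x | ∃ s : ν → ℤ_[2], (∀ i, red (s i) = x i) ∧ ‖∑ i, toΩ Qb (s i) * w i ^ 2‖ < 1}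
      zero_mem' := ⟨0, by simp, by simp⟩
      add_mem' := fun ⟨s, e, hs⟩ ⟨t, e', ht⟩ => ⟨s + t, fun i => by simp [e, e'], by
        simp only [Pi.add_apply, map_add, add_mul, Finset.sum_add_distrib]
        exact (IsUltrametricDist.norm_add_le_max _ _).trans_lt (max_lt hs ht)⟩
      smul_mem' := fun c x hx => by
        rcases (by decide : ∀ c : ZMod 2, c = 0 ∨ c = 1) c with rfl | rfl
        · exact ⟨0, by simp, by simp⟩
        · rwa [one_smul] }
  have hW : W = ⊤ := by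
    by_contra hW
    obtain ⟨f, f0, hf⟩ := W.exists_le_ker_of_lt_top (lt_top_iff_ne_top.2 hW)
    have e := fun x => LinearMap.pi_apply_eq_sum_univ f x
    obtain ⟨S, hS, h3⟩ := h (fun i => f fun j => if i = j then 1 else 0) fun h3 =>
      f0 (LinearMap.ext fun x => by simp [e x, congrFun h3])
    rw [igNZ_diag (by rw [← transpose_map, hF S hS])] at h3
    exact h3 ((e _).symm.trans (hf ⟨fun i => S i i, fun _ => rfl, igNZ_norm (hF S hS) hw (hc S hS)⟩))
  obtain ⟨s, e, hs⟩ : Pi.single i₀ 1 ∈ W := hW ▸ Submodule.mem_top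
  choose y hy using fun i => (red_eq_zero_iff (s i - if i = i₀ then 1 else 0)).1 (by
    rw [map_sub, e, Pi.single_apply]
    split_ifs <;> simp)
  have h3 := igNZ_two hs (y := ∑ i, toΩ Qb (y i) * w i ^ 2) (sum_mem fun i _ =>
    igNZ_ball.mul_mem (igNZ_mem _) (igNZ_ball.pow_mem (hw i) 2))
  simp only [fun i => eq_add_of_sub_eq (hy i), map_add, map_mul, add_mul, Finset.sum_add_distrib,
    map_ofNat, mul_assoc, ← Finset.mul_sum, add_sub_cancel_left] at h3
  simp [w0] at h3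

end

end Pool.Agent.Lib.MP_33b3f9_ag
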