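import Pool.Agent.Lib.MP_33b3f9_ag.IgBlk

/-!
Projections onto blocks and finiteness.
-/

open Matrix

namespace Pool.Agent.Lib.MP_33b3f9_ag

variable {ν : Type} [Fintype ν] [DecidableEq ν] {Ω : Type*} [Field Ω] [CharZero Ω]
  {A : Submodule Ω (Matrix ν ν Ω)} {E : Matrix ν ν Ω}

/-- Sketch: `W` and its orthogonal are complementary (`decomp`, `nondeg`); `p` is the matrix of the
projection. An invertible similitude `t` with `t W ⊆ W` has `t W = W` (finite dimension), so it
preserves the orthogonal too (`trans_conj`). -/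
lemma BlkData.proj (h : BlkData A E) {W : Submodule Ω (ν → Ω)} (hW : Blk A E W) :
    ∃ p : Matrix ν ν Ω, (∀ x ∈ W, p *ᵥ x = x) ∧ (∀ x, p *ᵥ x ∈ W) ∧
      ∀ (t t' : Matrix ν ν Ω) (c : Ω), tᵀ * E * t = c • E → t' * t = 1 →
        (∀ x ∈ W, t *ᵥ x ∈ W) → p * t = t * p := by
  choose w hw hw' using h.decomp hW
  have uniq : ∀ z, ∀ u ∈ W, (∀ x ∈ W, x ⬝ᵥ E *ᵥ (z - u) = 0) → w z = u := fun z u hu hz => by
    by_contra hne
    obtain ⟨x, hx, h0⟩ := h.nondeg hW (W.sub_mem (hw z) hu) (sub_ne_zero.2 hne)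
    refine h0 ?_
    rw [show w z - u = z - u - (z - w z) by abel, mulVec_sub, dotProduct_sub, hz x hx, hw' z x hx,
      sub_zero]
  let f : (ν → Ω) →ₗ[Ω] (ν → Ω) :=
    { toFun := w
      map_add' := fun y z => uniq _ _ (W.add_mem (hw y) (hw z)) fun x hx => by
        rw [add_sub_add_comm, mulVec_add, dotProduct_add, hw' y x hx, hw' z x hx, add_zero]
      map_smul' := fun c z => uniq _ _ (W.smul_mem c (hw z)) fun x hx => by
        rw [RingHom.id_apply, ← smul_sub, mulVec_smul, dotProduct_smul, hw' z x hx, smul_zero] }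
  have hf : ∀ z, LinearMap.toMatrix' f *ᵥ z = w z := fun z => LinearMap.toMatrix'_mulVec f z
  refine ⟨LinearMap.toMatrix' f, fun x hx => ?_, fun x => ?_, fun t t' c ht ht' htW => ?_⟩
  · rw [hf]
    exact uniq x x hx fun y _ => by simp
  · rw [hf]
    exact hw x
  · have hinj : Function.Injective (t.mulVecLin.restrict (p := W) (q := W) htW) := fun x y e => by
      have h1 : t' *ᵥ t *ᵥ (x : ν → Ω) = t' *ᵥ t *ᵥ (y : ν → Ω) :=
        congrArg (fun v : W => t' *ᵥ (v : ν → Ω)) e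
      rw [mulVec_mulVec, mulVec_mulVec, ht', one_mulVec, one_mulVec] at h1
      exact Subtype.ext h1
    have hsur := LinearMap.injective_iff_surjective.1 hinj
    refine ext_iff_mulVec.2 fun z => ?_
    rw [← mulVec_mulVec, ← mulVec_mulVec, hf, hf]
    refine uniq _ _ (htW _ (hw z)) fun x hx => ?_
    obtain ⟨y, hy⟩ := hsur ⟨x, hx⟩
    have h1 : t *ᵥ (y : ν → Ω) = x := congrArg Subtype.val hy
    rw [← h1, ← mulVec_sub, trans_conj, ht, smul_mulVec, dotProduct_smul, hw' z _ y.2, smul_zero]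

/-- Sketch: choose in each nonzero block `v W ≠ 0` and `x W` with `x W ⬝ E (v W) ≠ 0`; by
`eq_or_orth` the family `v` is linearly independent (`LinearIndependent.finite`). -/
lemma BlkData.finite (h : BlkData A E) : {W | Blk A E W}.Finite := by
  have h1 : ∀ W : {W // Blk A E W ∧ W ≠ ⊥}, ∃ v ∈ W.1, ∃ x ∈ W.1, x ⬝ᵥ E *ᵥ v ≠ 0 := fun W => by
    obtain ⟨v, hv, h0⟩ := Submodule.exists_mem_ne_zero_of_ne_bot W.2.2
    exact ⟨v, hv, h.nondeg W.2.1 hv h0⟩
  choose v hv x hx h2 using h1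
  have h3 : LinearIndependent Ω v := by
    refine linearIndependent_iff'.2 fun s g hs W hW => ?_
    have h4 := congrArg (fun z => x W ⬝ᵥ E *ᵥ z) hs
    simp only [mulVec_sum, dotProduct_sum, mulVec_smul, dotProduct_smul, mulVec_zero,
      dotProduct_zero, smul_eq_mul] at h4
    rw [Finset.sum_eq_single_of_mem W hW fun W' _ hne => by
      rw [(h.eq_or_orth W.2.1 W'.2.1).resolve_left (fun e => hne (Subtype.ext e.symm)) _ (hx W) _
        (hv W'), mul_zero]] at h4
    exact (mul_eq_zero.1 h4).resolve_right (h2 W)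
  have h4 : {W | Blk A E W ∧ W ≠ ⊥}.Finite := h3.finite
  refine (h4.insert ⊥).subset fun W hW => ?_
  by_cases e : W = ⊥
  · exact Or.inl e
  · exact Or.inr ⟨hW, e⟩

end Pool.Agent.Lib.MP_33b3f9_ag
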