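import Pool.Agent.Lib.MP_33b3f9_ag.IgSeq
import Pool.Agent.Lib.MP_33b3f9_ag.IgNZ
import Pool.Agent.Lib.MP_33b3f9_ag.IgMat
import Pool.Agent.Lib.MP_33b3f9_ag.IgExp
import Pool.Agent.Lib.MP_33b3f9_ag.IgProj
import Pool.Agent.Lib.MP_33b3f9_ag.IgGen
import Pool.Agent.Lib.MP_33b3f9_ag.IgConj
import Pool.Agent.Lib.MP_33b3f9_ag.IgFin

/-!
The closure of a small subgroup contains the symplectic matrices that commute with its commutant.
-/

open Matrix

namespace Pool.Agent.Lib.MP_33b3f9_ag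

noncomputable section

variable {ν : Type} [Fintype ν] [DecidableEq ν] {Γ : Type*} [Group Γ]
  {r : Γ →* Matrix ν ν ℤ_[2]} {E : Matrix ν ν ℤ_[2]} {χ : Γ →* ℤ_[2]ˣ} {H : Subgroup Γ}

/-- `span_sqm` with `kinf_eq`, `exists_tng` and `no_common_zero` for the set of all `E * Z` -/
lemma IgData.blkData (h : IgData r E χ H) : BlkData (kinf r) (E.map (toΩ Qb)) := by
  refine ⟨h.skewO, h.detO, kinf_lie, span_sqm h.skewO h.detO _ kinf_lie fun v hv => ?_⟩
  obtain ⟨U, hU, hk⟩ := kinf_eq r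
  obtain ⟨_, ⟨Z, c, rfl, h1, h2⟩, h3⟩ := no_common_zero
    {S | ∃ (Z : Matrix ν ν ℤ_[2]) (c : ℤ_[2]), S = E * Z ∧ Zᵀ * E + E * Z = 0 ∧
      Z.map (toΩ Qb) + toΩ Qb c • (1 : Matrix ν ν Qb) ∈ tng (imO r U)}
    (by
      rintro _ ⟨Z, c, rfl, h1, -⟩
      rw [transpose_mul, h.skew, Matrix.mul_neg, neg_eq_iff_add_eq_zero, h1])
    (fun x hx => by
      obtain ⟨Z, c, h1, h2, h3⟩ := h.exists_tng U hx
      exact ⟨_, ⟨Z, c, rfl, h1, h2⟩, h3⟩) hv
  refine ⟨Z.map (toΩ Qb), toΩ Qb c, ?_, hk ▸ h2, by rwa [← Matrix.map_mul]⟩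
  have h4 := congrArg (toΩ Qb).mapMatrix h1
  rw [map_add, map_mul, map_mul, map_zero] at h4
  exact h4

/-- `tng_exp` -/
lemma IgData.trans_mem (h : IgData r E χ H) (U : Subgroup Γ) [U.FiniteIndex] {v : ν → Qb}
    (hv : sqm (E.map (toΩ Qb)) v ∈ kinf r) (c : Qb) :
    1 + c • sqm (E.map (toΩ Qb)) v ∈ mcl (imO r U : Set (Matrix ν ν Qb)) := by
  refine tng_exp (mem_kinf.1 hv U inferInstance) ?_ c
  rw [sqm, vecMulVec_mul_vecMulVec, dotProduct_comm, trans_alt h.skewO, zero_smul, vecMulVec_zero]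

/-- Sketch: `fin_stab` for the action `W ↦ W.map (toLin' (repO r σ))` on the finite set of blocks
(`blk_conj`, `kinf_conj`, `multO`) gives `U₀`. For `U ≤ U₀` the projections `BlkData.proj` commute
with `imO r U`, so `s` preserves the blocks; `BlkData.gen` for the monoid `mcl (imO r U)`
(`mcl_mul`, `subset_mcl`). -/
theorem IgData.small (h : IgData r E χ H) : ∃ U₀ : Subgroup Γ, U₀ ≤ H ∧ U₀.FiniteIndex ∧
    ∀ U ≤ U₀, U.FiniteIndex → ∀ s : Matrix ν ν Qb,
      sᵀ * E.map (toΩ Qb) * s = E.map (toΩ Qb) →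
      (∀ C : Matrix ν ν Qb, (∀ t ∈ imO r U, C * t = t * C) → C * s = s * C) →
      s ∈ mcl (imO r U : Set (Matrix ν ν Qb)) := by
  have := h.fin
  have hinv : ∀ σ, repO r σ * repO r σ⁻¹ = 1 := fun σ => by rw [← map_mul, mul_inv_cancel, map_one]
  obtain ⟨U₀, h1, h2, h3⟩ := fin_stab H
    (fun σ (W : Submodule Qb (ν → Qb)) => W.map (Matrix.toLin' (repO r σ)))
    (fun W => by simp only [map_one, toLin'_one, Submodule.map_id])
    (fun σ τ W => by simp only [map_mul, toLin'_mul, Submodule.map_comp])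
    _ h.blkData.finite fun σ hσ W hW => blk_conj (hinv σ)
      (((χ σ).isUnit.map (toΩ Qb)).ne_zero) (h.multO hσ) (fun _ hY => kinf_conj σ hY)
      (fun _ hY => by simpa only [inv_inv] using kinf_conj σ⁻¹ hY) hW
  refine ⟨U₀, h1, h2, fun U hU hfin s hs hC => ?_⟩
  refine h.blkData.gen ⟨⟨mcl (imO r U : Set (Matrix ν ν Qb)),
    mcl_mul fun _ a _ b => (imO r U).mul_mem a b⟩, subset_mcl _ (imO r U).one_mem⟩
    (fun v hv c => h.trans_mem U hv c) hs fun W hW x hx => ?_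
  obtain ⟨p, p1, p2, p3⟩ := h.blkData.proj hW
  have h4 := hC p (by
    rintro _ ⟨σ, hσ, rfl⟩
    refine p3 _ (repO r σ⁻¹) _ (h.multO (h1 (hU hσ))) (by simpa only [inv_inv] using hinv σ⁻¹)
      fun y hy => ?_
    rw [← h3 σ (hU hσ) W hW]
    exact Submodule.mem_map_of_mem hy)
  rw [← p1 x hx, mulVec_mulVec, ← h4, ← mulVec_mulVec]
  exact p2 _

omit [DecidableEq ν] in
/-- commuting with a fixed matrix is a closed condition -/
lemma mcl_comm {Ω : Type*} [Field Ω] {T : Set (Matrix ν ν Ω)} {C : Matrix ν ν Ω}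
    (hC : ∀ t ∈ T, C * t = t * C) {g : Matrix ν ν Ω} (hg : g ∈ mcl T) : C * g = g * C := by
  ext i j
  have e : ∀ t : Matrix ν ν Ω, evalM t (∑ k, MvPolynomial.C (C i k) * MvPolynomial.X (k, j) -
      ∑ k, MvPolynomial.X (i, k) * MvPolynomial.C (C k j) : MvPolynomial (ν × ν) Ω) =
      (C * t) i j - (t * C) i j := fun t => by
    simp [evalM, Matrix.mul_apply]
  rw [← sub_eq_zero, ← e]
  exact hg _ fun t ht => by rw [e, hC t ht, sub_self]

/-- `BlkData.comm_comm`, `trans_mem` with `c = 1`, `mcl_comm` -/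
theorem IgData.comm_comm (h : IgData r E χ H) (U U' : Subgroup Γ) [U.FiniteIndex]
    [U'.FiniteIndex] {C C' : Matrix ν ν Qb} (hC : ∀ t ∈ imO r U, C * t = t * C)
    (hC' : ∀ t ∈ imO r U', C' * t = t * C') : C * C' = C' * C := by
  refine h.blkData.comm_comm (fun v hv => ?_) fun v hv => ?_
  · have h1 := mcl_comm hC (h.trans_mem U hv 1)
    rwa [one_smul, mul_add, add_mul, mul_one, one_mul, add_right_inj] at h1
  · have h1 := mcl_comm hC' (h.trans_mem U' hv 1)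
    rwa [one_smul, mul_add, add_mul, mul_one, one_mul, add_right_inj] at h1

end

end Pool.Agent.Lib.MP_33b3f9_ag
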