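import Pool.Agent.Lib.MP_33b3f9_ag.PtsB

/-!
The action of field automorphisms that permute the branch points.
-/

open Polynomial

namespace Pool.Agent.Lib.MP_33b3f9_ag

noncomputable section

variable {k₁ : Type*} [Field k₁] {k : Type*} [Field k] [Algebra k₁ k] {ι : Type} [Fintype ι]
  (a : ι → k₁)

/-- the action of a field endomorphism that fixes the polynomial on the coordinate ring -/
def actR (φ : k →+* k) (h : (hyp k a).map φ = hyp k a) : Coord k a →+* Coord k a :=
  AdjoinRoot.map (Polynomial.mapRingHom φ) _ _ (by simp [h])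

/-- the action on the Jacobian -/
def actRJ (φ : k →+* k) (h : (hyp k a).map φ = hyp k a) (P : Jac k a) : Jac k a :=
  Additive.ofMul (CommRing.Pic.mapRingHom (actR a φ h) P.toMul)

lemma igHAct_pol (φ : k →+* k) (h : (hyp k a).map φ = hyp k a) (p : k[X]) :
    actR a φ h (pol a p) = pol a (p.map φ) := by
  simp [actR, pol]

lemma igHAct_yy (φ : k →+* k) (h : (hyp k a).map φ = hyp k a) :
    actR a φ h (yy a : Coord k a) = yy a := by
  simp [actR, yy]

lemma igHAct_comp (φ ψ : k →+* k) (h : (hyp k a).map φ = hyp k a)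
    (h' : (hyp k a).map ψ = hyp k a) (h'' : (hyp k a).map (φ.comp ψ) = hyp k a) :
    actR a (φ.comp ψ) h'' = (actR a φ h).comp (actR a ψ h') := by
  refine RingHom.ext fun r => ?_
  obtain ⟨A, B, rfl⟩ := exists_rep a r
  simp only [RingHom.comp_apply, map_add, map_mul, igHAct_pol, igHAct_yy, Polynomial.map_map]

lemma igHAct_id (h : (hyp k a).map (RingHom.id k) = hyp k a) :
    actR a (RingHom.id k) h = RingHom.id _ := by
  refine RingHom.ext fun r => ?_
  obtain ⟨A, B, rfl⟩ := exists_rep a r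
  simp only [RingHom.id_apply, map_add, map_mul, igHAct_pol, igHAct_yy, Polynomial.map_id]

lemma igHAct_symm (φ : k ≃+* k) (h : (hyp k a).map (φ : k →+* k) = hyp k a) :
    (hyp k a).map (φ.symm : k →+* k) = hyp k a := by
  conv_lhs => rw [← h]
  rw [Polynomial.map_map, RingEquiv.symm_comp, Polynomial.map_id]

/-- the action as a ring automorphism -/
def igHAct_E (φ : k ≃+* k) (h : (hyp k a).map (φ : k →+* k) = hyp k a) :
    Coord k a ≃+* Coord k a :=
  RingEquiv.ofRingHom (actR a (φ : k →+* k) h) (actR a (φ.symm : k →+* k) (igHAct_symm a φ h))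
    (RingHom.ext fun r => by
      obtain ⟨A, B, rfl⟩ := exists_rep a r
      simp only [RingHom.comp_apply, RingHom.id_apply, map_add, map_mul, igHAct_pol, igHAct_yy,
        Polynomial.map_map, RingEquiv.comp_symm, Polynomial.map_id])
    (RingHom.ext fun r => by
      obtain ⟨A, B, rfl⟩ := exists_rep a r
      simp only [RingHom.comp_apply, RingHom.id_apply, map_add, map_mul, igHAct_pol, igHAct_yy,
        Polynomial.map_map, RingEquiv.symm_comp, Polynomial.map_id])

lemma igHAct_E_apply (φ : k ≃+* k) (h : (hyp k a).map (φ : k →+* k) = hyp k a) (r : Coord k a) :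
    igHAct_E a φ h r = actR a (φ : k →+* k) h r := rfl

lemma igHAct_coe_E (φ : k ≃+* k) (h : (hyp k a).map (φ : k →+* k) = hyp k a) :
    (igHAct_E a φ h : Coord k a →+* Coord k a) = actR a (φ : k →+* k) h := rfl

lemma igHAct_ptMap [IsAlgClosed k] [IsDedekindDomain (Coord k a)] (φ : k ≃+* k)
    (h : (hyp k a).map (φ : k →+* k) = hyp k a) {i j : ι}
    (hij : φ (algebraMap k₁ k (a i)) = algebraMap k₁ k (a j)) :
    ptMap (igHAct_E a φ h) (wpt k a i) = wpt k a j := by
  have h0 := ev_ptMap (igHAct_E a φ h) (φ : k →+* k) (fun c => by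
    rw [igHAct_E_apply, ← pol_C, ← pol_C, igHAct_pol, map_C]) (wpt k a i)
  refine pt_ext_xy a ?_ ?_
  · have h1 := h0 (pol a X)
    rw [igHAct_E_apply, igHAct_pol, map_X, ev_wpt_x] at h1
    rw [h1, ev_wpt_x]
    exact hij
  · have h1 := h0 (yy a)
    rw [igHAct_E_apply, igHAct_yy, ev_wpt_y, map_zero] at h1
    rw [h1, ev_wpt_y]

/-- compare `act_act`, `actJ_mul` in `Hyp.lean` -/
lemma actRJ_comp (φ ψ : k →+* k) (h : (hyp k a).map φ = hyp k a) (h' : (hyp k a).map ψ = hyp k a)
    (h'' : (hyp k a).map (φ.comp ψ) = hyp k a) (P : Jac k a) :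
    actRJ a (φ.comp ψ) h'' P = actRJ a φ h (actRJ a ψ h' P) := by
  simp only [actRJ, toMul_ofMul, CommRing.Pic.mapRingHom_mapRingHom, igHAct_comp a φ ψ h h' h'']

lemma actRJ_id (h : (hyp k a).map (RingHom.id k) = hyp k a) (P : Jac k a) :
    actRJ a (RingHom.id k) h P = P := by
  simp only [actRJ, igHAct_id, CommRing.Pic.mapRingHom_id_apply, ofMul_toMul]

lemma actRJ_add (φ : k →+* k) (h : (hyp k a).map φ = hyp k a) (P Q : Jac k a) :
    actRJ a φ h (P + Q) = actRJ a φ h P + actRJ a φ h Q := by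
  simp only [actRJ, toMul_add, map_mul, ofMul_mul]

/-- compare `actE`, `ptMap_act_wpt`, `actJ_cl`, `actJ_wcl` -/
theorem actRJ_wcl [IsAlgClosed k] [IsDedekindDomain (Coord k a)] (φ : k ≃+* k)
    (h : (hyp k a).map (φ : k →+* k) = hyp k a) {i j : ι}
    (hij : φ (algebraMap k₁ k (a i)) = algebraMap k₁ k (a j)) :
    actRJ a (φ : k →+* k) h (wcl k a i) = wcl k a j := by
  have h1 := cl_dvMap (igHAct_E a φ h) (Finsupp.single (wpt k a i) 1)
  rw [dvMap_single, igHAct_ptMap a φ h hij, cl_single, cl_single, one_smul, one_smul,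
    igHAct_coe_E] at h1
  exact h1.symm

end

end Pool.Agent.Lib.MP_33b3f9_ag
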