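import Pool.Agent.Lib.MP_33b3f9_ag.LieA

/-!
The images of the Weierstrass points.
-/

open Matrix

namespace Pool.Agent.Lib.MP_33b3f9_ag

noncomputable section

variable {ν ι : Type} [Fintype ν] [DecidableEq ν] [Fintype ι] [DecidableEq ι]

/-- the images `w i` of the Weierstrass points in `F_2^ν` -/
structure WData (E : Matrix ν ν (ZMod 2)) (w : ι → ν → ZMod 2) : Prop where
  pair : ∀ i j, w i ⬝ᵥ E *ᵥ w j = if i = j then 0 else 1
  span : ∀ x : ν → ZMod 2, ∃ c : ι → ZMod 2, x = ∑ i, c i • w i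
  sum : ∑ i, w i = 0
  odd : Odd (Fintype.card ι)

namespace WData

variable {E : Matrix ν ν (ZMod 2)} {w : ι → ν → ZMod 2} (h : WData E w)

include h

lemma lieB_left (i : ι) (d : ι → ZMod 2) : w i ⬝ᵥ E *ᵥ (∑ j, d j • w j) = ∑ j, d j - d i := by
  have h1 : ∀ j, w i ⬝ᵥ E *ᵥ (d j • w j) = d j - if i = j then d j else 0 := fun j => by
    rw [mulVec_smul, dotProduct_smul, h.pair]
    split_ifs <;> simp
  rw [mulVec_sum, dotProduct_sum]
  simp only [h1, Finset.sum_sub_distrib, Finset.sum_ite_eq, Finset.mem_univ, if_true]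

lemma lieB_form (c d : ι → ZMod 2) : (∑ i, c i • w i) ⬝ᵥ E *ᵥ (∑ j, d j • w j) =
    (∑ i, c i) * ∑ j, d j - ∑ i, c i * d i := by
  rw [sum_dotProduct]
  simp only [smul_dotProduct, h.lieB_left, smul_eq_mul, mul_sub, Finset.sum_sub_distrib,
    Finset.sum_mul]

lemma symm : Eᵀ = E := by
  ext i j
  obtain ⟨c, hc⟩ := h.span (Pi.single i 1)
  obtain ⟨d, hd⟩ := h.span (Pi.single j 1)
  have h1 := h.lieB_form c d
  have h2 := h.lieB_form d c
  rw [← hc, ← hd] at h1 h2
  simp only [mulVec_single_one, single_one_dotProduct, col_apply] at h1 h2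
  rw [transpose_apply, h1, h2, mul_comm]
  simp only [mul_comm]

lemma alt (x : ν → ZMod 2) : x ⬝ᵥ E *ᵥ x = 0 := by
  obtain ⟨c, rfl⟩ := h.span x
  rw [h.lieB_form, CharTwo.sum_mul_self, sub_self]

lemma isUnit_det : IsUnit E.det := by
  rw [isUnit_iff_ne_zero, Ne, ← Matrix.exists_mulVec_eq_zero_iff]
  rintro ⟨y, hy0, hy⟩
  obtain ⟨d, rfl⟩ := h.span y
  have h1 : ∀ i, d i = ∑ j, d j := fun i => by
    have h2 := h.lieB_left i d
    rw [hy, dotProduct_zero] at h2
    exact (sub_eq_zero.1 h2.symm).symm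
  refine hy0 ?_
  rw [Finset.sum_congr rfl fun i _ => congrArg (· • w i) (h1 i), ← Finset.smul_sum, h.sum, smul_zero]

/-- matrices are determined by their values on the `w i` -/
lemma ext {Y Y' : Matrix ν ν (ZMod 2)} (hY : ∀ i, Y *ᵥ w i = Y' *ᵥ w i) : Y = Y' := by
  refine Matrix.toLin'.injective (LinearMap.ext fun x => ?_)
  obtain ⟨c, rfl⟩ := h.span x
  simp only [Matrix.toLin'_apply, mulVec_sum, mulVec_smul, hY]

/-- the 4-cycle matrix acts as `dotm` -/
lemma cyc_eq {p q r s : ι} (hn : [p, q, r, s].Nodup) (i : ι) :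
    dotm E (w p + w r) (w q + w s) *ᵥ w i = ∑ j, cyc p q r s j i • w j := by
  simp only [List.nodup_cons, List.mem_cons, List.not_mem_nil, or_false, not_or] at hn
  obtain ⟨⟨h1, h2, h3⟩, ⟨h4, h5⟩, h6, -⟩ := hn
  have e1 : ∀ a b : ι, w i ⬝ᵥ E *ᵥ (w a + w b) =
      (if i = a then 1 else 0) + if i = b then 1 else 0 := fun a b => by
    rw [mulVec_add, dotProduct_add, h.pair, h.pair]
    split_ifs <;> decide
  have e2 : ∀ j, cyc p q r s j i =
      ((if i = q then 1 else 0) + if i = s then 1 else 0) *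
        ((if j = p then 1 else 0) + if j = r then 1 else 0) +
      ((if i = p then 1 else 0) + if i = r then 1 else 0) *
        ((if j = q then 1 else 0) + if j = s then 1 else 0) := fun j => by
    rw [cyc, Matrix.of_apply]
    by_cases a1 : j = p <;> by_cases a2 : j = r <;> by_cases a3 : j = q <;> by_cases a4 : j = s <;>
      by_cases b1 : i = p <;> by_cases b2 : i = r <;> by_cases b3 : i = q <;> by_cases b4 : i = s <;>
      simp_all
  rw [dotm_mulVec, e1, e1]
  simp only [e2, add_smul _ _ (w _), mul_smul, Finset.sum_add_distrib, ← Finset.smul_sum, ite_smul,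
    one_smul, zero_smul, Finset.sum_ite_eq', Finset.mem_univ, if_true]

end WData

end

end Pool.Agent.Lib.MP_33b3f9_ag
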