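import Pool.Agent.Lib.MP_33b3f9_ag.IgRigid
import Pool.Agent.Lib.MP_33b3f9_ag.LieB

/-!
Linear algebra mod 2 on the span of the Weierstrass points.
-/

open Matrix

namespace Pool.Agent.Lib.MP_33b3f9_ag

noncomputable section

variable {ν ι : Type} [Fintype ν] [DecidableEq ν] [Fintype ι] [DecidableEq ι]
  {E : Matrix ν ν (ZMod 2)} {w : ι → ν → ZMod 2}

omit [DecidableEq ι] in
lemma igHLin_diag (f : ι → ι → ZMod 2) (hf : ∀ i l, f l i = f i l) :
    ∑ i, ∑ l, f i l = ∑ i, f i i := by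
  classical
  have key : ∀ s : Finset ι, ∑ i ∈ s, ∑ l ∈ s, f i l = ∑ i ∈ s, f i i := fun s => by
    induction s using Finset.induction_on with
    | empty => simp
    | insert a s ha ih =>
      simp only [Finset.sum_insert ha, Finset.sum_add_distrib, ih, hf a]
      rw [add_assoc, ← add_assoc (∑ l ∈ s, f a l), CharTwo.add_self_eq_zero, zero_add]
  exact key _

lemma igHLin_ext (h : WData E w) {M M' : Matrix ν ν (ZMod 2)}
    (H : ∀ i j, w i ⬝ᵥ M *ᵥ w j = w i ⬝ᵥ M' *ᵥ w j) : M = M' := by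
  refine h.ext fun j => ?_
  ext a
  obtain ⟨c, hc⟩ := h.span (Pi.single a 1)
  have h1 : ∀ x : ν → ZMod 2, x a = ∑ i, c i * (w i ⬝ᵥ x) := fun x => by
    have h2 : Pi.single a 1 ⬝ᵥ x = x a := single_one_dotProduct a x
    rw [← h2, hc, sum_dotProduct]
    simp only [smul_dotProduct, smul_eq_mul]
  rw [h1 (M *ᵥ w j), h1 (M' *ᵥ w j)]
  simp only [H]

/-- Sketch: `w i ⬝ E Y (w l) = ε - L i l` (`lieB_left`) is symmetric in `i, l`; `WData.span`,
`WData.symm`; characteristic 2. -/
lemma WData.sp_of_symm (h : WData E w) {Y : Matrix ν ν (ZMod 2)} {L : Matrix ι ι (ZMod 2)}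
    (hL : Lᵀ = L) {ε : ZMod 2} (hs : ∀ i, ∑ j, L j i = ε)
    (hY : ∀ i, Y *ᵥ w i = ∑ j, L j i • w j) :
    Yᵀ * E + E * Y = 0 ∧ ∀ c : ι → ZMod 2,
      (∑ i, c i • w i) ⬝ᵥ (E * Y) *ᵥ (∑ i, c i • w i) = ∑ i, c i * (L i i + ε) := by
  have h1 : ∀ i l, w i ⬝ᵥ (E * Y) *ᵥ w l = ε - L i l := fun i l => by
    rw [← mulVec_mulVec, hY, h.lieB_left, hs]
  have h2 : ∀ i l, L l i = L i l := fun i l => by
    conv_lhs => rw [← hL]
    rfl
  constructor
  · refine igHLin_ext h fun i l => ?_
    have h3 : w i ⬝ᵥ (Yᵀ * E) *ᵥ w l = w l ⬝ᵥ (E * Y) *ᵥ w i := by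
      rw [dotProduct_mulVec, dotProduct_comm, ← mulVec_transpose, transpose_mul, transpose_transpose,
        h.symm]
    rw [add_mulVec, dotProduct_add, h3, h1, h1, h2 i l, CharTwo.add_self_eq_zero, zero_mulVec,
      dotProduct_zero]
  · intro c
    rw [sum_dotProduct]
    simp only [mulVec_sum, dotProduct_sum, mulVec_smul, smul_dotProduct, dotProduct_smul, h1,
      smul_eq_mul]
    rw [igHLin_diag (fun i l => c l * (c i * (ε - L i l))) (fun i l => by rw [h2 i l]; ring)]
    refine Finset.sum_congr rfl fun i _ => ?_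
    have h4 : ∀ a : ZMod 2, a * a = a := by decide
    rw [← mul_assoc, h4, CharTwo.sub_eq_add, add_comm]

/-- a matrix that permutes the `w i` preserves the form -/
lemma WData.perm_inv (h : WData E w) {g : Matrix ν ν (ZMod 2)} (u : Equiv.Perm ι)
    (hg : ∀ i, g *ᵥ w i = w (u i)) : gᵀ * E * g = E := by
  refine igHLin_ext h fun i j => ?_
  rw [← mulVec_mulVec, ← mulVec_mulVec, dotProduct_mulVec, vecMul_transpose, hg, hg, h.pair, h.pair]
  simp only [u.apply_eq_iff_eq]

/-- Sketch: let `W : Matrix ν ι` have columns `w i` and `S = Wᵀ * E`; then `W * S = 1`,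
`S * W = 1 + J`, `W * J = 0`, `J * S = 0`, `J * J = J` (`J` all ones, odd size). For `R'` as in
`RigidM` the matrices `S * y * W + of (fun _ _ => c)`, `y ∈ R'`, form a commutative subring `R` that
contains `J`; with `g = (r σ).map red` one has `(S * y * W).submatrix u u = S * y' * W` where
`y' = g⁻¹ * y * g` (apply the hypothesis on `R'` to `σ⁻¹`; both sides have entries
`w (u i) ⬝ E y w (u j)`, use `perm_inv`). Finally `y = W * (S * y * W) * S`. -/
theorem WData.rigidM {Γ : Type*} [Group Γ] {r : Γ →* Matrix ν ν ℤ_[2]} (h : WData E w)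
    (u : Γ → Equiv.Perm ι) (hu : ∀ σ i, (r σ).map red *ᵥ w i = w (u σ i))
    (hP : ∀ R : Subring (Matrix ι ι (ZMod 2)), (∀ x ∈ R, ∀ y ∈ R, x * y = y * x) →
      (Matrix.of fun _ _ => 1) ∈ R → (∀ σ, ∀ x ∈ R, x.submatrix (u σ) (u σ) ∈ R) →
      ∀ x ∈ R, ∃ b c : ZMod 2, x = b • (1 : Matrix ι ι (ZMod 2)) + Matrix.of fun _ _ => c) :
    RigidM r := by
  intro R' hc hR' y hy
  let W : Matrix ν ι (ZMod 2) := Matrix.of fun a i => w i a
  let J : Matrix ι ι (ZMod 2) := Matrix.of fun _ _ => 1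
  let S : Matrix ι ν (ZMod 2) := Wᵀ * E
  have ent : ∀ (M : Matrix ν ν (ZMod 2)) i j, (S * M * W) i j = w i ⬝ᵥ (E * M) *ᵥ w j := by
    intro M i j
    have e1 : S * M * W = Wᵀ * ((E * M) * W) := by simp only [S, Matrix.mul_assoc]
    rw [e1]
    rfl
  have hJc : ∀ c : ZMod 2, (Matrix.of fun _ _ => c : Matrix ι ι (ZMod 2)) = c • J := fun c => by
    ext i j
    simp [J]
  have hWJ : W * J = 0 := by
    ext a j
    have := congrFun h.sum a
    simpa [W, J, Matrix.mul_apply, Finset.sum_apply] using this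
  have hJS : J * S = 0 := by
    have e1 : J * Wᵀ = (W * J)ᵀ := by
      rw [transpose_mul]
      rfl
    rw [show J * S = J * Wᵀ * E from (Matrix.mul_assoc _ _ _).symm, e1, hWJ, transpose_zero,
      Matrix.zero_mul]
  have hJJ : J * J = J := by
    ext i j
    have := (ZMod.natCast_eq_one_iff_odd).2 h.odd
    simpa [J, Matrix.mul_apply] using this
  have hSW : S * (1 : Matrix ν ν (ZMod 2)) * W + (1 : ZMod 2) • J = 1 := by
    ext i j
    rw [Matrix.add_apply, ent, Matrix.mul_one, h.pair, Matrix.one_apply]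
    split_ifs
    · simp [J]
    · simp only [J, Matrix.smul_apply, Matrix.of_apply, smul_eq_mul]
      decide
  have hWS : W * S = 1 := by
    have e1 : W * S * W = W := by
      have e2 := congrArg (W * ·) hSW
      simp only [Matrix.mul_add, Matrix.mul_smul, hWJ, smul_zero, add_zero, Matrix.mul_one] at e2
      rw [Matrix.mul_assoc, e2]
    refine h.ext fun i => ?_
    rw [one_mulVec]
    ext a
    exact congrFun (congrFun e1 a) i
  have hmul : ∀ (a b : Matrix ν ν (ZMod 2)) (c d : ZMod 2),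
      (S * a * W + c • J) * (S * b * W + d • J) = S * (a * b) * W + (c * d) • J := by
    intro a b c d
    have e1 : S * a * W * (S * b * W) = S * (a * b) * W := by
      calc S * a * W * (S * b * W) = S * a * (W * S) * b * W := by simp only [Matrix.mul_assoc]
        _ = _ := by rw [hWS]; simp only [Matrix.mul_assoc, Matrix.one_mul]
    have e2 : S * a * W * J = 0 := by rw [Matrix.mul_assoc, hWJ, Matrix.mul_zero]
    have e3 : J * (S * b * W) = 0 := by
      rw [← Matrix.mul_assoc, ← Matrix.mul_assoc, hJS, Matrix.zero_mul, Matrix.zero_mul]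
    simp only [Matrix.add_mul, Matrix.mul_add, Matrix.mul_smul, Matrix.smul_mul, e1, e2, e3, hJJ,
      smul_zero, add_zero, zero_add, smul_smul, mul_comm d c]
  let R : Subring (Matrix ι ι (ZMod 2)) :=
    { carrier := {x | ∃ a ∈ R', ∃ c : ZMod 2, x = S * a * W + c • J}
      mul_mem' := by
        rintro _ _ ⟨a, ha, c, rfl⟩ ⟨b, hb, d, rfl⟩
        exact ⟨a * b, R'.mul_mem ha hb, c * d, hmul a b c d⟩
      one_mem' := ⟨1, R'.one_mem, 1, hSW.symm⟩
      add_mem' := by
        rintro _ _ ⟨a, ha, c, rfl⟩ ⟨b, hb, d, rfl⟩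
        refine ⟨a + b, R'.add_mem ha hb, c + d, ?_⟩
        rw [Matrix.mul_add, Matrix.add_mul, add_smul]
        abel
      zero_mem' := ⟨0, R'.zero_mem, 0, by simp⟩
      neg_mem' := by
        rintro _ ⟨a, ha, c, rfl⟩
        refine ⟨-a, R'.neg_mem ha, -c, ?_⟩
        rw [Matrix.mul_neg, Matrix.neg_mul, neg_smul, neg_add] }
  have H := hP R (by
      rintro _ ⟨a, ha, c, rfl⟩ _ ⟨b, hb, d, rfl⟩
      rw [hmul, hmul, hc a ha b hb, mul_comm c d])
    ⟨0, R'.zero_mem, 1, by simp [J]⟩ (by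
      rintro σ _ ⟨a, ha, c, rfl⟩
      obtain ⟨b, hb, e⟩ := hR' σ⁻¹ a ha
      refine ⟨b, hb, c, ?_⟩
      have g1 : (r σ).map red * (r σ⁻¹).map red = 1 := by
        rw [← Matrix.map_mul, ← map_mul, mul_inv_cancel, map_one, Matrix.map_one _ (map_zero _) (map_one _)]
      have g2 : (r σ⁻¹).map red * (r σ).map red = 1 := by
        rw [← Matrix.map_mul, ← map_mul, inv_mul_cancel, map_one, Matrix.map_one _ (map_zero _) (map_one _)]
      have g3 : a * (r σ).map red = (r σ).map red * b := by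
        calc a * (r σ).map red = (r σ).map red * ((r σ⁻¹).map red * a) * (r σ).map red := by
              rw [← Matrix.mul_assoc, g1, Matrix.one_mul]
          _ = (r σ).map red * b * ((r σ⁻¹).map red * (r σ).map red) := by
              rw [← e]; simp only [Matrix.mul_assoc]
          _ = _ := by rw [g2, Matrix.mul_one]
      have g4 := h.perm_inv (u σ) (hu σ)
      ext i j
      rw [Matrix.submatrix_apply, Matrix.add_apply, Matrix.add_apply, ent, ent, ← hu, ← hu,
        mulVec_mulVec, Matrix.mul_assoc, g3, ← vecMul_transpose, ← dotProduct_mulVec, mulVec_mulVec,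
        ← Matrix.mul_assoc, ← Matrix.mul_assoc, g4]
      rfl)
    (S * y * W + (0 : ZMod 2) • J) ⟨y, hy, 0, rfl⟩
  obtain ⟨b, c, e⟩ := H
  have e1 : y = b • (1 : Matrix ν ν (ZMod 2)) := by
    have e2 := congrArg (fun x => W * x * S) e
    simp only [hJc, zero_smul, add_zero, Matrix.mul_add, Matrix.mul_smul, hWJ, smul_zero,
      Matrix.mul_one, Matrix.smul_mul, hWS] at e2
    rw [← e2]
    calc y = W * S * y * (W * S) := by rw [hWS, Matrix.one_mul, Matrix.mul_one]
      _ = _ := by simp only [Matrix.mul_assoc]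
  have h01 : ∀ a : ZMod 2, a = 0 ∨ a = 1 := by decide
  rcases h01 b with rfl | rfl
  · exact Or.inl (by rw [e1, zero_smul])
  · exact Or.inr (by rw [e1, one_smul])

end

end Pool.Agent.Lib.MP_33b3f9_ag
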