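import Pool.Agent.Lib.MP_33b3f9_ag.Net

/-!
A sufficient condition for the criterion through the Galois group: stars.
-/

namespace Pool.Agent.Lib.MP_33b3f9_ag

open Matrix

variable {k₁ : Type*} [Field k₁] {ι : Type} [Fintype ι] [DecidableEq ι]

lemma Star_char {d : k₁} (hd0 : d ≠ 0) (hd : ¬ IsSquare d) :
    ∃ χ : k₁ → ZMod 2, IsChar χ ∧ χ d = 1 := by
  classical
  let H : AddSubgroup (Additive k₁ˣ) := (nsmulAddMonoidHom 2 : Additive k₁ˣ →+ Additive k₁ˣ).range
  have key : ∀ (B : Type _) [AddCommGroup B] [Module (ZMod 2) B] (b : B), b ≠ 0 →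
      ∃ l : B →+ ZMod 2, l b ≠ 0 := fun B _ _ b hb => by
    obtain ⟨l, hl⟩ := Module.Projective.exists_dual_ne_zero (ZMod 2) hb
    exact ⟨l.toAddMonoidHom, hl⟩
  have hne : (QuotientAddGroup.mk (Additive.ofMul (Units.mk0 d hd0)) : Additive k₁ˣ ⧸ H) ≠ 0 := by
    intro h
    obtain ⟨x, hx⟩ := (QuotientAddGroup.eq_zero_iff _).mp h
    refine hd ⟨(Additive.toMul x : k₁ˣ), ?_⟩
    have h1 := congrArg (fun y : Additive k₁ˣ => ((Additive.toMul y : k₁ˣ) : k₁)) hx
    simpa [two_nsmul] using h1.symm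
  obtain ⟨l, hl⟩ := @key (Additive k₁ˣ ⧸ H) _
    (QuotientAddGroup.zmodModule fun x => ⟨x, rfl⟩) _ hne
  refine ⟨fun x => if h : x = 0 then 0 else
    l (QuotientAddGroup.mk (Additive.ofMul (Units.mk0 x h))), fun x y hx hy => ?_, ?_⟩
  · simp only [dif_neg hx, dif_neg hy, dif_neg (mul_ne_zero hx hy)]
    rw [← map_add, ← QuotientAddGroup.mk_add, ← ofMul_mul, Units.mk0_mul]
  · simp only [dif_neg hd0]
    exact (by decide : ∀ y : ZMod 2, y ≠ 0 → y = 1) _ hl

lemma Star_prod {χ : k₁ → ZMod 2} (hχ : IsChar χ) {α : Type} (S : Finset α) (f : α → k₁)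
    (hf : ∀ x ∈ S, f x ≠ 0) : χ (∏ x ∈ S, f x) = ∑ x ∈ S, χ (f x) := by
  classical
  induction S using Finset.induction_on with
  | empty =>
    have := hχ 1 1 one_ne_zero one_ne_zero
    rw [mul_one, Tree_two] at this
    simpa using this
  | insert x S hx ih =>
    rw [Finset.prod_insert hx, Finset.sum_insert hx, hχ _ _ (hf x (by simp))
      (Finset.prod_ne_zero_iff.mpr fun y hy => hf y (by simp [hy])),
      ih fun y hy => hf y (by simp [hy])]

lemma Star_sum {U : Type} [Fintype U] (h4 : 4 ∣ Fintype.card U) (F : U → ZMod 2) (c : ZMod 2)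
    (t : U → U) (ht : ∀ u, t (t u) = u) (hne : ∀ u, t u ≠ u) (hF : ∀ u, F (t u) = c + F u) :
    ∑ u, F u = 0 := by
  classical
  rcases (by decide : ∀ y : ZMod 2, y = 0 ∨ y = 1) c with rfl | rfl
  · exact Finset.sum_involution (fun u _ => t u) (fun u _ => by rw [hF, zero_add, Tree_two])
      (fun u _ _ => hne u) (fun _ _ => Finset.mem_univ _) (fun u _ => ht u)
  · have h1 : (Finset.univ.filter fun u => F u = 1).card =
        (Finset.univ.filter fun u => ¬ F u = 1).card := by
      refine Finset.card_nbij' t t ?_ ?_ (fun u _ => ht u) (fun u _ => ht u)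
      · intro u hu
        simp only [Finset.coe_filter, Finset.mem_univ, true_and, Set.mem_ofPred_eq] at hu ⊢
        rw [hF, hu]
        decide
      · intro u hu
        simp only [Finset.coe_filter, Finset.mem_univ, true_and, Set.mem_ofPred_eq] at hu ⊢
        rw [hF]
        exact (by decide : ∀ y : ZMod 2, ¬ y = 1 → 1 + y = 1) _ hu
    have h2 := Finset.card_filter_add_card_filter_not (s := (Finset.univ : Finset U))
      fun u => F u = 1
    have h3 : ∑ u, F u = ((Finset.univ.filter fun u => F u = 1).card : ZMod 2) := by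
      rw [Finset.card_filter]
      push_cast
      exact Finset.sum_congr rfl fun u _ => Net_val Iff.rfl
    rw [h3, ZMod.natCast_eq_zero_iff]
    rw [Finset.card_univ] at h2
    omega

lemma Star_exists (a : ι → k₁) (hinj : Function.Injective a) (h7 : 7 ≤ Fintype.card ι)
    (h : SLTwo a) (i : ι) :
    ∃ χ, IsChar χ ∧ ∀ p q, p ≠ q → (χ (a p - a q) = 1 ↔ p = i ∨ q = i) := by
  classical
  obtain ⟨⟨i₀, hi₀⟩, hU⟩ := h
  have hsub : ∀ {p q}, p ≠ q → a p - a q ≠ 0 := fun h => sub_ne_zero.mpr (hinj.ne h)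
  have hd : ¬ IsSquare (∏ j ∈ Finset.univ.erase i, (a i - a j)) := by
    intro hsq
    by_cases hi : i = i₀
    · exact hi₀ (hi ▸ hsq)
    obtain ⟨m, hm⟩ : ∃ m, m ∉ ({i, i₀} : Finset ι) := by
      by_contra hc
      push Not at hc
      have := (Finset.card_le_card (fun x _ => hc x : Finset.univ ⊆ ({i, i₀} : Finset ι))).trans
        Finset.card_le_two
      rw [Finset.card_univ] at this
      omega
    simp only [Finset.mem_insert, Finset.mem_singleton, not_or] at hm
    obtain ⟨U, h1, h2⟩ := hU m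
    obtain ⟨u, hu, hui⟩ := h2 i i₀ (Ne.symm hm.1) (Ne.symm hm.2)
    obtain ⟨-, -, σ, hσ⟩ := h1 u hu
    refine hi₀ ?_
    have h3 := hsq.map σ
    rw [map_prod] at h3
    simp only [map_sub, hσ, hui] at h3
    have h4 : ∏ j ∈ Finset.univ.erase i, (a i₀ - a (u j)) =
        ∏ j ∈ Finset.univ.erase i₀, (a i₀ - a j) :=
      Finset.prod_equiv u (fun x => by simp [← hui]) fun _ _ => rfl
    rwa [h4] at h3
  obtain ⟨χ, hχ, hχd⟩ := Star_char (Finset.prod_ne_zero_iff.mpr fun j hj =>
    hsub (Finset.ne_of_mem_erase hj).symm) hd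
  obtain ⟨U, h1, h2⟩ := hU i
  choose hfix hsq σ hσ using h1
  have hinv : ∀ u ∈ U, u⁻¹ = u := fun u hu => inv_eq_of_mul_eq_one_right (hsq u hu)
  have hcomm : ∀ u ∈ U, ∀ v ∈ U, u * v = v * u := fun u hu v hv => by
    rw [← hinv _ (U.mul_mem hu hv), _root_.mul_inv_rev, hinv u hu, hinv v hv]
  have hbij : ∀ q, q ≠ i → ∀ G : ι → ZMod 2,
      ∑ u : U, G (u.1 q) = ∑ z ∈ Finset.univ.erase i, G z := by
    intro q hq G
    refine Finset.sum_bij (fun u _ => u.1 q) (fun u _ => ?_) (fun u _ v _ huv => ?_)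
      (fun z hz => ?_) fun _ _ => rfl
    · refine Finset.mem_erase.mpr ⟨fun e => hq (u.1.injective ?_), Finset.mem_univ _⟩
      rw [e, hfix u.1 u.2]
    · ext z
      by_cases hz : z = i
      · rw [hz, hfix u.1 u.2, hfix v.1 v.2]
      · obtain ⟨t, ht, rfl⟩ := h2 q z hq hz
        rw [← Equiv.Perm.mul_apply, hcomm _ u.2 _ ht, ← Equiv.Perm.mul_apply v.1, hcomm _ v.2 _ ht,
          Equiv.Perm.mul_apply, Equiv.Perm.mul_apply, huv]
    · obtain ⟨t, ht, e⟩ := h2 q z hq (Finset.ne_of_mem_erase hz)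
      exact ⟨⟨t, ht⟩, Finset.mem_univ _, e⟩
  have h4 : 4 ∣ Fintype.card U := by
    have hp : IsPGroup 2 U := fun u => ⟨1, Subtype.ext (by simpa [pow_two] using hsq u.1 u.2)⟩
    obtain ⟨n, hn⟩ := IsPGroup.iff_card.mp hp
    obtain ⟨q, hq⟩ : ∃ q, q ≠ i := Fintype.exists_ne_of_one_lt_card (by omega) i
    have h5 : (Finset.univ.erase i).card ≤ Fintype.card U :=
      Finset.card_le_card_of_surjOn (s := (Finset.univ : Finset U)) (fun u => u.1 q) fun z hz => by
        obtain ⟨t, ht, e⟩ := h2 q z hq (Finset.ne_of_mem_erase hz)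
        exact ⟨⟨t, ht⟩, Finset.mem_univ _, e⟩
    rw [Finset.card_erase_of_mem (Finset.mem_univ _), Finset.card_univ] at h5
    rw [Nat.card_eq_fintype_card] at hn
    rw [hn] at h5 ⊢
    rcases n with _ | _ | n
    · omega
    · omega
    · exact ⟨2 ^ n, by ring⟩
  have hneg : ∀ {p q}, p ≠ q → χ (a q - a p) = χ (-1) + χ (a p - a q) := fun h => by
    rw [← hχ _ _ (neg_ne_zero.mpr one_ne_zero) (hsub h), neg_one_mul, neg_sub]
  have hstar : ∀ q, q ≠ i → ∑ u : U, χ (a i - a (u.1 q)) = 1 := fun q hq => by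
    rw [hbij q hq fun z => χ (a i - a z), ← Star_prod hχ _ _ fun j hj =>
      hsub (Finset.ne_of_mem_erase hj).symm, hχd]
  refine ⟨fun x => ∑ u : U, χ (σ u.1 u.2 x), fun x y hx hy => ?_, fun p q hpq => ?_⟩
  · simp only [map_mul]
    rw [← Finset.sum_add_distrib]
    exact Finset.sum_congr rfl fun u _ =>
      hχ _ _ ((map_ne_zero _).mpr hx) ((map_ne_zero _).mpr hy)
  · simp only [map_sub, hσ]
    by_cases hp : p = i
    · subst hp
      simp only [hfix _ (Subtype.mem _), hstar q (Ne.symm hpq), true_or]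
    by_cases hq : q = i
    · subst hq
      have h6 : ∀ u : U, χ (a (u.1 p) - a (u.1 q)) = χ (-1) + χ (a q - a (u.1 p)) := fun u => by
        rw [hneg (u.1.injective.ne (Ne.symm hpq)), hfix u.1 u.2]
      simp only [h6, Finset.sum_add_distrib, hstar p hp, Finset.sum_const, Finset.card_univ,
        nsmul_eq_mul, or_true, iff_true]
      rw [(ZMod.natCast_eq_zero_iff _ 2).mpr (dvd_trans (by norm_num) h4), zero_mul, zero_add]
    obtain ⟨t, ht, htp⟩ := h2 p q hp hq
    have htq : t q = p := by rw [← htp, ← Equiv.Perm.mul_apply, hsq t ht, Equiv.Perm.one_apply]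
    rw [Star_sum h4 (fun u : U => χ (a (u.1 p) - a (u.1 q))) (χ (-1)) (fun u => u * ⟨t, ht⟩)
      (fun u => Subtype.ext (by simp [mul_assoc, hsq t ht])) (fun u e => hpq (by
        have h7 : t = 1 := by simpa using congrArg Subtype.val e
        rw [← htp, h7, Equiv.Perm.one_apply])) (fun u => by
        simp only [Subgroup.coe_mul, Equiv.Perm.mul_apply, htp, htq]
        exact hneg (u.1.injective.ne hpq))]
    simp [hp, hq]

/-- the vector `1 + e_i` -/
def StarW (i : ι) : ι → ZMod 2 := fun x => 1 + if x = i then 1 else 0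

theorem crit_of_sltwo (a : ι → k₁) (hinj : Function.Injective a) (h7 : 7 ≤ Fintype.card ι)
    (hodd : (Fintype.card ι : ZMod 2) = 1) (h : SLTwo a) : Crit a := by
  intro L h1 h2 p q r s hnd
  have e1 : (fun _ : ι => (1 : ZMod 2)) ⬝ᵥ (fun _ => 1) = 1 := by simp [dotProduct, hodd]
  have e2 : ∀ i : ι, (fun _ : ι => (1 : ZMod 2)) ⬝ᵥ StarW i = 0 := fun i => by
    simp [dotProduct, StarW, Finset.sum_add_distrib, hodd, Tree_two]
  have e3 : ∀ i j : ι, StarW i ⬝ᵥ StarW j = StarW j i := fun i j => by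
    have := e2 j
    simp only [dotProduct, one_mul] at this
    simp [dotProduct, StarW.eq_1 i, add_mul, Finset.sum_add_distrib, this]
  have hX : ∀ i, ∃ χ, IsChar χ ∧ lap a χ =
      1 + vecMulVec (fun _ => 1) (fun _ => 1) + vecMulVec (StarW i) (StarW i) := by
    intro i
    obtain ⟨χ, hχ, hv⟩ := Star_exists a hinj h7 h i
    refine ⟨χ, hχ, ?_⟩
    ext p q
    simp only [lap, Matrix.of_apply, Matrix.add_apply, vecMulVec_apply, StarW, Matrix.one_apply]
    by_cases hpq : p = q
    · subst hpq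
      by_cases hp : p = i
      · rw [if_pos rfl, Finset.sum_congr rfl fun m hm =>
          (hv p m (Finset.ne_of_mem_erase hm).symm).mpr (Or.inl hp), Finset.sum_const,
          Finset.card_erase_of_mem (Finset.mem_univ _),
          Finset.card_univ, nsmul_eq_mul, Nat.cast_sub (by omega), hodd, if_pos rfl, if_pos hp]
        decide
      · rw [if_pos rfl, Finset.sum_congr rfl fun m hm =>
          Net_val (hv p m (Finset.ne_of_mem_erase hm).symm), if_pos rfl, if_neg hp]
        simp [hp, Ne.symm hp, Tree_two]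
    · rw [if_neg hpq, if_neg hpq, Net_val (hv p q hpq)]
      by_cases hp : p = i <;> by_cases hq : q = i <;> simp [hp, hq, Tree_two]
  have hQ : ∀ i, vecMulVec (StarW i) (StarW i) ∈ L := by
    intro i
    obtain ⟨χ, hχ, e⟩ := hX i
    have h3 := h1 χ hχ
    rw [e] at h3
    simp only [mul_add, add_mul, Tree_mul, e1, e2, e3, dotProduct_comm (StarW i) fun _ => 1,
      one_mul, mul_one, zero_smul, one_smul, add_zero] at h3
    have e4 : StarW i i = 0 := by simp [StarW, Tree_two]
    rw [e4, zero_smul, add_zero] at h3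
    convert h3 using 1
    ext x y
    simp only [Matrix.add_apply]
    generalize (1 : Matrix ι ι (ZMod 2)) x y = A
    generalize vecMulVec (fun _ : ι => (1 : ZMod 2)) (fun _ => 1) x y = B
    generalize vecMulVec (StarW i) (StarW i) x y = C
    revert A B C
    decide
  have hS : ∀ i j, TreeS (StarW i) (StarW j) ∈ L := by
    intro i j
    by_cases hij : i = j
    · rw [hij, TreeS_self]
      exact L.zero_mem
    obtain ⟨χ, hχ, e⟩ := hX i
    have h3 := h2 χ hχ _ (hQ j)
    have h4 := Tree_comm_Q (StarW i) (StarW j)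
    rw [e3, show StarW j i = 1 by simp [StarW, hij], one_smul] at h4
    rw [e] at h3
    rw [← h4]
    convert h3 using 1
    simp only [mul_add, add_mul, Tree_mul (fun _ => 1), Tree_mul _ _ (fun _ => 1), e2,
      dotProduct_comm (StarW j) fun _ => 1, one_mul, mul_one, zero_smul, add_zero]
    abel
  have hE : ∀ i j : ι, TreeE i j = StarW i + StarW j := fun i j => by
    ext x
    simp only [TreeE, StarW, Pi.add_apply]
    linear_combination -Tree_two 1
  rw [Tree_cyc hnd, hE, hE, TreeS_add, TreeS_comm (StarW p), TreeS_comm (StarW r), TreeS_add,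
    TreeS_add]
  exact L.add_mem (L.add_mem (hS _ _) (hS _ _)) (L.add_mem (hS _ _) (hS _ _))

end Pool.Agent.Lib.MP_33b3f9_ag
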