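import Pool.Agent.Lib.MP_33b3f9_ag.IgHStmt
import Pool.Agent.Lib.MP_33b3f9_ag.Star

/-!
The Galois group of the polynomial, and characters.
-/

open Polynomial

namespace Pool.Agent.Lib.MP_33b3f9_ag

noncomputable section

variable {k₀ : Type*} [Field k₀] {k : Type*} [Field k] [Algebra k₀ k] {ι : Type} [Fintype ι]
  [DecidableEq ι]

/-- `σ (a i)` is a root of the product; an injective self-map of a finite type is a bijection -/
lemma exists_perm_hom (a : ι → k) (hinj : Function.Injective a)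
    (hfix : ∀ σ : k ≃ₐ[k₀] k,
      (∏ i, (X - C (a i)) : k[X]).map (σ : k →+* k) = ∏ i, (X - C (a i))) :
    ∃ u : (k ≃ₐ[k₀] k) →* Equiv.Perm ι, ∀ σ i, σ (a i) = a (u σ i) := by
  have hex : ∀ (σ : k ≃ₐ[k₀] k) (i : ι), ∃ j, σ (a i) = a j := by
    intro σ i
    have h1 := congrArg (Polynomial.eval (σ (a i))) (hfix σ)
    rw [Polynomial.map_prod, Polynomial.eval_prod, Polynomial.eval_prod,
      Finset.prod_eq_zero (Finset.mem_univ i) (by simp)] at h1
    obtain ⟨j, -, hj⟩ := Finset.prod_eq_zero_iff.mp h1.symm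
    exact ⟨j, by simpa [sub_eq_zero] using hj⟩
  choose f hf using hex
  have hfi : ∀ σ, Function.Injective (f σ) := fun σ i j hij =>
    hinj (σ.injective (by rw [hf, hf, hij]))
  refine ⟨MonoidHom.mk' (fun σ => Equiv.ofBijective (f σ)
    (Finite.injective_iff_bijective.mp (hfi σ))) fun σ τ => ?_, fun σ i => hf σ i⟩
  ext i
  apply hinj
  simp only [Equiv.ofBijective_apply, Equiv.Perm.mul_apply]
  rw [← hf, ← hf, ← hf, AlgEquiv.mul_apply]

omit [Fintype ι] [DecidableEq ι] in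
/-- an automorphism that fixes the roots fixes the splitting field
(`IntermediateField.adjoin_induction`, `AlgEquiv.ofRingEquiv`) -/
lemma exists_lift (a : ι → k) (σ : k ≃ₐ[k₀] k) (h : ∀ i, σ (a i) = a i) :
    ∃ τ : k ≃ₐ[IntermediateField.adjoin k₀ (Set.range a)] k, τ.restrictScalars k₀ = σ := by
  have hx : ∀ x ∈ IntermediateField.adjoin k₀ (Set.range a), σ x = x := by
    intro x hx
    induction hx using IntermediateField.adjoin_induction with
    | mem x hx => obtain ⟨i, rfl⟩ := hx; exact h i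
    | algebraMap x => exact σ.commutes x
    | add x y _ _ h1 h2 => rw [map_add, h1, h2]
    | inv x _ h1 => rw [map_inv₀, h1]
    | mul x y _ _ h1 h2 => rw [map_mul, h1, h2]
  exact ⟨AlgEquiv.ofRingEquiv (f := σ.toRingEquiv) fun x => hx x x.2, by ext x; rfl⟩

/-- `Star_char` for `d` and `-d`; if both characters are `1` at `-1` take their sum -/
lemma exists_char_two {K : Type*} [Field K] {d : K} (hd0 : d ≠ 0) (h1 : ¬ IsSquare d)
    (h2 : ¬ IsSquare (-d)) : ∃ κ : K → ZMod 2, IsChar κ ∧ κ d = 1 ∧ κ (-1) = 0 := by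
  obtain ⟨χ₁, hχ₁, e₁⟩ := Star_char hd0 h1
  obtain ⟨χ₂, hχ₂, e₂⟩ := Star_char (neg_ne_zero.mpr hd0) h2
  have e₃ : χ₂ (-1) + χ₂ d = 1 := by
    rw [← hχ₂ _ _ (neg_ne_zero.mpr one_ne_zero) hd0, neg_one_mul, e₂]
  have hz : ∀ y : ZMod 2, y = 0 ∨ y = 1 := by decide
  rcases hz (χ₁ (-1)) with a1 | a1
  · exact ⟨χ₁, hχ₁, e₁, a1⟩
  rcases hz (χ₂ (-1)) with a2 | a2
  · exact ⟨χ₂, hχ₂, by rwa [a2, zero_add] at e₃, a2⟩
  refine ⟨fun x => χ₁ x + χ₂ x, fun x y hx hy => ?_, ?_, ?_⟩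
  · simp only [hχ₁ x y hx hy, hχ₂ x y hx hy]
    abel
  · have e₄ : χ₂ d = 0 := by
      rw [a2] at e₃
      simpa using e₃
    simp only [e₁, e₄, add_zero]
  · simp only [a1, a2]
    decide

/-- `exists_char_two` in the splitting field for `d = ∏ i ∈ S, ∏ j ∈ univ.erase i, (a' i - a' j)`,
and `Star_prod` -/
lemma exists_char_notSq (a : ι → k) (hinj : Function.Injective a) {S : Finset ι}
    (h : NotSq k₀ a S) (a' : ι → IntermediateField.adjoin k₀ (Set.range a))
    (ha' : ∀ i, (a' i : k) = a i) :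
    ∃ κ, IsChar κ ∧ (lap a' κ).transpose = lap a' κ ∧ ∑ i ∈ S, lap a' κ i i = 1 := by
  have hinj' : Function.Injective a' := fun i j hij => hinj (by rw [← ha', ← ha', hij])
  have hsub : ∀ {p q}, p ≠ q → a' p - a' q ≠ 0 := fun h => sub_ne_zero.mpr (hinj'.ne h)
  have hrow : ∀ i, ∏ j ∈ Finset.univ.erase i, (a' i - a' j) ≠ 0 := fun i =>
    Finset.prod_ne_zero_iff.mpr fun j hj => hsub (Finset.ne_of_mem_erase hj).symm
  have hd : ((der a' S : IntermediateField.adjoin k₀ (Set.range a)) : k) = der a S := by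
    simp only [der]
    push_cast
    simp only [ha']
  have hd0 : der a' S ≠ 0 := Finset.prod_ne_zero_iff.mpr fun i _ => hrow i
  obtain ⟨κ, hκ, e1, e2⟩ := exists_char_two hd0
    (fun ⟨y, hy⟩ => (h y y.2).1 (by rw [← hd, hy]; rfl))
    (fun ⟨y, hy⟩ => (h y y.2).2 (by
      rw [← hd]
      exact (congrArg Subtype.val hy).symm))
  refine ⟨κ, hκ, ?_, ?_⟩
  · ext p q
    simp only [lap, Matrix.transpose_apply, Matrix.of_apply]
    by_cases hpq : p = q
    · subst hpq
      rfl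
    · rw [if_neg hpq, if_neg (Ne.symm hpq), ← neg_sub, ← neg_one_mul,
        hκ _ _ (neg_ne_zero.mpr one_ne_zero) (hsub hpq), e2, zero_add]
  · rw [← e1, der, Star_prod hκ _ _ fun i _ => hrow i]
    refine Finset.sum_congr rfl fun i _ => ?_
    rw [Star_prod hκ _ _ fun j hj => hsub (Finset.ne_of_mem_erase hj).symm]
    simp [lap]

end

end Pool.Agent.Lib.MP_33b3f9_ag
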