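import Pool.Agent.Lib.MP_33b3f9_ag.Tate

/-!
The Tate data again, with the lifts of the Weierstrass points.
-/

open Matrix

namespace Pool.Agent.Lib.MP_33b3f9_ag

noncomputable section

variable {k₁ : Type*} [Field k₁] [CharZero k₁] {k : Type*} [Field k] [Algebra k₁ k]
  [IsAlgClosure k₁ k] {ι ν : Type} [Fintype ι] [DecidableEq ι] [Fintype ν] [DecidableEq ν]

/-- everything the group theory needs -/
theorem tate_data_pts [IsAlgClosed k] [CharZero k] (a : ι → k₁)
    [IsDedekindDomain (Coord k a)] (hodd : Odd (Fintype.card ι)) (hinj : Function.Injective a)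
    (π : (ν → ℚ_[2]) →+ Jac k a) (ρ : (k ≃ₐ[k₁] k) → GL ν ℚ_[2]) (h : IsTate a π ρ)
    (χ : (k ≃ₐ[k₁] k) →* ℤ_[2]ˣ)
    (hχ : ∀ (σ : k ≃ₐ[k₁] k) (n : ℕ) (z : k), z ^ 2 ^ n = 1 →
      σ z = z ^ (PadicInt.toZModPow n (χ σ : ℤ_[2])).val) :
    ∃ (r : (k ≃ₐ[k₁] k) →* Matrix ν ν ℤ_[2]) (E : Matrix ν ν ℤ_[2]) (t : ι → ν → ℤ_[2]),
      (∀ i, lvl π 1 (t i) = wcl k a i) ∧
      (∀ σ, (ρ σ : Matrix ν ν ℚ_[2]) = (r σ).map (↑)) ∧ Eᵀ = -E ∧
      WData (E.map red) (fun i => red ∘ t i) ∧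
      (∀ σ, (r σ)ᵀ * E * r σ = (χ σ : ℤ_[2]) • E) ∧
      ∀ κ, IsChar κ → ∃ (Y : Matrix ν ν (ZMod 2)) (ε : ZMod 2), Lev r ⊤ 1 Y ∧
        ∀ i, Y *ᵥ (red ∘ t i) =
          ∑ j, (lap a κ + ε • (1 : Matrix ι ι (ZMod 2))) j i • (red ∘ t j) := by
  obtain ⟨hker, hran, hρ⟩ := h
  obtain ⟨I, hI, hIσ⟩ := exists_inf (k := k) a hodd
  have hf0 : ∀ σ : k ≃ₐ[k₁] k, actJ a σ 0 = 0 := fun σ => by
    have := actJ_add a σ 0 0
    rw [add_zero] at this
    exact left_eq_add.mp this
  obtain ⟨r, hr, hrl⟩ := exists_int hker (actJ a) (actJ_one a) hf0 (actJ_mul a) ρ hρ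
  obtain ⟨ζ, E, hζ, hE, hform⟩ := exists_form (k := k) hker (fun n => wp I (2 ^ n))
    (fun n P Q hP hQ => wp_pow I (by positivity) hP hQ)
    (fun n P Q hP hQ => wp_swap I (by positivity) hP hQ)
    (fun n P P' Q hP hP' hQ => wp_add_left I (by positivity) hP hP' hQ)
    (fun n P Q hP hQ => by
      rw [pow_succ' 2 n] at hQ ⊢
      exact wp_compat I (by positivity) (by norm_num) hP hQ)
  choose t ht using fun i => exists_lvl hker hran 1 (P := wcl k a i) (by simpa using two_wcl a i)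
  have hcomb : ∀ n : ι → ℤ, lvl π 1 (∑ i, n i • t i) = ∑ i, n i • wcl k a i := fun n => by
    simp only [map_sum, map_zsmul, ht]
  have hw : WData (E.map red) (fun i => red ∘ t i) := by
    refine ⟨fun i j => ?_, fun x => ?_, ?_, hodd⟩
    · rw [tate_red_dot]
      split_ifs with hij
      · subst hij
        have h1 : t i ⬝ᵥ E *ᵥ t i = -(t i ⬝ᵥ E *ᵥ t i) := by
          conv_lhs => rw [dotProduct_mulVec, ← mulVec_transpose, hE, dotProduct_comm, neg_mulVec,
            dotProduct_neg]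
        rw [self_eq_neg.mp h1, map_zero]
      · apply tate_sign (ζ := ζ 1)
        rw [← hform, ht, ht]
        exact wp_wcl a hinj I hI hij
    · have hsurj : ∀ e : ZMod 2, ∃ y : ℤ_[2], red y = e := fun e =>
        ⟨(e.val : ℤ_[2]), by simp⟩
      choose y hy using fun i => hsurj (x i)
      obtain ⟨n, hn⟩ := two_torsion a hodd hinj (c := lvl π 1 y)
        (by simpa using tate_lvl_tors hker 1 y)
      rw [← hcomb, tate_lvl_one hker, tate_comb] at hn
      exact ⟨fun i => n i, by rw [← hn]; ext i; simp [hy]⟩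
    · have h1 := hcomb fun _ => 1
      simp only [one_smul, sum_wcl a hinj] at h1
      rw [← map_zero (lvl π 1), tate_lvl_one hker] at h1
      have h2 := tate_comb t fun _ => 1
      simp only [one_smul, Int.cast_one] at h2
      rw [← h2, h1]; ext i; simp
  refine ⟨r, E, t, ht, hr, hE, hw, fun σ => ?_, fun κ hκ => ?_⟩
  · apply form_equiv ζ hζ
    intro n x y
    rw [← hform, hrl, hrl, ← hχ σ n _ (by
      rw [← pow_mul, mul_comm, pow_mul, (hζ n).pow_eq_one, one_pow]), ← hform]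
    exact wp_map I (by positivity) (actE a σ) (σ : k →+* k) (act_algebraMap a σ) (hIσ σ)
      (tate_lvl_tors hker n x) (tate_lvl_tors hker n y)
  · classical
    obtain ⟨σ, hσ⟩ := exists_sigma (k := k) κ hκ
      (insert (-1) (((Finset.univ ×ˢ Finset.univ).filter fun p : ι × ι => p.1 ≠ p.2).image
        fun p => a p.1 - a p.2)) (by
      intro c hc
      rcases Finset.mem_insert.mp hc with rfl | hc
      · simp
      · obtain ⟨p, hp, rfl⟩ := Finset.mem_image.mp hc
        exact sub_ne_zero.mpr fun h => (Finset.mem_filter.mp hp).2 (hinj h))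
    have hmv : ∀ (M : Matrix ν ν ℤ_[2]) (x : ν → ℤ_[2]),
        (M.map red) *ᵥ (red ∘ x) = red ∘ (M *ᵥ x) := fun M x => by
      ext i; simp [RingHom.map_mulVec]
    have h1 : (r σ).map red = (1 : Matrix ν ν ℤ_[2]).map red := by
      apply hw.ext
      intro i
      rw [hmv, hmv, one_mulVec, ← tate_lvl_one hker, hrl, ht, actJ_wcl]
    obtain ⟨X, hX⟩ := (map_red_eq_iff _ _).mp h1
    refine ⟨X.map red, κ (-1), ⟨σ, trivial, X, by rw [pow_one]; exact hX, rfl⟩, fun i => ?_⟩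
    have hk := kummer a hodd hinj σ κ
      (fun p q hpq => hσ _ (Finset.mem_insert_of_mem (Finset.mem_image.mpr
        ⟨(p, q), by simp [hpq], rfl⟩)))
      (fun z hz => hσ (-1) (Finset.mem_insert_self _ _) z (by simpa using hz)) i
      (P := lvl π 2 (t i)) (by rw [lvl_succ, ht])
    rw [← hrl, ← map_sub, hX, add_mulVec, one_mulVec, add_sub_cancel_left, smul_mulVec,
      tate_lvl_two_mul] at hk
    have h2 := hcomb fun j => ((lap a κ + κ (-1) • (1 : Matrix ι ι (ZMod 2))) j i).val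
    simp only [natCast_zsmul] at h2
    rw [← h2, tate_lvl_one hker] at hk
    have h3 := tate_comb t fun j => ((lap a κ + κ (-1) • (1 : Matrix ι ι (ZMod 2))) j i).val
    simp only [natCast_zsmul, Int.cast_natCast, ZMod.natCast_zmod_val] at h3
    rw [hmv, hk, h3]

end

end Pool.Agent.Lib.MP_33b3f9_ag
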