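import Pool.Agent.Lib.MP_33b3f9_ag.IgHStmt

/-!
Real roots: the derivative takes both signs.
-/

namespace Pool.Agent.Lib.MP_33b3f9_ag

variable {ι : Type} [Fintype ι] [DecidableEq ι]

lemma igReal_signs [Nontrivial ι] (b : ι → ℝ) (hb : Function.Injective b) :
    (∃ i, 0 < der b {i}) ∧ ∃ i, der b {i} < 0 := by
  obtain ⟨i, -, hi⟩ := Finset.exists_max_image Finset.univ b Finset.univ_nonempty
  obtain ⟨j₀, hj₀⟩ := exists_ne i
  obtain ⟨j, hj, hj'⟩ := Finset.exists_max_image (Finset.univ.erase i) b ⟨j₀, by simp [hj₀]⟩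
  have hji : j ≠ i := Finset.ne_of_mem_erase hj
  refine ⟨⟨i, ?_⟩, j, ?_⟩
  · rw [der, Finset.prod_singleton]
    exact Finset.prod_pos fun m hm => sub_pos.2
      (lt_of_le_of_ne (hi m (Finset.mem_univ m)) (hb.ne (Finset.ne_of_mem_erase hm)))
  · rw [der, Finset.prod_singleton,
      ← Finset.mul_prod_erase _ _ (Finset.mem_erase.2 ⟨hji.symm, Finset.mem_univ i⟩)]
    refine mul_neg_of_neg_of_pos
      (sub_neg.2 (lt_of_le_of_ne (hi j (Finset.mem_univ j)) (hb.ne hji)))
      (Finset.prod_pos fun m hm => sub_pos.2 (lt_of_le_of_ne (hj' m ?_) (hb.ne ?_)))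
    · exact Finset.mem_erase.2 ⟨Finset.ne_of_mem_erase hm, Finset.mem_univ m⟩
    · exact Finset.ne_of_mem_erase (Finset.mem_of_mem_erase hm)

lemma NonSq.exists {k₀ : Type*} [Field k₀] {k : Type*} [Field k] [Algebra k₀ k] [Nontrivial ι]
    {a : ι → k} (hinj : Function.Injective a) (h : NonSq k₀ a) :
    ∃ i, ∀ y ∈ IntermediateField.adjoin k₀ (Set.range a),
      y * y ≠ (-1) ^ (Fintype.card ι / 2) * der a {i} := by
  rcases h with ⟨⟨φ⟩⟩ | h
  swap
  · exact h
  let a' : ι → IntermediateField.adjoin k₀ (Set.range a) :=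
    fun i => ⟨a i, IntermediateField.subset_adjoin _ _ ⟨i, rfl⟩⟩
  have hb : Function.Injective fun i => φ (a' i) := fun i j h =>
    hinj (congrArg Subtype.val (φ.injective h))
  have key : ∀ i, (-1) ^ (Fintype.card ι / 2) * der (fun i => φ (a' i)) {i} < 0 →
      ∀ y ∈ IntermediateField.adjoin k₀ (Set.range a),
        y * y ≠ (-1) ^ (Fintype.card ι / 2) * der a {i} := fun i hi y hy h => by
    have h1 : (⟨y, hy⟩ * ⟨y, hy⟩ : IntermediateField.adjoin k₀ (Set.range a)) =
        (-1) ^ (Fintype.card ι / 2) * der a' {i} := by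
      apply Subtype.ext
      simp only [der]
      push_cast
      exact h
    have h2 := congrArg φ h1
    simp only [der, map_mul, map_pow, map_neg, map_one, map_prod, map_sub] at h2
    exact absurd (h2 ▸ mul_self_nonneg _) (not_le.2 hi)
  obtain ⟨⟨i, hi⟩, j, hj⟩ := igReal_signs _ hb
  rcases neg_one_pow_eq_or ℝ (Fintype.card ι / 2) with h | h
  · exact ⟨j, key j (by rw [h, one_mul]; exact hj)⟩
  · exact ⟨i, key i (by rw [h, neg_one_mul]; exact neg_neg_of_pos hi)⟩

end Pool.Agent.Lib.MP_33b3f9_ag
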