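import Pool.Agent.Lib.MP_33b3f9_ag.IgHPerm

/-!
A character for a transitive Galois group.
-/

open Polynomial

namespace Pool.Agent.Lib.MP_33b3f9_ag

noncomputable section

variable {k₀ : Type*} [Field k₀] {k : Type*} [Field k] [Algebra k₀ k] {ι : Type} [Fintype ι]
  [DecidableEq ι]

lemma igRkC_count {n : ℕ} (c : ZMod 2) :
    ∑ i : Fin n, ∑ m : Fin n, (if m < i then c else 0) =
      ((∑ i ∈ Finset.range n, i : ℕ) : ZMod 2) * c := by
  rw [Finset.sum_range, Nat.cast_sum, Finset.sum_mul]
  refine Finset.sum_congr rfl fun i _ => ?_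
  rw [← Finset.sum_filter, Finset.sum_const, nsmul_eq_mul]
  congr 2
  rw [← Fin.card_Iio]
  congr 1
  ext m
  simp

lemma igRkC_one {K : Type*} [Field K] {κ : K → ZMod 2} (hκ : IsChar κ) : κ 1 = 0 := by
  have h := hκ 1 1 one_ne_zero one_ne_zero
  rw [mul_one, CharTwo.add_self_eq_zero] at h
  exact h

lemma igRkC_pow {K : Type*} [Field K] {κ : K → ZMod 2} (hκ : IsChar κ) (g : ℕ) :
    κ ((-1) ^ g) = (g : ZMod 2) * κ (-1) := by
  induction g with
  | zero => simp [igRkC_one hκ]
  | succ g ih =>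
    rw [pow_succ, hκ _ _ (pow_ne_zero _ (neg_ne_zero.mpr one_ne_zero))
      (neg_ne_zero.mpr one_ne_zero), ih]
    push_cast
    ring

lemma igRkC_symm {K : Type*} [Field K] (a : ι → K) (hinj : Function.Injective a)
    {κ : K → ZMod 2} (hκ : IsChar κ) (e2 : κ (-1) = 0) : (lap a κ).transpose = lap a κ := by
  ext p q
  simp only [lap, Matrix.transpose_apply, Matrix.of_apply]
  by_cases hpq : p = q
  · subst hpq
    rfl
  · rw [if_neg hpq, if_neg (Ne.symm hpq), ← neg_sub, ← neg_one_mul,
      hκ _ _ (neg_ne_zero.mpr one_ne_zero) (sub_ne_zero.mpr (hinj.ne hpq)), e2, zero_add]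

/-- Sketch: order `ι` (`Fintype.equivFin`) and pair `(i, j)` with `(j, i)`; there are
`g (2 g + 1)` pairs. -/
lemma sum_lap_diag {K : Type*} [Field K] (a : ι → K) (hinj : Function.Injective a) {g : ℕ}
    (hg : Fintype.card ι = 2 * g + 1) {κ : K → ZMod 2} (hκ : IsChar κ) :
    ∑ i, lap a κ i i = (g : ZMod 2) * κ (-1) := by
  let e := Fintype.equivFin ι
  let f : ι → ι → ZMod 2 := fun i m => if e i < e m then κ (a i - a m) else 0
  have key : ∀ i, lap a κ i i = ∑ m, (f i m + f m i + if e m < e i then κ (-1) else 0) := by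
    intro i
    rw [← Finset.add_sum_erase _ _ (Finset.mem_univ i)]
    simp only [lap, Matrix.of_apply, if_true, f, lt_irrefl, if_false, add_zero, zero_add]
    refine Finset.sum_congr rfl fun m hm => ?_
    have hmi : m ≠ i := Finset.ne_of_mem_erase hm
    rcases lt_or_gt_of_ne (e.injective.ne hmi) with h | h
    · rw [if_neg h.not_gt, if_pos h, if_pos h, zero_add, add_comm,
        ← hκ _ _ (neg_ne_zero.mpr one_ne_zero) (sub_ne_zero.mpr (hinj.ne hmi)), neg_one_mul,
        neg_sub]
    · rw [if_pos h, if_neg h.not_gt, if_neg h.not_gt, add_zero, add_zero]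
  simp only [key, Finset.sum_add_distrib]
  rw [Finset.sum_comm (f := fun i m => f m i), CharTwo.add_self_eq_zero, zero_add]
  have h1 : ∑ i, ∑ m, (if e m < e i then κ (-1) else 0) =
      ∑ i : Fin (Fintype.card ι), ∑ m : Fin (Fintype.card ι), (if m < i then κ (-1) else 0) := by
    refine Fintype.sum_equiv e _ _ fun i => ?_
    exact Fintype.sum_equiv e _ _ fun m => rfl
  rw [h1, igRkC_count, hg]
  have h2 := Finset.sum_range_id_mul_two (2 * g + 1)
  have h3 : ∑ i ∈ Finset.range (2 * g + 1), i = 2 * (g * g) + g := by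
    rw [Nat.add_sub_cancel] at h2
    nlinarith
  rw [h3]
  push_cast
  rw [show (2 : ZMod 2) = 0 from rfl, zero_mul, zero_add]

omit [Fintype ι] [DecidableEq ι] in
/-- an automorphism that permutes the roots preserves the splitting field -/
lemma exists_restrict (a : ι → k) (σ : k ≃ₐ[k₀] k) (u : ι → ι) (h : ∀ i, σ (a i) = a (u i)) :
    ∃ τ : IntermediateField.adjoin k₀ (Set.range a) →+* IntermediateField.adjoin k₀ (Set.range a),
      ∀ y, (τ y : k) = σ y := by
  have hx : ∀ x ∈ IntermediateField.adjoin k₀ (Set.range a),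
      σ x ∈ IntermediateField.adjoin k₀ (Set.range a) := by
    intro x hx
    induction hx using IntermediateField.adjoin_induction with
    | mem x hx =>
      obtain ⟨i, rfl⟩ := hx
      rw [h]
      exact IntermediateField.subset_adjoin _ _ ⟨_, rfl⟩
    | algebraMap x =>
      rw [σ.commutes]
      exact IntermediateField.algebraMap_mem _ x
    | add x y _ _ h1 h2 =>
      rw [map_add]
      exact add_mem h1 h2
    | inv x _ h1 =>
      rw [map_inv₀]
      exact inv_mem h1
    | mul x y _ _ h1 h2 =>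
      rw [map_mul]
      exact mul_mem h1 h2
  exact ⟨((σ : k →+* k).comp (IntermediateField.adjoin k₀ (Set.range a)).val.toRingHom).codRestrict
    (IntermediateField.adjoin k₀ (Set.range a)) fun y => hx y y.2, fun _ => rfl⟩

/-- Sketch: `Star_char` gives `κ` with `κ ((-1) ^ g * der a' {i}) = 1`; note
`lap a' κ j j = κ (der a' {j})` (see `exists_char_notSq`). If `κ (-1) = 0` take `κ` and `i`.
Otherwise the values `s j = lap a' κ j j` are not all equal (`sum_lap_diag` would give `s i = g`),
so the set where `s = 1` is not stable: `s j ≠ s (u σ j)` for some `σ, j`. Take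
`fun y => κ y + κ (τ y)` with `τ` from `exists_restrict`. -/
lemma exists_char_trans (a : ι → k) (hinj : Function.Injective a) {g : ℕ}
    (hg : Fintype.card ι = 2 * g + 1) (u : (k ≃ₐ[k₀] k) → Equiv.Perm ι)
    (hu : ∀ σ i, σ (a i) = a (u σ i))
    (htr : ∀ S : Finset ι, (∀ σ, ∀ j ∈ S, u σ j ∈ S) → S = ∅ ∨ S = Finset.univ) {i : ι}
    (h : ∀ y ∈ IntermediateField.adjoin k₀ (Set.range a), y * y ≠ (-1) ^ g * der a {i})
    (a' : ι → IntermediateField.adjoin k₀ (Set.range a)) (ha' : ∀ i, (a' i : k) = a i) :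
    ∃ κ j, IsChar κ ∧ (lap a' κ).transpose = lap a' κ ∧ lap a' κ j j = 1 := by
  have hinj' : Function.Injective a' := fun i j hij => hinj (by rw [← ha', ← ha', hij])
  have hsub : ∀ {p q}, p ≠ q → a' p - a' q ≠ 0 := fun h => sub_ne_zero.mpr (hinj'.ne h)
  have hd : ((der a' {i} : IntermediateField.adjoin k₀ (Set.range a)) : k) = der a {i} := by
    simp only [der]
    push_cast
    simp only [ha']
  have hm1 : (-1 : IntermediateField.adjoin k₀ (Set.range a)) ≠ 0 := neg_ne_zero.mpr one_ne_zero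
  have hd0 : der a' {i} ≠ 0 := Finset.prod_ne_zero_iff.mpr fun p _ =>
    Finset.prod_ne_zero_iff.mpr fun j hj => hsub (Finset.ne_of_mem_erase hj).symm
  obtain ⟨κ, hκ, e1⟩ := Star_char (mul_ne_zero (pow_ne_zero g hm1) hd0) (fun ⟨y, hy⟩ => h y y.2 (by
    have h1 := congrArg Subtype.val hy
    push_cast at h1
    rw [← hd]
    exact h1.symm))
  have e2 : κ (der a' {i}) = lap a' κ i i := by
    rw [der, Finset.prod_singleton,
      Star_prod hκ _ _ fun j hj => hsub (Finset.ne_of_mem_erase hj).symm]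
    simp [lap]
  rw [hκ _ _ (pow_ne_zero g hm1) hd0, igRkC_pow hκ, e2] at e1
  have hz : ∀ y : ZMod 2, y = 0 ∨ y = 1 := by decide
  rcases hz (κ (-1)) with e3 | e3
  · rw [e3, mul_zero, zero_add] at e1
    exact ⟨κ, i, hκ, igRkC_symm a' hinj' hκ e3, e1⟩
  have hns : ¬ ∀ σ, ∀ j ∈ Finset.univ.filter fun j => lap a' κ j j = lap a' κ i i,
      u σ j ∈ Finset.univ.filter fun j => lap a' κ j j = lap a' κ i i := by
    intro hst
    rcases htr _ hst with h0 | h0
    · exact Finset.filter_eq_empty_iff.mp h0 (Finset.mem_univ i) rfl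
    · have h1 : ∀ j, lap a' κ j j = lap a' κ i i := fun j => by
        have h5 := Finset.mem_univ j
        rw [← h0] at h5
        exact (Finset.mem_filter.mp h5).2
      have h2 := sum_lap_diag a' hinj' hg hκ
      rw [Finset.sum_congr rfl fun j _ => h1 j, Finset.sum_const, Finset.card_univ, hg,
        nsmul_eq_mul] at h2
      push_cast at h2
      rw [show (2 : ZMod 2) = 0 from rfl, zero_mul, zero_add, one_mul] at h2
      rw [h2, CharTwo.add_self_eq_zero] at e1
      exact zero_ne_one e1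
  push Not at hns
  obtain ⟨σ, j, hj, hj'⟩ := hns
  simp only [Finset.mem_filter, Finset.mem_univ, true_and] at hj hj'
  obtain ⟨τ, hτ⟩ := exists_restrict a σ (u σ) (hu σ)
  have hτa : ∀ m, τ (a' m) = a' (u σ m) := fun m => Subtype.ext (by rw [hτ, ha', ha', hu])
  have hκ' : IsChar fun y => κ y + κ (τ y) := fun x y hx hy => by
    simp only [map_mul, hκ x y hx hy,
      hκ _ _ ((map_ne_zero τ).mpr hx) ((map_ne_zero τ).mpr hy)]
    abel
  refine ⟨_, j, hκ', igRkC_symm a' hinj' hκ' (by
    simp only [map_neg, map_one, CharTwo.add_self_eq_zero]), ?_⟩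
  have h3 : lap a' (fun y => κ y + κ (τ y)) j j = lap a' κ j j + lap a' κ (u σ j) (u σ j) := by
    simp only [lap, Matrix.of_apply, if_true, Finset.sum_add_distrib, map_sub, hτa]
    congr 1
    exact Finset.sum_equiv (u σ) (fun x => by simp) fun _ _ => rfl
  have h4 : ∀ x y : ZMod 2, y ≠ x → x + y = 1 := by decide
  rw [h3, hj]
  exact h4 _ _ hj'

end

end Pool.Agent.Lib.MP_33b3f9_ag
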