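import Pool.Agent.Lib.MP_33b3f9_ag.IgMain

/-!
Under rigidity the closure of every subgroup of finite index is the group of similitudes.
-/

open Matrix

namespace Pool.Agent.Lib.MP_33b3f9_ag

noncomputable section

variable {ν : Type} [Fintype ν] [DecidableEq ν] {Γ : Type*} [Group Γ]

omit [DecidableEq ν] in
lemma igRkD_two {F : Type} [Field F] (a b : Matrix ν ν F) (P : MvPolynomial (ν × ν) F) :
    ∃ Q : MvPolynomial (ν × ν) F, ∀ (A : Type) [Field A] [Algebra F A] (x : Matrix ν ν A),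
      evalM x Q = evalM (a.map (algebraMap F A) * x * b.map (algebraMap F A)) P := by
  refine ⟨MvPolynomial.aeval (fun p : ν × ν => (a.map MvPolynomial.C *
    (Matrix.of fun i j => MvPolynomial.X (i, j)) * b.map MvPolynomial.C :
      Matrix ν ν (MvPolynomial (ν × ν) F)) p.1 p.2) P, fun A _ _ x => ?_⟩
  rw [evalM, evalM, MvPolynomial.comp_aeval_apply]
  congr 2
  ext p
  simp [Matrix.mul_apply]

lemma igRkD_sim [Nonempty ν] (ρ : Γ →* GL ν ℚ_[2]) {E : Matrix ν ν ℚ_[2]} (hE : Eᵀ = -E)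
    (hdet : E.det ≠ 0) (N : Subgroup Γ) [hN : N.Normal] (h : zcl Qb (ρ '' N) = gsp Qb E) (σ : Γ) :
    ∃ c : ℚ_[2], (ρ σ : Matrix ν ν ℚ_[2])ᵀ * E * ρ σ = c • E := by
  have : CharZero Qb := algebraRat.charZero Qb
  set φ := algebraMap ℚ_[2] Qb with hφ
  set a : Matrix ν ν ℚ_[2] := (ρ σ : Matrix ν ν ℚ_[2]) with ha
  set b : Matrix ν ν ℚ_[2] := (ρ σ⁻¹ : Matrix ν ν ℚ_[2]) with hb
  have hba : b.map φ * a.map φ = 1 := by
    rw [← Matrix.map_mul, ha, hb, ← Units.val_mul, ← map_mul, inv_mul_cancel, map_one,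
      Units.val_one, Matrix.map_one _ (map_zero _) (map_one _)]
  have hE' : (E.map φ)ᵀ = -E.map φ := by
    rw [← Matrix.transpose_map, hE, Matrix.map_neg _ (map_neg φ)]
  have hdet' : (E.map φ).det ≠ 0 := by
    have h1 := φ.map_det E
    rw [RingHom.mapMatrix_apply] at h1
    rw [← h1]
    exact (map_ne_zero φ).2 hdet
  have hψ : ((a.map φ)ᵀ * E.map φ * a.map φ)ᵀ = -((a.map φ)ᵀ * E.map φ * a.map φ) := by
    rw [transpose_mul, transpose_mul, transpose_transpose, hE', Matrix.neg_mul, Matrix.mul_neg,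
      Matrix.mul_assoc]
  obtain ⟨c, hc⟩ := prop_of_trans hE' hdet' hψ fun u => by
    obtain ⟨g, hg1, hg2⟩ := MT_trans hE' hdet' u
    have hmem : g ∈ zcl Qb (ρ '' N) := by
      rw [h]
      exact ⟨1, by rw [one_smul]; exact hg2⟩
    let g' : GL ν Qb := Matrix.GeneralLinearGroup.map φ (ρ σ) * g *
      Matrix.GeneralLinearGroup.map φ (ρ σ⁻¹)
    have hg' : (g' : Matrix ν ν Qb) = a.map φ * g * b.map φ := rfl
    have hmem' : g' ∈ zcl Qb (ρ '' N) := by
      intro P hP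
      obtain ⟨Q, hQ⟩ := igRkD_two a b P
      rw [hg', ← hQ Qb]
      refine hmem Q ?_
      rintro _ ⟨n, hn, rfl⟩
      have h1 := hP _ ⟨σ * n * σ⁻¹, hN.conj_mem n hn σ, rfl⟩
      rw [map_mul, map_mul, Units.val_mul, Units.val_mul] at h1
      rw [hQ ℚ_[2]]
      exact h1
    rw [h] at hmem'
    obtain ⟨m, hm⟩ := hmem'
    refine ⟨m, ?_⟩
    rw [← hg1]
    have h2 := congrArg (fun M => (a.map φ)ᵀ * M * a.map φ) hm
    simp only [hg', transpose_mul, Matrix.mul_smul, Matrix.smul_mul] at h2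
    rw [← h2]
    have h3 : (a.map φ)ᵀ * (b.map φ)ᵀ = 1 := by rw [← transpose_mul, hba, transpose_one]
    simp only [← Matrix.mul_assoc]
    rw [h3, Matrix.one_mul, Matrix.mul_assoc _ (b.map φ), hba, Matrix.mul_one]
  obtain ⟨l, m, hlm⟩ : ∃ l m, E l m ≠ 0 := by
    by_contra h0
    push Not at h0
    exact hdet (by rw [show E = 0 from Matrix.ext h0, det_zero])
  have key : ∀ i j, φ ((aᵀ * E * a) i j) = c * φ (E i j) := fun i j => by
    have h1 := congrFun (congrFun hc i) j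
    rw [← Matrix.transpose_map, ← Matrix.map_mul, ← Matrix.map_mul] at h1
    exact h1
  refine ⟨(aᵀ * E * a) l m / E l m, Matrix.ext fun i j => φ.injective ?_⟩
  rw [key, Matrix.smul_apply, smul_eq_mul, map_mul, map_div₀, key,
    mul_div_cancel_right₀ _ ((map_ne_zero φ).2 hlm)]

/-- Sketch: let `N = U₀.normalCore`, so `zcl (ρ N) = gsp E`. This closure is stable under
conjugation by `ρ σ` (the polynomial `P (a x b)` over `ℚ_2`, `zarA_two`, vanishes on `ρ N`), so all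
transvections of `E` over `Qb` (`MT_trans`) are similitudes of `ψ = (ρ σ)ᵀ E (ρ σ)`;
`prop_of_trans` gives `ψ = c • E` over `Qb`, hence over `ℚ_2` (divide by a nonzero entry). Then
`zar_subset` and monotonicity give `zcl (ρ U) = gsp E`, and `zcl_eq_mt` concludes. -/
theorem bigMT_of_small [Nonempty ν] {ρ : Γ → GL ν ℚ_[2]} (hρ : ∀ σ τ, ρ (σ * τ) = ρ σ * ρ τ)
    {E : Matrix ν ν ℚ_[2]} (hE : Eᵀ = -E) (hdet : E.det ≠ 0) (U₀ : Subgroup Γ) [U₀.FiniteIndex]
    (h : ∀ U ≤ U₀, U.FiniteIndex → zcl Qb (ρ '' U) = gsp Qb E) (U : Subgroup Γ)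
    [U.FiniteIndex] : BigMT E (ρ '' U) := by
  have hs := igRkD_sim (MonoidHom.mk' ρ hρ) hE hdet U₀.normalCore
    (h _ U₀.normalCore_le inferInstance)
  have hz : zcl Qb (ρ '' U) = gsp Qb E := by
    refine Set.Subset.antisymm (zar_subset _ hdet ?_) ?_
    · rintro _ ⟨σ, -, rfl⟩
      exact hs σ
    · rw [← h (U ⊓ U₀) inf_le_right inferInstance]
      exact fun g hg P hP => hg P fun t ht =>
        hP t (Set.image_mono (SetLike.coe_subset_coe.2 inf_le_left) ht)
  exact ⟨hz, fun I hI hT => zcl_eq_mt hE hdet _ hz hI hT⟩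

end

end Pool.Agent.Lib.MP_33b3f9_ag
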