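import Pool.Agent.Lib.MP_33b3f9_ag.KumA

/-!
Division by 2.
-/

open Polynomial

namespace Pool.Agent.Lib.MP_33b3f9_ag

noncomputable section

/-- products of norms from `A[sqrt T]` are norms -/
lemma kumDiv_norm {A ι : Type*} [CommRing A] (T : A) (r : ι → A) (s : Finset ι) :
    ∃ p q : A, p ^ 2 - T * q ^ 2 = ∏ j ∈ s, (r j ^ 2 - T) := by
  classical
  induction s using Finset.induction_on with
  | empty => exact ⟨1, 0, by simp⟩
  | insert j s hj ih =>
    obtain ⟨p, q, h⟩ := ih
    refine ⟨r j * p + T * q, p + r j * q, ?_⟩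
    rw [Finset.prod_insert hj, ← h]
    ring

variable {k₁ : Type*} [Field k₁] {k : Type*} [Field k] [IsAlgClosed k] [CharZero k]
  [Algebra k₁ k] {ι : Type} [Fintype ι] [DecidableEq ι] (a : ι → k₁)
  [IsDedekindDomain (Coord k a)]

omit [CharZero k] [DecidableEq ι] [IsDedekindDomain (Coord k a)] in
lemma kumDiv_poly (hodd : Odd (Fintype.card ι)) (c : k) :
    ∃ p q : k[X], q ≠ 0 ∧ p ^ 2 + hyp k a = (X - C c) * q ^ 2 := by
  have hr : ∀ j, ∃ r : k, r ^ 2 = algebraMap k₁ k (a j) - c := fun j =>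
    IsAlgClosed.exists_pow_nat_eq _ two_pos
  choose r hr using hr
  obtain ⟨p, q, h⟩ := kumDiv_norm (X - C c : k[X]) (fun j => C (r j)) Finset.univ
  have h1 : ∏ j, ((C (r j) : k[X]) ^ 2 - (X - C c)) = -hyp k a := by
    have h2 : ∀ j, (C (r j) : k[X]) ^ 2 - (X - C c) = -(X - C (algebraMap k₁ k (a j))) := by
      intro j
      rw [← C_pow, hr, C_sub]
      ring
    simp only [h2]
    rw [Finset.prod_neg, Finset.card_univ, hodd.neg_one_pow, hyp]
    ring
  rw [h1] at h
  refine ⟨p, q, ?_, by linear_combination h⟩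
  rintro rfl
  have h3 : p ^ 2 = -hyp k a := by linear_combination h
  have h4 := congrArg natDegree h3
  rw [natDegree_pow, natDegree_neg, hyp_natDegree] at h4
  obtain ⟨m, hm⟩ := hodd
  omega

omit [CharZero k] [DecidableEq ι] in
/-- a function of norm `x - c` -/
lemma kumDiv_fun (hodd : Odd (Fintype.card ι)) (c : k) :
    ∃ s : Fr (Coord k a), s * frMap (tau a) s = algebraMap _ _ (pol a (X - C c)) := by
  obtain ⟨p, q, hq, h⟩ := kumDiv_poly a hodd c
  obtain ⟨i, hi⟩ : ∃ i : k, i ^ 2 = -1 := IsAlgClosed.exists_pow_nat_eq _ two_pos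
  have hq' : (pol a q : Coord k a) ≠ 0 := by
    intro h0
    have h1 : pol a q + pol a (0 : k[X]) * yy a = 0 := by
      rw [h0, map_zero, zero_mul, add_zero]
    exact hq (rep_unique a h1).1
  have hq'' : algebraMap (Coord k a) (Fr (Coord k a)) (pol a q) ≠ 0 := by
    intro h0
    exact hq' ((IsFractionRing.injective (Coord k a) (Fr (Coord k a))) (by rw [h0, map_zero]))
  refine ⟨algebraMap _ _ (pol a p + pol a (C i) * yy a) / algebraMap _ _ (pol a q), ?_⟩
  rw [map_div₀, frMap_algebraMap, frMap_algebraMap, tau_pol, div_mul_div_comm,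
    div_eq_iff (mul_ne_zero hq'' hq''), ← map_mul, ← map_mul, ← map_mul]
  congr 1
  rw [map_add, map_mul, tau_pol, tau_pol, tau_yy]
  have h1 : (pol a (C i) : Coord k a) ^ 2 = -1 := by
    rw [← map_pow, ← C_pow, hi, C_neg, C_1, map_neg, map_one]
  have h2 := congrArg (pol (k := k) a) h
  rw [map_add, map_mul, map_pow, map_pow, ← yy_sq] at h2
  linear_combination h2 - (yy a) ^ 2 * h1

omit [DecidableEq ι] in
/-- the class of an anti-invariant divisor is divisible by 2 -/
lemma kumDiv_anti {D : Dv (Coord k a)} (hD : D + dvMap (tau a) D = 0) :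
    ∃ d : Jac k a, 2 • d = cl D := by
  set E : Dv (Coord k a) := Finsupp.mapRange (fun n => max n 0) (by simp) D with hE
  have hτ : ∀ (F : Dv (Coord k a)) (P : Pt (Coord k a)),
      dvMap (tau a) F P = F (ptMap (tau a) P) := by
    intro F P
    have := dvMap_apply (tau a) F (ptMap (tau a) P)
    rwa [ptMap_tau_tau] at this
  have h1 : D = E - dvMap (tau a) E := by
    ext P
    have h2 := congrArg (fun F : Dv (Coord k a) => F P) hD
    simp only [Finsupp.add_apply, Finsupp.zero_apply, hτ] at h2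
    rw [Finsupp.sub_apply, hτ, hE, Finsupp.mapRange_apply, Finsupp.mapRange_apply]
    omega
  obtain ⟨h, h0, -, h3⟩ := exists_norm_div a E
  have h4 : cl (E + dvMap (tau a) E) = 0 := (cl_eq_zero_iff _).2 ⟨h, h0, h3⟩
  rw [map_add] at h4
  refine ⟨cl E, ?_⟩
  have h5 : cl D = cl E - cl (dvMap (tau a) E) := by
    rw [← map_sub, ← h1]
  rw [h5, two_nsmul, ← neg_eq_of_add_eq_zero_right h4, sub_neg_eq_add]

omit [DecidableEq ι] in
lemma kumDiv_pt (hodd : Odd (Fintype.card ι)) (Q : Pt (Coord k a)) :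
    ∃ d : Jac k a, 2 • d = clPt Q := by
  obtain ⟨s, hs⟩ := kumDiv_fun a hodd (ev k Q (pol a X))
  have hne : (pol a (X - C (ev k Q (pol a X))) : Coord k a) ≠ 0 := by
    intro h0
    have h1 : pol a (X - C (ev k Q (pol a X))) + pol a (0 : k[X]) * yy a = 0 := by
      rw [h0, map_zero, zero_mul, add_zero]
    exact X_sub_C_ne_zero _ (rep_unique a h1).1
  have hne' : s * frMap (tau a) s ≠ 0 := by
    rw [hs]
    intro h0
    exact hne ((IsFractionRing.injective (Coord k a) (Fr (Coord k a))) (by rw [h0, map_zero]))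
  have hs0 : s ≠ 0 := left_ne_zero_of_mul hne'
  have hs1 : frMap (tau a) s ≠ 0 := right_ne_zero_of_mul hne'
  have h1 : dv s + dvMap (tau a) (dv s) =
      Finsupp.single Q 1 + Finsupp.single (ptMap (tau a) Q) 1 := by
    rw [← dv_frMap, ← dv_mul hs0 hs1, hs]
    exact dvR_X_sub a Q
  have h2 : (Finsupp.single Q 1 - dv s) + dvMap (tau a) (Finsupp.single Q 1 - dv s) = 0 := by
    rw [map_sub, dvMap_single, sub_add_sub_comm, h1, sub_self]
  obtain ⟨d, hd⟩ := kumDiv_anti a h2
  refine ⟨d, ?_⟩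
  rw [hd, map_sub, cl_single, one_smul, (cl_eq_zero_iff _).2 ⟨s, hs0, rfl⟩, sub_zero]

omit [DecidableEq ι] in
/-- `J(k)` is 2-divisible -/
theorem two_divisible (hodd : Odd (Fintype.card ι)) (c : Jac k a) : ∃ d : Jac k a, 2 • d = c := by
  obtain ⟨D, rfl⟩ := cl_surjective c
  induction D using Finsupp.induction_linear with
  | zero => exact ⟨0, by simp⟩
  | add D E hD hE =>
    obtain ⟨d, hd⟩ := hD
    obtain ⟨e, he⟩ := hE
    exact ⟨d + e, by rw [nsmul_add, hd, he, map_add]⟩
  | single Q n =>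
    obtain ⟨d, hd⟩ := kumDiv_pt a hodd Q
    exact ⟨n • d, by rw [cl_single, ← hd, smul_comm]⟩

end

end Pool.Agent.Lib.MP_33b3f9_ag
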