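import Pool.Agent.Lib.MP_33b3f9_ag.TateExA
import Pool.Agent.Lib.MP_33b3f9_ag.KumDiv
import Pool.Agent.Lib.MP_33b3f9_ag.HypDed

/-!
Existence of the Tate data.
-/

open Matrix

namespace Pool.Agent.Lib.MP_33b3f9_ag

noncomputable section

lemma TateEx_prod {J K : Type*} [AddCommGroup J] [Field K] (w : J → K)
    (hadd : ∀ c c', 2 • c = 0 → 2 • c' = 0 → w (c + c') = w c * w c')
    (hpow : ∀ c, 2 • c = 0 → w c ^ 2 = 1) {ι : Type} [Fintype ι] (W : ι → J)
    (hW : ∀ i, 2 • W i = 0) (n : ι → ℤ) (hn : ∑ i, n i • W i = 0) :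
    ∏ i, w (W i) ^ n i = 1 := by
  let T : AddSubgroup J := (nsmulAddMonoidHom 2 : J →+ J).ker
  have hT : ∀ c : T, 2 • (c : J) = 0 := fun c => c.2
  have hne : ∀ c : T, w c ≠ 0 := fun c h => by
    have := hpow c (hT c)
    rw [h] at this
    norm_num at this
  let φ : T →+ Additive Kˣ := AddMonoidHom.mk' (fun c => Additive.ofMul (Units.mk0 (w c) (hne c)))
    (fun c c' => by
      rw [← ofMul_mul]
      congr 1
      ext
      simpa using hadd c c' (hT c) (hT c'))
  let W' : ι → T := fun i => ⟨W i, hW i⟩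
  have h0 : ∑ i, n i • W' i = 0 := by
    ext
    simpa [W'] using hn
  have h1 : ∑ i, n i • φ (W' i) = 0 := by
    have := congrArg φ h0
    simpa [map_sum, map_zsmul] using this
  have h2 := congrArg (fun x : Additive Kˣ => ((x.toMul : Kˣ) : K)) h1
  simpa [φ, W', toMul_sum, toMul_zsmul] using h2

lemma TateEx_even {K : Type*} [Field K] [CharZero K] {m : ℤ} (h : (-1 : K) ^ m = 1) : Even m := by
  rcases Int.even_or_odd m with h1 | h1
  · exact h1
  · rw [h1.neg_one_zpow] at h
    norm_num at h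

lemma TateEx_prod_neg {K : Type*} [Field K] {ι : Type} (s : Finset ι) (n : ι → ℤ) :
    ∏ i ∈ s, (-1 : K) ^ n i = (-1) ^ ∑ i ∈ s, n i := by
  classical
  induction s using Finset.induction_on with
  | empty => simp
  | insert i s hi ih => rw [Finset.prod_insert hi, Finset.sum_insert hi, ih, zpow_add₀ (by norm_num)]

lemma TateEx_indep {J K : Type*} [AddCommGroup J] [Field K] [CharZero K] (w : J → J → K)
    (hadd : ∀ c c' d, 2 • c = 0 → 2 • c' = 0 → 2 • d = 0 → w (c + c') d = w c d * w c' d)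
    (hpow : ∀ c d, 2 • c = 0 → 2 • d = 0 → w c d ^ 2 = 1) (g : ℕ) (W : Fin (2 * g + 1) → J)
    (hW : ∀ i, 2 • W i = 0) (hsum : ∑ i, W i = 0) (hw : ∀ i j, i ≠ j → w (W i) (W j) = -1)
    (n : Fin (2 * g) → ℤ) (hn : ∑ i, n i • W i.castSucc = 0) (j : Fin (2 * g)) : Even (n j) := by
  have hdiag : ∀ m, w (W m) (W m) = 1 := by
    intro m
    have h := TateEx_prod (fun c => w c (W m)) (fun c c' hc hc' => hadd c c' _ hc hc' (hW m))
      (fun c hc => hpow c _ hc (hW m)) W hW (fun _ => 1) (by simpa using hsum)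
    rw [← Finset.mul_prod_erase Finset.univ _ (Finset.mem_univ m)] at h
    have h2 : ∏ x ∈ Finset.univ.erase m, w (W x) (W m) ^ (1 : ℤ) = 1 := by
      rw [Finset.prod_congr rfl (g := fun _ => (-1 : K))
        (fun x hx => by rw [hw x m (Finset.ne_of_mem_erase hx)]; simp)]
      simp [Finset.card_erase_of_mem, pow_mul]
    rw [h2] at h
    simpa using h
  have key : ∀ m, ∏ i : Fin (2 * g), w (W i.castSucc) (W m) ^ n i = 1 := fun m =>
    TateEx_prod (fun c => w c (W m)) (fun c c' hc hc' => hadd c c' _ hc hc' (hW m))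
      (fun c hc => hpow c _ hc (hW m)) (fun i => W i.castSucc) (fun i => hW _) n hn
  have h1 : Even (∑ i, n i) := by
    apply TateEx_even (K := K)
    rw [← TateEx_prod_neg]
    refine Eq.trans ?_ (key (Fin.last _))
    exact Finset.prod_congr rfl fun i _ => by rw [hw _ _ (Fin.castSucc_lt_last i).ne]
  have h2 : Even (∑ i ∈ Finset.univ.erase j, n i) := by
    apply TateEx_even (K := K)
    have h := key j.castSucc
    rw [← Finset.mul_prod_erase Finset.univ _ (Finset.mem_univ j), hdiag, _root_.one_zpow,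
      one_mul] at h
    rw [← TateEx_prod_neg]
    refine Eq.trans ?_ h
    exact Finset.prod_congr rfl fun i hi => by
      rw [hw _ _ (fun h => Finset.ne_of_mem_erase hi (Fin.castSucc_injective _ h))]
  rw [← Finset.add_sum_erase Finset.univ _ (Finset.mem_univ j)] at h1
  exact (Int.even_add.1 h1).2 h2

variable {k₁ : Type*} [Field k₁] [CharZero k₁] {k : Type*} [Field k] [Algebra k₁ k]
  [IsAlgClosure k₁ k]

theorem exists_tate (g : ℕ) (a : Fin (2 * g + 1) → k₁) (hinj : Function.Injective a) :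
    ∃ (π : (Fin (2 * g) → ℚ_[2]) →+ Jac k a) (ρ : (k ≃ₐ[k₁] k) → GL (Fin (2 * g)) ℚ_[2]),
      IsTate a π ρ := by
  have : IsAlgClosed k := IsAlgClosure.isAlgClosed k₁
  have : CharZero k := charZero_of_injective_algebraMap (algebraMap k₁ k).injective
  have hodd : Odd (Fintype.card (Fin (2 * g + 1))) := by simp
  have : IsDedekindDomain (Coord k a) := coord_isDedekind a hodd hinj
  obtain ⟨I, hI, -⟩ := exists_inf (k := k) a hodd
  obtain ⟨π, hker, hran⟩ := exists_pi (two_divisible (k := k) a hodd)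
    (fun i : Fin (2 * g) => wcl k a i.castSucc) (fun i => two_wcl a _)
    (fun P hP => by
      obtain ⟨n, rfl⟩ := two_torsion a hodd hinj hP
      have hs := sum_wcl (k := k) a hinj
      rw [Fin.sum_univ_castSucc] at hs
      refine ⟨fun i => n i.castSucc - n (Fin.last _), ?_⟩
      rw [Fin.sum_univ_castSucc, eq_neg_of_add_eq_zero_right hs]
      simp only [sub_smul, Finset.sum_sub_distrib, smul_neg, Finset.smul_sum]
      abel)
    (fun n hn j => TateEx_indep (wp I 2) (fun c c' d hc hc' hd => wp_add_left I two_pos hc hc' hd)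
      (fun c d hc hd => wp_pow I two_pos hc hd) g (wcl k a) (two_wcl a) (sum_wcl a hinj)
      (fun i j hij => wp_wcl a hinj I hI hij) n hn j)
  choose M hM using fun σ : k ≃ₐ[k₁] k =>
    exists_matrix hker hran (AddMonoidHom.mk' (actJ a σ) (actJ_add a σ))
  have hM' : ∀ σ x, π (M σ *ᵥ x) = actJ a σ (π x) := hM
  have hinv : ∀ σ τ : k ≃ₐ[k₁] k, σ * τ = 1 → M σ * M τ = 1 := by
    intro σ τ h
    apply matrix_unique hker
    intro x
    rw [← mulVec_mulVec, hM', hM', ← actJ_mul, h, actJ_one, one_mulVec]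
  exact ⟨π, fun σ => ⟨M σ, M σ⁻¹, hinv _ _ (mul_inv_cancel σ), hinv _ _ (inv_mul_cancel σ)⟩,
    hker, hran, hM'⟩

end

end Pool.Agent.Lib.MP_33b3f9_ag
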