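import Pool.Agent.Lib.MP_33b3f9_ag.IgTwo
import Pool.Agent.Lib.MP_33b3f9_ag.IgReal
import Pool.Agent.Lib.MP_33b3f9_ag.IgRkC
import Pool.Agent.Lib.MP_33b3f9_ag.IgRkD
import Pool.Agent.Lib.MP_33b3f9_ag.IgHTate
import Pool.Agent.Lib.MP_33b3f9_ag.IgHAct
import Pool.Agent.Lib.MP_33b3f9_ag.IgHPerm
import Pool.Agent.Lib.MP_33b3f9_ag.IgHLin
import Pool.Agent.Lib.MP_33b3f9_ag.TateEx
import Pool.Agent.Lib.MP_33b3f9_ag.Cyclo

/-!
Assembly for hyperelliptic curves.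
-/

open Matrix Polynomial

namespace Pool.Agent.Lib.MP_33b3f9_ag

noncomputable section

variable {k₀ : Type*} [Field k₀] [CharZero k₀] {k : Type*} [Field k] [Algebra k₀ k]
  [IsAlgClosure k₀ k]

/-- Tate data exist and give rise to the data of the group theoretic theorem -/
def HasIg (ν : Type) [Fintype ν] [DecidableEq ν] {J Γ : Type*} [AddCommGroup J] [Group Γ]
    (f : Γ → J → J) (R : Prop) : Prop :=
  (∃ (π : (ν → ℚ_[2]) →+ J) (ρ : Γ → GL ν ℚ_[2]), Tate f π ρ) ∧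
    ∀ (π : (ν → ℚ_[2]) →+ J) (ρ : Γ → GL ν ℚ_[2]), Tate f π ρ →
      ∃ (r : Γ →* Matrix ν ν ℤ_[2]) (E : Matrix ν ν ℤ_[2]) (χ : Γ →* ℤ_[2]ˣ) (H : Subgroup Γ),
        IgData r E χ H ∧ (∀ σ, (ρ σ : Matrix ν ν ℚ_[2]) = (r σ).map ((↑) : ℤ_[2] → ℚ_[2])) ∧
          (R → ScalarM r)

lemma IgData.coe_form {ν : Type} [Fintype ν] [DecidableEq ν] {Γ : Type*} [Group Γ]
    {r : Γ →* Matrix ν ν ℤ_[2]} {E : Matrix ν ν ℤ_[2]} {χ : Γ →* ℤ_[2]ˣ} {H : Subgroup Γ}
    (hd : IgData r E χ H) : (E.map ((↑) : ℤ_[2] → ℚ_[2]))ᵀ = -E.map ((↑) : ℤ_[2] → ℚ_[2]) ∧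
      (E.map ((↑) : ℤ_[2] → ℚ_[2])).det ≠ 0 := by
  constructor
  · ext i j
    have := congrFun (congrFun hd.skew i) j
    simp only [transpose_apply, Matrix.neg_apply] at this
    simp [this]
  · have := PadicInt.Coe.ringHom.map_det E
    rw [RingHom.mapMatrix_apply] at this
    intro h0
    exact hd.det (Subtype.val_injective (this.trans h0))

lemma HasIg.lefHolds {ν : Type} [Fintype ν] [DecidableEq ν] [Nonempty ν] {J Γ : Type*}
    [AddCommGroup J] [Group Γ] {f : Γ → J → J} {R : Prop} (h : HasIg ν f R) : LefHolds ν f := by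
  refine ⟨h.1, fun π ρ hT => ?_⟩
  obtain ⟨r, E, χ, H, hd, hr, -⟩ := h.2 π ρ hT
  exact ⟨_, hd.coe_form.1, hd.coe_form.2, hd.lefMT hr False.elim⟩

lemma HasIg.mtHolds {ν : Type} [Fintype ν] [DecidableEq ν] [Nonempty ν] {J Γ : Type*}
    [AddCommGroup J] [Group Γ] {f : Γ → J → J} {R : Prop} (h : HasIg ν f R) (hR : R) :
    MTHolds ν f := by
  refine ⟨h.1, fun π ρ hT => ?_⟩
  obtain ⟨r, E, χ, H, hd, hr, hRM⟩ := h.2 π ρ hT
  obtain ⟨⟨U₀, hfin, hU₀⟩, -⟩ := hd.lefMT hr hRM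
  refine ⟨_, hd.coe_form.1, hd.coe_form.2, fun U hU => bigMT_of_small (fun σ τ => ?_)
    hd.coe_form.1 hd.coe_form.2 U₀ (fun U' h1 h2 => (hU₀ U' h1 h2).2 hR) U⟩
  ext1
  rw [Units.val_mul, hr, hr, hr, map_mul]
  exact Matrix.map_mul (f := PadicInt.Coe.ringHom)

theorem hyp_core (hfg : (⊤ : IntermediateField ℚ k₀).FG) (g : ℕ) (hg : 1 ≤ g)
    (a : Fin (2 * g + 1) → k) (hinj : Function.Injective a)
    (a' : Fin (2 * g + 1) → IntermediateField.adjoin k₀ (Set.range a)) (ha' : ∀ i, (a' i : k) = a i)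
    (hfix : ∀ σ : k ≃ₐ[k₀] k, (hyp k a').map (σ : k →+* k) = hyp k a')
    (hc : Indep k₀ a ∨ SimpleGal k₀ a ∧ NonSq k₀ a) :
    HasIg (Fin (2 * g)) (fun σ : k ≃ₐ[k₀] k => actRJ a' (σ : k →+* k) (hfix σ))
      (BigGal k₀ a) := by
  have : IsAlgClosed k := IsAlgClosure.isAlgClosed k₀
  have : CharZero k := charZero_of_injective_algebraMap (algebraMap k₀ k).injective
  have : IsAlgClosure (IntermediateField.adjoin k₀ (Set.range a)) k :=
    ⟨inferInstance, Algebra.IsAlgebraic.tower_top (K := k₀) _⟩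
  have hodd : Odd (Fintype.card (Fin (2 * g + 1))) := by simp
  have hinj' : Function.Injective a' := fun i j h => hinj (by rw [← ha', ← ha', h])
  have : IsDedekindDomain (Coord k a') := coord_isDedekind a' hodd hinj'
  have : Nonempty (Fin (2 * g)) := ⟨⟨0, by omega⟩⟩
  have hf1 : ∀ P, actRJ a' ((1 : k ≃ₐ[k₀] k) : k →+* k) (hfix 1) P = P := actRJ_id a' (hfix 1)
  have hfm : ∀ (σ τ : k ≃ₐ[k₀] k) P, actRJ a' ((σ * τ : k ≃ₐ[k₀] k) : k →+* k) (hfix _) P =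
      actRJ a' (σ : k →+* k) (hfix σ) (actRJ a' (τ : k →+* k) (hfix τ) P) := fun σ τ =>
    actRJ_comp a' (σ : k →+* k) (τ : k →+* k) (hfix σ) (hfix τ) (hfix (σ * τ))
  have hf0 : ∀ σ : k ≃ₐ[k₀] k, actRJ a' (σ : k →+* k) (hfix σ) 0 = 0 := fun σ => by
    have := actRJ_add a' (σ : k →+* k) (hfix σ) 0 0
    rw [add_zero] at this
    exact left_eq_add.mp this
  constructor
  · obtain ⟨π, -, hker, hran, -⟩ := exists_tate (k := k) g a' hinj'
    choose M hM using fun σ : k ≃ₐ[k₀] k => exists_matrix hker hran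
      (AddMonoidHom.mk' (actRJ a' (σ : k →+* k) (hfix σ)) (actRJ_add a' _ (hfix σ)))
    have hM' : ∀ σ x, π (M σ *ᵥ x) = actRJ a' (σ : k →+* k) (hfix σ) (π x) := hM
    have hinv : ∀ σ τ : k ≃ₐ[k₀] k, σ * τ = 1 → M σ * M τ = 1 := by
      intro σ τ h
      apply matrix_unique hker
      intro x
      rw [← mulVec_mulVec, hM', hM', ← hfm, one_mulVec]
      simp only [h]
      exact hf1 _
    exact ⟨π, fun σ => ⟨M σ, M σ⁻¹, hinv _ _ (mul_inv_cancel σ), hinv _ _ (inv_mul_cancel σ)⟩,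
      hker, hran, hM'⟩
  rintro π ρ ⟨hker, hran, hρ⟩
  obtain ⟨r, hr, hrl⟩ := exists_int hker _ hf1 hf0 hfm ρ hρ
  obtain ⟨χ, hχ⟩ := exists_cyclo (k₁ := k₀) (k := k)
  let res : (k ≃ₐ[IntermediateField.adjoin k₀ (Set.range a)] k) →* (k ≃ₐ[k₀] k) :=
    MonoidHom.mk' (fun τ => τ.restrictScalars k₀) fun _ _ => rfl
  obtain ⟨r₁, E, t, ht, hr₁, hE, hw, hm, hK⟩ := tate_data_pts a' hodd hinj' π (fun τ => ρ (res τ))
    ⟨hker, hran, fun τ x => hρ (res τ) x⟩ (χ.comp res) fun τ => hχ (res τ)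
  have hrr : ∀ τ, r₁ τ = r (res τ) := fun τ =>
    Matrix.map_injective (Subtype.val_injective (p := fun x : ℚ_[2] => ‖x‖ ≤ 1))
      ((hr₁ τ).symm.trans (hr _))
  obtain ⟨u, hu⟩ := exists_perm_hom (k₀ := k₀) a hinj fun σ => by
    have h1 : hyp k a' = ∏ i, (X - C (a i)) :=
      Finset.prod_congr rfl fun i _ => by rw [← ha']; rfl
    rw [← h1, hfix]
  have hmv : ∀ (M : Matrix (Fin (2 * g)) (Fin (2 * g)) ℤ_[2]) (x : Fin (2 * g) → ℤ_[2]),
      (M.map red) *ᵥ (red ∘ x) = red ∘ (M *ᵥ x) := fun M x => by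
    ext i; simp [RingHom.map_mulVec]
  have hperm : ∀ σ i, (r σ).map red *ᵥ (red ∘ t i) = red ∘ t (u σ i) := fun σ i => by
    rw [hmv, ← tate_lvl_one hker, hrl, ht, ht]
    exact actRJ_wcl a' σ.toRingEquiv (hfix σ) (by
      change σ (a' i : k) = (a' (u σ i) : k)
      rw [ha', ha', hu])
  have hker' : ∀ σ ∈ u.ker, ∃ τ, res τ = σ := fun σ hσ =>
    exists_lift a σ fun i => by rw [hu, MonoidHom.mem_ker.1 hσ]; rfl
  have hres : ∀ τ, res τ ∈ u.ker := fun τ => MonoidHom.mem_ker.2 (Equiv.ext fun i => hinj (by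
    rw [← hu, ← ha']
    exact (τ.commutes (a' i)).trans (ha' i)))
  obtain ⟨φ, hφ⟩ := hw.exists_permM
  have hφu : ∀ σ, (r σ).map red = φ (u σ) := fun σ => hw.ext fun i => by rw [hφ, hperm]
  have hind : ∀ v, Ind k₀ a v → ∃ σ, u σ = v := by
    rintro v ⟨σ, hσ⟩
    exact ⟨σ, Equiv.ext fun i => hinj (by rw [← hu, hσ])⟩
  have key : ∀ S : Finset (Fin (2 * g + 1)), (∃ κ, IsChar κ ∧ (lap a' κ).transpose = lap a' κ ∧
      ∑ i ∈ S, lap a' κ i i = 1) →
      ∃ (n : ℕ) (Y : Matrix (Fin (2 * g)) (Fin (2 * g)) (ZMod 2)), 1 ≤ n ∧ Lev r u.ker n Y ∧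
        Yᵀ * E.map red + E.map red * Y = 0 ∧
        (∑ i, (if i ∈ S then 1 else 0 : ZMod 2) • (red ∘ t i)) ⬝ᵥ (E.map red * Y) *ᵥ
          (∑ i, (if i ∈ S then 1 else 0 : ZMod 2) • (red ∘ t i)) ≠ 0 := fun S hS => by
    obtain ⟨κ, hκ, hsym, hone⟩ := hS
    obtain ⟨Y, ε, ⟨τ, -, X, hX, hXY⟩, hY⟩ := hK κ hκ
    obtain ⟨h1, h2⟩ := hw.sp_of_symm (ε := ε) (L := lap a' κ + ε • 1)
      (by rw [transpose_add, hsym, transpose_smul, transpose_one]) (fun i => by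
        have h3 : ∑ j, lap a' κ j i = 0 := by
          have h4 : ∀ j, lap a' κ j i = lap a' κ i j := fun j => congrFun (congrFun hsym i) j
          simp only [h4]
          rw [← Finset.add_sum_erase _ _ (Finset.mem_univ i), Finset.sum_congr rfl
            (g := fun j => κ (a' i - a' j)) fun j hj => by
              simp [lap, (Finset.ne_of_mem_erase hj).symm]]
          simp [lap, CharTwo.add_self_eq_zero]
        simp [Finset.sum_add_distrib, h3, Matrix.one_apply]) hY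
    refine ⟨1, Y, le_rfl, ⟨res τ, hres τ, X, by rw [← hrr, hX], hXY⟩, h1, ?_⟩
    rw [h2]
    have h5 : ∀ i, (lap a' κ + ε • 1 : Matrix (Fin (2 * g + 1)) (Fin (2 * g + 1)) (ZMod 2)) i i +
        ε = lap a' κ i i := fun i => by
      simp [add_assoc, CharTwo.add_self_eq_zero]
    simp only [h5, ite_mul, one_mul, zero_mul, Finset.sum_ite_mem, Finset.univ_inter, hone]
    exact one_ne_zero
  have pull : ∀ N : Submodule (ZMod 2) (Fin (2 * g) → ZMod 2),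
      (∀ σ, ∀ x ∈ N, (r σ).map red *ᵥ x ∈ N) → N ≠ ⊥ →
      ∃ N' : Submodule (ZMod 2) (Fin (2 * g + 1) → ZMod 2), (∀ c ∈ N', ∑ i, c i = 0) ∧
        (∀ v, Ind k₀ a v → ∀ c ∈ N', c ∘ v ∈ N') ∧ N' ≠ ⊥ ∧
          ∀ c ∈ N', ∑ i, c i • (red ∘ t i) ∈ N := fun N hN h0 => by
    let N' : Submodule (ZMod 2) (Fin (2 * g + 1) → ZMod 2) :=
      { carrier := {c | ∑ i, c i = 0 ∧ ∑ i, c i • (red ∘ t i) ∈ N}
        add_mem' := fun {c d} hc hd => ⟨by simp [Finset.sum_add_distrib, hc.1, hd.1], by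
          simpa only [Pi.add_apply, add_smul, Finset.sum_add_distrib] using N.add_mem hc.2 hd.2⟩
        zero_mem' := ⟨by simp, by simp⟩
        smul_mem' := fun e c hc => ⟨by simp [← Finset.mul_sum, hc.1], by
          simpa only [Pi.smul_apply, smul_eq_mul, mul_smul, ← Finset.smul_sum] using
            N.smul_mem e hc.2⟩ }
    refine ⟨N', fun c hc => hc.1, fun v hv c hc => ?_, fun h1 => ?_, fun c hc => hc.2⟩
    · obtain ⟨σ, rfl⟩ := hind v hv
      refine ⟨(Equiv.sum_comp (u σ) c).trans hc.1, ?_⟩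
      have h1 := hN σ⁻¹ _ hc.2
      simp only [mulVec_sum, mulVec_smul, hperm, map_inv] at h1
      rw [← Equiv.sum_comp (u σ)] at h1
      simpa using h1
    · obtain ⟨y, hy, hy0⟩ := Submodule.exists_mem_ne_zero_of_ne_bot h0
      obtain ⟨c, hc0, rfl⟩ := hw.span_even y
      have h2 : c = 0 := (Submodule.eq_bot_iff N').1 h1 c ⟨hc0, hy⟩
      exact hy0 (by simp [h2])
  have hd : IgData r E χ u.ker := by
    refine ⟨inferInstance, hE, fun σ hσ => ?_, fun U _ => cyclo_infinite hfg χ hχ U,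
      fun x hx => ?_⟩
    · obtain ⟨τ, rfl⟩ := hker' σ hσ
      rw [← hrr]
      exact hm τ
    refine ig_of_sub u.ker hE (fun σ => hw.perm_inv (u σ) (hperm σ)) (fun N hN h0 => ?_) x hx
    rcases hc with hc | ⟨hP, hi⟩
    · obtain ⟨N', e1, e2, e3, e4⟩ := pull N hN h0
      obtain ⟨c, hcN, hsq⟩ := hc N' e1 e2 e3
      have h1 : ∀ i, c i = if i ∈ Finset.univ.filter (fun i => c i = 1) then 1 else 0 := fun i => by
        have := (by decide : ∀ e : ZMod 2, e = if e = 1 then 1 else 0) (c i)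
        simpa using this
      have h2 := key _ (exists_char_notSq a hinj hsq a' ha')
      exact ⟨_, e4 c hcN, by simpa only [← h1] using h2⟩
    · have : Nontrivial (Fin (2 * g + 1)) := Fin.nontrivial_iff_two_le.2 (by omega)
      obtain ⟨i, hi⟩ := hi.exists hinj
      have hs : ∀ N : Submodule (ZMod 2) (Fin (2 * g) → ZMod 2),
          (∀ σ, ∀ x ∈ N, (r σ).map red *ᵥ x ∈ N) → N = ⊥ ∨ N = ⊤ := fun N hN => by
        rw [or_iff_not_imp_left]
        intro h0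
        obtain ⟨N', e1, e2, e3, e4⟩ := pull N hN h0
        refine eq_top_iff.2 fun y _ => ?_
        obtain ⟨c, hc0, rfl⟩ := hw.span_even y
        exact e4 c (hP N' e1 e2 e3 c hc0)
      have hg2 : Fintype.card (Fin (2 * g + 1)) / 2 = g := by
        rw [Fintype.card_fin]; omega
      rw [hg2] at hi
      obtain ⟨κ, j, hκ, hsym, hone⟩ := exists_char_trans a hinj (Fintype.card_fin _) u hu
        (hw.trans_of_simple hs u hperm) hi a' ha'
      rw [(hs N hN).resolve_left h0]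
      exact ⟨_, Submodule.mem_top, key {j} ⟨κ, hκ, hsym, by rw [Finset.sum_singleton, hone]⟩⟩
  refine ⟨r, E, χ, u.ker, hd, hr, ?_⟩
  rintro ⟨G, hG1, hG2, hG3⟩ U hU C hC
  refine hd.scalar_of_big (φ.comp G.subtype) (fun v => ?_)
    (fun K _ hK => hG2 K (by simp only [Fintype.card_fin] at hK ⊢; omega))
    (fun x hx => hw.commutant_two hφ hG3 fun v hv => hx ⟨v, hv⟩) U hC
  obtain ⟨σ, hσ⟩ := hind v (hG1 v v.2)
  exact ⟨σ, by rw [hφu, hσ]; rfl⟩

theorem hyp_main (hfg : (⊤ : IntermediateField ℚ k₀).FG) (g : ℕ) (hg : 1 ≤ g) (f : k₀[X])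
    (a : Fin (2 * g + 1) → k) (hinj : Function.Injective a)
    (hf : f.map (algebraMap k₀ k) = ∏ i, (X - C (a i)))
    (hc : Indep k₀ a ∨ SimpleGal k₀ a ∧ NonSq k₀ a) :
    HasIg (Fin (2 * g)) (galF (k := k) f) (BigGal k₀ a) := by
  let a' : Fin (2 * g + 1) → IntermediateField.adjoin k₀ (Set.range a) :=
    fun i => ⟨a i, IntermediateField.subset_adjoin _ _ ⟨i, rfl⟩⟩
  have key : ∀ (F : k[X]) (_ : F = hyp k a') (hfix : ∀ σ : k ≃ₐ[k₀] k, F.map (σ : k →+* k) = F),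
      HasIg (Fin (2 * g)) (fun σ : k ≃ₐ[k₀] k =>
        picMap (quadMap (Polynomial.mapRingHom (σ : k →+* k)) (hfix σ)))
        (BigGal k₀ a) := by
    intro F hF hfix
    subst hF
    exact hyp_core hfg g hg a hinj a' (fun _ => rfl) hfix hc
  exact key _ hf (map_fix f)

end

end Pool.Agent.Lib.MP_33b3f9_ag
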