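import Pool.Agent.Lib.MP_33b3f9_ag.IgStmt

/-!
Definitions used in the statement for hyperelliptic curves `y^2 = f(x)` over the field of
coefficients of `f`.
-/

open Polynomial

namespace Pool.Agent.Lib.MP_33b3f9_ag

noncomputable section

variable {k₀ : Type*} [Field k₀] {k : Type*} [Field k] [Algebra k₀ k]

lemma map_fix (f : k₀[X]) (σ : k ≃ₐ[k₀] k) :
    (f.map (algebraMap k₀ k)).map (σ : k →+* k) = f.map (algebraMap k₀ k) := by
  rw [Polynomial.map_map]
  congr 1
  ext x
  simp

/-- The action of `σ` on `J(k) = Pic (k[x,y]/(y^2 - f))` through the coefficients. -/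
def galF (f : k₀[X]) (σ : k ≃ₐ[k₀] k) :
    APic (Quad (f.map (algebraMap k₀ k))) → APic (Quad (f.map (algebraMap k₀ k))) :=
  picMap (quadMap (Polynomial.mapRingHom (σ : k →+* k)) (map_fix f σ))

variable {ι : Type} [Fintype ι] [DecidableEq ι]

/-- The product of `f'(a_i)` over `i` in `S`. -/
def der (a : ι → k) (S : Finset ι) : k := ∏ i ∈ S, ∏ j ∈ Finset.univ.erase i, (a i - a j)

variable (k₀)

/-- Neither `der a S` nor its negative is a square in the splitting field. -/
def NotSq (a : ι → k) (S : Finset ι) : Prop :=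
  ∀ y ∈ IntermediateField.adjoin k₀ (Set.range a), y * y ≠ der a S ∧ y * y ≠ -der a S

/-- The splitting field has a real embedding, or `(-1)^g f'(a_i)` is not a square in it for some
root (degree `2g+1`). -/
def NonSq (a : ι → k) : Prop :=
  Nonempty (IntermediateField.adjoin k₀ (Set.range a) →+* ℝ) ∨
    ∃ i, ∀ y ∈ IntermediateField.adjoin k₀ (Set.range a),
      y * y ≠ (-1) ^ (Fintype.card ι / 2) * der a {i}

/-- The permutation `u` of the roots is induced by the Galois group. -/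
def Ind (a : ι → k) (u : Equiv.Perm ι) : Prop := ∃ σ : k ≃ₐ[k₀] k, ∀ i, σ (a i) = a (u i)

/-- Each nonzero Galois stable space of even sets of roots has a member with `NotSq`. -/
def Indep (a : ι → k) : Prop :=
  ∀ N : Submodule (ZMod 2) (ι → ZMod 2), (∀ c ∈ N, ∑ i, c i = 0) →
    (∀ u, Ind k₀ a u → ∀ c ∈ N, c ∘ u ∈ N) → N ≠ ⊥ →
      ∃ c ∈ N, NotSq k₀ a (Finset.univ.filter fun i => c i = 1)

/-- The Galois group contains a group `G` without proper subgroups of index less than the degree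
in which the stabilizer of each root is transitive on the other roots. -/
def BigGal (a : ι → k) : Prop :=
  ∃ G : Subgroup (Equiv.Perm ι), (∀ u ∈ G, Ind k₀ a u) ∧
    (∀ H : Subgroup G, H.index < Fintype.card ι → H = ⊤) ∧
    ∀ i p q, p ≠ i → q ≠ i → ∃ u ∈ G, u i = i ∧ u p = q

/-- The even sets of roots (the points of order 2 of the Jacobian) form a simple Galois module. -/
def SimpleGal (a : ι → k) : Prop :=
  ∀ N : Submodule (ZMod 2) (ι → ZMod 2), (∀ c ∈ N, ∑ i, c i = 0) →
    (∀ u, Ind k₀ a u → ∀ c ∈ N, c ∘ u ∈ N) → N ≠ ⊥ → ∀ c, ∑ i, c i = 0 → c ∈ N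

/-- Tate data for the action `f` exist, and any such data have a nondegenerate alternating `E` with
`LefMT E ρ False`. -/
def LefHolds (ν : Type) [Fintype ν] [DecidableEq ν] {J Γ : Type*} [AddCommGroup J] [Group Γ]
    (f : Γ → J → J) : Prop :=
  (∃ (π : (ν → ℚ_[2]) →+ J) (ρ : Γ → GL ν ℚ_[2]), Tate f π ρ) ∧
    ∀ (π : (ν → ℚ_[2]) →+ J) (ρ : Γ → GL ν ℚ_[2]), Tate f π ρ →
      ∃ E : Matrix ν ν ℚ_[2], E.transpose = -E ∧ E.det ≠ 0 ∧ LefMT E ρ False

end

end Pool.Agent.Lib.MP_33b3f9_ag
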