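import Pool.Agent.Lib.MP_33b3f9_ag.IgTng

/-!
2-adic limits of difference quotients are tangent vectors.
-/

open Matrix Filter Topology

namespace Pool.Agent.Lib.MP_33b3f9_ag

noncomputable section

/-- an algebraic closure of `ℚ_2`; it carries the norm of `PadicAlgCl 2` -/
abbrev Qb : Type := AlgebraicClosure ℚ_[2]

lemma norm_toΩ (x : ℤ_[2]) : ‖toΩ Qb x‖ = ‖x‖ := by
  exact PadicAlgCl.norm_extends 2 (x : ℚ_[2])

lemma continuous_toΩ : Continuous (toΩ Qb) := by
  refine (AddMonoidHomClass.isometry_of_norm (toΩ Qb) norm_toΩ).continuous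

variable {ν : Type} [Fintype ν] [DecidableEq ν]

omit [Fintype ν] in
/-- Taylor expansion to first order; induction on `P` -/
lemma igLim_taylor (P : MvPolynomial (ν × ν) Qb) : ∃ (L : Matrix ν ν Qb → Qb)
    (Rem : Qb × Matrix ν ν Qb → Qb), Continuous L ∧ Continuous Rem ∧
      (∀ Z, MvPolynomial.aeval (fun p : ν × ν => dualM Z p.1 p.2) P =
        algebraMap Qb (DualNumber Qb) (evalM (1 : Matrix ν ν Qb) P) +
          algebraMap Qb (DualNumber Qb) (L Z) * DualNumber.eps) ∧
      ∀ c Z, evalM (1 + c • Z : Matrix ν ν Qb) P =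
        evalM (1 : Matrix ν ν Qb) P + c * L Z + c * c * Rem (c, Z) := by
  induction P using MvPolynomial.induction_on with
  | C a =>
    exact ⟨fun _ => 0, fun _ => 0, continuous_const, continuous_const, fun Z => by simp [evalM],
      fun c Z => by simp [evalM]⟩
  | add P Q hP hQ =>
    obtain ⟨L, Rem, h1, h2, h3, h4⟩ := hP
    obtain ⟨L', Rem', h1', h2', h3', h4'⟩ := hQ
    refine ⟨fun Z => L Z + L' Z, fun x => Rem x + Rem' x, h1.add h1', h2.add h2', fun Z => ?_,
      fun c Z => ?_⟩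
    · rw [map_add, h3, h3']
      simp only [evalM, map_add]
      ring
    · have e := h4 c Z
      have e' := h4' c Z
      simp only [evalM, map_add] at e e' ⊢
      rw [e, e']
      ring
  | mul_X P p hP =>
    obtain ⟨L, Rem, h1, h2, h3, h4⟩ := hP
    refine ⟨fun Z => L Z * (1 : Matrix ν ν Qb) p.1 p.2 + evalM (1 : Matrix ν ν Qb) P * Z p.1 p.2,
      fun x => L x.2 * x.2 p.1 p.2 + Rem x * ((1 : Matrix ν ν Qb) p.1 p.2 + x.1 * x.2 p.1 p.2),
      by fun_prop, by fun_prop, fun Z => ?_, fun c Z => ?_⟩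
    · have e : dualM Z p.1 p.2 = algebraMap Qb (DualNumber Qb) ((1 : Matrix ν ν Qb) p.1 p.2) +
          DualNumber.eps * algebraMap Qb (DualNumber Qb) (Z p.1 p.2) := by
        simp only [dualM, Matrix.add_apply, Matrix.smul_apply, map_apply, smul_eq_mul,
          Matrix.one_apply, apply_ite (algebraMap Qb (DualNumber Qb)), map_one, map_zero]
      rw [map_mul, h3, MvPolynomial.aeval_X, e]
      simp only [evalM, map_mul, map_add, MvPolynomial.aeval_X]
      linear_combination (algebraMap Qb (DualNumber Qb) (L Z) *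
        algebraMap Qb (DualNumber Qb) (Z p.1 p.2)) * DualNumber.eps_mul_eps (R := Qb)
    · have e := h4 c Z
      simp only [evalM, map_mul, MvPolynomial.aeval_X] at e ⊢
      rw [e]
      simp only [Matrix.add_apply, Matrix.smul_apply, smul_eq_mul]
      ring

/-- Sketch: with `c j = 2 ^ n j` one gets `L (X j) = - c j * Rem (c j, X j)`; pass to the limit. -/
theorem tng_of_limit (T : Submonoid (Matrix ν ν Qb)) (X : ℕ → Matrix ν ν ℤ_[2]) (n : ℕ → ℕ)
    (hn : Tendsto n atTop atTop) {Y : Matrix ν ν ℤ_[2]} (hX : Tendsto X atTop (𝓝 Y))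
    (hT : ∀ j, (1 + (2 : ℤ_[2]) ^ n j • X j).map (toΩ Qb) ∈ T) : Y.map (toΩ Qb) ∈ tng T := by
  intro P hP
  obtain ⟨L, Rem, h1, h2, h3, h4⟩ := igLim_taylor P
  have e0 := hP 1 T.one_mem
  have hm : Tendsto (fun j => (X j).map (toΩ Qb)) atTop (𝓝 (Y.map (toΩ Qb))) :=
    ((continuous_id.matrix_map continuous_toΩ).tendsto Y).comp hX
  have hc : Tendsto (fun j => toΩ Qb (2 ^ n j)) atTop (𝓝 0) := by
    have h5 : Tendsto (fun j => (2 : ℤ_[2]) ^ n j) atTop (𝓝 0) := by
      refine (tendsto_pow_atTop_nhds_zero_of_norm_lt_one ?_).comp hn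
      have := PadicInt.norm_p (p := 2)
      rw [Nat.cast_ofNat] at this
      rw [this]
      norm_num
    have := (continuous_toΩ.tendsto 0).comp h5
    rwa [map_zero] at this
  have e1 : ∀ j, L ((X j).map (toΩ Qb)) =
      -(toΩ Qb (2 ^ n j) * Rem (toΩ Qb (2 ^ n j), (X j).map (toΩ Qb))) := fun j => by
    have e2 := hP _ (hT j)
    have e3 : (1 + (2 : ℤ_[2]) ^ n j • X j).map (toΩ Qb) =
        1 + toΩ Qb (2 ^ n j) • (X j).map (toΩ Qb) := by
      ext a b
      simp only [map_apply, Matrix.add_apply, Matrix.smul_apply, smul_eq_mul, map_add, map_mul,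
        Matrix.one_apply, apply_ite (toΩ Qb), map_one, map_zero]
    rw [e3, h4, e0] at e2
    have e4 : toΩ Qb (2 ^ n j) ≠ 0 := by
      rw [← norm_ne_zero_iff, norm_toΩ, norm_ne_zero_iff]
      exact pow_ne_zero _ two_ne_zero
    refine mul_left_cancel₀ e4 ?_
    linear_combination e2
  have l1 := (h1.tendsto _).comp hm
  have l2 := (hc.mul ((h2.tendsto _).comp (hc.prodMk_nhds hm))).neg
  rw [zero_mul, neg_zero] at l2
  have e5 : L (Y.map (toΩ Qb)) = 0 := tendsto_nhds_unique l1 (l2.congr fun j => (e1 j).symm)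
  rw [h3, e0, e5, map_zero, zero_mul, add_zero]

end

end Pool.Agent.Lib.MP_33b3f9_ag
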