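import Pool.Agent.Lib.MP_33b3f9_ag.IgBr
import Pool.Agent.Lib.MP_33b3f9_ag.IgLim
import Pool.Agent.Lib.MP_33b3f9_ag.Lev

/-!
The Lie algebra of a 2-adic representation.
-/

open Matrix

namespace Pool.Agent.Lib.MP_33b3f9_ag

noncomputable section

variable {ν : Type} [Fintype ν] [DecidableEq ν] {Γ : Type*} [Group Γ]

/-- the representation over `Qb` -/
def repO (r : Γ →* Matrix ν ν ℤ_[2]) : Γ →* Matrix ν ν Qb :=
  (toΩ Qb).mapMatrix.toMonoidHom.comp r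

lemma repO_apply (r : Γ →* Matrix ν ν ℤ_[2]) (σ : Γ) : repO r σ = (r σ).map (toΩ Qb) := rfl

/-- the image of a subgroup -/
def imO (r : Γ →* Matrix ν ν ℤ_[2]) (U : Subgroup Γ) : Submonoid (Matrix ν ν Qb) :=
  U.toSubmonoid.map (repO r)

lemma mem_imO {r : Γ →* Matrix ν ν ℤ_[2]} {U : Subgroup Γ} {t : Matrix ν ν Qb} :
    t ∈ imO r U ↔ ∃ σ ∈ U, repO r σ = t := Iff.rfl

/-- the common tangent space -/
def kinf (r : Γ →* Matrix ν ν ℤ_[2]) : Submodule Qb (Matrix ν ν Qb) :=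
  ⨅ U : {U : Subgroup Γ // U.FiniteIndex}, tng (imO r U.1)

variable {r : Γ →* Matrix ν ν ℤ_[2]}

lemma mem_kinf {Y : Matrix ν ν Qb} :
    Y ∈ kinf r ↔ ∀ U : Subgroup Γ, U.FiniteIndex → Y ∈ tng (imO r U) := by
  rw [kinf, Submodule.mem_iInf]
  exact ⟨fun h U hU => h ⟨U, hU⟩, fun h U => h U.1 U.2⟩

lemma igInf_mono {U V : Subgroup Γ} (h : U ≤ V) : imO r U ≤ imO r V := by
  rintro _ ⟨σ, hσ, rfl⟩
  exact ⟨σ, h hσ, rfl⟩

/-- take `U` with `tng (imO r U)` minimal (well-foundedness); the family is directed -/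
lemma kinf_eq (r : Γ →* Matrix ν ν ℤ_[2]) :
    ∃ U : Subgroup Γ, U.FiniteIndex ∧ kinf r = tng (imO r U) := by
  obtain ⟨_, ⟨U, hU, rfl⟩, hmin⟩ := WellFounded.has_min
    (wellFounded_lt (α := Submodule Qb (Matrix ν ν Qb)))
    {W | ∃ U : Subgroup Γ, U.FiniteIndex ∧ tng (imO r U) = W} ⟨_, ⊤, inferInstance, rfl⟩
  refine ⟨U, hU, le_antisymm (fun Y hY => mem_kinf.1 hY U hU) fun Y hY => mem_kinf.2 ?_⟩
  intro V hV
  have h1 : tng (imO r (U ⊓ V)) ≤ tng (imO r U) := tng_mono (igInf_mono inf_le_left)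
  have h2 : tng (imO r (U ⊓ V)) = tng (imO r U) := by
    by_contra hne
    exact hmin _ ⟨U ⊓ V, inferInstance, rfl⟩ (lt_of_le_of_ne h1 hne)
  exact tng_mono (igInf_mono inf_le_right) (h2 ▸ hY : Y ∈ tng (imO r (U ⊓ V)))

lemma kinf_lie : ∀ Y ∈ kinf r, ∀ Z ∈ kinf r, Y * Z - Z * Y ∈ kinf r :=
  fun _ hY _ hZ => mem_kinf.2 fun U hU => tng_lie (mem_kinf.1 hY U hU) (mem_kinf.1 hZ U hU)

/-- `tng_conj` from `U.normalCore` to `U` -/
lemma kinf_conj (σ : Γ) {Y : Matrix ν ν Qb} (hY : Y ∈ kinf r) :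
    repO r σ * Y * repO r σ⁻¹ ∈ kinf r := by
  refine mem_kinf.2 fun U hU => ?_
  refine tng_conj (T := imO r U.normalCore) ?_ ?_ (mem_kinf.1 hY U.normalCore inferInstance)
  · rw [← map_mul, mul_inv_cancel, map_one]
  · rintro _ ⟨τ, hτ, rfl⟩
    exact ⟨σ * τ * σ⁻¹, hτ σ, by rw [map_mul, map_mul]⟩

/-- the hypotheses of the group theoretic theorem -/
structure IgData (r : Γ →* Matrix ν ν ℤ_[2]) (E : Matrix ν ν ℤ_[2]) (χ : Γ →* ℤ_[2]ˣ)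
    (H : Subgroup Γ) : Prop where
  fin : H.FiniteIndex
  skew : Eᵀ = -E
  mult : ∀ σ ∈ H, (r σ)ᵀ * E * r σ = (χ σ : ℤ_[2]) • E
  inf : ∀ U : Subgroup Γ, U.FiniteIndex → (χ '' U).Infinite
  ig : ∀ x : ν → ZMod 2, x ≠ 0 → ∃ (n : ℕ) (Y : Matrix ν ν (ZMod 2)), 1 ≤ n ∧ Lev r H n Y ∧
    Yᵀ * E.map red + E.map red * Y = 0 ∧ x ⬝ᵥ (E.map red * Y) *ᵥ x ≠ 0

variable {E : Matrix ν ν ℤ_[2]} {χ : Γ →* ℤ_[2]ˣ} {H : Subgroup Γ}

/-- if `E x = 0` mod 2 then `x ⬝ E Y x = - (Y x) ⬝ E x = 0` (`Matrix.exists_mulVec_eq_zero_iff`) -/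
lemma IgData.det_red (h : IgData r E χ H) : (E.map red).det ≠ 0 := by
  intro h0
  obtain ⟨x, hx, hE⟩ := Matrix.exists_mulVec_eq_zero_iff.2 h0
  obtain ⟨n, Y, -, -, -, h2⟩ := h.ig x hx
  apply h2
  have h3 : (E.map red)ᵀ = -E.map red := by
    rw [← Matrix.transpose_map, h.skew, Matrix.map_neg _ (map_neg red)]
  rw [← Matrix.mulVec_mulVec, Matrix.dotProduct_mulVec, ← Matrix.mulVec_transpose, h3,
    Matrix.neg_mulVec, hE, neg_zero, zero_dotProduct]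

lemma IgData.det (h : IgData r E χ H) : E.det ≠ 0 := by
  intro h0
  apply h.det_red
  have h1 := red.map_det E
  rw [h0, map_zero] at h1
  exact h1.symm

lemma IgData.skewO (h : IgData r E χ H) : (E.map (toΩ Qb))ᵀ = -E.map (toΩ Qb) := by
  rw [← Matrix.transpose_map, h.skew, Matrix.map_neg _ (map_neg (toΩ Qb))]

lemma IgData.detO (h : IgData r E χ H) : (E.map (toΩ Qb)).det ≠ 0 := by
  have hi : Function.Injective (toΩ Qb) :=
    (algebraMap ℚ_[2] Qb).injective.comp Subtype.val_injective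
  have h1 := (toΩ Qb).map_det E
  intro h0
  apply h.det
  apply hi
  rw [map_zero, h1]
  exact h0

lemma IgData.multO (h : IgData r E χ H) {σ : Γ} (hσ : σ ∈ H) :
    (repO r σ)ᵀ * E.map (toΩ Qb) * repO r σ = toΩ Qb (χ σ : ℤ_[2]) • E.map (toΩ Qb) := by
  rw [repO_apply, ← Matrix.transpose_map, ← Matrix.map_mul, ← Matrix.map_mul, h.mult σ hσ]
  ext i j
  simp only [Matrix.map_apply, Matrix.smul_apply, smul_eq_mul, map_mul]

end

end Pool.Agent.Lib.MP_33b3f9_ag
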