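import Pool.Agent.Lib.MP_33b3f9_ag.IgRad

/-!
Integrality of weights and orthogonality of roots.
-/

open LieModule LieAlgebra

namespace Pool.Agent.Lib.MP_33b3f9_ag

variable {K L V : Type*} [Field K] [LieRing L] [LieAlgebra K L]
  [AddCommGroup V] [Module K V] [LieRingModule L V] [LieModule K L V]

variable [CharZero K] [IsAlgClosed K] [FiniteDimensional K L] [FiniteDimensional K V]
  [IsKilling K L] (H : LieSubalgebra K L) [H.IsCartanSubalgebra]

/-- Sketch: `IsKilling.exists_isSl2Triple_of_weight_isNonZero`, `IsSl2Triple.h_eq_coroot`; `e` acts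
nilpotently (`LieModule.isNilpotent_toEnd_of_mem_rootSpace`); for the largest `n` with
`e ^ n v ≠ 0` this vector is primitive of weight `μ + 2 n`
(`IsSl2Triple.HasPrimitiveVectorWith.exists_nat`). -/
theorem ig_int (α : Weight K H L) (hα : α.IsNonZero) {v : V} (hv0 : v ≠ 0) {μ : K}
    (hv : ⁅(IsKilling.coroot α : L), v⁆ = μ • v) : ∃ n : ℤ, μ = n := by
  obtain ⟨h, e, f, t, he, hf⟩ := IsKilling.exists_isSl2Triple_of_weight_isNonZero hα
  obtain rfl := t.h_eq_coroot hα he hf
  obtain ⟨k, hk⟩ := LieModule.isNilpotent_toEnd_of_mem_rootSpace (M := V) H hα he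
  obtain ⟨n, h1, h2⟩ := Nat.exists_not_and_succ_of_not_zero_of_exists
    (p := fun n => (toEnd K L V e ^ n) v = 0) (by simpa using hv0) ⟨k, by simp [hk]⟩
  have P : t.HasPrimitiveVectorWith ((toEnd K L V e ^ n) v) (μ + 2 * n) :=
    ⟨h1, t.lie_h_pow_toEnd_e hv n, (IsSl2Triple.lie_e_pow_toEnd_e n).trans h2⟩
  obtain ⟨m, hm⟩ := P.exists_nat
  exact ⟨m - 2 * n, by push_cast; linear_combination hm⟩

omit [LieRingModule L V] [LieModule K L V] in
/-- Sketch: in `IsKilling.rootSystem H` the two roots are linearly independent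
(`IsKilling.eq_neg_or_eq_of_eq_smul` or `RootPairing.IsReduced`), so the product `4 a b` of the two
Cartan integers lies in `{0, 1, 2, 3}`
(`RootPairing.coxeterWeightIn_mem_set_of_isCrystallographic`,
`RootPairing.coxeterWeightIn_ne_four`), and one pairing vanishes iff the other does. -/
theorem ig_perp (α β : Weight K H L) (hα : α.IsNonZero) (hβ : β.IsNonZero) {a b : ℤ}
    (ha : α (IsKilling.coroot β) = 2 * (a : K)) (hb : β (IsKilling.coroot α) = 2 * (b : K))
    (h1 : (α : H → K) ≠ β) (h2 : (α : H → K) ≠ -β) : β (IsKilling.coroot α) = 0 := by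
  have key := (IsKilling.rootSystem H).pairingIn_pairingIn_mem_set_of_isCrystal_of_isRed'
    ⟨α, by simpa using hα⟩ ⟨β, by simpa using hβ⟩
    (fun h => h1 (funext fun x => DFunLike.congr_fun h x))
    (fun h => h2 (funext fun x => DFunLike.congr_fun h x))
  have e : ∀ (i j : H.root) (c : ℤ), i.1 (IsKilling.coroot j.1) = 2 * (c : K) →
      (IsKilling.rootSystem H).pairingIn ℤ i j = 2 * c := fun i j c hc => by
    have h3 := (IsKilling.rootSystem H).algebraMap_pairingIn ℤ i j
    rw [IsKilling.rootSystem_pairing_apply, hc, eq_intCast] at h3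
    exact_mod_cast h3
  rw [e _ _ a ha, e _ _ b hb] at key
  simp only [Set.mem_insert_iff, Set.mem_singleton_iff, Prod.mk.injEq] at key
  rw [hb, show b = 0 by omega, Int.cast_zero, mul_zero]

end Pool.Agent.Lib.MP_33b3f9_ag
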