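import Pool.Agent.Lib.MP_33b3f9_ag.IgCore
import Pool.Agent.Lib.MP_33b3f9_ag.IgBase

/-!
The Zariski closure is the Lefschetz group.
-/

open Matrix

namespace Pool.Agent.Lib.MP_33b3f9_ag

noncomputable section

variable {ν : Type} [Fintype ν] [DecidableEq ν] {Γ : Type*} [Group Γ]
  {r : Γ →* Matrix ν ν ℤ_[2]} {E : Matrix ν ν ℤ_[2]} {χ : Γ →* ℤ_[2]ˣ} {H : Subgroup Γ}
  {ρ : Γ → GL ν ℚ_[2]}

/-- Sketch: `small`; then the scalars as in the proof of `zcl_eq_gsp` (`mcl_curve`): for `σ ∈ U` with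
`χ σ = t * t` the matrix `repO r σ⁻¹ * (t • s)` is symplectic and commutes with the commutant. -/
theorem IgData.zcl_eq_lef [Nonempty ν] (h : IgData r E χ H)
    (hρ : ∀ σ, (ρ σ : Matrix ν ν ℚ_[2]) = (r σ).map ((↑) : ℤ_[2] → ℚ_[2])) :
    ∃ U₀ : Subgroup Γ, U₀ ≤ H ∧ U₀.FiniteIndex ∧ ∀ U ≤ U₀, U.FiniteIndex →
      zcl Qb (ρ '' U) = lef (E.map ((↑) : ℤ_[2] → ℚ_[2])) (ρ '' U) := by
  obtain ⟨U₀, hU₀H, hU₀, hsmall⟩ := h.small
  refine ⟨U₀, hU₀H, hU₀, fun U hU hfin => ?_⟩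
  have hH : ∀ σ ∈ U, σ ∈ H := fun σ hσ => hU₀H (hU hσ)
  have e0 : (E.map ((↑) : ℤ_[2] → ℚ_[2])).map (algebraMap ℚ_[2] Qb) = E.map (toΩ Qb) := rfl
  refine Set.Subset.antisymm (zcl_subset_lef _ ?_ ?_) fun g hg => ?_
  · have := PadicInt.Coe.ringHom.map_det E
    rw [RingHom.mapMatrix_apply] at this
    intro h0
    exact h.det (Subtype.val_injective (this.trans h0))
  · rintro _ ⟨σ, hσ, rfl⟩
    exact ⟨_, by rw [hρ]; exact zar_map PadicInt.Coe.ringHom (h.mult σ (hH σ hσ))⟩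
  refine mem_zcl_of_mcl hρ U ?_
  obtain ⟨⟨m, hm⟩, hgC⟩ := hg
  rw [e0] at hm
  have hmul : ∀ a ∈ (imO r U : Set (Matrix ν ν Qb)), ∀ b ∈ (imO r U : Set (Matrix ν ν Qb)),
      a * b ∈ (imO r U : Set (Matrix ν ν Qb)) := fun a ha b hb => (imO r U).mul_mem ha hb
  have hmem : ∀ σ ∈ U, repO r σ ∈ imO r U := fun σ hσ => mem_imO.2 ⟨σ, hσ, rfl⟩
  have hgC' : ∀ C : Matrix ν ν Qb, (∀ t ∈ imO r U, C * t = t * C) →
      C * (g : Matrix ν ν Qb) = g * C := by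
    intro C hC
    refine commt_base (ρ '' U) hgC ?_
    rintro _ ⟨σ, hσ, rfl⟩
    rw [hρ]
    exact hC _ (hmem σ hσ)
  have hdet' := h.detO
  have hm0 : m ≠ 0 := by
    rintro rfl
    have := congrArg Matrix.det hm
    rw [zero_smul, det_zero, det_mul, det_mul, det_transpose] at this
    exact mul_ne_zero (mul_ne_zero g.det_ne_zero hdet') g.det_ne_zero this
  obtain ⟨t₀, ht₀⟩ := IsAlgClosed.exists_eq_mul_self m
  have ht0 : t₀ ≠ 0 := by
    rintro rfl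
    exact hm0 (by rw [ht₀, mul_zero])
  obtain ⟨s, hs⟩ : ∃ s, s = t₀⁻¹ • (g : Matrix ν ν Qb) := ⟨_, rfl⟩
  have hs1 : sᵀ * E.map (toΩ Qb) * s = E.map (toΩ Qb) := by
    rw [hs, transpose_smul, smul_mul_assoc, smul_mul_assoc, mul_smul_comm, hm, smul_smul,
      smul_smul, ht₀]
    convert one_smul Qb _
    field_simp
  have hsC : ∀ C : Matrix ν ν Qb, (∀ t ∈ imO r U, C * t = t * C) → C * s = s * C := by
    intro C hC
    rw [hs, mul_smul_comm, smul_mul_assoc, hgC' C hC]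
  have hγ : ∀ t : Qb, (Matrix.of fun i j => Polynomial.X * Polynomial.C (s i j)).map
      (Polynomial.eval t) = t • s := fun t => by
    ext i j
    rw [map_apply, of_apply, Polynomial.eval_mul, Polynomial.eval_X, Polynomial.eval_C,
      Matrix.smul_apply, smul_eq_mul]
  have := mcl_curve (imO r U : Set (Matrix ν ν Qb))
    (Matrix.of fun i j => Polynomial.X * Polynomial.C (s i j))
    {t | ∃ σ ∈ U, toΩ Qb (χ σ : ℤ_[2]) = t * t} ?_ ?_ t₀
  · rwa [hγ, hs, smul_smul, mul_inv_cancel₀ ht0, one_smul] at this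
  · refine Set.Infinite.of_image (fun t => t * t) (Set.Infinite.mono ?_
      ((h.inf U hfin).image (f := fun u : ℤ_[2]ˣ => toΩ Qb (u : ℤ_[2]))
        (zar_inj.comp Units.val_injective).injOn))
    rintro _ ⟨_, ⟨σ, hσ, rfl⟩, rfl⟩
    obtain ⟨t, ht⟩ := IsAlgClosed.exists_eq_mul_self (toΩ Qb (χ σ : ℤ_[2]))
    exact ⟨t, ⟨σ, hσ, ht⟩, ht.symm⟩
  · rintro t ⟨σ, hσ, ht⟩
    rw [hγ]
    have h1 : repO r σ * (repO r σ⁻¹ * (t • s)) = t • s := by
      rw [← mul_assoc, ← map_mul, mul_inv_cancel, map_one, one_mul]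
    rw [← h1]
    refine mcl_mul hmul (subset_mcl _ (hmem σ hσ)) (hsmall U hU hfin _ ?_ ?_)
    · have h2 := h.multO (hH σ⁻¹ (U.inv_mem hσ))
      have h3 : t * t * toΩ Qb (χ σ⁻¹ : ℤ_[2]) = 1 := by
        rw [← ht, ← map_mul, ← Units.val_mul, ← map_mul, mul_inv_cancel, map_one, Units.val_one,
          map_one]
      calc _ = (t • s)ᵀ * ((repO r σ⁻¹)ᵀ * E.map (toΩ Qb) * repO r σ⁻¹) * (t • s) := by
            rw [transpose_mul]
            simp only [mul_assoc]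
        _ = _ := by
            rw [h2, transpose_smul, smul_mul_assoc, smul_mul_assoc, mul_smul_comm, mul_smul_comm,
              smul_mul_assoc, hs1, smul_smul, smul_smul, h3, one_smul]
    · intro C hC
      rw [← mul_assoc, hC _ (hmem σ⁻¹ (U.inv_mem hσ)), mul_assoc, mul_smul_comm, hsC C hC,
        mul_assoc, smul_mul_assoc]

end

end Pool.Agent.Lib.MP_33b3f9_ag
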