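import Pool.Agent.Lib.MP_33b3f9_ag.IgMTa

/-!
The Mumford-Tate group lies in the Lefschetz group.
-/

open Matrix

namespace Pool.Agent.Lib.MP_33b3f9_ag

noncomputable section

variable {ν : Type} [Fintype ν] [DecidableEq ν]

/-- Sketch: `ψ` is nondegenerate as `ψ I` is positive definite; `simEqns_subset`, `simEqns_iff` over
`ℚ_2` and over `Qb`; `exists_comm_form`, `EndTate` and `mt_comm` show that `g` commutes with
`C = E⁻¹ ψ`, so `gᵀ E g C = gᵀ ψ g = m • E C`. -/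
theorem mt_subset_lef {Γ : Type*} [Group Γ] [Nonempty ν] (R : Γ →* Matrix ν ν ℚ_[2])
    {ρ : Γ → GL ν ℚ_[2]} (hρ : ∀ σ, (ρ σ : Matrix ν ν ℚ_[2]) = R σ) {E : Matrix ν ν ℚ_[2]}
    (hE : E.det ≠ 0) {I : Matrix ν ν ℝ} (hI : Polarizable I) (hT : EndTate ρ I) (U : Subgroup Γ)
    [U.FiniteIndex] (h1 : ∀ σ ∈ U, ∃ c : ℚ_[2], (R σ)ᵀ * E * R σ = c • E)
    (hU : ρ '' U ⊆ zeroSet ℚ_[2] (mtEqns I)) : zeroSet Qb (mtEqns I) ⊆ lef E (ρ '' U) := by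
  obtain ⟨hII, ψ, -, hinv, hpos⟩ := hI
  have hdet : ψ.det ≠ 0 := by
    intro h0
    have h1 := hpos.det_pos
    have h2 : (ψ.map (Rat.cast : ℚ → ℝ)).det = (ψ.det : ℝ) := ((Rat.castHom ℝ).map_det ψ).symm
    rw [det_mul, h2, h0, Rat.cast_zero, zero_mul] at h1
    exact lt_irrefl _ h1
  have hψ : ψ ≠ 0 := by
    rintro rfl
    exact hdet det_zero
  have hdet2 : (ψ.map (algebraMap ℚ ℚ_[2])).det ≠ 0 := by
    have h2 : (ψ.map (algebraMap ℚ ℚ_[2])).det = algebraMap ℚ ℚ_[2] ψ.det :=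
      ((algebraMap ℚ ℚ_[2]).map_det ψ).symm
    rw [h2]
    exact (map_ne_zero _).2 hdet
  obtain ⟨U', hU', hc⟩ := exists_comm_form R hE hdet2 U h1 fun σ hσ => by
    rw [← hρ, ← simEqns_iff hψ]
    exact fun P hP => hU ⟨σ, hσ, rfl⟩ P (simEqns_subset hII hψ hinv hP)
  intro g hg
  refine ⟨?_, fun C hC => mt_comm hg (hT U ‹_› hC)⟩
  obtain ⟨m, hm⟩ := (simEqns_iff hψ (g : Matrix ν ν Qb)).1 fun P hP =>
    hg P (simEqns_subset hII hψ hinv hP)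
  have h3 := mt_comm hg (hT U' hU' (a := E⁻¹ * ψ.map (algebraMap ℚ ℚ_[2])) (by
    rintro _ ⟨σ, hσ, rfl⟩
    rw [hρ]
    exact hc σ hσ))
  have h4 : E.map (algebraMap ℚ_[2] Qb) *
      (E⁻¹ * ψ.map (algebraMap ℚ ℚ_[2])).map (algebraMap ℚ_[2] Qb) = ψ.map (algebraMap ℚ Qb) := by
    rw [← Matrix.map_mul, mul_nonsing_inv_cancel_left _ _ hE.isUnit]
    ext i j
    simp
  have h5 : ((E⁻¹ * ψ.map (algebraMap ℚ ℚ_[2])).map (algebraMap ℚ_[2] Qb)).det ≠ 0 := by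
    intro h0
    have h6 := congrArg det h4
    have h7 : (ψ.map (algebraMap ℚ Qb)).det = algebraMap ℚ Qb ψ.det :=
      ((algebraMap ℚ Qb).map_det ψ).symm
    rw [det_mul, h0, mul_zero, h7] at h6
    exact (map_ne_zero _).2 hdet h6.symm
  generalize (E⁻¹ * ψ.map (algebraMap ℚ ℚ_[2])).map (algebraMap ℚ_[2] Qb) = C at h3 h4 h5
  refine ⟨m, ?_⟩
  have h6 : (g : Matrix ν ν Qb)ᵀ * E.map (algebraMap ℚ_[2] Qb) * g * C =
      (m • E.map (algebraMap ℚ_[2] Qb)) * C := by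
    rw [Matrix.smul_mul, h4, ← hm, ← h4, mul_assoc _ _ C, ← h3]
    simp only [mul_assoc]
  have h7 := congrArg (· * C⁻¹) h6
  simpa only [mul_nonsing_inv_cancel_right _ _ h5.isUnit] using h7

end

end Pool.Agent.Lib.MP_33b3f9_ag
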