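import Pool.Agent.Lib.MP_33b3f9_ag.Trans

/-!
The Mumford-Tate group of a polarizable complex structure lies in the similitude group of the
Riemann form.
-/

open Matrix

namespace Pool.Agent.Lib.MP_33b3f9_ag

noncomputable section

variable {ν : Type} [Fintype ν] [DecidableEq ν]

/-- equations saying that `g^T ψ g` is proportional to `ψ` -/
def simEqns (ψ : Matrix ν ν ℚ) : Set (MvPolynomial (ν × ν) ℚ) :=
  {P | ∃ i j l m : ν,
    P = ((Matrix.of fun s t => MvPolynomial.X (s, t))ᵀ * ψ.map MvPolynomial.C *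
          (Matrix.of fun s t => MvPolynomial.X (s, t)) : Matrix ν ν (MvPolynomial (ν × ν) ℚ)) i j *
        MvPolynomial.C (ψ l m) -
      ((Matrix.of fun s t => MvPolynomial.X (s, t))ᵀ * ψ.map MvPolynomial.C *
          (Matrix.of fun s t => MvPolynomial.X (s, t)) : Matrix ν ν (MvPolynomial (ν × ν) ℚ)) l m *
        MvPolynomial.C (ψ i j)}

omit [DecidableEq ν] in
lemma MT_eval {Ω : Type*} [Field Ω] [Algebra ℚ Ω] (ψ : Matrix ν ν ℚ) (g : Matrix ν ν Ω)
    (i j : ν) :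
    MvPolynomial.aeval (fun p : ν × ν => g p.1 p.2)
      (((Matrix.of fun s t => MvPolynomial.X (s, t))ᵀ * ψ.map MvPolynomial.C *
          (Matrix.of fun s t => MvPolynomial.X (s, t)) :
            Matrix ν ν (MvPolynomial (ν × ν) ℚ)) i j) =
      (gᵀ * ψ.map (algebraMap ℚ Ω) * g) i j := by
  simp [Matrix.mul_apply, map_sum]

omit [Fintype ν] [DecidableEq ν] in
lemma MT_map_ne_zero {Ω : Type*} [Field Ω] [Algebra ℚ Ω] {ψ : Matrix ν ν ℚ} (hψ : ψ ≠ 0) :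
    ψ.map (algebraMap ℚ Ω) ≠ 0 := by
  intro h
  apply hψ
  ext i j
  have : algebraMap ℚ Ω (ψ i j) = 0 := congrFun (congrFun h i) j
  exact (map_eq_zero _).1 this

lemma simEqns_iff {Ω : Type*} [Field Ω] [Algebra ℚ Ω] {ψ : Matrix ν ν ℚ} (hψ : ψ ≠ 0)
    (g : Matrix ν ν Ω) : (∀ P ∈ simEqns ψ, evalM g P = 0) ↔
      ∃ m : Ω, gᵀ * ψ.map (algebraMap ℚ Ω) * g = m • ψ.map (algebraMap ℚ Ω) := by
  constructor
  · intro h
    obtain ⟨l, m, hlm⟩ : ∃ l m, ψ l m ≠ 0 := by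
      by_contra hc
      push Not at hc
      exact hψ (by ext l m; simp [hc])
    have hne : algebraMap ℚ Ω (ψ l m) ≠ 0 := (map_ne_zero _).2 hlm
    refine ⟨(gᵀ * ψ.map (algebraMap ℚ Ω) * g) l m / algebraMap ℚ Ω (ψ l m), ?_⟩
    ext i j
    have := h _ ⟨i, j, l, m, rfl⟩
    rw [evalM, map_sub, map_mul, map_mul, MT_eval, MT_eval, MvPolynomial.aeval_C,
      MvPolynomial.aeval_C, sub_eq_zero] at this
    rw [Matrix.smul_apply, Matrix.map_apply, smul_eq_mul, div_mul_eq_mul_div, ← this,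
      mul_div_cancel_right₀ _ hne]
  · rintro ⟨c, hc⟩ P ⟨i, j, l, m, rfl⟩
    rw [evalM, map_sub, map_mul, map_mul, MT_eval, MT_eval, MvPolynomial.aeval_C,
      MvPolynomial.aeval_C, hc]
    simp only [Matrix.smul_apply, Matrix.map_apply, smul_eq_mul]
    ring

/-- the similitude group of a nonzero form -/
def MT_grp {Ω : Type*} [Field Ω] {A : Matrix ν ν Ω} (hA : A ≠ 0) : Subgroup (GL ν Ω) where
  carrier := {g | ∃ m : Ω, (g : Matrix ν ν Ω)ᵀ * A * g = m • A}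
  one_mem' := ⟨1, by simp⟩
  mul_mem' := by
    rintro g h ⟨m, hm⟩ ⟨n, hn⟩
    refine ⟨m * n, ?_⟩
    have : ((g * h : GL ν Ω) : Matrix ν ν Ω)ᵀ * A * (g * h : GL ν Ω) =
        (h : Matrix ν ν Ω)ᵀ * ((g : Matrix ν ν Ω)ᵀ * A * g) * h := by
      simp only [Units.val_mul, Matrix.transpose_mul, Matrix.mul_assoc]
    rw [this, hm, Matrix.mul_smul, Matrix.smul_mul, hn, smul_smul]
  inv_mem' := by
    rintro g ⟨m, hm⟩
    have h1 : ((g⁻¹ : GL ν Ω) : Matrix ν ν Ω)ᵀ * ((g : Matrix ν ν Ω)ᵀ * A * g) *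
        (g⁻¹ : GL ν Ω) = A := by
      have e1 : ((g⁻¹ : GL ν Ω) : Matrix ν ν Ω)ᵀ * (g : Matrix ν ν Ω)ᵀ = 1 := by
        rw [← Matrix.transpose_mul, Units.mul_inv, Matrix.transpose_one]
      calc ((g⁻¹ : GL ν Ω) : Matrix ν ν Ω)ᵀ * ((g : Matrix ν ν Ω)ᵀ * A * g) * (g⁻¹ : GL ν Ω)
          = (((g⁻¹ : GL ν Ω) : Matrix ν ν Ω)ᵀ * (g : Matrix ν ν Ω)ᵀ) * A *
            ((g : Matrix ν ν Ω) * (g⁻¹ : GL ν Ω)) := by simp only [Matrix.mul_assoc]
        _ = A := by rw [e1, Units.mul_inv, Matrix.one_mul, Matrix.mul_one]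
    rw [hm, Matrix.mul_smul, Matrix.smul_mul] at h1
    have hm0 : m ≠ 0 := by
      rintro rfl
      rw [zero_smul] at h1
      exact hA h1.symm
    refine ⟨m⁻¹, ?_⟩
    conv_rhs => rw [← h1]
    rw [smul_smul, inv_mul_cancel₀ hm0, one_smul]

lemma simEqns_subset {I : Matrix ν ν ℝ} (hI : I * I = -1) {ψ : Matrix ν ν ℚ} (hψ : ψ ≠ 0)
    (hinv : Iᵀ * ψ.map (Rat.cast : ℚ → ℝ) * I = ψ.map (Rat.cast : ℚ → ℝ)) :
    simEqns ψ ⊆ mtEqns I := by
  apply Set.subset_sUnion_of_mem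
  refine ⟨⟨MT_grp (MT_map_ne_zero (Ω := AlgebraicClosure ℚ) hψ), ?_⟩, ?_⟩
  · ext g
    exact (simEqns_iff hψ (g : Matrix ν ν (AlgebraicClosure ℚ))).symm
  · intro u v _
    rw [simEqns_iff hψ]
    have hc : ψ.map (algebraMap ℚ ℝ) = ψ.map (Rat.cast : ℚ → ℝ) := by
      ext i j
      simp
    rw [hc]
    set A := ψ.map (Rat.cast : ℚ → ℝ) with hA
    have h2 : Iᵀ * A = -(A * I) := by
      have : Iᵀ * A * I * I = A * I := by rw [hinv]
      rw [Matrix.mul_assoc, hI, Matrix.mul_neg, Matrix.mul_one] at this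
      rw [← this, neg_neg]
    refine ⟨u * u + v * v, ?_⟩
    rw [Matrix.transpose_add, Matrix.transpose_smul, Matrix.transpose_smul, Matrix.transpose_one]
    simp only [Matrix.add_mul, Matrix.mul_add, Matrix.smul_mul, Matrix.mul_smul, Matrix.one_mul,
      Matrix.mul_one, hinv]
    rw [h2]
    module

omit [Fintype ν] [DecidableEq ν] in
lemma MT_skew {F Ω : Type*} [Field F] [Field Ω] (f : F →+* Ω) {E : Matrix ν ν F}
    (hE : Eᵀ = -E) : (E.map f)ᵀ = -E.map f := by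
  ext i j
  have := congrFun (congrFun hE i) j
  simp only [Matrix.transpose_apply, Matrix.neg_apply] at this
  simp only [Matrix.transpose_apply, Matrix.neg_apply, Matrix.map_apply, this, map_neg]

lemma MT_sub {F Ω : Type*} [Field F] [Algebra ℚ F] [Field Ω] [Algebra ℚ Ω] [Algebra F Ω]
    (T : Set (GL ν F)) (S : Set (MvPolynomial (ν × ν) ℚ)) (hTI : T ⊆ zeroSet F S) :
    zcl Ω T ⊆ zeroSet Ω S := by
  have : IsScalarTower ℚ F Ω := IsScalarTower.of_algebraMap_eq' (RingHom.ext_rat _ _)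
  intro g hg P hP
  have h1 := hg (MvPolynomial.map (algebraMap ℚ F) P) (by
    intro h hh
    rw [evalM, MvPolynomial.aeval_map_algebraMap]
    exact hTI hh P hP)
  rw [evalM, MvPolynomial.aeval_map_algebraMap] at h1
  exact h1

lemma MT_trans {Ω : Type*} [Field Ω] [CharZero Ω] {E : Matrix ν ν Ω} (hE : Eᵀ = -E)
    (hdet : E.det ≠ 0) (u : ν → Ω) :
    ∃ g : GL ν Ω, (g : Matrix ν ν Ω) = 1 + sqm E u ∧ (g : Matrix ν ν Ω)ᵀ * E * g = E := by
  have hu : u ⬝ᵥ E *ᵥ u = 0 := by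
    have h1 : u ⬝ᵥ E *ᵥ u = -(u ⬝ᵥ E *ᵥ u) := by
      conv_lhs => rw [Matrix.dotProduct_mulVec, ← Matrix.mulVec_transpose, hE, Matrix.neg_mulVec,
        neg_dotProduct, dotProduct_comm]
    have h2 : (2 : Ω) * (u ⬝ᵥ E *ᵥ u) = 0 := by linear_combination h1
    exact (mul_eq_zero.1 h2).resolve_left two_ne_zero
  have ht := trans_sp hE u hu 1
  rw [one_smul] at ht
  have hd : (1 + sqm E u).det ≠ 0 := by
    intro h0
    have := congrArg Matrix.det ht
    rw [Matrix.det_mul, h0, mul_zero] at this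
    exact hdet this.symm
  exact ⟨Matrix.GeneralLinearGroup.mkOfDetNeZero _ hd, rfl, ht⟩

/-- if the Zariski closure of `T` is `GSp(E)` and `T` lies in the Mumford-Tate group, then the
closure is the Mumford-Tate group -/
theorem zcl_eq_mt {F Ω : Type*} [Field F] [Algebra ℚ F] [Field Ω] [Algebra ℚ Ω] [Algebra F Ω]
    [Nonempty ν] {E : Matrix ν ν F} (hE : Eᵀ = -E) (hdet : E.det ≠ 0)
    (T : Set (GL ν F)) (hT : zcl Ω T = gsp Ω E) {I : Matrix ν ν ℝ} (hI : Polarizable I)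
    (hTI : T ⊆ zeroSet F (mtEqns I)) : zcl Ω T = zeroSet Ω (mtEqns I) := by
  have : CharZero Ω := algebraRat.charZero Ω
  obtain ⟨hII, ψ, hψT, hinv, hpos⟩ := hI
  have hψ : ψ ≠ 0 := by
    rintro rfl
    have := hpos.diag_pos (i := Classical.arbitrary ν)
    simp at this
  have hsub : zcl Ω T ⊆ zeroSet Ω (mtEqns I) := MT_sub T _ hTI
  have hsim : ∀ g ∈ zeroSet Ω (mtEqns I), ∃ m : Ω,
      (g : Matrix ν ν Ω)ᵀ * ψ.map (algebraMap ℚ Ω) * g = m • ψ.map (algebraMap ℚ Ω) := by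
    intro g hg
    rw [← simEqns_iff hψ]
    intro P hP
    exact hg P (simEqns_subset hII hψ hinv hP)
  refine Set.Subset.antisymm hsub ?_
  have hE' := MT_skew (algebraMap F Ω) hE
  have hdet' : (E.map (algebraMap F Ω)).det ≠ 0 := by
    have : (E.map (algebraMap F Ω)).det = algebraMap F Ω E.det :=
      ((algebraMap F Ω).map_det E).symm
    rw [this]
    exact (map_ne_zero _).2 hdet
  have hψ' := MT_skew (algebraMap ℚ Ω) hψT
  obtain ⟨c, hc⟩ := prop_of_trans hE' hdet' hψ' (by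
    intro u
    obtain ⟨g, hg1, hg2⟩ := MT_trans hE' hdet' u
    have hmem : g ∈ gsp Ω E := ⟨1, by rw [one_smul]; exact hg2⟩
    rw [← hT] at hmem
    rw [← hg1]
    exact hsim _ (hsub hmem))
  have hc0 : c ≠ 0 := by
    rintro rfl
    rw [zero_smul] at hc
    exact MT_map_ne_zero hψ hc
  intro g hg
  obtain ⟨m, hm⟩ := hsim g hg
  rw [hT]
  refine ⟨m, ?_⟩
  rw [hc, Matrix.mul_smul, Matrix.smul_mul, smul_comm] at hm
  exact smul_right_injective _ hc0 hm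

end

end Pool.Agent.Lib.MP_33b3f9_ag
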