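import Pool.Agent.Lib.MP_33b3f9_ag.IgFin
import Pool.Agent.Lib.MP_33b3f9_ag.IgLim
import Pool.Agent.Lib.MP_33b3f9_ag.IgStmt
import Pool.Agent.Lib.MP_33b3f9_ag.MT

/-!
Hodge endomorphisms commute with the Mumford-Tate group; comparison of two forms.
-/

open Matrix

namespace Pool.Agent.Lib.MP_33b3f9_ag

noncomputable section

variable {ν : Type} [Fintype ν] [DecidableEq ν]

/-- equations saying that `g` commutes with `D` -/
def igMTa_eqns (D : Matrix ν ν ℚ) : Set (MvPolynomial (ν × ν) ℚ) :=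
  {P | ∃ i j : ν, P = ∑ l, (MvPolynomial.C (D i l) * MvPolynomial.X (l, j) -
    MvPolynomial.X (i, l) * MvPolynomial.C (D l j))}

omit [DecidableEq ν] in
lemma igMTa_iff {Ω : Type*} [Field Ω] [Algebra ℚ Ω] (D : Matrix ν ν ℚ) (g : Matrix ν ν Ω) :
    (∀ P ∈ igMTa_eqns D, evalM g P = 0) ↔
      D.map (Rat.cast : ℚ → Ω) * g = g * D.map (Rat.cast : ℚ → Ω) := by
  have h : ∀ i j, evalM g (∑ l, (MvPolynomial.C (D i l) * MvPolynomial.X (l, j) -
      MvPolynomial.X (i, l) * MvPolynomial.C (D l j))) =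
      (D.map (Rat.cast : ℚ → Ω) * g) i j - (g * D.map (Rat.cast : ℚ → Ω)) i j := by
    intro i j
    simp [evalM, Matrix.mul_apply]
  constructor
  · intro H
    ext i j
    exact sub_eq_zero.1 ((h i j).symm.trans (H _ ⟨i, j, rfl⟩))
  · rintro H P ⟨i, j, rfl⟩
    rw [h, H, sub_self]

lemma igMTa_subset {I : Matrix ν ν ℝ} {D : Matrix ν ν ℚ}
    (hD : D.map (Rat.cast : ℚ → ℝ) * I = I * D.map (Rat.cast : ℚ → ℝ)) :
    igMTa_eqns D ⊆ mtEqns I := by
  apply Set.subset_sUnion_of_mem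
  refine ⟨⟨{ carrier := {g : GL ν (AlgebraicClosure ℚ) | Commute
               (D.map (Rat.cast : ℚ → AlgebraicClosure ℚ)) (g : Matrix ν ν (AlgebraicClosure ℚ))}
             one_mem' := Commute.one_right _
             mul_mem' := fun ha hb => Commute.mul_right ha hb
             inv_mem' := fun ha => Commute.units_inv_right ha }, ?_⟩, ?_⟩
  · ext g
    exact (igMTa_iff D (g : Matrix ν ν (AlgebraicClosure ℚ))).symm
  · intro u v _
    rw [igMTa_iff]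
    simp only [Matrix.add_mul, Matrix.mul_add, Matrix.smul_mul, Matrix.mul_smul, Matrix.one_mul,
      Matrix.mul_one, hD]

/-- Sketch: the entries of `D x - x D` define an algebraic subgroup over `ℚ` that contains all
`u + v I` (compare `simEqns_subset`); then `Submodule.span_induction`. -/
lemma mt_comm {I : Matrix ν ν ℝ} {g : GL ν Qb} (hg : g ∈ zeroSet Qb (mtEqns I))
    {C : Matrix ν ν ℚ_[2]} (hC : C ∈ hodgeEnd I) :
    C.map (algebraMap ℚ_[2] Qb) * (g : Matrix ν ν Qb) = g * C.map (algebraMap ℚ_[2] Qb) := by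
  induction hC using Submodule.span_induction with
  | mem C hC =>
    obtain ⟨D, hD, rfl⟩ := hC
    have e : (D.map (Rat.cast : ℚ → ℚ_[2])).map (algebraMap ℚ_[2] Qb) =
        D.map (Rat.cast : ℚ → Qb) := by
      ext i j
      simp
    rw [e]
    exact (igMTa_iff D _).1 fun P hP => hg P (igMTa_subset hD hP)
  | zero => simp
  | add x y _ _ hx hy =>
    rw [Matrix.map_add _ (map_add _), Matrix.add_mul, Matrix.mul_add, hx, hy]
  | smul a x _ hx =>
    have e : (a • x).map (algebraMap ℚ_[2] Qb) =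
        algebraMap ℚ_[2] Qb a • x.map (algebraMap ℚ_[2] Qb) := by
      ext i j
      simp
    rw [e, Matrix.smul_mul, Matrix.mul_smul, hx]

/-- Sketch: let `C = E⁻¹ * ψ`. For `σ ∈ U`, `ρ σ * C * ρ σ⁻¹ = ζ • C` with `ζ ^ card ν = 1`
(determinants), so the finite set of all `ζ • C` is stable under conjugation; `fin_stab`. -/
lemma exists_comm_form {Γ : Type*} [Group Γ] [Nonempty ν] (R : Γ →* Matrix ν ν ℚ_[2])
    {E ψ : Matrix ν ν ℚ_[2]} (hE : E.det ≠ 0) (hψ : ψ.det ≠ 0) (U : Subgroup Γ) [U.FiniteIndex]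
    (h1 : ∀ σ ∈ U, ∃ c : ℚ_[2], (R σ)ᵀ * E * R σ = c • E)
    (h2 : ∀ σ ∈ U, ∃ c : ℚ_[2], (R σ)ᵀ * ψ * R σ = c • ψ) :
    ∃ U' : Subgroup Γ, U'.FiniteIndex ∧ ∀ σ ∈ U', E⁻¹ * ψ * R σ = R σ * (E⁻¹ * ψ) := by
  have hE' : IsUnit E.det := hE.isUnit
  have r1 : ∀ σ, R σ * R σ⁻¹ = 1 := fun σ => by rw [← map_mul, mul_inv_cancel, map_one]
  have r2 : ∀ σ, R σ⁻¹ * R σ = 1 := fun σ => by rw [← map_mul, inv_mul_cancel, map_one]
  have r3 : ∀ σ, (R σ).det * (R σ⁻¹).det = 1 := fun σ => by rw [← det_mul, r1, det_one]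
  have hC : (E⁻¹ * ψ).det ≠ 0 := by
    rw [det_mul]
    exact mul_ne_zero (isUnit_nonsing_inv_det E hE').ne_zero hψ
  have key : ∀ σ ∈ U, ∃ ζ : ℚ_[2], ζ ^ Fintype.card ν = 1 ∧
      R σ * (E⁻¹ * ψ) * R σ⁻¹ = ζ • (E⁻¹ * ψ) := by
    intro σ hσ
    obtain ⟨c, hc⟩ := h1 σ hσ
    obtain ⟨d, hd⟩ := h2 σ hσ
    have d0 : d ≠ 0 := by
      rintro rfl
      have h := congrArg det hd
      have h0 := left_ne_zero_of_mul_eq_one (r3 σ)
      rw [zero_smul, det_zero, det_mul, det_mul, det_transpose] at h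
      exact mul_ne_zero (mul_ne_zero h0 hψ) h0 h
    have e1 : R σ * E⁻¹ * (R σ)ᵀ = c • E⁻¹ := by
      calc R σ * E⁻¹ * (R σ)ᵀ = R σ * E⁻¹ * (R σ)ᵀ * (E * (R σ * R σ⁻¹) * E⁻¹) := by
            rw [r1, Matrix.mul_one, mul_nonsing_inv E hE', Matrix.mul_one]
        _ = R σ * E⁻¹ * ((R σ)ᵀ * E * R σ) * R σ⁻¹ * E⁻¹ := by simp only [Matrix.mul_assoc]
        _ = c • (R σ * (E⁻¹ * E) * R σ⁻¹ * E⁻¹) := by
            rw [hc]
            simp only [Matrix.mul_smul, Matrix.smul_mul, Matrix.mul_assoc]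
        _ = _ := by rw [nonsing_inv_mul E hE', Matrix.mul_one, r1, Matrix.one_mul]
    have e2 : d • (R σ * (E⁻¹ * ψ) * R σ⁻¹) = c • (E⁻¹ * ψ) := by
      calc d • (R σ * (E⁻¹ * ψ) * R σ⁻¹) = R σ * E⁻¹ * (d • ψ) * R σ⁻¹ := by
            simp only [Matrix.mul_smul, Matrix.smul_mul, Matrix.mul_assoc]
        _ = R σ * E⁻¹ * (R σ)ᵀ * ψ * (R σ * R σ⁻¹) := by
            rw [← hd]
            simp only [Matrix.mul_assoc]
        _ = _ := by rw [e1, r1, Matrix.mul_one, Matrix.smul_mul]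
    have e3 : R σ * (E⁻¹ * ψ) * R σ⁻¹ = (d⁻¹ * c) • (E⁻¹ * ψ) := by
      rw [mul_smul, ← e2, inv_smul_smul₀ d0]
    refine ⟨_, ?_, e3⟩
    have h := congrArg det e3
    rw [det_smul, det_mul, det_mul (R σ), mul_right_comm, r3, one_mul] at h
    exact (mul_right_cancel₀ hC (h.symm.trans (one_mul _).symm))
  have hF : {ζ : ℚ_[2] | ζ ^ Fintype.card ν = 1}.Finite :=
    (Polynomial.nthRootsFinset (Fintype.card ν) (1 : ℚ_[2])).finite_toSet.subset fun ζ hζ =>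
      (Polynomial.mem_nthRootsFinset Fintype.card_pos _).2 hζ
  obtain ⟨U', -, hU, H⟩ := fin_stab U (fun σ X => R σ * X * R σ⁻¹) (fun X => by simp)
    (fun σ τ X => by simp only [_root_.mul_inv_rev, map_mul, Matrix.mul_assoc]) _
    (hF.image fun ζ => ζ • (E⁻¹ * ψ)) (by
      rintro σ hσ _ ⟨ξ, hξ, rfl⟩
      obtain ⟨ζ, h3, h4⟩ := key σ hσ
      refine ⟨ξ * ζ, ?_, ?_⟩
      · rw [Set.mem_ofPred_eq] at hξ ⊢
        rw [mul_pow, hξ, h3, one_mul]
      · simp only [Matrix.mul_smul, Matrix.smul_mul, h4, smul_smul])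
  refine ⟨U', hU, fun σ hσ => ?_⟩
  have h := H σ hσ (E⁻¹ * ψ) ⟨1, one_pow _, one_smul _ _⟩
  conv_lhs => rw [← h]
  rw [Matrix.mul_assoc, r2, Matrix.mul_one]

end

end Pool.Agent.Lib.MP_33b3f9_ag
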