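import Pool.Agent.Lib.MP_33b3f9_ag.IgRigid

/-!
Under rigidity one vector is enough.
-/

open Matrix

namespace Pool.Agent.Lib.MP_33b3f9_ag

noncomputable section

variable {ν : Type} [Fintype ν] [DecidableEq ν] {Γ : Type*} [Group Γ]
  {r : Γ →* Matrix ν ν ℤ_[2]} {E : Matrix ν ν ℤ_[2]}

lemma igOne_inv (r : Γ →* Matrix ν ν ℤ_[2]) (σ : Γ) : (r σ).map red * (r σ⁻¹).map red = 1 := by
  rw [← Matrix.map_mul, ← map_mul, mul_inv_cancel, map_one,
    Matrix.map_one _ (map_zero red) (map_one red)]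

/-- matrices with image in `N` that kill `N` -/
def igOne_nil (N : Submodule (ZMod 2) (ν → ZMod 2)) : Submodule (ZMod 2) (Matrix ν ν (ZMod 2)) where
  carrier := {y | (∀ x, y *ᵥ x ∈ N) ∧ ∀ x ∈ N, y *ᵥ x = 0}
  add_mem' := fun ha hb => ⟨fun x => by rw [add_mulVec]; exact N.add_mem (ha.1 x) (hb.1 x),
    fun x hx => by rw [add_mulVec, ha.2 x hx, hb.2 x hx, add_zero]⟩
  zero_mem' := ⟨fun x => by simp, fun x _ => by simp⟩
  smul_mem' := fun c y hy => ⟨fun x => by rw [smul_mulVec]; exact N.smul_mem c (hy.1 x),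
    fun x hx => by rw [smul_mulVec, hy.2 x hx, smul_zero]⟩

lemma igOne_mul {N : Submodule (ZMod 2) (ν → ZMod 2)} {y z : Matrix ν ν (ZMod 2)}
    (hy : y ∈ igOne_nil N) (hz : z ∈ igOne_nil N) (b c : ZMod 2) :
    (b • 1 + y) * (c • 1 + z) = (b * c) • 1 + (b • z + c • y) := by
  have h : y * z = 0 := toLin'.injective (LinearMap.ext fun x => by
    rw [toLin'_apply, toLin'_apply, ← mulVec_mulVec, hy.2 _ (hz.1 x), zero_mulVec])
  simp only [add_mul, mul_add, smul_mul_assoc, mul_smul_comm, one_mul, mul_one, h]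
  module

/-- scalars plus these matrices -/
def igOne_ring (N : Submodule (ZMod 2) (ν → ZMod 2)) : Subring (Matrix ν ν (ZMod 2)) where
  carrier := {z | ∃ b : ZMod 2, ∃ y ∈ igOne_nil N, z = b • 1 + y}
  mul_mem' := by
    rintro _ _ ⟨b, y, hy, rfl⟩ ⟨c, z, hz, rfl⟩
    exact ⟨_, _, add_mem (Submodule.smul_mem _ b hz) (Submodule.smul_mem _ c hy), igOne_mul hy hz b c⟩
  one_mem' := ⟨1, 0, zero_mem _, by simp⟩
  add_mem' := by
    rintro _ _ ⟨b, y, hy, rfl⟩ ⟨c, z, hz, rfl⟩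
    exact ⟨b + c, _, add_mem hy hz, by module⟩
  zero_mem' := ⟨0, 0, zero_mem _, by simp⟩
  neg_mem' := by
    rintro _ ⟨b, y, hy, rfl⟩
    exact ⟨-b, _, neg_mem hy, by module⟩

/-- Sketch: otherwise the matrices `b • 1 + y` with `y *ᵥ x ∈ N` for all `x` and `y *ᵥ x = 0` for
`x ∈ N` form a commutative subring stable under conjugation (use `r σ⁻¹`), which contains the
rank one matrix `vecMulVec n φ` (`n ∈ N`, `φ` a nonzero form that kills `N`); it is nonzero of square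
zero. -/
lemma RigidM.simple (hR : RigidM r) (N : Submodule (ZMod 2) (ν → ZMod 2))
    (hN : ∀ σ, ∀ x ∈ N, (r σ).map red *ᵥ x ∈ N) : N = ⊥ ∨ N = ⊤ := by
  by_contra h
  rw [not_or] at h
  obtain ⟨n, hn, hn0⟩ := (Submodule.ne_bot_iff N).1 h.1
  obtain ⟨f, hf, hle⟩ := Submodule.exists_le_ker_of_lt_top N (lt_top_iff_ne_top.2 h.2)
  have e : ∀ x, LinearMap.toMatrix' (f.smulRight n) *ᵥ x = f x • n := fun x => by
    rw [← toLin'_apply, toLin'_toMatrix', LinearMap.smulRight_apply]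
  have hy : LinearMap.toMatrix' (f.smulRight n) ∈ igOne_nil N :=
    ⟨fun x => by rw [e]; exact N.smul_mem _ hn, fun x hx => by
      rw [e, LinearMap.mem_ker.1 (hle hx), zero_smul]⟩
  have key := hR (igOne_ring N) ?_ ?_ _ ⟨0, _, hy, by rw [zero_smul, zero_add]⟩
  · rcases key with h0 | h0
    · refine hf (LinearMap.ext fun x => ?_)
      have h1 := e x
      rw [h0, zero_mulVec] at h1
      exact (smul_eq_zero.1 h1.symm).resolve_right hn0
    · have h1 := hy.2 n hn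
      rw [h0, one_mulVec] at h1
      exact hn0 h1
  · rintro _ ⟨b, y, hy, rfl⟩ _ ⟨c, z, hz, rfl⟩
    rw [igOne_mul hy hz, igOne_mul hz hy, mul_comm b, add_comm (b • z)]
  · rintro σ _ ⟨b, y, hy, rfl⟩
    have h1 := igOne_inv r σ⁻¹
    rw [inv_inv] at h1
    refine ⟨_, ⟨b, (r σ).map red * y * (r σ⁻¹).map red, ⟨fun x => ?_, fun x hx => ?_⟩, rfl⟩, ?_⟩
    · rw [← mulVec_mulVec, ← mulVec_mulVec]
      exact hN σ _ (hy.1 _)
    · rw [← mulVec_mulVec, ← mulVec_mulVec, hy.2 _ (hN _ x hx), mulVec_zero]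
    · rw [add_mul, mul_add, mul_assoc _ _ ((r σ).map red), h1]
      simp

/-- the vectors at which all these forms vanish are a stable submodule -/
theorem ig_of_sub (H : Subgroup Γ) [H.Normal] (hE : Eᵀ = -E)
    (hinv : ∀ σ, ((r σ).map red)ᵀ * E.map red * (r σ).map red = E.map red)
    (h1 : ∀ N : Submodule (ZMod 2) (ν → ZMod 2), (∀ σ, ∀ x ∈ N, (r σ).map red *ᵥ x ∈ N) → N ≠ ⊥ →
      ∃ x ∈ N, ∃ (n : ℕ) (Y : Matrix ν ν (ZMod 2)), 1 ≤ n ∧ Lev r H n Y ∧
        Yᵀ * E.map red + E.map red * Y = 0 ∧ x ⬝ᵥ (E.map red * Y) *ᵥ x ≠ 0)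
    (x : ν → ZMod 2) (hx : x ≠ 0) : ∃ (n : ℕ) (Y : Matrix ν ν (ZMod 2)), 1 ≤ n ∧ Lev r H n Y ∧
      Yᵀ * E.map red + E.map red * Y = 0 ∧ x ⬝ᵥ (E.map red * Y) *ᵥ x ≠ 0 := by
  have hE' : (E.map red)ᵀ = -E.map red := by
    rw [← transpose_map, hE, Matrix.map_neg _ (map_neg red)]
  let N : Submodule (ZMod 2) (ν → ZMod 2) :=
    { carrier := {x | ∀ (n : ℕ) (Y : Matrix ν ν (ZMod 2)), 1 ≤ n → Lev r H n Y →
        Yᵀ * E.map red + E.map red * Y = 0 → x ⬝ᵥ (E.map red * Y) *ᵥ x = 0}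
      add_mem' := fun {a b} ha hb n Y h2 h3 h4 => by
        have h5 : (E.map red * Y)ᵀ = E.map red * Y := by
          rw [transpose_mul, hE', Matrix.mul_neg]
          exact neg_eq_of_add_eq_zero_right h4
        have h6 : b ⬝ᵥ (E.map red * Y) *ᵥ a = a ⬝ᵥ (E.map red * Y) *ᵥ b := by
          rw [dotProduct_mulVec, ← mulVec_transpose, h5, dotProduct_comm]
        rw [mulVec_add, add_dotProduct, dotProduct_add, dotProduct_add, ha n Y h2 h3 h4,
          hb n Y h2 h3 h4, h6, zero_add, add_zero, CharTwo.add_self_eq_zero]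
      zero_mem' := fun n Y _ _ _ => zero_dotProduct _
      smul_mem' := fun c a ha n Y h2 h3 h4 => by
        rw [mulVec_smul, smul_dotProduct, dotProduct_smul, ha n Y h2 h3 h4, smul_zero, smul_zero] }
  have hN := h1 N fun σ a ha n Y h2 h3 h4 => by
    have g1 := igOne_inv r σ
    have g2 := igOne_inv r σ⁻¹
    rw [inv_inv] at g2
    have e1 : E.map red * ((r σ⁻¹).map red * Y * (r σ).map red) =
        ((r σ).map red)ᵀ * (E.map red * Y) * (r σ).map red := by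
      conv_lhs => rw [← hinv σ]
      simp only [← Matrix.mul_assoc]
      rw [Matrix.mul_assoc _ _ ((r σ⁻¹).map red), g1, Matrix.mul_one]
    have e2 : ((r σ⁻¹).map red)ᵀ * E.map red = E.map red * (r σ).map red := by
      conv_rhs => rw [← hinv σ⁻¹, Matrix.mul_assoc, g2, Matrix.mul_one]
    have h5 := ha n ((r σ⁻¹).map red * Y * (r σ).map red) h2 (by
      obtain ⟨τ, hτ, X, h6, rfl⟩ := h3
      refine ⟨σ⁻¹ * τ * σ, Subgroup.Normal.conj_mem' ‹_› τ hτ σ, r σ⁻¹ * X * r σ, ?_, ?_⟩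
      · rw [map_mul, map_mul, h6, mul_add, add_mul, mul_one, ← map_mul, inv_mul_cancel, map_one,
          mul_smul_comm, smul_mul_assoc]
      · rw [Matrix.map_mul, Matrix.map_mul]) (by
      rw [e1, transpose_mul, transpose_mul, Matrix.mul_assoc, Matrix.mul_assoc, e2,
        ← Matrix.mul_assoc Yᵀ, ← Matrix.mul_assoc, ← add_mul, ← mul_add, h4, mul_zero, zero_mul])
    rwa [e1, ← mulVec_mulVec, ← mulVec_mulVec, dotProduct_mulVec, vecMul_transpose] at h5
  by_contra h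
  obtain ⟨a, ha, n, Y, h2, h3, h4, h5⟩ := hN fun h0 => by
    refine hx ((Submodule.eq_bot_iff N).1 h0 x fun n Y h2 h3 h4 => ?_)
    by_contra h5
    exact h ⟨n, Y, h2, h3, h4, h5⟩
  exact h5 (ha n Y h2 h3 h4)

end

end Pool.Agent.Lib.MP_33b3f9_ag
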