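import Pool.Agent.Lib.MP_33b3f9_ag.TateA

/-!
Existence of the Tate data, abstract part.
-/

open Matrix

namespace Pool.Agent.Lib.MP_33b3f9_ag

noncomputable section

variable {ν : Type} [Fintype ν] [DecidableEq ν] {J : Type*} [AddCommGroup J]

lemma tateExA_norm_two (n : ℕ) : ‖(2 : ℚ_[2]) ^ n‖ = (2 : ℝ) ^ (-n : ℤ) := by
  have h := Padic.norm_p_pow (p := 2) n
  simpa using h

lemma tateExA_div_le (n : ℕ) (x : ℚ_[2]) : ‖x / 2 ^ n‖ ≤ 1 ↔ ‖x‖ ≤ (2 : ℝ) ^ (-n : ℤ) := by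
  rw [norm_div, tateExA_norm_two, div_le_one (by positivity)]

lemma tateExA_dvd (n : ℕ) (m : ℤ) : ‖(m : ℚ_[2]) / 2 ^ n‖ ≤ 1 ↔ (2 : ℤ) ^ n ∣ m := by
  rw [tateExA_div_le]
  have h := Padic.norm_int_le_pow_iff_dvd (p := 2) m n
  simpa using h

lemma tateExA_add {x y : ℚ_[2]} (hx : ‖x‖ ≤ 1) (hy : ‖y‖ ≤ 1) : ‖x + y‖ ≤ 1 :=
  (Padic.nonarchimedean x y).trans (max_le hx hy)

lemma tateExA_sub {x y : ℚ_[2]} (hx : ‖x‖ ≤ 1) (hy : ‖y‖ ≤ 1) : ‖x - y‖ ≤ 1 := by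
  rw [sub_eq_add_neg]
  exact tateExA_add hx (by rwa [norm_neg])

lemma tateExA_mul {x y : ℚ_[2]} (hx : ‖x‖ ≤ 1) (hy : ‖y‖ ≤ 1) : ‖x * y‖ ≤ 1 := by
  rw [norm_mul]
  exact mul_le_one₀ hx (norm_nonneg _) hy

lemma tateExA_appr {n : ℕ} {x : ℚ_[2]} (h : ‖2 ^ n * x‖ ≤ 1) :
    ∃ m : ℤ, ‖x - (m : ℚ_[2]) / 2 ^ n‖ ≤ 1 := by
  set z : ℤ_[2] := ⟨2 ^ n * x, h⟩ with hz
  have h1 := (PadicInt.norm_le_pow_iff_mem_span_pow _ n).2 (PadicInt.appr_spec n z)
  refine ⟨z.appr n, ?_⟩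
  have h2 : x - ((z.appr n : ℤ) : ℚ_[2]) / 2 ^ n = ((z - z.appr n : ℤ_[2]) : ℚ_[2]) / 2 ^ n := by
    have h3 : (z : ℚ_[2]) = 2 ^ n * x := rfl
    push_cast
    rw [h3]
    field_simp
  rw [h2, tateExA_div_le, PadicInt.padic_norm_e_of_padicInt]
  simpa using h1

omit [DecidableEq ν] in
lemma tateExA_level (x : ν → ℚ_[2]) : ∃ n : ℕ, ∀ i, ‖2 ^ n * x i‖ ≤ 1 := by
  obtain ⟨n, hn⟩ := pow_unbounded_of_one_lt ‖x‖ (one_lt_two (α := ℝ))
  refine ⟨n, fun i => ?_⟩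
  rw [norm_mul, tateExA_norm_two, _root_.zpow_neg, zpow_natCast, inv_mul_le_iff₀ (by positivity),
    mul_one]
  exact (norm_le_pi_norm x i).trans hn.le

lemma tateExA_exists_appr (x : ℚ_[2]) : ∃ (n : ℕ) (m : ℤ), ‖x - (m : ℚ_[2]) / 2 ^ n‖ ≤ 1 := by
  obtain ⟨n, hn⟩ := tateExA_level (fun _ : Unit => x)
  exact ⟨n, tateExA_appr (hn ())⟩

/-- a compatible sequence of halves gives a homomorphism -/
lemma tateExA_hom (q : ℕ → J) (h0 : q 0 = 0) (hq : ∀ n, 2 • q (n + 1) = q n) :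
    ∃ φ : ℚ_[2] →+ J, ∀ (x : ℚ_[2]) (n : ℕ) (m : ℤ), ‖x - (m : ℚ_[2]) / 2 ^ n‖ ≤ 1 →
      φ x = m • q n := by
  have h1 : ∀ k n : ℕ, (2 : ℤ) ^ k • q (n + k) = q n := by
    intro k n
    induction k with
    | zero => simp
    | succ k ih =>
      rw [pow_succ, mul_smul, ← add_assoc, ← ih, ← hq (n + k)]
      congr 1
      exact (natCast_zsmul _ 2)
  have h2 : ∀ (n n' : ℕ) (m m' : ℤ), ‖(m : ℚ_[2]) / 2 ^ n - (m' : ℚ_[2]) / 2 ^ n'‖ ≤ 1 →
      m • q n = m' • q n' := by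
    intro n n' m m' h
    have h3 : (m : ℚ_[2]) / 2 ^ n - (m' : ℚ_[2]) / 2 ^ n' =
        ((m * 2 ^ n' - m' * 2 ^ n : ℤ) : ℚ_[2]) / 2 ^ (n + n') := by
      push_cast
      field_simp
      ring
    rw [h3, tateExA_dvd] at h
    obtain ⟨c, hc⟩ := h
    have h4 := h1 (n + n') 0
    rw [zero_add, h0] at h4
    have h5 := h1 n n'
    rw [add_comm n' n] at h5
    rw [← h1 n' n, ← h5, ← mul_smul, ← mul_smul, ← sub_eq_zero, ← sub_smul, hc, mul_comm,
      mul_smul, h4, smul_zero]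
  choose N M hNM using tateExA_exists_appr
  have h6 : ∀ (x : ℚ_[2]) (n : ℕ) (m : ℤ), ‖x - (m : ℚ_[2]) / 2 ^ n‖ ≤ 1 →
      M x • q (N x) = m • q n := by
    intro x n m h
    apply h2
    have h7 := tateExA_sub h (hNM x)
    rwa [sub_sub_sub_cancel_left] at h7
  refine ⟨AddMonoidHom.mk' (fun x => M x • q (N x)) fun x y => ?_, h6⟩
  have h8 : ‖x + y - ((M x * 2 ^ N y + M y * 2 ^ N x : ℤ) : ℚ_[2]) / 2 ^ (N x + N y)‖ ≤ 1 := by
    have h9 : x + y - ((M x * 2 ^ N y + M y * 2 ^ N x : ℤ) : ℚ_[2]) / 2 ^ (N x + N y) =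
        (x - (M x : ℚ_[2]) / 2 ^ N x) + (y - (M y : ℚ_[2]) / 2 ^ N y) := by
      push_cast
      field_simp
      ring
    rw [h9]
    exact tateExA_add (hNM x) (hNM y)
  have h10 := h1 (N x) (N y)
  rw [add_comm (N y)] at h10
  rw [h6 _ _ _ h8, add_smul, mul_smul, mul_smul, h1, h10]

lemma tateExA_halves (hdiv : ∀ P : J, ∃ Q, 2 • Q = P) {b : J} (hb : 2 • b = 0) :
    ∃ q : ℕ → J, q 0 = 0 ∧ q 1 = b ∧ ∀ n, 2 • q (n + 1) = q n := by
  choose g hg using hdiv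
  refine ⟨fun n => Nat.casesOn n 0 fun k => g^[k] b, rfl, rfl, fun n => ?_⟩
  cases n with
  | zero => exact hb
  | succ n =>
    change 2 • g^[n + 1] b = g^[n] b
    rw [Function.iterate_succ_apply', hg]

/-- two homomorphisms that kill the integral vectors are determined by few values -/
lemma tateExA_ext {g h : (ν → ℚ_[2]) →+ J} (hg : ∀ x, (∀ i, ‖x i‖ ≤ 1) → g x = 0)
    (hh : ∀ x, (∀ i, ‖x i‖ ≤ 1) → h x = 0)
    (H : ∀ (j : ν) (n : ℕ), g (Pi.single j (1 / 2 ^ n)) = h (Pi.single j (1 / 2 ^ n))) :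
    g = h := by
  refine AddMonoidHom.functions_ext _ _ _ fun j x => ?_
  obtain ⟨n, m, hm⟩ := tateExA_exists_appr x
  have h1 : (Pi.single j x : ν → ℚ_[2]) =
      Pi.single j (x - (m : ℚ_[2]) / 2 ^ n) + m • Pi.single j (1 / 2 ^ n) := by
    funext i
    by_cases hi : i = j
    · subst hi
      rw [Pi.add_apply, Pi.smul_apply]
      simp only [Pi.single_eq_same, zsmul_eq_mul]
      ring
    · simp [Pi.single_eq_of_ne hi]
  have h2 : ∀ i, ‖(Pi.single j (x - (m : ℚ_[2]) / 2 ^ n) : ν → ℚ_[2]) i‖ ≤ 1 := by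
    intro i
    by_cases hi : i = j
    · subst hi
      rwa [Pi.single_eq_same]
    · simp [Pi.single_eq_of_ne hi]
  rw [h1, map_add, map_add, map_zsmul, map_zsmul, H, hg _ h2, hh _ h2]

/-- a 2-divisible group whose 2-torsion has the basis `b` -/
theorem exists_pi (hdiv : ∀ P : J, ∃ Q, 2 • Q = P) (b : ν → J) (hb : ∀ i, 2 • b i = 0)
    (hsp : ∀ P : J, 2 • P = 0 → ∃ n : ν → ℤ, P = ∑ i, n i • b i)
    (hli : ∀ n : ν → ℤ, ∑ i, n i • b i = 0 → ∀ i, Even (n i)) :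
    ∃ π : (ν → ℚ_[2]) →+ J, (∀ x, π x = 0 ↔ ∀ i, ‖x i‖ ≤ 1) ∧
      ∀ P, P ∈ π.range ↔ ∃ n : ℕ, 2 ^ n • P = 0 := by
  choose q hq0 hq1 hq using fun i => tateExA_halves hdiv (hb i)
  choose φ hφ using fun i => tateExA_hom (q i) (hq0 i) (hq i)
  set π : (ν → ℚ_[2]) →+ J := ∑ i, (φ i).comp (Pi.evalAddMonoidHom (fun _ => ℚ_[2]) i) with hπ
  have hπx : ∀ x, π x = ∑ i, φ i (x i) := by
    intro x
    rw [hπ, AddMonoidHom.finsetSum_apply]
    rfl
  have hint : ∀ x : ν → ℚ_[2], (∀ i, ‖x i‖ ≤ 1) → π x = 0 := by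
    intro x hx
    rw [hπx]
    refine Finset.sum_eq_zero fun i _ => ?_
    rw [hφ i (x i) 0 0 (by simpa using hx i), zero_smul]
  have hhalf : ∀ (x : ν → ℚ_[2]) (m : ν → ℤ), (∀ i, ‖x i - (m i : ℚ_[2]) / 2 ^ 1‖ ≤ 1) →
      π x = ∑ i, m i • b i := by
    intro x m hx
    rw [hπx]
    refine Finset.sum_congr rfl fun i _ => ?_
    rw [hφ i (x i) 1 (m i) (hx i), hq1]
  refine ⟨π, fun x => ⟨fun hx => ?_, hint x⟩, fun P => ⟨?_, ?_⟩⟩
  · obtain ⟨n, hn⟩ := tateExA_level x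
    induction n generalizing x with
    | zero => simpa using hn
    | succ n ih =>
      have h1 : π (2 • x) = 0 := by rw [map_nsmul, hx, smul_zero]
      have h2 := ih (2 • x) h1 fun i => by
        have h3 := hn i
        rw [pow_succ, mul_assoc] at h3
        simpa using h3
      have h3 : ∀ i, ∃ m : ℤ, ‖x i - (m : ℚ_[2]) / 2 ^ 1‖ ≤ 1 := fun i =>
        tateExA_appr (by simpa using h2 i)
      choose m hm using h3
      have h4 := hli m (by rw [← hhalf x m hm, hx])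
      intro i
      have h5 : ‖(m i : ℚ_[2]) / 2 ^ 1‖ ≤ 1 :=
        (tateExA_dvd 1 (m i)).2 (by simpa using even_iff_two_dvd.1 (h4 i))
      have h6 := tateExA_add (hm i) h5
      rwa [sub_add_cancel] at h6
  · rintro ⟨x, rfl⟩
    obtain ⟨n, hn⟩ := tateExA_level x
    refine ⟨n, ?_⟩
    rw [← map_nsmul]
    exact hint _ fun i => by simpa using hn i
  · rintro ⟨n, hn⟩
    induction n generalizing P with
    | zero =>
      rw [pow_zero, one_smul] at hn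
      rw [hn]
      exact zero_mem _
    | succ n ih =>
      rw [pow_succ, mul_smul] at hn
      obtain ⟨y, hy⟩ := ih _ hn
      have h1 : 2 • (P - π fun i => y i / 2) = 0 := by
        have h2 : (2 • fun i => y i / 2 : ν → ℚ_[2]) = y := by
          funext i
          simp only [Pi.smul_apply, nsmul_eq_mul]
          push_cast
          ring
        rw [smul_sub, ← map_nsmul, h2, hy, sub_self]
      obtain ⟨m, hm⟩ := hsp _ h1
      rw [← hhalf (fun i => (m i : ℚ_[2]) / 2 ^ 1) m (fun i => by simp), sub_eq_iff_eq_add,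
        ← map_add] at hm
      exact ⟨_, hm.symm⟩

/-- endomorphisms lift to matrices -/
theorem exists_matrix {π : (ν → ℚ_[2]) →+ J} (hker : ∀ x, π x = 0 ↔ ∀ i, ‖x i‖ ≤ 1)
    (hran : ∀ P, P ∈ π.range ↔ ∃ n : ℕ, 2 ^ n • P = 0) (f : J →+ J) :
    ∃ M : Matrix ν ν ℚ_[2], ∀ x, π (M *ᵥ x) = f (π x) := by
  have hcol : ∀ j : ν, ∃ y : ν → ℤ_[2], ∀ n : ℕ,
      lvl π n y = f (π (Pi.single j (1 / 2 ^ n))) := by
    intro j
    have hstep : ∀ n : ℕ, 2 • f (π (Pi.single j (1 / 2 ^ (n + 1)))) =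
        f (π (Pi.single j (1 / 2 ^ n))) := by
      intro n
      rw [← map_nsmul, ← map_nsmul]
      congr 2
      funext i
      by_cases hi : i = j
      · subst hi
        simp only [Pi.smul_apply, Pi.single_eq_same, nsmul_eq_mul]
        push_cast
        field_simp
        ring
      · simp [Pi.single_eq_of_ne hi]
    have hex : ∀ n : ℕ, ∃ y, lvl π n y = f (π (Pi.single j (1 / 2 ^ n))) := by
      intro n
      refine exists_lvl hker hran n ?_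
      rw [← map_nsmul, ← map_nsmul, (hker _).2, map_zero]
      intro i
      by_cases hi : i = j
      · subst hi
        simp
      · simp [Pi.single_eq_of_ne hi]
    have hcl : ∀ n : ℕ, IsClosed {y | lvl π n y = f (π (Pi.single j (1 / 2 ^ n)))} := by
      intro n
      obtain ⟨y, hy⟩ := hex n
      have h1 : {y | lvl π n y = f (π (Pi.single j (1 / 2 ^ n)))} =
          Set.range fun z : ν → ℤ_[2] => y + (2 : ℤ_[2]) ^ n • z := by
        ext w
        rw [Set.mem_ofPred_eq, ← hy, ← sub_eq_zero, ← map_sub, lvl_eq_zero_iff hker]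
        simp only [Set.mem_range, sub_eq_iff_eq_add']
        simp only [eq_comm]
      rw [h1]
      exact (isCompact_range (by fun_prop)).isClosed
    obtain ⟨y, hy⟩ := IsCompact.nonempty_iInter_of_sequence_nonempty_isCompact_isClosed
      (fun n : ℕ => {y | lvl π n y = f (π (Pi.single j (1 / 2 ^ n)))})
      (fun n y hy => by
        rw [Set.mem_ofPred_eq] at hy ⊢
        rw [← lvl_succ, hy, hstep]) hex (hcl 0).isCompact hcl
    exact ⟨y, Set.mem_iInter.1 hy⟩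
  choose y hy using hcol
  set M : Matrix ν ν ℚ_[2] := Matrix.of fun i j => (y j i : ℚ_[2]) with hM
  refine ⟨M, fun x => ?_⟩
  have h1 : π.comp M.mulVecLin.toAddMonoidHom = f.comp π := by
    refine tateExA_ext (fun x hx => ?_) (fun x hx => ?_) fun j n => ?_
    · refine (hker _).2 fun i => ?_
      change ‖∑ j, M i j * x j‖ ≤ 1
      refine Finset.sum_induction _ (fun z : ℚ_[2] => ‖z‖ ≤ 1) (fun _ _ => tateExA_add)
        (by simp) fun j _ => tateExA_mul (y j i).2 (hx j)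
    · rw [AddMonoidHom.comp_apply, (hker x).2 hx, map_zero]
    · rw [AddMonoidHom.comp_apply, AddMonoidHom.comp_apply, ← hy]
      change π (M *ᵥ Pi.single j (1 / 2 ^ n)) = π fun i => (y j i : ℚ_[2]) / 2 ^ n
      congr 1
      funext i
      simp [hM, Matrix.mulVec_single, div_eq_mul_inv]
  exact DFunLike.congr_fun h1 x

end

end Pool.Agent.Lib.MP_33b3f9_ag
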