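import Pool.Agent.Lib.MP_33b3f9_ag.IgLef
import Pool.Agent.Lib.MP_33b3f9_ag.IgMT
import Pool.Agent.Lib.MP_33b3f9_ag.IgOne
import Pool.Agent.Lib.MP_33b3f9_ag.IgBig
import Pool.Agent.Lib.MP_33b3f9_ag.TateExA

/-!
The group theoretic theorem.
-/

open Matrix

namespace Pool.Agent.Lib.MP_33b3f9_ag

noncomputable section

variable {ν : Type} [Fintype ν] [DecidableEq ν] {Γ : Type*} [Group Γ]
  {r : Γ →* Matrix ν ν ℤ_[2]} {E : Matrix ν ν ℤ_[2]} {χ : Γ →* ℤ_[2]ˣ} {H : Subgroup Γ}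
  {ρ : Γ → GL ν ℚ_[2]}

/-- the commutants of subgroups of finite index are scalar -/
def ScalarM (r : Γ →* Matrix ν ν ℤ_[2]) : Prop :=
  ∀ U : Subgroup Γ, U.FiniteIndex → ∀ C : Matrix ν ν ℤ_[2], (∀ σ ∈ U, C * r σ = r σ * C) →
    ∃ c : ℤ_[2], C = c • 1

lemma ScalarM.rat (hR : ScalarM r)
    (hρ : ∀ σ, (ρ σ : Matrix ν ν ℚ_[2]) = (r σ).map ((↑) : ℤ_[2] → ℚ_[2])) (U : Subgroup Γ)
    [U.FiniteIndex] {C : Matrix ν ν ℚ_[2]} (hC : C ∈ commt (ρ '' U)) :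
    ∃ c : ℚ_[2], C = c • 1 := by
  obtain ⟨n, hn⟩ := tateExA_level (fun p : ν × ν => C p.1 p.2)
  let C' : Matrix ν ν ℤ_[2] := Matrix.of fun i j => ⟨2 ^ n * C i j, hn (i, j)⟩
  have hC' : C'.map PadicInt.Coe.ringHom = (2 : ℚ_[2]) ^ n • C := rfl
  have hinj : Function.Injective fun M : Matrix ν ν ℤ_[2] => M.map PadicInt.Coe.ringHom :=
    Matrix.map_injective Subtype.val_injective
  obtain ⟨c, hc⟩ := hR U ‹_› C' fun σ hσ => hinj (by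
    have h1 := hC (ρ σ) ⟨σ, hσ, rfl⟩
    have h2 : (r σ).map PadicInt.Coe.ringHom = (ρ σ : Matrix ν ν ℚ_[2]) := (hρ σ).symm
    simp only [Matrix.map_mul, hC', h2, smul_mul_assoc, mul_smul_comm, h1])
  refine ⟨((2 : ℚ_[2]) ^ n)⁻¹ * c, ?_⟩
  have h3 : (2 : ℚ_[2]) ^ n • C = (c : ℚ_[2]) • (1 : Matrix ν ν ℚ_[2]) := by
    rw [← hC', hc]
    ext i j
    by_cases hij : i = j <;> simp [hij]
  rw [mul_smul, ← h3, smul_smul, inv_mul_cancel₀ (pow_ne_zero n two_ne_zero), one_smul]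

theorem IgData.lefMT [Nonempty ν] (h : IgData r E χ H)
    (hρ : ∀ σ, (ρ σ : Matrix ν ν ℚ_[2]) = (r σ).map ((↑) : ℤ_[2] → ℚ_[2])) {R : Prop}
    (hR : R → ScalarM r) : LefMT (E.map ((↑) : ℤ_[2] → ℚ_[2])) ρ R := by
  obtain ⟨U₀, hH, hfin, hU₀⟩ := h.zcl_eq_lef hρ
  refine ⟨⟨U₀, hfin, fun U hle hU => ⟨hU₀ U hle hU, fun h' => ?_⟩⟩, fun I hI hT U hU hsub => ?_⟩
  · rw [hU₀ U hle hU]
    refine Set.ext fun g => ⟨fun hg => hg.1, fun hg => ⟨hg, fun C hC => ?_⟩⟩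
    obtain ⟨c, rfl⟩ := (hR h').rat hρ U hC
    have : (c • (1 : Matrix ν ν ℚ_[2])).map (algebraMap ℚ_[2] Qb) =
        algebraMap ℚ_[2] Qb c • (1 : Matrix ν ν Qb) := by
      ext i j
      by_cases hij : i = j <;> simp [hij]
    rw [this, smul_mul_assoc, mul_smul_comm, one_mul, mul_one]
  have hT' : EndTate ρ I := hT.elim (fun h' V hV C hC => by
    obtain ⟨c, rfl⟩ := (hR h').rat hρ V hC
    exact Submodule.smul_mem _ _ (Submodule.subset_span ⟨1, by simp, by simp⟩)) id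
  have hdet : (E.map ((↑) : ℤ_[2] → ℚ_[2])).det ≠ 0 := by
    have := PadicInt.Coe.ringHom.map_det E
    rw [RingHom.mapMatrix_apply] at this
    intro h0
    exact h.det (Subtype.val_injective (this.trans h0))
  have hle : ρ '' (U ⊓ U₀ : Subgroup Γ) ⊆ ρ '' U :=
    Set.image_mono (SetLike.coe_subset_coe.2 inf_le_left)
  refine Set.Subset.antisymm (MT_sub _ _ hsub) ?_
  have h1 := mt_subset_lef ((PadicInt.Coe.ringHom (p := 2)).mapMatrix.toMonoidHom.comp r)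
    (ρ := ρ) hρ hdet hI hT' (U ⊓ U₀)
    (fun σ hσ => ⟨_, zar_map PadicInt.Coe.ringHom (h.mult σ (hH hσ.2))⟩) (hle.trans hsub)
  rw [← hU₀ _ inf_le_right inferInstance] at h1
  exact fun g hg P hP => h1 hg P fun t ht => hP t (hle ht)

end

end Pool.Agent.Lib.MP_33b3f9_ag
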