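import Pool.Agent.Lib.MP_33b3f9_ag.IgPts

/-!
The points of the closure of a multiplicatively closed set are closed under multiplication.
-/

open Matrix

namespace Pool.Agent.Lib.MP_33b3f9_ag

noncomputable section

variable {ν : Type} [Fintype ν] [DecidableEq ν] {Ω : Type*} [Field Ω]
  {R : Type*} [CommRing R] [Algebra Ω R] {T : Set (Matrix ν ν Ω)}

omit [Fintype ν] [DecidableEq ν] in
/-- A polynomial with coefficients in `R` that vanishes on `T` vanishes at all points with values
in `R`. Sketch: take a basis `b` of `R` over `Ω` (`Module.Basis.ofVectorSpace`); for each `i` the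
polynomial `Q i = ∑ m ∈ Q.support, monomial m (b.coord i (Q.coeff m))` over `Ω` vanishes on `T`
(apply the linear form `b.coord i` to `hQ`), and `Q = ∑ i ∈ s, C (b i) * map (Q i)` for the finite
set `s` of indices that occur in the coefficients. -/
lemma ptsR_ext (Q : MvPolynomial (ν × ν) R)
    (hQ : ∀ h ∈ T, MvPolynomial.eval (fun p : ν × ν => algebraMap Ω R (h p.1 p.2)) Q = 0)
    {g : Matrix ν ν R} (hg : g ∈ ptsR T R) :
    MvPolynomial.eval (fun p : ν × ν => g p.1 p.2) Q = 0 := by
  classical
  let b := Module.Basis.ofVectorSpace Ω R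
  have hz : ∀ i, ∑ m ∈ Q.support, algebraMap Ω R (b.repr (Q.coeff m) i) *
      ∏ p ∈ m.support, g p.1 p.2 ^ m p = 0 := fun i => by
    have e := hg (∑ m ∈ Q.support, MvPolynomial.monomial m (b.repr (Q.coeff m) i)) fun h hh => by
      have e1 := congrArg (fun r => b.repr r i) (hQ h hh)
      rw [MvPolynomial.eval_eq] at e1
      simp only [map_sum, map_zero, Finsupp.coe_zero, Pi.zero_apply, Finsupp.finsetSum_apply] at e1
      rw [← e1, evalM, map_sum]
      refine Finset.sum_congr rfl fun m _ => ?_
      simp only [← map_pow]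
      rw [← map_prod, mul_comm, ← Algebra.smul_def, map_smul, Finsupp.smul_apply, smul_eq_mul, mul_comm,
        MvPolynomial.aeval_monomial]
      rfl
    rw [map_sum] at e
    rw [← e]
    refine Finset.sum_congr rfl fun m _ => ?_
    rw [MvPolynomial.aeval_monomial]
    rfl
  have hc : ∀ m ∈ Q.support, Q.coeff m =
      ∑ i ∈ Q.support.biUnion (fun m => (b.repr (Q.coeff m)).support),
        b i * algebraMap Ω R (b.repr (Q.coeff m) i) := fun m hm => by
    conv_lhs => rw [← b.linearCombination_repr (Q.coeff m), Finsupp.linearCombination_apply]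
    rw [Finsupp.sum_of_support_subset _
      (Finset.subset_biUnion_of_mem (fun m => (b.repr (Q.coeff m)).support) hm) _ (by simp)]
    refine Finset.sum_congr rfl fun i _ => ?_
    rw [Algebra.smul_def, mul_comm]
  rw [MvPolynomial.eval_eq, Finset.sum_congr rfl fun m hm => by rw [hc m hm, Finset.sum_mul],
    Finset.sum_comm]
  refine Finset.sum_eq_zero fun i _ => ?_
  simp only [mul_assoc]
  rw [← Finset.mul_sum, hz, mul_zero]

/-- Sketch: apply `ptsR_ext` to `Q = P(x g')`, which vanishes on `T` by `ptsR_two h 1`. -/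
lemma ptsR_mul (hT : ∀ h ∈ T, ∀ h' ∈ T, h * h' ∈ T) {g g' : Matrix ν ν R} (hg : g ∈ ptsR T R)
    (hg' : g' ∈ ptsR T R) : g * g' ∈ ptsR T R := by
  intro P hP
  have key : ∀ (P : MvPolynomial (ν × ν) Ω) (x : Matrix ν ν R), MvPolynomial.eval (fun p : ν × ν => x p.1 p.2)
      (MvPolynomial.aeval (fun p : ν × ν => ∑ k, (MvPolynomial.X (p.1, k) : MvPolynomial (ν × ν) R) *
        MvPolynomial.C (g' k p.2)) P) = MvPolynomial.aeval (fun p : ν × ν => (x * g') p.1 p.2) P := by
    intro P x
    induction P using MvPolynomial.induction_on with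
    | C a => simp
    | add p q hp hq => simp only [map_add, hp, hq]
    | mul_X p n hp => simp [hp, Matrix.mul_apply]
  rw [← key]
  refine ptsR_ext (T := T) _ (fun h hh => ?_) hg
  have e := ptsR_two (T' := T) h 1 (fun t ht => by rw [Matrix.mul_one]; exact hT h hh t ht) hg' P hP
  rw [Matrix.map_one _ (map_zero _) (map_one _), Matrix.mul_one] at e
  exact (key P (h.map (algebraMap Ω R))).trans e

end

end Pool.Agent.Lib.MP_33b3f9_ag
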