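import Pool.Agent.Lib.MP_33b3f9_ag.IgRad

/-!
Orthogonality of weight spaces, anisotropic forms.
-/

open LieModule LieAlgebra

namespace Pool.Agent.Lib.MP_33b3f9_ag

variable {K L V : Type*} [Field K] [LieRing L] [LieAlgebra K L]
  [AddCommGroup V] [Module K V] [LieRingModule L V] [LieModule K L V]
  {B : LinearMap.BilinForm K V}

/-- Sketch: induction on `m + n`, from
`(a + b) * B v w = - B (f v - a • v) w - B v (f w - b • w)`. -/
lemma igOrth_pow {f : Module.End K V} (hf : ∀ v w, B (f v) w = -B v (f w)) {a b : K}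
    (hab : a + b ≠ 0) (m n : ℕ) {v w : V} (hv : ((f - a • 1) ^ m) v = 0)
    (hw : ((f - b • 1) ^ n) w = 0) : B v w = 0 := by
  induction m generalizing v w n with
  | zero =>
    rw [pow_zero, Module.End.one_apply] at hv
    rw [hv, map_zero, LinearMap.zero_apply]
  | succ m ihm =>
    induction n generalizing w with
    | zero =>
      rw [pow_zero, Module.End.one_apply] at hw
      rw [hw, map_zero]
    | succ n ihn =>
      have h1 := ihm (n + 1) (v := (f - a • 1) v) (by rwa [pow_succ, Module.End.mul_apply] at hv) hw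
      have h2 := ihn (w := (f - b • 1) w) (by rwa [pow_succ, Module.End.mul_apply] at hw)
      simp only [LinearMap.sub_apply, LinearMap.smul_apply, Module.End.one_apply, map_sub,
        map_smul, smul_eq_mul] at h1 h2
      refine (mul_eq_zero.mp ?_).resolve_left hab
      linear_combination hf v w - h1 - h2

/-- `LieModule.mem_genWeightSpace` and `igOrth_pow` -/
theorem NZData.orth (h : NZData L B) (H : LieSubalgebra K L) [LieRing.IsNilpotent H]
    {χ ψ : H → K} (hne : χ + ψ ≠ 0) {v w : V} (hv : v ∈ genWeightSpace V χ)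
    (hw : w ∈ genWeightSpace V ψ) : B v w = 0 := by
  obtain ⟨x, hx⟩ := Function.ne_iff.mp hne
  obtain ⟨m, hm⟩ := (mem_genWeightSpace V χ v).mp hv x
  obtain ⟨n, hn⟩ := (mem_genWeightSpace V ψ w).mp hw x
  exact igOrth_pow (f := toEnd K H V x) (fun v w => h.inv x v w) hx m n hm hn

omit [LieRingModule L V] [LieModule K L V] in
/-- an anisotropic space over an algebraically closed field is a line: the polynomial
`s ↦ Φ (w + s • v) (w + s • v)` has degree two, so it has a root -/
theorem ig_line [IsAlgClosed K] (Φ : LinearMap.BilinForm K V) (W : Submodule K V)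
    (hW : ∀ v ∈ W, v ≠ 0 → Φ v v ≠ 0) {v w : V} (hv : v ∈ W) (hv0 : v ≠ 0) (hw : w ∈ W) :
    ∃ c : K, w = c • v := by
  obtain ⟨s, hs⟩ := IsAlgClosed.exists_root
    (Polynomial.C (Φ v v) * Polynomial.X ^ 2 + Polynomial.C (Φ v w + Φ w v) * Polynomial.X +
      Polynomial.C (Φ w w)) (by
      rw [Polynomial.degree_quadratic (hW v hv hv0)]
      decide)
  refine ⟨-s, ?_⟩
  by_contra hc
  refine hW (w + s • v) (W.add_mem hw (W.smul_mem s hv)) (fun h0 => hc ?_) ?_
  · rw [neg_smul]
    exact eq_neg_of_add_eq_zero_left h0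
  · simp only [Polynomial.IsRoot.def, Polynomial.eval_add, Polynomial.eval_mul, Polynomial.eval_C,
      Polynomial.eval_pow, Polynomial.eval_X] at hs
    simp only [map_add, map_smul, LinearMap.add_apply, LinearMap.smul_apply, smul_eq_mul]
    linear_combination hs

end Pool.Agent.Lib.MP_33b3f9_ag
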