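import Pool.Agent.Lib.MP_33b3f9_ag.ZarA

/-!
Points of the Zariski closure of a set of matrices with values in a commutative algebra.
-/

open Matrix

namespace Pool.Agent.Lib.MP_33b3f9_ag

noncomputable section

variable {ν : Type} [Fintype ν] [DecidableEq ν] {Ω : Type*} [Field Ω]

/-- the points with values in `R` of the closed subscheme defined by the vanishing ideal of `T` -/
def ptsR (T : Set (Matrix ν ν Ω)) (R : Type*) [CommRing R] [Algebra Ω R] : Set (Matrix ν ν R) :=
  {g | ∀ P : MvPolynomial (ν × ν) Ω, (∀ h ∈ T, evalM h P = 0) →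
    MvPolynomial.aeval (fun p : ν × ν => g p.1 p.2) P = 0}

variable {R R' : Type*} [CommRing R] [Algebra Ω R] [CommRing R'] [Algebra Ω R']
  {T T' : Set (Matrix ν ν Ω)}

omit [Fintype ν] [DecidableEq ν] in
lemma ptsR_self (T : Set (Matrix ν ν Ω)) : ptsR T Ω = mcl T := rfl

omit [Fintype ν] [DecidableEq ν] in
lemma ptsR_map (φ : R →ₐ[Ω] R') {g : Matrix ν ν R} (hg : g ∈ ptsR T R) :
    g.map φ ∈ ptsR T R' := by
  intro P hP
  have h := MvPolynomial.comp_aeval_apply (fun p : ν × ν => g p.1 p.2) φ P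
  rw [hg P hP, map_zero] at h
  exact h.symm

omit [Fintype ν] [DecidableEq ν] in
lemma ptsR_of_map (φ : R →ₐ[Ω] R') (hφ : Function.Injective φ) {g : Matrix ν ν R}
    (hg : g.map φ ∈ ptsR T R') : g ∈ ptsR T R := by
  intro P hP
  refine hφ ?_
  rw [map_zero, MvPolynomial.comp_aeval_apply (fun p : ν × ν => g p.1 p.2) φ P]
  exact hg P hP

omit [Fintype ν] [DecidableEq ν] in
lemma ptsR_mono (h : T ⊆ T') : ptsR T R ⊆ ptsR T' R :=
  fun _ hg P hP => hg P fun t ht => hP t (h ht)

omit [Fintype ν] [DecidableEq ν] in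
lemma ptsR_of_mem {h : Matrix ν ν Ω} (hh : h ∈ T) : h.map (algebraMap Ω R) ∈ ptsR T R :=
  ptsR_map (Algebra.ofId Ω R) (subset_mcl T hh)

omit [DecidableEq ν] in
/-- as in `zarA_two`: the polynomial `Q = P(a x b)` vanishes on `T` -/
lemma ptsR_two (a b : Matrix ν ν Ω) (h : ∀ t ∈ T, a * t * b ∈ T') {g : Matrix ν ν R}
    (hg : g ∈ ptsR T R) : a.map (algebraMap Ω R) * g * b.map (algebraMap Ω R) ∈ ptsR T' R := by
  classical
  intro P hP
  let G : Matrix ν ν (MvPolynomial (ν × ν) Ω) := a.map MvPolynomial.C *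
    (Matrix.of fun i j => MvPolynomial.X (i, j)) * b.map MvPolynomial.C
  have h1 : ∀ x : Matrix ν ν Ω,
      evalM x (MvPolynomial.aeval (fun p : ν × ν => G p.1 p.2) P) = evalM (a * x * b) P := by
    intro x
    refine (zarA_eval (MvPolynomial.aeval fun p : ν × ν => x p.1 p.2) _ P).symm.trans ?_
    congr 1
    ext i j
    simp [G, Matrix.mul_apply]
  have h2 := hg (MvPolynomial.aeval (fun p : ν × ν => G p.1 p.2) P) fun t ht => by
    rw [h1]
    exact hP _ (h t ht)
  rw [MvPolynomial.comp_aeval_apply] at h2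
  refine Eq.trans ?_ h2
  congr 2
  ext p
  simp [G, Matrix.mul_apply]

end

end Pool.Agent.Lib.MP_33b3f9_ag
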