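import Mathlib

/-!
Symplectic representations whose quadratic forms have no common zero: the radical is trivial.
-/

namespace Pool.Agent.Lib.MP_33b3f9_ag

variable {K : Type*} (L : Type*) {V : Type*} [Field K] [LieRing L] [LieAlgebra K L]
  [AddCommGroup V] [Module K V] [LieRingModule L V] [LieModule K L V]

/-- a faithful symplectic representation whose quadratic forms have no common zero -/
structure NZData (B : LinearMap.BilinForm K V) : Prop where
  alt : ∀ v, B v v = 0
  nondeg : ∀ v, (∀ w, B w v = 0) → v = 0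
  inv : ∀ (y : L) (v w : V), B ⁅y, v⁆ w = -B v ⁅y, w⁆
  nz : ∀ v : V, v ≠ 0 → ∃ y : L, B ⁅y, v⁆ v ≠ 0
  faithful : ∀ y : L, (∀ v : V, ⁅y, v⁆ = 0) → y = 0

variable {L} {B : LinearMap.BilinForm K V}

omit [LieAlgebra K L] [LieModule K L V] in
lemma NZData.skew (h : NZData L B) (v w : V) : B v w = -B w v := by
  have h1 := h.alt (v + w)
  simp only [map_add, LinearMap.add_apply, h.alt] at h1
  linear_combination h1

variable [CharZero K] [IsAlgClosed K] [FiniteDimensional K L] [FiniteDimensional K V]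

/-- Sketch: `LieAlgebra.hasTrivialRadical_iff_no_abelian_ideals`. Let `I` be an abelian ideal.
(1) A common eigenvector `v ≠ 0` of `I` has eigenvalue zero: with `B ⁅y, v⁆ v ≠ 0` compute
`B ⁅x, ⁅y, v⁆⁆ v` in two ways (`⁅x, y⁆ ∈ I`, `B v v = 0`). (2) `V₀ = {v | ∀ x ∈ I, ⁅x, v⁆ = 0}` and
its orthogonal `V₁` are Lie submodules with zero intersection (by `nz`). (3) If `V₁ ≠ ⊥` it contains
a common eigenvector of `I` (`LieModule.exists_nontrivial_weightSpace_of_isSolvable K I V₁`), which
lies in `V₀`. So `V₁ = ⊥`, hence `V₀ = ⊤` (for instance `B ⁅x, v⁆ w = 0` for `x ∈ I`, `w ∈ V₀`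
shows `⁅x, v⁆ ∈ V₁`), and `I = ⊥` by `faithful`. -/
theorem NZData.hasTrivialRadical (h : NZData L B) : LieAlgebra.HasTrivialRadical K L := by
  rw [LieAlgebra.hasTrivialRadical_iff_no_abelian_ideals]
  intro I hI
  let V₁ : LieSubmodule K L V :=
    { carrier := {w | ∀ u : V, (∀ x ∈ I, ⁅x, u⁆ = 0) → B w u = 0}
      add_mem' := fun {a b} ha hb u hu => by
        rw [map_add, LinearMap.add_apply, ha u hu, hb u hu, add_zero]
      zero_mem' := fun u _ => by simp
      smul_mem' := fun c a ha u hu => by rw [map_smul, LinearMap.smul_apply, ha u hu, smul_zero]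
      lie_mem := fun {y w} hw u hu => by
        rw [h.inv, hw, neg_zero]
        intro x hx
        rw [leibniz_lie, hu x hx, lie_zero, add_zero]
        exact hu _ (lie_mem_left K L I x y hx) }
  have hV : ∀ w ∈ V₁, w = 0 := by
    by_contra hc
    have hne : V₁ ≠ ⊥ := fun e => hc fun w hw => by
      rw [e] at hw
      exact (LieSubmodule.mem_bot _).1 hw
    have : Nontrivial V₁ := (LieSubmodule.nontrivial_iff_ne_bot K L V).2 hne
    obtain ⟨χ, hχ⟩ := LieModule.exists_nontrivial_weightSpace_of_isSolvable K I V₁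
    obtain ⟨⟨v, hv⟩, hv0⟩ := exists_ne (0 : LieModule.weightSpace V₁ χ)
    have hv1 : (v : V) ≠ 0 := fun e => hv0 (Subtype.ext (Subtype.ext e))
    have hev : ∀ (x : L) (hx : x ∈ I), ⁅x, (v : V)⁆ = χ ⟨x, hx⟩ • (v : V) := fun x hx =>
      congrArg Subtype.val ((LieModule.mem_weightSpace χ v).1 hv ⟨x, hx⟩)
    obtain ⟨y, hy⟩ := h.nz v hv1
    have h0 : ∀ x ∈ I, ⁅x, (v : V)⁆ = 0 := fun x hx => by
      have h1 := h.inv x ⁅y, (v : V)⁆ v
      rw [leibniz_lie, hev x hx, hev _ (lie_mem_left K L I x y hx), lie_smul] at h1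
      simp only [map_add, map_smul, LinearMap.add_apply, LinearMap.smul_apply, h.alt, smul_eq_mul,
        mul_zero, zero_add] at h1
      have h2 : 2 * χ ⟨x, hx⟩ * B ⁅y, (v : V)⁆ v = 0 := by linear_combination h1
      have h3 := (mul_eq_zero.1 ((mul_eq_zero.1 h2).resolve_right hy)).resolve_left two_ne_zero
      rw [hev x hx, h3, zero_smul]
    exact hy (V₁.lie_mem v.2 v h0)
  refine (LieSubmodule.eq_bot_iff I).2 fun x hx => h.faithful x fun v => hV _ fun u hu => ?_
  rw [h.inv, hu x hx, map_zero, neg_zero]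

end Pool.Agent.Lib.MP_33b3f9_ag
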