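import Pool.Agent.Lib.MP_33b3f9_ag.IgWt
import Pool.Agent.Lib.MP_33b3f9_ag.IgInt

/-!
The root vectors of doubled weights have rank one.
-/

open LieModule LieAlgebra

namespace Pool.Agent.Lib.MP_33b3f9_ag

variable {K L V : Type*} [Field K] [LieRing L] [LieAlgebra K L]
  [AddCommGroup V] [Module K V] [LieRingModule L V] [LieModule K L V]
  {B : LinearMap.BilinForm K V}
  [CharZero K] [IsAlgClosed K] [FiniteDimensional K L] [FiniteDimensional K V]

section cartan

variable [IsKilling K L] (H : LieSubalgebra K L) [H.IsCartanSubalgebra]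

omit [CharZero K] [IsAlgClosed K] [FiniteDimensional K L] [FiniteDimensional K V]
  [IsKilling K L] in
lemma igRank_ne {χ : H → K} {v : V} (hv : v ∈ genWeightSpace V χ) (h0 : v ≠ 0) :
    genWeightSpace V χ ≠ ⊥ := fun e => h0 (by simpa [e] using hv)

/-- Sketch: `χ (coroot α) = -1` by `IsKilling.root_apply_coroot`. For `ψ ≠ χ, -χ` take the root
`β = -(ψ + ψ)` (`exists_root`); `ig_int` (with `exists_gen`) for `χ (coroot β)` and
`ψ (coroot α)`, then `ig_perp`. -/
lemma NZData.weight_coroot (h : NZData L B) {χ ψ : H → K} (hχ : genWeightSpace V χ ≠ ⊥)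
    (hψ : genWeightSpace V ψ ≠ ⊥) (α : Weight K H L) (hα : α.IsNonZero)
    (hαχ : (α : H → K) = -(χ + χ)) :
    (ψ = χ ∧ ψ (IsKilling.coroot α) = -1) ∨ ψ (IsKilling.coroot α) = 0 ∨
      ψ (IsKilling.coroot α) = 1 := by
  have h1 : χ (IsKilling.coroot α) = -1 := by
    have := IsKilling.root_apply_coroot hα
    rw [hαχ, Pi.neg_apply, Pi.add_apply] at this
    linear_combination (-1 / 2 : K) * this
  by_cases e1 : ψ = χ
  · exact Or.inl ⟨e1, e1 ▸ h1⟩
  by_cases e2 : ψ = -χ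
  · exact Or.inr (Or.inr (by rw [e2, Pi.neg_apply, h1, neg_neg]))
  obtain ⟨β, hβ, hβψ, -⟩ := h.exists_root H hψ
  obtain ⟨v, -, hv0, hv, -⟩ := h.exists_gen H hχ
  obtain ⟨w, -, hw0, hw, -⟩ := h.exists_gen H hψ
  obtain ⟨a, ha⟩ := ig_int H β hβ hv0 (hv _)
  obtain ⟨b, hb⟩ := ig_int H α hα hw0 (hw _)
  have h2 := ig_perp H α β hα hβ (a := -a) (b := -b)
    (by rw [hαχ, Pi.neg_apply, Pi.add_apply, ha]; push_cast; ring)
    (by rw [hβψ, Pi.neg_apply, Pi.add_apply, hb]; push_cast; ring)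
    (fun e => e1 (funext fun x => by
      have := congrFun e x
      rw [hαχ, hβψ] at this
      simp only [Pi.neg_apply, Pi.add_apply] at this
      linear_combination (1 / 2 : K) * this))
    (fun e => e2 (funext fun x => by
      have := congrFun e x
      rw [hαχ, hβψ] at this
      simp only [Pi.neg_apply, Pi.add_apply] at this ⊢
      linear_combination (-1 / 2 : K) * this))
  rw [hβψ, Pi.neg_apply, Pi.add_apply] at h2
  exact Or.inr (Or.inl (by linear_combination (-1 / 2 : K) * h2))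

/-- Sketch: otherwise `α + ψ` is a weight whose value at `coroot α` is `2` or `3`. -/
lemma NZData.kills (h : NZData L B) {χ ψ : H → K} (hχ : genWeightSpace V χ ≠ ⊥)
    (α : Weight K H L) (hα : α.IsNonZero) (hαχ : (α : H → K) = -(χ + χ)) {f : L}
    (hf : f ∈ rootSpace H α) (hne : ψ ≠ χ) {w : V} (hw : w ∈ genWeightSpace V ψ) : ⁅f, w⁆ = 0 := by
  by_contra h0
  have hw0 : w ≠ 0 := fun e => h0 (by rw [e, lie_zero])
  have h1 : ⁅f, w⁆ ∈ genWeightSpace V ((α : H → K) + ψ) :=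
    mapsTo_toEnd_genWeightSpace_add_of_mem_rootSpace K L H V α ψ hf hw
  have h2 := h.weight_coroot H hχ (igRank_ne H hw hw0) α hα hαχ
  have h3 := h.weight_coroot H hχ (igRank_ne H h1 h0) α hα hαχ
  rw [Pi.add_apply, IsKilling.root_apply_coroot hα] at h3
  rcases h2 with ⟨h2, -⟩ | h2 | h2
  · exact hne h2
  all_goals
    rw [h2] at h3
    rcases h3 with ⟨-, h3⟩ | h3 | h3 <;> norm_num at h3

/-- Sketch: `u₀ = ⁅f, v⁆` with `v` from `exists_gen`, `u = c • u₀` with `c * c * B v u₀ = 1`; check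
the identity on each weight space (`iSup_genWeightSpace_eq_top K H V`, `kills`, `orth`);
`⁅coroot α, f⁆ = 2 • f` (`IsKilling.lie_eq_smul_of_mem_rootSpace`). -/
lemma NZData.rank_one (h : NZData L B) {χ : H → K} (hχ : genWeightSpace V χ ≠ ⊥) :
    ∃ u ∈ genWeightSpace V (-χ), u ≠ 0 ∧ ∃ a b : L, ∀ x : V, ⁅⁅a, b⁆, x⁆ = B x u • u := by
  obtain ⟨α, hα, hαχ, f, hf, hB⟩ := h.exists_root H hχ
  obtain ⟨v, hv, hv0, -, hg⟩ := h.exists_gen H hχ
  have h1 : ⁅f, v⁆ ∈ genWeightSpace V (-χ) := by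
    have : ⁅f, v⁆ ∈ genWeightSpace V ((α : H → K) + χ) :=
      mapsTo_toEnd_genWeightSpace_add_of_mem_rootSpace K L H V α χ hf hv
    rwa [hαχ, show -(χ + χ) + χ = -χ by abel] at this
  have h2 : ⁅(IsKilling.coroot α : L), f⁆ = (2 : K) • f := by
    rw [← IsKilling.root_apply_coroot hα]
    exact IsKilling.lie_eq_smul_of_mem_rootSpace hf _
  refine ⟨⁅f, v⁆, h1, fun e => hB v hv hv0 (by simp [e]),
    (B v ⁅f, v⁆ / 2) • (IsKilling.coroot α : L), f, fun x => ?_⟩
  rw [smul_lie, h2, smul_smul, div_mul_cancel₀ _ two_ne_zero, smul_lie]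
  have hx : x ∈ ⨆ ψ : H → K, genWeightSpace V ψ := by
    rw [iSup_genWeightSpace_eq_top K H V]
    trivial
  refine LieSubmodule.iSup_induction _
    (motive := fun x => B v ⁅f, v⁆ • ⁅f, x⁆ = B x ⁅f, v⁆ • ⁅f, v⁆) hx (fun ψ w hw => ?_) (by simp)
    fun y z hy hz => ?_
  · by_cases e : ψ = χ
    · obtain ⟨c, rfl⟩ := hg w (e ▸ hw)
      rw [lie_smul, map_smul, LinearMap.smul_apply, smul_smul, smul_eq_mul, mul_comm]
    · rw [h.kills H hχ α hα hαχ hf e hw, h.orth H (fun e' => e (add_neg_eq_zero.1 e')) hw h1,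
        smul_zero, zero_smul]
  · rw [lie_add, smul_add, hy, hz, map_add, LinearMap.add_apply, add_smul]

end cartan

/-- Sketch: `hasTrivialRadical` gives `IsKilling`; `LieAlgebra.exists_isCartanSubalgebra_engel`;
apply `rank_one` twice to see that each nonzero weight space, a line by `exists_gen`, is spanned by
such a vector. -/
theorem NZData.span_eq_top (h : NZData L B) :
    Submodule.span K {u : V | ∃ a b : L, ∀ x : V, ⁅⁅a, b⁆, x⁆ = B x u • u} = ⊤ := by
  have := h.hasTrivialRadical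
  obtain ⟨x₀, hH⟩ := exists_isCartanSubalgebra_engel K L
  refine eq_top_iff.2 fun x _ => ?_
  have hx : x ∈ ⨆ ψ : LieSubalgebra.engel K x₀ → K, genWeightSpace V ψ := by
    rw [iSup_genWeightSpace_eq_top K _ V]
    trivial
  refine LieSubmodule.iSup_induction _ (motive := fun x => x ∈ Submodule.span K
    {u : V | ∃ a b : L, ∀ x : V, ⁅⁅a, b⁆, x⁆ = B x u • u}) hx (fun ψ w hw => ?_) (zero_mem _)
    fun y z => add_mem
  by_cases h0 : w = 0
  · exact h0 ▸ zero_mem _
  have hψ := igRank_ne _ hw h0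
  obtain ⟨u, hu, hu0, -⟩ := h.rank_one _ hψ
  obtain ⟨u', hu', hu0', hab⟩ := h.rank_one _ (igRank_ne _ hu hu0)
  rw [neg_neg] at hu'
  obtain ⟨v, -, -, -, hg⟩ := h.exists_gen _ hψ
  obtain ⟨c, hc⟩ := hg u' hu'
  obtain ⟨c', rfl⟩ := hg w hw
  have hc0 : c ≠ 0 := fun e => hu0' (by rw [hc, e, zero_smul])
  rw [show c' • v = (c' / c) • u' by rw [hc, smul_smul, div_mul_cancel₀ _ hc0]]
  exact Submodule.smul_mem _ _ (Submodule.subset_span hab)

end Pool.Agent.Lib.MP_33b3f9_ag
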