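import Pool.Agent.Lib.MP_33b3f9_ag.IgCore
import Pool.Agent.Lib.MP_33b3f9_ag.IgStmt

/-!
Rigidity mod 2 forces the commutants to be scalar.
-/

open Matrix

namespace Pool.Agent.Lib.MP_33b3f9_ag

noncomputable section

variable {ν : Type} [Fintype ν] [DecidableEq ν] {Γ : Type*} [Group Γ]
  {r : Γ →* Matrix ν ν ℤ_[2]} {E : Matrix ν ν ℤ_[2]} {χ : Γ →* ℤ_[2]ˣ} {H : Subgroup Γ}

/-- rigidity for a homomorphism to matrices -/
def RigidM (r : Γ →* Matrix ν ν ℤ_[2]) : Prop :=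
  ∀ R : Subring (Matrix ν ν (ZMod 2)), (∀ x ∈ R, ∀ y ∈ R, x * y = y * x) →
    (∀ σ, ∀ x ∈ R, ∃ y ∈ R, y * (r σ).map red = (r σ).map red * x) → ∀ x ∈ R, x = 0 ∨ x = 1

/-- Sketch: by induction every `C ∈ O` is `c • 1 + 2 ^ n • C'` with `C' ∈ O` (`map_red_eq_iff`); an
element of `ℤ_2` divisible by all powers of 2 is zero. -/
lemma scalar_of_sat [Nonempty ν] (O : Set (Matrix ν ν ℤ_[2]))
    (h1 : ∀ C ∈ O, C - 1 ∈ O) (h2 : ∀ C, (2 : ℤ_[2]) • C ∈ O → C ∈ O)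
    (h3 : ∀ C ∈ O, C.map red = 0 ∨ C.map red = 1) {C : Matrix ν ν ℤ_[2]} (hC : C ∈ O) :
    ∃ c : ℤ_[2], C = c • 1 := by
  have key : ∀ n : ℕ, ∃ c : ℤ_[2], ∃ C' ∈ O, C = c • 1 + (2 : ℤ_[2]) ^ n • C' := fun n => by
    induction n with
    | zero => exact ⟨0, C, hC, by simp⟩
    | succ n ih =>
      obtain ⟨c, C', hC', e⟩ := ih
      rcases h3 C' hC' with h | h
      · obtain ⟨Z, hZ⟩ := (map_red_eq_iff C' 0).1 (by rw [h, Matrix.map_zero _ (map_zero red)])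
        rw [zero_add] at hZ
        exact ⟨c, Z, h2 Z (hZ ▸ hC'), by rw [e, hZ, smul_smul, pow_succ]⟩
      · obtain ⟨Z, hZ⟩ := (map_red_eq_iff C' 1).1
          (by rw [h, Matrix.map_one _ (map_zero red) (map_one red)])
        refine ⟨c + 2 ^ n, Z, h2 Z ?_, by rw [e, hZ, smul_add, smul_smul, pow_succ, add_smul,
          add_assoc]⟩
        have := h1 C' hC'
        rwa [hZ, add_sub_cancel_left] at this
  obtain ⟨i₀⟩ := ‹Nonempty ν›
  refine ⟨C i₀ i₀, ?_⟩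
  ext1 i j
  rw [← sub_eq_zero]
  by_contra h0
  have hu : ¬ IsUnit (2 : ℤ_[2]) := PadicInt.irreducible_p.not_isUnit
  obtain ⟨n, hn⟩ := FiniteMultiplicity.of_not_isUnit hu h0
  obtain ⟨c, C', -, e⟩ := key (n + 1)
  refine hn ⟨C' i j - C' i₀ i₀ * (1 : Matrix ν ν ℤ_[2]) i j, ?_⟩
  rw [e]
  simp only [Matrix.add_apply, Matrix.smul_apply, smul_eq_mul, Matrix.one_apply_eq]
  ring

/-- the matrices that commute with the image of some subgroup of finite index -/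
def igRigid_ring (r : Γ →* Matrix ν ν ℤ_[2]) : Subring (Matrix ν ν ℤ_[2]) where
  carrier := {C | ∃ U : Subgroup Γ, U.FiniteIndex ∧ ∀ σ ∈ U, Commute C (r σ)}
  mul_mem' := by
    rintro a b ⟨U, hU, ha⟩ ⟨V, hV, hb⟩
    exact ⟨U ⊓ V, inferInstance, fun σ hσ => (ha σ hσ.1).mul_left (hb σ hσ.2)⟩
  one_mem' := ⟨⊤, inferInstance, fun σ _ => Commute.one_left _⟩
  add_mem' := by
    rintro a b ⟨U, hU, ha⟩ ⟨V, hV, hb⟩
    exact ⟨U ⊓ V, inferInstance, fun σ hσ => (ha σ hσ.1).add_left (hb σ hσ.2)⟩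
  zero_mem' := ⟨⊤, inferInstance, fun σ _ => Commute.zero_left _⟩
  neg_mem' := by
    rintro a ⟨U, hU, ha⟩
    exact ⟨U, hU, fun σ hσ => (ha σ hσ).neg_left⟩

lemma igRigid_inj : Function.Injective (toΩ Qb) :=
  (algebraMap ℚ_[2] Qb).injective.comp Subtype.val_injective

lemma igRigid_conj {C : Matrix ν ν ℤ_[2]} (hC : C ∈ igRigid_ring r) (τ : Γ) :
    r τ * C * r τ⁻¹ ∈ igRigid_ring r := by
  obtain ⟨U, hU, h⟩ := hC
  refine ⟨U.normalCore, inferInstance, fun σ hσ => ?_⟩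
  have h1 := h _ (hσ τ⁻¹)
  have h2 : r τ⁻¹ * r σ = r (τ⁻¹ * σ * τ⁻¹⁻¹) * r τ⁻¹ := by
    rw [← map_mul, ← map_mul]
    congr 1
    group
  have h3 : r σ * r τ = r τ * r (τ⁻¹ * σ * τ⁻¹⁻¹) := by
    rw [← map_mul, ← map_mul]
    congr 1
    group
  change r τ * C * r τ⁻¹ * r σ = r σ * (r τ * C * r τ⁻¹)
  calc r τ * C * r τ⁻¹ * r σ = r τ * (C * r (τ⁻¹ * σ * τ⁻¹⁻¹)) * r τ⁻¹ := by
        simp only [Matrix.mul_assoc, h2]
    _ = _ := by rw [h1.eq, ← Matrix.mul_assoc, ← h3]; simp only [Matrix.mul_assoc]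

lemma igRigid_comm (h : IgData r E χ H) {C C' : Matrix ν ν ℤ_[2]} (hC : C ∈ igRigid_ring r)
    (hC' : C' ∈ igRigid_ring r) : C * C' = C' * C := by
  obtain ⟨U, hU, h1⟩ := hC
  obtain ⟨V, hV, h2⟩ := hC'
  refine Matrix.map_injective igRigid_inj ?_
  change (C * C').map (toΩ Qb) = (C' * C).map (toΩ Qb)
  rw [Matrix.map_mul, Matrix.map_mul]
  refine h.comm_comm U V ?_ ?_
  · rintro _ ⟨σ, hσ, rfl⟩
    rw [repO_apply, ← Matrix.map_mul, ← Matrix.map_mul, (h1 σ hσ).eq]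
  · rintro _ ⟨σ, hσ, rfl⟩
    rw [repO_apply, ← Matrix.map_mul, ← Matrix.map_mul, (h2 σ hσ).eq]

/-- Sketch: the matrices over `ℤ_2` that commute with `r U` for some `U` of finite index form a
subring `O`, commutative by `IgData.comm_comm` (`toΩ` is injective), stable under conjugation
(`normalCore`) and saturated; apply `RigidM` to `O.map red.mapMatrix`, then `scalar_of_sat`. -/
theorem IgData.scalar_int [Nonempty ν] (h : IgData r E χ H) (hR : RigidM r) (U : Subgroup Γ)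
    [U.FiniteIndex] {C : Matrix ν ν ℤ_[2]} (hC : ∀ σ ∈ U, C * r σ = r σ * C) :
    ∃ c : ℤ_[2], C = c • 1 := by
  refine scalar_of_sat (igRigid_ring r : Set (Matrix ν ν ℤ_[2]))
    (fun C hC => sub_mem hC (one_mem _)) ?_ (fun C hC => ?_) ⟨U, ‹_›, hC⟩
  · rintro C ⟨V, hV, h1⟩
    refine ⟨V, hV, fun σ hσ => smul_right_injective _ (two_ne_zero : (2 : ℤ_[2]) ≠ 0) ?_⟩
    have h2 := (h1 σ hσ).eq
    rwa [Matrix.smul_mul, Matrix.mul_smul] at h2
  · refine hR ((igRigid_ring r).map red.mapMatrix) ?_ ?_ _ ⟨C, hC, rfl⟩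
    · rintro _ ⟨x, hx, rfl⟩ _ ⟨y, hy, rfl⟩
      rw [← map_mul, ← map_mul, igRigid_comm h hx hy]
    · rintro σ _ ⟨x, hx, rfl⟩
      refine ⟨_, ⟨_, igRigid_conj hx σ, rfl⟩, ?_⟩
      simp only [RingHom.mapMatrix_apply]
      rw [← Matrix.map_mul, ← Matrix.map_mul, Matrix.mul_assoc, ← map_mul, inv_mul_cancel, map_one,
        Matrix.mul_one]

/-- clear denominators; scalars are Hodge endomorphisms -/
theorem IgData.endTate [Nonempty ν] (h : IgData r E χ H) (hR : RigidM r) {ρ : Γ → GL ν ℚ_[2]}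
    (hρ : ∀ σ, (ρ σ : Matrix ν ν ℚ_[2]) = (r σ).map ((↑) : ℤ_[2] → ℚ_[2])) (I : Matrix ν ν ℝ) :
    EndTate ρ I := by
  intro U hU C hC
  obtain ⟨b, hb⟩ := IsLocalization.exist_integer_multiples_of_finite (nonZeroDivisors ℤ_[2])
    (fun p : ν × ν => C p.1 p.2)
  choose D hD using hb
  have b0 : ((b : ℤ_[2]) : ℚ_[2]) ≠ 0 := by
    rw [Ne, PadicInt.coe_eq_zero]
    exact nonZeroDivisors.coe_ne_zero b
  have h1 : (Matrix.of fun i j => D (i, j)).map PadicInt.Coe.ringHom =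
      ((b : ℤ_[2]) : ℚ_[2]) • C := by
    ext i j
    exact hD (i, j)
  obtain ⟨c, hc⟩ := h.scalar_int hR U (C := Matrix.of fun i j => D (i, j)) fun σ hσ => by
    refine Matrix.map_injective (f := PadicInt.Coe.ringHom) Subtype.val_injective ?_
    have h2 := hC _ ⟨σ, hσ, rfl⟩
    rw [hρ] at h2
    change Matrix.map _ _ = Matrix.map _ _
    rw [Matrix.map_mul, Matrix.map_mul, h1, Matrix.smul_mul, Matrix.mul_smul]
    exact congrArg _ h2
  have h2 : C = (((b : ℤ_[2]) : ℚ_[2])⁻¹ * (c : ℚ_[2])) • (1 : Matrix ν ν ℚ_[2]) := by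
    rw [mul_smul, eq_inv_smul_iff₀ b0, ← h1, hc]
    ext i j
    by_cases hij : i = j <;> simp [hij]
  rw [h2]
  exact Submodule.smul_mem _ _ (Submodule.subset_span ⟨1, by simp, by simp⟩)

end

end Pool.Agent.Lib.MP_33b3f9_ag
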