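import Mathlib

/-!
A criterion for rigidity.
-/

open Matrix

namespace Pool.Agent.Lib.MP_33b3f9_ag

variable {ν : Type} [Fintype ν] [DecidableEq ν] {G : Type*} [Group G]

lemma igRkA_common {k : Type*} [Field k] [Nonempty ν] (S : Finset (Matrix ν ν k))
    (hc : ∀ x ∈ S, ∀ y ∈ S, x * y = y * x) (hn : ∀ x ∈ S, IsNilpotent x) :
    ∃ v : ν → k, v ≠ 0 ∧ ∀ x ∈ S, x *ᵥ v = 0 := by
  classical
  induction S using Finset.induction_on with
  | empty =>
    obtain ⟨v, hv⟩ := exists_ne (0 : ν → k)
    exact ⟨v, hv, by simp⟩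
  | insert a S ha ih =>
    obtain ⟨v, hv, hS⟩ := ih
      (fun x hx y hy => hc x (Finset.mem_insert_of_mem hx) y (Finset.mem_insert_of_mem hy))
      (fun x hx => hn x (Finset.mem_insert_of_mem hx))
    obtain ⟨n, hn0⟩ := hn a (Finset.mem_insert_self _ _)
    have hex : ∃ m, (a ^ m) *ᵥ v = 0 := ⟨n, by simp [hn0]⟩
    have h0 : Nat.find hex ≠ 0 := by
      intro h
      have := Nat.find_spec hex
      rw [h] at this
      exact hv (by simpa using this)
    obtain ⟨m, hm⟩ := Nat.exists_eq_succ_of_ne_zero h0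
    have h1 : ¬ (a ^ m) *ᵥ v = 0 := Nat.find_min hex (by omega)
    have h2 : (a ^ (m + 1)) *ᵥ v = 0 := by
      have := Nat.find_spec hex
      rwa [hm] at this
    refine ⟨(a ^ m) *ᵥ v, h1, ?_⟩
    intro x hx
    rcases Finset.mem_insert.1 hx with rfl | hx'
    · rw [Matrix.mulVec_mulVec, ← pow_succ', h2]
    · have hcm : Commute x (a ^ m) :=
        Commute.pow_right (hc x hx a (Finset.mem_insert_self _ _)) m
      rw [Matrix.mulVec_mulVec, hcm.eq, ← Matrix.mulVec_mulVec, hS x hx', Matrix.mulVec_zero]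

lemma igRkA_inv (φ : G →* Matrix ν ν (ZMod 2)) (u : G) : φ u * φ u⁻¹ = 1 := by
  rw [← map_mul, mul_inv_cancel, map_one]

lemma igRkA_inv' (φ : G →* Matrix ν ν (ZMod 2)) (u : G) : φ u⁻¹ * φ u = 1 := by
  rw [← map_mul, inv_mul_cancel, map_one]

lemma igRkA_conj (φ : G →* Matrix ν ν (ZMod 2)) (R : Subring (Matrix ν ν (ZMod 2)))
    (h2 : ∀ u, ∀ x ∈ R, ∃ y ∈ R, y * φ u = φ u * x) (u : G) {x : Matrix ν ν (ZMod 2)}
    (hx : x ∈ R) : φ u * x * φ u⁻¹ ∈ R := by
  obtain ⟨y, hy, e⟩ := h2 u x hx
  rw [← e, mul_assoc, igRkA_inv, mul_one]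
  exact hy

lemma igRkA_pow {A : Type*} [Monoid A] {a x y : A} (h : x * a = a * y) (n : ℕ) :
    x ^ n * a = a * y ^ n := by
  induction n with
  | zero => simp
  | succ n ih => rw [pow_succ, mul_assoc, h, ← mul_assoc, ih, mul_assoc, ← pow_succ]

lemma igRkA_sub {K V : Type*} [Field K] [AddCommGroup V] [Module K V] (A B : Module.End K V)
    (h : Commute B A) (v : V) (k l : ℕ) (hk : (A ^ k) v = 0) (hl : (B ^ l) v = 0) :
    ((B - A) ^ (l + k)) v = 0 := by
  have hAB : Commute B (-A) := h.neg_right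
  rw [sub_eq_add_neg, hAB.add_pow, LinearMap.sum_apply]
  refine Finset.sum_eq_zero fun m hm => ?_
  have hcast : ∀ g : Module.End K V, g v = 0 →
      (g * ((l + k).choose m : Module.End K V)) v = 0 := by
    intro g hg
    rw [← (Nat.cast_commute _ g).eq, Module.End.mul_apply, hg, map_zero]
  apply hcast
  by_cases hml : l ≤ m
  · obtain ⟨d, rfl⟩ := Nat.exists_eq_add_of_le' hml
    rw [(hAB.pow_pow _ _).eq, pow_add, ← mul_assoc, Module.End.mul_apply, hl, map_zero]
  · have h6 : l + k - m = (l - m) + k := by omega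
    have hk' : ((-A) ^ k) v = 0 := by
      rw [neg_pow, Module.End.mul_apply, hk, map_zero]
    rw [h6, pow_add, ← mul_assoc, Module.End.mul_apply, hk', map_zero]

/-- the conjugation action on a normalised subring -/
@[reducible] def igRkA_act (φ : G →* Matrix ν ν (ZMod 2)) (R : Subring (Matrix ν ν (ZMod 2)))
    (h2 : ∀ u, ∀ x ∈ R, ∃ y ∈ R, y * φ u = φ u * x) : MulAction G R where
  smul u x := ⟨φ u * x.1 * φ u⁻¹, igRkA_conj φ R h2 u x.2⟩
  one_smul x := by
    apply Subtype.ext
    change φ 1 * x.1 * φ 1⁻¹ = x.1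
    simp
  mul_smul u w x := by
    apply Subtype.ext
    change φ (u * w) * x.1 * φ (u * w)⁻¹ = φ u * (φ w * x.1 * φ w⁻¹) * φ u⁻¹
    rw [_root_.mul_inv_rev, map_mul, map_mul]
    simp only [mul_assoc]

/-- base change of a matrix, as an endomorphism -/
noncomputable def igRkA_T (K : Type) [Field K] [Algebra (ZMod 2) K] :
    Matrix ν ν (ZMod 2) →+* Module.End K (ν → K) :=
  (Matrix.toLinAlgEquiv' (R := K) (n := ν)).toRingEquiv.toRingHom.comp
    (algebraMap (ZMod 2) K).mapMatrix

lemma igRkA_T_inj (K : Type) [Field K] [Algebra (ZMod 2) K] :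
    Function.Injective (igRkA_T (ν := ν) K) := by
  intro a b h
  have h' : (algebraMap (ZMod 2) K).mapMatrix a = (algebraMap (ZMod 2) K).mapMatrix b :=
    (Matrix.toLinAlgEquiv' (R := K) (n := ν)).injective h
  ext i j
  apply (algebraMap (ZMod 2) K).injective
  have := congrFun (congrFun h' i) j
  simpa using this

/-- Sketch: the common kernel of the nilpotent elements of `R` is a stable subspace, and it is
nonzero if `ν` is nonempty: among the finitely many nilpotent elements (they commute) argue by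
induction, or take a nonzero vector `v` and a product `y` of nilpotent elements of maximal length
with `y *ᵥ v ≠ 0` (`R` is finite, its nilradical is nilpotent: `IsArtinianRing.isNilpotent_nilradical`
or `Commute.isNilpotent_sum`). -/
lemma nil_eq_zero (φ : G →* Matrix ν ν (ZMod 2))
    (hs : ∀ N : Submodule (ZMod 2) (ν → ZMod 2), (∀ u, ∀ x ∈ N, φ u *ᵥ x ∈ N) → N = ⊥ ∨ N = ⊤)
    (R : Subring (Matrix ν ν (ZMod 2))) (h1 : ∀ x ∈ R, ∀ y ∈ R, x * y = y * x)
    (h2 : ∀ u, ∀ x ∈ R, ∃ y ∈ R, y * φ u = φ u * x) {x : Matrix ν ν (ZMod 2)} (hx : x ∈ R)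
    (hn : IsNilpotent x) : x = 0 := by
  classical
  rcases isEmpty_or_nonempty ν with hν | hν
  · exact Subsingleton.elim _ _
  let N : Submodule (ZMod 2) (ν → ZMod 2) :=
    { carrier := {v | ∀ y ∈ R, IsNilpotent y → y *ᵥ v = 0}
      add_mem' := by
        intro a b ha hb y hy hny
        rw [Matrix.mulVec_add, ha y hy hny, hb y hy hny, add_zero]
      zero_mem' := by
        intro y _ _
        simp
      smul_mem' := by
        intro c a ha y hy hny
        rw [Matrix.mulVec_smul, ha y hy hny, smul_zero] }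
  have hst : ∀ u, ∀ v ∈ N, φ u *ᵥ v ∈ N := by
    intro u v hv y hy hny
    have hm := igRkA_conj φ R h2 u⁻¹ hy
    rw [inv_inv] at hm
    have e : y * φ u = φ u * (φ u⁻¹ * y * φ u) := by
      rw [← mul_assoc, ← mul_assoc, igRkA_inv, one_mul]
    have hn' : IsNilpotent (φ u⁻¹ * y * φ u) := by
      obtain ⟨n, hn⟩ := hny
      refine ⟨n, ?_⟩
      have h3 := igRkA_pow e n
      rw [hn, zero_mul] at h3
      have h4 : φ u⁻¹ * (φ u * (φ u⁻¹ * y * φ u) ^ n) = 0 := by rw [← h3, mul_zero]
      rwa [← mul_assoc, igRkA_inv', one_mul] at h4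
    rw [Matrix.mulVec_mulVec, e, ← Matrix.mulVec_mulVec, hv _ hm hn', Matrix.mulVec_zero]
  rcases hs N hst with h | h
  · exfalso
    obtain ⟨v, hv, hS⟩ := igRkA_common
      (Finset.univ.filter fun y : Matrix ν ν (ZMod 2) => y ∈ R ∧ IsNilpotent y)
      (fun a ha b hb => h1 a (Finset.mem_filter.1 ha).2.1 b (Finset.mem_filter.1 hb).2.1)
      (fun a ha => (Finset.mem_filter.1 ha).2.2)
    have : v ∈ N := fun y hy hny => hS y (Finset.mem_filter.2 ⟨Finset.mem_univ _, hy, hny⟩)
    rw [h] at this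
    exact hv this
  · have hall : ∀ v : ν → ZMod 2, x *ᵥ v = 0 := by
      intro v
      have : v ∈ N := by rw [h]; trivial
      exact this x hx hn
    ext i j
    have := congrFun (hall (Pi.single j 1)) i
    simpa [Matrix.mulVec_single] using this

/-- Sketch: over `K = AlgebraicClosure (ZMod 2)` let `X` be the set of functions `l : R → K` such that
some `v ≠ 0` in `ν → K` has `x v = l x • v` for all `x ∈ R`. The common eigenspaces are independent
(`Module.End.independent_iInf_maxGenEigenspace_of_forall_mapsTo` or a direct argument), so `X` has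
at most `card ν` elements. `G` acts on `X` through conjugation on `R`; stabilizers have index at
most `card ν`, so the action is trivial. Hence for `x ∈ R` and its conjugate `y` all `l ∈ X` vanish
at `z = y - x`; every eigenvalue of `z` is of the form `l z` (commuting operators have a common
eigenvector in the eigenspace of `z`), so `z` is nilpotent, hence zero by `nil_eq_zero`. -/
theorem rigid_of_simple (φ : G →* Matrix ν ν (ZMod 2))
    (hs : ∀ N : Submodule (ZMod 2) (ν → ZMod 2), (∀ u, ∀ x ∈ N, φ u *ᵥ x ∈ N) → N = ⊥ ∨ N = ⊤)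
    (hc : ∀ x : Matrix ν ν (ZMod 2), (∀ u, x * φ u = φ u * x) → x = 0 ∨ x = 1)
    (hi : ∀ H : Subgroup G, H.FiniteIndex → H.index ≤ Fintype.card ν → H = ⊤)
    (R : Subring (Matrix ν ν (ZMod 2))) (h1 : ∀ x ∈ R, ∀ y ∈ R, x * y = y * x)
    (h2 : ∀ u, ∀ x ∈ R, ∃ y ∈ R, y * φ u = φ u * x) : ∀ x ∈ R, x = 0 ∨ x = 1 := by
  classical
  let K := AlgebraicClosure (ZMod 2)
  let T := igRkA_T (ν := ν) K
  let f : R → Module.End K (ν → K) := fun x => T x.1
  have hcm : ∀ a b : R, Commute (f a) (f b) := by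
    intro a b
    have : Commute a.1 b.1 := h1 _ a.2 _ b.2
    exact this.map T
  let W : (R → K) → Submodule K (ν → K) := fun χ => ⨅ i, (f i).maxGenEigenspace (χ i)
  have hind : iSupIndep W :=
    Module.End.independent_iInf_maxGenEigenspace_of_forall_mapsTo f
      (fun i j μ => Module.End.mapsTo_maxGenEigenspace_of_comm (hcm j i) μ)
  have htop : ⨆ χ, W χ = ⊤ :=
    Module.End.iSup_iInf_maxGenEigenspace_eq_top_of_iSup_maxGenEigenspace_eq_top_of_commute f
      (fun i j _ => hcm i j) (fun i => Module.End.iSup_maxGenEigenspace_eq_top _)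
  let act : MulAction G R := igRkA_act φ R h2
  have hsm : ∀ (u : G) (a : R), (u • a).1 = φ u * a.1 * φ u⁻¹ := fun _ _ => rfl
  let act2 : MulAction G (R → K) := arrowAction
  have hsm2 : ∀ (u : G) (χ : R → K) (a : R), (u • χ) a = χ (u⁻¹ • a) := fun _ _ _ => rfl
  have hXfin : {χ | W χ ≠ ⊥}.Finite := WellFoundedGT.finite_ne_bot_of_iSupIndep hind
  have hXcard : {χ | W χ ≠ ⊥}.ncard ≤ Fintype.card ν := by
    have : Fintype {χ // W χ ≠ ⊥} := hXfin.fintype
    have h3 := hind.subtype_ne_bot_le_finrank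
    rw [Module.finrank_fintype_fun_eq_card] at h3
    have h4 : {χ | W χ ≠ ⊥}.ncard = Fintype.card {χ // W χ ≠ ⊥} := by
      rw [← Nat.card_coe_set_eq, ← Nat.card_eq_fintype_card]
      rfl
    omega
  have horb : ∀ (u : G) (χ : R → K), W χ ≠ ⊥ → W (u • χ) ≠ ⊥ := by
    intro u χ hχ
    obtain ⟨v, hv, hv0⟩ := Submodule.exists_mem_ne_zero_of_ne_bot hχ
    rw [Submodule.ne_bot_iff]
    refine ⟨T (φ u) v, ?_, ?_⟩
    · refine (Submodule.mem_iInf _).2 fun a => ?_
      have h3 := (Submodule.mem_iInf _).1 hv (u⁻¹ • a)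
      rw [Module.End.mem_maxGenEigenspace] at h3 ⊢
      obtain ⟨k, hk⟩ := h3
      refine ⟨k, ?_⟩
      rw [hsm2]
      have e : (f a - χ (u⁻¹ • a) • (1 : Module.End K (ν → K))) * T (φ u)
          = T (φ u) * (f (u⁻¹ • a) - χ (u⁻¹ • a) • (1 : Module.End K (ν → K))) := by
        have e0 : a.1 * φ u = φ u * (u⁻¹ • a).1 := by
          rw [hsm, inv_inv, ← mul_assoc, ← mul_assoc, igRkA_inv, one_mul]
        have e1 : f a * T (φ u) = T (φ u) * f (u⁻¹ • a) := by
          simp only [f]
          rw [← map_mul, ← map_mul, e0]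
        rw [sub_mul, mul_sub, e1, smul_mul_assoc, mul_smul_comm, one_mul, mul_one]
      have e2 := igRkA_pow e k
      have e3 := congrArg (fun g : Module.End K (ν → K) => g v) e2
      simp only [Module.End.mul_apply] at e3
      rw [e3, hk, map_zero]
    · intro h0
      apply hv0
      have : T (φ u⁻¹) (T (φ u) v) = v := by
        rw [← Module.End.mul_apply, ← map_mul, igRkA_inv', map_one]
        rfl
      rw [← this, h0, map_zero]
  have hfix : ∀ (u : G) (χ : R → K), W χ ≠ ⊥ → u • χ = χ := by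
    intro u χ hχ
    have hsub : MulAction.orbit G χ ⊆ {χ | W χ ≠ ⊥} := by
      rintro _ ⟨w, rfl⟩
      exact horb w χ hχ
    have hidx := MulAction.index_stabilizer G χ
    have hfin : (MulAction.orbit G χ).Finite := hXfin.subset hsub
    have hne : (MulAction.orbit G χ).ncard ≠ 0 :=
      Set.ncard_ne_zero_of_mem (MulAction.mem_orbit_self χ) hfin
    have hle : (MulAction.orbit G χ).ncard ≤ Fintype.card ν :=
      (Set.ncard_le_ncard hsub hXfin).trans hXcard
    have htop' := hi (MulAction.stabilizer G χ) ⟨by rw [hidx]; exact hne⟩ (by rw [hidx]; exact hle)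
    have : u ∈ MulAction.stabilizer G χ := by rw [htop']; trivial
    exact this
  intro x hx
  apply hc
  intro u
  let a : R := ⟨x, hx⟩
  let b : R := u⁻¹ • a
  have hz : IsNilpotent (f b - f a) := by
    have h5 : (f b - f a).maxGenEigenspace 0 = ⊤ := by
      rw [eq_top_iff, ← htop]
      refine iSup_le fun χ => ?_
      by_cases hχ : W χ = ⊥
      · rw [hχ]; exact bot_le
      intro v hv
      have hab : χ b = χ a := by
        have := congrFun (hfix u χ hχ) a
        rwa [hsm2] at this
      have ha := (Submodule.mem_iInf _).1 hv a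
      have hb := (Submodule.mem_iInf _).1 hv b
      rw [Module.End.mem_maxGenEigenspace] at ha hb ⊢
      obtain ⟨k, hk⟩ := ha
      obtain ⟨l, hl⟩ := hb
      rw [hab] at hl
      set A := f a - χ a • (1 : Module.End K (ν → K)) with hA
      set B := f b - χ a • (1 : Module.End K (ν → K)) with hB
      have hAB : Commute B A := by
        rw [hA, hB]
        refine Commute.sub_left (Commute.sub_right (hcm b a) ?_) (Commute.sub_right ?_ ?_)
        · exact (Commute.one_right _).smul_right _
        · exact (Commute.one_left _).smul_left _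
        · exact Commute.refl _
      refine ⟨l + k, ?_⟩
      have e : f b - f a - (0 : K) • (1 : Module.End K (ν → K)) = B - A := by
        rw [hA, hB, zero_smul]
        abel
      rw [e]
      exact igRkA_sub A B hAB v k l hk hl
    rw [Module.End.isNilpotent_iff_of_finite]
    intro v
    have : v ∈ (f b - f a).maxGenEigenspace 0 := by rw [h5]; trivial
    rw [Module.End.mem_maxGenEigenspace] at this
    simpa using this
  have hz' : IsNilpotent (b.1 - a.1) := by
    obtain ⟨n, hn⟩ := hz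
    refine ⟨n, igRkA_T_inj K ?_⟩
    rw [map_pow, map_sub, map_zero]
    exact hn
  have h7 := nil_eq_zero φ hs R h1 h2 (R.sub_mem b.2 a.2) hz'
  have h8 : φ u⁻¹ * x * φ u = x := by
    have := sub_eq_zero.1 h7
    rw [hsm, inv_inv] at this
    exact this
  calc x * φ u = φ u * (φ u⁻¹ * x * φ u) := by
        rw [← mul_assoc, ← mul_assoc, igRkA_inv, one_mul]
    _ = φ u * x := by rw [h8]

end Pool.Agent.Lib.MP_33b3f9_ag
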