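import Pool.Agent.Lib.MP_33b3f9_ag.IgHLin
import Pool.Agent.Lib.MP_33b3f9_ag.IgOne

/-!
Groups of rank one act simply on the span of the Weierstrass points.
-/

open Matrix

namespace Pool.Agent.Lib.MP_33b3f9_ag

variable {ν ι : Type} [Fintype ν] [DecidableEq ν] [Fintype ι] [DecidableEq ι]
  {E : Matrix ν ν (ZMod 2)} {w : ι → ν → ZMod 2}

lemma igRkB_two (t : ZMod 2) : t = 0 ∨ t = 1 := by
  revert t
  decide

omit [Fintype ν] [DecidableEq ν] in
lemma igRkB_add_self (x : ν → ZMod 2) : x + x = 0 := by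
  ext a
  exact CharTwo.add_self_eq_zero _

/-- Sketch: `φ u = ∑ i, vecMulVec (w (u i)) (Eᵀ *ᵥ w i)`, that is `y ↦ ∑ i, (w i ⬝ E y) • w (u i)`
(`WData.pair`, `WData.sum`); multiplicativity by `WData.ext`. -/
lemma WData.exists_permM (h : WData E w) :
    ∃ φ : Equiv.Perm ι →* Matrix ν ν (ZMod 2), ∀ u i, φ u *ᵥ w i = w (u i) := by
  have key : ∀ u : Equiv.Perm ι, ∃ M : Matrix ν ν (ZMod 2), ∀ i, M *ᵥ w i = w (u i) := fun u => by
    refine ⟨∑ i, vecMulVec (w (u i)) (w i ᵥ* E), fun j => ?_⟩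
    have h1 : ∀ i, vecMulVec (w (u i)) (w i ᵥ* E) *ᵥ w j =
        w (u i) + if i = j then w (u i) else 0 := fun i => by
      have h2 : vecMulVec (w (u i)) (w i ᵥ* E) *ᵥ w j = (w i ⬝ᵥ E *ᵥ w j) • w (u i) := by
        rw [dotProduct_mulVec]
        ext a
        simp only [mulVec, dotProduct, vecMulVec_apply, Pi.smul_apply, smul_eq_mul,
          Finset.sum_mul]
        exact Finset.sum_congr rfl fun b _ => by ring
      rw [h2, h.pair]
      split_ifs
      · rw [zero_smul, igRkB_add_self]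
      · rw [one_smul, add_zero]
    rw [sum_mulVec]
    simp only [h1, Finset.sum_add_distrib, Finset.sum_ite_eq', Finset.mem_univ, if_true]
    rw [Equiv.sum_comp u w, h.sum, zero_add]
  choose M hM using key
  refine ⟨⟨⟨M, h.ext fun i => ?_⟩, fun u v => h.ext fun i => ?_⟩, hM⟩
  · rw [hM, one_mulVec, Equiv.Perm.one_apply]
  · show M (u * v) *ᵥ w i = (M u * M v) *ᵥ w i
    rw [← mulVec_mulVec, hM, hM, hM, Equiv.Perm.mul_apply]

/-- Sketch: `w p ⬝ E x` is a constant `t` for `p ≠ i` (`perm_inv`, `trans_conj`), and the sum over all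
`p` vanishes, so `w i ⬝ E x = 0` (an even number of terms); `x - t • w i` is orthogonal to all
`w p`, hence zero (`span`, `isUnit_det`). -/
lemma WData.fixed (h : WData E w) {φ : Equiv.Perm ι →* Matrix ν ν (ZMod 2)}
    (hφ : ∀ u i, φ u *ᵥ w i = w (u i)) {U : Subgroup (Equiv.Perm ι)} {i : ι}
    (hU : ∀ p q, p ≠ i → q ≠ i → ∃ u ∈ U, u p = q) {x : ν → ZMod 2}
    (hx : ∀ u ∈ U, φ u *ᵥ x = x) : ∃ t : ZMod 2, x = t • w i := by
  obtain ⟨c, hc⟩ := h.span x
  have h1 : ∀ p, w p ⬝ᵥ E *ᵥ x = ∑ j, c j - c p := fun p => by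
    rw [hc]
    exact h.lieB_left p c
  have h2 : ∀ u ∈ U, ∀ p, c (u p) = c p := fun u hu p => by
    have h3 : w (u p) ⬝ᵥ E *ᵥ x = w p ⬝ᵥ E *ᵥ x := by
      conv_rhs => rw [← h.perm_inv u (hφ u)]
      rw [← mulVec_mulVec, ← mulVec_mulVec, dotProduct_mulVec _ (φ u)ᵀ, vecMul_transpose, hφ,
        hx u hu]
    rw [h1, h1] at h3
    exact sub_right_injective h3
  obtain ⟨t, ht⟩ : ∃ t : ZMod 2, ∀ p, p ≠ i → c p = t := by
    by_cases h0 : ∃ q, q ≠ i
    · obtain ⟨q, hq⟩ := h0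
      refine ⟨c q, fun p hp => ?_⟩
      obtain ⟨u, hu, rfl⟩ := hU q p hq hp
      exact h2 u hu q
    · exact ⟨0, fun p hp => (h0 ⟨p, hp⟩).elim⟩
  refine ⟨c i - t, ?_⟩
  have h4 : ∀ j, c j • w j = t • w j + if j = i then (c i - t) • w i else 0 := fun j => by
    split_ifs with hj
    · rw [hj, ← add_smul, add_sub_cancel]
    · rw [ht j hj, add_zero]
  rw [hc]
  simp only [h4, Finset.sum_add_distrib, Finset.sum_ite_eq', Finset.mem_univ, if_true]
  rw [← Finset.smul_sum, h.sum, smul_zero, zero_add]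

/-- Sketch: a 2-group acting on the finite set `N` of even cardinality with the fixed point `0` has
another fixed point (`IsPGroup.exists_fixed_point_of_prime_dvd_card_of_fixed_point`); by `fixed`
every `w i` lies in `N`. -/
lemma WData.simple (h : WData E w) {φ : Equiv.Perm ι →* Matrix ν ν (ZMod 2)}
    (hφ : ∀ u i, φ u *ᵥ w i = w (u i)) {G : Subgroup (Equiv.Perm ι)}
    (hG : ∀ i, ∃ U ≤ G, IsPGroup 2 U ∧ (∀ u ∈ U, u i = i) ∧
      ∀ p q, p ≠ i → q ≠ i → ∃ u ∈ U, u p = q)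
    (N : Submodule (ZMod 2) (ν → ZMod 2)) (hN : ∀ u ∈ G, ∀ x ∈ N, φ u *ᵥ x ∈ N) :
    N = ⊥ ∨ N = ⊤ := by
  rw [or_iff_not_imp_left]
  intro hne
  obtain ⟨n, hn, hn0⟩ := Submodule.exists_mem_ne_zero_of_ne_bot hne
  have hcard : 2 ∣ Nat.card N := by
    have h1 : addOrderOf (⟨n, hn⟩ : N) = 2 := by
      refine addOrderOf_eq_prime ?_ fun h0 => hn0 (congrArg Subtype.val h0)
      apply Subtype.ext
      show 2 • n = 0
      rw [two_nsmul, igRkB_add_self]
    have h2 := addOrderOf_dvd_natCard (⟨n, hn⟩ : N)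
    rwa [h1] at h2
  have hw : ∀ i, w i ∈ N := fun i => by
    obtain ⟨U, hUG, hp, -, htr⟩ := hG i
    let _ : MulAction U N :=
      { smul := fun u x => ⟨φ u *ᵥ x, hN u (hUG u.2) x x.2⟩
        one_smul := fun x => Subtype.ext (by
          show φ 1 *ᵥ (x : ν → ZMod 2) = x
          rw [map_one, one_mulVec])
        mul_smul := fun u v x => Subtype.ext (by
          show φ (u * v) *ᵥ (x : ν → ZMod 2) = φ u *ᵥ φ v *ᵥ (x : ν → ZMod 2)
          rw [map_mul, mulVec_mulVec]) }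
    have h0 : (0 : N) ∈ MulAction.fixedPoints U N := fun u => Subtype.ext (by
      show φ u *ᵥ (0 : ν → ZMod 2) = 0
      rw [mulVec_zero])
    obtain ⟨b, hb, hb0⟩ := hp.exists_fixed_point_of_prime_dvd_card_of_fixed_point N hcard h0
    obtain ⟨t, ht⟩ := h.fixed hφ htr (x := b) fun u hu => congrArg Subtype.val (hb ⟨u, hu⟩)
    rcases igRkB_two t with rfl | rfl
    · rw [zero_smul] at ht
      exact (hb0 (Subtype.ext ht.symm)).elim
    · rw [one_smul] at ht
      exact ht ▸ b.2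
  rw [eq_top_iff]
  intro x _
  obtain ⟨c, rfl⟩ := h.span x
  exact N.sum_mem fun i _ => N.smul_mem _ (hw i)

/-- Sketch: `x *ᵥ w i = t i • w i` by `fixed`; the kernel of `x` is stable, so by `simple` either
`x = 0` or `x` is injective and all `t i • w i = w i`. -/
lemma WData.commutant (h : WData E w) {φ : Equiv.Perm ι →* Matrix ν ν (ZMod 2)}
    (hφ : ∀ u i, φ u *ᵥ w i = w (u i)) {G : Subgroup (Equiv.Perm ι)}
    (hG : ∀ i, ∃ U ≤ G, IsPGroup 2 U ∧ (∀ u ∈ U, u i = i) ∧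
      ∀ p q, p ≠ i → q ≠ i → ∃ u ∈ U, u p = q)
    {x : Matrix ν ν (ZMod 2)} (hx : ∀ u ∈ G, x * φ u = φ u * x) : x = 0 ∨ x = 1 := by
  have h1 : ∀ i, ∃ t : ZMod 2, x *ᵥ w i = t • w i := fun i => by
    obtain ⟨U, hUG, -, hfix, htr⟩ := hG i
    refine h.fixed hφ htr fun u hu => ?_
    rw [mulVec_mulVec, ← hx u (hUG hu), ← mulVec_mulVec, hφ, hfix u hu]
  have h2 := h.simple hφ hG (LinearMap.ker x.mulVecLin) fun u hu y hy => by
    rw [LinearMap.mem_ker, mulVecLin_apply] at hy ⊢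
    rw [mulVec_mulVec, hx u hu, ← mulVec_mulVec, hy, mulVec_zero]
  rcases h2 with h2 | h2
  · refine Or.inr (h.ext fun i => ?_)
    obtain ⟨t, ht⟩ := h1 i
    rw [one_mulVec]
    rcases igRkB_two t with rfl | rfl
    · rw [zero_smul] at ht
      have h3 : w i ∈ LinearMap.ker x.mulVecLin := by
        rw [LinearMap.mem_ker, mulVecLin_apply, ht]
      rw [h2, Submodule.mem_bot] at h3
      rw [ht, h3]
    · rw [ht, one_smul]
  · refine Or.inl (h.ext fun i => ?_)
    have h3 : w i ∈ LinearMap.ker x.mulVecLin := h2 ▸ Submodule.mem_top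
    rw [LinearMap.mem_ker, mulVecLin_apply] at h3
    rw [h3, zero_mulVec]

/-- Sketch: for a stable set `S` the vector `x = ∑ i ∈ S, w i` is fixed, so its span is stable;
`RigidM.simple`; the span is not everything since `w p ⬝ E w q = 1` and the form is alternating; so
`x = 0` and `lieB_left` shows that the indicator function of `S` is constant. -/
lemma WData.trans_of_simple {Γ : Type*} [Group Γ] {r : Γ →* Matrix ν ν ℤ_[2]} (h : WData E w)
    [Nontrivial ι] (hR : ∀ N : Submodule (ZMod 2) (ν → ZMod 2),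
      (∀ σ, ∀ x ∈ N, (r σ).map red *ᵥ x ∈ N) → N = ⊥ ∨ N = ⊤) (u : Γ → Equiv.Perm ι)
    (hu : ∀ σ i, (r σ).map red *ᵥ w i = w (u σ i)) (S : Finset ι)
    (hS : ∀ σ, ∀ j ∈ S, u σ j ∈ S) : S = ∅ ∨ S = Finset.univ := by
  have hfix : ∀ σ, (r σ).map red *ᵥ (∑ i ∈ S, w i) = ∑ i ∈ S, w i := fun σ => by
    rw [mulVec_sum]
    simp only [hu]
    have h1 : S.map (u σ).toEmbedding = S := by
      refine Finset.eq_of_subset_of_card_le (fun j hj => ?_) (by rw [Finset.card_map])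
      obtain ⟨i, hi, rfl⟩ := Finset.mem_map.1 hj
      exact hS σ i hi
    conv_rhs => rw [← h1, Finset.sum_map]
    rfl
  have h2 := hR (Submodule.span (ZMod 2) {∑ i ∈ S, w i}) fun σ y hy => by
    obtain ⟨a, rfl⟩ := Submodule.mem_span_singleton.1 hy
    rw [mulVec_smul, hfix]
    exact hy
  rcases h2 with h2 | h2
  · rw [Submodule.span_singleton_eq_bot] at h2
    have h3 : ∑ j, (if j ∈ S then (1 : ZMod 2) else 0) • w j = 0 := by
      rw [← h2]
      simp only [ite_smul, one_smul, zero_smul, Finset.sum_ite_mem, Finset.univ_inter]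
    have h4 : ∀ i, (if i ∈ S then (1 : ZMod 2) else 0) =
        ∑ j, if j ∈ S then (1 : ZMod 2) else 0 := fun i => by
      have h5 := h.lieB_left i fun j => if j ∈ S then (1 : ZMod 2) else 0
      rw [h3, mulVec_zero, dotProduct_zero] at h5
      exact (sub_eq_zero.1 h5.symm).symm
    rw [or_iff_not_imp_left]
    intro hne
    obtain ⟨i, hi⟩ := Finset.nonempty_iff_ne_empty.2 hne
    refine Finset.eq_univ_of_forall fun j => ?_
    by_contra hj
    have h6 := (h4 i).trans (h4 j).symm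
    rw [if_pos hi, if_neg hj] at h6
    exact one_ne_zero h6
  · exfalso
    obtain ⟨p, q, hpq⟩ := exists_pair_ne ι
    have hm : ∀ y, y ∈ Submodule.span (ZMod 2) {∑ i ∈ S, w i} := fun y => h2 ▸ Submodule.mem_top
    obtain ⟨a, ha⟩ := Submodule.mem_span_singleton.1 (hm (w p))
    obtain ⟨b, hb⟩ := Submodule.mem_span_singleton.1 (hm (w q))
    have h3 := h.pair p q
    rw [if_neg hpq, ← ha, ← hb, mulVec_smul, smul_dotProduct, dotProduct_smul, h.alt, smul_zero,
      smul_zero] at h3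
    exact zero_ne_one h3

end Pool.Agent.Lib.MP_33b3f9_ag
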