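import Pool.Agent.Lib.MP_33b3f9_ag.IgInf

/-!
Leading terms lift to integral tangent vectors.
-/

open Matrix Filter Topology

namespace Pool.Agent.Lib.MP_33b3f9_ag

noncomputable section

variable {ν : Type} [Fintype ν] [DecidableEq ν] {Γ : Type*} [Group Γ]
  {r : Γ →* Matrix ν ν ℤ_[2]} {E : Matrix ν ν ℤ_[2]} {χ : Γ →* ℤ_[2]ˣ} {H : Subgroup Γ}

omit [DecidableEq ν] in
lemma igSeq_alt (hE : Eᵀ = -E) (y : ν → ZMod 2) : y ⬝ᵥ E.map red *ᵥ y = 0 := by
  choose z hz using fun i => ZMod.ringHom_surjective red (y i)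
  obtain rfl : y = red ∘ z := funext fun i => (hz i).symm
  have h1 : z ⬝ᵥ E *ᵥ z = -(z ⬝ᵥ E *ᵥ z) := by
    conv_lhs => rw [dotProduct_mulVec, ← mulVec_transpose, hE, dotProduct_comm, neg_mulVec,
      dotProduct_neg]
  have h2 : z ⬝ᵥ E *ᵥ z = 0 := by
    have h3 : 2 * (z ⬝ᵥ E *ᵥ z) = 0 := by linear_combination h1
    exact (mul_eq_zero.1 h3).resolve_left two_ne_zero
  have h3 : E.map red *ᵥ (red ∘ z) = red ∘ (E *ᵥ z) :=
    funext fun i => (RingHom.map_mulVec red E z i).symm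
  rw [h3, ← RingHom.map_dotProduct, h2, map_zero]

/-- level at least two: for `n = 1` replace `Y` by `Y + Y * Y` (`Lev.one_sq`); `Y * Y` is again in
`sp` mod 2, and `x ⬝ E Y Y x = - (Y x) ⬝ E (Y x) = 0` because `E` is skew over `ℤ_2` -/
lemma IgData.ig_two (h : IgData r E χ H) {x : ν → ZMod 2} (hx : x ≠ 0) :
    ∃ (n : ℕ) (Y : Matrix ν ν (ZMod 2)), 2 ≤ n ∧ Lev r H n Y ∧
      Yᵀ * E.map red + E.map red * Y = 0 ∧ x ⬝ᵥ (E.map red * Y) *ᵥ x ≠ 0 := by
  obtain ⟨n, Y, hn, hL, hY, hx'⟩ := h.ig x hx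
  rcases hn.eq_or_lt with rfl | hn2
  · have h1 : Yᵀ * E.map red = -(E.map red * Y) := eq_neg_of_add_eq_zero_left hY
    have h2 : E.map red * (Y * Y) = -(Yᵀ * E.map red * Y) := by
      rw [h1, neg_mul, neg_neg, mul_assoc]
    have h3 : (Y * Y)ᵀ * E.map red = E.map red * (Y * Y) := by
      rw [transpose_mul, mul_assoc, h1, mul_neg, ← mul_assoc, h2]
    refine ⟨2, Y + Y * Y, le_rfl, hL.one_sq, ?_, ?_⟩
    · rw [transpose_add, add_mul, mul_add, add_add_add_comm, hY, h3, zero_add]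
      ext i j
      simp only [Matrix.add_apply, CharTwo.add_self_eq_zero, Matrix.zero_apply]
    · rw [mul_add, add_mulVec, dotProduct_add, h2, neg_mulVec, dotProduct_neg, mul_assoc,
        ← mulVec_mulVec _ Yᵀ, dotProduct_mulVec x Yᵀ, vecMul_transpose, ← mulVec_mulVec x _ Y,
        igSeq_alt h.skew, neg_zero, add_zero, mulVec_mulVec]
      exact hx'
  · exact ⟨n, Y, hn2, hL, hY, hx'⟩

/-- expand the multiplier relation; `E` has a unit entry since `E.map red ≠ 0` -/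
lemma igSeq_mult {X : Matrix ν ν ℤ_[2]} {n : ℕ} (hn : 1 ≤ n) {m : ℤ_[2]} (hE : E.map red ≠ 0)
    (hm : (1 + (2 : ℤ_[2]) ^ n • X)ᵀ * E * (1 + (2 : ℤ_[2]) ^ n • X) = m • E)
    (hX : (X.map red)ᵀ * E.map red + E.map red * X.map red = 0) :
    ∃ c : ℤ_[2], Xᵀ * E + E * X + (2 : ℤ_[2]) ^ n • (Xᵀ * E * X) = (2 * c) • E := by
  have h1 : (2 : ℤ_[2]) ^ n • (Xᵀ * E + E * X + (2 : ℤ_[2]) ^ n • (Xᵀ * E * X)) = (m - 1) • E := by
    rw [sub_smul, ← hm, one_smul]
    simp only [transpose_add, transpose_one, transpose_smul, add_mul, mul_add, one_mul, mul_one,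
      smul_add, smul_mul_assoc, mul_smul_comm]
    abel
  have h2 : (Xᵀ * E + E * X + (2 : ℤ_[2]) ^ n • (Xᵀ * E * X)).map red =
      (0 : Matrix ν ν ℤ_[2]).map red := by
    rw [lev_map_pow hn, lev_map_add, Matrix.map_mul, Matrix.map_mul, transpose_map, hX,
      Matrix.map_zero _ (map_zero red)]
  obtain ⟨W, hW⟩ := (map_red_eq_iff _ _).1 h2
  obtain ⟨i, j, hij⟩ : ∃ i j, red (E i j) ≠ 0 := by
    by_contra h3
    push Not at h3
    exact hE (by ext i j; exact h3 i j)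
  have hu : IsUnit (E i j) := by
    by_contra h3
    refine hij ?_
    rw [← RingHom.mem_ker, PadicInt.ker_toZMod]
    exact h3
  obtain ⟨v, hv⟩ := hu.exists_right_inv
  have h3 := congrFun (congrFun h1 i) j
  rw [hW] at h3
  simp only [zero_add, Matrix.smul_apply, smul_eq_mul] at h3
  have h4 : m - 1 = 2 ^ n * (2 * (W i j * v)) := by
    linear_combination (-(m - 1)) * hv - v * h3
  refine ⟨W i j * v, ?_⟩
  rw [h4, mul_smul] at h1
  exact smul_right_injective _ (pow_ne_zero n two_ne_zero) h1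

/-- Sketch: `exists_shift` and `Lev.mono` give `σ j ∈ H ⊓ U` of level `n + c + j` with leading term
`Y`, `igSeq_mult` gives `c j`; `Matrix ν ν ℤ_[2] × ℤ_[2]` is compact
(`IsCompact.tendsto_subseq` or `CompactSpace.tendsto_subseq`); for the limit `(X, c)` put
`Z = X - c • 1`; `X.map red = Y` because `red` is continuous (locally constant: `red x = red y` iff
`‖x - y‖ < 1`); `tng_of_limit`. -/
lemma IgData.exists_tng (h : IgData r E χ H) (U : Subgroup Γ) [U.FiniteIndex] {x : ν → ZMod 2}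
    (hx : x ≠ 0) : ∃ (Z : Matrix ν ν ℤ_[2]) (c : ℤ_[2]), Zᵀ * E + E * Z = 0 ∧
      Z.map (toΩ Qb) + toΩ Qb c • (1 : Matrix ν ν Qb) ∈ tng (imO r U) ∧
      x ⬝ᵥ (E * Z).map red *ᵥ x ≠ 0 := by
  obtain ⟨n, Y, hn, hL, hY, hx'⟩ := h.ig_two hx
  obtain ⟨k, hk⟩ := exists_shift (r := r) U
  have hE : E.map red ≠ 0 := fun e => hx' (by rw [e, zero_mul, zero_mulVec, dotProduct_zero])
  choose σ hσ X hX hXY using fun j : ℕ =>
    (hk H n hn Y hL).mono (by omega) (Nat.le_add_right (n + k) j)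
  choose c hc using fun j : ℕ => igSeq_mult (X := X j) (n := n + k + j) (by omega)
    (m := (χ (σ j) : ℤ_[2])) hE (by rw [← hX]; exact h.mult _ (Subgroup.mem_inf.1 (hσ j)).1)
    (by rw [hXY]; exact hY)
  choose W hW using fun j : ℕ => (map_red_eq_iff (X j) (X 0)).1 ((hXY j).trans (hXY 0).symm)
  have : CompactSpace (Matrix ν ν ℤ_[2]) := inferInstanceAs (CompactSpace (ν → ν → ℤ_[2]))
  have : FirstCountableTopology (Matrix ν ν ℤ_[2]) :=
    inferInstanceAs (FirstCountableTopology (ν → ν → ℤ_[2]))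
  obtain ⟨⟨W', c'⟩, s, hs, hl⟩ := CompactSpace.tendsto_subseq fun j => (W j, c j)
  have hW' : Tendsto (fun j => W (s j)) atTop (𝓝 W') := hl.fst_nhds
  have hc' : Tendsto (fun j => c (s j)) atTop (𝓝 c') := hl.snd_nhds
  have hX' : Tendsto (fun j => X (s j)) atTop (𝓝 (X 0 + (2 : ℤ_[2]) • W')) :=
    ((hW'.const_smul (2 : ℤ_[2])).const_add (X 0)).congr fun j => (hW (s j)).symm
  have hr : (X 0 + (2 : ℤ_[2]) • W').map red = Y :=
    ((map_red_eq_iff _ _).2 ⟨W', rfl⟩).trans (hXY 0)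
  generalize X 0 + (2 : ℤ_[2]) • W' = X' at hX' hr
  have hn' : Tendsto (fun j => n + k + s j) atTop atTop :=
    (tendsto_add_atTop_nat (n + k)).comp hs.tendsto_atTop |>.congr fun j => add_comm _ _
  have h2 : Tendsto (fun j => (2 : ℤ_[2]) ^ (n + k + s j)) atTop (𝓝 0) := by
    refine (tendsto_pow_atTop_nhds_zero_of_norm_lt_one ?_).comp hn'
    have h3 := PadicInt.norm_p (p := 2)
    rw [Nat.cast_ofNat] at h3
    rw [h3]
    norm_num
  have h3 : X'ᵀ * E + E * X' = (2 * c') • E := by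
    have h4 : Continuous fun q : Matrix ν ν ℤ_[2] × ℤ_[2] =>
        q.1ᵀ * E + E * q.1 + q.2 • (q.1ᵀ * E * q.1) := by fun_prop
    have h5 := (h4.tendsto (X', 0)).comp (hX'.prodMk_nhds h2)
    simp only [zero_smul, add_zero] at h5
    exact tendsto_nhds_unique h5
      (((hc'.const_mul 2).smul_const E).congr fun j => (hc (s j)).symm)
  refine ⟨X' - c' • 1, c', ?_, ?_, ?_⟩
  · rw [transpose_sub, transpose_smul, transpose_one, sub_mul, mul_sub, smul_mul_assoc,
      mul_smul_comm, one_mul, mul_one, sub_add_sub_comm, h3, two_mul, add_smul, sub_self]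
  · have h4 : (X' - c' • (1 : Matrix ν ν ℤ_[2])).map (toΩ Qb) + toΩ Qb c' • (1 : Matrix ν ν Qb) =
        X'.map (toΩ Qb) := by
      ext i j
      by_cases hij : i = j <;> simp [hij]
    rw [h4]
    refine tng_of_limit _ _ _ hn' hX' fun j => ?_
    exact mem_imO.2 ⟨σ (s j), (Subgroup.mem_inf.1 (hσ _)).2, by rw [repO_apply, hX]⟩
  · have h4 : (E * (X' - c' • (1 : Matrix ν ν ℤ_[2]))).map red =
        E.map red * Y - red c' • E.map red := by
      rw [mul_sub, mul_smul_comm, mul_one, lev_map_sub, Matrix.map_mul, hr]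
      congr 1
      ext i j
      simp
    rw [h4, sub_mulVec, dotProduct_sub, smul_mulVec, dotProduct_smul, igSeq_alt h.skew, smul_zero,
      sub_zero]
    exact hx'

end

end Pool.Agent.Lib.MP_33b3f9_ag
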