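import Pool.Agent.Lib.MP_33b3f9_ag.IgTwo
import Pool.Agent.Lib.MP_33b3f9_ag.IgHStmt

/-!
Two sufficient conditions for `SimpleGal`.
-/

open Matrix

namespace Pool.Agent.Lib.MP_33b3f9_ag

variable {k₀ : Type*} [Field k₀] {k : Type*} [Field k] [Algebra k₀ k]

variable (k₀) in
/-- the permutations of the roots induced by the Galois group -/
def indG {ι : Type} (a : ι → k) : Subgroup (Equiv.Perm ι) where
  carrier := {u | Ind k₀ a u}
  one_mem' := ⟨1, fun _ => rfl⟩
  mul_mem' := by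
    rintro u v ⟨σ, hσ⟩ ⟨τ, hτ⟩
    exact ⟨σ * τ, fun i => by rw [AlgEquiv.mul_apply, hτ, hσ]; rfl⟩
  inv_mem' := by
    rintro u ⟨σ, hσ⟩
    exact ⟨σ.symm, fun i => by rw [AlgEquiv.symm_apply_eq, hσ]; simp⟩

lemma exists_wData (g : ℕ) : ∃ (E : Matrix (Fin (2 * g)) (Fin (2 * g)) (ZMod 2))
    (w : Fin (2 * g + 1) → Fin (2 * g) → ZMod 2), WData E w := by
  have h2 : ((2 * g : ℕ) : ZMod 2) = 0 := by
    rw [Nat.cast_mul, ZMod.natCast_self, zero_mul]
  have h3 : ∀ i : Fin (2 * g), ∑ j : Fin (2 * g), (if i = j then (0 : ZMod 2) else 1) = 1 := by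
    intro i
    have : ∀ j : Fin (2 * g), (if i = j then (0 : ZMod 2) else 1) =
        1 + if i = j then 1 else 0 := fun j => by split_ifs <;> decide
    simp only [this, Finset.sum_add_distrib, Finset.sum_const, Finset.card_univ, Fintype.card_fin,
      nsmul_eq_mul, h2, Finset.sum_ite_eq, Finset.mem_univ, if_true, zero_mul, zero_add]
  have h4 : ∀ j : Fin (2 * g), ∑ i : Fin (2 * g), (if i = j then (0 : ZMod 2) else 1) = 1 := by
    intro j
    simpa only [eq_comm] using h3 j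
  refine ⟨Matrix.of fun i j => if i = j then 0 else 1,
    Fin.lastCases (fun _ => 1) fun i => Pi.single i 1, fun i j => ?_, fun x => ?_, ?_, by simp⟩
  · induction i using Fin.lastCases <;> induction j using Fin.lastCases
    · simp [mulVec, dotProduct, h3, h2]
    · simp [h4, dotProduct, (Fin.castSucc_ne_last _).symm]
    · simp [mulVec, dotProduct, h3, Fin.castSucc_ne_last, Pi.single_apply]
    · simp
  · refine ⟨Fin.lastCases 0 x, ?_⟩
    ext a
    simp [Fin.sum_univ_castSucc, Pi.single_apply]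
  · ext a
    simp [Fin.sum_univ_castSucc, Pi.single_apply, CharTwo.add_self_eq_zero]

lemma simpleGal_of {g : ℕ} {a : Fin (2 * g + 1) → k}
    (h : ∀ (E : Matrix (Fin (2 * g)) (Fin (2 * g)) (ZMod 2))
      (w : Fin (2 * g + 1) → Fin (2 * g) → ZMod 2), WData E w →
      ∀ φ : Equiv.Perm (Fin (2 * g + 1)) →* Matrix (Fin (2 * g)) (Fin (2 * g)) (ZMod 2),
        (∀ u i, φ u *ᵥ w i = w (u i)) → ∀ N : Submodule (ZMod 2) (Fin (2 * g) → ZMod 2),
          (∀ u ∈ indG k₀ a, ∀ x ∈ N, φ u *ᵥ x ∈ N) → N = ⊥ ∨ N = ⊤) : SimpleGal k₀ a := by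
  intro N h1 h2 h0 c hc
  obtain ⟨E, w, hw⟩ := exists_wData g
  obtain ⟨φ, hφ⟩ := hw.exists_permM
  have hinj : ∀ d : Fin (2 * g + 1) → ZMod 2, ∑ i, d i = 0 → ∑ i, d i • w i = 0 → d = 0 := by
    intro d hd hd'
    ext i
    have := hw.lieB_left i d
    rw [hd', hd, mulVec_zero, dotProduct_zero, zero_sub, zero_eq_neg] at this
    exact this
  rcases h E w hw φ hφ (N.map (Fintype.linearCombination (ZMod 2) w)) (by
    rintro u hu _ ⟨d, hd, rfl⟩
    refine ⟨d ∘ ⇑u⁻¹, h2 _ ((indG k₀ a).inv_mem hu) d hd, ?_⟩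
    simp only [Fintype.linearCombination_apply, mulVec_sum, mulVec_smul, hφ]
    rw [← Equiv.sum_comp u]
    simp) with h3 | h3
  · obtain ⟨d, hd, hd0⟩ := Submodule.exists_mem_ne_zero_of_ne_bot h0
    exact (hd0 (hinj d (h1 d hd) ((Submodule.eq_bot_iff _).1 h3 _ ⟨d, hd, rfl⟩))).elim
  · obtain ⟨d, hd, hd'⟩ := h3.ge (Submodule.mem_top (x := Fintype.linearCombination (ZMod 2) w c))
    have h4 : d - c = 0 := hinj _ (by simp [Finset.sum_sub_distrib, h1 d hd, hc]) (by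
      rw [← Fintype.linearCombination_apply, map_sub, hd', sub_self])
    exact sub_eq_zero.1 h4 ▸ hd

/-- each root is fixed by a 2-subgroup of the Galois group that is transitive on the other roots
(as for `SL_2(q)`, `Sz(q)`, `U_3(q)` with `q` a power of 2) -/
theorem simpleGal_of_syl {g : ℕ} {a : Fin (2 * g + 1) → k}
    (h : ∀ i, ∃ U : Subgroup (Equiv.Perm (Fin (2 * g + 1))), IsPGroup 2 U ∧
      (∀ u ∈ U, Ind k₀ a u ∧ u i = i) ∧ ∀ p q, p ≠ i → q ≠ i → ∃ u ∈ U, u p = q) :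
    SimpleGal k₀ a :=
  simpleGal_of fun _ _ hw _ hφ => hw.simple hφ fun i => by
    obtain ⟨U, h1, h2, h3⟩ := h i
    exact ⟨U, fun v hv => (h2 v hv).1, h1, fun v hv => (h2 v hv).2, h3⟩

/-- the degree is a prime `p`, 2 is a primitive root mod `p`, the Galois group is transitive -/
theorem simpleGal_of_prime {g : ℕ} {a : Fin (2 * g + 1) → k} (h1 : (2 * g + 1).Prime)
    (h2 : orderOf (2 : ZMod (2 * g + 1)) = 2 * g) (h3 : ∀ i j, ∃ u, Ind k₀ a u ∧ u i = j) :
    SimpleGal k₀ a :=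
  simpleGal_of fun _ _ hw _ hφ => hw.simple_of_prime hφ h3 (by simpa using h1) (by
    rw [Fintype.card_fin, Fintype.card_fin]
    exact h2)

end Pool.Agent.Lib.MP_33b3f9_ag
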