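import Pool.Agent.Lib.MP_33b3f9_ag.IgMul

/-!
The tangent space at the identity of the closure of a monoid of matrices.
-/

open Matrix

namespace Pool.Agent.Lib.MP_33b3f9_ag

noncomputable section

variable {ν : Type} [Fintype ν] [DecidableEq ν] {Ω : Type*} [Field Ω]

/-- the matrix `1 + ε Y` over the dual numbers -/
def dualM (Y : Matrix ν ν Ω) : Matrix ν ν (DualNumber Ω) :=
  1 + (DualNumber.eps : DualNumber Ω) • Y.map (algebraMap Ω (DualNumber Ω))

omit [Fintype ν] in
lemma dualM_zero : dualM (0 : Matrix ν ν Ω) = (1 : Matrix ν ν Ω).map (algebraMap Ω _) := by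
  rw [dualM, Matrix.map_zero _ (map_zero _), smul_zero, add_zero,
    Matrix.map_one _ (map_zero _) (map_one _)]

lemma dualM_add (Y Z : Matrix ν ν Ω) : dualM (Y + Z) = dualM Y * dualM Z := by
  rw [dualM, dualM, dualM, Matrix.map_add _ (map_add _), smul_add, add_mul, mul_add, mul_add,
    one_mul, one_mul, mul_one, smul_mul_smul_comm, DualNumber.eps_mul_eps, zero_smul, add_zero]
  abel

omit [Fintype ν] in
/-- the image of `1 + ε Y` under an algebra map -/
lemma dualM_map {R : Type*} [CommRing R] [Algebra Ω R] (φ : DualNumber Ω →ₐ[Ω] R)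
    (Y : Matrix ν ν Ω) :
    (dualM Y).map φ = 1 + φ DualNumber.eps • Y.map (algebraMap Ω R) := by
  ext i j
  by_cases h : i = j <;> simp [dualM, h]

/-- for every square zero element `e` of `R` there is an algebra map that sends `ε` to `e`
(`DualNumber.lift`) -/
lemma exists_dual_hom {R : Type*} [CommRing R] [Algebra Ω R] (e : R) (he : e * e = 0) :
    ∃ φ : DualNumber Ω →ₐ[Ω] R, φ DualNumber.eps = e := by
  exact ⟨DualNumber.lift ⟨(Algebra.ofId Ω R, e), he, fun _ => Commute.all _ _⟩,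
    DualNumber.lift_apply_eps _⟩

omit [Fintype ν] in
lemma dualM_smul {T : Set (Matrix ν ν Ω)} (c : Ω) {Y : Matrix ν ν Ω}
    (h : dualM Y ∈ ptsR T (DualNumber Ω)) : dualM (c • Y) ∈ ptsR T (DualNumber Ω) := by
  obtain ⟨φ, hφ⟩ := exists_dual_hom (Ω := Ω) (c • (DualNumber.eps : DualNumber Ω))
    (by rw [smul_mul_smul_comm, DualNumber.eps_mul_eps, smul_zero])
  have h1 := ptsR_map φ h
  rw [dualM_map, hφ] at h1
  convert h1 using 1
  rw [dualM]
  congr 1
  ext1 i j
  simp only [Matrix.smul_apply, Matrix.map_apply, smul_eq_mul, map_mul, Algebra.smul_def]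
  ring

/-- the tangent space at `1` -/
def tng (T : Submonoid (Matrix ν ν Ω)) : Submodule Ω (Matrix ν ν Ω) where
  carrier := {Y | dualM Y ∈ ptsR (T : Set (Matrix ν ν Ω)) (DualNumber Ω)}
  zero_mem' := by
    rw [Set.mem_ofPred_eq, dualM_zero]
    exact ptsR_of_mem T.one_mem
  add_mem' := fun {Y Z} hY hZ => by
    rw [Set.mem_ofPred_eq, dualM_add]
    exact ptsR_mul (fun _ h _ h' => T.mul_mem h h') hY hZ
  smul_mem' := fun c _ h => dualM_smul c h

lemma mem_tng {T : Submonoid (Matrix ν ν Ω)} {Y : Matrix ν ν Ω} :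
    Y ∈ tng T ↔ dualM Y ∈ ptsR (T : Set (Matrix ν ν Ω)) (DualNumber Ω) := Iff.rfl

lemma tng_mono {T T' : Submonoid (Matrix ν ν Ω)} (h : T ≤ T') : tng T ≤ tng T' :=
  fun _ hY => ptsR_mono h hY

lemma tng_conj {T T' : Submonoid (Matrix ν ν Ω)} {a b : Matrix ν ν Ω} (hab : a * b = 1)
    (h : ∀ t ∈ T, a * t * b ∈ T') {Y : Matrix ν ν Ω} (hY : Y ∈ tng T) : a * Y * b ∈ tng T' := by
  have h1 := ptsR_two (T' := (T' : Set (Matrix ν ν Ω))) a b h (mem_tng.1 hY)
  rw [mem_tng]
  convert h1 using 1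
  rw [dualM, dualM, mul_add, add_mul, mul_one, ← Matrix.map_mul, hab,
    Matrix.map_one _ (map_zero _) (map_one _), Matrix.map_mul, Matrix.map_mul, mul_smul_comm,
    smul_mul_assoc]

/-- tangent vectors give points over any algebra -/
lemma tng_pts {T : Submonoid (Matrix ν ν Ω)} {Y : Matrix ν ν Ω} (hY : Y ∈ tng T) {R : Type*}
    [CommRing R] [Algebra Ω R] (e : R) (he : e * e = 0) :
    1 + e • Y.map (algebraMap Ω R) ∈ ptsR (T : Set (Matrix ν ν Ω)) R := by
  obtain ⟨φ, rfl⟩ := exists_dual_hom (Ω := Ω) e he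
  rw [← dualM_map]
  exact ptsR_map φ hY

end

end Pool.Agent.Lib.MP_33b3f9_ag
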