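import Pool.Agent.Lib.MP_33b3f9_ag.IgRkB

/-!
Doubly transitive groups and groups of prime degree.
-/

open Matrix

namespace Pool.Agent.Lib.MP_33b3f9_ag

variable {ν ι : Type} [Fintype ν] [DecidableEq ν] [Fintype ι] [DecidableEq ι]
  {E : Matrix ν ν (ZMod 2)} {w : ι → ν → ZMod 2}

/-- Sketch: `WData.fixed` for the stabilizer of `i` in `G` gives `x *ᵥ w i = t i • w i`; apply `x` to
`∑ i, w i = 0` and use `lieB_left` to see that `t` is constant; `WData.ext`. -/
lemma WData.commutant_two (h : WData E w) {φ : Equiv.Perm ι →* Matrix ν ν (ZMod 2)}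
    (hφ : ∀ u i, φ u *ᵥ w i = w (u i)) {G : Subgroup (Equiv.Perm ι)}
    (hG : ∀ i p q, p ≠ i → q ≠ i → ∃ u ∈ G, u i = i ∧ u p = q)
    {x : Matrix ν ν (ZMod 2)} (hx : ∀ u ∈ G, x * φ u = φ u * x) : x = 0 ∨ x = 1 := by
  have h1 : ∀ i, ∃ t : ZMod 2, x *ᵥ w i = t • w i := fun i => by
    refine h.fixed hφ (U := G ⊓ MulAction.stabilizer (Equiv.Perm ι) i) (i := i)
      (fun p q hp hq => ?_) fun u hu => ?_
    · obtain ⟨u, hu, hui, hup⟩ := hG i p q hp hq
      exact ⟨u, Subgroup.mem_inf.2 ⟨hu, hui⟩, hup⟩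
    · have hui : u i = i := (Subgroup.mem_inf.1 hu).2
      rw [mulVec_mulVec, ← hx u (Subgroup.mem_inf.1 hu).1, ← mulVec_mulVec, hφ, hui]
  choose t ht using h1
  have h2 : ∑ j, t j • w j = 0 := by
    simp only [← ht]
    rw [← mulVec_sum, h.sum, mulVec_zero]
  have h3 : ∀ p, t p = ∑ j, t j := fun p => by
    have h4 := h.lieB_left p t
    rw [h2, mulVec_zero, dotProduct_zero] at h4
    exact (sub_eq_zero.1 h4.symm).symm
  rcases igRkB_two (∑ j, t j) with h5 | h5
  · refine Or.inl (h.ext fun i => ?_)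
    rw [ht, h3, h5, zero_smul, zero_mulVec]
  · refine Or.inr (h.ext fun i => ?_)
    rw [ht, h3, h5, one_smul, one_mulVec]

/-- Sketch: `p = card ι` divides the order of the transitive group `G` (orbit-stabilizer), so `G` has
an element `c` of order `p` (Cauchy), a cycle with full support
(`Equiv.Perm.isCycle_of_prime_order''`). A vector fixed by `φ c` has `w i ⬝ E x` constant in `i`,
and the sum vanishes, so it is zero. The `p`-group `zpowers c` acts on `N` with one fixed point: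
`2 ^ finrank N = card N ≡ 1 mod p` (`IsPGroup.card_modEq_card_fixedPoints`), so
`card ν = p - 1` divides `finrank N ≤ card ν`. -/
lemma WData.simple_of_prime (h : WData E w) {φ : Equiv.Perm ι →* Matrix ν ν (ZMod 2)}
    (hφ : ∀ u i, φ u *ᵥ w i = w (u i)) {G : Subgroup (Equiv.Perm ι)}
    (hG : ∀ i j, ∃ u ∈ G, u i = j) (hp : (Fintype.card ι).Prime)
    (ho : orderOf (2 : ZMod (Fintype.card ι)) = Fintype.card ν)
    (N : Submodule (ZMod 2) (ν → ZMod 2)) (hN : ∀ u ∈ G, ∀ x ∈ N, φ u *ᵥ x ∈ N) :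
    N = ⊥ ∨ N = ⊤ := by
  have _ : Fact (Fintype.card ι).Prime := ⟨hp⟩
  obtain ⟨i⟩ : Nonempty ι := Fintype.card_pos_iff.1 hp.pos
  have _ : MulAction.IsPretransitive G ι := ⟨fun a b => by
    obtain ⟨u, hu, hab⟩ := hG a b
    exact ⟨⟨u, hu⟩, hab⟩⟩
  have hdvd : Fintype.card ι ∣ Nat.card G := by
    rw [← Nat.card_eq_fintype_card, ← MulAction.index_stabilizer_of_transitive G i]
    exact Subgroup.index_dvd_card _
  obtain ⟨c, hc⟩ := exists_prime_orderOf_dvd_card' (G := G) _ hdvd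
  have hc1 : orderOf (c : Equiv.Perm ι) = Fintype.card ι := by
    rw [Subgroup.orderOf_coe, hc]
  have hcyc := Equiv.Perm.isCycle_of_prime_order'' hp hc1
  have hsup : ∀ a, (c : Equiv.Perm ι) a ≠ a := fun a => by
    have h1 : (c : Equiv.Perm ι).support = Finset.univ :=
      Finset.eq_univ_of_card _ (by rw [← hcyc.orderOf, hc1])
    exact Equiv.Perm.mem_support.1 (h1 ▸ Finset.mem_univ a)
  have hUG : Subgroup.zpowers (c : Equiv.Perm ι) ≤ G := (Subgroup.zpowers_le).2 c.2
  have hP : IsPGroup (Fintype.card ι) (Subgroup.zpowers (c : Equiv.Perm ι)) :=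
    IsPGroup.of_card (n := 1) (by rw [Nat.card_zpowers, hc1, pow_one])
  let _ : MulAction (Subgroup.zpowers (c : Equiv.Perm ι)) N :=
    { smul := fun u x => ⟨φ u *ᵥ x, hN u (hUG u.2) x x.2⟩
      one_smul := fun x => Subtype.ext (by
        show φ 1 *ᵥ (x : ν → ZMod 2) = x
        rw [map_one, one_mulVec])
      mul_smul := fun u v x => Subtype.ext (by
        show φ (u * v) *ᵥ (x : ν → ZMod 2) = φ u *ᵥ φ v *ᵥ (x : ν → ZMod 2)
        rw [map_mul, mulVec_mulVec]) }
  have hfix : MulAction.fixedPoints (Subgroup.zpowers (c : Equiv.Perm ι)) N = {0} := by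
    ext b
    rw [Set.mem_singleton_iff]
    refine ⟨fun hb => ?_, ?_⟩
    · have hb' : ∀ u ∈ Subgroup.zpowers (c : Equiv.Perm ι), φ u *ᵥ (b : ν → ZMod 2) = b :=
        fun u hu => congrArg Subtype.val (hb ⟨u, hu⟩)
      obtain ⟨t, ht⟩ := h.fixed hφ (U := Subgroup.zpowers (c : Equiv.Perm ι)) (i := i)
        (fun p q _ _ => by
          obtain ⟨n, hn⟩ := hcyc.exists_zpow_eq (hsup p) (hsup q)
          exact ⟨_, Subgroup.zpow_mem_zpowers _ n, hn⟩) hb'
      rcases igRkB_two t with rfl | rfl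
      · rw [zero_smul] at ht
        exact Subtype.ext ht
      · exfalso
        have h1 := hb' _ (Subgroup.mem_zpowers _)
        rw [ht, one_smul, hφ] at h1
        have h2 := h.pair ((c : Equiv.Perm ι) i) i
        rw [if_neg (hsup i), h1, h.alt] at h2
        exact zero_ne_one h2
    · rintro rfl u
      refine Subtype.ext ?_
      show φ u *ᵥ (0 : ν → ZMod 2) = 0
      rw [mulVec_zero]
  have hmod := hP.card_modEq_card_fixedPoints N
  rw [hfix, Module.natCard_eq_pow_finrank (K := ZMod 2), Nat.card_zmod, Nat.card_unique] at hmod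
  have h3 : (2 : ZMod (Fintype.card ι)) ^ Module.finrank (ZMod 2) N = 1 := by
    have h4 := (ZMod.natCast_eq_natCast_iff _ _ _).2 hmod
    rwa [Nat.cast_pow, Nat.cast_one, Nat.cast_ofNat] at h4
  have h5 : Fintype.card ν ∣ Module.finrank (ZMod 2) N := ho ▸ orderOf_dvd_of_pow_eq_one h3
  rw [or_iff_not_imp_left]
  intro hne
  have h6 : Module.finrank (ZMod 2) N ≠ 0 := fun h0 => hne (Submodule.finrank_eq_zero.1 h0)
  refine Submodule.eq_top_of_finrank_eq (le_antisymm (Submodule.finrank_le N) ?_)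
  rw [Module.finrank_fintype_fun_eq_card]
  exact Nat.le_of_dvd (Nat.pos_of_ne_zero h6) h5

/-- every vector is an even combination of the `w i` (add the all ones vector if necessary) -/
lemma WData.span_even (h : WData E w) (x : ν → ZMod 2) :
    ∃ c : ι → ZMod 2, ∑ i, c i = 0 ∧ x = ∑ i, c i • w i := by
  obtain ⟨c, hc⟩ := h.span x
  refine ⟨fun i => c i + ∑ j, c j, ?_, ?_⟩
  · rw [Finset.sum_add_distrib, Finset.sum_const, Finset.card_univ, nsmul_eq_mul,
      (ZMod.natCast_eq_one_iff_odd).2 h.odd, one_mul, CharTwo.add_self_eq_zero]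
  · simp only [add_smul, Finset.sum_add_distrib]
    rw [← Finset.smul_sum, h.sum, smul_zero, add_zero, hc]

end Pool.Agent.Lib.MP_33b3f9_ag
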