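import Pool.Agent.Lib.MP_33b3f9_ag.IgOrth

/-!
Twice a weight is a root, and weights have multiplicity one.
-/

open LieModule LieAlgebra

namespace Pool.Agent.Lib.MP_33b3f9_ag

variable {K L V : Type*} [Field K] [LieRing L] [LieAlgebra K L]
  [AddCommGroup V] [Module K V] [LieRingModule L V] [LieModule K L V]
  {B : LinearMap.BilinForm K V}
  [CharZero K] [IsAlgClosed K] [FiniteDimensional K L] [FiniteDimensional K V]
  [IsKilling K L] (H : LieSubalgebra K L) [H.IsCartanSubalgebra]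

omit [IsAlgClosed K] [FiniteDimensional K L] [IsKilling K L] in
/-- a nonzero weight space contains a true eigenvector -/
lemma igWt_eig {χ : H → K} (hχ : genWeightSpace V χ ≠ ⊥) :
    ∃ v ∈ genWeightSpace V χ, v ≠ 0 ∧ ∀ x : H, ⁅(x : L), v⁆ = χ x • v := by
  obtain ⟨v, hv0, hv⟩ := exists_forall_lie_eq_smul K H V (⟨χ, hχ⟩ : Weight K H V)
  refine ⟨v, ?_, hv0, fun x => hv x⟩
  exact weightSpace_le_genWeightSpace V χ ((mem_weightSpace χ v).mpr hv)

/-- Sketch: the linear form `y ↦ B ⁅y, v⁆ v` is nonzero and `L` is the sum of the root spaces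
(`LieModule.iSup_genWeightSpace_eq_top K H L`), so it is nonzero at some `y ∈ rootSpace H α`; then
`⁅y, v⁆` has weight `α + χ` (`LieAlgebra.mapsTo_toEnd_genWeightSpace_add_of_mem_rootSpace`) and
`NZData.orth` gives `α + χ + χ = 0`. -/
lemma NZData.exists_root_vec (h : NZData L B) {χ : H → K} {v : V} (hv : v ∈ genWeightSpace V χ)
    (hv0 : v ≠ 0) : ∃ y ∈ rootSpace H (-(χ + χ)), B ⁅y, v⁆ v ≠ 0 := by
  by_contra hcon
  push Not at hcon
  obtain ⟨y, hy⟩ := h.nz v hv0
  apply hy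
  have hmem : y ∈ ⨆ α : H → K, rootSpace H α := by
    rw [iSup_genWeightSpace_eq_top K H L]
    exact LieSubmodule.mem_top y
  clear hy
  induction hmem using LieSubmodule.iSup_induction' with
  | zero => simp
  | add a b _ _ ha hb => rw [add_lie, map_add, LinearMap.add_apply, ha, hb, add_zero]
  | mem α u hu =>
    by_cases hα : α = -(χ + χ)
    · subst hα
      exact hcon u hu
    · refine h.orth H (χ := α + χ) (ψ := χ) ?_
        (lie_mem_genWeightSpace_of_mem_genWeightSpace hu hv) hv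
      intro h0
      apply hα
      rw [add_assoc] at h0
      exact eq_neg_of_add_eq_zero_left h0

/-- Sketch: apply the previous lemma to a true eigenvector (`LieModule.exists_forall_lie_eq_smul`);
`rootSpace H 0 = H` (`LieAlgebra.rootSpace_zero_eq`). -/
lemma NZData.zero_not_weight (h : NZData L B) : genWeightSpace V (0 : H → K) = ⊥ := by
  by_contra hne
  obtain ⟨v, hv, hv0, hvx⟩ := igWt_eig H hne
  obtain ⟨y, hy, hy0⟩ := h.exists_root_vec H hv hv0
  rw [add_zero, neg_zero, rootSpace_zero_eq] at hy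
  have h1 := hvx ⟨y, hy⟩
  simp only [Pi.zero_apply, zero_smul] at h1
  apply hy0
  rw [h1]
  simp

/-- Sketch: `-(χ + χ)` is a nonzero root, its root space is a line
(`IsKilling.finrank_rootSpace_eq_one`) spanned by `f`. -/
theorem NZData.exists_root (h : NZData L B) {χ : H → K} (hχ : genWeightSpace V χ ≠ ⊥) :
    ∃ α : Weight K H L, α.IsNonZero ∧ (α : H → K) = -(χ + χ) ∧ ∃ f ∈ rootSpace H α,
      ∀ v ∈ genWeightSpace V χ, v ≠ 0 → B ⁅f, v⁆ v ≠ 0 := by
  have hχ0 : χ ≠ 0 := by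
    rintro rfl
    exact hχ (h.zero_not_weight H)
  obtain ⟨v₀, hv₀, hv₀0, -⟩ := igWt_eig H hχ
  obtain ⟨f, hf, hf0⟩ := h.exists_root_vec H hv₀ hv₀0
  have hfne : f ≠ 0 := by
    rintro rfl
    simp at hf0
  have hbot : genWeightSpace L (-(χ + χ)) ≠ ⊥ := by
    intro hb
    have hf' : f ∈ genWeightSpace L (-(χ + χ)) := hf
    rw [hb] at hf'
    exact hfne (by simpa using hf')
  let α : Weight K H L := ⟨-(χ + χ), hbot⟩
  have hα : α.IsNonZero := by
    intro hz
    apply hχ0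
    have h2 : -(χ + χ) = 0 := hz
    funext x
    have h3 := congrFun h2 x
    simp only [Pi.neg_apply, Pi.add_apply, Pi.zero_apply, neg_eq_zero] at h3
    exact add_self_eq_zero.mp h3
  refine ⟨α, hα, rfl, f, hf, fun v hv hv0 => ?_⟩
  obtain ⟨y, hy, hy0⟩ := h.exists_root_vec H hv hv0
  obtain ⟨c, hc⟩ := (finrank_eq_one_iff_of_nonzero' (⟨f, hf⟩ : rootSpace H α)
    (by rwa [ne_eq, LieSubmodule.mk_eq_zero])).mp (IsKilling.finrank_rootSpace_eq_one α hα) ⟨y, hy⟩
  have hc' : y = c • f := by simpa using (congrArg Subtype.val hc).symm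
  intro h0
  apply hy0
  rw [hc', smul_lie, map_smul, LinearMap.smul_apply, h0, smul_zero]

/-- Sketch: `ig_line` for `Φ v w = B ⁅f, v⁆ w` and a true eigenvector. -/
theorem NZData.exists_gen (h : NZData L B) {χ : H → K} (hχ : genWeightSpace V χ ≠ ⊥) :
    ∃ v ∈ genWeightSpace V χ, v ≠ 0 ∧ (∀ x : H, ⁅(x : L), v⁆ = χ x • v) ∧
      ∀ w ∈ genWeightSpace V χ, ∃ c : K, w = c • v := by
  obtain ⟨α, -, -, f, -, hf⟩ := h.exists_root H hχ
  obtain ⟨v, hv, hv0, hvx⟩ := igWt_eig H hχ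
  refine ⟨v, hv, hv0, hvx, fun w hw => ?_⟩
  exact ig_line (B.comp (toEnd K L V f) LinearMap.id) (genWeightSpace V χ).toSubmodule
    (fun u hu hu0 => by simpa using hf u hu hu0) hv hv0 hw

end Pool.Agent.Lib.MP_33b3f9_ag
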