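import Pool.Agent.Lib.MP_33b3f9_ag.IgAV

/-!
The Mumford-Tate conjecture (at the prime 2) for abelian varieties that satisfy the Igusa
condition.
-/

open CategoryTheory AlgebraicGeometry Pool.Agent.Lib.MP_33b3f9_ag

namespace Pool.Agent.Lib.MP_33b3f9_ag.IgusaCriterionOld

universe u

theorem result {k₁ k : Type u} [Field k₁] [CharZero k₁] (hfg : (⊤ : IntermediateField ℚ k₁).FG)
    [Field k] [Algebra k₁ k] [IsAlgClosure k₁ k] (A : Over (Spec (CommRingCat.of k₁)))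
    [GrpObj A] [IsCommMonObj A] [IsProper A.hom] [GeometricallyIntegral A.hom]
    {ν : Type} [Fintype ν] [DecidableEq ν] [Nonempty ν] (π : (ν → ℚ_[2]) →+ Pts k A)
    (r : (k ≃ₐ[k₁] k) → GL ν ℤ_[2]) (hT : Tate (galPt A) π fun σ => toQ (r σ))
    (E : Matrix ν ν ℤ_[2]) (hE : E.transpose = -E)
    (hW : ∀ σ, (r σ : Matrix ν ν ℤ_[2]).transpose * E * r σ = (cyclo σ : ℤ_[2]) • E)
    (hI : Igusa r cyclo E) :
    LefMT (E.map ((↑) : ℤ_[2] → ℚ_[2])) (fun σ => toQ (r σ)) (Rigid r ∨ Big r) :=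
  igusa_main hfg (galPt A) (galPt_one A) (galPt_zero A) (galPt_mul A) π r hT E hE hW hI

end Pool.Agent.Lib.MP_33b3f9_ag.IgusaCriterionOld
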