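import Pool.Agent.Lib.MP_33b3f9_ag.IgHMain
import Pool.Agent.Lib.MP_33b3f9_ag.IgSimple

/-!
The Mumford-Tate conjecture (at the prime 2) for the Jacobian of `y^2 = f(x)` when enough products
of the values `f'(a_i)` are not squares up to sign in the splitting field.
-/

open Polynomial Pool.Agent.Lib.MP_33b3f9_ag

namespace Pool.Agent.Lib.MP_33b3f9_ag.IgusaHyperellipticOld

theorem result {k₀ : Type*} [Field k₀] [CharZero k₀] (hfg : (⊤ : IntermediateField ℚ k₀).FG)
    {k : Type*} [Field k] [Algebra k₀ k] [IsAlgClosure k₀ k] (g : ℕ) (hg : 1 ≤ g) (f : k₀[X])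
    (a : Fin (2 * g + 1) → k) (hinj : Function.Injective a)
    (hf : f.map (algebraMap k₀ k) = ∏ i, (X - C (a i)))
    (hc : Indep k₀ a ∨ SimpleGal k₀ a ∧ NonSq k₀ a) :
    LefHolds (Fin (2 * g)) (galF (k := k) f) :=
  haveI : Nonempty (Fin (2 * g)) := ⟨⟨0, by omega⟩⟩
  (hyp_main hfg g hg f a hinj hf hc).lefHolds

/-- `SimpleGal` holds if the degree is a prime `p`, 2 is a primitive root mod `p` and the Galois
group is transitive. -/
theorem simpleGal_example {k₀ k : Type*} [Field k₀] [Field k] [Algebra k₀ k] {g : ℕ}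
    {a : Fin (2 * g + 1) → k} (h1 : (2 * g + 1).Prime)
    (h2 : orderOf (2 : ZMod (2 * g + 1)) = 2 * g) (h3 : ∀ i j, ∃ u, Ind k₀ a u ∧ u i = j) :
    SimpleGal k₀ a :=
  simpleGal_of_prime h1 h2 h3

end Pool.Agent.Lib.MP_33b3f9_ag.IgusaHyperellipticOld
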