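import Pool.Agent.Lib.MP_33b3f9_ag.KumA

/-!
The Kummer formula for the action on `J[4]`.
-/

open Polynomial

namespace Pool.Agent.Lib.MP_33b3f9_ag

noncomputable section

variable {k₁ : Type*} [Field k₁] {k : Type*} [Field k] [IsAlgClosed k] [CharZero k]
  [Algebra k₁ k] {ι : Type} [Fintype ι] [DecidableEq ι] (a : ι → k₁)
  [IsDedekindDomain (Coord k a)]

omit [IsAlgClosed k] [CharZero k] [DecidableEq ι] in
lemma kum_fr_comm (σ : k ≃ₐ[k₁] k) (u : Fr (Coord k a)) :
    frMap (actE a σ) (frMap (tau a) u) = frMap (tau a) (frMap (actE a σ) u) := by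
  obtain ⟨s, t, -, rfl⟩ := IsFractionRing.div_surjective (A := Coord k a) u
  simp only [map_div₀, frMap_algebraMap, actE_apply, act_tau]

omit [IsAlgClosed k] [CharZero k] [DecidableEq ι] in
lemma kum_fr_tau_tau (u : Fr (Coord k a)) : frMap (tau a) (frMap (tau a) u) = u := by
  obtain ⟨s, t, -, rfl⟩ := IsFractionRing.div_surjective (A := Coord k a) u
  simp only [map_div₀, frMap_algebraMap, tau_tau]

omit [IsAlgClosed k] [CharZero k] [DecidableEq ι] in
lemma kum_pt_comm (σ : k ≃ₐ[k₁] k) (P : Pt (Coord k a)) :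
    ptMap (actE a σ) (ptMap (tau a) P) = ptMap (tau a) (ptMap (actE a σ) P) := by
  apply IsDedekindDomain.HeightOneSpectrum.ext
  ext r
  obtain ⟨r, rfl⟩ := (actE a σ).surjective r
  obtain ⟨r, rfl⟩ := (tau a).surjective r
  rw [mem_ptMap, mem_ptMap, actE_apply, act_tau, mem_ptMap, ← actE_apply, mem_ptMap]

omit [IsAlgClosed k] [CharZero k] [DecidableEq ι] in
lemma kum_dv_comm (σ : k ≃ₐ[k₁] k) (D : Dv (Coord k a)) :
    dvMap (actE a σ) (dvMap (tau a) D) = dvMap (tau a) (dvMap (actE a σ) D) := by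
  induction D using Finsupp.induction_linear with
  | zero => simp
  | add f g hf hg => simp only [map_add, hf, hg]
  | single P n => simp only [dvMap_single, kum_pt_comm]

omit [IsAlgClosed k] [CharZero k] [DecidableEq ι] [IsDedekindDomain (Coord k a)] in
lemma kum_tau_alg (c : k) : tau a (algebraMap k (Coord k a) c) = (algebraMap k (Coord k a) c) := by
  rw [← pol_C, tau_pol]

omit [IsAlgClosed k] [CharZero k] [DecidableEq ι] [IsDedekindDomain (Coord k a)] in
lemma kum_yy_ne : (yy a : Coord k a) ≠ 0 := by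
  intro h
  have := (rep_unique (k := k) a (A := 0) (B := 1) (by simp [h])).2
  exact one_ne_zero this

lemma kum_sign {m : ℤ} {e : ZMod 2} {F : Type*} [Field F] [CharZero F]
    (h : (-1 : F) ^ m = (-1) ^ e.val) : (m : ZMod 2) = e := by
  have h2 : (-1 : F) ≠ 1 := by norm_num
  rcases Int.even_or_odd m with hm | hm
  · rw [hm.neg_one_zpow] at h
    rw [(ZMod.intCast_zmod_eq_zero_iff_dvd m 2).mpr (even_iff_two_dvd.mp hm)]
    fin_cases e
    · rfl
    · exact absurd ((pow_one _).symm.trans h.symm) h2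
  · rw [hm.neg_one_zpow] at h
    obtain ⟨t, rfl⟩ := hm
    have : ((2 * t + 1 : ℤ) : ZMod 2) = 1 := by
      push_cast
      rw [show (2 : ZMod 2) = 0 from rfl]; simp
    rw [this]
    fin_cases e
    · exact absurd (h.trans (pow_zero _)) h2
    · rfl

lemma kum_pow_val {F : Type*} [Field F] (x y : ZMod 2) :
    (-1 : F) ^ (x + y).val = (-1) ^ x.val * (-1) ^ y.val := by
  fin_cases x <;> fin_cases y
  · show (-1 : F) ^ 0 = (-1) ^ 0 * (-1) ^ 0
    simp
  · show (-1 : F) ^ 1 = (-1) ^ 0 * (-1) ^ 1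
    simp
  · show (-1 : F) ^ 1 = (-1) ^ 1 * (-1) ^ 0
    simp
  · show (-1 : F) ^ 0 = (-1) ^ 1 * (-1) ^ 1
    simp

lemma kum_pow_sum {F : Type*} [Field F] {β : Type*} (s : Finset β) (x : β → ZMod 2) :
    (-1 : F) ^ (∑ m ∈ s, x m).val = ∏ m ∈ s, (-1) ^ (x m).val := by
  classical
  induction s using Finset.induction_on with
  | empty => simp
  | insert b s hb ih => rw [Finset.sum_insert hb, Finset.prod_insert hb, kum_pow_val, ih]

lemma kum_smul {J : Type*} [AddCommGroup J] {W : J} (hW : 2 • W = 0) {m : ℤ} {e : ZMod 2}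
    (h : (m : ZMod 2) = e) : (-m) • W = e.val • W := by
  have h1 : ((-m : ℤ) : ZMod 2) = ((e.val : ℤ) : ZMod 2) := by
    rw [Int.cast_neg, h, ZMod.neg_eq_self_mod_two]; simp
  obtain ⟨t, ht⟩ := (ZMod.intCast_eq_intCast_iff_dvd_sub _ _ 2).mp h1
  have h3 : (e.val : ℤ) = -m + t * 2 := by push_cast at ht; linarith
  rw [← natCast_zsmul, h3, add_smul, mul_smul]
  have : (2 : ℤ) • W = 0 := by rw [← hW, ← natCast_zsmul]; rfl
  rw [this, smul_zero, add_zero]

/-- Kummer formula -/
theorem kummer (hodd : Odd (Fintype.card ι)) (hinj : Function.Injective a) (σ : k ≃ₐ[k₁] k)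
    (χ : k₁ → ZMod 2)
    (h1 : ∀ i j, i ≠ j → ∀ z : k, z ^ 2 = algebraMap k₁ k (a i - a j) →
      σ z = (-1) ^ (χ (a i - a j)).val * z)
    (h2 : ∀ z : k, z ^ 2 = -1 → σ z = (-1) ^ (χ (-1)).val * z)
    (i : ι) {P : Jac k a} (hP : 2 • P = wcl k a i) :
    actJ a σ P - P = ∑ j, ((lap a χ + χ (-1) • (1 : Matrix ι ι (ZMod 2))) j i).val • wcl k a j := by
  classical
  obtain ⟨D, rfl⟩ := cl_surjective P
  set W : ι → Pt (Coord k a) := wpt k a with hW
  set r : Coord k a := pol a (X - C (algebraMap k₁ k (a i))) with hr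
  have hr0 : r ≠ 0 := by
    intro h0
    have := (rep_unique (k := k) a (A := X - C (algebraMap k₁ k (a i))) (B := 0)
      (by simpa [hr] using h0)).1
    exact X_sub_C_ne_zero _ this
  have hE : dvR r = Finsupp.single (W i) 1 + dvMap (tau a) (Finsupp.single (W i) 1) := by
    rw [dvMap_single, ptMap_tau_wpt, hr, dvR_X_sub_wpt, two_smul]
  obtain ⟨s, hs0, hsn, hsd⟩ := exists_half_fun a hodd (D := D) (E := Finsupp.single (W i) 1)
    (by rw [hP, cl_single, one_smul]; rfl) hr0 hE
  have hσr : actE a σ r = r := by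
    rw [actE_apply, hr, act_pol]; simp
  have hσs0 : frMap (actE a σ) s ≠ 0 := by simpa using hs0
  have hτs0 : frMap (tau a) s ≠ 0 := by simpa using hs0
  have hβ : frMap (actE a σ) s / s * frMap (tau a) (frMap (actE a σ) s / s) = 1 := by
    rw [map_div₀, ← kum_fr_comm, div_mul_div_comm, ← map_mul, hsn, frMap_algebraMap, hσr]
    apply div_self
    simpa using hr0
  obtain ⟨w, hw0, hw⟩ := h90 (tau a) (tau_tau a) (kum_yy_ne a) (tau_yy a) hβ
  have hτw0 : frMap (tau a) w ≠ 0 := by simpa using hw0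
  have hdβ : dvMap (actE a σ) (dv s) - dv s = dvMap (tau a) (dv w) - dv w := by
    have := congrArg dv hw
    rw [div_eq_mul_inv, div_eq_mul_inv, dv_mul hσs0 (inv_ne_zero hs0),
      dv_mul hτw0 (inv_ne_zero hw0), dv_inv, dv_inv, dv_frMap, dv_frMap] at this
    simpa [sub_eq_add_neg] using this
  have hinv : dvMap (tau a) (dvMap (actE a σ) D - D - dv w) = dvMap (actE a σ) D - D - dv w := by
    rw [hsd, map_add, map_sub, dvMap_single, hW, ptMap_act_wpt, kum_dv_comm] at hdβ
    rw [map_sub, map_sub]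
    ext Q
    have := DFunLike.congr_fun hdβ Q
    simp only [Finsupp.sub_apply, Finsupp.add_apply] at this ⊢
    linarith
  have hcl := cl_invariant a hinj hinv
  have hw' : cl (dv w) = 0 := (cl_eq_zero_iff _).mpr ⟨w, hw0, rfl⟩
  rw [map_sub, map_sub, hw', sub_zero] at hcl
  rw [actJ_cl, hcl]
  refine Finset.sum_congr rfl fun j _ => ?_
  have hD : (dvMap (actE a σ) D) (wpt k a j) = D (wpt k a j) := by
    conv_lhs => rw [← ptMap_act_wpt a σ j]
    exact dvMap_apply _ _ _
  have hDτ : (dvMap (tau a) D) (wpt k a j) = D (wpt k a j) := by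
    conv_lhs => rw [← ptMap_tau_wpt a j]
    exact dvMap_apply _ _ _
  have hyord : dvR (yy a : Coord k a) (wpt k a j) = 1 := by
    rw [dvR_yy a hinj, Finset.sum_apply', Finset.sum_eq_single j]
    · simp
    · intro m _ hm
      exact Finsupp.single_eq_of_ne fun h => hm (wpt_injective a hinj h).symm
    · simp
  rw [Finsupp.sub_apply, Finsupp.sub_apply, hD, sub_self, zero_sub]
  apply kum_smul (two_wcl a j)
  apply kum_sign (F := k)
  have hval := val_div_invol (k := k) (tau a) (kum_tau_alg a) (ptMap_tau_wpt a j) (kum_yy_ne a)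
    (tau_yy a) hyord hw0
  rw [← hw] at hval
  -- general step: a function `u` with `σ u / u = σ s / s`, regular at `W j` with value `c`
  have key : ∀ (u : Fr (Coord k a)) (c : k), c ≠ 0 → Val k (wpt k a j) u c →
      frMap (actE a σ) u / u = frMap (actE a σ) s / s → (-1 : k) ^ (dv w) (wpt k a j) = σ c / c := by
    intro u c hc hu he
    have h3 := hu.map (actE a σ) (σ : k →+* k) (act_algebraMap a σ)
    rw [ptMap_act_wpt] at h3
    have h4 := h3.mul (hu.inv hc)
    rw [← div_eq_mul_inv, he] at h4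
    rw [hval.unique h4, div_eq_mul_inv]; rfl
  have sq : ∀ (u : Fr (Coord k a)) (c : k), Val k (wpt k a j) u c →
      Val k (wpt k a j) (u * frMap (tau a) u) (c ^ 2) := by
    intro u c hu
    have h3 := hu.map (tau a) (RingHom.id k) (kum_tau_alg a)
    rw [ptMap_tau_wpt] at h3
    rw [pow_two c]
    exact hu.mul h3
  by_cases hji : j = i
  · subst hji
    have hy0 : algebraMap (Coord k a) (Fr (Coord k a)) (yy a) ≠ 0 := by simpa using kum_yy_ne a
    have hu0 : s / algebraMap (Coord k a) (Fr (Coord k a)) (yy a) ≠ 0 := div_ne_zero hs0 hy0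
    have hord : dv (s / algebraMap (Coord k a) (Fr (Coord k a)) (yy a)) (wpt k a j) = 0 := by
      rw [div_eq_mul_inv, dv_mul hs0 (inv_ne_zero hy0), dv_inv, hsd]
      simp only [Finsupp.add_apply, Finsupp.sub_apply, Finsupp.neg_apply, hDτ, hW]
      have := hyord
      simp only [dvR] at this
      rw [this]; simp
    obtain ⟨c, hc0, hc⟩ := exists_val (k := k) hu0 hord
    rw [key _ c hc0 hc (by
      rw [map_div₀, frMap_algebraMap, actE_apply, act_yy]; field_simp)]
    set Q : k[X] := ∏ m ∈ Finset.univ.erase j, (X - C (algebraMap k₁ k (a m))) with hQ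
    have hf : hyp k a = (X - C (algebraMap k₁ k (a j))) * Q := by
      rw [hyp, hQ, Finset.mul_prod_erase _ (fun m => X - C (algebraMap k₁ k (a m)))
        (Finset.mem_univ j)]
    have h5 := (sq _ c hc).mul (val_algebraMap (k := k) (wpt k a j) (pol a Q))
    have h6 : s / algebraMap (Coord k a) (Fr (Coord k a)) (yy a) * frMap (tau a) (s / algebraMap (Coord k a) (Fr (Coord k a)) (yy a)) *
        algebraMap (Coord k a) (Fr (Coord k a)) (pol a Q) = algebraMap (Coord k a) (Fr (Coord k a)) (-1) := by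
      rw [map_div₀, frMap_algebraMap, tau_yy, div_mul_div_comm, hsn, map_neg, map_neg, map_one]
      have h7 : algebraMap (Coord k a) (Fr (Coord k a)) (yy a) * algebraMap (Coord k a) (Fr (Coord k a)) (yy a) =
          algebraMap (Coord k a) (Fr (Coord k a)) r * algebraMap (Coord k a) (Fr (Coord k a)) (pol a Q) := by
        rw [← map_mul, ← map_mul, ← pow_two (yy a), yy_sq, hr, ← map_mul, ← hf]
      have h8 : algebraMap (Coord k a) (Fr (Coord k a)) r * algebraMap (Coord k a) (Fr (Coord k a)) (pol a Q) ≠ 0 := by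
        rw [← h7]; exact mul_ne_zero hy0 hy0
      rw [mul_neg, h7, div_mul_eq_mul_div, div_neg, div_self h8]
    rw [h6] at h5
    have h9 := h5.unique (val_algebraMap (k := k) (wpt k a j) (-1))
    rw [ev_pol, ev_wpt_x, map_neg, map_one, hQ, eval_prod] at h9
    simp only [eval_sub, eval_X, eval_C] at h9
    choose z hz using fun m : ι => IsAlgClosed.exists_pow_nat_eq
      (algebraMap k₁ k (a j - a m)) (show 0 < 2 by norm_num)
    have h10 : (c * ∏ m ∈ Finset.univ.erase j, z m) ^ 2 = -1 := by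
      rw [mul_pow, ← Finset.prod_pow, ← h9]
      congr 1
      exact Finset.prod_congr rfl fun m _ => by rw [hz, map_sub]
    have h11 := h2 _ h10
    have h12 : σ (∏ m ∈ Finset.univ.erase j, z m) =
        (-1) ^ (∑ m ∈ Finset.univ.erase j, χ (a j - a m)).val * ∏ m ∈ Finset.univ.erase j, z m := by
      rw [map_prod, kum_pow_sum, ← Finset.prod_mul_distrib]
      exact Finset.prod_congr rfl fun m hm => h1 j m (Finset.ne_of_mem_erase hm).symm _ (hz m)
    have h13 : (∏ m ∈ Finset.univ.erase j, z m) ≠ 0 := by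
      intro h0
      rw [h0] at h10
      simp at h10
    rw [map_mul, h12] at h11
    simp only [Matrix.add_apply, lap, Matrix.of_apply, if_true, Matrix.smul_apply,
      Matrix.one_apply_eq, smul_eq_mul, mul_one]
    rw [kum_pow_val, div_eq_iff hc0]
    have h14 : ((-1 : k) ^ (∑ m ∈ Finset.univ.erase j, χ (a j - a m)).val) ^ 2 = 1 := by
      rw [← pow_mul, mul_comm, pow_mul]; simp
    apply mul_right_cancel₀ h13
    linear_combination (-1 : k) ^ (∑ m ∈ Finset.univ.erase j, χ (a j - a m)).val * h11 -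
      σ c * (∏ m ∈ Finset.univ.erase j, z m) * h14
  · have hord : dv s (wpt k a j) = 0 := by
      rw [hsd]
      simp only [Finsupp.add_apply, Finsupp.sub_apply, hDτ, hW]
      rw [Finsupp.single_eq_of_ne fun h => hji (wpt_injective a hinj h)]
      simp
    obtain ⟨c, hc0, hc⟩ := exists_val (k := k) hs0 hord
    rw [key _ c hc0 hc rfl]
    have h5 := sq _ c hc
    rw [hsn] at h5
    have h9 := h5.unique (val_algebraMap (k := k) (wpt k a j) r)
    rw [hr, ev_pol, ev_wpt_x] at h9
    simp only [eval_sub, eval_X, eval_C] at h9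
    rw [h1 j i hji c (by rw [h9, map_sub]), mul_div_assoc, div_self hc0, mul_one]
    simp [lap, hji, Matrix.one_apply_ne hji]

end

end Pool.Agent.Lib.MP_33b3f9_ag
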