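import Pool.Agent.Lib.MP_33b3f9_ag.Ev

/-!
Values of rational functions at points where they are regular, and Hilbert 90 for an involution.
-/

namespace Pool.Agent.Lib.MP_33b3f9_ag

noncomputable section

variable (k : Type*) [Field k] [IsAlgClosed k] {R : Type*} [CommRing R] [IsDedekindDomain R]
  [Algebra k R] [Algebra.FiniteType k R]

/-- `u` is regular at `P` with value `c` -/
def Val (P : Pt R) (u : Fr R) (c : k) : Prop :=
  ∃ s t : R, ev k P t ≠ 0 ∧ u * algebraMap R (Fr R) t = algebraMap R (Fr R) s ∧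
    ev k P s = c * ev k P t

variable {k}

lemma val_algebraMap (P : Pt R) (r : R) : Val k P (algebraMap R (Fr R) r) (ev k P r) := by
  refine ⟨r, 1, by simp, by simp, by simp⟩

lemma Val.unique {P : Pt R} {u : Fr R} {c c' : k} (h : Val k P u c) (h' : Val k P u c') :
    c = c' := by
  obtain ⟨s, t, ht, hs, he⟩ := h
  obtain ⟨s', t', ht', hs', he'⟩ := h'
  have h1 : algebraMap R (Fr R) (s * t') = algebraMap R (Fr R) (s' * t) := by
    rw [map_mul, map_mul, ← hs, ← hs']; ring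
  have h2 : s * t' = s' * t := IsFractionRing.injective R (Fr R) h1
  have h3 := congrArg (ev k P) h2
  rw [map_mul, map_mul, he, he'] at h3
  have h4 : c * (ev k P t * ev k P t') = c' * (ev k P t * ev k P t') := by
    linear_combination h3
  exact mul_right_cancel₀ (mul_ne_zero ht ht') h4

lemma Val.mul {P : Pt R} {u v : Fr R} {c d : k} (h : Val k P u c) (h' : Val k P v d) :
    Val k P (u * v) (c * d) := by
  obtain ⟨s, t, ht, hs, he⟩ := h
  obtain ⟨s', t', ht', hs', he'⟩ := h'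
  refine ⟨s * s', t * t', by rw [map_mul]; exact mul_ne_zero ht ht', ?_, ?_⟩
  · rw [map_mul, map_mul, ← hs, ← hs']; ring
  · rw [map_mul, map_mul, he, he']; ring

lemma Val.inv {P : Pt R} {u : Fr R} {c : k} (h : Val k P u c) (hc : c ≠ 0) :
    Val k P u⁻¹ c⁻¹ := by
  obtain ⟨s, t, ht, hs, he⟩ := h
  have hs0 : ev k P s ≠ 0 := by rw [he]; exact mul_ne_zero hc ht
  have hs1 : s ≠ 0 := by
    rintro rfl
    exact hs0 (map_zero _)
  have hs2 : algebraMap R (Fr R) s ≠ 0 := fun h =>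
    hs1 (IsFractionRing.injective R (Fr R) (by rw [h, map_zero]))
  have hu : u ≠ 0 := by
    rintro rfl
    exact hs2 (by rw [← hs, zero_mul])
  refine ⟨t, s, hs0, ?_, ?_⟩
  · rw [← hs, ← mul_assoc, inv_mul_cancel₀ hu, one_mul]
  · rw [he, ← mul_assoc, inv_mul_cancel₀ hc, one_mul]

lemma exists_val {P : Pt R} {u : Fr R} (hu : u ≠ 0) (h : dv u P = 0) :
    ∃ c : k, c ≠ 0 ∧ Val k P u c := by
  classical
  obtain ⟨t, ht0, ht⟩ := exists_dvR_eq (insert P (dv u).support) (fun Q => (-dv u Q).toNat)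
  have ht1 : algebraMap R (Fr R) t ≠ 0 := fun h =>
    ht0 (IsFractionRing.injective R (Fr R) (by rw [h, map_zero]))
  have hmul : dv (u * algebraMap R (Fr R) t) = dv u + dvR t := dv_mul hu ht1
  have hnn : 0 ≤ dv (u * algebraMap R (Fr R) t) := by
    rw [hmul]
    intro Q
    by_cases hQ : Q ∈ (dv u).support
    · have := ht Q (Finset.mem_insert_of_mem hQ)
      simp only [Finsupp.coe_zero, Pi.zero_apply, Finsupp.coe_add, Pi.add_apply, this]
      omega
    · have h0 : dv u Q = 0 := by simpa using hQ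
      have := dvR_nonneg t Q
      simp only [Finsupp.coe_zero, Pi.zero_apply, Finsupp.coe_add, Pi.add_apply, h0] at this ⊢
      omega
  obtain ⟨s, hs⟩ := exists_of_dv_nonneg hnn
  have htP : dvR t P = 0 := by
    have := ht P (Finset.mem_insert_self _ _)
    rw [this, h]; simp
  have hs0 : s ≠ 0 := by
    rintro rfl
    rw [map_zero] at hs
    exact mul_ne_zero hu ht1 hs.symm
  have hsP : dvR s P = 0 := by
    show dv (algebraMap R (Fr R) s) P = 0
    rw [hs, hmul, Finsupp.add_apply, h, htP, add_zero]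
  have e1 := (ev_ne_zero_iff (k := k) P ht0).2 htP
  have e2 := (ev_ne_zero_iff (k := k) P hs0).2 hsP
  exact ⟨ev k P s / ev k P t, div_ne_zero e2 e1, s, t, e1, hs.symm, by field_simp⟩

lemma Val.map {P : Pt R} {u : Fr R} {c : k} (h : Val k P u c) (φ : R ≃+* R) (σ : k →+* k)
    (hφ : ∀ c, φ (algebraMap k R c) = algebraMap k R (σ c)) :
    Val k (ptMap φ P) (frMap φ u) (σ c) := by
  obtain ⟨s, t, ht, hs, he⟩ := h
  refine ⟨φ s, φ t, ?_, ?_, ?_⟩
  · rw [ev_ptMap φ σ hφ]; exact (map_ne_zero σ).2 ht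
  · rw [← frMap_algebraMap, ← frMap_algebraMap, ← map_mul, hs]
  · rw [ev_ptMap φ σ hφ, ev_ptMap φ σ hφ, he, map_mul]

omit [IsAlgClosed k] [Algebra k R] [Algebra.FiniteType k R] in
lemma loc_dv_zpow (u : Fr R) (n : ℤ) : dv (u ^ n) = n • dv u := by
  rcases Int.eq_nat_or_neg n with ⟨a, rfl | rfl⟩
  · rw [zpow_natCast, dv_pow, natCast_zsmul]
  · rw [zpow_neg, zpow_natCast, dv_inv, dv_pow, neg_zsmul, natCast_zsmul]

/-- an involution `τ` fixing `P` and `k` and negating a uniformizer `y` at `P`: the value of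
`τ w / w` at `P` is `(-1)^(ord_P w)` -/
lemma val_div_invol (τ : R ≃+* R) (hτ : ∀ c, τ (algebraMap k R c) = algebraMap k R c)
    {P : Pt R} (hP : ptMap τ P = P) {y : R} (hy0 : y ≠ 0) (hy : τ y = -y) (hord : dvR y P = 1)
    {w : Fr R} (hw : w ≠ 0) : Val k P (frMap τ w / w) ((-1) ^ dv w P) := by
  set m : ℤ := dv w P with hm
  set Y : Fr R := algebraMap R (Fr R) y with hY
  have hY0 : Y ≠ 0 := fun h => hy0 (IsFractionRing.injective R (Fr R) (by rw [map_zero]; exact h))
  have hτY : frMap τ Y = -Y := by rw [hY, frMap_algebraMap, hy, map_neg]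
  have hw0 : w * Y ^ (-m) ≠ 0 := mul_ne_zero hw (zpow_ne_zero _ hY0)
  have hd : dv (w * Y ^ (-m)) P = 0 := by
    rw [dv_mul hw (zpow_ne_zero _ hY0), loc_dv_zpow, Finsupp.add_apply, Finsupp.smul_apply]
    have : dv Y P = 1 := hord
    rw [this, ← hm]; simp
  obtain ⟨c, hc, hv⟩ := exists_val (k := k) hw0 hd
  have h1 := hv.map τ (RingHom.id k) (by simpa using hτ)
  rw [hP] at h1
  have h2 := h1.mul (hv.inv hc)
  rw [RingHom.id_apply, mul_inv_cancel₀ hc] at h2
  have hsg : Val k P ((-1 : Fr R) ^ m) ((-1 : k) ^ m) := by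
    rcases Int.even_or_odd m with he | ho
    · rw [he.neg_one_zpow, he.neg_one_zpow]
      simpa using val_algebraMap (k := k) P (1 : R)
    · rw [ho.neg_one_zpow, ho.neg_one_zpow]
      simpa using val_algebraMap (k := k) P (-1 : R)
  have h3 := hsg.mul h2
  rw [mul_one] at h3
  have e : (-1 : Fr R) ^ m * (frMap τ (w * Y ^ (-m)) * (w * Y ^ (-m))⁻¹) = frMap τ w / w := by
    have hz : Y ^ (-m) ≠ 0 := zpow_ne_zero _ hY0
    have h4 : (-1 : Fr R) ^ m * (-1 : Fr R) ^ (-m) = 1 := by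
      rw [← zpow_add₀ (by simp), add_neg_cancel, zpow_zero]
    rw [map_mul, map_zpow₀, hτY, neg_eq_neg_one_mul Y, mul_zpow]
    calc (-1 : Fr R) ^ m * (frMap τ w * ((-1) ^ (-m) * Y ^ (-m)) * (w * Y ^ (-m))⁻¹)
        = ((-1 : Fr R) ^ m * (-1) ^ (-m)) * (frMap τ w / w) * (Y ^ (-m) * (Y ^ (-m))⁻¹) := by
          rw [mul_inv, div_eq_mul_inv]; ring
      _ = frMap τ w / w := by rw [h4, mul_inv_cancel₀ hz, one_mul, mul_one]
  rwa [e] at h3

omit [IsAlgClosed k] [Algebra k R] [Algebra.FiniteType k R] in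
/-- Hilbert 90 for an involution -/
lemma h90 (τ : R ≃+* R) (hτ : ∀ r, τ (τ r) = r) {y : R} (hy0 : y ≠ 0) (hy : τ y = -y)
    {β : Fr R} (hβ : β * frMap τ β = 1) : ∃ w : Fr R, w ≠ 0 ∧ β = frMap τ w / w := by
  have hinv : ∀ u : Fr R, frMap τ (frMap τ u) = u := by
    intro u
    obtain ⟨a, b, -, rfl⟩ := IsFractionRing.div_surjective (A := R) u
    rw [map_div₀, map_div₀, frMap_algebraMap, frMap_algebraMap, frMap_algebraMap,
      frMap_algebraMap, hτ, hτ]
  by_cases h : 1 + frMap τ β = 0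
  · have hY0 : algebraMap R (Fr R) y ≠ 0 := fun h =>
      hy0 (IsFractionRing.injective R (Fr R) (by rw [map_zero]; exact h))
    refine ⟨algebraMap R (Fr R) y, hY0, ?_⟩
    rw [frMap_algebraMap, hy, map_neg, neg_div, div_self hY0]
    linear_combination β * h - hβ
  · refine ⟨1 + frMap τ β, h, ?_⟩
    rw [eq_div_iff h, map_add, map_one, hinv]
    linear_combination hβ

end

end Pool.Agent.Lib.MP_33b3f9_ag
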