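import Pool.Agent.Lib.MP_33b3f9_ag.Pts
import Pool.Agent.Lib.MP_33b3f9_ag.Loc
import Pool.Agent.Lib.MP_33b3f9_ag.HypInf

/-!
The 2-torsion of `J`.
-/

open Polynomial

namespace Pool.Agent.Lib.MP_33b3f9_ag

noncomputable section

variable {k₁ : Type*} [Field k₁] {k : Type*} [Field k] [IsAlgClosed k] [CharZero k]
  [Algebra k₁ k] {ι : Type} [Fintype ι] [DecidableEq ι] (a : ι → k₁)
  [IsDedekindDomain (Coord k a)]

omit [DecidableEq ι] in
/-- a rational function with trivial divisor is a nonzero constant -/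
lemma const_of_dv_eq_zero (hodd : Odd (Fintype.card ι)) {u : Fr (Coord k a)} (hu : u ≠ 0)
    (h : dv u = 0) : ∃ c : k, c ≠ 0 ∧
      u = algebraMap (Coord k a) (Fr (Coord k a)) (algebraMap k (Coord k a) c) := by
  obtain ⟨r, rfl⟩ := exists_of_dv_nonneg h.ge
  have hr : r ≠ 0 := fun h0 => hu (by rw [h0, map_zero])
  obtain ⟨I, -⟩ := exists_inf (k := k) a hodd
  obtain ⟨b, hb⟩ := ((dvR_eq_zero_iff hr).1 h).exists_right_inv
  have hb0 : b ≠ 0 := right_ne_zero_of_mul_eq_one hb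
  have h1 := I.deg_mul r b hr hb0
  have h2 := I.deg_alg 1 one_ne_zero
  rw [map_one] at h2
  rw [hb, h2] at h1
  exact ⟨I.lc r, I.lc_ne r hr, congrArg _ (I.eq_const hr (by omega))⟩

omit [DecidableEq ι] [CharZero k] in
lemma kumA_dvMap_tau (D : Dv (Coord k a)) : dvMap (tau a) (dvMap (tau a) D) = D := by
  ext P
  conv_lhs => rw [← ptMap_tau_tau a P, dvMap_apply, dvMap_apply]

omit [DecidableEq ι] [CharZero k] [IsAlgClosed k] in
lemma kumA_frMap_const (c : k) :
    frMap (tau a) (algebraMap (Coord k a) (Fr (Coord k a)) (algebraMap k (Coord k a) c)) =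
      algebraMap (Coord k a) (Fr (Coord k a)) (algebraMap k (Coord k a) c) := by
  rw [frMap_algebraMap, ← pol_C, tau_pol]

omit [DecidableEq ι] [CharZero k] [IsAlgClosed k] in
lemma kumA_dv_const {c : k} (hc : c ≠ 0) :
    dv (algebraMap (Coord k a) (Fr (Coord k a)) (algebraMap k (Coord k a) c)) = 0 :=
  have h : IsUnit (algebraMap k (Coord k a) c) := hc.isUnit.map _
  (dvR_eq_zero_iff h.ne_zero).2 h

omit [DecidableEq ι] in
/-- if `2 D ~ E` and `E + τ E = div r`, `r` invariant, then `div s = E - D + τ D` for some `s`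
of norm `r` -/
lemma exists_half_fun (hodd : Odd (Fintype.card ι)) {D E : Dv (Coord k a)}
    (h : 2 • cl D = cl E) {r : Coord k a} (hr : r ≠ 0)
    (hE : dvR r = E + dvMap (tau a) E) :
    ∃ s : Fr (Coord k a), s ≠ 0 ∧ s * frMap (tau a) s = algebraMap _ _ r ∧
      dv s = E - D + dvMap (tau a) D := by
  obtain ⟨u, hu, hdu⟩ := (cl_eq_zero_iff (2 • D - E)).1 (by rw [map_sub, map_nsmul, h, sub_self])
  obtain ⟨g, hg, -, hdg⟩ := exists_norm_div a D
  have hinj := IsFractionRing.injective (Coord k a) (Fr (Coord k a))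
  have hr' : algebraMap (Coord k a) (Fr (Coord k a)) r ≠ 0 := (map_ne_zero_iff _ hinj).2 hr
  have hs : g * u⁻¹ ≠ 0 := mul_ne_zero hg (inv_ne_zero hu)
  have hds : dv (g * u⁻¹) = E - D + dvMap (tau a) D := by
    rw [dv_mul hg (inv_ne_zero hu), dv_inv, hdu, hdg, two_nsmul]
    abel
  generalize g * u⁻¹ = s at hs hds
  have hs' : frMap (tau a) s ≠ 0 := (map_ne_zero_iff _ (frMap (tau a)).injective).2 hs
  obtain ⟨c, hc, hcs⟩ := const_of_dv_eq_zero a hodd
    (mul_ne_zero hr' (inv_ne_zero (mul_ne_zero hs hs'))) (by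
      rw [dv_mul hr' (inv_ne_zero (mul_ne_zero hs hs')), dv_inv, dv_mul hs hs', dv_frMap, hds,
        map_add, map_sub, kumA_dvMap_tau]
      change dvR r + _ = 0
      rw [hE]
      abel)
  obtain ⟨z, rfl⟩ := IsAlgClosed.exists_eq_mul_self c
  have hz : z ≠ 0 := left_ne_zero_of_mul hc
  have hz' : algebraMap (Coord k a) (Fr (Coord k a)) (algebraMap k (Coord k a) z) ≠ 0 :=
    ((hz.isUnit.map _).map _).ne_zero
  refine ⟨algebraMap (Coord k a) _ (algebraMap k (Coord k a) z) * s, mul_ne_zero hz' hs, ?_, ?_⟩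
  · rw [map_mul, kumA_frMap_const, mul_mul_mul_comm, ← map_mul, ← map_mul, ← hcs,
      inv_mul_cancel_right₀ (mul_ne_zero hs hs')]
  · rw [dv_mul hz' hs, kumA_dv_const a hz, zero_add, hds]

omit [DecidableEq ι] in
/-- the 2-torsion is generated by the Weierstrass points -/
theorem two_torsion (hodd : Odd (Fintype.card ι)) (hinj : Function.Injective a) {c : Jac k a}
    (hc : 2 • c = 0) : ∃ n : ι → ℤ, c = ∑ i, n i • wcl k a i := by
  obtain ⟨D, rfl⟩ := cl_surjective c
  obtain ⟨s, -, h1, h2⟩ := exists_half_fun a hodd (D := D) (E := 0) (r := 1)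
    (by rw [hc, map_zero]) one_ne_zero (by rw [dvR, map_one, dv_one, map_zero, add_zero])
  have hy : (yy a : Coord k a) ≠ 0 := fun h0 =>
    one_ne_zero (rep_unique (k := k) a (A := 0) (B := 1) (by rw [h0]; simp)).2
  rw [map_one] at h1
  obtain ⟨w, hw, rfl⟩ := h90 (tau a) (tau_tau a) hy (tau_yy a) h1
  have hw' : frMap (tau a) w ≠ 0 := (map_ne_zero_iff _ (frMap (tau a)).injective).2 hw
  rw [div_eq_mul_inv, dv_mul hw' (inv_ne_zero hw), dv_inv, dv_frMap] at h2
  have h3 : dvMap (tau a) (D - dv w) = D - dv w := by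
    rw [map_sub, eq_sub_of_add_eq h2]
    abel
  have h4 := cl_invariant a hinj h3
  rw [map_sub, (cl_eq_zero_iff _).2 ⟨w, hw, rfl⟩, sub_zero] at h4
  exact ⟨_, h4⟩

end

end Pool.Agent.Lib.MP_33b3f9_ag
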