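import Pool.Agent.Lib.MP_33b3f9_ag.LieD

/-!
From the criterion to all of `sp(F_2)`.
-/

open Matrix

namespace Pool.Agent.Lib.MP_33b3f9_ag

noncomputable section

variable {ν ι : Type} [Fintype ν] [DecidableEq ν] [Fintype ι] [DecidableEq ι]

variable {Γ : Type*} [Group Γ] {r : Γ →* Matrix ν ν ℤ_[2]}

lemma lie_linf_lie {H H' : Subgroup Γ} (hH : ∀ σ ∈ H, ∀ τ ∈ H, σ * τ * σ⁻¹ * τ⁻¹ ∈ H')
    {Y Y' : Matrix ν ν (ZMod 2)} (h : Y ∈ Linf r H) (h' : Y' ∈ Linf r H) :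
    Y * Y' - Y' * Y ∈ Linf r H' := by
  obtain ⟨n, hn, h⟩ := h
  obtain ⟨m, hm, h'⟩ := h'
  exact ⟨n + m, by omega, h.comm hH (by omega) (by omega) h'⟩

omit [DecidableEq ν] [DecidableEq ι] in
lemma lie_rep_mul {w : ι → ν → ZMod 2} {Y Y' : Matrix ν ν (ZMod 2)} {A A' : Matrix ι ι (ZMod 2)}
    (h : ∀ i, Y *ᵥ w i = ∑ j, A j i • w j) (h' : ∀ i, Y' *ᵥ w i = ∑ j, A' j i • w j) (i : ι) :
    (Y * Y') *ᵥ w i = ∑ j, (A * A') j i • w j := by
  rw [← mulVec_mulVec, h', mulVec_sum]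
  simp only [mulVec_smul, h, Finset.smul_sum, Matrix.mul_apply, Finset.sum_smul, smul_smul]
  rw [Finset.sum_comm]
  simp only [mul_comm]

omit [DecidableEq ν] [DecidableEq ι] in
lemma lie_rep_add {w : ι → ν → ZMod 2} {Y Y' : Matrix ν ν (ZMod 2)} {A A' : Matrix ι ι (ZMod 2)}
    (h : ∀ i, Y *ᵥ w i = ∑ j, A j i • w j) (h' : ∀ i, Y' *ᵥ w i = ∑ j, A' j i • w j) (i : ι) :
    (Y + Y') *ᵥ w i = ∑ j, (A + A') j i • w j := by
  simp only [add_mulVec, h, h', Matrix.add_apply, add_smul, Finset.sum_add_distrib]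

omit [DecidableEq ν] [DecidableEq ι] in
lemma lie_rep_sub {w : ι → ν → ZMod 2} {Y Y' : Matrix ν ν (ZMod 2)} {A A' : Matrix ι ι (ZMod 2)}
    (h : ∀ i, Y *ᵥ w i = ∑ j, A j i • w j) (h' : ∀ i, Y' *ᵥ w i = ∑ j, A' j i • w j) (i : ι) :
    (Y - Y') *ᵥ w i = ∑ j, (A - A') j i • w j := by
  simp only [sub_mulVec, h, h', Matrix.sub_apply, sub_smul, Finset.sum_sub_distrib]

lemma lie_three (hcard : 7 ≤ Fintype.card ι) (S : Finset ι) (hS : S.card ≤ 4) :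
    ∃ x y z : ι, x ≠ y ∧ x ≠ z ∧ y ≠ z ∧ x ∉ S ∧ y ∉ S ∧ z ∉ S := by
  have h1 : 2 < (Finset.univ \ S).card := by
    rw [Finset.card_univ_sdiff]
    omega
  obtain ⟨s, t, m, hs, ht, hm, h2, h3, h4⟩ := Finset.two_lt_card_iff.mp h1
  simp only [Finset.mem_sdiff, Finset.mem_univ, true_and] at hs ht hm
  exact ⟨s, t, m, h2, h3, h4, hs, ht, hm⟩

/-- the criterion puts the 4-cycles in the stable space of the whole group -/
theorem crit_linf {k₁ : Type*} [Field k₁] {a : ι → k₁} (hc : Crit a)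
    {E : Matrix ν ν (ZMod 2)} {w : ι → ν → ZMod 2} (h : WData E w)
    (hK : ∀ χ, IsChar χ → ∃ (Y : Matrix ν ν (ZMod 2)) (ε : ZMod 2), Lev r ⊤ 1 Y ∧
      ∀ i, Y *ᵥ w i = ∑ j, (lap a χ + ε • (1 : Matrix ι ι (ZMod 2))) j i • w j)
    {p q s t : ι} (hn : [p, q, s, t].Nodup) : dotm E (w p + w s) (w q + w t) ∈ Linf r ⊤ := by
  let L : AddSubgroup (Matrix ι ι (ZMod 2)) :=
    { carrier := {A | ∃ Y ∈ Linf r ⊤, ∀ i, Y *ᵥ w i = ∑ j, A j i • w j}
      zero_mem' := ⟨0, zero_mem _, fun i => by simp⟩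
      add_mem' := by
        rintro A A' ⟨Y, hY, hA⟩ ⟨Y', hY', hA'⟩
        exact ⟨Y + Y', add_mem hY hY', lie_rep_add hA hA'⟩
      neg_mem' := by
        rintro A ⟨Y, hY, hA⟩
        exact ⟨-Y, neg_mem hY, fun i => by
          simp only [neg_mulVec, hA, Matrix.neg_apply, neg_smul, Finset.sum_neg_distrib]⟩ }
  obtain ⟨Y, hY, hA⟩ := hc L (fun χ hχ => by
      obtain ⟨Y, ε, hY, hA⟩ := hK χ hχ
      refine ⟨Y + Y * Y, ⟨2, le_rfl, hY.one_sq⟩, fun i => ?_⟩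
      rw [lie_rep_add hA (lie_rep_mul hA hA)]
      have h1 : lap a χ + ε • (1 : Matrix ι ι (ZMod 2)) + (lap a χ + ε • 1) * (lap a χ + ε • 1) =
          lap a χ + lap a χ * lap a χ := by
        have h2 : ε + ε * ε = 0 := (by decide : ∀ e : ZMod 2, e + e * e = 0) ε
        have h3 : ε + ε = 0 := (by decide : ∀ e : ZMod 2, e + e = 0) ε
        simp only [add_mul, mul_add, smul_mul_assoc, mul_smul_comm, one_mul, mul_one, smul_add,
          smul_smul]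
        have h4 : ε • (1 : Matrix ι ι (ZMod 2)) + (ε * ε) • 1 = 0 := by rw [← add_smul, h2, zero_smul]
        have h5 : ε • lap a χ + ε • lap a χ = 0 := by rw [← add_smul, h3, zero_smul]
        rw [← sub_eq_zero, ← add_zero (0 : Matrix ι ι (ZMod 2))]
        nth_rewrite 1 [← h4]
        rw [← h5]; abel
      rw [h1])
    (fun χ hχ A hA => by
      obtain ⟨Y, ε, hY, hB⟩ := hK χ hχ
      obtain ⟨Y', ⟨n, hn, hY'⟩, hA⟩ := hA
      refine ⟨Y * Y' - Y' * Y, ⟨1 + n, by omega,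
        hY.comm (H' := ⊤) (fun _ _ _ _ => Subgroup.mem_top _) le_rfl (by omega) hY'⟩, fun i => ?_⟩
      rw [lie_rep_sub (lie_rep_mul hB hA) (lie_rep_mul hA hB)]
      have h1 : (lap a χ + ε • (1 : Matrix ι ι (ZMod 2))) * A - A * (lap a χ + ε • 1) =
          lap a χ * A - A * lap a χ := by
        simp only [add_mul, mul_add, smul_mul_assoc, mul_smul_comm, one_mul, mul_one]
        abel
      rw [h1]) p q s t hn
  have h7 : Y = dotm E (w p + w s) (w q + w t) := h.ext fun i => by rw [hA, h.cyc_eq hn]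
  rwa [← h7]

/-- all of `sp(F_2)` consists of leading terms of the kernel of the multiplier -/
theorem sp_linf {E : Matrix ν ν ℤ_[2]} (hE : Eᵀ = -E) {w : ι → ν → ZMod 2}
    (h : WData (E.map red) w) (hcard : 7 ≤ Fintype.card ι) (χ : Γ →* ℤ_[2]ˣ)
    (hχ : ∀ σ, (r σ)ᵀ * E * r σ = (χ σ : ℤ_[2]) • E)
    (h4 : ∀ p q s t : ι, [p, q, s, t].Nodup →
      dotm (E.map red) (w p + w s) (w q + w t) ∈ Linf r ⊤)
    {Y : Matrix ν ν (ZMod 2)} (hY : Yᵀ * E.map red + E.map red * Y = 0) : Y ∈ Linf r χ.ker := by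
  have hcomm : ∀ H : Subgroup Γ, ∀ σ ∈ H, ∀ τ ∈ H, σ * τ * σ⁻¹ * τ⁻¹ ∈ χ.ker := by
    intro H σ _ τ _
    rw [MonoidHom.mem_ker]
    simp only [map_mul, map_inv]
    rw [mul_comm (χ σ) (χ τ)]; group
  have hH : ∀ σ ∈ χ.ker, (r σ)ᵀ * E * r σ = E := fun σ hσ => by
    rw [hχ, MonoidHom.mem_ker.mp hσ]; simp
  have hEb : (E.map red)ᵀ = -E.map red := by
    rw [h.symm]; ext i j; simp [ZMod.neg_eq_self_mod_two]
  have h11 : (1 : ZMod 2) + 1 = 0 := rfl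
  have h5 : ∀ p q s t : ι, [p, q, s, t].Nodup →
      dotm (E.map red) (w p + w s) (w q + w t) ∈ Linf r χ.ker := by
    intro p q s t hn
    obtain ⟨x, y, z, hxy, hxz, hyz, hx, hy, hz⟩ := lie_three hcard {p, q, s, t}
      Finset.card_le_four
    simp only [Finset.mem_insert, Finset.mem_singleton, not_or] at hx hy hz
    have hn' := hn
    simp only [List.nodup_cons, List.mem_cons, List.not_mem_nil, or_false, not_or,
      List.nodup_nil, and_true, not_false_eq_true] at hn'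
    obtain ⟨⟨hpq, hps, hpt⟩, ⟨hqs, hqt⟩, hst⟩ := hn'
    have l1 := h4 p x s y (by
      simp [hps, Ne.symm hx.1, Ne.symm hy.1, hx.2.2.1, hxy, Ne.symm hy.2.2.1])
    have l2 := h4 y q z t (by
      simp [hy.2.1, hyz, hy.2.2.2, Ne.symm hz.2.1, hqt, hz.2.2.2])
    have l3 := lie_linf_lie (hcomm ⊤) l1 l2
    rw [lie_dotm (dotm_sp hEb _ _), dotm_mulVec, dotm_mulVec] at l3
    simp only [mulVec_add, add_dotProduct, dotProduct_add, h.pair, Ne.symm hxy, Ne.symm hxz,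
      Ne.symm hyz, hy.1, hz.1, hy.2.2.1, hz.2.2.1, Ne.symm hx.2.1, Ne.symm hy.2.1,
      Ne.symm hx.2.2.2, Ne.symm hy.2.2.2, Ne.symm hpq, hqs, Ne.symm hpt, Ne.symm hst,
      if_true, if_false, h11, add_zero, zero_add, one_smul, zero_smul] at l3
    simpa [dotm] using l3
  have h6 := fun u v huv => h.iso_span (Linf r χ.ker) h5 (u := u) (v := v) huv
  exact h.all_sp (by omega) _ (fun Y hY Y' hY' => lie_linf_lie (hcomm _) hY hY') h6
    (fun p q hpq => sq_linf hE h (by omega) _ hH h6 hpq) hY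

end

end Pool.Agent.Lib.MP_33b3f9_ag
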