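import Pool.Agent.Lib.MP_33b3f9_ag.Defs

/-!
Rank one and rank two elements of `sp`.
-/

open Matrix

namespace Pool.Agent.Lib.MP_33b3f9_ag

noncomputable section

variable {ν : Type} [Fintype ν] [DecidableEq ν]

section ring

variable {A : Type*} [CommRing A]

/-- the map `x ↦ e(x,u) u` where `e(x,y) = x ⬝ E y` -/
def sqm (E : Matrix ν ν A) (u : ν → A) : Matrix ν ν A := vecMulVec u (E *ᵥ u)

/-- the map `x ↦ e(x,v) u + e(x,u) v` -/
def dotm (E : Matrix ν ν A) (u v : ν → A) : Matrix ν ν A :=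
  vecMulVec u (E *ᵥ v) + vecMulVec v (E *ᵥ u)

omit [DecidableEq ν] in
lemma dotm_comm (E : Matrix ν ν A) (u v : ν → A) : dotm E u v = dotm E v u := by
  simp only [dotm, add_comm]

omit [DecidableEq ν] in
lemma dotm_add_left (E : Matrix ν ν A) (u u' v : ν → A) :
    dotm E (u + u') v = dotm E u v + dotm E u' v := by
  simp only [dotm, mulVec_add, add_vecMulVec, vecMulVec_add]
  abel

omit [DecidableEq ν] in
lemma dotm_smul_left (E : Matrix ν ν A) (c : A) (u v : ν → A) :
    dotm E (c • u) v = c • dotm E u v := by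
  simp only [dotm, mulVec_smul, smul_vecMulVec, vecMulVec_smul, smul_add]

omit [DecidableEq ν] in
lemma dotm_self (E : Matrix ν ν A) (u : ν → A) : dotm E u u = (2 : A) • sqm E u := by
  simp only [dotm, sqm, two_smul]

omit [DecidableEq ν] in
lemma sqm_add (E : Matrix ν ν A) (u v : ν → A) :
    sqm E (u + v) = sqm E u + sqm E v + dotm E u v := by
  simp only [dotm, sqm, mulVec_add, add_vecMulVec, vecMulVec_add]
  abel

omit [DecidableEq ν] in
lemma lieA_mulVec (u w x : ν → A) : vecMulVec u w *ᵥ x = (x ⬝ᵥ w) • u := by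
  ext i
  simp only [mulVec, dotProduct, vecMulVec_apply, Pi.smul_apply, smul_eq_mul, Finset.sum_mul]
  exact Finset.sum_congr rfl fun j _ => by ring

omit [DecidableEq ν] in
lemma lieA_mul_left (X : Matrix ν ν A) (u w : ν → A) :
    X * vecMulVec u w = vecMulVec (X *ᵥ u) w := by
  ext i j
  simp only [mul_apply, mulVec, dotProduct, vecMulVec_apply, Finset.sum_mul]
  exact Finset.sum_congr rfl fun j _ => by ring

omit [DecidableEq ν] in
lemma lieA_mul_right (X : Matrix ν ν A) (u w : ν → A) :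
    vecMulVec u w * X = vecMulVec u (Xᵀ *ᵥ w) := by
  ext i j
  simp only [mul_apply, mulVec, dotProduct, vecMulVec_apply, Finset.mul_sum, transpose_apply]
  exact Finset.sum_congr rfl fun j _ => by ring

omit [DecidableEq ν] in
lemma lieA_sp {E X : Matrix ν ν A} (hX : Xᵀ * E + E * X = 0) (v : ν → A) :
    Xᵀ *ᵥ (E *ᵥ v) = -(E *ᵥ (X *ᵥ v)) := by
  rw [mulVec_mulVec, mulVec_mulVec, eq_neg_of_add_eq_zero_left hX, neg_mulVec]

omit [DecidableEq ν] in
lemma dotm_mulVec (E : Matrix ν ν A) (u v x : ν → A) :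
    dotm E u v *ᵥ x = (x ⬝ᵥ E *ᵥ v) • u + (x ⬝ᵥ E *ᵥ u) • v := by
  simp only [dotm, add_mulVec, lieA_mulVec]

omit [DecidableEq ν] in
lemma sqm_mulVec (E : Matrix ν ν A) (u x : ν → A) : sqm E u *ᵥ x = (x ⬝ᵥ E *ᵥ u) • u := by
  simp only [sqm, lieA_mulVec]

omit [DecidableEq ν] in
lemma dotm_sp {E : Matrix ν ν A} (hE : Eᵀ = -E) (u v : ν → A) :
    (dotm E u v)ᵀ * E + E * dotm E u v = 0 := by
  simp only [dotm, transpose_add, transpose_vecMulVec, add_mul, mul_add, lieA_mul_left,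
    lieA_mul_right, hE, neg_mulVec, vecMulVec_neg]
  abel

omit [DecidableEq ν] in
lemma sqm_sp {E : Matrix ν ν A} (hE : Eᵀ = -E) (u : ν → A) :
    (sqm E u)ᵀ * E + E * sqm E u = 0 := by
  simp only [sqm, transpose_vecMulVec, lieA_mul_left, lieA_mul_right, hE, neg_mulVec,
    vecMulVec_neg]
  abel

omit [DecidableEq ν] in
/-- bracket of an element of `sp` with `dotm` -/
lemma lie_dotm {E X : Matrix ν ν A} (hX : Xᵀ * E + E * X = 0) (u v : ν → A) :
    X * dotm E u v - dotm E u v * X = dotm E (X *ᵥ u) v + dotm E u (X *ᵥ v) := by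
  simp only [dotm, add_mul, mul_add, lieA_mul_left, lieA_mul_right, lieA_sp hX, vecMulVec_neg]
  abel

omit [DecidableEq ν] in
lemma lie_sqm {E X : Matrix ν ν A} (hX : Xᵀ * E + E * X = 0) (u : ν → A) :
    X * sqm E u - sqm E u * X = dotm E (X *ᵥ u) u := by
  simp only [dotm, sqm, lieA_mul_left, lieA_mul_right, lieA_sp hX, vecMulVec_neg]
  abel

end ring

end

end Pool.Agent.Lib.MP_33b3f9_ag
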