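import Pool.Agent.Lib.MP_33b3f9_ag.LieB

/-!
Spanning `sp(F_2)`.
-/

open Matrix

namespace Pool.Agent.Lib.MP_33b3f9_ag

noncomputable section

variable {ν ι : Type} [Fintype ν] [DecidableEq ν] [Fintype ι] [DecidableEq ι]

lemma lieC_cases (c : ZMod 2) : c = 0 ∨ c = 1 := by
  revert c
  decide

omit [Fintype ν] [DecidableEq ν] in
lemma lieC_two (x : ν → ZMod 2) : x + x = 0 := by
  funext i
  exact CharTwo.add_self_eq_zero (x i)

omit [Fintype ν] [DecidableEq ν] in
lemma lieC_twoM (x : Matrix ν ν (ZMod 2)) : x + x = 0 := by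
  ext i j
  exact CharTwo.add_self_eq_zero (x i j)

omit [DecidableEq ν] in
lemma lieC_add_right (E : Matrix ν ν (ZMod 2)) (u v v' : ν → ZMod 2) :
    dotm E u (v + v') = dotm E u v + dotm E u v' := by
  rw [dotm_comm, dotm_add_left, dotm_comm E v, dotm_comm E v']

omit [DecidableEq ν] in
lemma lieC_zero_left (E : Matrix ν ν (ZMod 2)) (v : ν → ZMod 2) : dotm E 0 v = 0 := by
  simp [dotm]

omit [DecidableEq ν] in
lemma lieC_self (E : Matrix ν ν (ZMod 2)) (v : ν → ZMod 2) : dotm E v v = 0 :=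
  lieC_twoM _

namespace WData

variable {E : Matrix ν ν (ZMod 2)} {w : ι → ν → ZMod 2} (h : WData E w)

include h

omit [DecidableEq ν] in
lemma lieC_ind (o : ι) (S : AddSubmonoid (ν → ZMod 2)) (hS : ∀ i, w i + w o ∈ S)
    (x : ν → ZMod 2) : x ∈ S := by
  have ho : w o ∈ S := by
    have h1 : ∑ i, (w i + w o) = w o := by
      obtain ⟨n, hn⟩ := h.odd
      rw [Finset.sum_add_distrib, h.sum, zero_add, Finset.sum_const, Finset.card_univ, hn,
        add_nsmul, mul_nsmul, two_nsmul, lieC_two, nsmul_zero, zero_add, one_nsmul]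
    rw [← h1]
    exact S.sum_mem fun i _ => hS i
  have hi : ∀ i, w i ∈ S := by
    intro i
    have := S.add_mem (hS i) ho
    rwa [add_assoc, lieC_two, add_zero] at this
  obtain ⟨c, rfl⟩ := h.span x
  refine S.sum_mem fun i _ => ?_
  rcases lieC_cases (c i) with hc | hc
  · rw [hc, zero_smul]
    exact S.zero_mem
  · rw [hc, one_smul]
    exact hi i

lemma lieC_symm (u v : ν → ZMod 2) : u ⬝ᵥ E *ᵥ v = v ⬝ᵥ E *ᵥ u := by
  rw [dotProduct_mulVec, ← mulVec_transpose, h.symm, dotProduct_comm]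

omit [DecidableEq ν] in
lemma lieC_pair {o i j : ι} (hi : i ≠ o) (hj : j ≠ o) (hij : i ≠ j) :
    (w i + w o) ⬝ᵥ E *ᵥ (w j + w o) = 1 := by
  simp only [mulVec_add, dotProduct_add, add_dotProduct, h.pair, if_neg hi, if_neg hj.symm,
    if_neg hij, if_true]
  decide

/-- the 4-cycles span all isotropic pairs -/
lemma iso_span (L : AddSubgroup (Matrix ν ν (ZMod 2)))
    (hL : ∀ p q r s : ι, [p, q, r, s].Nodup → dotm E (w p + w r) (w q + w s) ∈ L)
    {u v : ν → ZMod 2} (huv : u ⬝ᵥ E *ᵥ v = 0) : dotm E u v ∈ L := by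
  have hne : Nonempty ι := by
    obtain ⟨n, hn⟩ := h.odd
    exact Fintype.card_pos_iff.mp (by omega)
  obtain ⟨o⟩ := hne
  have h1 : ∀ i j k, i ≠ o → j ≠ o → k ≠ o → i ≠ j → i ≠ k →
      dotm E (w i + w o) (w j + w o) + dotm E (w i + w o) (w k + w o) ∈ L := by
    intro i j k hi hj hk hij hik
    by_cases hjk : j = k
    · rw [hjk, lieC_twoM]
      exact L.zero_mem
    · have e1 : w j + w o + (w k + w o) = w j + w k := by
        rw [add_add_add_comm, lieC_two, add_zero]
      rw [← lieC_add_right, e1]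
      refine hL i j o k ?_
      simp [hi, hj, hij, hik, hjk, hk.symm]
  have h2 : ∀ i j k l, i ≠ o → j ≠ o → k ≠ o → l ≠ o → i ≠ j → k ≠ l →
      dotm E (w i + w o) (w j + w o) + dotm E (w k + w o) (w l + w o) ∈ L := by
    intro i j k l hi hj hk hl hij hkl
    by_cases hjk : j = k
    · subst hjk
      rw [dotm_comm]
      exact h1 j i l hj hi hl hij.symm hkl
    · have a1 := h1 j i k hj hi hk hij.symm hjk
      have a2 := h1 k j l hk hj hl (Ne.symm hjk) hkl
      have a3 := L.add_mem a1 a2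
      rwa [dotm_comm E (w k + w o) (w j + w o), add_assoc, ← add_assoc (dotm E (w j + w o) (w k + w o)),
        lieC_twoM, zero_add, dotm_comm] at a3
  obtain ⟨T, hT⟩ : ∃ T : Matrix ν ν (ZMod 2), ∀ i j, i ≠ o → j ≠ o → i ≠ j →
      dotm E (w i + w o) (w j + w o) + T ∈ L := by
    by_cases hex : ∃ k l, k ≠ o ∧ l ≠ o ∧ k ≠ l
    · obtain ⟨k, l, hk, hl, hkl⟩ := hex
      exact ⟨_, fun i j hi hj hij => h2 i j k l hi hj hk hl hij hkl⟩
    · exact ⟨0, fun i j hi hj hij => absurd ⟨i, j, hi, hj, hij⟩ hex⟩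
  let S : (ν → ZMod 2) → AddSubmonoid (ν → ZMod 2) := fun v =>
    { carrier := {u | dotm E u v + (u ⬝ᵥ E *ᵥ v) • T ∈ L}
      zero_mem' := by
        simp only [Set.mem_ofPred_eq, lieC_zero_left, zero_dotProduct, zero_smul, add_zero]
        exact L.zero_mem
      add_mem' := by
        intro a b ha hb
        simp only [Set.mem_ofPred_eq] at ha hb ⊢
        rw [dotm_add_left, add_dotProduct, add_smul, add_add_add_comm]
        exact L.add_mem ha hb }
  have hS : ∀ u v, u ∈ S v ↔ dotm E u v + (u ⬝ᵥ E *ᵥ v) • T ∈ L := fun u v => Iff.rfl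
  have hsw : ∀ u v, u ∈ S v → v ∈ S u := by
    intro u v huv
    rw [hS] at huv ⊢
    rwa [dotm_comm, h.lieC_symm]
  have h3 : ∀ i j, w i + w o ∈ S (w j + w o) := by
    intro i j
    by_cases hi : i = o
    · rw [hi, lieC_two]
      exact (S _).zero_mem
    by_cases hj : j = o
    · apply hsw
      rw [hj, lieC_two]
      exact (S _).zero_mem
    rw [hS]
    by_cases hij : i = j
    · rw [hij, lieC_self, h.alt, zero_smul, add_zero]
      exact L.zero_mem
    · rw [h.lieC_pair hi hj hij, one_smul]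
      exact hT i j hi hj hij
  have h4 : u ∈ S v :=
    h.lieC_ind o _ (fun i => hsw _ _ (h.lieC_ind o _ (fun j => h3 j i) v)) u
  rwa [hS, huv, zero_smul, add_zero] at h4

/-- two hyperbolic pairs are congruent modulo isotropic pairs -/
lemma pair_sum (L : AddSubgroup (Matrix ν ν (ZMod 2)))
    (hL : ∀ u v : ν → ZMod 2, u ⬝ᵥ E *ᵥ v = 0 → dotm E u v ∈ L)
    {u v u' v' : ν → ZMod 2} (huv : u ⬝ᵥ E *ᵥ v = u' ⬝ᵥ E *ᵥ v') :
    dotm E u v + dotm E u' v' ∈ L := by
  rcases lieC_cases (u' ⬝ᵥ E *ᵥ v') with h0 | h1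
  · exact L.add_mem (hL _ _ (huv.trans h0)) (hL _ _ h0)
  have h1' := huv.trans h1
  obtain ⟨z, hz, hz'⟩ : ∃ z, u ⬝ᵥ E *ᵥ z = 1 ∧ u' ⬝ᵥ E *ᵥ z = 1 := by
    rcases lieC_cases (u' ⬝ᵥ E *ᵥ v) with a0 | a1
    · rcases lieC_cases (u ⬝ᵥ E *ᵥ v') with b0 | b1
      · refine ⟨v + v', ?_, ?_⟩
        · rw [mulVec_add, dotProduct_add, h1', b0, add_zero]
        · rw [mulVec_add, dotProduct_add, h1, a0, zero_add]
      · exact ⟨v', b1, h1⟩
    · exact ⟨v, h1', a1⟩
  have e11 : (1 : ZMod 2) + 1 = 0 := by decide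
  have a1 := hL u (v + z) (by rw [mulVec_add, dotProduct_add, h1', hz, e11])
  have a2 := hL (u + u') z (by rw [add_dotProduct, hz, hz', e11])
  have a3 := hL u' (z + v') (by rw [mulVec_add, dotProduct_add, hz', h1, e11])
  have a4 := L.add_mem (L.add_mem a1 a2) a3
  rw [lieC_add_right, dotm_add_left, lieC_add_right] at a4
  have e1 : dotm E u v + dotm E u z + (dotm E u z + dotm E u' z) + (dotm E u' z + dotm E u' v') =
      dotm E u v + dotm E u' v' + (dotm E u z + dotm E u z) + (dotm E u' z + dotm E u' z) := by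
    abel
  rwa [e1, lieC_twoM, lieC_twoM, add_zero, add_zero] at a4

/-- isotropic pairs, squares of edges and one bracket give all of `sp` -/
lemma all_sp (hcard : 3 ≤ Fintype.card ι) (L : AddSubgroup (Matrix ν ν (ZMod 2)))
    (hlie : ∀ Y ∈ L, ∀ Y' ∈ L, Y * Y' - Y' * Y ∈ L)
    (hL : ∀ u v : ν → ZMod 2, u ⬝ᵥ E *ᵥ v = 0 → dotm E u v ∈ L)
    (hsq : ∀ p q : ι, p ≠ q → sqm E (w p + w q) ∈ L)
    {Y : Matrix ν ν (ZMod 2)} (hY : Yᵀ * E + E * Y = 0) : Y ∈ L := by
  obtain ⟨o, p, q, hop, hoq, hpq⟩ := Fintype.two_lt_card_iff.mp (show 2 < Fintype.card ι by omega)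
  have hE : Eᵀ = -E := by
    rw [h.symm, eq_neg_iff_add_eq_zero, lieC_twoM]
  have e1 : (w p + w o) ⬝ᵥ E *ᵥ (w q + w o) = 1 := h.lieC_pair hop.symm hoq.symm hpq
  have h1 : dotm E (w q + w o) (w p + w o) ∈ L := by
    have := hlie _ (hsq q o hoq.symm) _ (hsq p o hop.symm)
    rwa [lie_sqm (sqm_sp hE _), sqm_mulVec, e1, one_smul] at this
  have hdot : ∀ u v, dotm E u v ∈ L := by
    intro u v
    rcases lieC_cases (u ⬝ᵥ E *ᵥ v) with a0 | a1
    · exact hL u v a0
    · have a2 := h.pair_sum L hL (u := u) (v := v) (u' := w q + w o) (v' := w p + w o)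
        (by rw [a1, h.lieC_symm, e1])
      have a3 := L.add_mem a2 h1
      rwa [add_assoc, lieC_twoM, add_zero] at a3
  have hs0 : sqm E 0 = 0 := by simp [sqm]
  let S : AddSubmonoid (ν → ZMod 2) :=
    { carrier := {u | sqm E u ∈ L}
      zero_mem' := by
        simp only [Set.mem_ofPred_eq, hs0]
        exact L.zero_mem
      add_mem' := by
        intro a b ha hb
        simp only [Set.mem_ofPred_eq] at ha hb ⊢
        rw [sqm_add]
        exact L.add_mem (L.add_mem ha hb) (hdot a b) }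
  have hsqm : ∀ u, sqm E u ∈ L := by
    intro u
    refine h.lieC_ind o S (fun i => ?_) u
    by_cases hi : i = o
    · rw [hi, lieC_two]
      exact S.zero_mem
    · exact hsq i o hi
  have hu := h.isUnit_det
  obtain ⟨A, hA⟩ : ∃ A, A = Y * E⁻¹ := ⟨_, rfl⟩
  have hYA : Y = A * Eᵀ := by
    rw [h.symm, hA, Matrix.nonsing_inv_mul_cancel_right _ _ hu]
  have hsym : Aᵀ = A := by
    have a1 : Yᵀ * E = E * Y := by
      have := congrArg (· + E * Y) hY
      simpa only [add_assoc, lieC_twoM, add_zero, zero_add] using this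
    have a2 : E * (Aᵀ * E) = E * (A * E) := by
      have a3 : Yᵀ = E * Aᵀ := by rw [hYA, transpose_mul, transpose_transpose]
      rw [← Matrix.mul_assoc, ← a3, a1, hYA, h.symm]
    have a4 := congrArg (fun B => E⁻¹ * B * E⁻¹) a2
    simpa only [Matrix.nonsing_inv_mul_cancel_left _ _ hu,
      Matrix.mul_nonsing_inv_cancel_right _ _ hu] using a4
  let f : ν → ℕ := fun i => (Fintype.equivFin ν i : ℕ)
  have hf : ∀ i j, f i = f j → i = j := fun i j hij =>
    (Fintype.equivFin ν).injective (Fin.ext hij)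
  let U : ν → ν → ZMod 2 := fun i j => if f i < f j then A i j else 0
  have hv : ∀ u v : ν → ZMod 2, vecMulVec u (E *ᵥ v) = vecMulVec u v * Eᵀ := by
    intro u v
    rw [vecMulVec_mul, vecMul_transpose]
  have hdec : A = ∑ i, (vecMulVec (Pi.single i 1) (U i) + vecMulVec (U i) (Pi.single i 1)) +
      ∑ i, vecMulVec (Pi.single i (A i i)) (Pi.single i (A i i)) := by
    ext a b
    have hab : A b a = A a b := by
      have := congrFun (congrFun hsym a) b
      exact this
    have hsq' : A a a * A a a = A a a := by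
      rcases lieC_cases (A a a) with c | c <;> rw [c] <;> simp
    simp only [Matrix.add_apply, Matrix.sum_apply, vecMulVec_apply, Pi.single_apply, ite_mul,
      mul_ite, one_mul, mul_one, zero_mul, mul_zero, Finset.sum_add_distrib, Finset.sum_ite_eq,
      Finset.mem_univ, if_true]
    simp only [U]
    rcases lt_trichotomy (f a) (f b) with c | c | c
    · have hne : a ≠ b := fun e => by rw [e] at c; exact lt_irrefl _ c
      simp [c, not_lt.mpr c.le, hne]
    · have he := hf a b c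
      subst he
      simp [hsq']
    · have hne : a ≠ b := fun e => by rw [e] at c; exact lt_irrefl _ c
      simp [c, not_lt.mpr c.le, hne, hab]
  rw [hYA, hdec, Matrix.add_mul, Matrix.sum_mul, Matrix.sum_mul]
  refine L.add_mem (L.sum_mem fun i _ => ?_) (L.sum_mem fun i _ => ?_)
  · rw [Matrix.add_mul, ← hv, ← hv]
    exact hdot _ _
  · rw [← hv]
    exact hsqm _

end WData

end

end Pool.Agent.Lib.MP_33b3f9_ag
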