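import Pool.Agent.Lib.MP_33b3f9_ag.LieC
import Pool.Agent.Lib.MP_33b3f9_ag.Lev

/-!
Division by two.
-/

open Matrix

namespace Pool.Agent.Lib.MP_33b3f9_ag

noncomputable section

variable {ν ι : Type} [Fintype ν] [DecidableEq ν] [Fintype ι] [DecidableEq ι]

variable {Γ : Type*} [Group Γ] {r : Γ →* Matrix ν ν ℤ_[2]}

omit [Fintype ι] [DecidableEq ι] [DecidableEq ν] in
lemma lieD_map_dotm (E : Matrix ν ν ℤ_[2]) (u v : ν → ℤ_[2]) :
    (dotm E u v).map red = dotm (E.map red) (red ∘ u) (red ∘ v) := by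
  ext i j
  simp [dotm, vecMulVec_apply, RingHom.map_mulVec]

omit [Fintype ι] [DecidableEq ι] [DecidableEq ν] in
lemma lieD_map_sqm (E : Matrix ν ν ℤ_[2]) (u : ν → ℤ_[2]) :
    (sqm E u).map red = sqm (E.map red) (red ∘ u) := by
  ext i j
  simp [sqm, vecMulVec_apply, RingHom.map_mulVec]

omit [Fintype ι] [DecidableEq ι] [DecidableEq ν] in
lemma lieD_red_dot (E : Matrix ν ν ℤ_[2]) (x y : ν → ℤ_[2]) :
    (red ∘ x) ⬝ᵥ (E.map red) *ᵥ (red ∘ y) = red (x ⬝ᵥ E *ᵥ y) := by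
  rw [RingHom.map_dotProduct]
  congr 1
  ext i
  simp [RingHom.map_mulVec]

omit [Fintype ν] [DecidableEq ν] [Fintype ι] [DecidableEq ι] in
lemma lieD_lift (x : ν → ZMod 2) : ∃ y : ν → ℤ_[2], red ∘ y = x :=
  ⟨fun i => ((x i).val : ℤ_[2]), by ext i; simp⟩

omit [Fintype ν] [DecidableEq ν] [Fintype ι] [DecidableEq ι] in
lemma lieD_cancel {c : ℤ_[2]} (hc : c ≠ 0) {M : Matrix ν ν ℤ_[2]} (h : c • M = 0) : M = 0 := by
  ext i j
  have := congrFun (congrFun h i) j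
  simpa [hc] using this

omit [Fintype ι] [DecidableEq ι] in
/-- the second digit of an element of `Sp` whose first digit is in `sp` -/
lemma lieD_second {E D X : Matrix ν ν ℤ_[2]} {n : ℕ} (hn : 2 ≤ n) (hD : Dᵀ * E + E * D = 0)
    (h : (1 + (2 : ℤ_[2]) ^ n • (D + (2 : ℤ_[2]) • X))ᵀ * E *
      (1 + (2 : ℤ_[2]) ^ n • (D + (2 : ℤ_[2]) • X)) = E) :
    (X.map red)ᵀ * E.map red + E.map red * X.map red = 0 := by
  obtain ⟨m, rfl⟩ : ∃ m, n = m + 2 := ⟨n - 2, by omega⟩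
  set Y := D + (2 : ℤ_[2]) • X with hY
  have h1 : ((2 : ℤ_[2]) ^ (m + 2) * 2) • ((Xᵀ * E + E * X) +
      (2 : ℤ_[2]) • ((2 : ℤ_[2]) ^ m • (Yᵀ * E * Y))) = 0 := by
    have h2 : Yᵀ * E + E * Y = (2 : ℤ_[2]) • (Xᵀ * E + E * X) := by
      rw [hY, transpose_add, transpose_smul, add_mul, mul_add, smul_mul_assoc, mul_smul_comm,
        smul_add]
      rw [← sub_eq_zero] at hD ⊢
      rw [← hD]; abel
    simp only [transpose_add, transpose_one, transpose_smul, add_mul, mul_add, one_mul, mul_one,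
      smul_mul_assoc, mul_smul_comm] at h
    have h3 : (2 : ℤ_[2]) ^ (m + 2) • (Yᵀ * E + E * Y) +
        (2 : ℤ_[2]) ^ (m + 2) • (2 : ℤ_[2]) ^ (m + 2) • (Yᵀ * E * Y) = 0 := by
      rw [← sub_eq_zero] at h
      rw [← h, smul_add, smul_add]; abel
    rw [h2] at h3
    rw [← h3, smul_add, smul_smul, smul_smul, smul_smul, smul_smul]
    congr 2
    ring
  have h4 := lieD_cancel (mul_ne_zero (pow_ne_zero _ two_ne_zero) two_ne_zero) h1
  have h5 := (map_red_eq_iff (Xᵀ * E + E * X) 0).mpr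
    ⟨-((2 : ℤ_[2]) ^ m • (Yᵀ * E * Y)), by rw [zero_add, smul_neg, eq_neg_iff_add_eq_zero, h4]⟩
  rw [Matrix.map_add _ (map_add red), Matrix.map_mul, Matrix.map_mul,
    Matrix.map_zero _ (map_zero red)] at h5
  exact h5

omit [Fintype ι] [DecidableEq ι] [DecidableEq ν] in
lemma lieD_sp_pair {E X : Matrix ν ν (ZMod 2)} (hX : Xᵀ * E + E * X = 0) (u v : ν → ZMod 2) :
    (X *ᵥ u) ⬝ᵥ E *ᵥ v = u ⬝ᵥ E *ᵥ (X *ᵥ v) := by
  have h1 : u ⬝ᵥ (Xᵀ * E + E * X) *ᵥ v = 0 := by rw [hX]; simp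
  rw [add_mulVec, dotProduct_add, ← mulVec_mulVec, ← mulVec_mulVec, dotProduct_mulVec u Xᵀ,
    vecMul_transpose] at h1
  have h2 : ∀ x y : ZMod 2, x + y = 0 → x = y := by decide
  exact h2 _ _ h1

lemma lieD_three (hcard : 5 ≤ Fintype.card ι) (p q : ι) :
    ∃ s t m : ι, s ≠ t ∧ s ≠ m ∧ t ≠ m ∧ s ≠ p ∧ s ≠ q ∧ t ≠ p ∧ t ≠ q ∧ m ≠ p ∧ m ≠ q := by
  have h1 : 2 < (Finset.univ \ ({p, q} : Finset ι)).card := by
    rw [Finset.card_univ_sdiff]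
    have := Finset.card_le_two (a := p) (b := q)
    omega
  obtain ⟨s, t, m, hs, ht, hm, h2, h3, h4⟩ := Finset.two_lt_card_iff.mp h1
  simp only [Finset.mem_sdiff, Finset.mem_univ, Finset.mem_insert, Finset.mem_singleton,
    true_and, not_or] at hs ht hm
  exact ⟨s, t, m, h2, h3, h4, hs.1, hs.2, ht.1, ht.2, hm.1, hm.2⟩

/-- division by two: squares of edges are leading terms of the subgroup preserving `E` -/
theorem sq_linf {E : Matrix ν ν ℤ_[2]} (hE : Eᵀ = -E) {w : ι → ν → ZMod 2}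
    (h : WData (E.map red) w) (hcard : 5 ≤ Fintype.card ι) (H : Subgroup Γ)
    (hH : ∀ σ ∈ H, (r σ)ᵀ * E * r σ = E)
    (hL : ∀ u v : ν → ZMod 2, u ⬝ᵥ (E.map red) *ᵥ v = 0 → dotm (E.map red) u v ∈ Linf r H)
    {p q : ι} (hpq : p ≠ q) : sqm (E.map red) (w p + w q) ∈ Linf r H := by
  obtain ⟨s, t, m, hst, hsm, htm, hsp, hsq, htp, htq, hmp, hmq⟩ := lieD_three hcard p q
  obtain ⟨u, hu⟩ := lieD_lift (w p + w q)
  obtain ⟨v, hv⟩ := lieD_lift (w s + w t)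
  obtain ⟨z, hz⟩ := lieD_lift (w t + w m)
  have h11 : (1 : ZMod 2) + 1 = 0 := rfl
  have huv : (red ∘ u) ⬝ᵥ (E.map red) *ᵥ (red ∘ v) = 0 := by
    rw [hu, hv]
    simp only [mulVec_add, add_dotProduct, dotProduct_add, h.pair, hsp.symm, hsq.symm, htp.symm,
      htq.symm, if_false, h11]
    simp
  have huz : (red ∘ u) ⬝ᵥ (E.map red) *ᵥ (red ∘ z) = 0 := by
    rw [hu, hz]
    simp only [mulVec_add, add_dotProduct, dotProduct_add, h.pair, hmp.symm, hmq.symm, htp.symm,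
      htq.symm, if_false, h11]
    simp
  have hzu : (red ∘ z) ⬝ᵥ (E.map red) *ᵥ (red ∘ u) = 0 := by
    rw [hu, hz]
    simp only [mulVec_add, add_dotProduct, dotProduct_add, h.pair, hmp, hmq, htp,
      htq, if_false, h11]
    simp
  have hzv : (red ∘ z) ⬝ᵥ (E.map red) *ᵥ (red ∘ v) = 1 := by
    rw [hv, hz]
    simp only [mulVec_add, add_dotProduct, dotProduct_add, h.pair, hst.symm, hsm.symm, htm.symm,
      if_false, if_true, h11]
    simp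
  obtain ⟨n₁, hn₁, l₁⟩ := hL _ _ huv
  obtain ⟨n₂, hn₂, l₂⟩ := hL _ _ huz
  have hn : 2 ≤ max n₁ n₂ := le_max_of_le_left hn₁
  obtain ⟨σ, hσ, X₁, hX₁, hX₁'⟩ := l₁.mono hn₁ (le_max_left n₁ n₂)
  obtain ⟨τ, hτ, Y₁, hY₁, hY₁'⟩ := l₂.mono hn₂ (le_max_right n₁ n₂)
  rw [← lieD_map_dotm] at hX₁' hY₁'
  obtain ⟨X, rfl⟩ := (map_red_eq_iff _ _).mp hX₁'
  obtain ⟨Y, rfl⟩ := (map_red_eq_iff _ _).mp hY₁'
  have hX := lieD_second hn (dotm_sp hE u v) (by rw [← hX₁]; exact hH σ hσ)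
  have hY := lieD_second hn (dotm_sp hE u z) (by rw [← hY₁]; exact hH τ hτ)
  obtain ⟨W, hW, hc⟩ := comm_eq (by omega) (by omega) hX₁ hY₁
  rw [lieD_red_dot] at huv hzu hzv
  obtain ⟨α, hα⟩ := (red_eq_zero_iff _).mp huv
  obtain ⟨γ, hγ⟩ := (red_eq_zero_iff _).mp hzu
  have huu : u ⬝ᵥ E *ᵥ u = 0 := by
    have h1 : u ⬝ᵥ E *ᵥ u = -(u ⬝ᵥ E *ᵥ u) := by
      conv_lhs => rw [dotProduct_mulVec, ← mulVec_transpose, hE, dotProduct_comm, neg_mulVec,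
        dotProduct_neg]
    exact self_eq_neg.mp h1
  set D₁ := dotm E u v with hD₁
  set D₂ := dotm E u z with hD₂
  have hD : D₁ * D₂ - D₂ * D₁ =
      (2 : ℤ_[2]) • (α • D₂ + (z ⬝ᵥ E *ᵥ v) • sqm E u + γ • D₁) := by
    rw [hD₂, lie_dotm (dotm_sp hE u v), dotm_mulVec, dotm_mulVec, huu, zero_smul, add_zero, hα, hγ,
      dotm_smul_left, dotm_comm E u (_ + _), dotm_add_left, dotm_smul_left, dotm_smul_left,
      dotm_self, dotm_comm E v u, ← hD₁]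
    simp only [smul_add, smul_smul, mul_comm, add_assoc]
  set Z : Matrix ν ν ℤ_[2] := α • D₂ + (z ⬝ᵥ E *ᵥ v) • sqm E u + γ • D₁ +
    ((X * D₂ - D₂ * X) - (Y * D₁ - D₁ * Y)) + (2 : ℤ_[2]) • (X * Y - Y * X) with hZ
  have hZ' : (D₁ + (2 : ℤ_[2]) • X) * (D₂ + (2 : ℤ_[2]) • Y) -
      (D₂ + (2 : ℤ_[2]) • Y) * (D₁ + (2 : ℤ_[2]) • X) = (2 : ℤ_[2]) • Z := by
    rw [hZ, smul_add, smul_add, ← hD]
    simp only [add_mul, mul_add, smul_mul_assoc, mul_smul_comm, smul_add, smul_sub]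
    abel
  have hmem : Z.map red ∈ Linf r H := by
    refine ⟨max n₁ n₂ + max n₁ n₂ + 1, by omega, σ * τ * σ⁻¹ * τ⁻¹,
      H.mul_mem (H.mul_mem (H.mul_mem hσ hτ) (H.inv_mem hσ)) (H.inv_mem hτ), Z * W, ?_, ?_⟩
    · rw [hc, hZ', smul_mul_assoc, smul_smul, ← pow_succ]
    · rw [Matrix.map_mul, hW, mul_one]
  have hsm : ∀ (c : ℤ_[2]) (M : Matrix ν ν ℤ_[2]), (c • M).map red = red c • M.map red :=
    fun c M => by ext i j; simp
  have h2 : red (2 : ℤ_[2]) = 0 := (red_eq_zero_iff _).mpr ⟨1, by simp⟩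
  have hZm : Z.map red = sqm (E.map red) (red ∘ u) + (red α • D₂.map red + red γ • D₁.map red +
      ((X.map red * D₂.map red - D₂.map red * X.map red) -
        (Y.map red * D₁.map red - D₁.map red * Y.map red))) := by
    rw [hZ]
    simp only [Matrix.map_add _ (map_add red), Matrix.map_sub _ (map_sub red), Matrix.map_mul, hsm,
      h2, hzv, lieD_map_sqm, one_smul, zero_smul]
    abel
  have hsmul : ∀ (c : ZMod 2) {M}, M ∈ Linf r H → c • M ∈ Linf r H := by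
    intro c M hM
    have h01 : ∀ e : ZMod 2, e = 0 ∨ e = 1 := by decide
    rcases h01 c with rfl | rfl
    · rw [zero_smul]; exact zero_mem _
    · rwa [one_smul]
  have hD₁m : D₁.map red ∈ Linf r H := by
    rw [hD₁, lieD_map_dotm]; exact ⟨n₁, hn₁, l₁⟩
  have hD₂m : D₂.map red ∈ Linf r H := by
    rw [hD₂, lieD_map_dotm]; exact ⟨n₂, hn₂, l₂⟩
  have hbr : ∀ (A : Matrix ν ν (ZMod 2)) (x y : ν → ℤ_[2]),
      Aᵀ * E.map red + E.map red * A = 0 →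
      A * (dotm E x y).map red - (dotm E x y).map red * A ∈ Linf r H := by
    intro A x y hA
    rw [lieD_map_dotm, lie_dotm hA]
    exact h.pair_sum _ hL (lieD_sp_pair hA _ _)
  rw [hZm] at hmem
  rw [← hu]
  exact (AddSubgroup.add_mem_cancel_right _ (add_mem (add_mem (hsmul _ hD₂m) (hsmul _ hD₁m))
    (sub_mem (hbr _ _ _ hX) (hbr _ _ _ hY)))).mp hmem

end

end Pool.Agent.Lib.MP_33b3f9_ag
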