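import Mathlib

/-!
Definitions used in the statement: the hyperelliptic curve `y^2 = prod (x - a_i)`, its Jacobian
(as the Picard group of the affine coordinate ring; the curve has one point at infinity),
the Galois action, 2-adic Tate data, the Kummer-Laplacian criterion, algebraic subgroups of
`GL_n` and the Mumford-Tate group of a complex structure.
-/

open Polynomial

namespace Pool.Agent.Lib.MP_33b3f9_ag

noncomputable section

section generic

/-- The ring `A[y]/(y^2 - f)`. -/
def Quad {A : Type*} [CommRing A] (f : A) : Type _ := AdjoinRoot (X ^ 2 - C f : A[X])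

instance {A : Type*} [CommRing A] (f : A) : CommRing (Quad f) :=
  AdjoinRoot.instCommRing (X ^ 2 - C f : A[X])

/-- The endomorphism of `A[y]/(y^2 - f)` that fixes `y` and extends `φ`. -/
def quadMap {A : Type*} [CommRing A] {f : A} (φ : A →+* A) (h : φ f = f) : Quad f →+* Quad f :=
  AdjoinRoot.map φ (X ^ 2 - C f) (X ^ 2 - C f) (by simp [h])

/-- The Picard group, written additively. -/
def APic (R : Type*) [CommRing R] : Type _ := Additive (CommRing.Pic R)

instance (R : Type*) [CommRing R] : AddCommGroup (APic R) :=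
  Additive.addCommGroup (α := CommRing.Pic R)

/-- The map induced by a ring endomorphism on the Picard group. -/
def picMap {R : Type*} [CommRing R] (φ : R →+* R) (P : APic R) : APic R :=
  Additive.ofMul (CommRing.Pic.mapRingHom φ (Additive.toMul P))

/-- `π` identifies `ℚ_2^ν / ℤ_2^ν` with the 2-power torsion of `J`, and `ρ σ` is the matrix of
the action `f σ` on the rational Tate module `ℚ_2^ν`. -/
def Tate {ν : Type} [Fintype ν] [DecidableEq ν] {J Γ : Type*} [AddCommGroup J] (f : Γ → J → J)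
    (π : (ν → ℚ_[2]) →+ J) (ρ : Γ → GL ν ℚ_[2]) : Prop :=
  (∀ x, π x = 0 ↔ ∀ i, ‖x i‖ ≤ 1) ∧ (∀ P, (∃ x, π x = P) ↔ ∃ n : ℕ, 2 ^ n • P = 0) ∧
    ∀ σ x, π ((ρ σ : Matrix ν ν ℚ_[2]).mulVec x) = f σ (π x)

/-- `Y` lies in every additive subgroup that contains `X + X^2` and is stable under
`Z ↦ XZ - ZX` for all `X` in `M`. -/
def InClosure {A : Type*} [Ring A] (M : Set A) (Y : A) : Prop :=
  ∀ L : AddSubgroup A, (∀ X ∈ M, X + X * X ∈ L) → (∀ X ∈ M, ∀ Z ∈ L, X * Z - Z * X ∈ L) → Y ∈ L

end generic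

section curve

variable {k₁ : Type*} [Field k₁] (k : Type*) [Field k] [Algebra k₁ k] {ι : Type} [Fintype ι]

/-- The polynomial `prod (x - a_i)` over `k`. -/
def hyp (a : ι → k₁) : k[X] := ∏ i, (X - C (algebraMap k₁ k (a i)))

variable {k}

lemma hyp_map (a : ι → k₁) (σ : k ≃ₐ[k₁] k) : (hyp k a).map (σ : k →+* k) = hyp k a := by
  simp [hyp, Polynomial.map_prod]

/-- The action of `σ` on `J(k) = Pic (k[x,y]/(y^2 - prod (x - a_i)))` through the coefficients. -/
def gal (a : ι → k₁) (σ : k ≃ₐ[k₁] k) : APic (Quad (hyp k a)) → APic (Quad (hyp k a)) :=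
  picMap (quadMap (Polynomial.mapRingHom (σ : k →+* k)) (hyp_map a σ))

end curve

section crit

variable {k₁ : Type*} [Field k₁] {ι : Type} [Fintype ι] [DecidableEq ι]

/-- A character of `k₁^*` with values in `ℤ/2`. -/
def IsChar (χ : k₁ → ZMod 2) : Prop := ∀ x y, x ≠ 0 → y ≠ 0 → χ (x * y) = χ x + χ y

/-- The mod 2 Laplacian: entry `χ (a_i - a_j)` off the diagonal, row sums zero. -/
def lap (a : ι → k₁) (χ : k₁ → ZMod 2) : Matrix ι ι (ZMod 2) :=
  Matrix.of fun i j => if i = j then ∑ m ∈ Finset.univ.erase i, χ (a i - a m) else χ (a i - a j)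

/-- The adjacency matrix of the 4-cycle `p q r s`. -/
def cyc (p q r s : ι) : Matrix ι ι (ZMod 2) :=
  Matrix.of fun i j =>
    if ((i = p ∨ i = r) ∧ (j = q ∨ j = s)) ∨ ((i = q ∨ i = s) ∧ (j = p ∨ j = r)) then 1 else 0

/-- The closure of the Laplacians contains the adjacency matrices of all 4-cycles. -/
def Kummer (a : ι → k₁) : Prop :=
  ∀ p q r s : ι, [p, q, r, s].Nodup → InClosure {X | ∃ χ, IsChar χ ∧ X = lap a χ} (cyc p q r s)

/-- Some character is `1` exactly on the differences of two roots with index in `S`. -/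
def Iso (a : ι → k₁) (S : Set ι) : Prop :=
  ∃ χ, IsChar χ ∧ ∀ p q, p ≠ q → (χ (a p - a q) = 1 ↔ p ∈ S ∧ q ∈ S)

/-- The isolated pairs form a connected graph. -/
def Edges (a : ι → k₁) : Prop := (SimpleGraph.fromRel fun i j => Iso a {i, j}).Connected

/-- The roots are indexed by `ℤ/3 × ℤ/n`, and the triples with sum zero that meet the three
classes are isolated. -/
def Net (a : ι → k₁) : Prop :=
  ∃ (n : ℕ) (e : ZMod 3 × ZMod n ≃ ι), ∀ x y z, x + y + z = 0 → x.1 ≠ y.1 → Iso a {e x, e y, e z}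

/-- `f'(a_i)` is not a square for some root, and each root is fixed by a group of exponent 2 of
permutations of the roots that are induced by field endomorphisms and permute the other roots
transitively (as for `SL_2(2^m)` acting on the projective line). -/
def SLTwo (a : ι → k₁) : Prop :=
  (∃ i, ¬ IsSquare (∏ j ∈ Finset.univ.erase i, (a i - a j))) ∧
    ∀ i, ∃ U : Subgroup (Equiv.Perm ι),
      (∀ u ∈ U, u i = i ∧ u * u = 1 ∧ ∃ σ : k₁ →+* k₁, ∀ j, σ (a j) = a (u j)) ∧
        ∀ p q, p ≠ i → q ≠ i → ∃ u ∈ U, u p = q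

end crit

section alg

variable {ν : Type} [Fintype ν] [DecidableEq ν]

/-- The value of a polynomial in the matrix entries at a matrix. -/
def evalM {F Ω : Type*} [Field F] [Field Ω] [Algebra F Ω] (g : Matrix ν ν Ω)
    (P : MvPolynomial (ν × ν) F) : Ω :=
  MvPolynomial.aeval (fun p : ν × ν => g p.1 p.2) P

/-- The `Ω`-points of the closed subvariety of `GL_ν` with equations `S`. -/
def zeroSet {F : Type*} [Field F] (Ω : Type*) [Field Ω] [Algebra F Ω]
    (S : Set (MvPolynomial (ν × ν) F)) : Set (GL ν Ω) :=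
  {g | ∀ P ∈ S, evalM (g : Matrix ν ν Ω) P = 0}

/-- The `Ω`-points of the Zariski closure over `F` of a set of `F`-points. -/
def zcl {F : Type*} [Field F] (Ω : Type*) [Field Ω] [Algebra F Ω] (T : Set (GL ν F)) :
    Set (GL ν Ω) :=
  zeroSet Ω {P : MvPolynomial (ν × ν) F | ∀ h ∈ T, evalM (h : Matrix ν ν F) P = 0}

/-- The equations `S` define an algebraic subgroup of `GL_ν` over `F`. -/
def IsAlgSubgroup {F : Type*} [Field F] (S : Set (MvPolynomial (ν × ν) F)) : Prop :=
  ∃ H : Subgroup (GL ν (AlgebraicClosure F)), (H : Set _) = zeroSet (AlgebraicClosure F) S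

/-- Equations of the Mumford-Tate group of the complex structure `I` on `ℚ^ν ⊗ ℝ`: the
intersection of all algebraic subgroups over `ℚ` whose real points contain `h(u + i v) = u + v I`
for all `u + i v ≠ 0`. -/
def mtEqns (I : Matrix ν ν ℝ) : Set (MvPolynomial (ν × ν) ℚ) :=
  ⋃₀ {S | IsAlgSubgroup S ∧ ∀ u v : ℝ, (u, v) ≠ 0 → ∀ P ∈ S, evalM (u • 1 + v • I) P = 0}

/-- `I` is a complex structure that has a Riemann form. -/
def Polarizable (I : Matrix ν ν ℝ) : Prop :=
  I * I = -1 ∧ ∃ ψ : Matrix ν ν ℚ, ψ.transpose = -ψ ∧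
    I.transpose * ψ.map (Rat.cast : ℚ → ℝ) * I = ψ.map (Rat.cast : ℚ → ℝ) ∧
    (ψ.map (Rat.cast : ℚ → ℝ) * I).PosDef

/-- The `Ω`-points of the group of similitudes of the form with Gram matrix `E`. -/
def gsp {F : Type*} [Field F] (Ω : Type*) [Field Ω] [Algebra F Ω] (E : Matrix ν ν F) :
    Set (GL ν Ω) :=
  {g | ∃ m : Ω, (g : Matrix ν ν Ω).transpose * E.map (algebraMap F Ω) * g =
    m • E.map (algebraMap F Ω)}

/-- The group `T` of 2-adic matrices has Zariski closure `GSp(E)`, and it is Zariski dense in the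
Mumford-Tate group of every polarizable complex structure whose Mumford-Tate group contains it. -/
def BigMT (E : Matrix ν ν ℚ_[2]) (T : Set (GL ν ℚ_[2])) : Prop :=
  zcl (AlgebraicClosure ℚ_[2]) T = gsp (AlgebraicClosure ℚ_[2]) E ∧
    ∀ I : Matrix ν ν ℝ, Polarizable I → T ⊆ zeroSet ℚ_[2] (mtEqns I) →
      zcl (AlgebraicClosure ℚ_[2]) T = zeroSet (AlgebraicClosure ℚ_[2]) (mtEqns I)

variable (ν) in
/-- Tate data for the action `f` of `Γ` on `J` exist, and for any such data there is a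
nondegenerate alternating `E` with `BigMT` for the image of every subgroup of finite index. -/
def MTHolds {J Γ : Type*} [AddCommGroup J] [Group Γ] (f : Γ → J → J) : Prop :=
  (∃ (π : (ν → ℚ_[2]) →+ J) (ρ : Γ → GL ν ℚ_[2]), Tate f π ρ) ∧
    ∀ (π : (ν → ℚ_[2]) →+ J) (ρ : Γ → GL ν ℚ_[2]), Tate f π ρ →
      ∃ E : Matrix ν ν ℚ_[2], E.transpose = -E ∧ E.det ≠ 0 ∧
        ∀ U : Subgroup Γ, U.FiniteIndex → BigMT E (ρ '' U)

end alg

end

end Pool.Agent.Lib.MP_33b3f9_ag
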