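import Pool.Agent.Lib.MP_33b3f9_ag.TateEx
import Pool.Agent.Lib.MP_33b3f9_ag.Tate
import Pool.Agent.Lib.MP_33b3f9_ag.Lie
import Pool.Agent.Lib.MP_33b3f9_ag.Dense
import Pool.Agent.Lib.MP_33b3f9_ag.Cyclo
import Pool.Agent.Lib.MP_33b3f9_ag.Zar
import Pool.Agent.Lib.MP_33b3f9_ag.MT

/-!
Assembly.
-/

open Matrix

namespace Pool.Agent.Lib.MP_33b3f9_ag

theorem main {k₁ : Type*} [Field k₁] [CharZero k₁] (hfg : (⊤ : IntermediateField ℚ k₁).FG)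
    {k : Type*} [Field k] [Algebra k₁ k] [IsAlgClosure k₁ k] (g : ℕ) (hg : 3 ≤ g)
    (a : Fin (2 * g + 1) → k₁) (hinj : Function.Injective a) (hc : Crit a)
    (π : (Fin (2 * g) → ℚ_[2]) →+ Jac k a) (ρ : (k ≃ₐ[k₁] k) → GL (Fin (2 * g)) ℚ_[2])
    (h : IsTate a π ρ) :
    ∃ E : Matrix (Fin (2 * g)) (Fin (2 * g)) ℚ_[2], E.transpose = -E ∧ E.det ≠ 0 ∧
      ∀ U : Subgroup (k ≃ₐ[k₁] k), U.FiniteIndex →
        zcl (AlgebraicClosure ℚ_[2]) (ρ '' U) = gsp (AlgebraicClosure ℚ_[2]) E ∧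
        ∀ I : Matrix (Fin (2 * g)) (Fin (2 * g)) ℝ, Polarizable I →
          ρ '' U ⊆ zeroSet ℚ_[2] (mtEqns I) →
          zcl (AlgebraicClosure ℚ_[2]) (ρ '' U) = zeroSet (AlgebraicClosure ℚ_[2]) (mtEqns I) := by
  have hodd : Odd (Fintype.card (Fin (2 * g + 1))) := by simp
  obtain ⟨χ, hχ⟩ := exists_cyclo (k₁ := k₁) (k := k)
  obtain ⟨r, E, w, hρ, hE, hw, hm, hK⟩ := tate_data a hodd hinj π ρ h χ hχ
  haveI : Nonempty (Fin (2 * g)) := ⟨⟨0, by omega⟩⟩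
  have hdet : E.det ≠ 0 := by
    intro h0
    have := hw.isUnit_det
    rw [← RingHom.mapMatrix_apply, ← RingHom.map_det, h0, map_zero] at this
    exact not_isUnit_zero this
  have hE' : (E.map ((↑) : ℤ_[2] → ℚ_[2])).transpose = -E.map ((↑) : ℤ_[2] → ℚ_[2]) := by
    ext i j
    have := congrFun (congrFun hE i) j
    simp only [transpose_apply, neg_apply] at this
    simp [this]
  have hdet' : (E.map ((↑) : ℤ_[2] → ℚ_[2])).det ≠ 0 := by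
    have := RingHom.map_det (PadicInt.Coe.ringHom (p := 2)) E
    intro h0
    apply hdet
    apply Subtype.ext
    exact this.trans h0
  refine ⟨E.map (↑), hE', hdet', fun U hU => ?_⟩
  have hsp : ∀ Y : Matrix (Fin (2 * g)) (Fin (2 * g)) (ZMod 2),
      Yᵀ * E.map red + E.map red * Y = 0 → Y ∈ Linf r χ.ker := fun Y hY =>
    sp_linf hE hw (by simp; omega) χ hm (fun p q s t hn => crit_linf hc hw hK hn) hY
  obtain ⟨n, hn⟩ := dense_of_Linf E χ.ker (fun σ hσ => by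
    rw [hm σ, MonoidHom.mem_ker.mp hσ]; simp) hsp U
  have hz := zcl_eq_gsp (Ω := AlgebraicClosure ℚ_[2]) r ρ hρ hE hdet χ hm U
    (cyclo_infinite hfg χ hχ U) n hn
  exact ⟨hz, fun I hI hT => zcl_eq_mt hE' hdet' _ hz hI hT⟩

end Pool.Agent.Lib.MP_33b3f9_ag
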