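import Pool.Agent.Lib.MP_33b3f9_ag.M4.Core
import Pool.Agent.Lib.MP_33b3f9_ag.M4.IBridge
import Pool.Agent.Lib.MP_33b3f9_ag.M4.MxMain

/-!
The Mumford-Tate conjecture for abelian fourfolds whose Galois image is of Mumford type.
-/

open Matrix Pool.Agent.M4 Pool.Agent.Lib.MP_33b3f9_ag

theorem M4.mumfordFourfoldOld
    (τ : Matrix (Fin 4) (Fin 4) ℂ) (K : IntermediateField ℚ ℂ) [FiniteDimensional ℚ K]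
    (r : ∀ (ℓ : ℕ) [Fact ℓ.Prime], (ℂ ≃ₐ[K] ℂ) →* GL ν ℤ_[ℓ]) (I : Matrix ν ν ℝ)
    (F : Type) [Field F] [NumberField F] [NumberField.IsTotallyReal F]
    (N : Matrix (Fin 2) (Fin 2) F → Matrix ν ν ℚ) (ℓ₀ : ℕ)
    (hτ : Siegel τ) (hK : DefinedOver τ K) (hr : IsTate τ K r)
    (hI : ∀ x, per τ (I *ᵥ x) = Complex.I • per τ x) (hF : Module.finrank ℚ F = 3)
    (hN : IsTensInd N) (hB : ∀ (ℓ : ℕ) [Fact ℓ.Prime], ℓ₀ < ℓ → BigImage N (r ℓ)) :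
    ∃ ℓ₁ : ℕ, ∀ (ℓ : ℕ) [Fact ℓ.Prime] (U : Subgroup (ℂ ≃ₐ[K] ℂ)), U.FiniteIndex →
      (fun σ => toQ (r ℓ σ)) '' U ⊆ zeroSet ℚ_[ℓ] (mtEqns I) →
      (ℓ₁ < ℓ ∨ HasCube (zcl (AlgebraicClosure ℚ_[ℓ]) ((fun σ => toQ (r ℓ σ)) '' U))) →
      zcl (AlgebraicClosure ℚ_[ℓ]) ((fun σ => toQ (r ℓ σ)) '' U) =
        zeroSet (AlgebraicClosure ℚ_[ℓ]) (mtEqns I) := by
  have h := M4.Bridge.av hτ hK hr
  refine (Mx.final K r hτ hI hF hN hB (M4.Kz.mu h) ?_).2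
  rw [M4.Bridge.eq_cst hτ hI]
  exact M4.Blk.core h F hF N hN ℓ₀ hB
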