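import Pool.Agent.Lib.MP_33b3f9_ag.Tree

/-!
Two sufficient conditions for the criterion: isolated pairs that form a connected graph, and
isolated triples that form a net.
-/

namespace Pool.Agent.Lib.MP_33b3f9_ag

open Matrix

variable {k₁ : Type*} [Field k₁] {ι : Type} [Fintype ι] [DecidableEq ι]

lemma Net_val {x : ZMod 2} {P : Prop} [Decidable P] (h : x = 1 ↔ P) : x = if P then 1 else 0 := by
  have hx : x = 0 ∨ x = 1 := (by decide : ∀ y : ZMod 2, y = 0 ∨ y = 1) x
  split_ifs with hP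
  · exact h.mpr hP
  · exact hx.resolve_right fun h1 => hP (h.mp h1)

theorem crit_of_edges (a : ι → k₁) (h : Edges a) : Crit a := by
  refine crit_of_connected a _ h fun i j hij => ?_
  rw [SimpleGraph.fromRel_adj] at hij
  obtain ⟨hne, hI⟩ := hij
  have hI' : Iso a {i, j} := by
    rcases hI with hI | hI
    · exact hI
    · rwa [Set.pair_comm]
  obtain ⟨χ, hχ, hv⟩ := hI'
  refine ⟨χ, hχ, fun p q hpq => Net_val ?_⟩
  rw [hv p q hpq, Sym2.eq_iff]
  simp only [Set.mem_insert_iff, Set.mem_singleton_iff]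
  constructor
  · rintro ⟨rfl | rfl, rfl | rfl⟩ <;> simp_all
  · rintro (⟨rfl, rfl⟩ | ⟨rfl, rfl⟩) <;> simp

lemma Net_lap (a : ι → k₁) (χ : k₁ → ZMod 2) {x y z : ι} (hxy : x ≠ y) (hxz : x ≠ z) (hyz : y ≠ z)
    (h : ∀ p q, p ≠ q → (χ (a p - a q) = 1 ↔ p ∈ ({x, y, z} : Set ι) ∧ q ∈ ({x, y, z} : Set ι))) :
    lap a χ = TreeS (TreeE x y) (TreeE x z) := by
  have hoff : ∀ p q, p ≠ q → χ (a p - a q) = TreeS (TreeE x y) (TreeE x z) p q := by
    intro p q hpq
    classical
    rw [Net_val (h p q hpq)]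
    simp only [TreeS, Matrix.add_apply, vecMulVec_apply, TreeE_apply hxy, TreeE_apply hxz,
      Set.mem_insert_iff, Set.mem_singleton_iff]
    by_cases h1 : p = x <;> by_cases h2 : p = y <;> by_cases h3 : p = z <;>
      by_cases h4 : q = x <;> by_cases h5 : q = y <;> by_cases h6 : q = z <;> simp_all
  ext p q
  simp only [lap, Matrix.of_apply]
  split_ifs with hpq
  · subst hpq
    rw [Finset.sum_congr rfl (fun m hm => hoff p m (Finset.ne_of_mem_erase hm).symm)]
    have h0 : ∀ i j : ι, ∑ m, TreeE i j m = 0 := fun i j => by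
      simp [TreeE, Finset.sum_add_distrib, Tree_two]
    have h1 : ∑ m, TreeS (TreeE x y) (TreeE x z) p m = 0 := by
      simp only [TreeS, Matrix.add_apply, vecMulVec_apply, Finset.sum_add_distrib,
        ← Finset.mul_sum, h0, mul_zero, add_zero]
    rw [← Finset.add_sum_erase _ _ (Finset.mem_univ p)] at h1
    linear_combination h1 - Tree_two (TreeS (TreeE x y) (TreeE x z) p p)
  · exact hoff p q hpq

omit [DecidableEq ι] in
lemma Net_comm (b c u v : ι → ZMod 2) :
    TreeS b c * TreeS u v - TreeS u v * TreeS b c =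
      TreeS ((c ⬝ᵥ u) • b + (b ⬝ᵥ u) • c) v + TreeS ((c ⬝ᵥ v) • b + (b ⬝ᵥ v) • c) u := by
  simp only [TreeS, mul_add, add_mul, Tree_mul, dotProduct_comm v b, dotProduct_comm u b,
    dotProduct_comm v c, dotProduct_comm u c]
  ext x y
  simp only [Matrix.sub_apply, Matrix.smul_apply, Matrix.add_apply, smul_eq_mul,
    sub_eq_add_neg, Tree_neg, vecMulVec_apply, Pi.add_apply, Pi.smul_apply]
  ring

lemma Net_lap_add (a : ι → k₁) (χ χ' : k₁ → ZMod 2) :
    lap a (fun x => χ x + χ' x) = lap a χ + lap a χ' := by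
  ext p q
  simp only [lap, Matrix.of_apply, Matrix.add_apply]
  split_ifs
  · rw [Finset.sum_add_distrib]
  · rfl

/-- the projection attached to the triple `c x y` sends `e_c + e_d` to `e_x + e_y` -/
lemma Net_proj {c x y d : ι} (hcx : c ≠ x) (hcy : c ≠ y) (hdc : d ≠ c) (hdx : d ≠ x)
    (hdy : d ≠ y) :
    (TreeE c y ⬝ᵥ TreeE c d) • TreeE c x + (TreeE c x ⬝ᵥ TreeE c d) • TreeE c y = TreeE x y := by
  rw [TreeE_dot_adj hcy hdc.symm hdy.symm, TreeE_dot_adj hcx hdc.symm hdx.symm, one_smul, one_smul,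
    TreeE_comm c x, ← TreeE_add]

lemma Net_dot_zero {c x u v : ι} (h1 : u ≠ c) (h2 : u ≠ x) (h3 : v ≠ c) (h4 : v ≠ x) :
    TreeE c x ⬝ᵥ TreeE u v = 0 := by
  rw [TreeE_dot]
  simp [TreeE, h1.symm, h2.symm, h3.symm, h4.symm]

/-- the combinatorial part, for a relation `R x y p q` on `ℤ/3 × G` -/
lemma Net_comb {G : Type} [CommRing G] (h3 : ∀ u v : G, ∃ w, w ≠ u ∧ w ≠ v)
    (R : ZMod 3 × G → ZMod 3 × G → ZMod 3 × G → ZMod 3 × G → Prop)
    (hrefl : ∀ x y p, R x y p p) (hsymm : ∀ x y p q, R x y p q → R x y q p)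
    (htrans : ∀ x y p q r, R x y p q → R x y q r → R x y p r)
    (htrans' : ∀ x y z p q, R x y p q → R y z p q → R x z p q)
    (F1 : ∀ x y p q, x.1 ≠ y.1 → p.1 = x.1 → p ≠ x → p + q = x + y → R x y p q)
    (F2 : ∀ u v c x y d, c.1 ≠ x.1 → c + x + y = 0 → d ≠ c → d ≠ x → d ≠ y → u ≠ c → u ≠ x →
      u ≠ y → v ≠ c → v ≠ x → v ≠ y → R u v c d → R u v x y)
    (x y p q : ZMod 3 × G) (hpx : p ≠ x) (hpy : p ≠ y) (hqx : q ≠ x) (hqy : q ≠ y) :
    R x y p q := by
  have hne : ∀ {u v : ZMod 3 × G}, u.1 ≠ v.1 → u ≠ v := fun h e => h (by rw [e])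
  have z1 : ∀ s t : ZMod 3, s ≠ t → -s - t ≠ s ∧ -s - t ≠ t := by decide
  have z2 : ∀ s t r : ZMod 3, s ≠ t → r = s ∨ r = t ∨ r = -s - t := by decide
  have S1 : ∀ x y : ZMod 3 × G, x.1 ≠ y.1 → ∀ p q, p ≠ x → p ≠ y → p ≠ -x - y → q ≠ x → q ≠ y →
      q ≠ -x - y → R x y p q := by
    intro x y hxy
    obtain ⟨a1, a2⟩ := z1 _ _ hxy
    have hb : ∀ p r : ZMod 3 × G, p.1 = x.1 → p ≠ x → r.1 = y.1 → r ≠ y → p + r ≠ x + y →
        R x y r (-p - r) ∧ R x y p (-p - r) := by
      intro p r hp hpx hr hry hs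
      have e1 : (-p - r).1 = -x.1 - y.1 := by simp [hp, hr]
      constructor
      · refine F2 x y p r (-p - r) (x + y - p) (by rw [hp, hr]; exact hxy) (by abel) ?_ ?_ ?_
          hpx.symm (hne (by rw [hr]; exact hxy)) (hne (by rw [e1]; exact a1.symm))
          (hne (by rw [hp]; exact hxy.symm)) hry.symm (hne (by rw [e1]; exact a2.symm))
          (F1 x y p _ hxy hp hpx (by abel))
        · exact hne (by simpa [hp] using hxy.symm)
        · intro e
          exact hs (by rw [← e]; abel)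
        · exact hne (by rw [e1]; simpa [hp] using a2.symm)
      · refine F2 x y r p (-p - r) (x + y - r) (by rw [hp, hr]; exact hxy.symm) (by abel) ?_ ?_ ?_
          (hne (by rw [hr]; exact hxy)) hpx.symm (hne (by rw [e1]; exact a1.symm))
          hry.symm (hne (by rw [hp]; exact hxy.symm)) (hne (by rw [e1]; exact a2.symm))
          (hsymm _ _ _ _ (F1 x y (x + y - r) r hxy (by simp [hr]) ?_ (by abel)))
        · exact hne (by simpa [hr] using hxy)
        · intro e
          exact hs (by rw [← e]; abel)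
        · exact hne (by rw [e1]; simpa [hr] using a1.symm)
        · intro e
          exact hry (by linear_combination -e)
    have hXY : ∀ p r : ZMod 3 × G, p.1 = x.1 → p ≠ x → r.1 = y.1 → r ≠ y → R x y p r := by
      intro p r hp hpx hr hry
      by_cases hs : p + r = x + y
      · exact F1 x y p r hxy hp hpx hs
      · obtain ⟨h1, h2⟩ := hb p r hp hpx hr hry hs
        exact htrans _ _ _ _ _ h2 (hsymm _ _ _ _ h1)
    obtain ⟨w, hw, -⟩ := h3 x.2 x.2
    obtain ⟨w', hw', -⟩ := h3 y.2 y.2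
    have hwx : (x.1, w) ≠ x := fun e => hw (congrArg Prod.snd e)
    have hwy : (y.1, w') ≠ y := fun e => hw' (congrArg Prod.snd e)
    have hbase : ∀ p, p ≠ x → p ≠ y → p ≠ -x - y → R x y (x.1, w) p := by
      intro p hpx hpy hpt
      rcases z2 x.1 y.1 p.1 hxy with h | h | h
      · exact htrans _ _ _ _ _ (hXY _ (y.1, w') rfl hwx rfl hwy)
          (hsymm _ _ _ _ (hXY _ (y.1, w') h hpx rfl hwy))
      · exact hXY _ _ rfl hwx h hpy
      · obtain ⟨r, hr1, hr2⟩ := h3 y.2 (-x.2 - p.2)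
        have hry : (y.1, r) ≠ y := fun e => hr1 (congrArg Prod.snd e)
        have h1 := (hb (-(y.1, r) - p) (y.1, r) (by simp only [Prod.fst_sub, Prod.fst_neg, h]; ring) (fun e => hr2 (by
          have := congrArg Prod.snd e
          simp only [Prod.snd_sub, Prod.snd_neg] at this
          rw [← this]
          abel)) rfl hry (fun e => hpt (by linear_combination -e))).1
        rw [show -(-(y.1, r) - p) - (y.1, r) = p by abel] at h1
        exact htrans _ _ _ _ _ (hXY _ (y.1, r) rfl hwx rfl hry) h1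
    intro p q h1 h2 h3 h4 h5 h6
    exact htrans _ _ _ _ _ (hsymm _ _ _ _ (hbase p h1 h2 h3)) (hbase q h4 h5 h6)
  have S2 : ∀ x y : ZMod 3 × G, x.1 ≠ y.1 → ∀ q, q ≠ x → q ≠ y → R x y (-x - y) q := by
    intro x y hxy q hqx hqy
    by_cases hqt : q = -x - y
    · rw [hqt]
      exact hrefl _ _ _
    obtain ⟨a1, a2⟩ := z1 _ _ hxy
    have key : ∃ z : ZMod 3 × G, z.1 = -x.1 - y.1 ∧ z ≠ -x - y ∧ q ≠ z ∧ q ≠ -x - z ∧
        q ≠ -z - y := by
      rcases z2 x.1 y.1 q.1 hxy with h | h | h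
      · obtain ⟨w, hw1, hw2⟩ := h3 (-x - y).2 (-q.2 - y.2)
        refine ⟨(-x.1 - y.1, w), rfl, fun e => hw1 (congrArg Prod.snd e),
          hne (by rw [h]; exact a1.symm), hne (by simpa [h] using hxy), fun e => hw2 ?_⟩
        have := congrArg Prod.snd e
        simp only [Prod.snd_sub, Prod.snd_neg] at this
        rw [this]
        abel
      · obtain ⟨w, hw1, hw2⟩ := h3 (-x - y).2 (-q.2 - x.2)
        refine ⟨(-x.1 - y.1, w), rfl, fun e => hw1 (congrArg Prod.snd e),
          hne (by rw [h]; exact a2.symm), fun e => hw2 ?_, hne (by simpa [h] using hxy.symm)⟩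
        have := congrArg Prod.snd e
        simp only [Prod.snd_sub, Prod.snd_neg] at this
        rw [this]
        abel
      · obtain ⟨w, hw1, hw2⟩ := h3 (-x - y).2 q.2
        refine ⟨(-x.1 - y.1, w), rfl, fun e => hw1 (congrArg Prod.snd e),
          fun e => hw2 (congrArg Prod.snd e).symm, hne (by simpa [h] using a2),
          hne (by simpa [h] using a1)⟩
    obtain ⟨z, hz, hzt, h1, h2, h3⟩ := key
    have t1 : -x - y ≠ x := hne a1
    have t2 : -x - y ≠ y := hne a2
    refine htrans' x z y _ _ (S1 x z (by rw [hz]; exact a1.symm) _ _ t1 hzt.symm ?_ hqx h1 h2)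
      (S1 z y (by rw [hz]; exact a2) _ _ hzt.symm t2 ?_ h1 hqy h3)
    · exact hne (by simpa [hz] using a2)
    · exact hne (by simpa [hz] using a1)
  have S3 : ∀ x y : ZMod 3 × G, x.1 ≠ y.1 → ∀ p q, p ≠ x → p ≠ y → q ≠ x → q ≠ y →
      R x y p q := by
    intro x y hxy p q h1 h2 h3 h4
    by_cases hp : p = -x - y
    · rw [hp]
      exact S2 x y hxy q h3 h4
    by_cases hq : q = -x - y
    · rw [hq]
      exact hsymm _ _ _ _ (S2 x y hxy p h1 h2)
    exact S1 x y hxy p q h1 h2 hp h3 h4 hq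
  by_cases hxy : x.1 = y.1
  · obtain ⟨w, hw1, hw2⟩ := h3 p.2 q.2
    have z3 : ∀ s : ZMod 3, s ≠ s + 1 := by decide
    have hp : p ≠ (x.1 + 1, w) := fun e => hw1 (congrArg Prod.snd e).symm
    have hq : q ≠ (x.1 + 1, w) := fun e => hw2 (congrArg Prod.snd e).symm
    exact htrans' x (x.1 + 1, w) y _ _ (S3 _ _ (z3 _) _ _ hpx hp hqx hq)
      (S3 _ _ (by rw [← hxy]; exact (z3 _).symm) _ _ hp hpy hq hqy)
  · exact S3 x y hxy p q hpx hpy hqx hqy

theorem crit_of_net (a : ι → k₁) (h7 : 7 ≤ Fintype.card ι) (h : Net a) : Crit a := by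
  obtain ⟨n, e, h⟩ := h
  intro L h1 h2 p q r s hnd
  have hfin : Finite (ZMod n) := by
    have : Finite (ZMod 3 × ZMod n) := Finite.of_equiv _ e.symm
    exact Finite.of_injective (fun u : ZMod n => ((0 : ZMod 3), u)) fun _ _ e =>
      congrArg Prod.snd e
  have h3 : ∀ u v : ZMod n, ∃ w, w ≠ u ∧ w ≠ v := by
    intro u v
    by_contra hc
    push Not at hc
    have := Fintype.ofFinite (ZMod n)
    have h4 : Fintype.card (ZMod n) ≤ 2 := by
      classical
      calc Fintype.card (ZMod n) = (Finset.univ : Finset (ZMod n)).card := rfl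
        _ ≤ ({u, v} : Finset (ZMod n)).card := Finset.card_le_card fun w _ => by
            by_cases hw : w = u
            · simp [hw]
            · simp [hc w hw]
        _ ≤ 2 := Finset.card_le_two
    have h5 := Fintype.card_congr e
    rw [Fintype.card_prod, ZMod.card 3] at h5
    omega
  have z1 : ∀ s t u : ZMod 3, s ≠ t → s + t + u = 0 → s ≠ u ∧ t ≠ u := by decide
  have hne : ∀ {u v : ZMod 3 × ZMod n}, u.1 ≠ v.1 → e u ≠ e v := fun h e' =>
    h (by rw [e.injective e'])
  have hT : ∀ c x y : ZMod 3 × ZMod n, c.1 ≠ x.1 → c + x + y = 0 → ∃ χ, IsChar χ ∧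
      lap a χ = TreeS (TreeE (e c) (e x)) (TreeE (e c) (e y)) := by
    intro c x y hcx hs
    obtain ⟨χ, hχ, hv⟩ := h c x y hs hcx
    obtain ⟨a1, a2⟩ := z1 _ _ _ hcx (congrArg Prod.fst hs)
    exact ⟨χ, hχ, Net_lap a χ (hne hcx) (hne a1) (hne a2) hv⟩
  have hbr : ∀ χ χ', IsChar χ → IsChar χ' → lap a χ * lap a χ' - lap a χ' * lap a χ ∈ L := by
    intro χ χ' hχ hχ'
    have h4 := h1 (fun x => χ x + χ' x) fun x y hx hy => by
      simp only [hχ x y hx hy, hχ' x y hx hy]
      ring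
    rw [Net_lap_add] at h4
    have h5 := L.sub_mem (L.sub_mem h4 (h1 χ hχ)) (h1 χ' hχ')
    have h6 : ∀ M : Matrix ι ι (ZMod 2), -M = M := fun M => by
      ext i j
      exact Tree_neg _
    convert h5 using 1
    rw [sub_eq_add_neg (lap a χ * lap a χ'), h6]
    noncomm_ring
  have key := Net_comb h3
    (fun x y p q => TreeS (TreeE (e p) (e q)) (TreeE (e x) (e y)) ∈ L)
    (fun x y p => by rw [TreeE_self, TreeS_zero]; exact L.zero_mem)
    (fun x y p q h => by rwa [TreeE_comm])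
    (fun x y p q r h h' => by rw [TreeE_add _ (e q), TreeS_add]; exact L.add_mem h h')
    (fun x y z p q h h' => by
      rw [TreeS_comm] at h h' ⊢
      rw [TreeE_add _ (e y), TreeS_add]
      exact L.add_mem h h')
    (fun x y p q hxy hp hpx hs => by
      have b1 : ∀ s t : ZMod 3, s ≠ t → -s - t ≠ s ∧ -s - t ≠ t := by decide
      obtain ⟨a1, a2⟩ := b1 _ _ hxy
      have hq : q.1 = y.1 := by
        have := congrArg Prod.fst hs
        simp only [Prod.fst_add, hp] at this
        exact add_left_cancel this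
      have hqy : q ≠ y := fun e' => hpx (by rw [e'] at hs; exact add_right_cancel hs)
      obtain ⟨χ, hχ, e1⟩ := hT (-x - y) x y a1 (by abel)
      obtain ⟨χ', hχ', e2⟩ := hT (-x - y) p q (by rw [hp]; exact a1) (by linear_combination hs)
      have h4 := hbr χ χ' hχ hχ'
      rw [e1, e2, Net_comm,
        Net_proj (hne a1) (hne a2) (hne (by rw [hp]; exact a1.symm)) (e.injective.ne hpx)
          (hne (by rw [hp]; exact hxy)),
        Net_proj (hne a1) (hne a2) (hne (by rw [hq]; exact a2.symm))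
          (hne (by rw [hq]; exact hxy.symm)) (e.injective.ne hqy),
        TreeS_comm _ (TreeE _ (e q)), TreeS_comm _ (TreeE _ (e p)), ← TreeS_add,
        TreeE_comm _ (e q), ← TreeE_add, TreeE_comm (e q)] at h4
      exact h4)
    (fun u v c x y d hcx hs b1 b2 b3 b4 b5 b6 b7 b8 b9 hR => by
      obtain ⟨χ, hχ, e1⟩ := hT c x y hcx hs
      obtain ⟨a1, a2⟩ := z1 _ _ _ hcx (congrArg Prod.fst hs)
      have h4 := h2 χ hχ _ hR
      rw [e1, Net_comm, Net_proj (hne hcx) (hne a1) (e.injective.ne b1) (e.injective.ne b2)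
        (e.injective.ne b3),
        Net_dot_zero (e.injective.ne b4) (e.injective.ne b6) (e.injective.ne b7)
          (e.injective.ne b9),
        Net_dot_zero (e.injective.ne b4) (e.injective.ne b5) (e.injective.ne b7)
          (e.injective.ne b8), zero_smul, zero_smul, add_zero, TreeS_zero, add_zero] at h4
      exact h4)
  rw [Tree_cyc hnd]
  simp only [List.nodup_cons, List.mem_cons, List.not_mem_nil, or_false, not_or] at hnd
  obtain ⟨⟨hpq, hpr, hps⟩, ⟨hqr, hqs⟩, hrs, -⟩ := hnd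
  have := key (e.symm q) (e.symm s) (e.symm p) (e.symm r) (e.symm.injective.ne hpq)
    (e.symm.injective.ne hps) (e.symm.injective.ne (Ne.symm hqr)) (e.symm.injective.ne hrs)
  simpa using this

end Pool.Agent.Lib.MP_33b3f9_ag
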