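import Pool.Agent.Lib.MP_33b3f9_ag.PairA

/-!
The Weil pairing on the `N`-torsion of `Pic R`.
-/

open IsDedekindDomain nonZeroDivisors

namespace Pool.Agent.Lib.MP_33b3f9_ag

noncomputable section

variable {k : Type*} [Field k] [IsAlgClosed k] {R : Type*} [CommRing R] [IsDedekindDomain R]
  [Algebra k R] [Algebra.FiniteType k R] (I : InfData k R)

open Classical in
/-- the Weil pairing (junk value 1 outside the `N`-torsion) -/
def wp (N : ℕ) (c d : Additive (CommRing.Pic R)) : k :=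
  if h : ∃ q : (Dv R × R) × (Dv R × R), Adm N q.1.1 q.1.2 ∧ Adm N q.2.1 q.2.2 ∧
      Disj q.1.1 q.2.1 ∧ cl q.1.1 = c ∧ cl q.2.1 = d then
    wf I N h.choose.1.1 h.choose.1.2 h.choose.2.1 h.choose.2.2 else 1

omit [IsDedekindDomain R] in
theorem pair_disj {D E : Dv R} (h : ∀ P ∈ E.support, D P = 0) : Disj D E := fun P =>
  (em (P ∈ E.support)).imp (h P) Finsupp.notMem_support_iff.1

theorem pair_rep {N : ℕ} {c d : Additive (CommRing.Pic R)} (hc : N • c = 0) (hd : N • d = 0) :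
    ∃ D a E b, Adm N D a ∧ Adm N E b ∧ Disj D E ∧ cl D = c ∧ cl E = d := by
  obtain ⟨E, b, hE, h1, -⟩ := exists_adm hd ∅
  obtain ⟨D, a, hD, h2, h⟩ := exists_adm hc E.support
  exact ⟨D, a, E, b, hD, hE, pair_disj h, h2, h1⟩

theorem pair_dvR_mul {a b : R} (ha : a ≠ 0) (hb : b ≠ 0) : dvR (a * b) = dvR a + dvR b := by
  rw [dvR, map_mul]
  exact dv_mul ((map_ne_zero_iff _ (IsFractionRing.injective R (Fr R))).2 ha)
    ((map_ne_zero_iff _ (IsFractionRing.injective R (Fr R))).2 hb)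

theorem pair_nsmul (a : R) {E : Dv R} (hE : 0 ≤ E) (n : ℕ) : nv I a (n • E) = nv I a E ^ n := by
  rw [nv, nv, evD_nsmul a hE, dg_nsmul, div_pow, mul_comm, zpow_mul, zpow_natCast]

theorem pair_mul {a a' : R} (ha : a ≠ 0) (ha' : a' ≠ 0) (E : Dv R) :
    nv I (a * a') E = nv I a E * nv I a' E := by
  rw [nv, nv, nv, evD_mul, I.lc_mul _ _ ha ha', mul_zpow, div_mul_div_comm]

theorem pair_add {b : R} (hb : b ≠ 0) {D D' : Dv R} (hD : 0 ≤ D) (hD' : 0 ≤ D') :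
    nv I b (D + D') = nv I b D * nv I b D' := by
  rw [nv, nv, nv, evD_add b hD hD', dg_add, zpow_add₀ (I.lc_ne _ hb), div_mul_div_comm]

theorem wp_spec {N : ℕ} (hN : 0 < N) {D E : Dv R} {a b : R} (hD : Adm N D a) (hE : Adm N E b)
    (h : Disj D E) : wp I N (cl D) (cl E) = wf I N D a E b := by
  have hex : ∃ q : (Dv R × R) × (Dv R × R), Adm N q.1.1 q.1.2 ∧ Adm N q.2.1 q.2.2 ∧
      Disj q.1.1 q.2.1 ∧ cl q.1.1 = cl D ∧ cl q.2.1 = cl E := ⟨((D, a), (E, b)), hD, hE, h, rfl, rfl⟩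
  obtain ⟨h1, h2, h3, h4, h5⟩ := hex.choose_spec
  rw [wp, dif_pos hex]
  exact wf_indep I hN h1 hD h2 hE h3 h h4 h5

theorem wp_pow {N : ℕ} (hN : 0 < N) {c d : Additive (CommRing.Pic R)} (hc : N • c = 0)
    (hd : N • d = 0) : wp I N c d ^ N = 1 := by
  obtain ⟨D, a, E, b, hD, hE, h, rfl, rfl⟩ := pair_rep hc hd
  have h0 : nv I b D ≠ 0 := by
    refine div_ne_zero (evD_ne_zero hE.2.1 fun P hP => ?_) (zpow_ne_zero _ (I.lc_ne _ hE.2.1))
    rw [hE.2.2, Finsupp.smul_apply, (h P).resolve_left hP, smul_zero]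
  have h1 : (I.deg a : ℤ) = N * dg D := by rw [← dg_dvR I hD.2.1, hD.2.2, dg_nsmul]
  have h2 : (I.deg b : ℤ) = N * dg E := by rw [← dg_dvR I hE.2.1, hE.2.2, dg_nsmul]
  have h3 := nv_recip I hD.2.1 hE.2.1
  rw [hD.2.2, hE.2.2, pair_nsmul I a hE.1, pair_nsmul I b hD.1] at h3
  have h4 : ((-1 : k) ^ (N * dg D * dg E)) ^ N = (-1) ^ (I.deg a * I.deg b) := by
    rw [← zpow_natCast, ← zpow_mul, ← zpow_natCast, Nat.cast_mul, h1, h2]
    congr 1
    ring
  rw [wp_spec I hN hD hE h, wf, div_pow, mul_pow, h3, h4, ← mul_assoc, ← mul_pow, neg_mul_neg,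
    one_mul, one_pow, one_mul, div_self (pow_ne_zero _ h0)]

theorem wp_swap {N : ℕ} (hN : 0 < N) {c d : Additive (CommRing.Pic R)} (hc : N • c = 0)
    (hd : N • d = 0) : wp I N c d * wp I N d c = 1 := by
  obtain ⟨D, a, E, b, hD, hE, h, rfl, rfl⟩ := pair_rep hc hd
  rw [wp_spec I hN hD hE h, wp_spec I hN hE hD fun P => (h P).symm]
  exact wf_swap I hN hD hE h

theorem wp_add_left {N : ℕ} (hN : 0 < N) {c c' d : Additive (CommRing.Pic R)} (hc : N • c = 0)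
    (hc' : N • c' = 0) (hd : N • d = 0) : wp I N (c + c') d = wp I N c d * wp I N c' d := by
  obtain ⟨E, b, hE, rfl, -⟩ := exists_adm hd ∅
  obtain ⟨D, a, hD, rfl, h⟩ := exists_adm hc E.support
  obtain ⟨D', a', hD', rfl, h'⟩ := exists_adm hc' E.support
  have hS : Adm N (D + D') (a * a') := ⟨add_nonneg hD.1 hD'.1, mul_ne_zero hD.2.1 hD'.2.1, by
    rw [pair_dvR_mul hD.2.1 hD'.2.1, hD.2.2, hD'.2.2, smul_add]⟩
  rw [← map_add, wp_spec I hN hS hE (pair_disj fun P hP => by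
      rw [Finsupp.add_apply, h P hP, h' P hP, add_zero]),
    wp_spec I hN hD hE (pair_disj h), wp_spec I hN hD' hE (pair_disj h'), wf, wf, wf,
    pair_mul I hD.2.1 hD'.2.1, pair_add I hE.2.1 hD.1 hD'.1, dg_add, mul_add, add_mul,
    zpow_add₀ (neg_ne_zero.2 one_ne_zero), div_mul_div_comm, mul_mul_mul_comm]

theorem wp_compat {N M : ℕ} (hN : 0 < N) (hM : 0 < M) {c d : Additive (CommRing.Pic R)}
    (hc : N • c = 0) (hd : (M * N) • d = 0) : wp I (M * N) c d = wp I N c (M • d) := by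
  obtain ⟨E, b, hE, rfl, -⟩ := exists_adm hd ∅
  obtain ⟨D, a, hD, rfl, h⟩ := exists_adm hc E.support
  have h1 : Adm (M * N) D (a ^ M) := ⟨hD.1, pow_ne_zero _ hD.2.1, by
    rw [dvR, map_pow, dv_pow, mul_smul]
    exact congrArg _ hD.2.2⟩
  have h2 : Adm N (M • E) b := ⟨nsmul_nonneg hE.1 M, hE.2.1, by
    rw [hE.2.2, mul_comm, mul_smul]⟩
  have h3 : Disj D (M • E) := fun P => (pair_disj h P).imp_right fun e => by
    rw [Finsupp.smul_apply, e, smul_zero]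
  have h4 : nv I (a ^ M) E = nv I a E ^ M := by
    rw [nv, nv, evD_pow, I.lc_pow hD.2.1, div_pow, ← zpow_natCast (I.lc a), ← zpow_mul,
      ← zpow_natCast (I.lc a ^ dg E), ← zpow_mul, mul_comm]
  rw [← map_nsmul, wp_spec I (Nat.mul_pos hM hN) h1 hE (pair_disj h), wp_spec I hN hD h2 h3, wf, wf,
    h4, pair_nsmul I a hE.1, dg_nsmul]
  congr 3
  push_cast
  ring

theorem wp_map {N : ℕ} (hN : 0 < N) (φ : R ≃+* R) (σ : k →+* k)
    (h : ∀ c, φ (algebraMap k R c) = algebraMap k R (σ c))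
    (hlc : ∀ a, a ≠ 0 → I.lc (φ a) = σ (I.lc a)) {c d : Additive (CommRing.Pic R)}
    (hc : N • c = 0) (hd : N • d = 0) :
    wp I N (Additive.ofMul (CommRing.Pic.mapRingHom (φ : R →+* R) c.toMul))
      (Additive.ofMul (CommRing.Pic.mapRingHom (φ : R →+* R) d.toMul)) = σ (wp I N c d) := by
  obtain ⟨D, a, E, b, hD, hE, hj, rfl, rfl⟩ := pair_rep hc hd
  have h1 : ∀ {D : Dv R} {a : R}, Adm N D a → Adm N (dvMap φ D) (φ a) := fun {D a} hD =>
    ⟨fun P => by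
      obtain ⟨Q, rfl⟩ := (ptMap φ).surjective P
      rw [dvMap_apply]
      exact hD.1 Q, (map_ne_zero_iff φ φ.injective).2 hD.2.1, by
      rw [dvR, ← frMap_algebraMap, dv_frMap, ← map_nsmul]
      exact congrArg _ hD.2.2⟩
  have h2 : Disj (dvMap φ D) (dvMap φ E) := fun P => by
    obtain ⟨Q, rfl⟩ := (ptMap φ).surjective P
    rw [dvMap_apply, dvMap_apply]
    exact hj Q
  have h3 : ∀ {a : R} (D : Dv R), a ≠ 0 → nv I (φ a) (dvMap φ D) = σ (nv I a D) :=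
    fun {a} D ha => by rw [nv, nv, evD_dvMap φ σ h, hlc a ha, dg_dvMap, map_div₀, map_zpow₀]
  rw [← cl_dvMap, ← cl_dvMap, wp_spec I hN (h1 hD) (h1 hE) h2, wp_spec I hN hD hE hj, wf, wf,
    h3 E hD.2.1, h3 D hE.2.1, dg_dvMap, dg_dvMap, map_div₀, map_mul, map_zpow₀, map_neg, map_one]

end

end Pool.Agent.Lib.MP_33b3f9_ag
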