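import Mathlib

/-!
The norm on `R/(a)` for `R` free over `k[a]`.
-/

open Polynomial

namespace Pool.Agent.Lib.MP_33b3f9_ag

noncomputable section

variable {k R : Type*} [Field k] [CommRing R] [IsDomain R] [Algebra k R]

omit [IsDomain R] in
theorem smithL_mk_aeval (a : R) (p : k[X]) :
    Ideal.Quotient.mk (Ideal.span {a}) (aeval a p) =
      algebraMap k (R ⧸ Ideal.span {a}) (p.eval 0) := by
  have h0 : Ideal.Quotient.mkₐ k (Ideal.span {a}) a = algebraMap k (R ⧸ Ideal.span {a}) 0 := by
    rw [map_zero]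
    exact Ideal.Quotient.eq_zero_iff_mem.2 (Ideal.mem_span_singleton_self a)
  have h1 := aeval_algHom_apply (Ideal.Quotient.mkₐ k (Ideal.span {a})) a p
  rw [h0, aeval_algebraMap_apply, coe_aeval_eq_eval] at h1
  exact h1.symm

omit [IsDomain R] in
theorem smithL_mk_sum {ι : Type*} [Fintype ι] (a : R) (e : ι → R) (p : ι → k[X]) :
    Ideal.Quotient.mk (Ideal.span {a}) (∑ j, aeval a (p j) * e j) =
      ∑ j, (p j).eval 0 • Ideal.Quotient.mk (Ideal.span {a}) (e j) := by
  rw [map_sum]
  refine Finset.sum_congr rfl fun j _ => ?_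
  rw [map_mul, smithL_mk_aeval, Algebra.smul_def]

/-- `R` free over `k[a]` with basis `e`, `B` the matrix of `b`: the norm of `b` on `R/(a)` is
`det B (0)`. -/
theorem norm_quot_left {ι : Type*} [Fintype ι] [DecidableEq ι] (a b : R) (e : ι → R)
    (hsp : ∀ r : R, ∃ p : ι → k[X], r = ∑ j, aeval a (p j) * e j)
    (hli : ∀ p : ι → k[X], ∑ j, aeval a (p j) * e j = 0 → p = 0)
    (B : Matrix ι ι k[X]) (hB : ∀ j, b * e j = ∑ i, aeval a (B i j) * e i) :
    Algebra.norm k (Ideal.Quotient.mk (Ideal.span {a}) b) = B.det.eval 0 := by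
  have li : LinearIndependent k fun j => Ideal.Quotient.mk (Ideal.span {a}) (e j) := by
    rw [Fintype.linearIndependent_iff]
    intro c hc j
    have h1 : Ideal.Quotient.mk (Ideal.span {a}) (∑ j, aeval a (C (c j)) * e j) = 0 := by
      rw [smithL_mk_sum]
      simpa using hc
    obtain ⟨r, hr⟩ := Ideal.mem_span_singleton'.1 (Ideal.Quotient.eq_zero_iff_mem.1 h1)
    obtain ⟨p, rfl⟩ := hsp r
    have h2 := hli (fun j => C (c j) - X * p j) (by
      simp only [map_sub, map_mul, aeval_X, sub_mul, Finset.sum_sub_distrib]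
      rw [← hr, Finset.sum_mul, sub_eq_zero]
      exact Finset.sum_congr rfl fun j _ => by ring)
    have h3 := congrArg (eval 0) (congrFun h2 j)
    simpa using h3
  have sp : ⊤ ≤ Submodule.span k
      (Set.range fun j => Ideal.Quotient.mk (Ideal.span {a}) (e j)) := by
    intro x _
    obtain ⟨r, rfl⟩ := Ideal.Quotient.mk_surjective x
    obtain ⟨p, rfl⟩ := hsp r
    rw [smithL_mk_sum]
    exact Submodule.sum_mem _ fun j _ =>
      Submodule.smul_mem _ _ (Submodule.subset_span ⟨j, rfl⟩)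
  rw [Algebra.norm_eq_matrix_det (Module.Basis.mk li sp), ← coe_evalRingHom, RingHom.map_det]
  congr 1
  ext i j
  rw [Algebra.leftMulMatrix_eq_repr_mul, Module.Basis.mk_apply, ← map_mul, hB, smithL_mk_sum]
  have h : ∀ i, Ideal.Quotient.mk (Ideal.span {a}) (e i) = Module.Basis.mk li sp i :=
    fun i => (Module.Basis.mk_apply li sp i).symm
  rw [Finset.sum_congr rfl fun i _ => congrArg _ (h i), Module.Basis.repr_sum_self]
  rfl

end

end Pool.Agent.Lib.MP_33b3f9_ag
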