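import Mathlib

/-!
The norm of `a` on `R/(b)` for `R` free over `k[a]`.
-/

open Polynomial

namespace Pool.Agent.Lib.MP_33b3f9_ag

noncomputable section

variable {k R : Type*} [Field k] [CommRing R] [IsDomain R] [Algebra k R]

theorem smithR_det_pi {n : ℕ} (M : Fin n → Type*) [∀ i, AddCommGroup (M i)]
    [∀ i, Module k (M i)] [∀ i, FiniteDimensional k (M i)] (f : ∀ i, M i →ₗ[k] M i) :
    LinearMap.det (LinearMap.pi fun i => f i ∘ₗ LinearMap.proj i) = ∏ i, LinearMap.det (f i) := by
  induction n with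
  | zero => simp [LinearMap.det_eq_one_of_subsingleton]
  | succ n ih =>
    rw [Fin.prod_univ_succ, ← ih (fun i => M i.succ) fun i => f i.succ, ← LinearMap.det_prodMap,
      ← LinearMap.det_conj _ (Fin.consLinearEquiv k M)]
    congr 1
    refine LinearMap.ext fun x => funext fun i => ?_
    refine Fin.cases ?_ (fun i => ?_) i <;> rfl

theorem smithR_root {p : k[X]} (hp : p ≠ 0) :
    Algebra.norm k (AdjoinRoot.root p) * p.leadingCoeff = (-1) ^ p.natDegree * p.eval 0 := by
  have h := Algebra.PowerBasis.norm_gen_eq_coeff_zero_minpoly (AdjoinRoot.powerBasis hp)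
  rw [AdjoinRoot.powerBasis_gen, AdjoinRoot.powerBasis_dim, AdjoinRoot.minpoly_root hp,
    coeff_mul_C, coeff_zero_eq_eval_zero] at h
  rw [h, mul_assoc, mul_assoc, inv_mul_cancel₀ (leadingCoeff_ne_zero.2 hp), mul_one]

theorem smithR_aux [Algebra k[X] R] [IsScalarTower k k[X] R] {n : ℕ}
    (bs : Module.Basis (Fin n) k[X] R) {b : R} (hb : b ≠ 0) :
    Algebra.norm k (Ideal.Quotient.mk (Ideal.span {b}) (algebraMap k[X] R X)) *
      (Algebra.norm k[X] b).leadingCoeff =
        (-1) ^ (Algebra.norm k[X] b).natDegree * (Algebra.norm k[X] b).eval 0 := by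
  have hI : Ideal.span {b} ≠ ⊥ := Ideal.span_singleton_eq_bot.not.2 hb
  set p : Fin n → k[X] := fun i => Ideal.smithCoeffs bs (Ideal.span {b}) hI i with hp
  have hp0 : ∀ i, p i ≠ 0 := fun i => Ideal.smithCoeffs_ne_zero bs _ hI i
  let E := (Ideal.quotientEquivPiSpan (Ideal.span {b}) bs hI).restrictScalars k
  have h1 : Algebra.norm k (Ideal.Quotient.mk (Ideal.span {b}) (algebraMap k[X] R X)) =
      ∏ i, Algebra.norm k (AdjoinRoot.root (p i)) := by
    rw [Algebra.norm_apply, ← LinearMap.det_conj _ E]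
    refine Eq.trans ?_ (smithR_det_pi (fun i => k[X] ⧸ Ideal.span {p i})
      fun i => LinearMap.mul k _ (Ideal.Quotient.mk _ X))
    congr 1
    refine LinearMap.ext fun x => funext fun i => ?_
    obtain ⟨y, rfl⟩ := E.surjective x
    have h2 : Ideal.Quotient.mk (Ideal.span {b}) (algebraMap k[X] R X) * y = (X : k[X]) • y := by
      obtain ⟨z, rfl⟩ := Ideal.Quotient.mk_surjective y
      rw [← map_mul, ← Algebra.smul_def]
      rfl
    have h3 := (Ideal.quotientEquivPiSpan (Ideal.span {b}) bs hI).map_smul X y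
    have h4 : ∀ z : k[X] ⧸ Ideal.span {p i}, (X : k[X]) • z = Ideal.Quotient.mk _ X * z := fun z => by
      obtain ⟨w, rfl⟩ := Ideal.Quotient.mk_surjective z
      rw [← map_mul]
      rfl
    simp only [LinearMap.comp_apply, LinearEquiv.coe_coe, LinearEquiv.symm_apply_apply]
    rw [← h2] at h3
    exact (congrFun h3 i).trans (h4 _)
  obtain ⟨u, hu⟩ := (associated_norm_prod_smith bs hb).symm
  obtain ⟨c, -, hc⟩ := Polynomial.isUnit_iff.1 u.isUnit
  have hc0 : c ≠ 0 := fun h => u.ne_zero (by rw [← hc, h, C_0])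
  rw [← hu, ← hc, h1, natDegree_mul_C hc0, leadingCoeff_mul, leadingCoeff_C, eval_mul, eval_C,
    ← mul_assoc, ← mul_assoc, leadingCoeff_prod, natDegree_prod _ _ fun i _ => hp0 i, eval_prod,
    ← Finset.prod_pow_eq_pow_sum, ← Finset.prod_mul_distrib, ← Finset.prod_mul_distrib]
  congr 1
  exact Finset.prod_congr rfl fun i _ => smithR_root (hp0 i)

/-- same setting: dimension of `R/(b)` and the norm of `a` on it (Smith normal form) -/
theorem norm_quot_right {ι : Type*} [Fintype ι] [DecidableEq ι] (a b : R) (hb : b ≠ 0)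
    (e : ι → R)
    (hsp : ∀ r : R, ∃ p : ι → k[X], r = ∑ j, aeval a (p j) * e j)
    (hli : ∀ p : ι → k[X], ∑ j, aeval a (p j) * e j = 0 → p = 0)
    (B : Matrix ι ι k[X]) (hB : ∀ j, b * e j = ∑ i, aeval a (B i j) * e i) :
    Module.finrank k (R ⧸ Ideal.span {b}) = B.det.natDegree ∧
      Algebra.norm k (Ideal.Quotient.mk (Ideal.span {b}) a) * B.det.leadingCoeff =
        (-1) ^ B.det.natDegree * B.det.eval 0 := by
  let : Algebra k[X] R := (aeval a : k[X] →ₐ[k] R).toRingHom.toAlgebra
  have hs : ∀ (q : k[X]) (r : R), q • r = aeval a q * r := fun _ _ => rfl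
  have : IsScalarTower k k[X] R := IsScalarTower.of_algebraMap_eq fun c =>
    ((aeval a : k[X] →ₐ[k] R).commutes c).symm
  let bs : Module.Basis ι k[X] R := Module.Basis.mk
    (Fintype.linearIndependent_iff.2 fun g hg i => congrFun (hli g hg) i) fun r _ => by
      obtain ⟨q, rfl⟩ := hsp r
      exact Submodule.sum_mem _ fun j _ =>
        Submodule.smul_mem _ (q j) (Submodule.subset_span ⟨j, rfl⟩)
  have hn : Algebra.norm k[X] b = B.det := by
    rw [Algebra.norm_eq_matrix_det bs]
    congr 1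
    ext1 i j
    have h1 : b * bs j = ∑ i, B i j • bs i := by
      simpa only [bs, Module.Basis.mk_apply, hs] using hB j
    rw [Algebra.leftMulMatrix_eq_repr_mul, h1, bs.repr_sum_self]
  rw [← hn]
  refine ⟨finrank_quotient_span_eq_natDegree_norm bs hb, ?_⟩
  have := smithR_aux (bs.reindex (Fintype.equivFin ι)) hb
  rwa [show algebraMap k[X] R X = a from aeval_X a] at this

end

end Pool.Agent.Lib.MP_33b3f9_ag
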