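import Pool.Agent.Lib.MP_33b3f9_ag.Apery
import Pool.Agent.Lib.MP_33b3f9_ag.AperyDet
import Pool.Agent.Lib.MP_33b3f9_ag.SmithL
import Pool.Agent.Lib.MP_33b3f9_ag.SmithR

/-!
Weil reciprocity in determinant form.
-/

open Polynomial

namespace Pool.Agent.Lib.MP_33b3f9_ag

noncomputable section

namespace InfData

variable {k R : Type*} [Field k] [CommRing R] [IsDomain R] [Algebra k R] (I : InfData k R)

theorem wr_aux {a b : R} (ha : a ≠ 0) (hb : b ≠ 0) {n : ℕ} (hd : I.deg a = n + 1) :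
    Module.finrank k (R ⧸ Ideal.span {b}) = I.deg b ∧
      Algebra.norm k (Ideal.Quotient.mk (Ideal.span {b}) a) * I.lc b ^ (n + 1) =
        (-1) ^ ((n + 1) * I.deg b) *
          (Algebra.norm k (Ideal.Quotient.mk (Ideal.span {a}) b) * I.lc a ^ I.deg b) := by
  obtain ⟨e, he, hsp, hli⟩ := I.exists_apery ha hd
  choose B hB using fun j => hsp (b * e j)
  obtain ⟨h1, h2⟩ := I.det_apery ha hb hd e he (Matrix.of fun i j => B j i) hB
  obtain ⟨h3, h4⟩ := norm_quot_right a b hb e hsp hli (Matrix.of fun i j => B j i) hB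
  refine ⟨h3.trans h1, ?_⟩
  rw [norm_quot_left a b e hsp hli (Matrix.of fun i j => B j i) hB, add_mul, one_mul, pow_add,
    mul_comm n]
  rw [h1] at h4
  have h5 : ((-1 : k) ^ (I.deg b * n)) * (-1) ^ (I.deg b * n) = 1 := by
    rw [← mul_pow, neg_mul_neg, one_mul, one_pow]
  linear_combination ((-1) ^ (I.deg b * n) * I.lc a ^ I.deg b) * h4 -
    (-1) ^ (I.deg b * n) * Algebra.norm k (Ideal.Quotient.mk (Ideal.span {b}) a) * h2 -
    Algebra.norm k (Ideal.Quotient.mk (Ideal.span {b}) a) * I.lc b ^ (n + 1) * h5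

theorem finrank_quot {b : R} (hb : b ≠ 0) :
    Module.finrank k (R ⧸ Ideal.span {b}) = I.deg b := by
  obtain ⟨a, ha, h⟩ := I.cof 2 1 two_pos
  have h1 : I.deg a % 2 = 1 := h
  exact (I.wr_aux ha hb (n := I.deg a - 1) (by omega)).1

/-- Weil reciprocity -/
theorem reciprocity {a b : R} (ha : a ≠ 0) (hb : b ≠ 0) :
    Algebra.norm k (Ideal.Quotient.mk (Ideal.span {b}) a) * I.lc b ^ I.deg a =
      (-1) ^ (I.deg a * I.deg b) *
        (Algebra.norm k (Ideal.Quotient.mk (Ideal.span {a}) b) * I.lc a ^ I.deg b) := by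
  rcases h : I.deg a with _ | n
  · have h1 := I.eq_const ha h
    have h2 : IsUnit a := h1 ▸ (IsUnit.mk0 _ (I.lc_ne a ha)).map (algebraMap k R)
    have h3 : Ideal.Quotient.mk (Ideal.span {a}) b = 1 :=
      Ideal.Quotient.eq.2 (by rw [Ideal.span_singleton_eq_top.2 h2]; trivial)
    rw [h3, map_one, pow_zero, zero_mul, pow_zero, mul_one, one_mul, one_mul, ← I.finrank_quot hb,
      ← Algebra.norm_algebraMap, ← Ideal.Quotient.mk_algebraMap, ← h1]
  · exact (I.wr_aux ha hb h).2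

end InfData

end

end Pool.Agent.Lib.MP_33b3f9_ag
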