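import Pool.Agent.Lib.MP_33b3f9_ag.EvNorm
import Pool.Agent.Lib.MP_33b3f9_ag.WR

/-!
The Weil pairing formula and its independence of the representatives.
-/

open IsDedekindDomain nonZeroDivisors

namespace Pool.Agent.Lib.MP_33b3f9_ag

noncomputable section

variable {k : Type*} [Field k] [IsAlgClosed k] {R : Type*} [CommRing R] [IsDedekindDomain R]
  [Algebra k R] [Algebra.FiniteType k R] (I : InfData k R)

/-- normalised value of `a` on `E` -/
def nv (a : R) (E : Dv R) : k := evD k a E / I.lc a ^ dg E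

/-- `D` effective and `div a = N D` -/
def Adm (N : ℕ) (D : Dv R) (a : R) : Prop := 0 ≤ D ∧ a ≠ 0 ∧ dvR a = N • D

/-- disjoint supports -/
def Disj (D E : Dv R) : Prop := ∀ P, D P = 0 ∨ E P = 0

/-- the Weil pairing formula -/
def wf (N : ℕ) (D : Dv R) (a : R) (E : Dv R) (b : R) : k :=
  (-1) ^ (N * dg D * dg E) * nv I a E / nv I b D

lemma dg_dvR {b : R} (hb : b ≠ 0) : dg (dvR b) = I.deg b := by
  rw [← finrank_quot (k := k) hb, I.finrank_quot hb]

/-- Weil reciprocity for normalised values -/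
lemma nv_recip {a b : R} (ha : a ≠ 0) (hb : b ≠ 0) :
    nv I a (dvR b) = (-1) ^ (I.deg a * I.deg b) * nv I b (dvR a) := by
  have h := I.reciprocity ha hb
  rw [norm_quot a hb, norm_quot b ha] at h
  have h1 := pow_ne_zero (I.deg b) (I.lc_ne a ha)
  have h2 := pow_ne_zero (I.deg a) (I.lc_ne b hb)
  rw [nv, nv, dg_dvR I hb, dg_dvR I ha, zpow_natCast, zpow_natCast, ← mul_div_assoc,
    div_eq_div_iff h1 h2, h, mul_assoc]

omit [IsDedekindDomain R] in
lemma pairA_inj [IsDomain R] {a : R} (ha : a ≠ 0) : algebraMap R (Fr R) a ≠ 0 :=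
  (map_ne_zero_iff _ (IsFractionRing.injective R (Fr R))).2 ha

lemma pairA_dvR_mul {a b : R} (ha : a ≠ 0) (hb : b ≠ 0) : dvR (a * b) = dvR a + dvR b := by
  rw [dvR, map_mul, dv_mul (pairA_inj ha) (pairA_inj hb)]

lemma pairA_dvR_pow (a : R) (n : ℕ) : dvR (a ^ n) = n • dvR a := by
  rw [dvR, map_pow, dv_pow]

lemma pairA_nv_mul {a b : R} (ha : a ≠ 0) (hb : b ≠ 0) (E : Dv R) :
    nv I (a * b) E = nv I a E * nv I b E := by
  rw [nv, nv, nv, evD_mul, I.lc_mul a b ha hb, mul_zpow, div_mul_div_comm]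

lemma pairA_nv_pow {a : R} (ha : a ≠ 0) (n : ℕ) (E : Dv R) : nv I (a ^ n) E = nv I a E ^ n := by
  rw [nv, nv, evD_pow, I.lc_pow ha, div_pow, ← zpow_natCast (I.lc a), ← zpow_mul, mul_comm,
    zpow_mul, zpow_natCast]

lemma pairA_nv_const {c : k} (hc : c ≠ 0) {E : Dv R} (hE : 0 ≤ E) :
    nv I (algebraMap k R c) E = 1 := by
  rw [nv, evD_algebraMap c hE, I.lc_alg c hc, div_self (zpow_ne_zero _ hc)]

lemma pairA_nv_add {a : R} (ha : a ≠ 0) {D E : Dv R} (hD : 0 ≤ D) (hE : 0 ≤ E) :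
    nv I a (D + E) = nv I a D * nv I a E := by
  rw [nv, nv, nv, evD_add a hD hE, dg_add, zpow_add₀ (I.lc_ne a ha), div_mul_div_comm]

lemma pairA_nv_nsmul (a : R) {E : Dv R} (hE : 0 ≤ E) (n : ℕ) :
    nv I a (n • E) = nv I a E ^ n := by
  rw [nv, nv, evD_nsmul a hE, dg_nsmul, div_pow, mul_comm, zpow_mul, zpow_natCast]

lemma pairA_nv_ne {a : R} (ha : a ≠ 0) {E : Dv R} (h : ∀ P, E P ≠ 0 → dvR a P = 0) :
    nv I a E ≠ 0 :=
  div_ne_zero (evD_ne_zero ha h) (zpow_ne_zero _ (I.lc_ne a ha))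

lemma pairA_adm_ne {N : ℕ} {D E : Dv R} {a : R} (hD : Adm N D a) (h : Disj D E) :
    nv I a E ≠ 0 :=
  pairA_nv_ne I hD.2.1 fun P hP => by
    rw [hD.2.2, Finsupp.smul_apply, (h P).resolve_right hP, smul_zero]

omit [IsDedekindDomain R] in
lemma pairA_disj_symm {D E : Dv R} (h : Disj D E) : Disj E D := fun P => (h P).symm

lemma pairA_cl {N : ℕ} {D : Dv R} {a : R} (hD : Adm N D a) : N • cl D = 0 := by
  rw [← map_nsmul, ← hD.2.2]
  exact (cl_eq_zero_iff _).2 ⟨_, pairA_inj hD.2.1, rfl⟩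

include I in
/-- two functions with the same divisor are proportional -/
lemma prop_of_dvR_eq {a b : R} (ha : a ≠ 0) (hb : b ≠ 0) (h : dvR a = dvR b) :
    ∃ c : k, c ≠ 0 ∧ a = algebraMap k R c * b := by
  have hb' := pairA_inj hb
  have h1 : dv (algebraMap R (Fr R) a * (algebraMap R (Fr R) b)⁻¹) = 0 := by
    rw [dv_mul (pairA_inj ha) (inv_ne_zero hb'), dv_inv]
    exact add_neg_eq_zero.2 h
  obtain ⟨r, hr⟩ := exists_of_dv_nonneg h1.ge
  have h2 : a = r * b := by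
    apply IsFractionRing.injective R (Fr R)
    rw [map_mul, hr, inv_mul_cancel_right₀ hb']
  have h3 : r ≠ 0 := fun h0 => ha (by rw [h2, h0, zero_mul])
  have h4 : IsUnit r := (dvR_eq_zero_iff h3).1 (by rw [dvR, hr, h1])
  exact ⟨I.lc r, I.lc_ne r h3, by rw [← I.unit_eq_const h4, ← h2]⟩

lemma exists_adm {N : ℕ} {c : Additive (CommRing.Pic R)} (hc : N • c = 0) (S : Finset (Pt R)) :
    ∃ D a, Adm N D a ∧ cl D = c ∧ ∀ P ∈ S, D P = 0 := by
  obtain ⟨D, hD, hcl, hS⟩ := exists_eff_disjoint c S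
  obtain ⟨u, hu, hd⟩ := (cl_eq_zero_iff (N • D)).1 (by rw [map_nsmul, hcl, hc])
  obtain ⟨a, rfl⟩ := exists_of_dv_nonneg (u := u) (hd ▸ nsmul_nonneg hD N)
  exact ⟨D, a, ⟨hD, fun h => hu (by rw [h, map_zero]), hd⟩, hcl, hS⟩

lemma wf_swap {N : ℕ} (hN : 0 < N) {D E : Dv R} {a b : R} (hD : Adm N D a) (hE : Adm N E b)
    (h : Disj D E) : wf I N D a E b * wf I N E b D a = 1 := by
  have h1 := pairA_adm_ne I hD h
  have h2 := pairA_adm_ne I hE (pairA_disj_symm h)
  have h3 : (-1 : k) ^ (N * dg D * dg E) * (-1) ^ (N * dg E * dg D) = 1 := by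
    rw [mul_right_comm (N : ℤ), ← mul_zpow]
    simp
  rw [wf, wf, div_mul_div_comm, div_eq_one_iff_eq (mul_ne_zero h2 h1)]
  linear_combination (nv I a E * nv I b D) * h3

/-- independence of the first representative -/
lemma wf_indep_left {N : ℕ} (hN : 0 < N) {D D' E : Dv R} {a a' b : R} (hD : Adm N D a)
    (hD' : Adm N D' a') (hE : Adm N E b) (h : Disj D E) (h' : Disj D' E) (hcl : cl D = cl D') :
    wf I N D a E b = wf I N D' a' E b := by
  obtain ⟨c, c', hc, hc', he, hS, hS'⟩ := exists_common hD.1 hD'.1 hcl E.support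
    (fun P hP => (h P).resolve_right (Finsupp.mem_support_iff.1 hP))
    (fun P hP => (h' P).resolve_right (Finsupp.mem_support_iff.1 hP))
  have ha := hD.2.1
  have ha' := hD'.2.1
  have hb := hE.2.1
  obtain ⟨κ, hκ, hp⟩ := prop_of_dvR_eq I (mul_ne_zero ha (pow_ne_zero N hc))
    (mul_ne_zero ha' (pow_ne_zero N hc')) (by
      rw [pairA_dvR_mul ha (pow_ne_zero N hc), pairA_dvR_mul ha' (pow_ne_zero N hc'),
        pairA_dvR_pow, pairA_dvR_pow, hD.2.2, hD'.2.2, ← smul_add, ← smul_add, he])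
  have hκ' : algebraMap k R κ ≠ 0 := fun h0 =>
    mul_ne_zero ha (pow_ne_zero N hc) (by rw [hp, h0, zero_mul])
  have e0 : ∀ {x : R}, x ≠ 0 →
      nv I x E ^ N = (-1) ^ (I.deg x * I.deg b) * nv I b (dvR x) := fun hx => by
    rw [← pairA_nv_nsmul I _ hE.1, ← hE.2.2, nv_recip I hx hb]
  have e1 := congrArg (fun x => nv I x E) hp
  rw [pairA_nv_mul I hκ' (mul_ne_zero ha' (pow_ne_zero N hc')), pairA_nv_const I hκ hE.1, one_mul,
    pairA_nv_mul I ha (pow_ne_zero N hc), pairA_nv_mul I ha' (pow_ne_zero N hc'),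
    pairA_nv_pow I hc, pairA_nv_pow I hc', e0 hc, e0 hc'] at e1
  have e2 := congrArg (nv I b) he
  rw [pairA_nv_add I hb hD.1 (dvR_nonneg c), pairA_nv_add I hb hD'.1 (dvR_nonneg c')] at e2
  have e3 := congrArg dg he
  rw [dg_add, dg_add, dg_dvR I hc, dg_dvR I hc'] at e3
  have e4 : (I.deg b : ℤ) = N * dg E := by rw [← dg_dvR I hb, hE.2.2, dg_nsmul]
  have m1 : (-1 : k) ≠ 0 := neg_ne_zero.2 one_ne_zero
  have e5 : (-1 : k) ^ (N * dg D * dg E) * (-1) ^ (I.deg c * I.deg b) =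
      (-1) ^ (N * dg D' * dg E) * (-1) ^ (I.deg c' * I.deg b) := by
    rw [← zpow_natCast, ← zpow_natCast, ← zpow_add₀ m1, ← zpow_add₀ m1]
    congr 1
    push_cast
    rw [e4]
    linear_combination (N * dg E) * e3
  have e6 : ∀ n : ℕ, (-1 : k) ^ n * (-1) ^ n = 1 := fun n => by
    rw [← mul_pow]
    simp
  have n1 := pairA_adm_ne I hE (pairA_disj_symm h)
  have n2 := pairA_adm_ne I hE (pairA_disj_symm h')
  have n3 : nv I b (dvR c) ≠ 0 := pairA_nv_ne I hb fun P hP => by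
    have : E P = 0 := by
      by_contra h0
      exact hP (hS P (Finsupp.mem_support_iff.2 h0))
    rw [hE.2.2, Finsupp.smul_apply, this, smul_zero]
  have t1 := e6 (I.deg c * I.deg b)
  have t2 := e6 (I.deg c' * I.deg b)
  rw [wf, wf, div_eq_div_iff n1 n2]
  apply mul_right_cancel₀ n3
  generalize (-1 : k) ^ (I.deg c * I.deg b) = t at *
  generalize (-1 : k) ^ (I.deg c' * I.deg b) = t' at *
  generalize (-1 : k) ^ (N * dg D * dg E) = s at *
  generalize (-1 : k) ^ (N * dg D' * dg E) = s' at *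
  linear_combination (s * t * nv I b D') * e1 - (s' * nv I a' E) * e2 +
    (nv I a' E * t' * nv I b D' * nv I b (dvR c')) * e5 -
    (s * nv I a E * nv I b D' * nv I b (dvR c)) * t1 +
    (s' * nv I a' E * nv I b D' * nv I b (dvR c')) * t2

/-- independence of both representatives -/
lemma wf_indep {N : ℕ} (hN : 0 < N) {D D' E E' : Dv R} {a a' b b' : R} (hD : Adm N D a)
    (hD' : Adm N D' a') (hE : Adm N E b) (hE' : Adm N E' b') (h : Disj D E) (h' : Disj D' E')
    (hcl : cl D = cl D') (hcl' : cl E = cl E') :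
    wf I N D a E b = wf I N D' a' E' b' := by
  classical
  obtain ⟨E'', b'', hE'', hc, hS⟩ := exists_adm (pairA_cl hE) (D.support ∪ D'.support)
  have d1 : Disj D E'' := fun P => by
    by_cases h0 : D P = 0
    · exact Or.inl h0
    · exact Or.inr (hS P (Finset.mem_union_left _ (Finsupp.mem_support_iff.2 h0)))
  have d2 : Disj D' E'' := fun P => by
    by_cases h0 : D' P = 0
    · exact Or.inl h0
    · exact Or.inr (hS P (Finset.mem_union_right _ (Finsupp.mem_support_iff.2 h0)))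
  have s1 := wf_swap I hN hD hE h
  have s2 := wf_swap I hN hD hE'' d1
  have s3 := wf_swap I hN hD' hE'' d2
  have s4 := wf_swap I hN hD' hE' h'
  rw [wf_indep_left I hN hE hE'' hD (pairA_disj_symm h) (pairA_disj_symm d1) hc.symm] at s1
  rw [wf_indep_left I hN hE' hE'' hD' (pairA_disj_symm h') (pairA_disj_symm d2)
    (hcl'.symm.trans hc.symm)] at s4
  rw [eq_inv_of_mul_eq_one_left s1, eq_inv_of_mul_eq_one_left s4, ← eq_inv_of_mul_eq_one_left s2,
    ← eq_inv_of_mul_eq_one_left s3]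
  exact wf_indep_left I hN hD hD' hE'' d1 d2 hcl

end

end Pool.Agent.Lib.MP_33b3f9_ag
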