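import Pool.Agent.Lib.MP_33b3f9_ag.PtsB
import Pool.Agent.Lib.MP_33b3f9_ag.Pair

/-!
Invariant divisors, Weil pairing of Weierstrass points.
-/

open Polynomial

namespace Pool.Agent.Lib.MP_33b3f9_ag

noncomputable section

variable {k₁ : Type*} [Field k₁] {k : Type*} [Field k] [IsAlgClosed k] [CharZero k]
  [Algebra k₁ k] {ι : Type} [Fintype ι] (a : ι → k₁) [IsDedekindDomain (Coord k a)]

omit [IsAlgClosed k] [CharZero k] [IsDedekindDomain (Coord k a)] in
theorem pts_pol_ne {p : k[X]} (hp : p ≠ 0) : pol a p ≠ 0 := fun h =>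
  hp (rep_unique a (B := 0) (by rw [h, map_zero, zero_mul, add_zero])).1

theorem pts_dv_zpow {R : Type*} [CommRing R] [IsDedekindDomain R] (u : Fr R) (n : ℤ) :
    dv (u ^ n) = n • dv u := by
  rcases n with n | n
  · rw [Int.ofNat_eq_natCast, zpow_natCast, dv_pow, natCast_zsmul]
  · rw [zpow_negSucc, dv_inv, dv_pow, negSucc_zsmul]

omit [IsAlgClosed k] [CharZero k] [IsDedekindDomain (Coord k a)] in
theorem pts_fr_ne (c : k) : algebraMap (Coord k a) (Fr (Coord k a)) (pol a (X - C c)) ≠ 0 :=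
  (map_ne_zero_iff _ (IsFractionRing.injective _ _)).2 (pts_pol_ne a (X_sub_C_ne_zero c))

theorem pts_cl_zero (n : ℕ) : ∀ D : Dv (Coord k a), D.support.card ≤ n →
    (∀ P, D (ptMap (tau a) P) = D P) → (∀ P, ptMap (tau a) P = P → D P = 0) → cl D = 0 := by
  classical
  induction n with
  | zero =>
    intro D h _ _
    rw [Finsupp.support_eq_empty.1 (Finset.card_eq_zero.1 (Nat.le_zero.1 h)), map_zero]
  | succ n ih =>
    intro D h h1 h2
    rcases D.support.eq_empty_or_nonempty with e | ⟨P, hP⟩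
    · rw [Finsupp.support_eq_empty.1 e, map_zero]
    have hne : ptMap (tau a) P ≠ P := fun e => Finsupp.mem_support_iff.1 hP (h2 P e)
    have h3 : cl (Finsupp.single P 1 + Finsupp.single (ptMap (tau a) P) 1) = 0 :=
      (cl_eq_zero_iff _).2 ⟨_, pts_fr_ne a _, dvR_X_sub a P⟩
    have h4 : ∀ Q, (D - D P • (Finsupp.single P 1 + Finsupp.single (ptMap (tau a) P) 1) :
        Dv (Coord k a)) Q = if Q = P ∨ Q = ptMap (tau a) P then 0 else D Q := by
      intro Q
      by_cases e1 : Q = P
      · simp [e1, hne]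
      · by_cases e2 : Q = ptMap (tau a) P
        · simp [e2, hne, h1]
        · simp [e1, e2]
    have h5 := ih (D - D P • (Finsupp.single P 1 + Finsupp.single (ptMap (tau a) P) 1)) ?_ ?_ ?_
    · rwa [map_sub, map_zsmul, h3, smul_zero, sub_zero] at h5
    · refine Nat.le_of_lt_succ (lt_of_lt_of_le (Finset.card_lt_card ⟨fun Q hQ => ?_,
        fun e => ?_⟩) h)
      · rw [Finsupp.mem_support_iff, h4] at hQ
        exact Finsupp.mem_support_iff.2 fun e => hQ (by rw [e, ite_self])
      · exact Finsupp.mem_support_iff.1 (e hP) (by rw [h4, if_pos (Or.inl rfl)])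
    · intro Q
      rw [h4, h4, h1]
      refine if_congr ⟨?_, ?_⟩ rfl rfl
      · rintro (e | e)
        · exact Or.inr (by rw [← e, ptMap_tau_tau])
        · exact Or.inl ((ptMap (tau a)).injective e)
      · rintro (rfl | rfl)
        · exact Or.inr rfl
        · exact Or.inl (ptMap_tau_tau a P)
    · intro Q hQ
      rw [h4, h2 Q hQ, ite_self]

/-- `D + τ D` is the divisor of a `τ`-invariant function fixed -/
theorem exists_norm_div (D : Dv (Coord k a)) : ∃ h : Fr (Coord k a), h ≠ 0 ∧
    frMap (tau a) h = h ∧ dv h = D + dvMap (tau a) D := by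
  induction D using Finsupp.induction_linear with
  | zero => exact ⟨1, one_ne_zero, map_one _, by rw [dv_one, map_zero, add_zero]⟩
  | add D D' h h' =>
    obtain ⟨u, u1, u2, u3⟩ := h
    obtain ⟨v, v1, v2, v3⟩ := h'
    refine ⟨u * v, mul_ne_zero u1 v1, by rw [map_mul, u2, v2], ?_⟩
    rw [dv_mul u1 v1, u3, v3, map_add, add_add_add_comm]
  | single P n =>
    refine ⟨_ ^ n, zpow_ne_zero n (pts_fr_ne a (ev k P (pol a X))), ?_, ?_⟩
    · rw [map_zpow₀, frMap_algebraMap, tau_pol]
    · rw [pts_dv_zpow, dvMap_single]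
      refine (congrArg (n • ·) (dvR_X_sub a P)).trans ?_
      simp only [smul_add, Finsupp.smul_single, smul_eq_mul, mul_one]

/-- the class of an invariant divisor -/
theorem cl_invariant (hinj : Function.Injective a) {D : Dv (Coord k a)}
    (hD : dvMap (tau a) D = D) : cl D = ∑ i, D (wpt k a i) • wcl k a i := by
  classical
  have h1 : ∀ P, D (ptMap (tau a) P) = D P := fun P => by
    rw [← dvMap_apply (tau a) D P, hD]
  have h2 : ∀ Q, ptMap (tau a) Q ≠ Q →
      (∑ i, Finsupp.single (wpt k a i) (D (wpt k a i)) : Dv (Coord k a)) Q = 0 := fun Q hQ => by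
    rw [Finsupp.finsetSum_apply]
    exact Finset.sum_eq_zero fun i _ => Finsupp.single_eq_of_ne fun e =>
      hQ ((ptMap_tau_eq_iff a Q).2 ⟨i, e⟩)
  have h3 := pts_cl_zero a _ (D - ∑ i, Finsupp.single (wpt k a i) (D (wpt k a i))) le_rfl ?_ ?_
  · rw [map_sub, sub_eq_zero, map_sum] at h3
    simpa only [cl_single, wcl] using h3
  · intro Q
    by_cases e : ptMap (tau a) Q = Q
    · rw [e]
    · rw [Finsupp.sub_apply, Finsupp.sub_apply, h1, h2 Q e,
        h2 _ fun e' => e ((ptMap (tau a)).injective e')]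
  · intro Q hQ
    obtain ⟨j, rfl⟩ := (ptMap_tau_eq_iff a Q).1 hQ
    rw [Finsupp.sub_apply, Finsupp.finsetSum_apply, Finset.sum_eq_single j (fun i _ hi =>
      Finsupp.single_eq_of_ne fun e => hi (wpt_injective a hinj e).symm) (by simp),
      Finsupp.single_eq_same, sub_self]

/-- value of the Weil pairing on Weierstrass points -/
theorem wp_wcl (hinj : Function.Injective a) (I : InfData k (Coord k a))
    (hI : ∀ p : k[X], p ≠ 0 → I.lc (pol a p) = p.leadingCoeff) {i j : ι} (hij : i ≠ j) :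
    wp I 2 (wcl k a i) (wcl k a j) = -1 := by
  have hA : ∀ m, Adm 2 (Finsupp.single (wpt k a m) 1) (pol a (X - C (algebraMap k₁ k (a m)))) :=
    fun m => ⟨Finsupp.single_nonneg.2 zero_le_one, pts_pol_ne a (X_sub_C_ne_zero _),
      dvR_X_sub_wpt a m⟩
  have hc : ∀ m, wcl k a m = cl (Finsupp.single (wpt k a m) 1) := fun m => by
    rw [cl_single, one_smul, wcl]
  have hn : ∀ m m', nv I (pol a (X - C (algebraMap k₁ k (a m)))) (Finsupp.single (wpt k a m') 1) =
      algebraMap k₁ k (a m') - algebraMap k₁ k (a m) := fun m m' => by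
    rw [nv, evD_single, dg_single, hI _ (X_sub_C_ne_zero _), ev_pol, ev_wpt_x]
    simp
  have hd : Disj (Finsupp.single (wpt k a i) 1) (Finsupp.single (wpt k a j) 1) := fun P => by
    by_cases e : P = wpt k a i
    · exact Or.inr (Finsupp.single_eq_of_ne fun e' => hij (wpt_injective a hinj (e.symm.trans e')))
    · exact Or.inl (Finsupp.single_eq_of_ne e)
  have h0 : algebraMap k₁ k (a i) - algebraMap k₁ k (a j) ≠ 0 :=
    sub_ne_zero.2 fun e => hij (hinj ((algebraMap k₁ k).injective e))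
  rw [hc, hc, wp_spec I two_pos (hA i) (hA j) hd, wf, hn, hn, dg_single, dg_single,
    div_eq_iff h0]
  norm_num

end

end Pool.Agent.Lib.MP_33b3f9_ag
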