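import Pool.Agent.Lib.MP_33b3f9_ag.Hyp
import Pool.Agent.Lib.MP_33b3f9_ag.Ev

/-!
Points of the hyperelliptic curve, Weierstrass points.
-/

open Polynomial

namespace Pool.Agent.Lib.MP_33b3f9_ag

noncomputable section

variable {k₁ : Type*} [Field k₁] {k : Type*} [Field k] [IsAlgClosed k] [CharZero k]
  [Algebra k₁ k] {ι : Type} [Fintype ι] (a : ι → k₁) [IsDedekindDomain (Coord k a)]

omit [CharZero k] [IsAlgClosed k] [IsDedekindDomain (Coord k a)] in
lemma ptsA_eval_hyp (i : ι) : (hyp k a).eval (algebraMap k₁ k (a i)) = 0 := by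
  rw [hyp, eval_prod]
  exact Finset.prod_eq_zero (Finset.mem_univ i) (by simp)

omit [CharZero k] [IsAlgClosed k] [IsDedekindDomain (Coord k a)] in
lemma ptsA_exists_hom (c : k) (hc : (hyp k a).eval c = 0) : ∃ e : Coord k a →ₐ[k] k,
    e (pol a X) = c ∧ e (yy a) = 0 := by
  let e₀ : Coord k a →+* k := AdjoinRoot.lift (evalRingHom c) 0 (by simp [hc])
  have h1 : ∀ p : k[X], e₀ (pol a p) = p.eval c := fun p => by
    simp [e₀, pol]
  refine ⟨{ e₀ with commutes' := fun z => ?_ }, ?_, ?_⟩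
  · have h2 := h1 (C z)
    rw [pol_C, eval_C] at h2
    exact h2
  · have h2 := h1 X
    rw [eval_X] at h2
    exact h2
  · change e₀ (yy a) = 0
    simp [e₀, yy]

omit [CharZero k] [IsAlgClosed k] [IsDedekindDomain (Coord k a)] in
lemma ptsA_yy_ne : (yy a : Coord k a) ≠ 0 := by
  intro h
  have h1 : pol a (0 : k[X]) + pol a 1 * yy a = 0 := by simp [h]
  exact one_ne_zero (rep_unique a h1).2

omit [CharZero k] in
lemma exists_wpt (i : ι) : ∃ P : Pt (Coord k a),
    ev k P (pol a X) = algebraMap k₁ k (a i) ∧ ev k P (yy a) = 0 := by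
  obtain ⟨e, h1, h2⟩ := ptsA_exists_hom a _ (ptsA_eval_hyp (k := k) a i)
  obtain ⟨P, hP⟩ := exists_pt e (yy a) (ptsA_yy_ne a) h2
  exact ⟨P, hP ▸ h1, hP ▸ h2⟩

variable (k) in
/-- the Weierstrass point `(a_i, 0)` -/
def wpt (i : ι) : Pt (Coord k a) := (exists_wpt a i).choose

omit [CharZero k] in
lemma ev_wpt_x (i : ι) : ev k (wpt k a i) (pol a X) = algebraMap k₁ k (a i) :=
  (exists_wpt a i).choose_spec.1

omit [CharZero k] in
lemma ev_wpt_y (i : ι) : ev k (wpt k a i) (yy a) = 0 := (exists_wpt a i).choose_spec.2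

omit [CharZero k] in
lemma ev_pol (P : Pt (Coord k a)) (p : k[X]) :
    ev k P (pol a p) = p.eval (ev k P (pol a X)) := by
  induction p using Polynomial.induction_on' with
  | add p q hp hq => rw [map_add, map_add, eval_add, hp, hq]
  | monomial n c =>
    rw [← C_mul_X_pow_eq_monomial, map_mul, map_mul, map_pow, map_pow, pol_C, AlgHom.commutes,
      eval_mul, eval_C, eval_pow, eval_X]
    rfl

omit [CharZero k] in
/-- a point is determined by its coordinates -/
lemma pt_ext_xy {P Q : Pt (Coord k a)} (hx : ev k P (pol a X) = ev k Q (pol a X))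
    (hy : ev k P (yy a) = ev k Q (yy a)) : P = Q := by
  refine pt_ext (k := k) fun r => ?_
  obtain ⟨A, B, rfl⟩ := exists_rep a r
  simp only [map_add, map_mul]
  rw [ev_pol a P A, ev_pol a P B, ev_pol a Q A, ev_pol a Q B, hx, hy]

omit [CharZero k] in
lemma wpt_injective (hinj : Function.Injective a) : Function.Injective (wpt k a) := by
  intro i j h
  have h1 := ev_wpt_x (k := k) a i
  rw [h, ev_wpt_x] at h1
  exact hinj ((algebraMap k₁ k).injective h1).symm

omit [CharZero k] in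
lemma ev_tau (P : Pt (Coord k a)) (r : Coord k a) :
    ev k (ptMap (tau a) P) (tau a r) = ev k P r := by
  refine ev_ptMap (tau a) (RingHom.id k) (fun c => ?_) P r
  rw [← pol_C, tau_pol]
  rfl

omit [CharZero k] in
lemma ptsA_tau_x (P : Pt (Coord k a)) :
    ev k (ptMap (tau a) P) (pol a X) = ev k P (pol a X) := by
  rw [← ev_tau a P, tau_pol]

omit [CharZero k] in
lemma ptsA_tau_y (P : Pt (Coord k a)) : ev k (ptMap (tau a) P) (yy a) = -ev k P (yy a) := by
  rw [← ev_tau a P, tau_yy, map_neg, neg_neg]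

omit [CharZero k] in
lemma ptMap_tau_tau (P : Pt (Coord k a)) : ptMap (tau a) (ptMap (tau a) P) = P := by
  refine pt_ext_xy a ?_ ?_
  · rw [ptsA_tau_x, ptsA_tau_x]
  · rw [ptsA_tau_y, ptsA_tau_y, neg_neg]

omit [CharZero k] in
lemma ptMap_tau_wpt (i : ι) : ptMap (tau a) (wpt k a i) = wpt k a i := by
  refine pt_ext_xy a ?_ ?_
  · rw [ptsA_tau_x]
  · rw [ptsA_tau_y, ev_wpt_y, neg_zero]

lemma ptMap_tau_eq_iff (P : Pt (Coord k a)) : ptMap (tau a) P = P ↔ ∃ i, P = wpt k a i := by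
  constructor
  · intro h
    have h1 := ptsA_tau_y a P
    rw [h] at h1
    have h2 : ev k P (yy a) = 0 := by linear_combination (1 / 2 : k) * h1
    have h3 : (hyp k a).eval (ev k P (pol a X)) = 0 := by
      rw [← ev_pol, ← yy_sq, map_pow, h2, zero_pow two_ne_zero]
    unfold hyp at h3
    rw [eval_prod, Finset.prod_eq_zero_iff] at h3
    obtain ⟨i, -, hi⟩ := h3
    rw [eval_sub, eval_X, eval_C, sub_eq_zero] at hi
    exact ⟨i, pt_ext_xy a (hi.trans (ev_wpt_x a i).symm) (h2.trans (ev_wpt_y a i).symm)⟩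
  · rintro ⟨i, rfl⟩
    exact ptMap_tau_wpt a i

omit [CharZero k] in
lemma ptMap_act_wpt (σ : k ≃ₐ[k₁] k) (i : ι) : ptMap (actE a σ) (wpt k a i) = wpt k a i := by
  have h := ev_ptMap (actE a σ) (σ : k →+* k) (fun c => act_algebraMap a σ c) (wpt k a i)
  refine pt_ext_xy a ?_ ?_
  · have h1 := h (pol a X)
    rw [actE_apply, act_pol, map_X, ev_wpt_x] at h1
    rw [h1, ev_wpt_x]
    exact σ.commutes _
  · have h1 := h (yy a)
    rw [actE_apply, act_yy, ev_wpt_y, map_zero] at h1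
    rw [h1, ev_wpt_y]

end

end Pool.Agent.Lib.MP_33b3f9_ag
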