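import Pool.Agent.Lib.MP_33b3f9_ag.PtsA
import Pool.Agent.Lib.MP_33b3f9_ag.EvNorm

/-!
Divisors of `x - c` and `y`, classes of Weierstrass points.
-/

open Polynomial

namespace Pool.Agent.Lib.MP_33b3f9_ag

noncomputable section

variable {k₁ : Type*} [Field k₁] {k : Type*} [Field k] [IsAlgClosed k] [CharZero k]
  [Algebra k₁ k] {ι : Type} [Fintype ι] (a : ι → k₁) [IsDedekindDomain (Coord k a)]

omit [IsAlgClosed k] [CharZero k] [IsDedekindDomain (Coord k a)] in
lemma ptsB_pol_ne {p : k[X]} (hp : p ≠ 0) : pol a p ≠ 0 := by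
  intro h
  refine hp (rep_unique a (A := p) (B := 0) ?_).1
  rw [h, map_zero, zero_mul, add_zero]

omit [IsAlgClosed k] [CharZero k] [IsDedekindDomain (Coord k a)] in
lemma ptsB_yy_ne : (yy a : Coord k a) ≠ 0 := by
  intro h
  refine one_ne_zero (rep_unique a (A := 0) (B := (1 : k[X])) ?_).2
  rw [h, map_zero, mul_zero, add_zero]

omit [IsAlgClosed k] [CharZero k] in
lemma ptsB_fr_ne {r : Coord k a} (hr : r ≠ 0) :
    algebraMap (Coord k a) (Fr (Coord k a)) r ≠ 0 := by
  intro h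
  exact hr (IsFractionRing.injective (Coord k a) (Fr (Coord k a)) (h.trans (map_zero _).symm))

omit [CharZero k] in
lemma ptsB_dg (c : k) : dg (dvR (pol a (X - C c))) = 2 := by
  have hm : (X ^ 2 - C (hyp k a) : k[X][X]).Monic := monic_X_pow_sub_C _ two_ne_zero
  have hne := ptsB_pol_ne a (X_sub_C_ne_zero c)
  rw [← finrank_quot (k := k) hne,
    finrank_quotient_span_eq_natDegree_norm (AdjoinRoot.powerBasis' hm).basis hne]
  have h1 : Algebra.norm k[X] (pol a (X - C c)) = (X - C c) ^ 2 := by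
    have h2 := Algebra.norm_algebraMap_of_basis (AdjoinRoot.powerBasis' hm).basis (X - C c)
    rw [Fintype.card_fin, AdjoinRoot.powerBasis'_dim, natDegree_X_pow_sub_C] at h2
    exact h2
  rw [h1, natDegree_pow, natDegree_X_sub_C]
  norm_num

lemma ptsB_dg_zero {R : Type*} [CommRing R] {D : Dv R} (hD : 0 ≤ D) (h : dg D = 0) : D = 0 := by
  ext Q
  by_contra hQ
  have hQ' : Q ∈ D.support := Finsupp.mem_support_iff.2 hQ
  exact hQ ((Finset.sum_eq_zero_iff_of_nonneg fun P _ => hD P).1 h Q hQ')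

omit [CharZero k] in
lemma ptsB_tau_x (P : Pt (Coord k a)) :
    ev k (ptMap (tau a) P) (pol a X) = ev k P (pol a X) := by
  have h := ev_tau a P (pol a X)
  rwa [tau_pol] at h

omit [CharZero k] in
lemma ptsB_tau_y (P : Pt (Coord k a)) :
    ev k (ptMap (tau a) P) (yy a) = - ev k P (yy a) := by
  have h := ev_tau a P (-yy a)
  rwa [map_neg, tau_yy, neg_neg, map_neg] at h

omit [CharZero k] in
lemma ptsB_ne_zero_iff (Q : Pt (Coord k a)) (c : k) :
    dvR (pol a (X - C c)) Q ≠ 0 ↔ ev k Q (pol a X) = c := by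
  rw [Ne, ← ev_ne_zero_iff (k := k) Q (ptsB_pol_ne a (X_sub_C_ne_zero c)), not_not, ev_pol,
    eval_sub, eval_X, eval_C, sub_eq_zero]

omit [CharZero k] in
lemma ptsB_supp {P Q : Pt (Coord k a)} (h : ev k Q (pol a X) = ev k P (pol a X)) :
    Q = P ∨ Q = ptMap (tau a) P := by
  have h1 : ev k Q (yy a) ^ 2 = ev k P (yy a) ^ 2 := by
    rw [← map_pow, ← map_pow, yy_sq, ev_pol a Q, ev_pol a P, h]
  rcases sq_eq_sq_iff_eq_or_eq_neg.1 h1 with h2 | h2
  · exact Or.inl (pt_ext_xy a h h2)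
  · exact Or.inr (pt_ext_xy a (h.trans (ptsB_tau_x a P).symm) (h2.trans (ptsB_tau_y a P).symm))

/-- the divisor of `x - x(P)` is `P + τ P` -/
theorem dvR_X_sub (P : Pt (Coord k a)) :
    dvR (pol a (X - C (ev k P (pol a X)))) =
      Finsupp.single P 1 + Finsupp.single (ptMap (tau a) P) 1 := by
  classical
  set c := ev k P (pol a X) with hc
  set D := dvR (pol a (X - C c)) with hD
  have h0 : 0 ≤ D := dvR_nonneg _
  have hdg : dg D = 2 := ptsB_dg a c
  have hP : 1 ≤ D P := by
    have h1 : D P ≠ 0 := (ptsB_ne_zero_iff a P c).2 rfl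
    have h2 : 0 ≤ D P := h0 P
    omega
  have hP' : 1 ≤ D (ptMap (tau a) P) := by
    have h1 : D (ptMap (tau a) P) ≠ 0 := (ptsB_ne_zero_iff a _ c).2 (ptsB_tau_x a P)
    have h2 : 0 ≤ D (ptMap (tau a) P) := h0 _
    omega
  by_cases hτ : ptMap (tau a) P = P
  · have h1 : D = Finsupp.single P (D P) := by
      ext Q
      by_cases hQ : Q = P
      · rw [hQ, Finsupp.single_eq_same]
      · rw [Finsupp.single_eq_of_ne hQ]
        by_contra h
        rcases ptsB_supp a ((ptsB_ne_zero_iff a Q c).1 h) with h2 | h2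
        · exact hQ h2
        · exact hQ (h2.trans hτ)
    have h2 : D P = 2 := by
      rw [h1, dg_single] at hdg
      exact hdg
    rw [h1, h2, hτ, ← Finsupp.single_add]
    norm_num
  · set E := D - (Finsupp.single P 1 + Finsupp.single (ptMap (tau a) P) 1) with hE
    have h1 : D = E + (Finsupp.single P 1 + Finsupp.single (ptMap (tau a) P) 1) := by
      rw [hE, sub_add_cancel]
    have h2 : 0 ≤ E := by
      intro Q
      have h3 : 0 ≤ D Q := h0 Q
      simp only [hE, Finsupp.coe_zero, Pi.zero_apply, Finsupp.sub_apply, Finsupp.add_apply,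
        Finsupp.single_apply]
      by_cases hQ : P = Q
      · subst hQ
        rw [if_pos rfl, if_neg hτ]
        omega
      · by_cases hQ' : ptMap (tau a) P = Q
        · subst hQ'
          rw [if_neg hQ, if_pos rfl]
          omega
        · rw [if_neg hQ, if_neg hQ']
          omega
    have h3 : dg E = 0 := by
      rw [h1, dg_add, dg_add, dg_single, dg_single] at hdg
      omega
    rw [h1, ptsB_dg_zero h2 h3, zero_add]

theorem dvR_X_sub_wpt (i : ι) :
    dvR (pol a (X - C (algebraMap k₁ k (a i)))) = 2 • Finsupp.single (wpt k a i) 1 := by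
  have h := dvR_X_sub a (wpt k a i)
  rw [ev_wpt_x, ptMap_tau_wpt] at h
  rw [h, two_smul]

theorem dvR_yy (hinj : Function.Injective a) :
    dvR (yy a : Coord k a) = ∑ i, Finsupp.single (wpt k a i) 1 := by
  have h0 : pol a (hyp k a) = ∏ i, pol a (X - C (algebraMap k₁ k (a i))) :=
    map_prod (pol a) (fun i => X - C (algebraMap k₁ k (a i))) Finset.univ
  have h1 : 2 • dvR (yy a : Coord k a) = 2 • ∑ i, Finsupp.single (wpt k a i) (1 : ℤ) := by
    rw [← dv_pow, ← map_pow, yy_sq, h0, map_prod,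
      dv_prod _ _ fun i _ => ptsB_fr_ne a (ptsB_pol_ne a (X_sub_C_ne_zero _)), Finset.smul_sum]
    exact Finset.sum_congr rfl fun i _ => dvR_X_sub_wpt a i
  ext Q
  have h2 := DFunLike.congr_fun h1 Q
  simp only [Finsupp.smul_apply, nsmul_eq_mul, Nat.cast_ofNat] at h2
  omega

variable (k) in
/-- the class of the Weierstrass point -/
def wcl (i : ι) : Jac k a := clPt (wpt k a i)

theorem two_wcl (i : ι) : 2 • wcl k a i = 0 := by
  have h : cl (dvR (pol a (X - C (algebraMap k₁ k (a i))))) = 0 :=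
    (cl_eq_zero_iff _).2 ⟨_, ptsB_fr_ne a (ptsB_pol_ne a (X_sub_C_ne_zero _)), rfl⟩
  rw [dvR_X_sub_wpt, map_nsmul, cl_single, one_smul] at h
  exact h

theorem sum_wcl (hinj : Function.Injective a) : ∑ i, wcl k a i = 0 := by
  have h : cl (dvR (yy a : Coord k a)) = 0 :=
    (cl_eq_zero_iff _).2 ⟨_, ptsB_fr_ne a (ptsB_yy_ne a), rfl⟩
  rw [dvR_yy a hinj, map_sum] at h
  simp only [cl_single, one_smul] at h
  exact h

omit [CharZero k] in
theorem actJ_cl (σ : k ≃ₐ[k₁] k) (D : Dv (Coord k a)) :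
    actJ a σ (cl D) = cl (dvMap (actE a σ) D) := by
  rw [cl_dvMap, coe_actE]
  rfl

omit [CharZero k] in
theorem actJ_wcl (σ : k ≃ₐ[k₁] k) (i : ι) : actJ a σ (wcl k a i) = wcl k a i := by
  have h := actJ_cl a σ (Finsupp.single (wpt k a i) 1)
  rw [dvMap_single, ptMap_act_wpt, cl_single, one_smul] at h
  exact h

end

end Pool.Agent.Lib.MP_33b3f9_ag
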