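import Pool.Agent.Lib.MP_33b3f9_ag.IgHMain
import Pool.Agent.Lib.MP_33b3f9_ag.IgSimple

/-!
The Mumford-Tate conjecture (at the prime 2) for the Jacobian of `y^2 = f(x)` when the Galois
group of `f` is doubly transitive and enough products of the values `f'(a_i)` are not squares.
-/

open Polynomial Pool.Agent.Lib.MP_33b3f9_ag

namespace Pool.Agent.Lib.MP_33b3f9_ag.RigidGaloisOld

theorem result {k₀ : Type*} [Field k₀] [CharZero k₀] (hfg : (⊤ : IntermediateField ℚ k₀).FG)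
    {k : Type*} [Field k] [Algebra k₀ k] [IsAlgClosure k₀ k] (g : ℕ) (hg : 1 ≤ g) (f : k₀[X])
    (a : Fin (2 * g + 1) → k) (hinj : Function.Injective a)
    (hf : f.map (algebraMap k₀ k) = ∏ i, (X - C (a i))) (hG : BigGal k₀ a)
    (hc : Indep k₀ a ∨ SimpleGal k₀ a ∧ NonSq k₀ a) :
    MTHolds (Fin (2 * g)) (galF (k := k) f) :=
  haveI : Nonempty (Fin (2 * g)) := ⟨⟨0, by omega⟩⟩
  (hyp_main hfg g hg f a hinj hf hc).mtHolds hG

/-- `SimpleGal` holds if each root is fixed by a 2-subgroup of the Galois group that is transitive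
on the other roots (as for `SL_2(q)`, `Sz(q)`, `U_3(q)` with `q` a power of 2). -/
theorem simpleGal_example {k₀ k : Type*} [Field k₀] [Field k] [Algebra k₀ k] {g : ℕ}
    {a : Fin (2 * g + 1) → k}
    (h : ∀ i, ∃ U : Subgroup (Equiv.Perm (Fin (2 * g + 1))), IsPGroup 2 U ∧
      (∀ u ∈ U, Ind k₀ a u ∧ u i = i) ∧ ∀ p q, p ≠ i → q ≠ i → ∃ u ∈ U, u p = q) :
    SimpleGal k₀ a :=
  simpleGal_of_syl h

end Pool.Agent.Lib.MP_33b3f9_ag.RigidGaloisOld
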