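import Pool.Agent.Lib.MP_33b3f9_ag.TateA

/-!
The limit of the Weil pairings.
-/

open Matrix

namespace Pool.Agent.Lib.MP_33b3f9_ag

noncomputable section

variable {ν : Type} [Fintype ν] [DecidableEq ν] {J : Type*} [AddCommGroup J]

theorem tateB_roots (k : Type*) [Field k] [IsAlgClosed k] [CharZero k] :
    ∃ ζ : ℕ → k, (∀ n, IsPrimitiveRoot (ζ n) (2 ^ n)) ∧ ∀ n, ζ (n + 1) ^ 2 = ζ n := by
  choose s hs using fun x : k => IsAlgClosed.exists_pow_nat_eq x two_pos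
  let z : ℕ → k := fun n => Nat.rec (-1) (fun _ a => s a) n
  have hz : ∀ n, z n ^ 2 ^ n = -1 := fun n => by
    induction n with
    | zero => exact pow_one _
    | succ n ih =>
      rw [pow_succ', pow_mul, show z (n + 1) ^ 2 = z n from hs _, ih]
  refine ⟨fun n => Nat.casesOn n 1 z, fun n => ?_, fun n => ?_⟩
  · rcases n with _ | n
    · exact IsPrimitiveRoot.one
    · have h : orderOf (z n) = 2 ^ (n + 1) := orderOf_eq_prime_pow
        (by rw [hz]; norm_num) (by rw [pow_succ, pow_mul, hz]; norm_num)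
      exact h ▸ IsPrimitiveRoot.orderOf (z n)
  · rcases n with _ | n
    · exact neg_one_sq
    · exact hs _

theorem tateB_cast {k : Type*} [Field k] {ζ : k} {N : ℕ} (h : IsPrimitiveRoot ζ N) (m : ℕ) :
    ζ ^ (m : ZMod N).val = ζ ^ m := by
  rw [ZMod.val_natCast, ← pow_eq_pow_mod m h.pow_eq_one]

theorem tateB_inj {k : Type*} [Field k] {ζ : k} {N : ℕ} [NeZero N] (h : IsPrimitiveRoot ζ N)
    {a b : ZMod N} (hab : ζ ^ a.val = ζ ^ b.val) : a = b :=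
  ZMod.val_injective N (h.pow_inj (ZMod.val_lt a) (ZMod.val_lt b) hab)

theorem tateB_add {k : Type*} [Field k] {ζ : k} {N : ℕ} [NeZero N] (h : IsPrimitiveRoot ζ N)
    (a b : ZMod N) : ζ ^ (a + b).val = ζ ^ a.val * ζ ^ b.val := by
  rw [ZMod.val_add, ← pow_eq_pow_mod _ h.pow_eq_one, pow_add]

theorem tateB_lin {n : ℕ} (φ : (ν → ℤ_[2]) →+ ZMod (2 ^ n)) (x : ν → ℤ_[2]) :
    φ x = ∑ i, PadicInt.toZModPow n (x i) * φ (Pi.single i 1) := by
  have h0 : ((2 ^ n : ℕ) : ZMod (2 ^ n)) = 0 := ZMod.natCast_self _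
  have h1 : ∀ (c : ℤ_[2]) (y : ν → ℤ_[2]), φ (c • y) = PadicInt.toZModPow n c * φ y := by
    intro c y
    obtain ⟨d, hd⟩ := Ideal.mem_span_singleton.1 (PadicInt.appr_spec n c)
    have h2 : c = (c.appr n : ℤ_[2]) + ((2 ^ n : ℕ) : ℤ_[2]) * d := by
      rw [Nat.cast_pow, ← hd, add_sub_cancel]
    generalize c.appr n = a at h2
    rw [h2, add_smul, mul_smul, Nat.cast_smul_eq_nsmul, Nat.cast_smul_eq_nsmul, map_add, map_nsmul,
      map_nsmul, map_add, map_mul, map_natCast, map_natCast, nsmul_eq_mul, nsmul_eq_mul, h0,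
      zero_mul, zero_mul, add_zero, add_zero]
  conv_lhs => rw [pi_eq_sum_univ' x, map_sum]
  exact Finset.sum_congr rfl fun i _ => h1 _ _

/-- the limit of a compatible system of pairings -/
theorem exists_form {k : Type*} [Field k] [IsAlgClosed k] [CharZero k] {π : (ν → ℚ_[2]) →+ J}
    (hker : ∀ x, π x = 0 ↔ ∀ i, ‖x i‖ ≤ 1) (e : ℕ → J → J → k)
    (hpow : ∀ n P Q, 2 ^ n • P = 0 → 2 ^ n • Q = 0 → e n P Q ^ 2 ^ n = 1)
    (hswap : ∀ n P Q, 2 ^ n • P = 0 → 2 ^ n • Q = 0 → e n P Q * e n Q P = 1)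
    (hadd : ∀ n P P' Q, 2 ^ n • P = 0 → 2 ^ n • P' = 0 → 2 ^ n • Q = 0 →
      e n (P + P') Q = e n P Q * e n P' Q)
    (hcomp : ∀ n P Q, 2 ^ n • P = 0 → 2 ^ (n + 1) • Q = 0 → e (n + 1) P Q = e n P (2 • Q)) :
    ∃ (ζ : ℕ → k) (E : Matrix ν ν ℤ_[2]), (∀ n, IsPrimitiveRoot (ζ n) (2 ^ n)) ∧ Eᵀ = -E ∧
      ∀ n x y, e n (lvl π n x) (lvl π n y) = ζ n ^ (PadicInt.toZModPow n (x ⬝ᵥ E *ᵥ y)).val := by
  obtain ⟨ζ, hζ, hsq⟩ := tateB_roots k
  have tors : ∀ n x, 2 ^ n • lvl π n x = 0 := fun n x => by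
    rw [← map_nsmul]
    exact (lvl_eq_zero_iff hker n _).2 ⟨x, by
      rw [← Nat.cast_smul_eq_nsmul ℤ_[2], Nat.cast_pow, Nat.cast_ofNat]⟩
  have hex : ∀ n x y, ∃ a : ZMod (2 ^ n), ζ n ^ a.val = e n (lvl π n x) (lvl π n y) := by
    intro n x y
    obtain ⟨i, _, hi⟩ := (hζ n).eq_pow_of_pow_eq_one (hpow n _ _ (tors n x) (tors n y))
    exact ⟨i, (tateB_cast (hζ n) i).trans hi⟩
  choose ε hε using hex
  have h1 : ∀ n x x' y, ε n (x + x') y = ε n x y + ε n x' y := fun n x x' y =>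
    tateB_inj (hζ n) (by
      rw [tateB_add (hζ n), hε, hε, hε, map_add, hadd n _ _ _ (tors n x) (tors n x') (tors n y)])
  have h2 : ∀ n x y, ε n x y = -ε n y x := fun n x y =>
    eq_neg_of_add_eq_zero_left (tateB_inj (hζ n) (by
      rw [tateB_add (hζ n), hε, hε, hswap n _ _ (tors n x) (tors n y), ZMod.val_zero, pow_zero]))
  have h3 : ∀ n x y, ε n x y = ((ε (n + 1) x y).val : ZMod (2 ^ n)) := fun n x y =>
    tateB_inj (hζ n) (by
      have a1 : 2 ^ (n + 1) • lvl π (n + 1) x = 0 := tors _ x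
      rw [tateB_cast (hζ n), hε, ← hsq n, ← pow_mul, mul_comm, pow_mul, hε, sq,
        ← hadd _ _ _ _ a1 a1 (tors _ y), ← two_nsmul, lvl_succ,
        hcomp n _ _ (tors n x) (tors _ y), lvl_succ])
  have h4 : ∀ x y n, ((2 : ℕ) : ℤ) ^ n ∣ ((ε (n + 1) x y).val : ℤ) - ((ε n x y).val : ℤ) := by
    intro x y n
    rw [← Nat.cast_pow, ← ZMod.intCast_eq_intCast_iff_dvd_sub, Int.cast_natCast, Int.cast_natCast,
      ZMod.natCast_zmod_val]
    exact h3 n x y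
  have h5 : ∀ x y, ∃ c : ℤ_[2], ∀ n, PadicInt.toZModPow n c = ε n x y := fun x y =>
    ⟨_, fun n => (PadicInt.toZModPow_ofIntSeq_of_pow_dvd_sub
      (fun m => ((ε m x y).val : ℤ)) 2 (h4 x y) n).trans
        ((Int.cast_natCast _).trans (ZMod.natCast_zmod_val _))⟩
  choose c hc using h5
  refine ⟨ζ, Matrix.of fun i j => c (Pi.single i 1) (Pi.single j 1), hζ, ?_, fun n x y => ?_⟩
  · ext i j : 1
    refine PadicInt.ext_of_toZModPow.1 fun n => ?_
    rw [transpose_apply, Matrix.neg_apply, of_apply, of_apply, map_neg, hc, hc, h2]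
  · rw [← hε]
    congr 2
    have h6 : ∀ x y, ε n x y = ∑ i, PadicInt.toZModPow n (x i) * ε n (Pi.single i 1) y :=
      fun x y => tateB_lin (AddMonoidHom.mk' (fun x => ε n x y) fun x x' => h1 n x x' y) x
    rw [h6, dotProduct, map_sum]
    refine Finset.sum_congr rfl fun i _ => ?_
    rw [map_mul, h2, h6, mulVec, dotProduct, map_sum, ← Finset.sum_neg_distrib]
    congr 1
    refine Finset.sum_congr rfl fun j _ => ?_
    rw [map_mul, of_apply, hc, h2 n (Pi.single i 1)]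
    ring

/-- equivariance of the limit form -/
theorem form_equiv {k : Type*} [Field k] (ζ : ℕ → k) (hζ : ∀ n, IsPrimitiveRoot (ζ n) (2 ^ n))
    (E g : Matrix ν ν ℤ_[2]) (c : ℤ_[2])
    (h : ∀ n x y, ζ n ^ (PadicInt.toZModPow n ((g *ᵥ x) ⬝ᵥ E *ᵥ (g *ᵥ y))).val =
      (ζ n ^ (PadicInt.toZModPow n (x ⬝ᵥ E *ᵥ y)).val) ^ (PadicInt.toZModPow n c).val) :
    gᵀ * E * g = c • E := by
  have h1 : ∀ x y, (g *ᵥ x) ⬝ᵥ E *ᵥ (g *ᵥ y) = (x ⬝ᵥ E *ᵥ y) * c := fun x y =>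
    PadicInt.ext_of_toZModPow.1 fun n => tateB_inj (hζ n) (by
      rw [h, ← pow_mul, map_mul, ZMod.val_mul, ← pow_eq_pow_mod _ (hζ n).pow_eq_one])
  ext i j : 1
  have h2 := h1 (Pi.single i 1) (Pi.single j 1)
  rw [mulVec_mulVec, ← vecMul_transpose, ← dotProduct_mulVec, mulVec_mulVec, ← Matrix.mul_assoc,
    single_one_dotProduct, single_one_dotProduct, mulVec_single_one, mulVec_single_one] at h2
  rw [Matrix.smul_apply, smul_eq_mul, mul_comm]
  exact h2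

end

end Pool.Agent.Lib.MP_33b3f9_ag
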