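import Pool.Agent.Lib.MP_33b3f9_ag.Defs

/-!
A sufficient condition for the criterion, and an example in genus 4 over `ℚ`.
-/

namespace Pool.Agent.Lib.MP_33b3f9_ag

open Matrix

variable {k₁ : Type*} [Field k₁] {ι : Type} [Fintype ι] [DecidableEq ι]

/-- the vector `e_i + e_j` over `ℤ/2` -/
def TreeE (i j : ι) : ι → ZMod 2 := fun x => (if x = i then 1 else 0) + (if x = j then 1 else 0)

/-- the symmetric matrix `u vᵀ + v uᵀ` -/
def TreeS (u v : ι → ZMod 2) : Matrix ι ι (ZMod 2) := vecMulVec u v + vecMulVec v u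

lemma Tree_two (x : ZMod 2) : x + x = 0 := by
  revert x
  decide

lemma Tree_neg (x : ZMod 2) : -x = x := by
  revert x
  decide

omit [Fintype ι] in
lemma TreeE_comm (i j : ι) : TreeE i j = TreeE j i := by
  ext x
  simp [TreeE, add_comm]

omit [Fintype ι] in
lemma TreeE_self (i : ι) : TreeE i i = 0 := by
  ext x
  simp [TreeE, Tree_two]

omit [Fintype ι] in
lemma TreeE_add (i j m : ι) : TreeE i m = TreeE i j + TreeE j m := by
  ext x
  simp only [TreeE, Pi.add_apply]
  linear_combination (-1 : ZMod 2) * Tree_two (if x = j then (1 : ZMod 2) else 0)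

omit [Fintype ι] in
lemma TreeE_apply {i j : ι} (hij : i ≠ j) (x : ι) :
    TreeE i j x = if x = i ∨ x = j then 1 else 0 := by
  unfold TreeE
  by_cases h1 : x = i
  · subst h1
    simp [hij]
  · simp [h1]

lemma TreeE_dot (i j : ι) (u : ι → ZMod 2) : TreeE i j ⬝ᵥ u = u i + u j := by
  simp [TreeE, dotProduct, add_mul, Finset.sum_add_distrib]

lemma TreeE_dot_self (i j : ι) (hij : i ≠ j) : TreeE i j ⬝ᵥ TreeE i j = 0 := by
  rw [TreeE_dot, TreeE_apply hij, TreeE_apply hij]
  simp [Tree_two]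

lemma TreeE_dot_adj {x y z : ι} (hxy : x ≠ y) (hxz : x ≠ z) (hyz : y ≠ z) :
    TreeE x y ⬝ᵥ TreeE x z = 1 := by
  rw [TreeE_dot, TreeE_apply hxz, TreeE_apply hxz]
  simp [hxy.symm, hyz]

omit [Fintype ι] [DecidableEq ι] in
lemma TreeS_comm (u v : ι → ZMod 2) : TreeS u v = TreeS v u := add_comm _ _

omit [Fintype ι] [DecidableEq ι] in
lemma TreeS_self (u : ι → ZMod 2) : TreeS u u = 0 := by
  ext x y
  simp [TreeS, Tree_two]

omit [Fintype ι] [DecidableEq ι] in
lemma TreeS_zero (v : ι → ZMod 2) : TreeS 0 v = 0 := by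
  ext x y
  simp [TreeS]

omit [Fintype ι] [DecidableEq ι] in
lemma TreeS_add (u u' v : ι → ZMod 2) : TreeS (u + u') v = TreeS u v + TreeS u' v := by
  ext x y
  simp only [TreeS, Matrix.add_apply, vecMulVec_apply, Pi.add_apply]
  ring

omit [DecidableEq ι] in
lemma Tree_mul (u v u' v' : ι → ZMod 2) :
    vecMulVec u v * vecMulVec u' v' = (v ⬝ᵥ u') • vecMulVec u v' := by
  ext x y
  simp only [Matrix.mul_apply, vecMulVec_apply, Matrix.smul_apply, dotProduct, smul_eq_mul,
    Finset.sum_mul]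
  exact Finset.sum_congr rfl fun m _ => by ring

omit [DecidableEq ι] in
lemma Tree_comm_Q (e f : ι → ZMod 2) :
    vecMulVec e e * vecMulVec f f - vecMulVec f f * vecMulVec e e = (e ⬝ᵥ f) • TreeS e f := by
  rw [Tree_mul, Tree_mul, dotProduct_comm f e]
  ext x y
  simp only [TreeS, Matrix.sub_apply, Matrix.smul_apply, Matrix.add_apply, smul_eq_mul,
    sub_eq_add_neg, Tree_neg]
  ring

omit [DecidableEq ι] in
lemma Tree_comm_S (e u v : ι → ZMod 2) :
    vecMulVec e e * TreeS u v - TreeS u v * vecMulVec e e =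
      (e ⬝ᵥ u) • TreeS e v + (e ⬝ᵥ v) • TreeS u e := by
  simp only [TreeS, mul_add, add_mul, Tree_mul, dotProduct_comm v e, dotProduct_comm u e]
  ext x y
  simp only [Matrix.sub_apply, Matrix.smul_apply, Matrix.add_apply, smul_eq_mul,
    sub_eq_add_neg, Tree_neg]
  ring

lemma Tree_lap (a : ι → k₁) (χ : k₁ → ZMod 2) {i j : ι} (hij : i ≠ j)
    (h : ∀ p q, p ≠ q → χ (a p - a q) = if s(p, q) = s(i, j) then 1 else 0) :
    lap a χ = vecMulVec (TreeE i j) (TreeE i j) := by
  ext p q
  simp only [lap, Matrix.of_apply, vecMulVec_apply, TreeE_apply hij]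
  by_cases hpq : p = q
  · subst hpq
    rw [if_pos rfl, Finset.sum_congr rfl
      (fun m hm => h p m (Finset.ne_of_mem_erase hm).symm)]
    by_cases h1 : p = i
    · subst h1
      rw [Finset.sum_eq_single j]
      · simp
      · intro m hm hmj
        have := Finset.ne_of_mem_erase hm
        simp [hmj, hij]
      · intro hj
        simp [hij.symm] at hj
    · by_cases h2 : p = j
      · subst h2
        rw [Finset.sum_eq_single i]
        · simp
        · intro m hm hmj
          simp [hmj, h1]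
        · intro hj
          simp [hij] at hj
      · simp [h1, h2]
  · rw [if_neg hpq, h p q hpq]
    by_cases h1 : p = i <;> by_cases h2 : p = j <;> by_cases h3 : q = i <;>
      by_cases h4 : q = j <;> simp_all

omit [Fintype ι] in
lemma Tree_cyc {p q r s : ι} (h : [p, q, r, s].Nodup) :
    cyc p q r s = TreeS (TreeE p r) (TreeE q s) := by
  simp only [List.nodup_cons, List.mem_cons, List.not_mem_nil, or_false, not_or] at h
  obtain ⟨⟨hpq, hpr, hps⟩, ⟨hqr, hqs⟩, hrs, -⟩ := h
  ext x y
  simp only [cyc, TreeS, Matrix.of_apply, Matrix.add_apply, vecMulVec_apply, TreeE_apply hpr,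
    TreeE_apply hqs]
  by_cases h1 : x = p ∨ x = r <;> by_cases h2 : y = q ∨ y = s <;>
    by_cases h3 : x = q ∨ x = s <;> by_cases h4 : y = p ∨ y = r <;> simp [h1, h2, h3, h4]
  all_goals
    rcases h1 with rfl | rfl <;> rcases h3 with h | h <;> simp_all

/-- if the pairs `{i, j}` that are isolated by some character form a connected graph, the
criterion holds -/
theorem crit_of_connected (a : ι → k₁) (G : SimpleGraph ι) (hG : G.Connected)
    (h : ∀ i j, G.Adj i j → ∃ χ, IsChar χ ∧ ∀ p q, p ≠ q →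
      χ (a p - a q) = if s(p, q) = s(i, j) then 1 else 0) : Crit a := by
  intro L h1 h2 p q r s hnd
  have hsm : ∀ (c : ZMod 2) Y, Y ∈ L → c • Y ∈ L := by
    intro c Y hY
    have hc : c = 0 ∨ c = 1 := by
      revert c
      decide
    rcases hc with rfl | rfl
    · simp
    · simpa using hY
  have hQ : ∀ i j, G.Adj i j → vecMulVec (TreeE i j) (TreeE i j) ∈ L := by
    intro i j hij
    obtain ⟨χ, hχ, hv⟩ := h i j hij
    have := h1 χ hχ
    rwa [Tree_lap a χ hij.ne hv, Tree_mul, TreeE_dot_self i j hij.ne, zero_smul, add_zero] at this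
  have hC : ∀ i j, G.Adj i j → ∀ Y ∈ L, vecMulVec (TreeE i j) (TreeE i j) * Y -
      Y * vecMulVec (TreeE i j) (TreeE i j) ∈ L := by
    intro i j hij Y hY
    obtain ⟨χ, hχ, hv⟩ := h i j hij
    have := h2 χ hχ Y hY
    rwa [Tree_lap a χ hij.ne hv] at this
  have hstep : ∀ f x y z, G.Adj x y → G.Adj x z → TreeS (TreeE x z) f ∈ L →
      TreeS (TreeE x y) f ∈ L := by
    intro f x y z hxy hxz hS
    by_cases hyz : y = z
    · rwa [hyz]
    have hd := TreeE_dot_adj hxy.ne hxz.ne hyz
    have h3 := hC x y hxy _ (hQ x z hxz)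
    rw [Tree_comm_Q, hd, one_smul, TreeS_comm] at h3
    have h4 := hC x y hxy _ hS
    rw [Tree_comm_S, hd, one_smul] at h4
    simpa using L.sub_mem h4 (hsm (TreeE x y ⬝ᵥ f) _ h3)
  have hedge : ∀ i j, G.Adj i j → ∀ x y, G.Adj x y → TreeS (TreeE x y) (TreeE i j) ∈ L := by
    intro i j hij x
    obtain ⟨w⟩ := hG.preconnected x i
    induction w with
    | nil =>
      intro y hy
      refine hstep _ _ _ _ hy hij ?_
      rw [TreeS_self]
      exact L.zero_mem
    | cons hxz w ih =>
      intro y hy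
      refine hstep _ _ _ _ hy hxz ?_
      rw [TreeE_comm]
      exact ih hij _ hxz.symm
  have hwalk : ∀ f, (∀ x y, G.Adj x y → TreeS (TreeE x y) f ∈ L) →
      ∀ x y, TreeS (TreeE x y) f ∈ L := by
    intro f hf x y
    obtain ⟨w⟩ := hG.preconnected x y
    induction w with
    | nil =>
      rw [TreeE_self, TreeS_zero]
      exact L.zero_mem
    | @cons u v w huv _ ih =>
      rw [TreeE_add u v w, TreeS_add]
      exact L.add_mem (hf _ _ huv) ih
  rw [Tree_cyc hnd, TreeS_comm]
  refine hwalk _ (fun i j hij => ?_) q s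
  rw [TreeS_comm]
  exact hwalk _ (hedge i j hij) p r

/-- the parity of a `p`-adic valuation is a character -/
theorem isChar_padic (p : ℕ) [Fact p.Prime] :
    IsChar (fun x : ℚ => ((padicValRat p x : ℤ) : ZMod 2)) := by
  intro x y hx hy
  simp only [padicValRat.mul hx hy]
  push_cast
  rfl

end Pool.Agent.Lib.MP_33b3f9_ag
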