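import Pool.Agent.Lib.MP_33b3f9_ag.Trans

/-!
Zariski closures of sets of matrices.
-/

open Matrix

namespace Pool.Agent.Lib.MP_33b3f9_ag

noncomputable section

variable {ν : Type} [Fintype ν] [DecidableEq ν]

section cl

variable {Ω : Type*} [Field Ω]

/-- Zariski closure in the space of all matrices, polynomials with coefficients in `Ω` -/
def mcl (T : Set (Matrix ν ν Ω)) : Set (Matrix ν ν Ω) :=
  {g | ∀ P : MvPolynomial (ν × ν) Ω, (∀ h ∈ T, evalM h P = 0) → evalM g P = 0}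

omit [Fintype ν] [DecidableEq ν] in
lemma zarA_eval {A : Type*} [CommRing A] [Algebra Ω A] (φ : A →ₐ[Ω] Ω) (G : Matrix ν ν A)
    (P : MvPolynomial (ν × ν) Ω) :
    evalM (G.map φ) P = φ (MvPolynomial.aeval (fun p : ν × ν => G p.1 p.2) P) :=
  (MvPolynomial.comp_aeval_apply (fun p : ν × ν => G p.1 p.2) φ P).symm

omit [DecidableEq ν] in
lemma zarA_two (a b : Matrix ν ν Ω) [DecidableEq ν] (P : MvPolynomial (ν × ν) Ω) :
    ∃ Q : MvPolynomial (ν × ν) Ω, ∀ x : Matrix ν ν Ω, evalM x Q = evalM (a * x * b) P := by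
  refine ⟨MvPolynomial.aeval (fun p : ν × ν => (a.map MvPolynomial.C *
    (Matrix.of fun i j => MvPolynomial.X (i, j)) * b.map MvPolynomial.C :
      Matrix ν ν (MvPolynomial (ν × ν) Ω)) p.1 p.2) P, fun x => ?_⟩
  refine (zarA_eval (MvPolynomial.aeval fun p : ν × ν => x p.1 p.2) _ P).symm.trans ?_
  congr 1
  ext i j
  simp [Matrix.mul_apply]

omit [DecidableEq ν] in
lemma zarA_sqm {A B : Type*} [CommRing A] [CommRing B] (φ : A →+* B) (E : Matrix ν ν A)
    (u : ν → A) : (sqm E u).map φ = sqm (E.map φ) fun i => φ (u i) := by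
  ext i j
  simp [sqm, vecMulVec_apply, mulVec, dotProduct]

lemma zarA_trans {A B : Type*} [CommRing A] [CommRing B] (φ : A →+* B) (E : Matrix ν ν A)
    (u : ν → A) (c : A) :
    (1 + c • sqm E u).map φ = 1 + φ c • sqm (E.map φ) fun i => φ (u i) := by
  rw [← zarA_sqm]
  ext i j
  simp [Matrix.one_apply]

omit [Fintype ν] [DecidableEq ν] in
lemma subset_mcl (T : Set (Matrix ν ν Ω)) : T ⊆ mcl T := by
  exact fun g hg P hP => hP g hg

omit [DecidableEq ν] in
lemma mcl_mul {T : Set (Matrix ν ν Ω)} (hT : ∀ h ∈ T, ∀ h' ∈ T, h * h' ∈ T) {g g' : Matrix ν ν Ω}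
    (hg : g ∈ mcl T) (hg' : g' ∈ mcl T) : g * g' ∈ mcl T := by
  classical
  intro P hP
  have h1 : ∀ h ∈ T, evalM (h * g') P = 0 := fun h hh => by
    obtain ⟨Q, hQ⟩ := zarA_two h 1 P
    have h2 := hg' Q fun x hx => by
      rw [hQ, Matrix.mul_one]
      exact hP _ (hT h hh x hx)
    rwa [hQ, Matrix.mul_one] at h2
  obtain ⟨Q, hQ⟩ := zarA_two 1 g' P
  have h2 := hg Q fun x hx => by
    rw [hQ, Matrix.one_mul]
    exact h1 x hx
  rwa [hQ, Matrix.one_mul] at h2

omit [Fintype ν] [DecidableEq ν] in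
/-- a polynomial curve that meets the closure infinitely often lies in it -/
lemma mcl_curve (T : Set (Matrix ν ν Ω)) (γ : Matrix ν ν (Polynomial Ω)) (S : Set Ω)
    (hS : S.Infinite) (h : ∀ t ∈ S, γ.map (Polynomial.eval t) ∈ mcl T) (t : Ω) :
    γ.map (Polynomial.eval t) ∈ mcl T := by
  intro P hP
  have h1 : ∀ s, evalM (γ.map (Polynomial.eval s)) P =
      (MvPolynomial.aeval (fun p : ν × ν => γ p.1 p.2) P).eval s := fun s => by
    rw [← Polynomial.coe_aeval_eq_eval]
    exact zarA_eval (Polynomial.aeval s) γ P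
  rw [h1, Polynomial.eq_zero_of_infinite_isRoot _
    (hS.mono fun s hs => (h1 s).symm.trans (h s hs P hP)), Polynomial.eval_zero]

end cl

variable {Ω : Type*} [Field Ω] [Algebra ℚ_[2] Ω]

/-- the map `ℤ_2 → Ω` -/
def toΩ (Ω : Type*) [Field Ω] [Algebra ℚ_[2] Ω] : ℤ_[2] →+* Ω :=
  (algebraMap ℚ_[2] Ω).comp PadicInt.Coe.ringHom

omit [Fintype ν] [DecidableEq ν] in
/-- 2-adic limits lie in the Zariski closure -/
lemma mcl_limit [Finite ν] (T : Set (Matrix ν ν ℤ_[2])) (g : Matrix ν ν ℤ_[2])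
    (h : ∀ j : ℕ, ∃ t ∈ T, ∃ Z : Matrix ν ν ℤ_[2], g = t + (2 : ℤ_[2]) ^ j • Z) :
    g.map (toΩ Ω) ∈ mcl ((fun t : Matrix ν ν ℤ_[2] => t.map (toΩ Ω)) '' T) := by
  have := Fintype.ofFinite ν
  intro P hP
  choose t ht Z hZ using h
  have h0 : Filter.Tendsto t Filter.atTop (nhds g) := by
    refine tendsto_pi_nhds.2 fun a => tendsto_pi_nhds.2 fun b => ?_
    have h1 : Filter.Tendsto (fun j => (2 : ℤ_[2]) ^ j * Z j a b) Filter.atTop (nhds 0) := by
      refine squeeze_zero_norm (fun j => ?_) (tendsto_pow_atTop_nhds_zero_of_lt_one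
        (norm_nonneg (2 : ℤ_[2])) ((PadicInt.norm_lt_one_iff_dvd _).2 (by norm_num)))
      rw [norm_mul, norm_pow]
      exact mul_le_of_le_one_right (by positivity) (PadicInt.norm_le_one _)
    have h2 := h1.const_sub (g a b)
    rw [sub_zero] at h2
    refine h2.congr fun j => ?_
    conv_lhs => rw [hZ j]
    simp
  refine (Module.forall_dual_apply_eq_zero_iff ℚ_[2] _).1 fun ℓ => ?_
  let f : Matrix ν ν ℤ_[2] → ℚ_[2] := fun x => ∑ m ∈ P.support,
    (∏ p : ν × ν, ((x p.1 p.2 : ℤ_[2]) : ℚ_[2]) ^ m p) * ℓ (P.coeff m)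
  have hf : ∀ x, ℓ (evalM (x.map (toΩ Ω)) P) = f x := fun x => by
    rw [evalM, MvPolynomial.aeval_def, MvPolynomial.eval₂_eq', map_sum]
    refine Finset.sum_congr rfl fun m _ => ?_
    rw [← smul_eq_mul _ (ℓ _), ← map_smul, Algebra.smul_def, mul_comm, map_prod]
    simp [toΩ]
  have hc : Continuous f := by
    refine continuous_finsetSum _ fun m _ => Continuous.mul ?_ continuous_const
    refine continuous_finsetProd _ fun p _ => Continuous.pow ?_ _
    exact continuous_subtype_val.comp (continuous_apply_apply p.1 p.2)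
  rw [hf]
  refine tendsto_nhds_unique ((hc.tendsto g).comp h0) (tendsto_const_nhds.congr fun j => ?_)
  rw [Function.comp_apply, ← hf, hP _ ⟨t j, ht j, rfl⟩, map_zero]

/-- all transvections over `Ω` lie in the closure -/
lemma trans_mem_mcl (T : Set (Matrix ν ν Ω)) (E : Matrix ν ν ℤ_[2]) (n : ℕ)
    (h : ∀ (u : ν → ℤ_[2]) (c : ℤ_[2]),
      (1 + ((2 : ℤ_[2]) ^ n * c) • sqm E u).map (toΩ Ω) ∈ mcl T)
    (u : ν → Ω) (c : Ω) : 1 + c • sqm (E.map (toΩ Ω)) u ∈ mcl T := by
  intro P hP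
  have hi : Function.Injective (toΩ Ω) :=
    (algebraMap ℚ_[2] Ω).injective.comp Subtype.val_injective
  let G : Matrix ν ν (MvPolynomial (Option ν) Ω) := 1 + (MvPolynomial.X none :
    MvPolynomial (Option ν) Ω) • sqm ((E.map (toΩ Ω)).map MvPolynomial.C)
      fun i => MvPolynomial.X (some i)
  have h1 : ∀ x : Option ν → Ω,
      evalM (1 + x none • sqm (E.map (toΩ Ω)) fun i => x (some i)) P =
        MvPolynomial.eval x (MvPolynomial.aeval (fun p : ν × ν => G p.1 p.2) P) := fun x => by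
    refine Eq.trans ?_ (zarA_eval (MvPolynomial.aeval x) G P)
    congr 1
    refine Eq.trans ?_ (zarA_trans (MvPolynomial.eval x) _ _ _).symm
    simp only [MvPolynomial.eval_X]
    congr 3
    ext i j
    simp
  have h2 : MvPolynomial.aeval (fun p : ν × ν => G p.1 p.2) P = 0 := by
    refine MvPolynomial.funext_set
      (fun _ => Set.range fun c : ℤ_[2] => toΩ Ω ((2 : ℤ_[2]) ^ n * c))
      (fun _ => Set.infinite_range_of_injective
        (hi.comp (mul_right_injective₀ (pow_ne_zero n two_ne_zero)))) fun x hx => ?_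
    choose y hy using fun i => hx i (Set.mem_univ i)
    have h3 := h (fun i => (2 : ℤ_[2]) ^ n * y (some i)) (y none) P hP
    rw [zarA_trans] at h3
    simp only [hy] at h3
    rw [← h1, h3, map_zero]
  have h3 := h1 fun o => o.elim c u
  rwa [h2, map_zero] at h3

end

end Pool.Agent.Lib.MP_33b3f9_ag
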